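import Pool.Agent.Refl.Defs

/-! Module BASIC: elementary facts about `G`, `qd`, `bd`, `Allowed`. -/

namespace Pool.Agent.Refl
open Matrix

variable {G : Matrix (Fin 20) (Fin 20) ℤ}

lemma e_add (s t : ℂ) : e (s + t) = e s * e t := by
  unfold e; rw [← Complex.exp_add]; ring_nf

lemma e_neg (t : ℂ) : e (-t) = (e t)⁻¹ := by
  unfold e; rw [← Complex.exp_neg]; ring_nf

lemma e_zero : e 0 = 1 := by simp [e]

lemma e_int (n : ℤ) : e n = 1 := by
  unfold e; rw [Complex.exp_eq_one_iff]; exact ⟨n, by ring⟩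

lemma e_ne_zero (t : ℂ) : e t ≠ 0 := Complex.exp_ne_zero _

lemma norm_e (t : ℂ) : ‖e t‖ = Real.exp (-(2 * Real.pi * t.im)) := by
  unfold e; rw [Complex.norm_exp]; congr 1; simp [Complex.mul_re, Complex.mul_im]

/-- `G⁻¹ p` as a real vector -/
noncomputable def ginv (G : Matrix (Fin 20) (Fin 20) ℤ) (p : VZ) : VR :=
  (G.map (Int.cast : ℤ → ℝ))⁻¹ *ᵥ toR p

lemma b_bil_eq {R : Type*} [CommRing R] (x y : Fin 20 → R) :
    bil G x y = x ⬝ᵥ (G.map (Int.cast : ℤ → R)) *ᵥ y := by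
  unfold bil dotProduct mulVec dotProduct
  apply Finset.sum_congr rfl; intro i _
  rw [Finset.mul_sum]
  apply Finset.sum_congr rfl; intro j _
  simp only [Matrix.map_apply]; ring

lemma b_dot_eq (p : VZ) (y : VR) : dot p y = toR p ⬝ᵥ y := rfl

lemma b_bd_eq (p p' : VZ) : bd G p p' = toR p ⬝ᵥ ginv G p' := by
  unfold bd ginv dotProduct mulVec dotProduct toR
  apply Finset.sum_congr rfl; intro i _
  rw [Finset.mul_sum]
  apply Finset.sum_congr rfl; intro j _
  ring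

lemma b_det_unit (hG : EvenPos G) : IsUnit (G.map (Int.cast : ℤ → ℝ)).det :=
  isUnit_iff_ne_zero.2 hG.pos.det_pos.ne'

lemma b_mul_ginv (hG : EvenPos G) (p : VZ) :
    (G.map (Int.cast : ℤ → ℝ)) *ᵥ ginv G p = toR p := by
  unfold ginv
  rw [mulVec_mulVec, mul_nonsing_inv _ (b_det_unit hG), one_mulVec]

lemma b_bil_add_left {R : Type*} [CommRing R] (x x' y : Fin 20 → R) :
    bil G (x + x') y = bil G x y + bil G x' y := by
  rw [b_bil_eq, b_bil_eq, b_bil_eq, add_dotProduct]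

lemma b_bil_add_right {R : Type*} [CommRing R] (x y y' : Fin 20 → R) :
    bil G x (y + y') = bil G x y + bil G x y' := by
  rw [b_bil_eq, b_bil_eq, b_bil_eq, mulVec_add, dotProduct_add]

lemma b_bil_smul_left {R : Type*} [CommRing R] (c : R) (x y : Fin 20 → R) :
    bil G (c • x) y = c * bil G x y := by
  rw [b_bil_eq, b_bil_eq, smul_dotProduct, smul_eq_mul]

lemma b_bil_smul_right {R : Type*} [CommRing R] (c : R) (x y : Fin 20 → R) :
    bil G x (c • y) = c * bil G x y := by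
  rw [b_bil_eq, b_bil_eq, mulVec_smul, dotProduct_smul, smul_eq_mul]

theorem det_pos (hG : EvenPos G) : 0 < G.det := by
  have h := hG.pos.det_pos
  have h2 : ((G.det : ℤ) : ℝ) = (G.map (Int.cast : ℤ → ℝ)).det := Int.cast_det G
  rw [← h2] at h
  exact_mod_cast h

theorem bil_symm {R : Type*} [CommRing R] (hG : EvenPos G) (x y : Fin 20 → R) :
    bil G x y = bil G y x := by
  unfold bil
  rw [Finset.sum_comm]
  apply Finset.sum_congr rfl; intro i _
  apply Finset.sum_congr rfl; intro j _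
  rw [hG.symm.apply i j]; ring

theorem bil_pos (hG : EvenPos G) {y : VR} (hy : y ≠ 0) : 0 < bil G y y := by
  have h := hG.pos.dotProduct_mulVec_pos hy
  rw [b_bil_eq]
  simpa using h

theorem bil_nonneg (hG : EvenPos G) (y : VR) : 0 ≤ bil G y y := by
  by_cases hy : y = 0
  · subst hy; simp [bil]
  · exact (bil_pos hG hy).le

/-- the norm of an integral vector is even -/
theorem bil_even (hG : EvenPos G) (v : VZ) : Even (bil G v v) := by
  rw [← ZMod.intCast_eq_zero_iff_even]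
  unfold bil
  push_cast
  rw [← Finset.sum_product']
  refine Finset.sum_involution (fun a _ => (a.2, a.1)) ?_ ?_ (fun _ _ => by simp) (fun _ _ => rfl)
  · intro a _
    simp only
    rw [hG.symm.apply a.1 a.2]
    have : ((G a.1 a.2 : ℤ) : ZMod 2) * (v a.1 : ZMod 2) * (v a.2 : ZMod 2)
      + ((G a.1 a.2 : ℤ) : ZMod 2) * (v a.2 : ZMod 2) * (v a.1 : ZMod 2) =
      (1 + 1) * (((G a.1 a.2 : ℤ) : ZMod 2) * (v a.1 : ZMod 2) * (v a.2 : ZMod 2)) := by ring
    rw [this]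
    have h2 : (1 + 1 : ZMod 2) = 0 := by decide
    rw [h2, zero_mul]
  · intro a _ hne heq
    apply hne
    have h1 : a.2 = a.1 := congrArg Prod.fst heq
    rw [h1]
    have h2 : ((G a.1 a.1 : ℤ) : ZMod 2) = 0 := (ZMod.intCast_eq_zero_iff_even).2 (hG.even a.1)
    rw [h2]; ring

theorem bil_ginv (hG : EvenPos G) (p : VZ) (y : VR) : bil G (ginv G p) y = dot p y := by
  rw [bil_symm hG, b_bil_eq, b_mul_ginv hG, b_dot_eq, dotProduct_comm]

set_option linter.unusedVariables false in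
theorem dot_ginv (hG : EvenPos G) (p p' : VZ) : dot p (ginv G p') = bd G p p' := by
  rw [b_bd_eq, b_dot_eq]

theorem bd_self (p : VZ) : bd G p p = qd G p := rfl

theorem bil_ginv_ginv (hG : EvenPos G) (p : VZ) : bil G (ginv G p) (ginv G p) = qd G p := by
  rw [bil_ginv hG, dot_ginv hG, bd_self]

theorem qd_nonneg (hG : EvenPos G) (p : VZ) : 0 ≤ qd G p := by
  rw [← bil_ginv_ginv hG]; exact bil_nonneg hG _

theorem qd_pos (hG : EvenPos G) {p : VZ} (hp : p ≠ 0) : 0 < qd G p := by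
  rw [← bil_ginv_ginv hG]
  apply bil_pos hG
  intro h
  apply hp
  have h1 := b_mul_ginv hG p
  rw [h, mulVec_zero] at h1
  funext i
  have := congrFun h1 i
  simp only [toR, Pi.zero_apply] at this
  exact_mod_cast this.symm

theorem qd_neg (p : VZ) : qd G (-p) = qd G p := by
  unfold qd
  simp

lemma b_toR_mulVec (v : VZ) : toR (G *ᵥ v) = (G.map (Int.cast : ℤ → ℝ)) *ᵥ toR v := by
  funext i
  simp only [toR, mulVec, dotProduct, Matrix.map_apply]
  push_cast
  rfl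

lemma b_ginv_mulVec (hG : EvenPos G) (v : VZ) : ginv G (G *ᵥ v) = toR v := by
  unfold ginv
  rw [b_toR_mulVec, mulVec_mulVec, nonsing_inv_mul _ (b_det_unit hG), one_mulVec]

lemma b_dot_toR (p v : VZ) : dot p (toR v) = ((p ⬝ᵥ v : ℤ) : ℝ) := by
  unfold dot toR dotProduct
  push_cast
  rfl

lemma b_bil_toR (v w : VZ) : bil G (toR v) (toR w) = ((bil G v w : ℤ) : ℝ) := by
  unfold bil toR
  push_cast
  rfl

theorem bd_mulVec (hG : EvenPos G) (p v : VZ) : bd G p (G *ᵥ v) = (p ⬝ᵥ v : ℤ) := by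
  rw [b_bd_eq, b_ginv_mulVec hG, ← b_dot_eq, b_dot_toR]

/-- elements of `L` in dual coordinates -/
theorem qd_mulVec (hG : EvenPos G) (v : VZ) : qd G (G *ᵥ v) = (bil G v v : ℤ) := by
  rw [← bil_ginv_ginv hG, b_ginv_mulVec hG, b_bil_toR]

/-- `det G * bd p p'` is an integer -/
theorem bd_rat (hG : EvenPos G) (p p' : VZ) : ∃ k : ℤ, (G.det : ℝ) * bd G p p' = k := by
  refine ⟨∑ i, ∑ j, G.adjugate i j * p i * p' j, ?_⟩
  have hdet : ((G.det : ℤ) : ℝ) = (G.map (Int.cast : ℤ → ℝ)).det := Int.cast_det G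
  have hadj : (G.map (Int.cast : ℤ → ℝ)).adjugate = G.adjugate.map (Int.cast : ℤ → ℝ) := by
    have := (Int.castRingHom ℝ).map_adjugate G
    exact this.symm
  have hd : (G.map (Int.cast : ℤ → ℝ)).det ≠ 0 := hG.pos.det_pos.ne'
  have hinv : ∀ i j, (G.det : ℝ) * (G.map (Int.cast : ℤ → ℝ))⁻¹ i j = (G.adjugate i j : ℝ) := by
    intro i j
    rw [Matrix.inv_def, Ring.inverse_eq_inv', hadj, hdet]
    simp only [Matrix.smul_apply, Matrix.map_apply, smul_eq_mul]
    rw [← mul_assoc, mul_inv_cancel₀ hd, one_mul]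
  unfold bd
  rw [Finset.mul_sum, Int.cast_sum]
  apply Finset.sum_congr rfl; intro i _
  rw [Finset.mul_sum, Int.cast_sum]
  apply Finset.sum_congr rfl; intro j _
  rw [Int.cast_mul, Int.cast_mul, ← hinv i j]; ring

theorem b_cauchy (hG : EvenPos G) (u y : VR) : (bil G u y) ^ 2 ≤ bil G u u * bil G y y := by
  by_cases hy : y = 0
  · subst hy
    have h0 : bil G u 0 = 0 := by simp [bil]
    have h1 : bil G (0 : VR) 0 = 0 := by simp [bil]
    rw [h0, h1]; simp
  · have hB := bil_pos hG hy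
    have h := bil_nonneg hG (bil G y y • u + (-(bil G u y)) • y)
    simp only [b_bil_add_left, b_bil_add_right, b_bil_smul_left, b_bil_smul_right,
      bil_symm hG y u] at h
    have h2 : 0 ≤ bil G y y * (bil G u u * bil G y y - (bil G u y) ^ 2) := by
      nlinarith [h]
    have h3 := nonneg_of_mul_nonneg_right h2 hB
    linarith

theorem dot_sq_le (hG : EvenPos G) (p : VZ) (y : VR) :
    (dot p y) ^ 2 ≤ qd G p * bil G y y := by
  rw [← bil_ginv hG, ← bil_ginv_ginv hG]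
  exact b_cauchy hG _ _

/-- completing the square: `(m/2)(y + G⁻¹p/m)² = (m/2) y² + p.y + qd p/(2m)` -/
theorem complete_square (hG : EvenPos G) (p : VZ) (y : VR) {m : ℝ} (hm : m ≠ 0) :
    m / 2 * bil G (y + m⁻¹ • ginv G p) (y + m⁻¹ • ginv G p) =
      m / 2 * bil G y y + dot p y + qd G p / (2 * m) := by
  simp only [b_bil_add_left, b_bil_add_right, b_bil_smul_left, b_bil_smul_right,
    bil_symm hG y (ginv G p), bil_ginv hG, dot_ginv hG, bd_self]
  field_simp
  ring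

lemma b_dot_single (p : VZ) (i : Fin 20) : dot p (Pi.single i (1 : ℝ)) = (p i : ℝ) := by
  unfold dot
  rw [Finset.sum_eq_single i]
  · simp
  · intro j _ hj; simp [Pi.single_eq_of_ne hj]
  · intro h; exact absurd (Finset.mem_univ i) h

theorem finite_qd_le (hG : EvenPos G) (R : ℝ) : {p : VZ | qd G p ≤ R}.Finite := by
  have key : ∀ i : Fin 20, ∃ B : ℤ, ∀ p : VZ, qd G p ≤ R → -B ≤ p i ∧ p i ≤ B := by
    intro i
    set g := bil G (Pi.single i (1 : ℝ)) (Pi.single i (1 : ℝ)) with hg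
    have hg0 : 0 ≤ g := bil_nonneg hG _
    obtain ⟨N, hN⟩ := exists_nat_gt (R * g + 1)
    refine ⟨(N : ℤ), fun p hp => ?_⟩
    have h1 := dot_sq_le hG p (Pi.single i (1 : ℝ))
    rw [b_dot_single, ← hg] at h1
    have h2 : ((p i : ℤ) : ℝ) ^ 2 ≤ R * g := h1.trans (mul_le_mul_of_nonneg_right hp hg0)
    have h3 : |((p i : ℤ) : ℝ)| ≤ N := by
      have hN1 : (1 : ℝ) ≤ N := by nlinarith [sq_nonneg ((p i : ℤ) : ℝ)]
      apply abs_le_of_sq_le_sq _ (by positivity)
      nlinarith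
    have h4 := abs_le.1 h3
    constructor
    · have := h4.1; exact_mod_cast this
    · have := h4.2; exact_mod_cast this
  choose B hB using key
  apply (Set.finite_Icc (fun i => -B i) B).subset
  intro p hp
  exact ⟨fun i => (hB i p hp).1, fun i => (hB i p hp).2⟩

theorem allowed_neg {a b n m : ℤ} {p : VZ} (h : Allowed G a b n m p) :
    Allowed G (-a) (-b) (-n) (-m) (-p) := by
  obtain ⟨k, v, d, hk, hd, h1, h2⟩ := h
  refine ⟨k, -v, d, hk, hd, ?_, ?_⟩
  · rw [mulVec_neg, h1, smul_neg]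
  · rw [neg_dotProduct_neg]
    linear_combination h2

lemma b_allowed (hG : EvenPos G) {a b n m k d : ℤ} {p v : VZ} (h1 : G *ᵥ v = k • p)
    (h2 : k * (2 * a * b + 2 * n * m) - p ⬝ᵥ v = -d) :
    (k : ℝ) * (2 * (a : ℝ) * b + 2 * n * m - qd G p) = -d := by
  have h3 : (k : ℝ) * qd G p = ((p ⬝ᵥ v : ℤ) : ℝ) := by
    rw [← bd_mulVec hG, h1]
    unfold bd qd
    rw [Finset.mul_sum]
    apply Finset.sum_congr rfl; intro i _
    rw [Finset.mul_sum]
    apply Finset.sum_congr rfl; intro j _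
    simp only [Pi.smul_apply, smul_eq_mul]
    push_cast; ring
  have h4 : ((k * (2 * a * b + 2 * n * m) - p ⬝ᵥ v : ℤ) : ℝ) = -d := by rw [h2]; push_cast; ring
  rw [mul_sub, h3]
  push_cast at h4 ⊢
  linarith

/-- (A1) -/
theorem allowed_norm (hG : EvenPos G) {a b n m : ℤ} {p : VZ} (h : Allowed G a b n m p) :
    -2 ≤ 2 * (a : ℝ) * b + 2 * n * m - qd G p ∧ 2 * (a : ℝ) * b + 2 * n * m - qd G p < 0 := by
  obtain ⟨k, v, d, hk, hd, h1, h2⟩ := h
  have h3 := b_allowed hG h1 h2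
  have hk1 : (1 : ℝ) ≤ k := by exact_mod_cast hk
  have hd1 : (1 : ℝ) ≤ d ∧ (d : ℝ) ≤ 2 := by
    rcases hd with rfl | rfl <;> norm_num
  constructor
  · by_contra hcon
    push Not at hcon
    nlinarith
  · by_contra hcon
    push Not at hcon
    nlinarith

/-- (A2), (A3) -/
theorem allowed_cases (hG : EvenPos G) {a b n m : ℤ} {p : VZ} (h : Allowed G a b n m p) :
    (2 * (a : ℝ) * b + 2 * n * m - qd G p = -2 ∧ ∃ v : VZ, G *ᵥ v = p) ∨
      2 * (a : ℝ) * b + 2 * n * m - qd G p = -1 ∨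
      -(2 / 3) ≤ 2 * (a : ℝ) * b + 2 * n * m - qd G p := by
  obtain ⟨k, v, d, hk, hd, h1, h2⟩ := h
  have h3 := b_allowed hG h1 h2
  set N := 2 * (a : ℝ) * b + 2 * n * m - qd G p with hN
  rcases lt_trichotomy k 2 with h | h | h
  · have hk1 : k = 1 := by omega
    subst hk1
    rcases hd with rfl | rfl
    · right; left; push_cast at h3; linarith
    · left
      refine ⟨by push_cast at h3; linarith, v, ?_⟩
      rw [h1, one_smul]
  · subst h
    rcases hd with rfl | rfl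
    · right; right; push_cast at h3; linarith
    · right; left; push_cast at h3; linarith
  · right; right
    have hk3 : (3 : ℝ) ≤ k := by exact_mod_cast (by omega : (3 : ℤ) ≤ k)
    have hd1 : (d : ℝ) ≤ 2 := by
      rcases hd with rfl | rfl <;> norm_num
    by_contra hcon
    push Not at hcon
    nlinarith

set_option linter.unusedVariables false in
/-- (A4) -/
theorem allowed_dvd (hG : EvenPos G) {b₁ n₁ m₁ b₂ n₂ m₂ : ℤ} {p₁ p₂ : VZ}
    (h₁ : Allowed G 0 b₁ n₁ m₁ p₁) (h₂ : Allowed G 0 b₂ n₂ m₂ p₂) (hm₁ : 0 < m₁) (hm₂ : 0 < m₂)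
    (hn : m₂ * n₁ = m₁ * n₂) (hp : m₂ • p₁ = m₁ • p₂) : m₁ ∣ 2 * m₂ := by
  obtain ⟨k, v, d, hk, hd, h1, h2⟩ := h₁
  have hpv : m₂ * (p₁ ⬝ᵥ v) = m₁ * (p₂ ⬝ᵥ v) := by
    rw [← smul_eq_mul, ← smul_eq_mul, ← smul_dotProduct, ← smul_dotProduct, hp]
  have hdvd : m₁ ∣ m₂ * d := by
    refine ⟨-(k * (n₂ * m₁ + n₁ * m₂) - p₂ ⬝ᵥ v), ?_⟩
    linear_combination m₂ * h2 + hpv - k * m₁ * hn
  rcases hd with rfl | rfl
  · rw [mul_one] at hdvd
    exact hdvd.mul_left 2
  · rw [mul_comm 2 m₂]; exact hdvd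

end Pool.Agent.Refl
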