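import Pool.Agent.Refl.Basic

/-! Module CASEA -/

namespace Pool.Agent.Refl
open Matrix

variable {G : Matrix (Fin 20) (Fin 20) ℤ}

lemma casea_bil_add (X z w : VC) (c : ℂ) : bil G X (z + c • w) = bil G X z + c * bil G X w := by
  simp only [bil, Pi.add_apply, Pi.smul_apply, smul_eq_mul, Finset.mul_sum]
  rw [← Finset.sum_add_distrib]
  refine Finset.sum_congr rfl fun i _ => ?_
  rw [← Finset.sum_add_distrib]
  refine Finset.sum_congr rfl fun j _ => ?_
  ring

lemma casea_bil_neg (x : VZ) (z : VC) : bil G (toC (-x)) z = -bil G (toC x) z := by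
  simp only [bil, toC, Pi.neg_apply, Int.cast_neg, ← Finset.sum_neg_distrib]
  refine Finset.sum_congr rfl fun i _ => Finset.sum_congr rfl fun j _ => ?_
  ring

lemma casea_toC_neg (x : VZ) : toC (-x) = -toC x := by
  ext i; simp [toC]

lemma casea_bil_neg_neg (x : VZ) :
    bil G (toC (-x)) (toC (-x)) = bil G (toC x) (toC x) := by
  simp only [bil, toC, Pi.neg_apply, Int.cast_neg]
  refine Finset.sum_congr rfl fun i _ => Finset.sum_congr rfl fun j _ => ?_
  ring

lemma casea_bil_cast (x : VZ) : bil G (toC x) (toC x) = ((bil G (toR x) (toR x) : ℝ) : ℂ) := by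
  simp only [bil, toC, toR]
  push_cast
  rfl

/-- a point of the tube domain with large imaginary part of `ω` -/
lemma casea_tube (hG : EvenPos G) (z : VC) (τ : ℂ) (hτ : 0 < τ.im) (t : ℝ) (ht0 : 0 < t)
    (ht : bil G (imC z) (imC z) < 2 * τ.im * t) : (τ, z, Complex.I * t) ∈ Tube G := by
  have := ht0
  have _ := hG
  refine ⟨hτ, ?_⟩
  have h1 : (Complex.I * (t : ℂ)).im = t := by simp
  rw [h1]
  exact ht

/-- A Fourier–Jacobi expansion with only one term is impossible. -/
theorem caseA (hG : EvenPos G) {k : ℤ} {f : ℂ → VC → ℂ → ℂ} (hf : TF G k f)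
    {ψ : ℕ → ℂ → VC → ℂ} (hψ : FJ G k f ψ) (C : ℕ)
    (h : ∀ m, m ≠ C → ∀ τ z, 0 < τ.im → ψ m τ z = 0) : False := by
  -- one term
  have hone : ∀ τ z ω, (τ, z, ω) ∈ Tube G → f τ z ω = ψ C τ z * e (C * ω) := by
    intro τ z ω hT
    refine (hψ.sum τ z ω hT).unique (hasSum_single C fun m hm => ?_)
    rw [h m hm τ z hT.1, zero_mul]
  -- separation of the variable
  have hsep : ∀ (z : VC) (τ τ' : ℂ), 0 < τ.im → 0 < τ'.im →
      ψ C τ z * e (-(C * τ)) = ψ C τ' z * e (-(C * τ')) := by
    intro z τ τ' hτ hτ'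
    obtain ⟨t, ht0, ht1, ht2⟩ : ∃ t : ℝ, 0 < t ∧ bil G (imC z) (imC z) < 2 * τ.im * t ∧
        bil G (imC z) (imC z) < 2 * τ'.im * t := by
      refine ⟨max 1 (max ((bil G (imC z) (imC z) + 1) / (2 * τ.im))
        ((bil G (imC z) (imC z) + 1) / (2 * τ'.im))), by positivity, ?_, ?_⟩
      · have h1 : (bil G (imC z) (imC z) + 1) / (2 * τ.im) ≤
            max 1 (max ((bil G (imC z) (imC z) + 1) / (2 * τ.im))
              ((bil G (imC z) (imC z) + 1) / (2 * τ'.im))) :=
          le_max_of_le_right (le_max_left _ _)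
        rw [div_le_iff₀ (by positivity)] at h1
        linarith
      · have h1 : (bil G (imC z) (imC z) + 1) / (2 * τ'.im) ≤
            max 1 (max ((bil G (imC z) (imC z) + 1) / (2 * τ.im))
              ((bil G (imC z) (imC z) + 1) / (2 * τ'.im))) :=
          le_max_of_le_right (le_max_right _ _)
        rw [div_le_iff₀ (by positivity)] at h1
        linarith
    have key : ∀ σ : ℂ, 0 < σ.im → bil G (imC z) (imC z) < 2 * σ.im * t →
        ψ C σ z * e (-(C * σ)) =
          ψ C (Complex.I * t) z * e (-(C * (Complex.I * t))) := by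
      intro σ hσ hσt
      have hT := casea_tube hG z σ hσ t ht0 hσt
      have hT' : (Complex.I * (t : ℂ), z, σ) ∈ Tube G := by
        refine ⟨by simpa using ht0, ?_⟩
        have h1 : (Complex.I * (t : ℂ)).im = t := by simp
        rw [h1]
        linarith
      have h1 := hf.W σ z (Complex.I * t) hT
      rw [hone _ _ _ hT, hone _ _ _ hT'] at h1
      have h2 := e_ne_zero (C * σ)
      have h3 := e_ne_zero (C * (Complex.I * t))
      rw [e_neg, e_neg, ← div_eq_mul_inv, ← div_eq_mul_inv, div_eq_div_iff h2 h3]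
      exact h1.symm
    rw [key τ hτ ht1, key τ' hτ' ht2]
  set P : VC → ℂ := fun z => ψ C Complex.I z * e (-(C * Complex.I)) with hPdef
  have hP : ∀ τ z, 0 < τ.im → ψ C τ z = P z * e (C * τ) := by
    intro τ z hτ
    have h1 := hsep z τ Complex.I hτ (by simp)
    have h2 : P z = ψ C τ z * e (-(C * τ)) := by rw [hPdef]; exact h1.symm
    rw [h2, mul_assoc, ← e_add, neg_add_cancel, e_zero, mul_one]
  -- (H)
  have hH : ∀ (τ : ℂ) (z : VC) (x : VZ), 0 < τ.im → P (z + τ • toC x) =
      e (-(C * (bil G (toC x) z + bil G (toC x) (toC x) * τ / 2))) * P z := by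
    intro τ z x hτ
    have h1 := hψ.H C τ z x hτ
    rw [hP τ _ hτ, hP τ _ hτ, ← mul_assoc] at h1
    exact mul_right_cancel₀ (e_ne_zero _) h1
  -- all complex multiples
  have hH2 : ∀ (δ : ℂ) (z : VC) (x : VZ), P (z + δ • toC x) =
      e (C * (bil G (toC x) (toC x) * δ / 2)) * P z := by
    intro δ z x
    obtain ⟨τ, τ', hτ, hτ', rfl⟩ : ∃ τ τ' : ℂ, 0 < τ.im ∧ 0 < τ'.im ∧ δ = τ - τ' := by
      refine ⟨δ + ((|δ.im| + 1 : ℝ) : ℂ) * Complex.I, ((|δ.im| + 1 : ℝ) : ℂ) * Complex.I, ?_, ?_,
        by ring⟩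
      · have : (δ + ((|δ.im| + 1 : ℝ) : ℂ) * Complex.I).im = δ.im + (|δ.im| + 1) := by simp
        rw [this]
        linarith [neg_abs_le δ.im]
      · have : (((|δ.im| + 1 : ℝ) : ℂ) * Complex.I).im = |δ.im| + 1 := by simp
        rw [this]
        positivity
    have h1 := hH τ' (z + τ • toC x) (-x) hτ'
    have h2 : z + τ • toC x + τ' • toC (-x) = z + (τ - τ') • toC x := by
      rw [casea_toC_neg, smul_neg, sub_smul]
      abel
    rw [h2, hH τ z x hτ, casea_bil_neg, casea_bil_neg_neg, casea_bil_add, ← mul_assoc,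
      ← e_add] at h1
    rw [h1]
    congr 2
    ring
  -- the form at x
  have hcon : ∀ z, (C : ℝ) ≠ 0 → P z = 0 := by
    intro z hC
    by_contra hne
    set x : VZ := Pi.single 0 1 with hx
    have hx0 : toR x ≠ 0 := by
      intro h0
      have := congrFun h0 0
      simp [toR, hx] at this
    have ha := bil_pos hG hx0
    have hA := casea_bil_cast (G := G) x
    set a : ℝ := bil G (toR x) (toR x) with hadef
    have himz : ∀ t : ℝ, 0 < t → (C : ℝ) * (a * t + (bil G (toC x) z).im) = 0 := by
      intro t ht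
      have hδ : 0 < (Complex.I * (t : ℂ)).im := by simpa using ht
      have h1 := hH (Complex.I * t) z x hδ
      rw [hH2 (Complex.I * t) z x] at h1
      have h2 := mul_right_cancel₀ hne h1
      have h3 := congrArg norm h2
      rw [norm_e, norm_e, hA] at h3
      have h4 := Real.exp_injective h3
      have h5 : ((C : ℂ) * ((a : ℂ) * (Complex.I * t) / 2)).im = C * (a * t / 2) := by
        have : (C : ℂ) * ((a : ℂ) * (Complex.I * t) / 2) =
            ((C * (a * t / 2) : ℝ) : ℂ) * Complex.I := by push_cast; ring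
        rw [this]; simp
      have h6 : (-((C : ℂ) * (bil G (toC x) z + (a : ℂ) * (Complex.I * t) / 2))).im =
          -(C * ((bil G (toC x) z).im + a * t / 2)) := by
        have : -((C : ℂ) * (bil G (toC x) z + (a : ℂ) * (Complex.I * t) / 2)) =
            -((C : ℝ) : ℂ) * bil G (toC x) z - ((C * (a * t / 2) : ℝ) : ℂ) * Complex.I := by
          push_cast; ring
        rw [this]
        simp only [Complex.sub_im, Complex.mul_im, Complex.neg_re, Complex.ofReal_re,
          Complex.neg_im, Complex.ofReal_im, Complex.I_im, Complex.I_re]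
        ring
      rw [h5, h6] at h4
      have hpi : (2 * Real.pi) ≠ 0 := by positivity
      have h7 : (C : ℝ) * (a * t / 2) = -(C * ((bil G (toC x) z).im + a * t / 2)) := by
        have h8 : 2 * Real.pi * ((C : ℝ) * (a * t / 2)) =
            2 * Real.pi * -(C * ((bil G (toC x) z).im + a * t / 2)) := by linarith
        exact mul_left_cancel₀ hpi h8
      linarith
    have h1 := himz 1 one_pos
    have h2 := himz 2 two_pos
    have h3 : (C : ℝ) * a = 0 := by linarith
    rcases mul_eq_zero.mp h3 with h4 | h4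
    · exact hC h4
    · exact ha.ne' h4
  obtain ⟨Z, hZ, W, hW, hne⟩ := hf.nonconst
  by_cases hC : (C : ℝ) = 0
  · have hC0 : C = 0 := by exact_mod_cast hC
    have hconst : ∀ z, P z = P 0 := by
      intro z
      have hsum : ∀ s : Finset (Fin 20),
          P (∑ i ∈ s, z i • toC (Pi.single i 1)) = P 0 := by
        intro s
        classical
        induction s using Finset.induction_on with
        | empty => simp
        | insert i s his ih =>
          rw [Finset.sum_insert his, add_comm, hH2, ih, hC0]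
          simp [e_zero]
      have hz : ∑ i, z i • toC (Pi.single i 1) = z := by
        ext j
        simp only [Finset.sum_apply, Pi.smul_apply, smul_eq_mul, toC]
        rw [Finset.sum_eq_single j]
        · simp
        · intro b _ hb
          simp [Ne.symm hb]
        · simp
      rw [← hz]
      exact hsum _
    apply hne
    rw [hone _ _ _ hZ, hone _ _ _ hW, hP _ _ hZ.1, hP _ _ hW.1, hconst Z.2.1, hconst W.2.1, hC0]
    simp [e_zero]
  · apply hne
    rw [hone _ _ _ hZ, hone _ _ _ hW, hP _ _ hZ.1, hP _ _ hW.1, hcon _ hC, hcon _ hC]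
    simp

end Pool.Agent.Refl
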