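import Pool.Agent.Refl.Basic

/-! Module CONE, part 1: linear algebra of `M`. -/

namespace Pool.Agent.Refl
open Matrix

variable {G : Matrix (Fin 20) (Fin 20) ℤ}

section formula
variable {R : Type*} [CommRing R]

lemma cone_dot (x y : Fin 20 → R) :
    x ⬝ᵥ (G.map (Int.cast : ℤ → R)) *ᵥ y = bil G x y := by
  simp only [bil, dotProduct, mulVec, Matrix.map_apply, Finset.mul_sum]
  refine Finset.sum_congr rfl fun i _ => ?_
  refine Finset.sum_congr rfl fun j _ => ?_
  ring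

lemma form_eq (x y : Idx → R) :
    form G x y = x (Sum.inl 0) * y (Sum.inl 1) + x (Sum.inl 1) * y (Sum.inl 0)
      + x (Sum.inl 2) * y (Sum.inl 3) + x (Sum.inl 3) * y (Sum.inl 2)
      - bil G (fun i => x (Sum.inr i)) (fun i => y (Sum.inr i)) := by
  unfold form gramM
  rw [Matrix.fromBlocks_map, Matrix.fromBlocks_mulVec, dotProduct, Fintype.sum_sum_type]
  have h1 : ∀ i : Fin 20, (Sum.elim
      ((!![0, 1, 0, 0; 1, 0, 0, 0; 0, 0, 0, 1; 0, 0, 1, 0] : Matrix (Fin 4) (Fin 4) ℤ).map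
        (Int.cast : ℤ → R) *ᵥ y ∘ Sum.inl + (0 : Matrix (Fin 4) (Fin 20) ℤ).map
        (Int.cast : ℤ → R) *ᵥ y ∘ Sum.inr)
      ((0 : Matrix (Fin 20) (Fin 4) ℤ).map (Int.cast : ℤ → R) *ᵥ y ∘ Sum.inl +
        (-G).map (Int.cast : ℤ → R) *ᵥ y ∘ Sum.inr)) (Sum.inr i) =
        - ((G.map (Int.cast : ℤ → R)) *ᵥ (fun i => y (Sum.inr i))) i := by
    intro i
    have h0 : (0 : Matrix (Fin 20) (Fin 4) ℤ).map (Int.cast : ℤ → R) = 0 := by
      ext a b; simp
    have h2 : (-G).map (Int.cast : ℤ → R) = -(G.map (Int.cast : ℤ → R)) := by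
      ext a b; simp
    rw [Sum.elim_inr, h0, h2, Matrix.zero_mulVec, zero_add, Matrix.neg_mulVec, Pi.neg_apply]
    rfl
  simp only [h1]
  have h3 : ∑ i : Fin 20, x (Sum.inr i) * -(G.map (Int.cast : ℤ → R) *ᵥ fun i => y (Sum.inr i)) i
      = - bil G (fun i => x (Sum.inr i)) (fun i => y (Sum.inr i)) := by
    rw [← cone_dot, dotProduct, ← Finset.sum_neg_distrib]
    refine Finset.sum_congr rfl fun i _ => ?_
    ring
  rw [h3, Fin.sum_univ_four]
  have h4 : ∀ i : Fin 4, (Sum.elim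
      ((!![0, 1, 0, 0; 1, 0, 0, 0; 0, 0, 0, 1; 0, 0, 1, 0] : Matrix (Fin 4) (Fin 4) ℤ).map
        (Int.cast : ℤ → R) *ᵥ y ∘ Sum.inl + (0 : Matrix (Fin 4) (Fin 20) ℤ).map
        (Int.cast : ℤ → R) *ᵥ y ∘ Sum.inr)
      ((0 : Matrix (Fin 20) (Fin 4) ℤ).map (Int.cast : ℤ → R) *ᵥ y ∘ Sum.inl +
        (-G).map (Int.cast : ℤ → R) *ᵥ y ∘ Sum.inr)) (Sum.inl i) =
        ![y (Sum.inl 1), y (Sum.inl 0), y (Sum.inl 3), y (Sum.inl 2)] i := by
    intro i
    have h0 : (0 : Matrix (Fin 4) (Fin 20) ℤ).map (Int.cast : ℤ → R) = 0 := by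
      ext a b; simp
    rw [Sum.elim_inl, h0, Matrix.zero_mulVec, add_zero]
    fin_cases i <;> simp [mulVec, dotProduct, Fin.sum_univ_four]
  simp only [h4]
  simp
  ring

end formula

lemma form_comm {R : Type*} [CommRing R] (hG : EvenPos G) (x y : Idx → R) :
    form G x y = form G y x := by
  rw [form_eq, form_eq, bil_symm hG]; ring


/-- cast of integral vectors -/
def cst (R : Type*) [CommRing R] (x : Idx → ℤ) : Idx → R := fun i => (x i : R)

section act
variable {R : Type*} [CommRing R]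

lemma cone_cast_mulVec (A : Matrix Idx Idx ℤ) (x : Idx → ℤ) :
    (A.map (Int.cast : ℤ → R)) *ᵥ (cst R x) = cst R (A *ᵥ x) := by
  ext i
  simp [mulVec, dotProduct, cst]

lemma cone_map_mul (A B : Matrix Idx Idx ℤ) :
    (A * B).map (Int.cast : ℤ → R) = A.map (Int.cast : ℤ → R) * B.map (Int.cast : ℤ → R) := by
  ext i j
  simp [Matrix.mul_apply]

lemma form_cst (x y : Idx → ℤ) : form G (cst R x) (cst R y) = ((form G x y : ℤ) : R) := by
  unfold form
  rw [cone_cast_mulVec]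
  simp only [dotProduct, cst, Int.cast_sum, Int.cast_mul]
  refine Finset.sum_congr rfl fun i _ => ?_
  simp [mulVec, dotProduct]

lemma cone_adj (A : Matrix Idx Idx R) (x w : Idx → R) :
    (A *ᵥ x) ⬝ᵥ w = x ⬝ᵥ (Aᵀ *ᵥ w) := by
  rw [dotProduct_comm, Matrix.dotProduct_mulVec, dotProduct_comm, ← Matrix.mulVec_transpose]

/-- isometries over `ℤ` are isometries over every ring -/
lemma form_isom {A : Matrix Idx Idx ℤ} (h : Aᵀ * gramM G * A = gramM G) (x y : Idx → R) :
    form G ((A.map (Int.cast : ℤ → R)) *ᵥ x) ((A.map (Int.cast : ℤ → R)) *ᵥ y) = form G x y := by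
  unfold form
  have h2 := congrArg (fun M : Matrix Idx Idx ℤ => M.map (Int.cast : ℤ → R)) h
  simp only [cone_map_mul] at h2
  conv_rhs => rw [← h2]
  rw [cone_adj, Matrix.mulVec_mulVec, Matrix.mulVec_mulVec, ← Matrix.transpose_map,
    Matrix.mul_assoc]

/-- isometry criterion -/
lemma isom_of_form {A : Matrix Idx Idx ℤ}
    (h : ∀ x y : Idx → ℤ, form G (A *ᵥ x) (A *ᵥ y) = form G x y) :
    Aᵀ * gramM G * A = gramM G := by
  have hid : (gramM G).map (Int.cast : ℤ → ℤ) = gramM G := by ext i j; simp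
  ext i j
  have h1 := h (Pi.single i 1) (Pi.single j 1)
  unfold form at h1
  rw [hid, cone_adj, Matrix.mulVec_mulVec, Matrix.mulVec_mulVec] at h1
  simpa [Matrix.mul_assoc] using h1

/-- the Eichler transvection `v ↦ v - (v,e) u + (v,u) e - h (v,e) e`, `h = (u,u)/2` -/
def trans (G : Matrix (Fin 20) (Fin 20) ℤ) (e u : Idx → ℤ) (h : ℤ) : Matrix Idx Idx ℤ :=
  1 - vecMulVec u (gramM G *ᵥ e) + vecMulVec e (gramM G *ᵥ u) - h • vecMulVec e (gramM G *ᵥ e)

lemma cone_vmv (a b : Idx → ℤ) (v : Idx → R) :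
    ((vecMulVec a b).map (Int.cast : ℤ → R)) *ᵥ v = (v ⬝ᵥ cst R b) • cst R a := by
  ext i
  simp only [mulVec, dotProduct, Matrix.map_apply, vecMulVec_apply, Int.cast_mul, Pi.smul_apply,
    smul_eq_mul, cst, Finset.sum_mul]
  refine Finset.sum_congr rfl fun j _ => ?_
  ring

lemma trans_act (e u : Idx → ℤ) (h : ℤ) (v : Idx → R) :
    ((trans G e u h).map (Int.cast : ℤ → R)) *ᵥ v =
      v - form G v (cst R e) • cst R u + form G v (cst R u) • cst R e
        - ((h : R) * form G v (cst R e)) • cst R e := by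
  have h1 : (trans G e u h).map (Int.cast : ℤ → R) =
      1 - (vecMulVec u (gramM G *ᵥ e)).map (Int.cast : ℤ → R)
        + (vecMulVec e (gramM G *ᵥ u)).map (Int.cast : ℤ → R)
        - (h : R) • (vecMulVec e (gramM G *ᵥ e)).map (Int.cast : ℤ → R) := by
    ext i j
    simp only [trans, Matrix.map_apply, Matrix.sub_apply, Matrix.add_apply, Matrix.smul_apply,
      Int.cast_sub, Int.cast_add, smul_eq_mul, Int.cast_mul, Matrix.one_apply]
    by_cases hij : i = j <;> simp [hij]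
  rw [h1, Matrix.sub_mulVec, Matrix.add_mulVec, Matrix.sub_mulVec, Matrix.one_mulVec,
    Matrix.smul_mulVec, cone_vmv, cone_vmv, cone_vmv, smul_smul]
  unfold form
  rw [cone_cast_mulVec, cone_cast_mulVec]

end act

end Pool.Agent.Refl
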