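import Pool.Agent.Refl.ConeAux

/-! Module CONE, part 2: bilinearity, positivity, transvections preserve the cone. -/

namespace Pool.Agent.Refl
open Matrix

variable {G : Matrix (Fin 20) (Fin 20) ℤ}

section bilinear
variable {R : Type*} [CommRing R]

lemma bil_add_left (x y z : Fin 20 → R) : bil G (x + y) z = bil G x z + bil G y z := by
  simp only [bil, Pi.add_apply, ← Finset.sum_add_distrib]
  refine Finset.sum_congr rfl fun i _ => Finset.sum_congr rfl fun j _ => ?_
  ring

lemma bil_add_right (x y z : Fin 20 → R) : bil G x (y + z) = bil G x y + bil G x z := by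
  simp only [bil, Pi.add_apply, ← Finset.sum_add_distrib]
  refine Finset.sum_congr rfl fun i _ => Finset.sum_congr rfl fun j _ => ?_
  ring

lemma bil_smul_left (c : R) (x y : Fin 20 → R) : bil G (c • x) y = c * bil G x y := by
  simp only [bil, Pi.smul_apply, smul_eq_mul, Finset.mul_sum]
  refine Finset.sum_congr rfl fun i _ => Finset.sum_congr rfl fun j _ => ?_
  ring

lemma bil_smul_right (c : R) (x y : Fin 20 → R) : bil G x (c • y) = c * bil G x y := by
  simp only [bil, Pi.smul_apply, smul_eq_mul, Finset.mul_sum]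
  refine Finset.sum_congr rfl fun i _ => Finset.sum_congr rfl fun j _ => ?_
  ring

lemma bil_neg_left (x y : Fin 20 → R) : bil G (-x) y = -bil G x y := by
  have := bil_smul_left (G := G) (-1) x y
  simpa using this

lemma bil_neg_right (x y : Fin 20 → R) : bil G x (-y) = -bil G x y := by
  have := bil_smul_right (G := G) (-1) x y
  simpa using this

lemma bil_sub_left (x y z : Fin 20 → R) : bil G (x - y) z = bil G x z - bil G y z := by
  rw [sub_eq_add_neg, bil_add_left, bil_neg_left, sub_eq_add_neg]

lemma bil_sub_right (x y z : Fin 20 → R) : bil G x (y - z) = bil G x y - bil G x z := by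
  rw [sub_eq_add_neg, bil_add_right, bil_neg_right, sub_eq_add_neg]

lemma form_add_left (x y z : Idx → R) : form G (x + y) z = form G x z + form G y z := by
  simp [form, add_dotProduct]

lemma form_add_right (x y z : Idx → R) : form G x (y + z) = form G x y + form G x z := by
  simp [form, Matrix.mulVec_add]

lemma form_smul_left (c : R) (x y : Idx → R) : form G (c • x) y = c * form G x y := by
  simp [form, smul_dotProduct]

lemma form_smul_right (c : R) (x y : Idx → R) : form G x (c • y) = c * form G x y := by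
  simp [form, Matrix.mulVec_smul]

lemma form_sub_left (x y z : Idx → R) : form G (x - y) z = form G x z - form G y z := by
  simp [form, sub_dotProduct]

lemma form_sub_right (x y z : Idx → R) : form G x (y - z) = form G x y - form G x z := by
  simp [form, Matrix.mulVec_sub]

/-- the Eichler transvection as a function -/
def tfun (G : Matrix (Fin 20) (Fin 20) ℤ) (e u : Idx → R) (h : R) (v : Idx → R) : Idx → R :=
  v - form G v e • u + form G v u • e - (h * form G v e) • e

lemma tfun_form (hG : EvenPos G) {e u : Idx → R} {h : R} (he : form G e e = 0)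
    (heu : form G e u = 0) (huu : form G u u = 2 * h) (v w : Idx → R) :
    form G (tfun G e u h v) (tfun G e u h w) = form G v w := by
  have h1 : form G u e = 0 := by rw [form_comm hG]; exact heu
  have h2 : form G e w = form G w e := form_comm hG _ _
  have h3 : form G u w = form G w u := form_comm hG _ _
  unfold tfun
  simp only [form_add_left, form_add_right, form_sub_left, form_sub_right, form_smul_left,
    form_smul_right, he, heu, huu, h1, h2, h3]
  ring

end bilinear

lemma bil_real_cs (hG : EvenPos G) (x y : VR) :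
    (bil G x y) ^ 2 ≤ bil G x x * bil G y y := by
  by_cases hy : y = 0
  · subst hy
    have h0 : ∀ x : VR, bil G x 0 = 0 := by intro x; simp [bil]
    rw [h0, h0]; simp
  · have hpos := bil_pos hG hy
    have h1 := bil_nonneg hG (x - (bil G x y / bil G y y) • y)
    rw [bil_sub_left, bil_sub_right, bil_sub_right, bil_smul_left, bil_smul_left,
      bil_smul_right, bil_smul_right, bil_symm hG y x] at h1
    have h2 : bil G x x - bil G x y / bil G y y * bil G x y -
        (bil G x y / bil G y y * bil G x y -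
          bil G x y / bil G y y * (bil G x y / bil G y y * bil G y y)) =
        bil G x x - (bil G x y) ^ 2 / bil G y y := by
      field_simp
      ring
    rw [h2, sub_nonneg, div_le_iff₀ hpos] at h1
    exact h1

/-- decomposition of a complex vector -/
lemma vc_decomp (z : VC) : z = ofR (fun i => (z i).re) + Complex.I • ofR (imC z) := by
  ext i
  simp only [ofR, imC, Pi.add_apply, Pi.smul_apply, smul_eq_mul]
  rw [mul_comm]
  exact (Complex.re_add_im (z i)).symm

lemma bil_ofR (x y : VR) : bil G (ofR x) (ofR y) = ((bil G x y : ℝ) : ℂ) := by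
  simp [bil, ofR]

lemma bil_self_complex (hG : EvenPos G) (z : VC) :
    bil G z z = ((bil G (fun i => (z i).re) (fun i => (z i).re) - bil G (imC z) (imC z) : ℝ) : ℂ)
      + 2 * Complex.I * ((bil G (fun i => (z i).re) (imC z) : ℝ) : ℂ) := by
  conv_lhs => rw [vc_decomp z]
  rw [bil_add_left, bil_add_right, bil_add_right, bil_smul_left, bil_smul_left, bil_smul_right,
    bil_smul_right, bil_ofR, bil_ofR, bil_ofR, bil_ofR, bil_symm hG (imC z)]
  push_cast
  linear_combination (↑(bil G (imC z) (imC z))) * Complex.I_mul_I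

lemma star_decomp (z : VC) : star z = ofR (fun i => (z i).re) - Complex.I • ofR (imC z) := by
  ext i
  simp only [ofR, imC, Pi.sub_apply, Pi.smul_apply, smul_eq_mul, Pi.star_apply]
  apply Complex.ext <;> simp

lemma bil_star_complex (hG : EvenPos G) (z : VC) :
    bil G z (star z) =
      ((bil G (fun i => (z i).re) (fun i => (z i).re) + bil G (imC z) (imC z) : ℝ) : ℂ) := by
  rw [star_decomp]
  conv_lhs => rw [vc_decomp z]
  have h1 : (fun i => ((ofR (fun i => (z i).re) + Complex.I • ofR (imC z)) i).re) =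
      fun i => (z i).re := by
    rw [← vc_decomp z]
  have h2 : imC (ofR (fun i => (z i).re) + Complex.I • ofR (imC z)) = imC z := by
    rw [← vc_decomp z]
  rw [h1, h2]
  rw [bil_add_left, bil_sub_right, bil_sub_right, bil_smul_left, bil_smul_left, bil_smul_right,
    bil_smul_right, bil_ofR, bil_ofR, bil_ofR, bil_ofR, bil_symm hG (imC z)]
  push_cast
  linear_combination (-↑(bil G (imC z) (imC z))) * Complex.I_mul_I

lemma norm_bil_le (hG : EvenPos G) (z : VC) :
    ‖bil G z z‖ ≤ bil G (fun i => (z i).re) (fun i => (z i).re) + bil G (imC z) (imC z) := by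
  set X := bil G (fun i => (z i).re) (fun i => (z i).re)
  set Y := bil G (imC z) (imC z)
  set B := bil G (fun i => (z i).re) (imC z)
  have hX : 0 ≤ X := bil_nonneg hG _
  have hY : 0 ≤ Y := bil_nonneg hG _
  have hB : B ^ 2 ≤ X * Y := bil_real_cs hG _ _
  rw [bil_self_complex hG z]
  refine le_of_sq_le_sq ?_ (by positivity)
  rw [← Complex.normSq_eq_norm_sq, Complex.normSq_apply]
  simp only [Complex.add_re, Complex.add_im, Complex.ofReal_re, Complex.ofReal_im,
    Complex.mul_re, Complex.mul_im, Complex.I_re, Complex.I_im, Complex.re_ofNat, Complex.im_ofNat]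
  nlinarith

/-- the point of the affine cone attached to a point of the tube -/
noncomputable def pt (G : Matrix (Fin 20) (Fin 20) ℤ) (τ : ℂ) (z : VC) (ω : ℂ) : Idx → ℂ :=
  Sum.elim ![1, -(2 * τ * ω - bil G z z) / 2, ω, τ] z

lemma form_pt (τ : ℂ) (z : VC) (ω : ℂ) : form G (pt G τ z ω) (pt G τ z ω) = 0 := by
  rw [form_eq]
  simp only [pt, Sum.elim_inl, Sum.elim_inr]
  simp
  ring

lemma form_pt_star (hG : EvenPos G) (τ : ℂ) (z : VC) (ω : ℂ) :
    (form G (pt G τ z ω) (star (pt G τ z ω))).re =
      2 * (2 * τ.im * ω.im - bil G (imC z) (imC z)) := by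
  have hz : (fun i => (star (pt G τ z ω)) (Sum.inr i)) = star z := by
    ext i; simp [pt]
  have hz' : (fun i => (pt G τ z ω) (Sum.inr i)) = z := by
    ext i; simp [pt]
  rw [form_eq, hz, hz', bil_star_complex hG]
  simp only [pt, Pi.star_apply, Sum.elim_inl]
  rw [bil_self_complex hG]
  simp [Complex.mul_re, Complex.mul_im]
  ring

lemma eq_smul_pt {Z : Idx → ℂ} (h0 : form G Z Z = 0) (hZ : Z (Sum.inl 0) ≠ 0) :
    Z = Z (Sum.inl 0) • pt G (Z (Sum.inl 3) / Z (Sum.inl 0))
      (fun i => Z (Sum.inr i) / Z (Sum.inl 0)) (Z (Sum.inl 2) / Z (Sum.inl 0)) := by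
  have hb : bil G (fun i => Z (Sum.inr i) / Z (Sum.inl 0)) (fun i => Z (Sum.inr i) / Z (Sum.inl 0))
      = (Z (Sum.inl 0))⁻¹ * ((Z (Sum.inl 0))⁻¹ *
        bil G (fun i => Z (Sum.inr i)) (fun i => Z (Sum.inr i))) := by
    rw [← bil_smul_right, ← bil_smul_left]
    congr 1 <;> · ext i; simp [div_eq_inv_mul]
  rw [form_eq] at h0
  ext i
  rcases i with i | i
  · fin_cases i
    · simp [pt]
    · simp only [pt, Pi.smul_apply, smul_eq_mul]
      rw [hb]
      simp
      field_simp
      linear_combination h0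
    · simp [pt]
      field_simp
    · simp [pt]
      field_simp
  · simp only [pt, Pi.smul_apply, smul_eq_mul, Sum.elim_inr]
    field_simp

lemma form_smul_star (c : ℂ) (Z : Idx → ℂ) :
    (form G (c • Z) (star (c • Z))).re = Complex.normSq c * (form G Z (star Z)).re := by
  have : star (c • Z) = (star c) • star Z := by
    ext i; simp
  rw [this, form_smul_left, form_smul_right, ← mul_assoc]
  have h2 : c * star c = (Complex.normSq c : ℂ) := Complex.mul_conj c
  rw [h2, Complex.re_ofReal_mul]

/-- a positive isotropic vector has `Z₀ ≠ 0` and `Im (Z₃/Z₀) ≠ 0` -/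
lemma pos_ne (hG : EvenPos G) {Z : Idx → ℂ} (h0 : form G Z Z = 0)
    (hpos : 0 < (form G Z (star Z)).re) :
    Z (Sum.inl 0) ≠ 0 ∧ (Z (Sum.inl 3) / Z (Sum.inl 0)).im ≠ 0 := by
  have hZ : Z (Sum.inl 0) ≠ 0 := by
    intro hz
    have hn := norm_bil_le hG (fun i => Z (Sum.inr i))
    rw [form_eq, hz] at h0
    rw [form_eq] at hpos
    have hst : (fun i => (star Z) (Sum.inr i)) = star (fun i => Z (Sum.inr i)) := rfl
    rw [hst, bil_star_complex hG] at hpos
    simp only [Pi.star_apply, hz] at hpos
    have h1 : bil G (fun i => Z (Sum.inr i)) (fun i => Z (Sum.inr i)) =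
        2 * (Z (Sum.inl 2) * Z (Sum.inl 3)) := by linear_combination -h0
    rw [h1, norm_mul, norm_mul] at hn
    have h2 : (Z (Sum.inl 2) * star (Z (Sum.inl 3)) + Z (Sum.inl 3) * star (Z (Sum.inl 2))).re ≤
        2 * (‖Z (Sum.inl 2)‖ * ‖Z (Sum.inl 3)‖) := by
      refine (Complex.re_le_norm _).trans ((norm_add_le _ _).trans (le_of_eq ?_))
      rw [norm_mul, norm_mul, norm_star, norm_star]
      ring
    simp only [Complex.norm_ofNat, Complex.sub_re, Complex.add_re, Complex.ofReal_re, star_zero,
      mul_zero, zero_mul, Complex.zero_re] at hn h2 hpos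
    linarith
  refine ⟨hZ, fun him => ?_⟩
  have hZe := eq_smul_pt h0 hZ
  rw [hZe, form_smul_star, form_pt_star hG, him] at hpos
  have h1 : 0 ≤ bil G (imC fun i => Z (Sum.inr i) / Z (Sum.inl 0))
    (imC fun i => Z (Sum.inr i) / Z (Sum.inl 0)) := bil_nonneg hG _
  have h2 := Complex.normSq_nonneg (Z (Sum.inl 0))
  nlinarith

lemma pt_mem_cone (hG : EvenPos G) {τ : ℂ} {z : VC} {ω : ℂ} :
    pt G τ z ω ∈ cone G ↔ (τ, z, ω) ∈ Tube G := by
  unfold cone Tube
  simp only [Set.mem_ofPred_eq, form_pt, form_pt_star hG, true_and]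
  have h3 : (pt G τ z ω (Sum.inl 3) / pt G τ z ω (Sum.inl 0)) = τ := by
    simp [pt]
  rw [h3]
  constructor
  · rintro ⟨h1, h2⟩; exact ⟨h2, by linarith⟩
  · rintro ⟨h1, h2⟩; exact ⟨by linarith, h1⟩

lemma smul_mem_cone {Z : Idx → ℂ} {c : ℂ} (hc : c ≠ 0) : c • Z ∈ cone G ↔ Z ∈ cone G := by
  have h1 : form G (c • Z) (c • Z) = 0 ↔ form G Z Z = 0 := by
    rw [form_smul_left, form_smul_right]; simp [hc]
  have h2 : 0 < Complex.normSq c := Complex.normSq_pos.mpr hc
  have h3 : (c • Z) (Sum.inl 3) / ((c • Z) (Sum.inl 0)) = Z (Sum.inl 3) / Z (Sum.inl 0) := by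
    simp only [Pi.smul_apply, smul_eq_mul]
    rw [mul_div_mul_left _ _ hc]
  have h4 : 0 < (form G (c • Z) (star (c • Z))).re ↔ 0 < (form G Z (star Z)).re := by
    rw [form_smul_star, mul_pos_iff_of_pos_left h2]
  unfold cone
  rw [Set.mem_ofPred_eq, Set.mem_ofPred_eq, h1, h3, h4]

lemma cone_ne_zero {Z : Idx → ℂ} (hZ : Z ∈ cone G) : Z (Sum.inl 0) ≠ 0 := by
  intro h
  have := hZ.2.2
  rw [h] at this
  simp at this

/-- every point of the cone comes from the tube -/
lemma cone_eq (hG : EvenPos G) {Z : Idx → ℂ} (hZ : Z ∈ cone G) :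
    ∃ τ z ω, (τ, z, ω) ∈ Tube G ∧ Z = Z (Sum.inl 0) • pt G τ z ω := by
  have h := eq_smul_pt hZ.1 (cone_ne_zero hZ)
  refine ⟨_, _, _, ?_, h⟩
  rw [← pt_mem_cone hG, ← smul_mem_cone (cone_ne_zero hZ), ← h]
  exact hZ

end Pool.Agent.Refl
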