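import Pool.Agent.Refl.ConeAux2

/-! Module CONE, part 3: transvections and the two special isometries lie in `Õ⁺(M)`. -/

namespace Pool.Agent.Refl
open Matrix

variable {G : Matrix (Fin 20) (Fin 20) ℤ}

lemma bil_star (x y : VC) : bil G (star x) (star y) = star (bil G x y) := by
  simp [bil]

lemma form_star (x y : Idx → ℂ) : form G (star x) (star y) = star (form G x y) := by
  have h1 : ∀ x : Idx → ℂ, (fun i => (star x) (Sum.inr i)) = star (fun i => x (Sum.inr i)) :=
    fun x => rfl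
  rw [form_eq, form_eq, h1, h1, bil_star]
  simp

lemma cst_star (x : Idx → ℤ) : star (cst ℂ x) = cst ℂ x := by
  ext i; simp [cst]

lemma tfun_star (e u : Idx → ℤ) (h : ℤ) (t : ℝ) (Z : Idx → ℂ) :
    star (tfun G (cst ℂ e) ((t : ℂ) • cst ℂ u) ((t : ℂ) ^ 2 * h) Z) =
      tfun G (cst ℂ e) ((t : ℂ) • cst ℂ u) ((t : ℂ) ^ 2 * h) (star Z) := by
  have h1 : form G (star Z) (cst ℂ e) = star (form G Z (cst ℂ e)) := by
    rw [← form_star, cst_star]
  have h2 : form G (star Z) (cst ℂ u) = star (form G Z (cst ℂ u)) := by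
    rw [← form_star, cst_star]
  unfold tfun
  rw [form_smul_right, form_smul_right, h1, h2]
  ext i
  simp [cst]

/-- real transvections preserve the cone -/
lemma tfun_mem_cone (hG : EvenPos G) {e u : Idx → ℤ} {h : ℤ} (he : form G e e = 0)
    (heu : form G e u = 0) (huu : form G u u = 2 * h) {Z : Idx → ℂ} (hZ : Z ∈ cone G) :
    tfun G (cst ℂ e) (cst ℂ u) (h : ℂ) Z ∈ cone G := by
  have he' : form G (cst ℂ e) (cst ℂ e) = 0 := by rw [form_cst, he]; simp
  have heu' : form G (cst ℂ e) (cst ℂ u) = 0 := by rw [form_cst, heu]; simp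
  have huu' : form G (cst ℂ u) (cst ℂ u) = 2 * (h : ℂ) := by rw [form_cst, huu]; simp
  have hiso : ∀ (t : ℝ) (v w : Idx → ℂ),
      form G (tfun G (cst ℂ e) ((t : ℂ) • cst ℂ u) ((t : ℂ) ^ 2 * h) v)
        (tfun G (cst ℂ e) ((t : ℂ) • cst ℂ u) ((t : ℂ) ^ 2 * h) w) = form G v w := by
    intro t v w
    refine tfun_form hG he' ?_ ?_ v w
    · rw [form_smul_right, heu', mul_zero]
    · rw [form_smul_right, form_smul_left, huu']; ring
  have h1 : ∀ t : ℝ, form G (tfun G (cst ℂ e) ((t : ℂ) • cst ℂ u) ((t : ℂ) ^ 2 * h) Z)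
      (tfun G (cst ℂ e) ((t : ℂ) • cst ℂ u) ((t : ℂ) ^ 2 * h) Z) = 0 := by
    intro t; rw [hiso]; exact hZ.1
  have h2 : ∀ t : ℝ, 0 < (form G (tfun G (cst ℂ e) ((t : ℂ) • cst ℂ u) ((t : ℂ) ^ 2 * h) Z)
      (star (tfun G (cst ℂ e) ((t : ℂ) • cst ℂ u) ((t : ℂ) ^ 2 * h) Z))).re := by
    intro t; rw [tfun_star, hiso]; exact hZ.2.1
  have hc : ∀ i, Continuous fun t : ℝ =>
      tfun G (cst ℂ e) ((t : ℂ) • cst ℂ u) ((t : ℂ) ^ 2 * h) Z i := by
    intro i
    have : (fun t : ℝ => tfun G (cst ℂ e) ((t : ℂ) • cst ℂ u) ((t : ℂ) ^ 2 * h) Z i) =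
        fun t : ℝ => Z i - form G Z (cst ℂ e) * ((t : ℂ) * cst ℂ u i) +
          ((t : ℂ) * form G Z (cst ℂ u)) * cst ℂ e i -
          ((t : ℂ) ^ 2 * h * form G Z (cst ℂ e)) * cst ℂ e i := by
      funext t
      unfold tfun
      rw [form_smul_right]
      simp only [Pi.sub_apply, Pi.add_apply, Pi.smul_apply, smul_eq_mul]
    rw [this]
    fun_prop
  have hcont : Continuous fun t : ℝ =>
      (tfun G (cst ℂ e) ((t : ℂ) • cst ℂ u) ((t : ℂ) ^ 2 * h) Z (Sum.inl 3) /
        tfun G (cst ℂ e) ((t : ℂ) • cst ℂ u) ((t : ℂ) ^ 2 * h) Z (Sum.inl 0)).im := by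
    refine Complex.continuous_im.comp ((hc _).div (hc _) fun t => ?_)
    exact (pos_ne hG (h1 t) (h2 t)).1
  have hnz : ∀ t : ℝ, (tfun G (cst ℂ e) ((t : ℂ) • cst ℂ u) ((t : ℂ) ^ 2 * h) Z (Sum.inl 3) /
        tfun G (cst ℂ e) ((t : ℂ) • cst ℂ u) ((t : ℂ) ^ 2 * h) Z (Sum.inl 0)).im ≠ 0 :=
    fun t => (pos_ne hG (h1 t) (h2 t)).2
  have h0 : tfun G (cst ℂ e) (((0 : ℝ) : ℂ) • cst ℂ u) (((0 : ℝ) : ℂ) ^ 2 * h) Z = Z := by
    unfold tfun
    rw [form_smul_right]
    ext i
    simp
  have h3 : tfun G (cst ℂ e) (((1 : ℝ) : ℂ) • cst ℂ u) (((1 : ℝ) : ℂ) ^ 2 * h) Z =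
      tfun G (cst ℂ e) (cst ℂ u) (h : ℂ) Z := by
    simp
  refine ⟨?_, ?_, ?_⟩
  · rw [← h3]; exact h1 1
  · rw [← h3]; exact h2 1
  · rw [← h3]
    by_contra hneg
    push Not at hneg
    obtain ⟨t, ht⟩ := mem_range_of_exists_le_of_exists_ge hcont ⟨1, hneg⟩
      ⟨0, by rw [h0]; exact hZ.2.2.le⟩
    exact hnz t ht

lemma tfun_inv (hG : EvenPos G) {R : Type*} [CommRing R] {e u : Idx → R} {h : R}
    (he : form G e e = 0) (heu : form G e u = 0) (huu : form G u u = 2 * h) (v : Idx → R) :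
    tfun G e (-u) h (tfun G e u h v) = v := by
  have hue : form G u e = 0 := by rw [form_comm hG]; exact heu
  have h1 : form G (tfun G e u h v) e = form G v e := by
    unfold tfun
    rw [form_sub_left, form_add_left, form_sub_left, form_smul_left, form_smul_left,
      form_smul_left, he, hue]
    ring
  have hneg : ∀ x : Idx → R, form G x (-u) = -form G x u := by
    intro x
    have := form_smul_right (G := G) (-1) x u
    simpa using this
  have h2 : form G (tfun G e u h v) (-u) = -form G v u + 2 * h * form G v e := by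
    rw [hneg]
    unfold tfun
    rw [form_sub_left, form_add_left, form_sub_left, form_smul_left, form_smul_left,
      form_smul_left, heu, huu]
    ring
  have h3 : tfun G e (-u) h (tfun G e u h v) = tfun G e u h v -
      form G (tfun G e u h v) e • (-u) + form G (tfun G e u h v) (-u) • e -
      (h * form G (tfun G e u h v) e) • e := rfl
  rw [h3, h1, h2]
  unfold tfun
  ext i
  simp only [Pi.sub_apply, Pi.add_apply, Pi.smul_apply, smul_eq_mul, Pi.neg_apply]
  ring

lemma form_int_of (v : Idx → ℚ)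
    (hv : ∀ i, ∃ k : ℤ, (((gramM G).map (Int.cast : ℤ → ℚ)) *ᵥ v) i = k) (e : Idx → ℤ) :
    ∃ k : ℤ, form G (cst ℚ e) v = k := by
  choose k hk using hv
  refine ⟨∑ i, e i * k i, ?_⟩
  unfold form
  simp only [dotProduct, hk, cst]
  push_cast
  rfl

/-- transvections lie in `Õ⁺(M)` -/
lemma trans_mem (hG : EvenPos G) {e u : Idx → ℤ} {h : ℤ} (he : form G e e = 0)
    (heu : form G e u = 0) (huu : form G u u = 2 * h) : IsOTilde G (trans G e u h) := by
  have hact : ∀ (u : Idx → ℤ) (Z : Idx → ℂ), act (trans G e u h) Z =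
      tfun G (cst ℂ e) (cst ℂ u) (h : ℂ) Z := fun u Z => trans_act e u h Z
  refine ⟨?_, ?_, ?_⟩
  · refine isom_of_form fun x y => ?_
    have hid : (trans G e u h).map (Int.cast : ℤ → ℤ) = trans G e u h := by ext i j; simp
    have hcst : ∀ x : Idx → ℤ, cst ℤ x = x := by intro x; ext i; simp [cst]
    have h1 : ∀ x : Idx → ℤ, trans G e u h *ᵥ x = tfun G e u h x := by
      intro x
      have := trans_act (R := ℤ) (G := G) e u h x
      rw [hid, hcst, hcst] at this
      exact this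
    rw [h1, h1]
    exact tfun_form hG he heu huu x y
  · intro Z
    constructor
    · intro hZ
      have heu2 : form G e (-u) = 0 := by
        have := form_smul_right (G := G) (-1) e u
        rw [heu] at this
        simpa using this
      have huu2 : form G (-u) (-u) = 2 * h := by
        have h1 := form_smul_right (G := G) (-1) ((-1 : ℤ) • u) u
        have h2 := form_smul_left (G := G) (-1) u u
        rw [h2, huu] at h1
        simpa using h1
      have h1 := tfun_mem_cone hG he heu2 huu2 hZ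
      rw [hact] at h1
      have hcu : cst ℂ (-u) = -cst ℂ u := by ext i; simp [cst]
      rw [hcu, tfun_inv hG] at h1
      · exact h1
      · rw [form_cst, he]; simp
      · rw [form_cst, heu]; simp
      · rw [form_cst, huu]; simp
    · intro hZ
      rw [hact]
      exact tfun_mem_cone hG he heu huu hZ
  · intro v hv i
    obtain ⟨a, ha⟩ := form_int_of v hv e
    obtain ⟨b, hb⟩ := form_int_of v hv u
    rw [form_comm hG] at ha hb
    rw [trans_act, ha, hb]
    refine ⟨-(a * u i) + b * e i - h * a * e i, ?_⟩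
    simp only [Pi.sub_apply, Pi.add_apply, Pi.smul_apply, smul_eq_mul, cst]
    push_cast
    ring

/-! ### the two special isometries -/

/-- `S : (a,b,n,m;v) ↦ (m,n,-b,-a;v)` -/
def matS : Matrix Idx Idx ℤ :=
  Matrix.fromBlocks !![0, 0, 0, 1; 0, 0, 1, 0; 0, -1, 0, 0; -1, 0, 0, 0] 0 0 1

/-- `W : (a,b,n,m;v) ↦ (a,b,m,n;v)` -/
def matW : Matrix Idx Idx ℤ :=
  Matrix.fromBlocks !![1, 0, 0, 0; 0, 1, 0, 0; 0, 0, 0, 1; 0, 0, 1, 0] 0 0 1

section
variable {R : Type*} [CommRing R]

lemma blk_mulVec (M : Matrix (Fin 4) (Fin 4) ℤ) (v : Idx → R) :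
    ((Matrix.fromBlocks M 0 0 (1 : Matrix (Fin 20) (Fin 20) ℤ)).map (Int.cast : ℤ → R)) *ᵥ v =
      Sum.elim (M.map (Int.cast : ℤ → R) *ᵥ (fun i => v (Sum.inl i))) (fun i => v (Sum.inr i)) := by
  rw [Matrix.fromBlocks_map, Matrix.fromBlocks_mulVec]
  have h0 : (0 : Matrix (Fin 4) (Fin 20) ℤ).map (Int.cast : ℤ → R) = 0 := by ext a b; simp
  have h0' : (0 : Matrix (Fin 20) (Fin 4) ℤ).map (Int.cast : ℤ → R) = 0 := by ext a b; simp
  have h1 : (1 : Matrix (Fin 20) (Fin 20) ℤ).map (Int.cast : ℤ → R) = 1 :=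
    Matrix.map_one _ (by simp) (by simp)
  rw [h0, h0', h1, Matrix.zero_mulVec, Matrix.zero_mulVec, Matrix.one_mulVec, add_zero, zero_add]
  rfl

lemma matS_mulVec (v : Idx → R) : (matS.map (Int.cast : ℤ → R)) *ᵥ v =
    Sum.elim ![v (Sum.inl 3), v (Sum.inl 2), -v (Sum.inl 1), -v (Sum.inl 0)]
      (fun i => v (Sum.inr i)) := by
  unfold matS
  rw [blk_mulVec]
  congr 1
  ext i
  fin_cases i <;> simp [mulVec, dotProduct, Fin.sum_univ_four]

lemma matW_mulVec (v : Idx → R) : (matW.map (Int.cast : ℤ → R)) *ᵥ v =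
    Sum.elim ![v (Sum.inl 0), v (Sum.inl 1), v (Sum.inl 3), v (Sum.inl 2)]
      (fun i => v (Sum.inr i)) := by
  unfold matW
  rw [blk_mulVec]
  congr 1
  ext i
  fin_cases i <;> simp [mulVec, dotProduct, Fin.sum_univ_four]

lemma matS_form (x y : Idx → R) :
    form G ((matS.map (Int.cast : ℤ → R)) *ᵥ x) ((matS.map (Int.cast : ℤ → R)) *ᵥ y) =
      form G x y := by
  rw [matS_mulVec, matS_mulVec, form_eq, form_eq]
  simp
  ring

lemma matW_form (x y : Idx → R) :
    form G ((matW.map (Int.cast : ℤ → R)) *ᵥ x) ((matW.map (Int.cast : ℤ → R)) *ᵥ y) =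
      form G x y := by
  rw [matW_mulVec, matW_mulVec, form_eq, form_eq]
  simp
  ring

end

lemma act_star (A : Matrix Idx Idx ℤ) (Z : Idx → ℂ) : star (act A Z) = act A (star Z) := by
  ext i
  simp [act, mulVec, dotProduct]

lemma inl_int (v : Idx → ℚ)
    (hv : ∀ i, ∃ k : ℤ, (((gramM G).map (Int.cast : ℤ → ℚ)) *ᵥ v) i = k) (i : Fin 4) :
    ∃ k : ℤ, v (Sum.inl i) = k := by
  obtain ⟨k, hk⟩ := form_int_of v hv
    (Sum.elim (![Pi.single 1 1, Pi.single 0 1, Pi.single 3 1, Pi.single 2 1] i) 0)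
  refine ⟨k, ?_⟩
  rw [← hk, form_eq]
  have hb : bil G (fun j => cst ℚ (Sum.elim
      ((![Pi.single 1 1, Pi.single 0 1, Pi.single 3 1, Pi.single 2 1] :
        Fin 4 → Fin 4 → ℤ) i) 0) (Sum.inr j)) (fun j => v (Sum.inr j)) = 0 := by
    simp [bil, cst]
  rw [hb]
  fin_cases i <;> simp [cst]

lemma matS_mem : IsOTilde G matS := by
  have hid : (matS).map (Int.cast : ℤ → ℤ) = matS := by ext i j; simp
  refine ⟨?_, ?_, ?_⟩
  · refine isom_of_form fun x y => ?_
    have := matS_form (G := G) (R := ℤ) x y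
    rwa [hid] at this
  · intro Z
    have h1 : form G (act matS Z) (act matS Z) = form G Z Z := matS_form Z Z
    have h2 : form G (act matS Z) (star (act matS Z)) = form G Z (star Z) := by
      rw [act_star]; exact matS_form Z (star Z)
    have h3 : act matS Z (Sum.inl 3) / act matS Z (Sum.inl 0) =
        -(Z (Sum.inl 3) / Z (Sum.inl 0))⁻¹ := by
      unfold act
      rw [matS_mulVec]
      simp [neg_div]
    have h4 : 0 < (act matS Z (Sum.inl 3) / act matS Z (Sum.inl 0)).im ↔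
        0 < (Z (Sum.inl 3) / Z (Sum.inl 0)).im := by
      rw [h3]
      set w := Z (Sum.inl 3) / Z (Sum.inl 0)
      rw [Complex.neg_im, Complex.inv_im, neg_div, neg_neg]
      constructor
      · intro h
        by_contra hc
        push Not at hc
        exact absurd h (not_lt.mpr (div_nonpos_of_nonpos_of_nonneg hc (Complex.normSq_nonneg w)))
      · intro h
        refine div_pos h (Complex.normSq_pos.mpr ?_)
        intro h0; rw [h0] at h; simp at h
    unfold cone
    rw [Set.mem_ofPred_eq, Set.mem_ofPred_eq, h1, h2, h4]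
  · intro v hv i
    have h := fun i => inl_int v hv i
    rw [matS_mulVec]
    obtain ⟨a, ha⟩ := h 0
    obtain ⟨b, hb⟩ := h 1
    obtain ⟨n, hn⟩ := h 2
    obtain ⟨m, hm⟩ := h 3
    rcases i with i | i
    · fin_cases i
      · exact ⟨m - a, by simp [ha, hm]⟩
      · exact ⟨n - b, by simp [hb, hn]⟩
      · exact ⟨-b - n, by simp [hb, hn]⟩
      · exact ⟨-a - m, by simp [ha, hm]⟩
    · exact ⟨0, by simp⟩

lemma matW_mem (hG : EvenPos G) : IsOTilde G matW := by
  have hid : (matW).map (Int.cast : ℤ → ℤ) = matW := by ext i j; simp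
  have hpres : ∀ Z, Z ∈ cone G → act matW Z ∈ cone G := by
    intro Z hZ
    have h1 : form G (act matW Z) (act matW Z) = form G Z Z := matW_form Z Z
    have h2 : form G (act matW Z) (star (act matW Z)) = form G Z (star Z) := by
      rw [act_star]; exact matW_form Z (star Z)
    refine ⟨h1.trans hZ.1, by rw [h2]; exact hZ.2.1, ?_⟩
    obtain ⟨τ, z, ω, hT, hZe⟩ := cone_eq hG hZ
    have hc := cone_ne_zero hZ
    have h3 : act matW Z (Sum.inl 3) / act matW Z (Sum.inl 0) = ω := by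
      unfold act
      rw [matW_mulVec]
      simp only [Sum.elim_inl]
      have e1 : Z (Sum.inl 2) = Z (Sum.inl 0) * ω := by
        conv_lhs => rw [hZe]
        simp [pt]
      simp
      rw [e1]
      field_simp
    rw [h3]
    obtain ⟨hτ, hb⟩ := hT
    simp only at hτ hb
    have h4 : 0 ≤ bil G (imC z) (imC z) := bil_nonneg hG _
    by_contra hneg
    push Not at hneg
    nlinarith
  refine ⟨?_, ?_, ?_⟩
  · refine isom_of_form fun x y => ?_
    have := matW_form (G := G) (R := ℤ) x y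
    rwa [hid] at this
  · intro Z
    refine ⟨fun h => ?_, hpres Z⟩
    have h1 := hpres _ h
    have h2 : act matW (act matW Z) = Z := by
      unfold act
      rw [matW_mulVec, matW_mulVec]
      ext i
      rcases i with i | i
      · fin_cases i <;> simp
      · simp
    rwa [h2] at h1
  · intro v hv i
    have h := fun i => inl_int v hv i
    rw [matW_mulVec]
    obtain ⟨n, hn⟩ := h 2
    obtain ⟨m, hm⟩ := h 3
    rcases i with i | i
    · fin_cases i
      · exact ⟨0, by simp⟩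
      · exact ⟨0, by simp⟩
      · exact ⟨m - n, by simp [hn, hm]⟩
      · exact ⟨n - m, by simp [hn, hm]⟩
    · exact ⟨0, by simp⟩

end Pool.Agent.Refl
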