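import Mathlib

/-!
# Fourier series of periodic holomorphic functions on a tube over a convex set

`ι` is a finite index set, `D` an open convex subset of `ℝ^ι`, `TD D = {Z : Im Z ∈ D}`.
-/

set_option autoImplicit false

noncomputable section

namespace Pool.Agent.Refl.FT

open MeasureTheory Set Complex

variable {ι : Type} [Fintype ι]

/-- the tube over `D` -/
def TD (D : Set (ι → ℝ)) : Set (ι → ℂ) := {Z | (fun i => (Z i).im) ∈ D}

/-- the unit box with corner `a` -/
def box (a : ι → ℝ) : Set (ι → ℝ) := {x | ∀ i, x i ∈ Ioc (a i) (a i + 1)}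

/-- real vectors -/
def rc (x : ι → ℝ) : ι → ℂ := fun i => (x i : ℂ)

/-- integral vectors -/
def zc (n : ι → ℤ) : ι → ℂ := fun i => (n i : ℂ)

/-- `n . z` -/
def dt (n : ι → ℤ) (z : ι → ℂ) : ℂ := ∑ i, (n i : ℂ) * z i

/-- the representative in the unit box -/
def rep (t : UnitAddTorus ι) : ι → ℝ := fun i => (AddCircle.equivIoc 1 0 (t i)).1

omit [Fintype ι] in
lemma rep_coe (x : ι → ℝ) : ∃ n : ι → ℤ, rep (fun i => (x i : UnitAddCircle)) =
    x + fun i => (n i : ℝ) := by
  refine ⟨fun i => - toIocDiv (zero_lt_one) (0 : ℝ) (x i), ?_⟩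
  funext i
  show (AddCircle.equivIoc 1 0 (x i : UnitAddCircle)).1 = _
  have : (AddCircle.equivIoc 1 0 (x i : UnitAddCircle)).1 = toIocMod zero_lt_one 0 (x i) := rfl
  rw [this, toIocMod]
  simp [sub_eq_add_neg]

lemma integral_box_eq {g : (ι → ℝ) → ℂ} (hg : ∀ x (n : ι → ℤ), g (x + fun i => (n i : ℝ)) = g x)
    (a b : ι → ℝ) : ∫ x in box a, g x = ∫ x in box b, g x := by
  let g' : UnitAddTorus ι → ℂ := fun t => g (rep t)
  have h : ∀ x : ι → ℝ, g' (fun i => (x i : UnitAddCircle)) = g x := by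
    intro x
    obtain ⟨n, hn⟩ := rep_coe x
    show g (rep _) = g x
    rw [hn, hg]
  have h1 := UnitAddTorus.integral_preimage g' a
  have h2 := UnitAddTorus.integral_preimage g' b
  simp only [h] at h1 h2
  exact h1.symm.trans h2

lemma measurableSet_box (a : ι → ℝ) : MeasurableSet (box a) :=
  MeasurableSet.univ_pi' fun _ => measurableSet_Ioc

lemma integral_box_shift {g : (ι → ℝ) → ℂ}
    (hg : ∀ x (n : ι → ℤ), g (x + fun i => (n i : ℝ)) = g x) (a s : ι → ℝ) :
    ∫ x in box a, g (x + s) = ∫ x in box a, g x := by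
  have h1 : ∫ x in box a, g (x + s) = ∫ x in box (a + s), g x := by
    have hp := (measurePreserving_add_right (volume : Measure (ι → ℝ)) s).setIntegral_preimage_emb
      (measurableEmbedding_addRight s) g (box (a + s))
    have hb : (fun x => x + s) ⁻¹' (box (a + s)) = box a := by
      ext x
      simp only [mem_preimage, box, Set.mem_ofPred_eq, Pi.add_apply, mem_Ioc]
      refine forall_congr' fun i => ?_
      constructor
      · rintro ⟨h1, h2⟩
        constructor <;> linarith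
      · rintro ⟨h1, h2⟩
        constructor <;> linarith
    rw [hb] at hp
    exact hp
  rw [h1]
  exact integral_box_eq hg _ _

lemma volume_box (a : ι → ℝ) : (volume : Measure (ι → ℝ)) (box a) = 1 := by
  have : box a = Set.pi univ fun i => Ioc (a i) (a i + 1) := by
    ext x; simp [box]
  rw [this, Real.volume_pi_Ioc]
  simp

/-- the standing hypotheses -/
structure Hol (D : Set (ι → ℝ)) (F : (ι → ℂ) → ℂ) : Prop where
  cont : ContinuousOn F (TD D)
  line : ∀ p ∈ TD D, ∀ v : ι → ℂ, DifferentiableAt ℂ (fun w : ℂ => F (p + w • v)) 0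
  per : ∀ Z ∈ TD D, ∀ n : ι → ℤ, F (Z + zc n) = F Z

/-- `e(-n.z) F(z)` -/
def tw (n : ι → ℤ) (F : (ι → ℂ) → ℂ) (Z : ι → ℂ) : ℂ :=
  F Z * cexp (-(2 * Real.pi * I * dt n Z))

lemma dt_add (n : ι → ℤ) (Z W : ι → ℂ) : dt n (Z + W) = dt n Z + dt n W := by
  simp [dt, mul_add, Finset.sum_add_distrib]

lemma dt_smul (n : ι → ℤ) (w : ℂ) (Z : ι → ℂ) : dt n (w • Z) = w * dt n Z := by
  simp only [dt, Pi.smul_apply, smul_eq_mul, Finset.mul_sum]
  refine Finset.sum_congr rfl fun i _ => ?_
  ring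

lemma dt_zc (n m : ι → ℤ) : dt n (zc m) = ((∑ i, n i * m i : ℤ) : ℂ) := by
  simp [dt, zc]

lemma continuous_dt (n : ι → ℤ) : Continuous (dt n) := by
  unfold dt
  fun_prop

lemma Hol.twist {D : Set (ι → ℝ)} {F : (ι → ℂ) → ℂ} (h : Hol D F) (n : ι → ℤ) :
    Hol D (tw n F) where
  cont := by
    refine h.cont.mul (Continuous.continuousOn ?_)
    have := continuous_dt n
    fun_prop
  line := by
    intro p hp v
    refine (h.line p hp v).mul ?_
    simp only [dt_add, dt_smul]
    fun_prop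
  per := by
    intro Z hZ m
    show F (Z + zc m) * cexp (-(2 * Real.pi * I * dt n (Z + zc m))) = _
    rw [h.per Z hZ, dt_add, dt_zc]
    show _ = F Z * cexp (-(2 * Real.pi * I * dt n Z))
    congr 1
    rw [Complex.exp_eq_exp_iff_exists_int]
    exact ⟨-(∑ i, n i * m i), by push_cast; ring⟩

/-! ### The integral over a box does not depend on the base point -/

/-- the integral over the unit box based at `Z` -/
def J (F : (ι → ℂ) → ℂ) (Z : ι → ℂ) : ℂ := ∫ x in box (0 : ι → ℝ), F (Z + rc x)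

omit [Fintype ι] in
lemma mem_TD_add_rc {D : Set (ι → ℝ)} {Z : ι → ℂ} (hZ : Z ∈ TD D) (x : ι → ℝ) :
    Z + rc x ∈ TD D := by
  have : (fun i => ((Z + rc x) i).im) = fun i => (Z i).im := by
    funext i; simp [rc]
  show (fun i => ((Z + rc x) i).im) ∈ D
  rw [this]; exact hZ

omit [Fintype ι] in
lemma rc_add (x y : ι → ℝ) : rc (x + y) = rc x + rc y := by
  funext i; simp [rc]

omit [Fintype ι] in
lemma continuous_rc : Continuous (rc : (ι → ℝ) → (ι → ℂ)) := by
  unfold rc
  fun_prop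

lemma Hol.J_shift {D : Set (ι → ℝ)} {F : (ι → ℂ) → ℂ} (h : Hol D F) {Z : ι → ℂ}
    (hZ : Z ∈ TD D) (s : ι → ℝ) : J F (Z + rc s) = J F Z := by
  have h1 := integral_box_shift (g := fun x => F (Z + rc x)) (fun x n => by
    have := h.per _ (mem_TD_add_rc hZ x) n
    rw [← this, rc_add, add_assoc]
    congr 3) 0 s
  unfold J
  rw [← h1]
  refine integral_congr_ae (Filter.Eventually.of_forall fun x => ?_)
  show F (Z + rc s + rc x) = F (Z + rc (x + s))
  rw [rc_add, add_assoc, add_comm (rc s)]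

lemma Hol.integrable_prod {D : Set (ι → ℝ)} {F : (ι → ℂ) → ℂ} (h : Hol D F) {Z V : ι → ℂ}
    {γ : ℝ → ℂ} (hγ : Continuous γ) (hm : ∀ u ∈ Icc (0 : ℝ) 1, Z + γ u • V ∈ TD D) :
    Integrable (Function.uncurry fun (u : ℝ) (x : ι → ℝ) => F (Z + γ u • V + rc x))
      ((volume.restrict (uIoc (0 : ℝ) 1)).prod (volume.restrict (box 0))) := by
  rw [Measure.prod_restrict]
  have hK : IsCompact (Icc (0 : ℝ) 1 ×ˢ Icc (0 : ι → ℝ) 1) := isCompact_Icc.prod isCompact_Icc
  have hc : ContinuousOn (Function.uncurry fun (u : ℝ) (x : ι → ℝ) => F (Z + γ u • V + rc x))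
      (Icc (0 : ℝ) 1 ×ˢ Icc (0 : ι → ℝ) 1) := by
    refine h.cont.comp (Continuous.continuousOn ?_) ?_
    · have := continuous_rc (ι := ι)
      fun_prop
    · rintro ⟨u, x⟩ ⟨hu, -⟩
      exact mem_TD_add_rc (hm u hu) x
  refine (hc.integrableOn_compact hK).mono_set ?_
  refine prod_mono ?_ ?_
  · rw [uIoc_of_le zero_le_one]
    exact Ioc_subset_Icc_self
  · intro x hx
    refine ⟨fun i => (hx i).1.le, fun i => ?_⟩
    have := (hx i).2
    simpa using this

lemma Hol.fubini {D : Set (ι → ℝ)} {F : (ι → ℂ) → ℂ} (h : Hol D F) {Z V : ι → ℂ}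
    {γ : ℝ → ℂ} (hγ : Continuous γ) (hm : ∀ u ∈ Icc (0 : ℝ) 1, Z + γ u • V ∈ TD D) :
    ∫ x in box (0 : ι → ℝ), ∫ u in (0 : ℝ)..1, F (Z + γ u • V + rc x) =
      ∫ u in (0 : ℝ)..1, J F (Z + γ u • V) := by
  unfold J
  rw [intervalIntegral_integral_swap (h.integrable_prod hγ hm)]

lemma Hol.integrable_side {D : Set (ι → ℝ)} {F : (ι → ℂ) → ℂ} (h : Hol D F) {Z V : ι → ℂ}
    {γ : ℝ → ℂ} (hγ : Continuous γ) (hm : ∀ u ∈ Icc (0 : ℝ) 1, Z + γ u • V ∈ TD D) :
    Integrable (fun x : ι → ℝ => ∫ u in (0 : ℝ)..1, F (Z + γ u • V + rc x))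
      (volume.restrict (box 0)) := by
  have := (h.integrable_prod hγ hm).integral_prod_right
  rw [uIoc_of_le zero_le_one] at this
  simpa only [intervalIntegral.integral_of_le zero_le_one, Function.uncurry] using this

lemma integral_four {α : Type} [MeasurableSpace α] {μ : Measure α} {a b c d : α → ℂ}
    (ha : Integrable a μ) (hb : Integrable b μ) (hc : Integrable c μ) (hd : Integrable d μ) :
    ∫ x, (a x - b x + I * c x - I * d x) ∂μ =
      ∫ x, a x ∂μ - ∫ x, b x ∂μ + I * ∫ x, c x ∂μ - I * ∫ x, d x ∂μ := by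
  have h1 : Integrable (fun x => a x - b x) μ := ha.sub hb
  have h2 : Integrable (fun x => I * c x) μ := hc.const_mul I
  have h3 : Integrable (fun x => I * d x) μ := hd.const_mul I
  have h4 : Integrable (fun x => a x - b x + I * c x) μ := h1.add h2
  rw [integral_sub h4 h3, integral_add h1 h2, integral_sub ha hb, integral_const_mul,
    integral_const_mul]

theorem Hol.J_const {D : Set (ι → ℝ)} (hD : Convex ℝ D) {F : (ι → ℂ) → ℂ} (h : Hol D F)
    {Z Z' : ι → ℂ} (hZ : Z ∈ TD D) (hZ' : Z' ∈ TD D) : J F Z = J F Z' := by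
  set V : ι → ℂ := rc (fun i => (Z' i).im - (Z i).im) with hV
  have hmem : ∀ w : ℂ, w.im ∈ Icc (0 : ℝ) 1 → Z + w • V ∈ TD D := by
    intro w hw
    have e : (fun i => ((Z + w • V) i).im) =
        (1 - w.im) • (fun i => (Z i).im) + w.im • (fun i => (Z' i).im) := by
      funext i
      simp [hV, rc]
      ring
    show (fun i => ((Z + w • V) i).im) ∈ D
    rw [e]
    exact hD hZ hZ' (by linarith [hw.2]) hw.1 (by ring)
  -- invariance under real translations
  have hre : ∀ (w : ℂ) (s : ℝ), w.im ∈ Icc (0 : ℝ) 1 → J F (Z + (w + s) • V) = J F (Z + w • V) := by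
    intro w s hw
    rw [← h.J_shift (hmem w hw) (s • fun i => (Z' i).im - (Z i).im)]
    congr 1
    funext i
    simp [hV, rc]
    ring
  have hend : J F (Z + I • V) = J F Z' := by
    rw [← h.J_shift (hmem I (by simp)) (fun i => (Z' i).re - (Z i).re)]
    congr 1
    funext i
    apply Complex.ext
    · simp [hV, rc]
    · simp [hV, rc]
  -- the rectangle theorem for each x
  have hrect : ∀ x : ι → ℝ,
      (∫ u in (0 : ℝ)..1, F (Z + (u : ℂ) • V + rc x)) -
        (∫ u in (0 : ℝ)..1, F (Z + ((u : ℂ) + I) • V + rc x)) +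
        I * (∫ u in (0 : ℝ)..1, F (Z + (1 + (u : ℂ) * I) • V + rc x)) -
        I * (∫ u in (0 : ℝ)..1, F (Z + ((u : ℂ) * I) • V + rc x)) = 0 := by
    intro x
    have hd : DifferentiableOn ℂ (fun w : ℂ => F (Z + w • V + rc x))
        (uIcc (0 : ℂ).re (1 + I : ℂ).re ×ℂ uIcc (0 : ℂ).im (1 + I : ℂ).im) := by
      intro w hw
      have hw2 : w.im ∈ Icc (0 : ℝ) 1 := by
        have := hw.2
        simpa [uIcc_of_le] using this
      have h1 := h.line _ (mem_TD_add_rc (hmem w hw2) x) V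
      have h2 : DifferentiableAt ℂ (fun w' : ℂ => F (Z + w • V + rc x + (w' - w) • V)) w := by
        have h3 : DifferentiableAt ℂ (fun ε : ℂ => F (Z + w • V + rc x + ε • V)) (w - w) := by
          rw [sub_self]; exact h1
        exact h3.comp w (f := fun w' : ℂ => w' - w) (by fun_prop)
      refine DifferentiableAt.differentiableWithinAt ?_
      convert h2 using 3
      funext i
      simp
      ring
    have := integral_boundary_rect_eq_zero_of_differentiableOn _ _ _ hd
    simpa using this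
  have h0 := congrArg (fun g : (ι → ℝ) → ℂ => ∫ x in box (0 : ι → ℝ), g x) (funext hrect)
  have m1 : ∀ u ∈ Icc (0 : ℝ) 1, Z + ((fun u : ℝ => (u : ℂ)) u) • V ∈ TD D :=
    fun u _ => hmem _ (by simp)
  have m2 : ∀ u ∈ Icc (0 : ℝ) 1, Z + ((fun u : ℝ => (u : ℂ) + I) u) • V ∈ TD D :=
    fun u _ => hmem _ (by simp)
  have m3 : ∀ u ∈ Icc (0 : ℝ) 1, Z + ((fun u : ℝ => (1 + (u : ℂ) * I)) u) • V ∈ TD D :=
    fun u hu => hmem _ (by simpa using hu)
  have m4 : ∀ u ∈ Icc (0 : ℝ) 1, Z + ((fun u : ℝ => ((u : ℂ) * I)) u) • V ∈ TD D :=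
    fun u hu => hmem _ (by simpa using hu)
  have c1 : Continuous (fun u : ℝ => (u : ℂ)) := by fun_prop
  have c2 : Continuous (fun u : ℝ => (u : ℂ) + I) := by fun_prop
  have c3 : Continuous (fun u : ℝ => (1 + (u : ℂ) * I)) := by fun_prop
  have c4 : Continuous (fun u : ℝ => ((u : ℂ) * I)) := by fun_prop
  have f1 := h.fubini c1 m1
  have f2 := h.fubini c2 m2
  have f3 := h.fubini c3 m3
  have f4 := h.fubini c4 m4
  have i1 := h.integrable_side c1 m1
  have i2 := h.integrable_side c2 m2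
  have i3 := h.integrable_side c3 m3
  have i4 := h.integrable_side c4 m4
  beta_reduce at f1 f2 f3 f4 i1 i2 i3 i4 h0
  rw [integral_four i1 i2 i3 i4, f1, f2, f3, f4, integral_zero] at h0
  have e1 : ∫ u in (0 : ℝ)..1, J F (Z + (u : ℂ) • V) = J F Z := by
    have : ∀ u : ℝ, J F (Z + (u : ℂ) • V) = J F Z := by
      intro u
      have := hre 0 u (by simp)
      simpa using this
    simp only [this]
    simp
  have e2 : ∫ u in (0 : ℝ)..1, J F (Z + ((u : ℂ) + I) • V) = J F Z' := by
    have : ∀ u : ℝ, J F (Z + ((u : ℂ) + I) • V) = J F Z' := by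
      intro u
      have := hre I u (by simp)
      rw [add_comm (u : ℂ) I, this, hend]
    simp only [this]
    simp
  have e3 : ∫ u in (0 : ℝ)..1, J F (Z + (1 + (u : ℂ) * I) • V) =
      ∫ u in (0 : ℝ)..1, J F (Z + ((u : ℂ) * I) • V) := by
    refine intervalIntegral.integral_congr fun u hu => ?_
    rw [uIcc_of_le zero_le_one] at hu
    have := hre ((u : ℂ) * I) 1 (by simpa using hu)
    show J F (Z + (1 + (u : ℂ) * I) • V) = J F (Z + ((u : ℂ) * I) • V)
    rw [← this]
    congr 3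
    push_cast
    ring
  rw [e1, e2, e3, add_sub_assoc, sub_self, add_zero] at h0
  exact sub_eq_zero.1 h0

/-! ### The Cauchy bound -/

/-- imaginary vectors -/
def ic (y : ι → ℝ) : ι → ℂ := fun i => (y i : ℂ) * I

/-- `n . y`, real -/
def dr (n : ι → ℤ) (y : ι → ℝ) : ℝ := ∑ i, (n i : ℝ) * y i

omit [Fintype ι] in
lemma ic_mem {D : Set (ι → ℝ)} {y : ι → ℝ} (hy : y ∈ D) : ic y ∈ TD D := by
  have : (fun i => (ic y i).im) = y := by
    funext i; simp [ic]
  show (fun i => (ic y i).im) ∈ D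
  rw [this]; exact hy

lemma dt_im (n : ι → ℤ) (Z : ι → ℂ) : (dt n Z).im = dr n fun i => (Z i).im := by
  simp [dt, dr]

lemma norm_cexp_dt (n : ι → ℤ) (Z : ι → ℂ) :
    ‖cexp (-(2 * Real.pi * I * dt n Z))‖ = Real.exp (2 * Real.pi * dr n fun i => (Z i).im) := by
  rw [Complex.norm_exp, ← dt_im]
  congr 1
  simp [Complex.mul_re, Complex.mul_im]

lemma norm_J_le {F : (ι → ℂ) → ℂ} (n : ι → ℤ) (y : ι → ℝ) {K : ℝ}
    (hK : ∀ x ∈ box (0 : ι → ℝ), ‖F (ic y + rc x)‖ ≤ K) :
    ‖J (tw n F) (ic y)‖ ≤ K * Real.exp (2 * Real.pi * dr n y) := by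
  unfold J
  have h := norm_setIntegral_le_of_norm_le_const (μ := (volume : Measure (ι → ℝ)))
    (s := box (0 : ι → ℝ)) (f := fun x => tw n F (ic y + rc x))
    (C := K * Real.exp (2 * Real.pi * dr n y)) (by rw [volume_box]; exact ENNReal.one_lt_top)
    (fun x hx => by
      unfold tw
      rw [norm_mul, norm_cexp_dt]
      have e : (fun i => ((ic y + rc x) i).im) = y := by
        funext i; simp [ic, rc]
      rw [e]
      exact mul_le_mul_of_nonneg_right (hK x hx) (Real.exp_nonneg _))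
  have hv : (volume : Measure (ι → ℝ)).real (box 0) = 1 := by
    simp [Measure.real, volume_box]
  rw [hv, mul_one] at h
  exact h

/-! ### Summability -/

lemma summable_prod_pow {r : ℝ} (h0 : 0 ≤ r) (h1 : r < 1) :
    Summable fun n : ι → ℤ => ∏ i, r ^ (n i).natAbs := by
  classical
  have hs : Summable fun k : ℤ => r ^ k.natAbs := by
    have hg := summable_geometric_of_lt_one h0 h1
    refine Summable.of_nat_of_neg ?_ ?_
    · simpa using hg
    · simpa using hg
  have hnn : ∀ k : ℤ, 0 ≤ r ^ k.natAbs := fun k => by positivity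
  refine summable_of_sum_le (c := ∏ _i : ι, ∑' k : ℤ, r ^ k.natAbs)
    (fun n => Finset.prod_nonneg fun i _ => hnn _) fun u => ?_
  have hsub : u ⊆ Fintype.piFinset fun i => u.image fun n => n i := by
    intro n hn
    rw [Fintype.mem_piFinset]
    exact fun i => Finset.mem_image_of_mem _ hn
  calc ∑ n ∈ u, ∏ i, r ^ (n i).natAbs
      ≤ ∑ n ∈ Fintype.piFinset fun i => u.image fun n => n i, ∏ i, r ^ (n i).natAbs :=
        Finset.sum_le_sum_of_subset_of_nonneg hsub fun n _ _ =>
          Finset.prod_nonneg fun i _ => hnn _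
    _ = ∏ i, ∑ k ∈ u.image (fun n => n i), r ^ k.natAbs :=
        (Finset.prod_univ_sum (fun i => u.image fun n => n i) fun _ k => r ^ k.natAbs).symm
    _ ≤ ∏ _i : ι, ∑' k : ℤ, r ^ k.natAbs :=
        Finset.prod_le_prod (fun i _ => Finset.sum_nonneg fun k _ => hnn k) fun i _ =>
          hs.sum_le_tsum _ fun k _ => hnn k

lemma Hol.exists_bound {D : Set (ι → ℝ)} (hDo : IsOpen D) (hD : Convex ℝ D)
    {F : (ι → ℂ) → ℂ} (h : Hol D F) {Z₀ : ι → ℂ} (hZ₀ : Z₀ ∈ TD D) {y : ι → ℝ} (hy : y ∈ D) :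
    ∃ (M r : ℝ), 0 ≤ r ∧ r < 1 ∧ ∀ n : ι → ℤ,
      ‖J (tw n F) Z₀‖ * Real.exp (-(2 * Real.pi * dr n y)) ≤ M * ∏ i, r ^ (n i).natAbs := by
  obtain ⟨δ, hδ, hball⟩ := Metric.isOpen_iff.1 hDo y hy
  set η := δ / 2 with hη
  have hη0 : 0 < η := by positivity
  have hcl : ∀ y' : ι → ℝ, (∀ i, |y' i - y i| ≤ η) → y' ∈ D := by
    intro y' hy'
    refine hball ?_
    rw [Metric.mem_ball]
    refine lt_of_le_of_lt ((dist_pi_le_iff hη0.le).2 fun i => ?_) (by linarith : η < δ)
    rw [Real.dist_eq]; exact hy' i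
  -- the bound on the compact set
  have hK : IsCompact (Icc (0 : ι → ℝ) 1 ×ˢ Icc (fun i => y i - η) (fun i => y i + η)) :=
    isCompact_Icc.prod isCompact_Icc
  have hcont : ContinuousOn (fun q : (ι → ℝ) × (ι → ℝ) => F (ic q.2 + rc q.1))
      (Icc (0 : ι → ℝ) 1 ×ˢ Icc (fun i => y i - η) (fun i => y i + η)) := by
    refine h.cont.comp (Continuous.continuousOn ?_) ?_
    · unfold ic rc
      fun_prop
    · rintro ⟨x, y'⟩ ⟨-, hy'⟩
      refine mem_TD_add_rc (ic_mem (hcl y' fun i => ?_)) x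
      have h1 := hy'.1 i
      have h2 := hy'.2 i
      simp only at h1 h2
      rw [abs_le]; constructor <;> linarith
  obtain ⟨M, hM⟩ := hK.exists_bound_of_continuousOn hcont
  refine ⟨M, Real.exp (-(2 * Real.pi * η)), (Real.exp_pos _).le, ?_, fun n => ?_⟩
  · rw [Real.exp_lt_one_iff]
    have := Real.pi_pos
    have : 0 < 2 * Real.pi * η := by positivity
    linarith
  · set y' : ι → ℝ := fun i => y i - η * SignType.sign (n i) with hy'
    have hs : ∀ i, |((SignType.sign (n i) : SignType) : ℝ)| ≤ 1 := by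
      intro i
      rcases SignType.trichotomy (SignType.sign (n i)) with h1 | h1 | h1 <;> rw [h1] <;> simp
    have hy'm : ∀ i, |y' i - y i| ≤ η := by
      intro i
      have : y' i - y i = -(η * SignType.sign (n i)) := by simp [hy']
      rw [this, abs_neg, abs_mul, abs_of_pos hη0]
      have := hs i
      nlinarith
    have hb := norm_J_le (F := F) n y' (K := M) (fun x hx => by
      refine hM (x, y') ⟨⟨fun i => (hx i).1.le, fun i => ?_⟩, ⟨fun i => ?_, fun i => ?_⟩⟩
      · have := (hx i).2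
        simpa using this
      · have := abs_le.1 (hy'm i)
        show y i - η ≤ y' i
        linarith
      · have := abs_le.1 (hy'm i)
        show y' i ≤ y i + η
        linarith)
    rw [(h.twist n).J_const hD hZ₀ (ic_mem (hcl y' hy'm))]
    have e1 : dr n y' = dr n y - η * ∑ i, |(n i : ℝ)| := by
      simp only [dr, hy', mul_sub, Finset.sum_sub_distrib, Finset.mul_sum]
      congr 1
      refine Finset.sum_congr rfl fun i _ => ?_
      have : (n i : ℝ) * (SignType.sign (n i) : SignType) = |(n i : ℝ)| := by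
        rcases lt_trichotomy (n i) 0 with h1 | h1 | h1
        · rw [sign_neg h1, abs_of_neg (by exact_mod_cast h1)]; simp
        · rw [h1]; simp
        · rw [sign_pos h1, abs_of_pos (by exact_mod_cast h1)]; simp
      rw [← this]; ring
    have e2 : ∏ i, Real.exp (-(2 * Real.pi * η)) ^ (n i).natAbs =
        Real.exp (-(2 * Real.pi * η * ∑ i, |(n i : ℝ)|)) := by
      rw [Finset.mul_sum, ← Finset.sum_neg_distrib, Real.exp_sum]
      refine Finset.prod_congr rfl fun i _ => ?_
      rw [← Real.exp_nat_mul]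
      congr 1
      have : (((n i).natAbs : ℕ) : ℝ) = |(n i : ℝ)| := by
        rw [Nat.cast_natAbs]; simp
      rw [this]; ring
    rw [e2]
    rw [e1] at hb
    calc ‖J (tw n F) (ic y')‖ * Real.exp (-(2 * Real.pi * dr n y))
        ≤ (M * Real.exp (2 * Real.pi * (dr n y - η * ∑ i, |(n i : ℝ)|))) *
          Real.exp (-(2 * Real.pi * dr n y)) := by gcongr
      _ = M * Real.exp (-(2 * Real.pi * η * ∑ i, |(n i : ℝ)|)) := by
          rw [mul_assoc, ← Real.exp_add]
          congr 2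
          ring

/-! ### The Fourier series -/

/-- the restriction of `F` to `Im Z = y` as a function on the torus -/
def onTorus (F : (ι → ℂ) → ℂ) (y : ι → ℝ) (t : UnitAddTorus ι) : ℂ := F (ic y + rc (rep t))

omit [Fintype ι] in
lemma zc_eq (n : ι → ℤ) : rc (fun i => (n i : ℝ)) = zc n := by
  funext i; simp [rc, zc]

omit [Fintype ι] in
lemma Hol.onTorus_coe {D : Set (ι → ℝ)} {F : (ι → ℂ) → ℂ} (h : Hol D F) {y : ι → ℝ} (hy : y ∈ D)
    (x : ι → ℝ) : onTorus F y (fun i => (x i : UnitAddCircle)) = F (ic y + rc x) := by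
  obtain ⟨n, hn⟩ := rep_coe x
  unfold onTorus
  rw [hn, rc_add, zc_eq, ← add_assoc, h.per _ (mem_TD_add_rc (ic_mem hy) x)]

omit [Fintype ι] in
lemma Hol.continuous_onTorus {D : Set (ι → ℝ)} {F : (ι → ℂ) → ℂ} (h : Hol D F) {y : ι → ℝ}
    (hy : y ∈ D) : Continuous (onTorus F y) := by
  have hq : IsOpenQuotientMap (Pi.map fun (_ : ι) => (QuotientAddGroup.mk : ℝ → UnitAddCircle)) :=
    IsOpenQuotientMap.piMap fun _ => QuotientAddGroup.isOpenQuotientMap_mk
  rw [← hq.continuous_comp_iff]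
  have e : onTorus F y ∘ (Pi.map fun (_ : ι) => (QuotientAddGroup.mk : ℝ → UnitAddCircle)) =
      fun x => F (ic y + rc x) := by
    funext x
    exact h.onTorus_coe hy x
  rw [e]
  refine h.cont.comp_continuous ?_ fun x => mem_TD_add_rc (ic_mem hy) x
  have := continuous_rc (ι := ι)
  fun_prop

lemma mFourier_coe (n : ι → ℤ) (x : ι → ℝ) :
    UnitAddTorus.mFourier n (fun i => (x i : UnitAddCircle)) =
      cexp (2 * Real.pi * I * dt n (rc x)) := by
  show ∏ i, fourier (n i) (x i : UnitAddCircle) = _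
  rw [dt, Finset.mul_sum, Complex.exp_sum]
  refine Finset.prod_congr rfl fun i _ => ?_
  rw [fourier_coe_apply]
  congr 1
  simp [rc]
  ring

lemma dt_ic (n : ι → ℤ) (y : ι → ℝ) : dt n (ic y) = dr n y * I := by
  simp only [dt, ic, dr]
  push_cast
  rw [Finset.sum_mul]
  refine Finset.sum_congr rfl fun i _ => ?_
  ring

lemma dt_neg (n : ι → ℤ) (z : ι → ℂ) : dt (-n) z = -dt n z := by
  simp [dt]

lemma Hol.coeff {D : Set (ι → ℝ)} {F : (ι → ℂ) → ℂ} (h : Hol D F) {y : ι → ℝ}
    (hy : y ∈ D) (n : ι → ℤ) : UnitAddTorus.mFourierCoeff (onTorus F y) n =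
      J (tw n F) (ic y) * Real.exp (-(2 * Real.pi * dr n y)) := by
  rw [UnitAddTorus.mFourierCoeff_eq_integral _ _ (0 : ι → ℝ)]
  show ∫ x in box (0 : ι → ℝ), _ = _
  unfold J
  rw [← integral_mul_const]
  refine integral_congr_ae (Filter.Eventually.of_forall fun x => ?_)
  show UnitAddTorus.mFourier (-n) (fun i => (x i : UnitAddCircle)) •
    onTorus F y (fun i => (x i : UnitAddCircle)) = tw n F (ic y + rc x) * _
  rw [mFourier_coe, h.onTorus_coe hy, smul_eq_mul, tw, mul_comm _ (F (ic y + rc x)),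
    mul_assoc (F (ic y + rc x)), dt_add, dt_ic, dt_neg, Complex.ofReal_exp, ← Complex.exp_add]
  congr 2
  push_cast
  have : I * I = -1 := Complex.I_mul_I
  linear_combination (2 * Real.pi * (dr n y : ℂ)) * this

/-- The Fourier series of a periodic holomorphic function on the tube over an open convex set. -/
theorem Hol.hasSum {D : Set (ι → ℝ)} (hDo : IsOpen D) (hD : Convex ℝ D)
    {F : (ι → ℂ) → ℂ} (h : Hol D F) {Z₀ : ι → ℂ} (hZ₀ : Z₀ ∈ TD D) {Z : ι → ℂ} (hZ : Z ∈ TD D) :
    HasSum (fun n : ι → ℤ => J (tw n F) Z₀ * cexp (2 * Real.pi * I * dt n Z)) (F Z) := by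
  set y : ι → ℝ := fun i => (Z i).im with hy
  have hyD : y ∈ D := hZ
  let g : C(UnitAddTorus ι, ℂ) := ⟨onTorus F y, h.continuous_onTorus hyD⟩
  have hc : ∀ n, UnitAddTorus.mFourierCoeff g n =
      J (tw n F) Z₀ * Real.exp (-(2 * Real.pi * dr n y)) := by
    intro n
    show UnitAddTorus.mFourierCoeff (onTorus F y) n = _
    rw [h.coeff hyD, (h.twist n).J_const hD hZ₀ (ic_mem hyD)]
  have hs : Summable (UnitAddTorus.mFourierCoeff g) := by
    obtain ⟨M, r, hr0, hr1, hb⟩ := h.exists_bound hDo hD hZ₀ hyD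
    refine Summable.of_norm_bounded ((summable_prod_pow (ι := ι) hr0 hr1).mul_left M) fun n => ?_
    rw [hc, norm_mul, Complex.norm_real, Real.norm_of_nonneg (Real.exp_nonneg _)]
    exact hb n
  have h1 := UnitAddTorus.hasSum_mFourier_series_apply_of_summable hs
    (fun i => ((Z i).re : UnitAddCircle))
  have e1 : g (fun i => ((Z i).re : UnitAddCircle)) = F Z := by
    show onTorus F y (fun i => ((fun i => (Z i).re) i : UnitAddCircle)) = F Z
    rw [h.onTorus_coe hyD]
    congr 1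
    funext i
    simp only [Pi.add_apply, ic, rc, hy]
    apply Complex.ext <;> simp
  rw [e1] at h1
  convert h1 using 1
  funext n
  rw [hc, smul_eq_mul, mul_assoc (J (tw n F) Z₀)]
  congr 1
  have e2 : UnitAddTorus.mFourier n (fun i => ((Z i).re : UnitAddCircle)) =
      cexp (2 * Real.pi * I * dt n (rc fun i => (Z i).re)) := mFourier_coe n fun i => (Z i).re
  rw [e2, Complex.ofReal_exp, ← Complex.exp_add]
  congr 1
  have e3 : Z = (rc fun i => (Z i).re) + ic y := by
    funext i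
    simp only [Pi.add_apply, ic, rc, hy]
    apply Complex.ext <;> simp
  conv_lhs => rw [e3, dt_add, dt_ic]
  push_cast
  have : I * I = -1 := Complex.I_mul_I
  linear_combination (2 * Real.pi * (dr n y : ℂ)) * this

end Pool.Agent.Refl.FT
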