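import Pool.Agent.Refl.Basic
import Pool.Agent.Refl.FourierTorus

/-! Module FOURIER: Fourier expansion of periodic holomorphic functions on the tube. -/

namespace Pool.Agent.Refl
open Matrix FT

variable {G : Matrix (Fin 20) (Fin 20) ℤ}

/-- index set of the coordinates `(τ, ω; z)` -/
abbrev FI : Type := Fin 2 ⊕ Fin 20

/-- the imaginary parts of the points of the tube -/
def fD (G : Matrix (Fin 20) (Fin 20) ℤ) : Set (FI → ℝ) :=
  {y | 0 < y (Sum.inl 0) ∧ bil G (fun i => y (Sum.inr i)) (fun i => y (Sum.inr i)) <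
    2 * y (Sum.inl 0) * y (Sum.inl 1)}

lemma f_bil_comb (G : Matrix (Fin 20) (Fin 20) ℤ) (s t : ℝ) (x y : VR) :
    bil G (fun i => s * x i + t * y i) (fun i => s * x i + t * y i) =
      s ^ 2 * bil G x x + s * t * (bil G x y + bil G y x) + t ^ 2 * bil G y y := by
  simp only [bil, Finset.mul_sum, mul_add, ← Finset.sum_add_distrib]
  refine Finset.sum_congr rfl fun i _ => Finset.sum_congr rfl fun j _ => ?_
  ring

lemma fD_isOpen (G : Matrix (Fin 20) (Fin 20) ℤ) : IsOpen (fD G) := by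
  have h1 : IsOpen {y : FI → ℝ | 0 < y (Sum.inl 0)} :=
    isOpen_lt (f := fun _ : FI → ℝ => (0 : ℝ)) (by fun_prop) (by fun_prop)
  have h2 : IsOpen {y : FI → ℝ | bil G (fun i => y (Sum.inr i)) (fun i => y (Sum.inr i)) <
      2 * y (Sum.inl 0) * y (Sum.inl 1)} := by
    refine isOpen_lt ?_ (by fun_prop)
    unfold bil
    fun_prop
  exact h1.inter h2

lemma fD_convex (hG : EvenPos G) : Convex ℝ (fD G) := by
  intro y hy y' hy' s t hs ht hst
  obtain ⟨h1, h2⟩ := hy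
  obtain ⟨h1', h2'⟩ := hy'
  set x : VR := fun i => y (Sum.inr i) with hx
  set x' : VR := fun i => y' (Sum.inr i) with hx'
  set a := y (Sum.inl 0) with ha
  set a' := y' (Sum.inl 0) with ha'
  set b := y (Sum.inl 1) with hb
  set b' := y' (Sum.inl 1) with hb'
  have hpos : 0 < s * a + t * a' := by
    rcases hs.eq_or_lt with h | h
    · have : t = 1 := by linarith
      rw [← h, this]; linarith
    · have := mul_pos h h1
      have := mul_nonneg ht h1'.le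
      linarith
  refine ⟨hpos, ?_⟩
  show bil G (fun i => s * x i + t * x' i) (fun i => s * x i + t * x' i) <
    2 * (s * a + t * a') * (s * b + t * b')
  have e1 := f_bil_comb G s t x x'
  have e2 := f_bil_comb G (-a') a x x'
  have e3 := bil_nonneg hG (fun i => -a' * x i + a * x' i)
  rw [e1]
  rw [e2] at e3
  set A := bil G x x
  set B := bil G x x' + bil G x' x
  set C := bil G x' x'
  have haa : 0 < a * a' := mul_pos h1 h1'
  have key : (s ^ 2 * A + s * t * B + t ^ 2 * C) * (a * a') <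
      (2 * (s * a + t * a') * (s * b + t * b')) * (a * a') := by
    have k1 : (s ^ 2 * A + s * t * B + t ^ 2 * C) * (a * a') +
        s * t * ((-a') ^ 2 * A + -a' * a * B + a ^ 2 * C) =
        (s * a + t * a') * (s * a' * A + t * a * C) := by ring
    have k2 : 0 ≤ s * t * ((-a') ^ 2 * A + -a' * a * B + a ^ 2 * C) :=
      mul_nonneg (mul_nonneg hs ht) e3
    have k3 : s * a' * A + t * a * C < s * a' * (2 * a * b) + t * a * (2 * a' * b') := by
      rcases hs.eq_or_lt with h | h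
      · have h5 : t = 1 := by linarith
        rw [← h, h5]
        have := mul_lt_mul_of_pos_left h2' h1
        linarith
      · have k4 := mul_lt_mul_of_pos_left h2 (mul_pos h h1')
        have k5 := mul_le_mul_of_nonneg_left h2'.le (mul_nonneg ht h1.le)
        linarith
    have k6 := mul_lt_mul_of_pos_left k3 hpos
    have k7 : (s * a + t * a') * (s * a' * (2 * a * b) + t * a * (2 * a' * b')) =
      (2 * (s * a + t * a') * (s * b + t * b')) * (a * a') := by ring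
    linarith
  exact lt_of_mul_lt_mul_right key haa.le

/-- the point `(τ, z, ω)` -/
def fpt (Z : FI → ℂ) : ℂ × VC × ℂ := (Z (Sum.inl 0), fun i => Z (Sum.inr i), Z (Sum.inl 1))

lemma fpt_mem {Z : FI → ℂ} : Z ∈ TD (fD G) ↔ fpt Z ∈ Tube G := Iff.rfl

lemma f_int_period {g : ℂ → ℂ} {S : Set ℂ} (hS : ∀ t ∈ S, ∀ r : ℝ, t + r ∈ S)
    (h : ∀ t ∈ S, g (t + 1) = g t) (n : ℤ) : ∀ t ∈ S, g (t + n) = g t := by
  induction n using Int.induction_on with
  | zero => intro t _; simp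
  | succ k ih =>
    intro t ht
    have h1 := h (t + (k : ℤ)) (by simpa using hS t ht k)
    rw [← ih t ht, ← h1]
    congr 1
    push_cast
    ring
  | pred k ih =>
    intro t ht
    have h1 := h (t + ((-(k : ℤ) - 1 : ℤ) : ℂ)) (by
      have := hS t ht (-(k : ℝ) - 1)
      push_cast at this ⊢
      exact this)
    rw [← h1, ← ih t ht]
    congr 1
    push_cast
    ring

lemma f_hol (f : ℂ → VC → ℂ → ℂ)
    (gh : GH (Tube G) (fun Z : ℂ × VC × ℂ => f Z.1 Z.2.1 Z.2.2))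
    (Tτ : ∀ τ z ω, (τ, z, ω) ∈ Tube G → f (τ + 1) z ω = f τ z ω)
    (Tω : ∀ τ z ω, (τ, z, ω) ∈ Tube G → f τ z (ω + 1) = f τ z ω)
    (Tz : ∀ τ z ω (x : VZ), (τ, z, ω) ∈ Tube G → f τ (z + toC x) ω = f τ z ω) :
    Hol (fD G) (fun Z : FI → ℂ => f (Z (Sum.inl 0)) (fun i => Z (Sum.inr i)) (Z (Sum.inl 1)))
    where
  cont := by
    have h1 : Continuous fpt := by
      unfold fpt
      fun_prop
    exact gh.cont.comp h1.continuousOn fun Z hZ => hZ
  line := fun p hp v => gh.line (fpt p) hp (fpt v)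
  per := by
    intro Z hZ n
    have hT : ∀ (τ : ℂ) (z : VC) (ω : ℂ), (τ, z, ω) ∈ Tube G → f (τ + n (Sum.inl 0)) z ω = f τ z ω := by
      intro τ z ω h
      refine f_int_period (g := fun t => f t z ω) (S := {t | (t, z, ω) ∈ Tube G}) ?_ ?_ _ τ h
      · rintro t ⟨ht1, ht2⟩ r
        refine ⟨?_, ?_⟩
        · simpa using ht1
        · simpa using ht2
      · intro t ht
        exact Tτ t z ω ht
    have hW : ∀ (τ : ℂ) (z : VC) (ω : ℂ), (τ, z, ω) ∈ Tube G → f τ z (ω + n (Sum.inl 1)) = f τ z ω := by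
      intro τ z ω h
      refine f_int_period (g := fun t => f τ z t) (S := {t | (τ, z, t) ∈ Tube G}) ?_ ?_ _ ω h
      · rintro t ⟨ht1, ht2⟩ r
        refine ⟨ht1, ?_⟩
        simpa using ht2
      · intro t ht
        exact Tω τ z t ht
    have h1 := hT (Z (Sum.inl 0)) (fun i => Z (Sum.inr i)) (Z (Sum.inl 1)) hZ
    have m2 : (Z (Sum.inl 0) + n (Sum.inl 0), (fun i => Z (Sum.inr i) : VC), Z (Sum.inl 1)) ∈
        Tube G := by
      obtain ⟨a1, a2⟩ := hZ
      refine ⟨?_, ?_⟩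
      · simpa using a1
      · have e1 : (Z (Sum.inl 0) + n (Sum.inl 0)).im = (Z (Sum.inl 0)).im := by simp
        show bil G (imC fun i => Z (Sum.inr i)) (imC fun i => Z (Sum.inr i)) <
          2 * (Z (Sum.inl 0) + n (Sum.inl 0)).im * (Z (Sum.inl 1)).im
        rw [e1]
        exact a2
    have h2 := hW _ _ _ m2
    have m3 : (Z (Sum.inl 0) + n (Sum.inl 0), (fun i => Z (Sum.inr i) : VC),
        Z (Sum.inl 1) + n (Sum.inl 1)) ∈ Tube G := by
      obtain ⟨a1, a2⟩ := m2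
      refine ⟨a1, ?_⟩
      simpa using a2
    have h3 := Tz _ _ _ (fun i => n (Sum.inr i)) m3
    show f (Z (Sum.inl 0) + n (Sum.inl 0)) (fun i => Z (Sum.inr i) + n (Sum.inr i))
      (Z (Sum.inl 1) + n (Sum.inl 1)) = _
    rw [← h1, ← h2, ← h3]
    rfl

/-- the index equivalence -/
def fE : (ℤ × ℤ × VZ) ≃ (FI → ℤ) where
  toFun t := Sum.elim ![t.1, t.2.1] t.2.2
  invFun n := (n (Sum.inl 0), n (Sum.inl 1), fun i => n (Sum.inr i))
  left_inv := fun t => rfl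
  right_inv := fun n => by
    funext i
    rcases i with i | i
    · fin_cases i <;> rfl
    · rfl

lemma f_dt (t : ℤ × ℤ × VZ) (Z : FI → ℂ) : dt (fE t) Z =
    t.1 * Z (Sum.inl 0) + t.2.1 * Z (Sum.inl 1) + dot t.2.2 (fun i => Z (Sum.inr i)) := by
  rw [dt, Fintype.sum_sum_type, Fin.sum_univ_two]
  rfl

lemma f_dr (t : ℤ × ℤ × VZ) (y : FI → ℝ) : dr (fE t) y =
    t.1 * y (Sum.inl 0) + t.2.1 * y (Sum.inl 1) + dot t.2.2 (fun i => y (Sum.inr i)) := by
  rw [dr, Fintype.sum_sum_type, Fin.sum_univ_two]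
  rfl

/-- Fourier expansion on the tube, with the Cauchy type bound for the coefficients. -/
theorem fourier_expansion (hG : EvenPos G) (f : ℂ → VC → ℂ → ℂ)
    (gh : GH (Tube G) (fun Z : ℂ × VC × ℂ => f Z.1 Z.2.1 Z.2.2))
    (Tτ : ∀ τ z ω, (τ, z, ω) ∈ Tube G → f (τ + 1) z ω = f τ z ω)
    (Tω : ∀ τ z ω, (τ, z, ω) ∈ Tube G → f τ z (ω + 1) = f τ z ω)
    (Tz : ∀ τ z ω (x : VZ), (τ, z, ω) ∈ Tube G → f τ (z + toC x) ω = f τ z ω) :
    ∃ a : ℤ × ℤ × VZ → ℂ,
      (∀ τ z ω, (τ, z, ω) ∈ Tube G →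
        HasSum (fun t : ℤ × ℤ × VZ => a t * e (t.1 * τ + t.2.1 * ω + dot t.2.2 z)) (f τ z ω)) ∧
      ∀ (y₁ y₃ : ℝ) (y₂ : VR) (K : ℝ), 0 < y₁ → bil G y₂ y₂ < 2 * y₁ * y₃ →
        (∀ (x₁ x₃ : ℝ) (x₂ : VR), ‖f (x₁ + y₁ * Complex.I) (ofR x₂ + Complex.I • ofR y₂)
          (x₃ + y₃ * Complex.I)‖ ≤ K) →
        ∀ t : ℤ × ℤ × VZ,
          ‖a t‖ * Real.exp (-(2 * Real.pi * (t.1 * y₁ + t.2.1 * y₃ + dot t.2.2 y₂))) ≤ K := by
  set F : (FI → ℂ) → ℂ :=
    fun Z => f (Z (Sum.inl 0)) (fun i => Z (Sum.inr i)) (Z (Sum.inl 1)) with hF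
  have hH : Hol (fD G) F := f_hol f gh Tτ Tω Tz
  have hy0 : (Sum.elim ![1, 1] 0 : FI → ℝ) ∈ fD G := by
    refine ⟨one_pos, ?_⟩
    show bil G (fun i => (0 : ℝ)) (fun i => (0 : ℝ)) < 2 * 1 * 1
    simp [bil]
  set Z₀ : FI → ℂ := ic (Sum.elim ![1, 1] 0) with hZ₀
  have hZ₀m : Z₀ ∈ TD (fD G) := ic_mem hy0
  refine ⟨fun t => J (tw (fE t) F) Z₀, ?_, ?_⟩
  · intro τ z ω hZ
    have h1 := hH.hasSum (fD_isOpen G) (fD_convex hG) hZ₀m
      (Z := Sum.elim ![τ, ω] z) hZ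
    rw [← fE.hasSum_iff] at h1
    convert h1 using 1
    · funext t
      show _ = J (tw (fE t) F) Z₀ * _
      rw [f_dt]
      rfl
    · rfl
  · intro y₁ y₃ y₂ K hy₁ hy₂ hK t
    have hy : (Sum.elim ![y₁, y₃] y₂ : FI → ℝ) ∈ fD G := ⟨hy₁, hy₂⟩
    have h1 := norm_J_le (F := F) (fE t) (Sum.elim ![y₁, y₃] y₂) (K := K) (fun x _ => by
      have := hK (x (Sum.inl 0)) (x (Sum.inl 1)) (fun i => x (Sum.inr i))
      rw [hF]
      convert this using 3
      · show (y₁ : ℂ) * Complex.I + (x (Sum.inl 0) : ℂ) = _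
        ring
      · funext i
        show (y₂ i : ℂ) * Complex.I + (x (Sum.inr i) : ℂ) =
          (x (Sum.inr i) : ℂ) + Complex.I * (y₂ i : ℂ)
        ring
      · show (y₃ : ℂ) * Complex.I + (x (Sum.inl 1) : ℂ) = _
        ring)
    rw [← (hH.twist (fE t)).J_const (fD_convex hG) hZ₀m (ic_mem hy), f_dr] at h1
    have h2 := mul_le_mul_of_nonneg_right h1 (Real.exp_nonneg
      (-(2 * Real.pi * (t.1 * y₁ + t.2.1 * y₃ + dot t.2.2 y₂))))
    refine h2.trans (le_of_eq ?_)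
    rw [mul_assoc, ← Real.exp_add]
    have : 2 * Real.pi * (t.1 * y₁ + t.2.1 * y₃ + dot t.2.2 y₂) +
        -(2 * Real.pi * (t.1 * y₁ + t.2.1 * y₃ + dot t.2.2 y₂)) = 0 := by ring
    have h3 : 2 * Real.pi * (↑t.1 * (Sum.elim ![y₁, y₃] y₂ : FI → ℝ) (Sum.inl 0) +
        ↑t.2.1 * (Sum.elim ![y₁, y₃] y₂ : FI → ℝ) (Sum.inl 1) +
        dot t.2.2 fun i => (Sum.elim ![y₁, y₃] y₂ : FI → ℝ) (Sum.inr i)) =
        2 * Real.pi * (t.1 * y₁ + t.2.1 * y₃ + dot t.2.2 y₂) := rfl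
    rw [h3, this, Real.exp_zero, mul_one]

end Pool.Agent.Refl
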