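import Pool.Agent.Refl.ConeAux2
import Pool.Agent.Refl.Fourier

/-! Module CONE: holomorphy on the tube, connectedness of the tube. -/

namespace Pool.Agent.Refl
open Matrix

variable {G : Matrix (Fin 20) (Fin 20) ℤ}

lemma tube_isOpen (G : Matrix (Fin 20) (Fin 20) ℤ) : IsOpen (Tube G) := by
  have h1 : IsOpen {Z : ℂ × VC × ℂ | 0 < Z.1.im} :=
    isOpen_lt continuous_const (Complex.continuous_im.comp continuous_fst)
  have h2 : IsOpen {Z : ℂ × VC × ℂ |
      bil G (imC Z.2.1) (imC Z.2.1) < 2 * Z.1.im * Z.2.2.im} := by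
    refine isOpen_lt ?_ ?_
    · unfold bil imC
      have : ∀ i : Fin 20, Continuous fun Z : ℂ × VC × ℂ => (Z.2.1 i).im := fun i =>
        Complex.continuous_im.comp
          ((continuous_apply i).comp (continuous_fst.comp continuous_snd))
      fun_prop
    · have a1 : Continuous fun Z : ℂ × VC × ℂ => Z.1.im :=
        Complex.continuous_im.comp continuous_fst
      have a2 : Continuous fun Z : ℂ × VC × ℂ => Z.2.2.im :=
        Complex.continuous_im.comp (continuous_snd.comp continuous_snd)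
      fun_prop
  exact h1.inter h2

/-- the point of the cone, as a function on `ℂ × ℂ²⁰ × ℂ` -/
noncomputable def ptm (G : Matrix (Fin 20) (Fin 20) ℤ) (Z : ℂ × VC × ℂ) : Idx → ℂ :=
  pt G Z.1 Z.2.1 Z.2.2

lemma differentiable_ptm (G : Matrix (Fin 20) (Fin 20) ℤ) : Differentiable ℂ (ptm G) := by
  have h : ∀ i : Fin 20, Differentiable ℂ fun Z : ℂ × VC × ℂ => Z.2.1 i := fun i => by fun_prop
  rw [differentiable_pi]
  intro i
  rcases i with i | i
  · fin_cases i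
    · show Differentiable ℂ fun _ : ℂ × VC × ℂ => (1 : ℂ)
      fun_prop
    · show Differentiable ℂ fun Z : ℂ × VC × ℂ => -(2 * Z.1 * Z.2.2 - bil G Z.2.1 Z.2.1) / 2
      unfold bil
      fun_prop
    · show Differentiable ℂ fun Z : ℂ × VC × ℂ => Z.2.2
      fun_prop
    · show Differentiable ℂ fun Z : ℂ × VC × ℂ => Z.1
      fun_prop
  · show Differentiable ℂ fun Z : ℂ × VC × ℂ => Z.2.1 i
    exact h i

lemma cone_diffAt (hG : EvenPos G) {F : (Idx → ℂ) → ℂ}
    (hF : ∀ Z ∈ cone G, ∃ U : Set (Idx → ℂ), IsOpen U ∧ Z ∈ U ∧ ∃ H : (Idx → ℂ) → ℂ,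
      DifferentiableOn ℂ H U ∧ ∀ W ∈ U ∩ cone G, F W = H W) {Z : ℂ × VC × ℂ}
    (hZ : Z ∈ Tube G) :
    DifferentiableAt ℂ (fun Z : ℂ × VC × ℂ => F (pt G Z.1 Z.2.1 Z.2.2)) Z := by
  obtain ⟨U, hU, hZU, H, hH, hFH⟩ := hF (ptm G Z) ((pt_mem_cone hG).2 hZ)
  have h1 : DifferentiableAt ℂ (fun Z => H (ptm G Z)) Z :=
    DifferentiableAt.comp Z ((hH _ hZU).differentiableAt (hU.mem_nhds hZU))
      (differentiable_ptm G Z)
  refine h1.congr_of_eventuallyEq ?_
  have h2 : ∀ᶠ W in nhds Z, W ∈ Tube G := (tube_isOpen G).mem_nhds hZ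
  have h3 : ∀ᶠ W in nhds Z, ptm G W ∈ U :=
    (differentiable_ptm G).continuous.continuousAt.eventually (hU.mem_nhds hZU)
  filter_upwards [h2, h3] with W hW2 hW3
  exact hFH _ ⟨hW3, (pt_mem_cone hG).2 hW2⟩

theorem cone_gh (hG : EvenPos G) {F : (Idx → ℂ) → ℂ}
    (hF : ∀ Z ∈ cone G, ∃ U : Set (Idx → ℂ), IsOpen U ∧ Z ∈ U ∧ ∃ H : (Idx → ℂ) → ℂ,
      DifferentiableOn ℂ H U ∧ ∀ W ∈ U ∩ cone G, F W = H W) (N : ℕ) :
    GH (Tube G) (fun Z : ℂ × VC × ℂ => F (pt G Z.1 Z.2.1 Z.2.2) ^ N) where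
  cont := fun Z hZ => ((cone_diffAt hG hF hZ).pow N).continuousAt.continuousWithinAt
  line := by
    intro p hp v
    have h1 : DifferentiableAt ℂ (fun Z : ℂ × VC × ℂ => F (pt G Z.1 Z.2.1 Z.2.2) ^ N)
        (p + (0 : ℂ) • v) := by
      rw [zero_smul, add_zero]
      exact (cone_diffAt hG hF hp).pow N
    exact h1.comp (0 : ℂ) (f := fun w : ℂ => p + w • v) (by fun_prop)

theorem tube_convex (hG : EvenPos G) : Convex ℝ (Tube G) := by
  have hl : IsLinearMap ℝ (fun Z : ℂ × VC × ℂ =>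
      (Sum.elim ![Z.1.im, Z.2.2.im] (imC Z.2.1) : FI → ℝ)) := by
    constructor
    · intro x y
      funext i
      rcases i with i | i
      · fin_cases i
        · show (x + y).1.im = x.1.im + y.1.im
          simp
        · show (x + y).2.2.im = x.2.2.im + y.2.2.im
          simp
      · show ((x + y).2.1 i).im = (x.2.1 i).im + (y.2.1 i).im
        simp
    · intro c x
      funext i
      rcases i with i | i
      · fin_cases i
        · show (c • x).1.im = c * x.1.im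
          simp
        · show (c • x).2.2.im = c * x.2.2.im
          simp
      · show ((c • x).2.1 i).im = c * (x.2.1 i).im
        simp
  exact (fD_convex hG).is_linear_preimage hl

theorem tube_preconn (hG : EvenPos G) : IsPreconnected (Tube G) :=
  (tube_convex hG).isPreconnected

theorem cone_const (hG : EvenPos G) {F : (Idx → ℂ) → ℂ}
    (hF : ∀ Z ∈ cone G, ∃ U : Set (Idx → ℂ), IsOpen U ∧ Z ∈ U ∧ ∃ H : (Idx → ℂ) → ℂ,
      DifferentiableOn ℂ H U ∧ ∀ W ∈ U ∩ cone G, F W = H W) {N : ℕ} (hN : 0 < N) {c : ℂ}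
    (hc : ∀ Z ∈ Tube G, F (pt G Z.1 Z.2.1 Z.2.2) ^ N = c) :
    ∃ c' : ℂ, ∀ Z ∈ Tube G, F (pt G Z.1 Z.2.1 Z.2.2) = c' := by
  rcases (Tube G).eq_empty_or_nonempty with h0 | ⟨Z₀, hZ₀⟩
  · exact ⟨0, fun Z hZ => absurd hZ (by rw [h0]; simp)⟩
  have hfin : {x : ℂ | x ^ N = c}.Finite := by
    refine ((Polynomial.nthRoots N c).toFinset.finite_toSet).subset fun x hx => ?_
    rw [Finset.mem_coe, Multiset.mem_toFinset, Polynomial.mem_nthRoots hN]
    exact hx
  refine ⟨F (pt G Z₀.1 Z₀.2.1 Z₀.2.2), fun Z hZ => ?_⟩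
  exact (tube_preconn hG).constant_of_mapsTo (T := {x : ℂ | x ^ N = c}) hfin.isDiscrete
    (f := fun Z : ℂ × VC × ℂ => F (pt G Z.1 Z.2.1 Z.2.2))
    (fun Z hZ => (cone_diffAt hG hF hZ).continuousAt.continuousWithinAt)
    (fun Z hZ => hc Z hZ) hZ hZ₀

end Pool.Agent.Refl
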