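import Pool.Agent.Refl.ConeAux2

/-! Module CONE, part ZERO: reflective vectors give allowed vectors of the dual lattice. -/

namespace Pool.Agent.Refl
open Matrix

variable {G : Matrix (Fin 20) (Fin 20) ℤ}

lemma cz_map_id : (gramM G).map (Int.cast : ℤ → ℤ) = gramM G := by ext i j; simp

/-- the values of the pairing with `r` generate the ideal `k ℤ` -/
lemma cz_gen (w : Idx → ℤ) :
    ∃ (k : ℤ) (x : Idx → ℤ), 0 ≤ k ∧ (∀ i, k ∣ w i) ∧ x ⬝ᵥ w = k := by
  obtain ⟨a, ha⟩ := (IsPrincipalIdealRing.principal (Ideal.span (Set.range w))).principal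
  have hdvd : ∀ i, a ∣ w i := by
    intro i
    have h1 : w i ∈ Ideal.span (Set.range w) := Ideal.subset_span ⟨i, rfl⟩
    rw [ha] at h1
    exact Ideal.mem_span_singleton.mp h1
  have hmem : a ∈ Ideal.span (Set.range w) := by
    rw [ha]
    exact Ideal.mem_span_singleton_self a
  obtain ⟨c, hc⟩ := Ideal.mem_span_range_iff_exists_fun.mp hmem
  rcases le_total 0 a with h | h
  · exact ⟨a, c, h, hdvd, by rw [dotProduct]; exact hc⟩
  · refine ⟨-a, -c, by linarith, fun i => (neg_dvd).mpr (hdvd i), ?_⟩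
    rw [neg_dotProduct, dotProduct, hc]

theorem refl_allowed (hG : EvenPos G) {r : Idx → ℤ} (hr : IsReflectiveVector G r) {τ : ℂ}
    {z : VC} {ω : ℂ} (h : form G (fun i => (r i : ℂ)) (pt G τ z ω) = 0) :
    ∃ (a b n m : ℤ) (p : VZ), Allowed G a b n m p ∧
      -(a : ℂ) * (2 * τ * ω - bil G z z) / 2 + b + n * τ + m * ω + dot p z = 0 := by
  obtain ⟨hprim, hneg, hrefl⟩ := hr
  have hform : ∀ x : Idx → ℤ, form G x r = x ⬝ᵥ (gramM G *ᵥ r) := by
    intro x
    unfold form
    rw [cz_map_id]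
  obtain ⟨k, x, hk0, hkd, hkx⟩ := cz_gen (gramM G *ᵥ r)
  -- the entries of gramM * r
  have hent : ∀ x : Idx → ℤ, x ⬝ᵥ (gramM G *ᵥ r) =
      x (Sum.inl 0) * r (Sum.inl 1) + x (Sum.inl 1) * r (Sum.inl 0)
      + x (Sum.inl 2) * r (Sum.inl 3) + x (Sum.inl 3) * r (Sum.inl 2)
      - bil G (fun i => x (Sum.inr i)) (fun i => r (Sum.inr i)) := by
    intro x
    rw [← hform, form_eq]
  have hsingle : ∀ j : Idx, (gramM G *ᵥ r) j = (Pi.single j (1 : ℤ)) ⬝ᵥ (gramM G *ᵥ r) := by
    intro j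
    rw [single_one_dotProduct]
  have e0 : k ∣ r (Sum.inl 0) := by
    have h1 := hkd (Sum.inl 1)
    rw [hsingle, hent] at h1
    simpa [bil] using h1
  have e1 : k ∣ r (Sum.inl 1) := by
    have h1 := hkd (Sum.inl 0)
    rw [hsingle, hent] at h1
    simpa [bil] using h1
  have e2 : k ∣ r (Sum.inl 2) := by
    have h1 := hkd (Sum.inl 3)
    rw [hsingle, hent] at h1
    simpa [bil] using h1
  have e3 : k ∣ r (Sum.inl 3) := by
    have h1 := hkd (Sum.inl 2)
    rw [hsingle, hent] at h1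
    simpa [bil] using h1
  have ev : ∀ i, k ∣ -(G *ᵥ (fun i => r (Sum.inr i))) i := by
    intro i
    have h1 := hkd (Sum.inr i)
    rw [hsingle, hent] at h1
    have h2 : bil G (fun j => (Pi.single (Sum.inr i) (1 : ℤ) : Idx → ℤ) (Sum.inr j))
        (fun j => r (Sum.inr j)) = (G *ᵥ (fun i => r (Sum.inr i))) i := by
      have h3 : (fun j => (Pi.single (Sum.inr i) (1 : ℤ) : Idx → ℤ) (Sum.inr j)) =
          Pi.single i (1 : ℤ) := by
        ext j
        simp [Pi.single_apply]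
      rw [h3, ← cone_dot, single_one_dotProduct]
      congr 2
    rw [h2] at h1
    simpa using h1
  obtain ⟨a, ha⟩ := e0
  obtain ⟨b, hb⟩ := e1
  obtain ⟨n, hn⟩ := e2
  obtain ⟨m, hm⟩ := e3
  choose p hp using ev
  have hD : form G r r = k * (2 * a * (k * b) + 2 * n * (k * m)
      + p ⬝ᵥ (fun i => r (Sum.inr i))) := by
    rw [form_eq, ← cone_dot]
    have hmap : G.map (Int.cast : ℤ → ℤ) = G := by ext a b; simp
    rw [hmap]
    have h1 : (fun i => r (Sum.inr i)) ⬝ᵥ G *ᵥ (fun i => r (Sum.inr i)) =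
        - (k * (p ⬝ᵥ (fun i => r (Sum.inr i)))) := by
      rw [dotProduct, dotProduct, Finset.mul_sum, ← Finset.sum_neg_distrib]
      refine Finset.sum_congr rfl fun i _ => ?_
      have := hp i
      linear_combination (-(r (Sum.inr i))) * this
    rw [h1, ha, hb, hn, hm]
    ring
  have hk : 0 < k := by
    rcases hk0.lt_or_eq with h1 | h1
    · exact h1
    · exfalso
      rw [← h1] at hD
      rw [hD] at hneg
      simp at hneg
  -- primitivity
  obtain ⟨g, y, hg0, hgd, hgy⟩ := cz_gen r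
  have hgu : IsUnit g := hprim g hgd
  have hg1 : g = 1 := by
    rcases Int.isUnit_iff.mp hgu with h1 | h1
    · exact h1
    · omega
  have hdiv : form G r r ∣ 2 * k := by
    obtain ⟨y', hy'⟩ := hrefl x
    have h1 : form G x r = k := by rw [hform, hkx]
    refine ⟨y ⬝ᵥ (x - y'), ?_⟩
    have h2 : 2 * k = 2 * k * (y ⬝ᵥ r) := by rw [hgy, hg1, mul_one]
    rw [h2, dotProduct, dotProduct, Finset.mul_sum, Finset.mul_sum]
    refine Finset.sum_congr rfl fun i _ => ?_
    have h3 := hy' i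
    rw [h1] at h3
    rw [Pi.sub_apply]
    linear_combination (-(y i)) * h3
  set D' : ℤ := 2 * a * (k * b) + 2 * n * (k * m) + p ⬝ᵥ (fun i => r (Sum.inr i)) with hD'
  have hD'2 : D' ∣ 2 := by
    rw [hD, mul_comm 2 k] at hdiv
    exact (mul_dvd_mul_iff_left hk.ne').mp hdiv
  have hD'neg : D' < 0 := by
    rw [hD] at hneg
    by_contra hcon
    have : 0 ≤ k * D' := mul_nonneg hk.le (not_lt.mp hcon)
    linarith
  have hdd : -D' = 1 ∨ -D' = 2 := by
    have h1 : -D' ∣ 2 := (neg_dvd).mpr hD'2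
    have h2 : -D' ≤ 2 := Int.le_of_dvd (by norm_num) h1
    omega
  refine ⟨a, b, n, m, p, ⟨k, fun i => -r (Sum.inr i), -D', hk, hdd, ?_, ?_⟩, ?_⟩
  · ext i
    have h1 : (G *ᵥ (fun i => -r (Sum.inr i))) i = -(G *ᵥ (fun i => r (Sum.inr i))) i := by
      have : (fun i => -r (Sum.inr i)) = -(fun i => r (Sum.inr i)) := by ext i; simp
      rw [this, mulVec_neg, Pi.neg_apply]
    rw [h1, hp i]
    simp
  · have h1 : p ⬝ᵥ (fun i => -r (Sum.inr i)) = -(p ⬝ᵥ (fun i => r (Sum.inr i))) := by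
      have : (fun i => -r (Sum.inr i)) = -(fun i => r (Sum.inr i)) := by ext i; simp
      rw [this, dotProduct_neg]
    rw [h1, hD']
    ring
  · have hz : (fun i => (pt G τ z ω) (Sum.inr i)) = z := by
      ext i; simp [pt]
    rw [form_eq, hz] at h
    have hkC : (k : ℂ) ≠ 0 := by exact_mod_cast hk.ne'
    have hb2 : bil G (fun i => ((r (Sum.inr i) : ℤ) : ℂ)) z = -((k : ℂ) * dot p z) := by
      have hsym : bil G (fun i => ((r (Sum.inr i) : ℤ) : ℂ)) z =
          bil G z (fun i => ((r (Sum.inr i) : ℤ) : ℂ)) := bil_symm hG _ _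
      rw [hsym, ← cone_dot, dotProduct, dot, Finset.mul_sum, ← Finset.sum_neg_distrib]
      refine Finset.sum_congr rfl fun i _ => ?_
      have h1 : ((G.map (Int.cast : ℤ → ℂ)) *ᵥ (fun i => ((r (Sum.inr i) : ℤ) : ℂ))) i =
          (((G *ᵥ (fun i => r (Sum.inr i))) i : ℤ) : ℂ) := by
        simp [mulVec, dotProduct]
      have h2 : (((G *ᵥ (fun i => r (Sum.inr i))) i : ℤ) : ℂ) = -((k : ℂ) * (p i : ℂ)) := by
        have h3 := hp i
        have h4 : (G *ᵥ (fun i => r (Sum.inr i))) i = -(k * p i) := by linarith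
        rw [h4]; push_cast; ring
      rw [h1, h2]
      ring
    rw [hb2, ha, hb, hn, hm] at h
    simp only [pt, Sum.elim_inl] at h
    simp only [Matrix.cons_val_zero, Matrix.cons_val_one, Matrix.cons_val] at h
    push_cast at h
    apply mul_left_cancel₀ hkC
    rw [mul_zero]
    linear_combination h

end Pool.Agent.Refl
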