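import Pool.Agent.Refl.ConeAux3
import Pool.Agent.Refl.ConeZero
import Pool.Agent.Refl.ConeGH

/-! Module CONE: from a reflective modular form on the cone to the function on the tube. -/

namespace Pool.Agent.Refl
open Matrix

variable {G : Matrix (Fin 20) (Fin 20) ℤ}

lemma eq_smul_pt' {Z : Idx → ℂ} {t : ℂ} (ht : t ≠ 0) (h0 : form G Z Z = 0) {τ : ℂ} {z : VC} {ω : ℂ}
    (e0 : Z (Sum.inl 0) = t) (e3 : Z (Sum.inl 3) = t * τ) (e2 : Z (Sum.inl 2) = t * ω)
    (ev : ∀ i, Z (Sum.inr i) = t * z i) : Z = t • pt G τ z ω := by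
  have h := eq_smul_pt h0 (by rw [e0]; exact ht)
  have h3 : Z (Sum.inl 3) / Z (Sum.inl 0) = τ := by rw [e3, e0]; field_simp
  have h2 : Z (Sum.inl 2) / Z (Sum.inl 0) = ω := by rw [e2, e0]; field_simp
  have hv : (fun i => Z (Sum.inr i) / Z (Sum.inl 0)) = z := by
    funext i; rw [ev, e0]; field_simp
  rw [h3, h2, hv, e0] at h
  exact h

lemma cone_key (hG : EvenPos G) {F : (Idx → ℂ) → ℂ} {k : ℤ} {χ : Matrix Idx Idx ℤ → ℂ} {N : ℕ}
    (hom : ∀ Z ∈ cone G, ∀ t : ℂ, t ≠ 0 → F (t • Z) = t ^ (-k) * F Z)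
    (inv : ∀ A, IsOTilde G A → ∀ Z ∈ cone G, F (act A Z) = χ A * F Z)
    (fin : ∀ A, IsOTilde G A → χ A ^ N = 1) {A : Matrix Idx Idx ℤ} (hA : IsOTilde G A)
    {τ : ℂ} {z : VC} {ω : ℂ} (hT : (τ, z, ω) ∈ Tube G) {τ' : ℂ} {z' : VC} {ω' : ℂ} {t : ℂ}
    (ht : t ≠ 0)
    (e0 : act A (pt G τ z ω) (Sum.inl 0) = t)
    (e3 : act A (pt G τ z ω) (Sum.inl 3) = t * τ')
    (e2 : act A (pt G τ z ω) (Sum.inl 2) = t * ω')
    (ev : ∀ i, act A (pt G τ z ω) (Sum.inr i) = t * z' i) :
    (τ', z', ω') ∈ Tube G ∧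
      F (pt G τ' z' ω') ^ N = t ^ (k * N) * F (pt G τ z ω) ^ N := by
  have hpt := (pt_mem_cone hG).mpr hT
  have hc : act A (pt G τ z ω) ∈ cone G := (hA.pres _).mpr hpt
  have h1 : act A (pt G τ z ω) = t • pt G τ' z' ω' := eq_smul_pt' ht hc.1 e0 e3 e2 ev
  have hc' : pt G τ' z' ω' ∈ cone G := by rwa [h1, smul_mem_cone ht] at hc
  refine ⟨(pt_mem_cone hG).mp hc', ?_⟩
  have h2 : t ^ (-k) * F (pt G τ' z' ω') = χ A * F (pt G τ z ω) := by
    rw [← hom _ hc' t ht, ← h1, inv A hA _ hpt]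
  have h3 : F (pt G τ' z' ω') = t ^ k * (χ A * F (pt G τ z ω)) := by
    rw [← h2, ← mul_assoc, ← zpow_add₀ ht]; simp
  rw [h3, mul_pow, mul_pow, fin A hA, one_mul, _root_.zpow_mul, zpow_natCast]

lemma form_elim (a b c d a' b' c' d' : ℤ) (v w : VZ) :
    form G (Sum.elim ![a, b, c, d] v) (Sum.elim ![a', b', c', d'] w) =
      a * b' + b * a' + c * d' + d * c' - bil G v w := by
  rw [form_eq]
  simp

lemma form_pt_elim (τ : ℂ) (z : VC) (ω : ℂ) (b c d : ℤ) (v : VZ) :
    form G (pt G τ z ω) (cst ℂ (Sum.elim ![0, b, c, d] v)) =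
      b + c * τ + d * ω - bil G z (toC v) := by
  rw [form_eq]
  have h1 : (fun i => (pt G τ z ω) (Sum.inr i)) = z := by ext i; simp [pt]
  have h2 : (fun i => cst ℂ (Sum.elim ![0, b, c, d] v) (Sum.inr i)) = toC v := by
    ext i; simp [cst, toC]
  rw [h1, h2]
  simp [pt, cst]
  ring

section main
variable {F : (Idx → ℂ) → ℂ} {k : ℤ} {χ : Matrix Idx Idx ℤ → ℂ} {N : ℕ}

/-- the transvection with `e = (0,b,c,d;v)` and `u = (0,b',c',d';v')` with `c·d' ...` acting on the
tube when the first coordinate stays `1` -/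
lemma cone_trans (hG : EvenPos G)
    (hom : ∀ Z ∈ cone G, ∀ t : ℂ, t ≠ 0 → F (t • Z) = t ^ (-k) * F Z)
    (inv : ∀ A, IsOTilde G A → ∀ Z ∈ cone G, F (act A Z) = χ A * F Z)
    (fin : ∀ A, IsOTilde G A → χ A ^ N = 1) {b c d b' c' d' h : ℤ} {v v' : VZ}
    (he : 2 * c * d - bil G v v = 0) (heu : c * d' + d * c' - bil G v v' = 0)
    (huu : 2 * c' * d' - bil G v' v' = 2 * h)
    {τ : ℂ} {z : VC} {ω : ℂ} (hT : (τ, z, ω) ∈ Tube G) {s r : ℂ}
    (hs : s = b + c * τ + d * ω - bil G z (toC v))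
    (hr : r = (b' + c' * τ + d' * ω - bil G z (toC v')) - h * s) :
    (τ - s * d' + r * d, z - s • toC v' + r • toC v, ω - s * c' + r * c) ∈ Tube G ∧
      F (pt G (τ - s * d' + r * d) (z - s • toC v' + r • toC v) (ω - s * c' + r * c)) ^ N =
        F (pt G τ z ω) ^ N := by
  have h1 : form G (Sum.elim ![0, b, c, d] v) (Sum.elim ![0, b, c, d] v) = 0 := by
    rw [form_elim]; linarith
  have h2 : form G (Sum.elim ![0, b, c, d] v) (Sum.elim ![0, b', c', d'] v') = 0 := by
    rw [form_elim]; linarith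
  have h3 : form G (Sum.elim ![0, b', c', d'] v') (Sum.elim ![0, b', c', d'] v') = 2 * h := by
    rw [form_elim]; linarith
  have hA := trans_mem hG h1 h2 h3
  have hact : ∀ i, act (trans G (Sum.elim ![0, b, c, d] v) (Sum.elim ![0, b', c', d'] v') h)
      (pt G τ z ω) i = pt G τ z ω i - s * cst ℂ (Sum.elim ![0, b', c', d'] v') i +
        r * cst ℂ (Sum.elim ![0, b, c, d] v) i := by
    intro i
    unfold act
    rw [trans_act, form_pt_elim, form_pt_elim, ← hs]
    simp only [Pi.sub_apply, Pi.add_apply, Pi.smul_apply, smul_eq_mul]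
    rw [hr]
    ring
  have := cone_key hG hom inv fin hA hT (t := 1) (τ' := τ - s * d' + r * d)
    (z' := z - s • toC v' + r • toC v) (ω' := ω - s * c' + r * c) one_ne_zero ?_ ?_ ?_ ?_
  · simpa using this
  · rw [hact]; simp [pt, cst]
  · rw [hact]; simp [pt, cst]
  · rw [hact]; simp [pt, cst]
  · intro i; rw [hact]; simp [pt, cst, toC]

lemma cone_shift (hG : EvenPos G)
    (hom : ∀ Z ∈ cone G, ∀ t : ℂ, t ≠ 0 → F (t • Z) = t ^ (-k) * F Z)
    (inv : ∀ A, IsOTilde G A → ∀ Z ∈ cone G, F (act A Z) = χ A * F Z)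
    (fin : ∀ A, IsOTilde G A → χ A ^ N = 1) (a c : ℤ) (x : VZ)
    {τ : ℂ} {z : VC} {ω : ℂ} (hT : (τ, z, ω) ∈ Tube G) :
    F (pt G (τ + a) (z + toC x) (ω + c)) ^ N = F (pt G τ z ω) ^ N := by
  obtain ⟨y, hy⟩ := bil_even hG (-x)
  have hb0 : ∀ w : VZ, bil G (0 : VZ) w = 0 := by intro w; simp [bil]
  have hb1 : ∀ w : VC, bil G w (toC 0) = 0 := by intro w; simp [bil, toC]
  have := (cone_trans hG hom inv fin (b := 1) (c := 0) (d := 0) (v := 0) (b' := 0) (c' := -c)
    (d' := -a) (v' := -x) (h := c * a - y) (by rw [hb0]; ring) (by rw [hb0]; ring)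
    (by rw [hy]; ring) hT (s := 1) (by rw [hb1]; push_cast; ring) rfl).2
  rw [← this]
  have e1 : toC (-x) = -toC x := by ext i; simp [toC]
  have e2 : toC 0 = 0 := by ext i; simp [toC]
  rw [e1, e2]
  refine congrArg (fun x => F x ^ N) ?_
  congr 1
  · push_cast; ring
  · simp
  · push_cast; ring

lemma cone_W (hG : EvenPos G)
    (hom : ∀ Z ∈ cone G, ∀ t : ℂ, t ≠ 0 → F (t • Z) = t ^ (-k) * F Z)
    (inv : ∀ A, IsOTilde G A → ∀ Z ∈ cone G, F (act A Z) = χ A * F Z)
    (fin : ∀ A, IsOTilde G A → χ A ^ N = 1)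
    {τ : ℂ} {z : VC} {ω : ℂ} (hT : (τ, z, ω) ∈ Tube G) :
    F (pt G ω z τ) ^ N = F (pt G τ z ω) ^ N := by
  have hact : act matW (pt G τ z ω) = _ := matW_mulVec (pt G τ z ω)
  have := (cone_key hG hom inv fin (matW_mem hG) hT (t := 1) (τ' := ω) (z' := z) (ω' := τ)
    one_ne_zero ?_ ?_ ?_ ?_).2
  · simpa using this
  · rw [hact]; simp [pt]
  · rw [hact]; simp [pt]
  · rw [hact]; simp [pt]
  · intro i; rw [hact]; simp [pt]

lemma cone_S (hG : EvenPos G)
    (hom : ∀ Z ∈ cone G, ∀ t : ℂ, t ≠ 0 → F (t • Z) = t ^ (-k) * F Z)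
    (inv : ∀ A, IsOTilde G A → ∀ Z ∈ cone G, F (act A Z) = χ A * F Z)
    (fin : ∀ A, IsOTilde G A → χ A ^ N = 1)
    {τ : ℂ} {z : VC} {ω : ℂ} (hT : (τ, z, ω) ∈ Tube G) :
    F (pt G (-1 / τ) (τ⁻¹ • z) (ω - bil G z z / (2 * τ))) ^ N =
      τ ^ (k * N) * F (pt G τ z ω) ^ N := by
  have hτ : τ ≠ 0 := by
    intro h; have := hT.1; rw [h] at this; simp at this
  have hact : act matS (pt G τ z ω) = _ := matS_mulVec (pt G τ z ω)
  refine (cone_key hG hom inv fin matS_mem hT (t := τ) hτ ?_ ?_ ?_ ?_).2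
  · rw [hact]; simp [pt]
  · rw [hact]; simp [pt]; field_simp
  · rw [hact]; simp [pt]; field_simp; ring
  · intro i; rw [hact]; simp [pt]; field_simp

end main

theorem exists_TF (hG : EvenPos G) (h : IsReflective G) :
    ∃ (k : ℤ) (f : ℂ → VC → ℂ → ℂ), TF G k f := by
  obtain ⟨k, F, ⟨hol, hom, χ, ⟨_, _, N, hN, fin⟩, inv⟩, ⟨Z₁, hZ₁, Z₂, hZ₂, hne⟩, hzero⟩ := h
  refine ⟨k * N, fun τ z ω => F (pt G τ z ω) ^ N, ?_⟩
  refine
    { gh := cone_gh hG hol N
      Tτ := ?_
      Tω := ?_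
      Tz := ?_
      S := ?_
      H := ?_
      W := ?_
      E := ?_
      zero := ?_
      nonconst := ?_ }
  · intro τ z ω hT
    have := cone_shift hG hom inv fin 1 0 0 hT
    have e2 : toC 0 = 0 := by ext i; simp [toC]
    simpa [e2] using this
  · intro τ z ω hT
    have := cone_shift hG hom inv fin 0 1 0 hT
    have e2 : toC 0 = 0 := by ext i; simp [toC]
    simpa [e2] using this
  · intro τ z ω x hT
    have := cone_shift hG hom inv fin 0 0 x hT
    simpa using this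
  · intro τ z ω hT
    exact cone_S hG hom inv fin hT
  · intro τ z ω x hT
    obtain ⟨y, hy⟩ := bil_even hG x
    have hb0 : ∀ w : VZ, bil G (0 : VZ) w = 0 := by intro w; simp [bil]
    have hb1 : ∀ w : VC, bil G w (toC 0) = 0 := by intro w; simp [bil, toC]
    have hnn : bil G (-x) (-x) = bil G x x := by rw [bil_neg_left, bil_neg_right, neg_neg]
    have e1 : toC (-x) = -toC x := by ext i; simp [toC]
    have e2 : toC 0 = 0 := by ext i; simp [toC]
    have hyC : bil G (toC x) (toC x) = (y : ℂ) + y := by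
      have : ((bil G x x : ℤ) : ℂ) = bil G (toC x) (toC x) := by simp [bil, toC]
      rw [← this, hy]; push_cast; ring
    have := (cone_trans hG hom inv fin (b := 0) (c := 1) (d := 0) (v := 0) (b' := 0) (c' := 0)
      (d' := 0) (v' := -x) (h := -y) (by rw [hb0]; ring) (by rw [hb0]; ring)
      (by rw [hnn, hy]; ring) hT (s := τ) (by rw [hb1]; push_cast; ring) rfl).2
    rw [← this]
    rw [e1, e2, bil_neg_right, bil_symm hG z, hyC]
    refine congrArg (fun x => F x ^ N) ?_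
    congr 1
    · push_cast; ring
    · simp
    · push_cast; ring
  · intro τ z ω hT
    exact cone_W hG hom inv fin hT
  · intro ne me nu ve vu hme h1 h2 τ z ω hT c d hc hd
    obtain ⟨y, hy⟩ := bil_even hG vu
    have := cone_trans hG hom inv fin (b := 0) (c := ne) (d := me) (v := ve) (b' := 0) (c' := nu)
      (d' := 0) (v' := vu) (h := -y) (by linarith) (by rw [bil_symm hG ve vu]; linarith)
      (by rw [hy]; ring) hT (s := c) (r := d) (by rw [hc]; push_cast; ring)
      (by rw [hd, hy]; push_cast; ring)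
    simpa using this
  · intro τ z ω hT h0
    have h1 : F (pt G τ z ω) = 0 := by
      simpa using pow_eq_zero_iff (hN.ne') |>.mp h0
    obtain ⟨r, hr, hr0⟩ := hzero _ ((pt_mem_cone hG).mpr hT) h1
    exact refl_allowed hG hr hr0
  · by_contra hcon
    push Not at hcon
    have hT0 : ((2 * Complex.I : ℂ), (0 : VC), Complex.I) ∈ Tube G := by
      have : imC (0 : VC) = 0 := by ext i; simp [imC]
      refine ⟨by simp, ?_⟩
      simp only [this]
      simp [bil]
    obtain ⟨c', hc'⟩ := cone_const hG hol hN (fun Z hZ => hcon Z hZ _ hT0)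
    have hFc : ∀ Z ∈ cone G, F Z = (Z (Sum.inl 0)) ^ (-k) * c' := by
      intro Z hZ
      obtain ⟨τ, z, ω, hT, hZe⟩ := cone_eq hG hZ
      conv_lhs => rw [hZe]
      rw [hom _ ((pt_mem_cone hG).mpr hT) _ (cone_ne_zero hZ), hc' _ hT]
    by_cases h0 : c' = 0
    · apply hne
      rw [hFc _ hZ₁, hFc _ hZ₂, h0, mul_zero, mul_zero]
    · have hS := cone_S hG hom inv fin hT0
      have hT1 : ((-1 / (2 * Complex.I) : ℂ), ((2 * Complex.I : ℂ)⁻¹ • (0 : VC)),
          Complex.I - bil G (0 : VC) 0 / (2 * (2 * Complex.I))) ∈ Tube G := by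
        have hb : bil G (0 : VC) 0 = 0 := by simp [bil]
        have hb' : bil G (0 : VR) 0 = 0 := by simp [bil]
        have : imC (0 : VC) = 0 := by ext i; simp [imC]
        rw [smul_zero, hb, zero_div, sub_zero]
        have him : (-1 / (2 * Complex.I) : ℂ).im = 1 / 2 := by
          have : (-1 / (2 * Complex.I) : ℂ) = (1 / 2 : ℝ) * Complex.I := by
            rw [div_eq_iff (by simp)]
            push_cast
            linear_combination (-1 : ℂ) * Complex.I_mul_I
          rw [this]; simp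
        refine ⟨by rw [him]; norm_num, ?_⟩
        simp only [this, hb', him]
        simp
      rw [hc' _ hT1, hc' _ hT0] at hS
      have hcN : c' ^ N ≠ 0 := pow_ne_zero _ h0
      have h1 : (2 * Complex.I : ℂ) ^ (k * N) = 1 := by
        have := mul_right_cancel₀ hcN ((one_mul _).trans hS)
        exact this.symm
      have h2 : (2 : ℝ) ^ (k * (N : ℤ)) = 1 := by
        have := congrArg norm h1
        rw [norm_zpow, norm_mul, Complex.norm_I, mul_one] at this
        simpa using this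
      have hk : k = 0 := by
        have h3 : k * (N : ℤ) = 0 := by
          by_contra hne0
          rcases lt_or_gt_of_ne hne0 with hlt | hgt
          · have := zpow_lt_one_of_neg₀ (one_lt_two : (1:ℝ) < 2) hlt
            rw [h2] at this; exact lt_irrefl _ this
          · have := one_lt_zpow₀ (one_lt_two : (1:ℝ) < 2) hgt
            rw [h2] at this; exact lt_irrefl _ this
        rcases mul_eq_zero.mp h3 with h | h
        · exact h
        · exact absurd h (by exact_mod_cast hN.ne')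
      apply hne
      rw [hFc _ hZ₁, hFc _ hZ₂, hk]
      simp

end Pool.Agent.Refl
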