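import Mathlib

/-!
# Reflective lattices `2U ⊕ L(-1)` of signature `(2,22)`: definitions

`G` is the Gram matrix of an even positive definite lattice `L` of rank 20 in a basis.
-/

namespace Pool.Agent.Refl

open Matrix

/-! ## Part 1: the definitions used in the final statement -/

/-- `G` is the Gram matrix of an even positive definite lattice (of rank 20). -/
structure EvenPos (G : Matrix (Fin 20) (Fin 20) ℤ) : Prop where
  symm : G.IsSymm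
  even : ∀ i, Even (G i i)
  pos : (G.map (Int.cast : ℤ → ℝ)).PosDef

/-- The index type of a basis of `M = U ⊕ U ⊕ L(-1)`. -/
abbrev Idx := Fin 4 ⊕ Fin 20

/-- The Gram matrix of `M = U ⊕ U ⊕ L(-1)`. -/
def gramM (G : Matrix (Fin 20) (Fin 20) ℤ) : Matrix Idx Idx ℤ :=
  Matrix.fromBlocks !![0, 1, 0, 0; 1, 0, 0, 0; 0, 0, 0, 1; 0, 0, 1, 0] 0 0 (-G)

/-- The bilinear form of `M`, with coefficients extended to the ring `R`. -/
def form {R : Type*} [CommRing R] (G : Matrix (Fin 20) (Fin 20) ℤ) (x y : Idx → R) : R :=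
  x ⬝ᵥ ((gramM G).map (Int.cast : ℤ → R)) *ᵥ y

/-- The affine cone over one of the two components of
`{[Z] : (Z,Z) = 0, (Z, conj Z) > 0}` (the other component is its complex conjugate). -/
def cone (G : Matrix (Fin 20) (Fin 20) ℤ) : Set (Idx → ℂ) :=
  {Z | form G Z Z = 0 ∧ 0 < (form G Z (star Z)).re ∧ 0 < (Z (Sum.inl 3) / Z (Sum.inl 0)).im}

/-- An integral matrix acting on complex vectors. -/
def act (A : Matrix Idx Idx ℤ) (Z : Idx → ℂ) : Idx → ℂ :=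
  (A.map (Int.cast : ℤ → ℂ)) *ᵥ Z

/-- `A` belongs to `Õ⁺(M)`: it is an isometry of `M`, it maps the cone onto itself and it acts
trivially on `M^∨/M`. -/
structure IsOTilde (G : Matrix (Fin 20) (Fin 20) ℤ) (A : Matrix Idx Idx ℤ) : Prop where
  isom : Aᵀ * gramM G * A = gramM G
  pres : ∀ Z : Idx → ℂ, act A Z ∈ cone G ↔ Z ∈ cone G
  disc : ∀ v : Idx → ℚ,
    (∀ i, ∃ k : ℤ, (((gramM G).map (Int.cast : ℤ → ℚ)) *ᵥ v) i = k) →
    ∀ i, ∃ k : ℤ, ((A.map (Int.cast : ℤ → ℚ)) *ᵥ v) i - v i = k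

/-- A character of finite order of `Õ⁺(M)`. -/
structure IsFiniteCharacter (G : Matrix (Fin 20) (Fin 20) ℤ) (χ : Matrix Idx Idx ℤ → ℂ) :
    Prop where
  one : χ 1 = 1
  mul : ∀ A B, IsOTilde G A → IsOTilde G B → χ (A * B) = χ A * χ B
  fin : ∃ N : ℕ, 0 < N ∧ ∀ A, IsOTilde G A → χ A ^ N = 1

/-- `F` is a holomorphic modular form of weight `k` for `Õ⁺(M)`: it is holomorphic on the cone
(locally the restriction of a holomorphic function on an open set of the ambient space),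
homogeneous of degree `-k`, and invariant up to a character of finite order. -/
structure IsModularForm (G : Matrix (Fin 20) (Fin 20) ℤ) (k : ℤ) (F : (Idx → ℂ) → ℂ) :
    Prop where
  hol : ∀ Z ∈ cone G, ∃ U : Set (Idx → ℂ), IsOpen U ∧ Z ∈ U ∧ ∃ H : (Idx → ℂ) → ℂ,
    DifferentiableOn ℂ H U ∧ ∀ W ∈ U ∩ cone G, F W = H W
  homog : ∀ Z ∈ cone G, ∀ t : ℂ, t ≠ 0 → F (t • Z) = t ^ (-k) * F Z
  inv : ∃ χ : Matrix Idx Idx ℤ → ℂ, IsFiniteCharacter G χ ∧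
    ∀ A, IsOTilde G A → ∀ Z ∈ cone G, F (act A Z) = χ A * F Z

/-- `r ∈ M` is a reflective vector: it is primitive, `(r,r) < 0`, and the reflection
`x ↦ x - 2 (x,r)/(r,r) r` maps `M` into itself. -/
def IsReflectiveVector (G : Matrix (Fin 20) (Fin 20) ℤ) (r : Idx → ℤ) : Prop :=
  (∀ d : ℤ, (∀ i, d ∣ r i) → IsUnit d) ∧ form G r r < 0 ∧
    ∀ x : Idx → ℤ, ∃ y : Idx → ℤ, ∀ i, form G r r * (x i - y i) = 2 * form G x r * r i

/-- `M = U ⊕ U ⊕ L(-1)` is a reflective lattice: it carries a nonconstant holomorphic modular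
form whose zeros lie on the hyperplanes orthogonal to reflective vectors. -/
def IsReflective (G : Matrix (Fin 20) (Fin 20) ℤ) : Prop :=
  ∃ (k : ℤ) (F : (Idx → ℂ) → ℂ), IsModularForm G k F ∧
    (∃ Z ∈ cone G, ∃ W ∈ cone G, F Z ≠ F W) ∧
    ∀ Z ∈ cone G, F Z = 0 →
      ∃ r : Idx → ℤ, IsReflectiveVector G r ∧ form G (fun i => (r i : ℂ)) Z = 0

/-- Two Gram matrices are equivalent over the ring `R`. -/
def EquivOver {ι κ : Type*} [Fintype ι] [DecidableEq ι] [Fintype κ] [DecidableEq κ]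
    (R : Type*) [CommRing R] (A : Matrix ι ι ℤ) (B : Matrix κ κ ℤ) : Prop :=
  ∃ (P : Matrix ι κ R) (Q : Matrix κ ι R), P * Q = 1 ∧ Q * P = 1 ∧
    Pᵀ * A.map (Int.cast : ℤ → R) * P = B.map (Int.cast : ℤ → R)

/-- Two lattices, given by Gram matrices, lie in the same genus. -/
def SameGenus {ι κ : Type*} [Fintype ι] [DecidableEq ι] [Fintype κ] [DecidableEq κ]
    (A : Matrix ι ι ℤ) (B : Matrix κ κ ℤ) : Prop :=
  EquivOver ℝ A B ∧ ∀ (p : ℕ) [Fact p.Prime], EquivOver ℤ_[p] A B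

/-- The Gram matrix of `E₈ ⊕ E₈ ⊕ D₄`. -/
def gramE8E8D4 : Matrix ((Fin 8 ⊕ Fin 8) ⊕ Fin 4) ((Fin 8 ⊕ Fin 8) ⊕ Fin 4) ℤ :=
  Matrix.fromBlocks (Matrix.fromBlocks CartanMatrix.E₈ 0 0 CartanMatrix.E₈) 0 0
    (CartanMatrix.D 4)

/-! ## Part 2: working definitions -/

/-- Integral vectors (elements of `L` in the basis, or of `L^∨` in dual coordinates). -/
abbrev VZ := Fin 20 → ℤ
abbrev VR := Fin 20 → ℝ
abbrev VC := Fin 20 → ℂ

/-- `e(t) = exp(2πit)` -/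
noncomputable def e (t : ℂ) : ℂ := Complex.exp (2 * Real.pi * Complex.I * t)

/-- coordinatewise casts -/
def toC (x : VZ) : VC := fun i => (x i : ℂ)
def toR (x : VZ) : VR := fun i => (x i : ℝ)
def ofR (x : VR) : VC := fun i => (x i : ℂ)
def imC (z : VC) : VR := fun i => (z i).im

/-- the bilinear form of `L` -/
def bil {R : Type*} [CommRing R] (G : Matrix (Fin 20) (Fin 20) ℤ) (x y : Fin 20 → R) : R :=
  ∑ i, ∑ j, (G i j : R) * x i * y j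

/-- `p . z` -/
def dot {R : Type*} [CommRing R] (p : VZ) (z : Fin 20 → R) : R := ∑ i, (p i : R) * z i

/-- the norm `p^T G⁻¹ p` of the element of `L^∨` with dual coordinates `p` -/
noncomputable def qd (G : Matrix (Fin 20) (Fin 20) ℤ) (p : VZ) : ℝ :=
  ∑ i, ∑ j, (G.map (Int.cast : ℤ → ℝ))⁻¹ i j * p i * p j

/-- the bilinear form on `L^∨` in dual coordinates -/
noncomputable def bd (G : Matrix (Fin 20) (Fin 20) ℤ) (p p' : VZ) : ℝ :=
  ∑ i, ∑ j, (G.map (Int.cast : ℤ → ℝ))⁻¹ i j * p i * p' j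

/-- the tube domain; points are `(τ, z, ω)` -/
def Tube (G : Matrix (Fin 20) (Fin 20) ℤ) : Set (ℂ × VC × ℂ) :=
  {Z | 0 < Z.1.im ∧ bil G (imC Z.2.1) (imC Z.2.1) < 2 * Z.1.im * Z.2.2.im}

/-- `λ = (a, b, n, m; p) ∈ M^∨` (dual coordinates) is allowed:
`λ² = 2ab + 2nm - qd p = -d/k` with `d ∈ {1,2}`, `k ≥ 1` and `k λ ∈ M`. -/
def Allowed (G : Matrix (Fin 20) (Fin 20) ℤ) (a b n m : ℤ) (p : VZ) : Prop :=
  ∃ (k : ℤ) (v : VZ) (d : ℤ), 0 < k ∧ (d = 1 ∨ d = 2) ∧ G *ᵥ v = k • p ∧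
    k * (2 * a * b + 2 * n * m) - p ⬝ᵥ v = -d

/-- holomorphic in the weak sense: continuous, and holomorphic on complex lines -/
structure GH {E : Type*} [NormedAddCommGroup E] [NormedSpace ℂ E] (U : Set E) (f : E → ℂ) :
    Prop where
  cont : ContinuousOn f U
  line : ∀ p ∈ U, ∀ v : E, DifferentiableAt ℂ (fun w : ℂ => f (p + w • v)) 0

/-- The properties of the function `f(τ,z,ω) = F(1, -Z²/2, ω, τ; z)` on the tube domain attached
to a reflective modular form with trivial character. -/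
structure TF (G : Matrix (Fin 20) (Fin 20) ℤ) (k : ℤ) (f : ℂ → VC → ℂ → ℂ) : Prop where
  gh : GH (Tube G) (fun Z : ℂ × VC × ℂ => f Z.1 Z.2.1 Z.2.2)
  Tτ : ∀ τ z ω, (τ, z, ω) ∈ Tube G → f (τ + 1) z ω = f τ z ω
  Tω : ∀ τ z ω, (τ, z, ω) ∈ Tube G → f τ z (ω + 1) = f τ z ω
  Tz : ∀ τ z ω (x : VZ), (τ, z, ω) ∈ Tube G → f τ (z + toC x) ω = f τ z ω
  S : ∀ τ z ω, (τ, z, ω) ∈ Tube G →
    f (-1 / τ) (τ⁻¹ • z) (ω - bil G z z / (2 * τ)) = τ ^ k * f τ z ω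
  H : ∀ τ z ω (x : VZ), (τ, z, ω) ∈ Tube G →
    f τ (z + τ • toC x) (ω + bil G (toC x) z + bil G (toC x) (toC x) * τ / 2) = f τ z ω
  W : ∀ τ z ω, (τ, z, ω) ∈ Tube G → f ω z τ = f τ z ω
  /-- Eichler transvections `Z ↦ Z - (Z,e) u + ((Z,u) - (u²/2) (Z,e)) e` with
  `e = (ne, me; ve)` isotropic, `me > 0`, `u = (nu, 0; vu)` orthogonal to `e`. -/
  E : ∀ (ne me nu : ℤ) (ve vu : VZ), 0 < me → 2 * ne * me = bil G ve ve →
    nu * me = bil G vu ve → ∀ τ z ω, (τ, z, ω) ∈ Tube G →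
    ∀ c d : ℂ, c = ne * τ + me * ω - bil G z (toC ve) →
    d = nu * τ - bil G z (toC vu) + (bil G vu vu : ℤ) / 2 * c →
    (τ + d * me, z - c • toC vu + d • toC ve, ω - c * nu + d * ne) ∈ Tube G ∧
      f (τ + d * me) (z - c • toC vu + d • toC ve) (ω - c * nu + d * ne) = f τ z ω
  zero : ∀ τ z ω, (τ, z, ω) ∈ Tube G → f τ z ω = 0 →
    ∃ (a b n m : ℤ) (p : VZ), Allowed G a b n m p ∧
      -(a : ℂ) * (2 * τ * ω - bil G z z) / 2 + b + n * τ + m * ω + dot p z = 0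
  nonconst : ∃ Z ∈ Tube G, ∃ W ∈ Tube G, f Z.1 Z.2.1 Z.2.2 ≠ f W.1 W.2.1 W.2.2

/-- Fourier expansion of `f` with the Koecher support condition. -/
structure FourierData (G : Matrix (Fin 20) (Fin 20) ℤ) (f : ℂ → VC → ℂ → ℂ)
    (a : ℤ × ℤ × VZ → ℂ) : Prop where
  supp : ∀ n m p, a (n, m, p) ≠ 0 → 0 ≤ n ∧ 0 ≤ m ∧ qd G p ≤ 2 * n * m
  sum : ∀ τ z ω, (τ, z, ω) ∈ Tube G →
    HasSum (fun t : ℤ × ℤ × VZ => a t * e (t.1 * τ + t.2.1 * ω + dot t.2.2 z)) (f τ z ω)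

/-- The domain `ℍ × ℂ²⁰`. -/
def HV : Set (ℂ × VC) := {Z | 0 < Z.1.im}

/-- Fourier–Jacobi expansion of `f`. -/
structure FJ (G : Matrix (Fin 20) (Fin 20) ℤ) (k : ℤ) (f : ℂ → VC → ℂ → ℂ)
    (ψ : ℕ → ℂ → VC → ℂ) : Prop where
  gh : ∀ m, GH HV (fun Z : ℂ × VC => ψ m Z.1 Z.2)
  sum : ∀ τ z ω, (τ, z, ω) ∈ Tube G → HasSum (fun m : ℕ => ψ m τ z * e (m * ω)) (f τ z ω)
  T : ∀ m τ z, 0 < τ.im → ψ m (τ + 1) z = ψ m τ z
  P : ∀ m τ z (x : VZ), 0 < τ.im → ψ m τ (z + toC x) = ψ m τ z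
  H : ∀ m τ z (x : VZ), 0 < τ.im → ψ m τ (z + τ • toC x) =
    e (-(m * (bil G (toC x) z + bil G (toC x) (toC x) * τ / 2))) * ψ m τ z
  S : ∀ m τ z, 0 < τ.im →
    ψ m (-1 / τ) (τ⁻¹ • z) = τ ^ k * e (m * bil G z z / (2 * τ)) * ψ m τ z
  bound : ∀ x : VR, ∃ K : ℝ, ∀ (y : VR) (τ ω : ℂ), 1 ≤ τ.im → 1 ≤ ω.im →
    ‖f τ (τ • ofR x + ofR y) (ω + (bil G x x : ℝ) * τ / 2)‖ ≤ K

/-- Functions with the transformation behaviour of Jacobi forms of weight 0 and index 1 for the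
lattice with Gram matrix `G` (no condition at infinity). -/
structure Jac0 (G : Matrix (Fin 20) (Fin 20) ℤ) (φ : ℂ → VC → ℂ) : Prop where
  gh : GH HV (fun Z : ℂ × VC => φ Z.1 Z.2)
  T : ∀ τ z, 0 < τ.im → φ (τ + 1) z = φ τ z
  P : ∀ τ z (x : VZ), 0 < τ.im → φ τ (z + toC x) = φ τ z
  H : ∀ τ z (x : VZ), 0 < τ.im → φ τ (z + τ • toC x) =
    e (-(bil G (toC x) z + bil G (toC x) (toC x) * τ / 2)) * φ τ z
  S : ∀ τ z, 0 < τ.im → φ (-1 / τ) (τ⁻¹ • z) = e (bil G z z / (2 * τ)) * φ τ z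

/-- The unit cube, over which we integrate in the real part of `z`. -/
def cube : Set VR := Set.Icc 0 1

/-- The Fourier coefficient `c(n,p)` of `φ = ∑ c(n,p) q^n e(p.z)`, computed at height 1. -/
noncomputable def fc (φ : ℂ → VC → ℂ) (n : ℤ) (p : VZ) : ℂ :=
  ∫ t in (0:ℝ)..1, ∫ y in cube,
    φ (t + Complex.I) (ofR y) * e (-(n * (t + Complex.I) + dot p (ofR y)))

/-- The data `C, j, φ` extracted from the Fourier–Jacobi expansion:
`φ = -ψ_{C+j}/ψ_C`, where `C` is the first and `C+j` the second nonzero index. -/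
structure PhiData (G : Matrix (Fin 20) (Fin 20) ℤ) (ψ : ℕ → ℂ → VC → ℂ) (C j : ℕ)
    (φ : ℂ → VC → ℂ) : Prop where
  hj : 0 < j
  below : ∀ m < C, ∀ τ z, 0 < τ.im → ψ m τ z = 0
  between : ∀ m, C < m → m < C + j → ∀ τ z, 0 < τ.im → ψ m τ z = 0
  jac : Jac0 (j • G) φ
  eq : ∀ τ z, 0 < τ.im → ψ (C + j) τ z = -φ τ z * ψ C τ z
  ne : ∃ τ z, 0 < τ.im ∧ φ τ z ≠ 0
  /-- `ψ_C` has no zero off the walls -/
  wall : ∀ τ z, 0 < τ.im → (∀ (n b : ℤ) (p : VZ), 0 < qd G p → qd G p ≤ 2 →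
    (b : ℂ) + n * τ + dot p z ≠ 0) → ψ C τ z ≠ 0

/-- The discriminant group `L^∨/L = ℤ²⁰/Gℤ²⁰`. -/
abbrev Disc (G : Matrix (Fin 20) (Fin 20) ℤ) : Type :=
  VZ ⧸ LinearMap.range (Matrix.mulVecLin G)

/-- class of an integral vector -/
def Disc.mk {G : Matrix (Fin 20) (Fin 20) ℤ} (p : VZ) : Disc G :=
  Submodule.Quotient.mk p

end Pool.Agent.Refl
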