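import Pool.Agent.Refl.Basic

/-! Module DISC: the discriminant group. -/

namespace Pool.Agent.Refl
open Matrix

variable {G : Matrix (Fin 20) (Fin 20) ℤ}

/-- the pairing `e(<γ,δ>)` on the discriminant group (via representatives) -/
noncomputable def chi (G : Matrix (Fin 20) (Fin 20) ℤ) (γ δ : Disc G) : ℂ :=
  e (bd G (Quotient.out γ) (Quotient.out δ))

/-- `e(-γ²/2)` (via representatives) -/
noncomputable def ug (G : Matrix (Fin 20) (Fin 20) ℤ) (γ : Disc G) : ℂ :=
  e (-(qd G (Quotient.out γ) : ℂ) / 2)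

theorem disc_inj (hG : EvenPos G) : Function.Injective (Matrix.mulVecLin G) := by
  intro v w hvw
  have h0 : G *ᵥ (v - w) = 0 := by
    rw [Matrix.mulVec_sub]
    exact sub_eq_zero.2 hvw
  exact sub_eq_zero.1 (Matrix.eq_zero_of_mulVec_eq_zero (det_pos hG).ne' h0)

theorem disc_card_natAbs (hG : EvenPos G) : Nat.card (Disc G) = G.det.natAbs := by
  have h := Submodule.natAbs_det_equiv (LinearMap.range (Matrix.mulVecLin G))
    (LinearEquiv.ofInjective (Matrix.mulVecLin G) (disc_inj hG))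
  rw [← h]
  congr 1
  rw [← LinearMap.det_toLin' G]
  congr 1

theorem finite_disc (hG : EvenPos G) : Finite (Disc G) := by
  apply Nat.finite_of_card_ne_zero
  rw [disc_card_natAbs hG]
  exact Int.natAbs_ne_zero.2 (det_pos hG).ne'

theorem card_disc (hG : EvenPos G) : (Nat.card (Disc G) : ℤ) = G.det := by
  rw [disc_card_natAbs hG]
  exact Int.natAbs_of_nonneg (det_pos hG).le

theorem mk_eq_iff (p p' : VZ) : (Disc.mk p : Disc G) = Disc.mk p' ↔ ∃ v : VZ, G *ᵥ v = p - p' := by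
  unfold Disc.mk
  rw [Submodule.Quotient.eq]
  rfl

theorem mk_eq_zero_iff (p : VZ) : (Disc.mk p : Disc G) = 0 ↔ ∃ v : VZ, G *ᵥ v = p := by
  have h := mk_eq_iff (G := G) p 0
  rw [sub_zero] at h
  exact h

theorem mk_out (γ : Disc G) : Disc.mk (Quotient.out γ) = γ := Quotient.out_eq γ

theorem disc_bd_symm (hG : EvenPos G) (p p' : VZ) : bd G p p' = bd G p' p := by
  rw [← dot_ginv hG, ← dot_ginv hG, ← bil_ginv hG, ← bil_ginv hG, bil_symm hG]

theorem disc_bd_add (p q p' : VZ) : bd G (p + q) p' = bd G p p' + bd G q p' := by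
  unfold bd
  simp only [Pi.add_apply, Int.cast_add, mul_add, add_mul, Finset.sum_add_distrib]

theorem disc_bd_add_right (p q q' : VZ) : bd G p (q + q') = bd G p q + bd G p q' := by
  unfold bd
  simp only [Pi.add_apply, Int.cast_add, mul_add, Finset.sum_add_distrib]

theorem disc_bd_neg (p p' : VZ) : bd G (-p) p' = -bd G p p' := by
  unfold bd
  simp only [Pi.neg_apply, Int.cast_neg, mul_neg, neg_mul, Finset.sum_neg_distrib]

theorem disc_e_add_int (t : ℂ) (n : ℤ) : e (t + n) = e t := by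
  rw [e_add, e_int, mul_one]

/-- the pairing only depends on the classes -/
theorem disc_e_bd_congr (hG : EvenPos G) {p q p' q' : VZ} (h : (Disc.mk p : Disc G) = Disc.mk q)
    (h' : (Disc.mk p' : Disc G) = Disc.mk q') : e (bd G p p') = e (bd G q q') := by
  obtain ⟨v, hv⟩ := (mk_eq_iff p q).1 h
  obtain ⟨v', hv'⟩ := (mk_eq_iff p' q').1 h'
  have e1 : p = q + G *ᵥ v := by rw [hv]; abel
  have e2 : p' = q' + G *ᵥ v' := by rw [hv']; abel
  have h1 : bd G p p' = bd G q q' + ((q' ⬝ᵥ v + p ⬝ᵥ v' : ℤ) : ℝ) := by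
    rw [e2, disc_bd_add_right, bd_mulVec hG, e1, disc_bd_add, disc_bd_symm hG (G *ᵥ v),
      bd_mulVec hG]
    push_cast
    ring
  rw [h1, Complex.ofReal_add, Complex.ofReal_intCast, disc_e_add_int]

theorem chi_mk (hG : EvenPos G) (p p' : VZ) : chi G (Disc.mk p) (Disc.mk p') = e (bd G p p') :=
  disc_e_bd_congr hG (mk_out _) (mk_out _)

theorem ug_mk (hG : EvenPos G) (p : VZ) : ug G (Disc.mk p) = e (-(qd G p : ℂ) / 2) := by
  unfold ug
  obtain ⟨v, hv⟩ := (mk_eq_iff (G := G) (Quotient.out (Disc.mk p : Disc G)) p).1 (mk_out _)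
  have e1 : Quotient.out (Disc.mk p : Disc G) = p + G *ᵥ v := by rw [hv]; abel
  obtain ⟨k, hk⟩ := bil_even hG v
  have h1 : qd G (Quotient.out (Disc.mk p : Disc G)) = qd G p + 2 * ((p ⬝ᵥ v + k : ℤ) : ℝ) := by
    rw [e1, ← bd_self, disc_bd_add, disc_bd_add_right, disc_bd_add_right,
      disc_bd_symm hG (G *ᵥ v) p, bd_mulVec hG, bd_self, bd_self, qd_mulVec hG, hk]
    push_cast
    ring
  rw [h1]
  have h2 : -((qd G p + 2 * ((p ⬝ᵥ v + k : ℤ) : ℝ) : ℝ) : ℂ) / 2 =
      -(qd G p : ℂ) / 2 + ((-(p ⬝ᵥ v + k) : ℤ) : ℂ) := by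
    push_cast
    ring
  rw [h2, disc_e_add_int]

theorem disc_norm_e_real (t : ℝ) : ‖e t‖ = 1 := by
  rw [norm_e]; simp

theorem norm_chi (γ δ : Disc G) : ‖chi G γ δ‖ = 1 := disc_norm_e_real _

theorem norm_ug (γ : Disc G) : ‖ug G γ‖ = 1 := by
  unfold ug
  have : -(qd G (Quotient.out γ) : ℂ) / 2 = ((-(qd G (Quotient.out γ)) / 2 : ℝ) : ℂ) := by
    push_cast; ring
  rw [this]
  exact disc_norm_e_real _

theorem disc_mk_zero : (0 : Disc G) = Disc.mk 0 := rfl

theorem disc_bd_zero (p : VZ) : bd G p 0 = 0 := by simp [bd]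

theorem disc_bd_zero' (p : VZ) : bd G 0 p = 0 := by simp [bd]

theorem chi_zero_left (hG : EvenPos G) (δ : Disc G) : chi G 0 δ = 1 := by
  rw [← mk_out δ, disc_mk_zero, chi_mk hG, disc_bd_zero', Complex.ofReal_zero, e_zero]

theorem chi_zero_right (hG : EvenPos G) (γ : Disc G) : chi G γ 0 = 1 := by
  rw [← mk_out γ, disc_mk_zero, chi_mk hG, disc_bd_zero, Complex.ofReal_zero, e_zero]

theorem ug_zero (hG : EvenPos G) : ug G 0 = 1 := by
  rw [disc_mk_zero, ug_mk hG, ← bd_self, disc_bd_zero]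
  simp [e_zero]

theorem disc_mk_add (p q : VZ) : (Disc.mk (p + q) : Disc G) = Disc.mk p + Disc.mk q := rfl

theorem disc_mk_neg (p : VZ) : (Disc.mk (-p) : Disc G) = -Disc.mk p := rfl

theorem disc_chi_add_right (hG : EvenPos G) (γ δ δ' : Disc G) :
    chi G γ (δ + δ') = chi G γ δ * chi G γ δ' := by
  rw [← mk_out γ, ← mk_out δ, ← mk_out δ', ← disc_mk_add, chi_mk hG, chi_mk hG, chi_mk hG,
    disc_bd_add_right, Complex.ofReal_add, e_add]

theorem disc_chi_add_left (hG : EvenPos G) (γ γ' δ : Disc G) :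
    chi G (γ + γ') δ = chi G γ δ * chi G γ' δ := by
  rw [← mk_out γ, ← mk_out δ, ← mk_out γ', ← disc_mk_add, chi_mk hG, chi_mk hG, chi_mk hG,
    disc_bd_add, Complex.ofReal_add, e_add]

theorem disc_chi_neg_left (hG : EvenPos G) (γ δ : Disc G) :
    chi G (-γ) δ = (starRingEnd ℂ) (chi G γ δ) := by
  rw [← mk_out γ, ← mk_out δ, ← disc_mk_neg, chi_mk hG, chi_mk hG, disc_bd_neg,
    Complex.ofReal_neg, e_neg]
  rw [Complex.inv_def]
  have h := disc_norm_e_real (bd G (Quotient.out γ) (Quotient.out δ))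
  rw [Complex.normSq_eq_norm_sq, h]
  simp

/-- the pairing is nondegenerate -/
theorem disc_nondeg (hG : EvenPos G) {γ : Disc G} (h : ∀ δ, chi G γ δ = 1) : γ = 0 := by
  rw [← mk_out γ, mk_eq_zero_iff]
  set p : VZ := Quotient.out γ with hp
  -- `G⁻¹ p` is integral
  have h1 : ∀ i, ∃ k : ℤ, ginv G p i = k := by
    intro i
    have h2 := h (Disc.mk (Pi.single i 1))
    rw [← mk_out γ, chi_mk hG, ← hp, disc_bd_symm hG, ← dot_ginv hG] at h2
    have h3 : dot (Pi.single i 1) (ginv G p) = ginv G p i := by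
      unfold dot
      rw [Finset.sum_eq_single i]
      · simp
      · intro j _ hj
        simp [hj]
      · simp
    rw [h3] at h2
    unfold e at h2
    rw [Complex.exp_eq_one_iff] at h2
    obtain ⟨n, hn⟩ := h2
    refine ⟨n, ?_⟩
    have h4 : (2 * (Real.pi : ℂ) * Complex.I) ≠ 0 := Complex.two_pi_I_ne_zero
    have h5 : (2 * (Real.pi : ℂ) * Complex.I) * ((ginv G p i : ℝ) : ℂ) =
        (2 * (Real.pi : ℂ) * Complex.I) * ((n : ℝ) : ℂ) := by
      rw [hn]; push_cast; ring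
    exact_mod_cast mul_left_cancel₀ h4 h5
  choose v hv using h1
  refine ⟨v, ?_⟩
  have hdet : (G.map (Int.cast : ℤ → ℝ)).det ≠ 0 := by
    have : (G.map (Int.cast : ℤ → ℝ)).det = (G.det : ℝ) := by
      rw [show (G.map (Int.cast : ℤ → ℝ)) = (Int.castRingHom ℝ).mapMatrix G from rfl,
        ← RingHom.map_det]
      rfl
    rw [this]
    exact_mod_cast (det_pos hG).ne'
  have h6 : (G.map (Int.cast : ℤ → ℝ)) *ᵥ ginv G p = toR p := by
    unfold ginv
    rw [Matrix.mulVec_mulVec, Matrix.mul_nonsing_inv _ (isUnit_iff_ne_zero.2 hdet),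
      Matrix.one_mulVec]
  ext i
  have h7 := congrFun h6 i
  simp only [Matrix.mulVec, dotProduct, Matrix.map_apply, toR] at h7 ⊢
  have h8 : ((∑ j, G i j * v j : ℤ) : ℝ) = (p i : ℝ) := by
    rw [← h7]
    push_cast
    apply Finset.sum_congr rfl
    intro j _
    rw [hv j]
  exact_mod_cast h8

open Classical in
theorem chi_orth (hG : EvenPos G) [Fintype (Disc G)] (γ γ' : Disc G) :
    ∑ δ, chi G γ δ * (starRingEnd ℂ) (chi G γ' δ) =
      if γ = γ' then (Fintype.card (Disc G) : ℂ) else 0 := by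
  have h1 : ∀ δ, chi G γ δ * (starRingEnd ℂ) (chi G γ' δ) = chi G (γ - γ') δ := by
    intro δ
    rw [sub_eq_add_neg, disc_chi_add_left hG, disc_chi_neg_left hG]
  rw [Finset.sum_congr rfl fun δ _ => h1 δ]
  split_ifs with h
  · subst h
    rw [sub_self]
    simp [chi_zero_left hG]
  · by_contra hne
    apply h
    rw [← sub_eq_zero]
    apply disc_nondeg hG
    intro δ₀
    have h2 : chi G (γ - γ') δ₀ * ∑ δ, chi G (γ - γ') δ = ∑ δ, chi G (γ - γ') δ := by
      rw [Finset.mul_sum]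
      rw [← Equiv.sum_comp (Equiv.addLeft δ₀) (fun δ => chi G (γ - γ') δ)]
      apply Finset.sum_congr rfl
      intro δ _
      rw [Equiv.coe_addLeft, disc_chi_add_right hG]
    exact mul_right_cancel₀ hne (by rw [h2, one_mul])

end Pool.Agent.Refl
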