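import Pool.Agent.Refl.Basic

/-! Module FJ: Fourier–Jacobi expansion. -/

namespace Pool.Agent.Refl
open Matrix

variable {G : Matrix (Fin 20) (Fin 20) ℤ}

lemma fj_hasSum_congr {β : Type*} {u v : β → ℂ} {s : ℂ} (h : ∀ b, u b = v b) :
    HasSum u s ↔ HasSum v s := by
  rw [show u = v from funext h]

/-- pairing of `t` with a vector `(y₁, y₂, y₃)` of the cone -/
noncomputable def fj_pair (t : ℤ × ℤ × VZ) (y₁ : ℝ) (y₂ : VR) (y₃ : ℝ) : ℝ :=
  t.1 * y₁ + t.2.1 * y₃ + dot t.2.2 y₂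

/-- the coefficient functions -/
noncomputable def fj_psi (a : ℤ × ℤ × VZ → ℂ) (m : ℕ) (τ : ℂ) (z : VC) : ℂ :=
  ∑' q : ℤ × VZ, a (q.1, (m : ℤ), q.2) * e (q.1 * τ + dot q.2 z)

lemma fj_dot_im (p : VZ) (z : VC) : (dot p z).im = dot p (imC z) := by
  simp [dot, imC, Complex.mul_im]

lemma fj_dot_add {R : Type*} [CommRing R] (p : VZ) (z w : Fin 20 → R) :
    dot p (z + w) = dot p z + dot p w := by
  simp [dot, mul_add, Finset.sum_add_distrib]

lemma fj_dot_sub {R : Type*} [CommRing R] (p : VZ) (z w : Fin 20 → R) :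
    dot p (z - w) = dot p z - dot p w := by
  simp [dot, mul_sub, Finset.sum_sub_distrib]

lemma fj_dot_smul {R : Type*} [CommRing R] (p : VZ) (c : R) (z : Fin 20 → R) :
    dot p (c • z) = c * dot p z := by
  simp only [dot, Finset.mul_sum, Pi.smul_apply, smul_eq_mul]
  exact Finset.sum_congr rfl fun i _ => by ring

lemma fj_bil_smul {R : Type*} [CommRing R] (c : R) (z : Fin 20 → R) :
    bil G (c • z) (c • z) = c ^ 2 * bil G z z := by
  simp only [bil, Finset.mul_sum, Pi.smul_apply, smul_eq_mul]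
  exact Finset.sum_congr rfl fun i _ => Finset.sum_congr rfl fun j _ => by ring

lemma fj_norm_e (t : ℤ × ℤ × VZ) (τ : ℂ) (z : VC) (ω : ℂ) :
    ‖e (t.1 * τ + t.2.1 * ω + dot t.2.2 z)‖ =
      Real.exp (-(2 * Real.pi * fj_pair t τ.im (imC z) ω.im)) := by
  rw [norm_e]
  congr 3
  simp [fj_pair, fj_dot_im, Complex.mul_im]

lemma fj_norm_e2 (q : ℤ × VZ) (τ : ℂ) (z : VC) :
    ‖e (q.1 * τ + dot q.2 z)‖ =
      Real.exp (-(2 * Real.pi * (q.1 * τ.im + dot q.2 (imC z)))) := by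
  rw [norm_e]
  congr 3
  simp [fj_dot_im, Complex.mul_im]

/-- the dual cone -/
lemma fj_nonneg (hG : EvenPos G) {n m : ℤ} {p : VZ} (hn : 0 ≤ n) (hm : 0 ≤ m)
    (hq : qd G p ≤ 2 * n * m) {w₁ w₃ : ℝ} {w₂ : VR} (h1 : 0 ≤ w₁) (h3 : 0 ≤ w₃)
    (h2 : bil G w₂ w₂ ≤ 2 * w₁ * w₃) : 0 ≤ n * w₁ + m * w₃ + dot p w₂ := by
  have hn' : (0 : ℝ) ≤ n := by exact_mod_cast hn
  have hm' : (0 : ℝ) ≤ m := by exact_mod_cast hm
  have hcs := dot_sq_le hG p w₂
  have h5 : qd G p * bil G w₂ w₂ ≤ (2 * n * m) * (2 * w₁ * w₃) :=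
    mul_le_mul hq h2 (bil_nonneg hG _) (by positivity)
  have h4 : (dot p w₂) ^ 2 ≤ (n * w₁ + m * w₃) ^ 2 := by
    nlinarith [sq_nonneg (n * w₁ - m * w₃)]
  have h6 := (abs_le.mp (abs_le_of_sq_le_sq h4 (by positivity))).1
  linarith

lemma fj_bound (hG : EvenPos G) {f : ℂ → VC → ℂ → ℂ} {a : ℤ × ℤ × VZ → ℂ}
    (ha : FourierData G f a) {y₁ y₃ y₁' y₃' : ℝ} {y₂ y₂' : VR}
    (h1 : y₁' ≤ y₁) (h3 : y₃' ≤ y₃)
    (h2 : bil G (y₂ - y₂') (y₂ - y₂') ≤ 2 * (y₁ - y₁') * (y₃ - y₃')) (t : ℤ × ℤ × VZ) :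
    ‖a t‖ * Real.exp (-(2 * Real.pi * fj_pair t y₁ y₂ y₃)) ≤
      ‖a t‖ * Real.exp (-(2 * Real.pi * fj_pair t y₁' y₂' y₃')) := by
  by_cases h : a t = 0
  · simp [h]
  · obtain ⟨n, m, p⟩ := t
    obtain ⟨hn, hm, hq⟩ := ha.supp n m p h
    have := fj_nonneg hG hn hm hq (w₁ := y₁ - y₁') (w₃ := y₃ - y₃') (w₂ := y₂ - y₂')
      (by linarith) (by linarith) h2
    rw [fj_dot_sub] at this
    refine mul_le_mul_of_nonneg_left (Real.exp_le_exp.mpr ?_) (norm_nonneg _)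
    have h7 : fj_pair (n, m, p) y₁' y₂' y₃' ≤ fj_pair (n, m, p) y₁ y₂ y₃ := by
      simp only [fj_pair]
      nlinarith
    nlinarith [Real.pi_pos]

lemma fj_imC (y : VR) (c : ℝ) : imC (c • (Complex.I • ofR y)) = c • y := by
  ext i; simp [imC, ofR]

lemma fj_summable {f : ℂ → VC → ℂ → ℂ} {a : ℤ × ℤ × VZ → ℂ}
    (ha : FourierData G f a) {y₁ y₃ : ℝ} {y₂ : VR} (h1 : 0 < y₁)
    (h2 : bil G y₂ y₂ < 2 * y₁ * y₃) :
    Summable (fun t => ‖a t‖ * Real.exp (-(2 * Real.pi * fj_pair t y₁ y₂ y₃))) := by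
  have himC : imC (Complex.I • ofR y₂) = y₂ := by ext i; simp [imC, ofR]
  have hT : ((y₁ : ℂ) * Complex.I, Complex.I • ofR y₂, (y₃ : ℂ) * Complex.I) ∈ Tube G := by
    refine ⟨by simpa using h1, ?_⟩
    simp only [himC]
    simpa using h2
  have := (ha.sum _ _ _ hT).summable.norm
  refine this.congr fun t => ?_
  rw [norm_mul, fj_norm_e, himC]
  simp

lemma fj_swap_inj (m : ℤ) : Function.Injective (fun q : ℤ × VZ => ((q.1, m, q.2) : ℤ × ℤ × VZ)) := by
  rintro ⟨a, b⟩ ⟨c, d⟩ h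
  simp only [Prod.mk.injEq, true_and] at h
  simp [h.1, h.2]

/-- existence of a height -/
lemma fj_height (τ : ℂ) (hτ : 0 < τ.im) (y : VR) : ∃ Y : ℝ, bil G y y < 2 * τ.im * Y := by
  refine ⟨(bil G y y + 1) / (2 * τ.im), ?_⟩
  rw [mul_div_cancel₀ _ (by positivity)]
  linarith

lemma fj_psi_summable {f : ℂ → VC → ℂ → ℂ} {a : ℤ × ℤ × VZ → ℂ}
    (ha : FourierData G f a) (m : ℤ) (τ : ℂ) (hτ : 0 < τ.im) (z : VC) :
    Summable (fun q : ℤ × VZ => a (q.1, m, q.2) * e (q.1 * τ + dot q.2 z)) := by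
  obtain ⟨Y, hY⟩ := fj_height (G := G) τ hτ (imC z)
  have h1 := (fj_summable ha hτ hY).comp_injective (fj_swap_inj m)
  refine Summable.of_norm_bounded (h1.mul_left (Real.exp (2 * Real.pi * (m * Y)))) fun q => ?_
  rw [norm_mul, fj_norm_e2]
  simp only [Function.comp_apply, fj_pair]
  rw [mul_left_comm, ← Real.exp_add]
  refine le_of_eq ?_
  congr 2
  ring

/-- local uniform bounds -/
lemma fj_local (hG : EvenPos G) {f : ℂ → VC → ℂ → ℂ} {a : ℤ × ℤ × VZ → ℂ}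
    (ha : FourierData G f a) (m : ℤ) (Z₀ : ℂ × VC) (h0 : 0 < Z₀.1.im) :
    ∃ N : Set (ℂ × VC), IsOpen N ∧ Z₀ ∈ N ∧ ∃ u : ℤ × VZ → ℝ, Summable u ∧
      ∀ q : ℤ × VZ, ∀ Z ∈ N, ‖a (q.1, m, q.2) * e (q.1 * Z.1 + dot q.2 Z.2)‖ ≤ u q := by
  obtain ⟨Y, hY⟩ := fj_height (G := G) Z₀.1 h0 (imC Z₀.2)
  have hYpos : 0 < Y := by
    have := bil_nonneg hG (imC Z₀.2)
    by_contra hcon
    push Not at hcon
    nlinarith
  have hc : Continuous (fun Z : ℂ × VC =>
      bil G (imC Z.2 - (1 / 2 : ℝ) • imC Z₀.2) (imC Z.2 - (1 / 2 : ℝ) • imC Z₀.2)) := by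
    unfold bil imC
    simp only [Pi.sub_apply, Pi.smul_apply, smul_eq_mul]
    refine continuous_finsetSum _ fun i _ => continuous_finsetSum _ fun j _ => ?_
    have h1 : Continuous (fun Z : ℂ × VC => (Z.2 i).im) :=
      Complex.continuous_im.comp ((continuous_apply i).comp continuous_snd)
    have h2 : Continuous (fun Z : ℂ × VC => (Z.2 j).im) :=
      Complex.continuous_im.comp ((continuous_apply j).comp continuous_snd)
    exact (continuous_const.mul (h1.sub continuous_const)).mul (h2.sub continuous_const)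
  have hc1 : Continuous (fun Z : ℂ × VC => Z.1.im) := Complex.continuous_im.comp continuous_fst
  refine ⟨{Z | Z₀.1.im / 2 < Z.1.im ∧
    bil G (imC Z.2 - (1 / 2 : ℝ) • imC Z₀.2) (imC Z.2 - (1 / 2 : ℝ) • imC Z₀.2) <
      2 * (Z.1.im - Z₀.1.im / 2) * (Y - Y / 2)}, ?_, ?_,
    fun q => Real.exp (2 * Real.pi * (m * Y)) * (‖a (q.1, m, q.2)‖ *
      Real.exp (-(2 * Real.pi * fj_pair (q.1, m, q.2) (Z₀.1.im / 2) ((1 / 2 : ℝ) • imC Z₀.2)
        (Y / 2)))), ?_, ?_⟩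
  · exact (isOpen_lt continuous_const hc1).inter (isOpen_lt hc (by fun_prop))
  · refine ⟨by linarith, ?_⟩
    have h3 : imC Z₀.2 - (1 / 2 : ℝ) • imC Z₀.2 = (1 / 2 : ℝ) • imC Z₀.2 := by
      ext i; simp; ring
    rw [h3, fj_bil_smul]
    nlinarith
  · have h4 : bil G ((1 / 2 : ℝ) • imC Z₀.2) ((1 / 2 : ℝ) • imC Z₀.2) <
        2 * (Z₀.1.im / 2) * (Y / 2) := by
      rw [fj_bil_smul]; nlinarith
    exact ((fj_summable ha (by linarith) h4).comp_injective (fj_swap_inj m)).mul_left _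
  · rintro q Z ⟨hZ1, hZ2⟩
    have h5 := fj_bound hG ha hZ1.le (by linarith : Y / 2 ≤ Y) hZ2.le (q.1, m, q.2)
    refine le_trans (le_of_eq ?_) (mul_le_mul_of_nonneg_left h5 (Real.exp_pos _).le)
    rw [norm_mul, fj_norm_e2, mul_left_comm, ← Real.exp_add]
    congr 2
    simp only [fj_pair]
    ring

lemma fj_term_cont (q : ℤ × VZ) (c : ℂ) :
    Continuous (fun Z : ℂ × VC => c * e (q.1 * Z.1 + dot q.2 Z.2)) := by
  unfold e dot
  have : Continuous (fun Z : ℂ × VC => ∑ i, (q.2 i : ℂ) * Z.2 i) :=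
    continuous_finsetSum _ fun i _ =>
      continuous_const.mul ((continuous_apply i).comp continuous_snd)
  fun_prop

lemma fj_term_diff (q : ℤ × VZ) (c : ℂ) (Z v : ℂ × VC) :
    Differentiable ℂ (fun w : ℂ => c * e (q.1 * (Z + w • v).1 + dot q.2 (Z + w • v).2)) := by
  have h1 : (fun w : ℂ => c * e (q.1 * (Z + w • v).1 + dot q.2 (Z + w • v).2)) =
      fun w : ℂ => c * Complex.exp (2 * Real.pi * Complex.I *
        ((q.1 * Z.1 + dot q.2 Z.2) + w * (q.1 * v.1 + dot q.2 v.2))) := by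
    ext w
    simp only [e, Prod.fst_add, Prod.smul_fst, Prod.snd_add, Prod.smul_snd, fj_dot_add,
      fj_dot_smul, smul_eq_mul]
    congr 2
    ring
  rw [h1]
  fun_prop

lemma fj_gh (hG : EvenPos G) {f : ℂ → VC → ℂ → ℂ} {a : ℤ × ℤ × VZ → ℂ}
    (ha : FourierData G f a) (m : ℕ) : GH HV (fun Z : ℂ × VC => fj_psi a m Z.1 Z.2) := by
  constructor
  · intro Z₀ h0
    obtain ⟨N, hN, hZ, u, hu, hb⟩ := fj_local hG ha m Z₀ h0
    have h1 : ContinuousOn (fun Z : ℂ × VC => fj_psi a m Z.1 Z.2) N :=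
      continuousOn_tsum (fun q => (fj_term_cont q _).continuousOn) hu hb
    exact (h1.continuousAt (hN.mem_nhds hZ)).continuousWithinAt
  · intro Z₀ h0 v
    obtain ⟨N, hN, hZ, u, hu, hb⟩ := fj_local hG ha m Z₀ h0
    have hc : Continuous (fun w : ℂ => Z₀ + w • v) := by fun_prop
    have hopen : IsOpen ((fun w : ℂ => Z₀ + w • v) ⁻¹' N) := hN.preimage hc
    have h1 : DifferentiableOn ℂ (fun w : ℂ => ∑' q : ℤ × VZ,
        a (q.1, (m : ℤ), q.2) * e (q.1 * (Z₀ + w • v).1 + dot q.2 (Z₀ + w • v).2))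
        ((fun w : ℂ => Z₀ + w • v) ⁻¹' N) :=
      Complex.differentiableOn_tsum_of_summable_norm hu
        (fun q => (fj_term_diff q _ Z₀ v).differentiableOn) hopen
        (fun q w hw => hb q _ hw)
    exact h1.differentiableAt (hopen.mem_nhds (by simpa using hZ))

lemma fj_sum {f : ℂ → VC → ℂ → ℂ} {a : ℤ × ℤ × VZ → ℂ}
    (ha : FourierData G f a) {τ : ℂ} {z : VC} {ω : ℂ} (h : (τ, z, ω) ∈ Tube G) :
    HasSum (fun m : ℕ => fj_psi a m τ z * e (m * ω)) (f τ z ω) := by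
  have h0 := ha.sum τ z ω h
  let E : ℤ × ℤ × VZ ≃ ℤ × ℤ × VZ :=
    { toFun := fun t => (t.2.1, t.1, t.2.2)
      invFun := fun t => (t.2.1, t.1, t.2.2)
      left_inv := fun _ => rfl
      right_inv := fun _ => rfl }
  have h1 : HasSum (fun t : ℤ × ℤ × VZ => a (t.2.1, t.1, t.2.2) *
      e (t.2.1 * τ + t.1 * ω + dot t.2.2 z)) (f τ z ω) := (Equiv.hasSum_iff E).mpr h0
  have h2 : HasSum (fun m : ℤ => (∑' q : ℤ × VZ, a (q.1, m, q.2) * e (q.1 * τ + dot q.2 z)) *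
      e (m * ω)) (f τ z ω) := by
    refine h1.prod_fiberwise fun m => ?_
    have h3 := (fj_psi_summable ha m τ h.1 z).hasSum.mul_right (e (m * ω))
    refine (fj_hasSum_congr fun q => ?_).mpr h3
    dsimp only
    rw [mul_assoc, ← e_add]
    congr 2
    ring
  have h4 : ∀ m : ℤ, m ∉ Set.range (Nat.cast : ℕ → ℤ) →
      (∑' q : ℤ × VZ, a (q.1, m, q.2) * e (q.1 * τ + dot q.2 z)) * e (m * ω) = 0 := by
    intro m hm
    have h5 : ∀ q : ℤ × VZ, a (q.1, m, q.2) = 0 := by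
      intro q
      by_contra h6
      have h7 := (ha.supp _ _ _ h6).2.1
      exact hm ⟨m.toNat, Int.toNat_of_nonneg h7⟩
    simp [h5]
  have h8 := (Function.Injective.hasSum_iff Nat.cast_injective h4).mpr h2
  exact (fj_hasSum_congr fun m => by simp [fj_psi]).mpr h8

/-- uniqueness of power series in `e ω` -/
lemma fj_unique (α β : ℕ → ℂ) (g : ℂ → ℂ) (Y : ℝ)
    (h1 : ∀ ω : ℂ, Y < ω.im → HasSum (fun m : ℕ => α m * e (m * ω)) (g ω))
    (h2 : ∀ ω : ℂ, Y < ω.im → HasSum (fun m : ℕ => β m * e (m * ω)) (g ω)) : α = β := by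
  have hd : ∀ t : ℝ, Y < t → HasSum (fun m : ℕ => (α m - β m) *
      ((Real.exp (-(2 * Real.pi * t)) : ℝ) : ℂ) ^ m) 0 := by
    intro t ht
    have h3 := (h1 (t * Complex.I) (by simpa using ht)).sub (h2 (t * Complex.I) (by simpa using ht))
    rw [sub_self] at h3
    refine (fj_hasSum_congr fun m => ?_).mpr h3
    rw [← sub_mul]
    congr 1
    unfold e
    rw [Complex.ofReal_exp, ← Complex.exp_nat_mul]
    congr 1
    push_cast
    linear_combination (-(2 * Real.pi * m * t)) * Complex.I_sq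
  have key : ∀ k : ℕ, α k - β k = 0 := by
    intro k
    induction k using Nat.strong_induction_on with
    | _ k ih =>
    set δ : ℕ → ℂ := fun m => α m - β m with hδ
    have hr0 : 0 < Real.exp (-(2 * Real.pi * (Y + 1))) := Real.exp_pos _
    set r := Real.exp (-(2 * Real.pi * (Y + 1))) with hr
    have hs : Summable (fun m : ℕ => ‖δ (m + k)‖ * r ^ m) := by
      have h4 := (hd (Y + 1) (by linarith)).summable.norm
      have h5 := (summable_nat_add_iff k).mpr h4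
      have h6 := h5.mul_right ((r ^ k)⁻¹)
      refine h6.congr fun m => ?_
      rw [norm_mul, norm_pow, Complex.norm_real, Real.norm_of_nonneg hr0.le, pow_add]
      field_simp
      simp only [hδ]
    have hF : ContinuousOn (fun s : ℝ => ∑' m : ℕ, δ (m + k) * (s : ℂ) ^ m) (Set.Icc 0 r) := by
      refine continuousOn_tsum (fun m => by fun_prop) hs fun m s hs' => ?_
      rw [norm_mul, norm_pow, Complex.norm_real, Real.norm_of_nonneg hs'.1]
      exact mul_le_mul_of_nonneg_left (pow_le_pow_left₀ hs'.1 hs'.2 m) (norm_nonneg _)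
    have hz : ∀ s ∈ Set.Ioc (0 : ℝ) r, ∑' m : ℕ, δ (m + k) * (s : ℂ) ^ m = 0 := by
      intro s hs'
      have hs0 : (s : ℂ) ≠ 0 := by exact_mod_cast hs'.1.ne'
      set t := -(Real.log s) / (2 * Real.pi) with ht
      have hst : Real.exp (-(2 * Real.pi * t)) = s := by
        rw [ht, mul_div_cancel₀ _ (by positivity), neg_neg, Real.exp_log hs'.1]
      have htY : Y < t := by
        have h7 : Real.exp (-(2 * Real.pi * t)) ≤ Real.exp (-(2 * Real.pi * (Y + 1))) := by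
          rw [hst]; exact hs'.2
        have h8 := Real.exp_le_exp.mp h7
        nlinarith [Real.pi_pos]
      have h9 := hd t htY
      rw [hst] at h9
      have h10 : HasSum (fun m : ℕ => δ (m + k) * (s : ℂ) ^ (m + k)) 0 := by
        have h11 := (hasSum_nat_add_iff' k).mpr h9
        have h12 : ∑ i ∈ Finset.range k, (α i - β i) * (s : ℂ) ^ i = 0 :=
          Finset.sum_eq_zero fun i hi => by rw [ih i (Finset.mem_range.mp hi), zero_mul]
        rwa [h12, sub_zero] at h11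
      have h13 := h10.mul_right (((s : ℂ) ^ k)⁻¹)
      rw [zero_mul] at h13
      rw [← h13.tsum_eq]
      refine tsum_congr fun m => ?_
      rw [pow_add]
      field_simp
    have h0 : (∑' m : ℕ, δ (m + k) * ((0 : ℝ) : ℂ) ^ m) = δ k := by
      rw [tsum_eq_single 0 (fun m hm => by simp [hm])]
      simp
    have hlim := (hF 0 ⟨le_refl _, hr0.le⟩).tendsto
    rw [h0] at hlim
    have hlim2 : Filter.Tendsto (fun s : ℝ => ∑' m : ℕ, δ (m + k) * (s : ℂ) ^ m)
        (nhdsWithin 0 (Set.Ioc 0 r)) (nhds (δ k)) :=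
      hlim.mono_left (nhdsWithin_mono _ Set.Ioc_subset_Icc_self)
    have hlim3 : Filter.Tendsto (fun s : ℝ => ∑' m : ℕ, δ (m + k) * (s : ℂ) ^ m)
        (nhdsWithin 0 (Set.Ioc 0 r)) (nhds 0) :=
      tendsto_const_nhds.congr' (Filter.eventually_of_mem self_mem_nhdsWithin
        fun s hs' => (hz s hs').symm)
    have : (nhdsWithin (0 : ℝ) (Set.Ioc 0 r)).NeBot := by
      rw [nhdsWithin_Ioc_eq_nhdsGT hr0]
      infer_instance
    exact tendsto_nhds_unique hlim2 hlim3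
  funext m
  exact sub_eq_zero.mp (key m)

lemma fj_dot_toC (p x : VZ) : ∃ n : ℤ, dot p (toC x) = n :=
  ⟨∑ i, p i * x i, by simp [dot, toC]⟩

lemma fj_psi_T (a : ℤ × ℤ × VZ → ℂ) (m : ℕ) (τ : ℂ) (z : VC) :
    fj_psi a m (τ + 1) z = fj_psi a m τ z := by
  unfold fj_psi
  refine tsum_congr fun q => ?_
  have : (q.1 : ℂ) * (τ + 1) + dot q.2 z = (q.1 * τ + dot q.2 z) + (q.1 : ℂ) := by ring
  rw [this, e_add, e_int, mul_one]

lemma fj_psi_P (a : ℤ × ℤ × VZ → ℂ) (m : ℕ) (τ : ℂ) (z : VC) (x : VZ) :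
    fj_psi a m τ (z + toC x) = fj_psi a m τ z := by
  unfold fj_psi
  refine tsum_congr fun q => ?_
  obtain ⟨n, hn⟩ := fj_dot_toC q.2 x
  have : (q.1 : ℂ) * τ + dot q.2 (z + toC x) = (q.1 * τ + dot q.2 z) + (n : ℂ) := by
    rw [fj_dot_add, hn]; ring
  rw [this, e_add, e_int, mul_one]

lemma fj_mem {τ : ℂ} {z : VC} {ω : ℂ} {Y : ℝ} (h : 0 < τ.im)
    (hY : bil G (imC z) (imC z) < 2 * τ.im * Y) (hω : Y < ω.im) : (τ, z, ω) ∈ Tube G :=
  ⟨h, hY.trans (by nlinarith)⟩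

theorem exists_FJ (hG : EvenPos G) {k : ℤ} {f : ℂ → VC → ℂ → ℂ} (hf : TF G k f)
    {a : ℤ × ℤ × VZ → ℂ} (ha : FourierData G f a) : ∃ ψ, FJ G k f ψ := by
  refine ⟨fj_psi a, fj_gh hG ha, fun τ z ω h => fj_sum ha h, fun m τ z _ => fj_psi_T a m τ z,
    fun m τ z x _ => fj_psi_P a m τ z x, ?_, ?_, ?_⟩
  · intro m τ z x hτ
    obtain ⟨Y₁, hY₁⟩ := fj_height (G := G) τ hτ (imC z)
    obtain ⟨Y₂, hY₂⟩ := fj_height (G := G) τ hτ (imC (z + τ • toC x))
    set c : ℂ := bil G (toC x) z + bil G (toC x) (toC x) * τ / 2 with hc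
    have h1 : (fun m : ℕ => fj_psi a m τ (z + τ • toC x) * e (m * c)) =
        fun m : ℕ => fj_psi a m τ z := by
      refine fj_unique _ _ (fun ω => f τ z ω) (max Y₁ (Y₂ - c.im)) (fun ω hω => ?_)
        (fun ω hω => ?_)
      · have h2 : (τ, z, ω) ∈ Tube G := fj_mem hτ hY₁ (lt_of_le_of_lt (le_max_left _ _) hω)
        have h3 : (τ, z + τ • toC x, ω + c) ∈ Tube G := by
          refine fj_mem hτ hY₂ ?_
          have := lt_of_le_of_lt (le_max_right _ _) hω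
          rw [Complex.add_im]; linarith
        have h4 := fj_sum ha h3
        have h5 := hf.H τ z ω x h2
        rw [add_assoc, ← hc] at h5
        rw [h5] at h4
        refine (fj_hasSum_congr fun m => ?_).mpr h4
        rw [mul_assoc, ← e_add]
        congr 2
        ring
      · exact fj_sum ha (fj_mem hτ hY₁ (lt_of_le_of_lt (le_max_left _ _) hω))
    have h6 := congrFun h1 m
    rw [← h6, e_neg]
    field_simp [e_ne_zero]
  · intro m τ z hτ
    have hτ0 : τ ≠ 0 := by rintro rfl; simp at hτ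
    have hτ' : 0 < (-1 / τ).im := by
      rw [neg_div, one_div, Complex.neg_im, Complex.inv_im]
      have := Complex.normSq_pos.mpr hτ0
      rw [neg_div, neg_neg]
      positivity
    obtain ⟨Y₁, hY₁⟩ := fj_height (G := G) τ hτ (imC z)
    obtain ⟨Y₂, hY₂⟩ := fj_height (G := G) (-1 / τ) hτ' (imC (τ⁻¹ • z))
    set c : ℂ := bil G z z / (2 * τ) with hc
    have h1 : (fun m : ℕ => fj_psi a m (-1 / τ) (τ⁻¹ • z) * e (-(m * c))) =
        fun m : ℕ => τ ^ k * fj_psi a m τ z := by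
      refine fj_unique _ _ (fun ω => τ ^ k * f τ z ω) (max Y₁ (Y₂ + c.im)) (fun ω hω => ?_)
        (fun ω hω => ?_)
      · have h2 : (τ, z, ω) ∈ Tube G := fj_mem hτ hY₁ (lt_of_le_of_lt (le_max_left _ _) hω)
        have h3 : (-1 / τ, τ⁻¹ • z, ω - c) ∈ Tube G := by
          refine fj_mem hτ' hY₂ ?_
          have := lt_of_le_of_lt (le_max_right _ _) hω
          rw [Complex.sub_im]; linarith
        have h4 := fj_sum ha h3
        have h5 := hf.S τ z ω h2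
        rw [← hc] at h5
        rw [h5] at h4
        refine (fj_hasSum_congr fun m => ?_).mpr h4
        rw [mul_assoc, ← e_add]
        congr 2
        ring
      · have h7 := (fj_sum ha (fj_mem hτ hY₁ (lt_of_le_of_lt (le_max_left _ _) hω))).mul_left
          (τ ^ k)
        exact (fj_hasSum_congr fun m => by rw [mul_assoc]).mpr h7
    have h6 := congrFun h1 m
    have h8 : e (m * bil G z z / (2 * τ)) = e (m * c) := by rw [hc]; congr 1; ring
    rw [h8, mul_right_comm, ← h6, e_neg]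
    field_simp [e_ne_zero]
  · intro x
    have hx := bil_nonneg hG x
    have h1 : bil G ((1 / 2 : ℝ) • x) ((1 / 2 : ℝ) • x) <
        2 * (1 / 2) * (1 / 2 + bil G x x / 4) := by
      rw [fj_bil_smul]; nlinarith
    have hsum := fj_summable ha (by norm_num : (0 : ℝ) < 1 / 2) h1
    refine ⟨∑' t, ‖a t‖ * Real.exp (-(2 * Real.pi * fj_pair t (1 / 2) ((1 / 2 : ℝ) • x)
      (1 / 2 + bil G x x / 4))), fun y τ ω hτ hω => ?_⟩
    have him : imC (τ • ofR x + ofR y) = τ.im • x := by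
      ext i; simp [imC, ofR]
    have him3 : (ω + (bil G x x : ℝ) * τ / 2).im = ω.im + bil G x x * τ.im / 2 := by
      simp [Complex.mul_im]
    have hmem : (τ, τ • ofR x + ofR y, ω + (bil G x x : ℝ) * τ / 2) ∈ Tube G := by
      refine ⟨by simpa using (by linarith : 0 < τ.im), ?_⟩
      show bil G (imC (τ • ofR x + ofR y)) (imC (τ • ofR x + ofR y)) <
        2 * τ.im * (ω + (bil G x x : ℝ) * τ / 2).im
      rw [him, him3, fj_bil_smul]
      nlinarith
    have h2 := ha.sum _ _ _ hmem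
    have h3 : ∀ t : ℤ × ℤ × VZ, ‖a t * e (t.1 * τ + t.2.1 * (ω + (bil G x x : ℝ) * τ / 2) +
        dot t.2.2 (τ • ofR x + ofR y))‖ ≤ ‖a t‖ * Real.exp (-(2 * Real.pi * fj_pair t (1 / 2)
        ((1 / 2 : ℝ) • x) (1 / 2 + bil G x x / 4))) := by
      intro t
      rw [norm_mul, fj_norm_e, him, him3]
      refine fj_bound hG ha (by linarith) (by nlinarith) ?_ t
      have h4 : τ.im • x - (1 / 2 : ℝ) • x = (τ.im - 1 / 2) • x := by
        rw [sub_smul]
      rw [h4, fj_bil_smul]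
      nlinarith [mul_nonneg (by linarith : (0:ℝ) ≤ τ.im - 1 / 2)
        (by linarith : (0:ℝ) ≤ ω.im - 1 / 2)]
    rw [← h2.tsum_eq]
    exact tsum_of_norm_bounded hsum.hasSum h3

end Pool.Agent.Refl
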