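import Pool.Agent.Refl.Basic

/-! Module GENR: equivalence over ℝ and over ℤ_p, p odd; determinants of E8+E8+D4. -/

namespace Pool.Agent.Refl
open Matrix

/-! ### Congruence of symmetric matrices over a ring -/

section cong

variable {R : Type*} [CommRing R]
variable {ι κ μ ν : Type*} [Fintype ι] [DecidableEq ι] [Fintype κ] [DecidableEq κ]
  [Fintype μ] [DecidableEq μ] [Fintype ν] [DecidableEq ν]

/-- Congruence of two square matrices. -/
def gr_Cong (A : Matrix ι ι R) (B : Matrix κ κ R) : Prop :=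
  ∃ (P : Matrix ι κ R) (Q : Matrix κ ι R), P * Q = 1 ∧ Q * P = 1 ∧ Pᵀ * A * P = B

lemma gr_refl (A : Matrix ι ι R) : gr_Cong A A := ⟨1, 1, by simp, by simp, by simp⟩

lemma gr_symm {A : Matrix ι ι R} {B : Matrix κ κ R} (h : gr_Cong A B) : gr_Cong B A := by
  obtain ⟨P, Q, h1, h2, h3⟩ := h
  refine ⟨Q, P, h2, h1, ?_⟩
  calc Qᵀ * B * Q = Qᵀ * (Pᵀ * A * P) * Q := by rw [h3]
    _ = (P * Q)ᵀ * A * (P * Q) := by
        rw [transpose_mul]; simp only [Matrix.mul_assoc]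
    _ = A := by rw [h1]; simp

lemma gr_trans {A : Matrix ι ι R} {B : Matrix κ κ R} {C : Matrix μ μ R} (h : gr_Cong A B)
    (h' : gr_Cong B C) : gr_Cong A C := by
  obtain ⟨P, Q, h1, h2, h3⟩ := h
  obtain ⟨P', Q', h1', h2', h3'⟩ := h'
  refine ⟨P * P', Q' * Q, ?_, ?_, ?_⟩
  · calc P * P' * (Q' * Q) = P * (P' * Q') * Q := by simp only [Matrix.mul_assoc]
      _ = 1 := by rw [h1', Matrix.mul_one, h1]
  · calc Q' * Q * (P * P') = Q' * (Q * P) * P' := by simp only [Matrix.mul_assoc]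
      _ = 1 := by rw [h2, Matrix.mul_one, h2']
  · calc (P * P')ᵀ * A * (P * P') = P'ᵀ * (Pᵀ * A * P) * P' := by
          rw [transpose_mul]; simp only [Matrix.mul_assoc]
      _ = C := by rw [h3, h3']

lemma gr_of_unit {A : Matrix ι ι R} {P : Matrix ι ι R} (hP : IsUnit P.det) :
    gr_Cong A (Pᵀ * A * P) :=
  ⟨P, P⁻¹, Matrix.mul_nonsing_inv P hP, Matrix.nonsing_inv_mul P hP, rfl⟩

lemma gr_reindex (e : ι ≃ κ) (A : Matrix ι ι R) : gr_Cong A (A.submatrix e.symm e.symm) := by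
  refine ⟨(1 : Matrix ι ι R).submatrix id e.symm, (1 : Matrix ι ι R).submatrix e.symm id,
    ?_, ?_, ?_⟩
  · rw [Matrix.submatrix_mul_equiv]
    simp
  · have := Matrix.submatrix_mul_equiv (1 : Matrix ι ι R) (1 : Matrix ι ι R) e.symm
      (Equiv.refl ι) e.symm
    simp only [Equiv.coe_refl] at this
    rw [this]
    simp
  · ext i j
    simp [Matrix.mul_apply, Matrix.submatrix_apply, Matrix.one_apply, Finset.sum_ite_eq]

lemma gr_one (e : ι ≃ κ) : gr_Cong (1 : Matrix ι ι R) (1 : Matrix κ κ R) := by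
  have h := gr_reindex e (1 : Matrix ι ι R)
  rwa [Matrix.submatrix_one_equiv] at h

lemma gr_blocks {A : Matrix ι ι R} {B : Matrix κ κ R} {A' : Matrix μ μ R} {B' : Matrix ν ν R}
    (h : gr_Cong A B) (h' : gr_Cong A' B') :
    gr_Cong (fromBlocks A 0 0 A') (fromBlocks B 0 0 B') := by
  obtain ⟨P, Q, h1, h2, h3⟩ := h
  obtain ⟨P', Q', h1', h2', h3'⟩ := h'
  refine ⟨fromBlocks P 0 0 P', fromBlocks Q 0 0 Q', ?_, ?_, ?_⟩
  · simp [fromBlocks_multiply, h1, h1']
  · simp [fromBlocks_multiply, h2, h2']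
  · simp [fromBlocks_multiply, fromBlocks_transpose, h3, h3']

lemma gr_det {A B : Matrix ι ι R} (h : gr_Cong A B) :
    ∃ w : R, IsUnit w ∧ B.det = w * w * A.det := by
  obtain ⟨P, Q, h1, _, h3⟩ := h
  refine ⟨P.det, ?_, ?_⟩
  · have := congrArg Matrix.det h1
    rw [det_mul, det_one] at this
    exact IsUnit.of_mul_eq_one _ this
  · rw [← h3, det_mul, det_mul, det_transpose]
    ring

omit [DecidableEq ι] [Fintype κ] [DecidableEq κ] in
lemma gr_isSymm {A : Matrix ι ι R} (hA : A.IsSymm) (P : Matrix ι κ R) : (Pᵀ * A * P).IsSymm := by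
  unfold Matrix.IsSymm
  rw [transpose_mul, transpose_mul, transpose_transpose, hA.eq, Matrix.mul_assoc]

/-- Splitting off a unit. -/
lemma gr_split {α : Type*} [Fintype α] [DecidableEq α] (a : R) (ha : IsUnit a)
    (B : Matrix Unit α R) (D : Matrix α α R) (hD : D.IsSymm) :
    ∃ S : Matrix α α R, S.IsSymm ∧ gr_Cong (fromBlocks (a • (1 : Matrix Unit Unit R)) B Bᵀ D)
      (fromBlocks (a • (1 : Matrix Unit Unit R)) 0 0 S) := by
  obtain ⟨u, rfl⟩ := ha
  set c : R := ((u⁻¹ : Rˣ) : R) with hc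
  have huc : (u : R) * c = 1 := by simp [hc]
  refine ⟨D - c • (Bᵀ * B), ?_, ?_⟩
  · unfold Matrix.IsSymm
    rw [transpose_sub, transpose_smul, transpose_mul, transpose_transpose, hD.eq]
  · refine ⟨fromBlocks 1 (-(c • B)) 0 1, fromBlocks 1 (c • B) 0 1, ?_, ?_, ?_⟩
    · rw [fromBlocks_multiply]
      simp
    · rw [fromBlocks_multiply]
      simp
    · rw [fromBlocks_transpose, fromBlocks_multiply, fromBlocks_multiply]
      have e1 : (1 : Matrix Unit Unit R)ᵀ = 1 := transpose_one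
      have e2 : (1 : Matrix α α R)ᵀ = 1 := transpose_one
      have e3 : (-(c • B))ᵀ = -(c • Bᵀ) := by rw [transpose_neg, transpose_smul]
      rw [e1, e2, e3]
      have hcu : c * (u : R) = 1 := by rw [mul_comm]; exact huc
      have k1 : (u : R) • -(c • Bᵀ) = -Bᵀ := by rw [smul_neg, smul_smul, huc, one_smul]
      congr 1
      · simp
      · simp only [transpose_zero, Matrix.one_mul, Matrix.zero_mul, add_zero, Matrix.mul_one,
          Matrix.mul_neg, Matrix.smul_mul, Matrix.mul_smul, smul_smul]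
        rw [hcu, one_smul]
        simp
      · simp only [Matrix.one_mul, Matrix.neg_mul, Matrix.mul_zero, Matrix.smul_mul,
          Matrix.mul_smul, Matrix.mul_one, add_zero]
        rw [k1]
        simp
      · simp only [Matrix.one_mul, Matrix.neg_mul, Matrix.smul_mul, Matrix.mul_smul,
          Matrix.mul_one, Matrix.mul_neg]
        rw [k1]
        simp
        abel

end cong

/-! ### Unimodular symmetric matrices over a local ring -/

section localring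

variable {R : Type*} [CommRing R] [IsLocalRing R]
variable {ι : Type*} [Fintype ι] [DecidableEq ι]

omit [Fintype ι] [DecidableEq ι] in
lemma gr_isUnit_of_sum {s : Finset ι} {f : ι → R} (h : IsUnit (∑ i ∈ s, f i)) :
    ∃ i ∈ s, IsUnit (f i) := by
  by_contra hcon
  push Not at hcon
  have h1 : ∑ i ∈ s, f i ∈ IsLocalRing.maximalIdeal R :=
    Ideal.sum_mem _ (fun i hi => (IsLocalRing.mem_maximalIdeal _).2 (hcon i hi))
  exact (IsLocalRing.mem_maximalIdeal _).1 h1 h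

lemma gr_isUnit_add {a b : R} (ha : ¬ IsUnit a) (hb : IsUnit b) : IsUnit (a + b) := by
  by_contra hcon
  have h1 : a ∈ IsLocalRing.maximalIdeal R := (IsLocalRing.mem_maximalIdeal _).2 ha
  have h2 : a + b ∈ IsLocalRing.maximalIdeal R := (IsLocalRing.mem_maximalIdeal _).2 hcon
  have h3 : b ∈ IsLocalRing.maximalIdeal R := by
    have := Ideal.sub_mem _ h2 h1
    rwa [add_sub_cancel_left] at this
  exact (IsLocalRing.mem_maximalIdeal _).1 h3 hb

lemma gr_exists_unit_value (h2 : IsUnit (2 : R)) {A : Matrix ι ι R} (hne : Nonempty ι)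
    (hA : A.IsSymm) (hdet : IsUnit A.det) : ∃ v : ι → R, IsUnit (v ⬝ᵥ A *ᵥ v) := by
  have hent : ∃ i j, IsUnit (A i j) := by
    rw [Matrix.det_apply] at hdet
    obtain ⟨σ, _, hσ⟩ := gr_isUnit_of_sum hdet
    obtain ⟨i⟩ := hne
    have h1 : IsUnit (∏ j, A (σ j) j) := by
      rcases Int.units_eq_one_or (Equiv.Perm.sign σ) with h | h
      · rw [h, one_smul] at hσ
        exact hσ
      · rw [h, Units.neg_smul, one_smul] at hσ
        simpa using hσ
    exact ⟨σ i, i, isUnit_of_dvd_unit (Finset.dvd_prod_of_mem (fun j => A (σ j) j)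
      (Finset.mem_univ i)) h1⟩
  obtain ⟨i, j, hij⟩ := hent
  have hval : ∀ k l : ι, (Pi.single k (1 : R)) ⬝ᵥ A *ᵥ (Pi.single l (1 : R)) = A k l := by
    intro k l
    rw [Matrix.mulVec_single_one, single_one_dotProduct]
    rfl
  by_cases hi : IsUnit (A i i)
  · exact ⟨Pi.single i 1, by rw [hval]; exact hi⟩
  by_cases hj : IsUnit (A j j)
  · exact ⟨Pi.single j 1, by rw [hval]; exact hj⟩
  refine ⟨Pi.single i 1 + Pi.single j 1, ?_⟩
  have hji : A j i = A i j := hA.apply i j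
  have : (Pi.single i (1 : R) + Pi.single j 1) ⬝ᵥ A *ᵥ (Pi.single i 1 + Pi.single j 1) =
      A i i + (A j j + 2 * A i j) := by
    rw [Matrix.mulVec_add, dotProduct_add, add_dotProduct, add_dotProduct, hval, hval, hval, hval,
      hji]
    ring
  rw [this]
  exact gr_isUnit_add hi (gr_isUnit_add hj (h2.mul hij))

omit [DecidableEq ι] in
lemma gr_exists_unit_coord {v w : ι → R} (h : IsUnit (v ⬝ᵥ w)) : ∃ i, IsUnit (v i) := by
  obtain ⟨i, _, hi⟩ := gr_isUnit_of_sum h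
  exact ⟨i, isUnit_of_mul_isUnit_left hi⟩

omit [IsLocalRing R] [DecidableEq ι] in
lemma gr_entry {κ : Type*} (A : Matrix ι ι R) (P : Matrix ι κ R) (i j : κ) :
    (Pᵀ * A * P) i j = (fun k => P k i) ⬝ᵥ A *ᵥ (fun k => P k j) := by
  rw [Matrix.mul_assoc, Matrix.mul_apply]
  simp [dotProduct, mulVec, Matrix.mul_apply]

omit [IsLocalRing R] [DecidableEq ι] in
lemma gr_value {κ : Type*} [Fintype κ] (A : Matrix ι ι R) (P : Matrix ι κ R) (z : κ → R) :
    (P *ᵥ z) ⬝ᵥ A *ᵥ (P *ᵥ z) = z ⬝ᵥ (Pᵀ * A * P) *ᵥ z := by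
  rw [← Matrix.mulVec_mulVec, ← Matrix.mulVec_mulVec, Matrix.dotProduct_mulVec z,
    Matrix.vecMul_transpose]

lemma gr_split_vec {α : Type*} [Fintype α] [DecidableEq α] {A : Matrix (Unit ⊕ α) (Unit ⊕ α) R}
    (hA : A.IsSymm) (v : Unit ⊕ α → R) (a : R) (ha : IsUnit a) (hv : v ⬝ᵥ A *ᵥ v = a) :
    ∃ S : Matrix α α R, S.IsSymm ∧
      gr_Cong A (fromBlocks (a • (1 : Matrix Unit Unit R)) 0 0 S) := by
  obtain ⟨i, hi⟩ := gr_exists_unit_coord (v := v) (w := A *ᵥ v) (by rw [hv]; exact ha)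
  set P : Matrix (Unit ⊕ α) (Unit ⊕ α) R := (1 : Matrix (Unit ⊕ α) (Unit ⊕ α) R).updateCol i v
    with hP
  have hdet : P.det = v i := by
    rw [hP, ← Matrix.cramer_apply, Matrix.cramer_one]
    rfl
  have h1 : gr_Cong A (Pᵀ * A * P) := gr_of_unit (by rw [hdet]; exact hi)
  set A1 := Pᵀ * A * P with hA1
  have hA1s : A1.IsSymm := gr_isSymm hA P
  have hA1i : A1 i i = a := by
    rw [hA1, gr_entry]
    have : (fun k => P k i) = v := by
      funext k
      rw [hP, Matrix.updateCol_self]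
    rw [this, hv]
  set σ : Unit ⊕ α ≃ Unit ⊕ α := Equiv.swap i (Sum.inl ()) with hσ
  have h2 := gr_reindex σ A1
  set A2 := A1.submatrix σ.symm σ.symm with hA2
  have hA2s : A2.IsSymm := hA1s.submatrix _
  have hA20 : A2 (Sum.inl ()) (Sum.inl ()) = a := by
    rw [hA2, Matrix.submatrix_apply]
    have : σ.symm (Sum.inl ()) = i := by
      rw [hσ, Equiv.symm_swap, Equiv.swap_apply_right]
    rw [this, hA1i]
  have hblk : A2 = fromBlocks (a • (1 : Matrix Unit Unit R)) A2.toBlocks₁₂ A2.toBlocks₁₂ᵀ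
      A2.toBlocks₂₂ := by
    ext x y
    rcases x with ⟨⟩ | x <;> rcases y with ⟨⟩ | y
    · simpa using hA20
    · simp [Matrix.toBlocks₁₂]
    · simp only [fromBlocks_apply₂₁, transpose_apply, Matrix.toBlocks₁₂, Matrix.of_apply]
      exact hA2s.apply _ _
    · simp [Matrix.toBlocks₂₂]
  have hDs : A2.toBlocks₂₂.IsSymm := by
    ext x y
    simp only [transpose_apply, Matrix.toBlocks₂₂, Matrix.of_apply]
    exact hA2s.apply _ _
  obtain ⟨S, hS, h3⟩ := gr_split a ha A2.toBlocks₁₂ A2.toBlocks₂₂ hDs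
  rw [← hblk] at h3
  exact ⟨S, hS, gr_trans h1 (gr_trans h2 h3)⟩

lemma gr_value_one (h2 : IsUnit (2 : R))
    (hsq : ∀ c : R, c - 1 ∈ IsLocalRing.maximalIdeal R → ∃ t, c = t * t)
    (hrep : ∀ a b : R, IsUnit a → IsUnit b → ∃ x y : R,
      a * (x * x) + b * (y * y) - 1 ∈ IsLocalRing.maximalIdeal R)
    (n : ℕ) {A : Matrix (Unit ⊕ Fin n) (Unit ⊕ Fin n) R} (hA : A.IsSymm) (u : R) (hu : IsUnit u)
    (hdet : A.det = u * u) : ∃ v : Unit ⊕ Fin n → R, v ⬝ᵥ A *ᵥ v = 1 := by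
  have hAu : IsUnit A.det := by rw [hdet]; exact hu.mul hu
  obtain ⟨v, hv⟩ := gr_exists_unit_value h2 ⟨Sum.inl ()⟩ hA hAu
  set a := v ⬝ᵥ A *ᵥ v with ha
  obtain ⟨S, hS, hcong⟩ := gr_split_vec hA v a hv rfl
  obtain ⟨w, hw, hdw⟩ := gr_det hcong
  rw [det_fromBlocks_zero₂₁, hdet] at hdw
  have hda : (a • (1 : Matrix Unit Unit R)).det = a := by simp
  rw [hda] at hdw
  rcases n with _ | n
  · -- one-dimensional case
    have hS0 : S.det = 1 := Matrix.det_fin_zero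
    rw [hS0, mul_one] at hdw
    obtain ⟨r, hr⟩ := (hw.mul hu)
    refine ⟨((r⁻¹ : Rˣ) : R) • v, ?_⟩
    rw [Matrix.mulVec_smul, smul_dotProduct, dotProduct_smul, ← ha, hdw, smul_eq_mul, smul_eq_mul]
    have hrr : ((r⁻¹ : Rˣ) : R) * (w * u) = 1 := by rw [← hr]; simp
    calc ((r⁻¹ : Rˣ) : R) * (((r⁻¹ : Rˣ) : R) * (w * w * (u * u)))
        = (((r⁻¹ : Rˣ) : R) * (w * u)) * (((r⁻¹ : Rˣ) : R) * (w * u)) := by ring
      _ = 1 := by rw [hrr, one_mul]
  · have hSu : IsUnit S.det := by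
      have : IsUnit (a * S.det) := by
        rw [hdw]
        exact (hw.mul hw).mul (hu.mul hu)
      exact isUnit_of_mul_isUnit_right this
    obtain ⟨v', hv'⟩ := gr_exists_unit_value h2 ⟨0⟩ hS hSu
    set b := v' ⬝ᵥ S *ᵥ v' with hb
    obtain ⟨x, y, hxy⟩ := hrep a b hv hv'
    obtain ⟨t, ht⟩ := hsq _ hxy
    have htu : IsUnit t := by
      have h1 : IsUnit (a * (x * x) + b * (y * y)) := by
        have := gr_isUnit_add (a := a * (x * x) + b * (y * y) - 1) (b := 1)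
          ((IsLocalRing.mem_maximalIdeal _).1 hxy) isUnit_one
        rwa [sub_add_cancel] at this
      rw [ht] at h1
      exact isUnit_of_mul_isUnit_left h1
    obtain ⟨r, hr⟩ := htu
    set q : R := ((r⁻¹ : Rˣ) : R) with hq
    have hqt : q * t = 1 := by rw [← hr, hq]; simp
    obtain ⟨P, Q, _, _, hPA⟩ := hcong
    refine ⟨P *ᵥ (Sum.elim (fun _ => q * x) ((q * y) • v')), ?_⟩
    rw [gr_value, hPA, fromBlocks_mulVec]
    have h3 : (Sum.elim (fun _ : Unit => q * x) ((q * y) • v')) ∘ Sum.inl = fun _ => q * x := by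
      funext k; rfl
    have h4 : (Sum.elim (fun _ : Unit => q * x) ((q * y) • v')) ∘ Sum.inr = (q * y) • v' := by
      funext k; rfl
    rw [h3, h4, Matrix.zero_mulVec, Matrix.zero_mulVec, add_zero, zero_add]
    have h5 : (Sum.elim (fun _ : Unit => q * x) ((q * y) • v')) ⬝ᵥ
        (Sum.elim ((a • (1 : Matrix Unit Unit R)) *ᵥ fun _ => q * x) (S *ᵥ ((q * y) • v'))) =
        (fun _ : Unit => q * x) ⬝ᵥ ((a • (1 : Matrix Unit Unit R)) *ᵥ fun _ => q * x) +
        ((q * y) • v') ⬝ᵥ (S *ᵥ ((q * y) • v')) := by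
      simp [dotProduct, Fintype.sum_sum_type]
    rw [h5]
    have h6 : (fun _ : Unit => q * x) ⬝ᵥ ((a • (1 : Matrix Unit Unit R)) *ᵥ fun _ => q * x) =
        a * ((q * x) * (q * x)) := by
      rw [Matrix.smul_mulVec, Matrix.one_mulVec, dotProduct_smul]
      simp [dotProduct]
    have h7 : ((q * y) • v') ⬝ᵥ (S *ᵥ ((q * y) • v')) = (q * y) * ((q * y) * b) := by
      rw [Matrix.mulVec_smul, smul_dotProduct, dotProduct_smul, smul_eq_mul, smul_eq_mul]
    rw [h6, h7]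
    calc a * (q * x * (q * x)) + q * y * (q * y * b)
        = q * q * (a * (x * x) + b * (y * y)) := by ring
      _ = (q * t) * (q * t) := by rw [ht]; ring
      _ = 1 := by rw [hqt, one_mul]

/-- Unimodular symmetric matrices whose determinant is a square are congruent to `1`. -/
theorem gr_main (h2 : IsUnit (2 : R))
    (hsq : ∀ c : R, c - 1 ∈ IsLocalRing.maximalIdeal R → ∃ t, c = t * t)
    (hrep : ∀ a b : R, IsUnit a → IsUnit b → ∃ x y : R,
      a * (x * x) + b * (y * y) - 1 ∈ IsLocalRing.maximalIdeal R)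
    (n : ℕ) : ∀ A : Matrix (Fin n) (Fin n) R, A.IsSymm → ∀ u : R, IsUnit u → A.det = u * u →
      gr_Cong A (1 : Matrix (Fin n) (Fin n) R) := by
  induction n with
  | zero =>
    intro A _ u _ _
    have : A = 1 := Subsingleton.elim _ _
    rw [this]
    exact gr_refl _
  | succ n ih =>
    intro A hA u hu hdet
    let e : Fin (n + 1) ≃ Unit ⊕ Fin n :=
      ((finSuccEquiv n).trans (Equiv.optionEquivSumPUnit (Fin n))).trans (Equiv.sumComm _ _)
    have h1 := gr_reindex e A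
    set A' := A.submatrix e.symm e.symm with hA'
    have hA's : A'.IsSymm := hA.submatrix _
    have hdet' : A'.det = u * u := by
      rw [hA', Matrix.det_submatrix_equiv_self, hdet]
    obtain ⟨v, hv⟩ := gr_value_one h2 hsq hrep n hA's u hu hdet'
    obtain ⟨S, hS, h3⟩ := gr_split_vec hA's v 1 isUnit_one hv
    obtain ⟨w, hw, hdw⟩ := gr_det h3
    rw [one_smul] at hdw h3
    rw [det_fromBlocks_zero₂₁, hdet', det_one, one_mul] at hdw
    have h4 := ih S hS (w * u) (hw.mul hu) (by rw [hdw]; ring)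
    have h5 := gr_blocks (gr_refl (1 : Matrix Unit Unit R)) h4
    rw [fromBlocks_one] at h5
    exact gr_trans h1 (gr_trans h3 (gr_trans h5 (gr_one e.symm)))

end localring

/-! ### The lattices E8 and D4 -/

section lattices

def gr_C8 : Matrix (Fin 8) (Fin 8) ℤ :=
  !![1, 2, -2, 0, 0, 0, 0, 0; -1, 2, 2, -2, 0, 0, 0, 0; -1, 0, 0, 2, -2, 0, 0, 0;
     -1, 0, 0, 0, 2, -2, 0, 0; -1, 0, 0, 0, 0, 2, -2, 0; -1, 0, 0, 0, 0, 0, 2, -2;
     -1, 0, 0, 0, 0, 0, 0, 2; 1, 0, 0, 0, 0, 0, 0, 0]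

def gr_K8 : Matrix (Fin 8) (Fin 8) ℤ :=
  !![0, 0, 0, 0, 0, 0, 0, 4; 1, 1, 1, 1, 1, 1, 1, 5; -1, 1, 1, 1, 1, 1, 1, 7;
     0, 0, 2, 2, 2, 2, 2, 10; 0, 0, 0, 2, 2, 2, 2, 8; 0, 0, 0, 0, 2, 2, 2, 6;
     0, 0, 0, 0, 0, 2, 2, 4; 0, 0, 0, 0, 0, 0, 2, 2]

def gr_C4 : Matrix (Fin 4) (Fin 4) ℤ :=
  !![1, 0, 0, 0; -1, 1, 0, 0; 0, -1, 1, 1; 0, 0, -1, 1]

def gr_K4 : Matrix (Fin 4) (Fin 4) ℤ :=
  !![2, 0, 0, 0; 2, 2, 0, 0; 1, 1, 1, -1; 1, 1, 1, 1]

lemma gr_e8a : gr_C8 * gr_K8 = (4 : ℤ) • (1 : Matrix (Fin 8) (Fin 8) ℤ) := by decide +kernel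

lemma gr_e8b : gr_K8 * gr_C8 = (4 : ℤ) • (1 : Matrix (Fin 8) (Fin 8) ℤ) := by decide +kernel

lemma gr_e8c : gr_C8ᵀ * gr_C8 = (4 : ℤ) • CartanMatrix.E₈ := by decide +kernel

lemma gr_d4a : gr_C4 * gr_K4 = (2 : ℤ) • (1 : Matrix (Fin 4) (Fin 4) ℤ) := by decide +kernel

lemma gr_d4b : gr_K4 * gr_C4 = (2 : ℤ) • (1 : Matrix (Fin 4) (Fin 4) ℤ) := by decide +kernel

lemma gr_d4c : gr_C4ᵀ * gr_C4 = CartanMatrix.D 4 := by decide +kernel

variable {R : Type*} [CommRing R]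

lemma gr_map_mul {ι κ μ : Type*} [Fintype κ] (A : Matrix ι κ ℤ) (B : Matrix κ μ ℤ) :
    (A * B).map (Int.cast : ℤ → R) = A.map (Int.cast : ℤ → R) * B.map (Int.cast : ℤ → R) :=
  Matrix.map_mul (f := Int.castRingHom R)

lemma gr_map_smul {ι κ : Type*} (c : ℤ) (A : Matrix ι κ ℤ) :
    (c • A).map (Int.cast : ℤ → R) = (c : R) • A.map (Int.cast : ℤ → R) := by
  ext i j
  simp

lemma gr_map_one {ι : Type*} [DecidableEq ι] :
    (1 : Matrix ι ι ℤ).map (Int.cast : ℤ → R) = 1 := by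
  rw [Matrix.map_one] <;> simp

lemma gr_E8 (h : R) (h2 : 2 * h = 1) :
    gr_Cong (1 : Matrix (Fin 8) (Fin 8) R) (CartanMatrix.E₈.map (Int.cast : ℤ → R)) := by
  have h4 : h * h * 4 = 1 := by linear_combination (2 * h + 1) * h2
  refine ⟨h • gr_C8.map (Int.cast : ℤ → R), h • gr_K8.map (Int.cast : ℤ → R), ?_, ?_, ?_⟩
  · rw [Matrix.smul_mul, Matrix.mul_smul, ← gr_map_mul, gr_e8a, gr_map_smul, gr_map_one,
      smul_smul, smul_smul, Int.cast_ofNat, h4, one_smul]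
  · rw [Matrix.smul_mul, Matrix.mul_smul, ← gr_map_mul, gr_e8b, gr_map_smul, gr_map_one,
      smul_smul, smul_smul, Int.cast_ofNat, h4, one_smul]
  · rw [Matrix.mul_one, transpose_smul, ← transpose_map, Matrix.smul_mul, Matrix.mul_smul,
      ← gr_map_mul, gr_e8c, gr_map_smul, smul_smul, smul_smul, Int.cast_ofNat, h4, one_smul]

lemma gr_D4 (h : R) (h2 : 2 * h = 1) :
    gr_Cong (1 : Matrix (Fin 4) (Fin 4) R) ((CartanMatrix.D 4).map (Int.cast : ℤ → R)) := by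
  have h3 : h * 2 = 1 := by rw [mul_comm]; exact h2
  refine ⟨gr_C4.map (Int.cast : ℤ → R), h • gr_K4.map (Int.cast : ℤ → R), ?_, ?_, ?_⟩
  · rw [Matrix.mul_smul, ← gr_map_mul, gr_d4a, gr_map_smul, gr_map_one,
      smul_smul, Int.cast_ofNat, h3, one_smul]
  · rw [Matrix.smul_mul, ← gr_map_mul, gr_d4b, gr_map_smul, gr_map_one,
      smul_smul, Int.cast_ofNat, h3, one_smul]
  · rw [Matrix.mul_one, ← transpose_map, ← gr_map_mul, gr_d4c]

lemma gr_gram (h : R) (h2 : 2 * h = 1) :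
    gr_Cong (1 : Matrix (Fin 20) (Fin 20) R) (gramE8E8D4.map (Int.cast : ℤ → R)) := by
  have h1 := gr_blocks (gr_blocks (gr_E8 h h2) (gr_E8 h h2)) (gr_D4 h h2)
  rw [fromBlocks_one, fromBlocks_one] at h1
  have h3 : gramE8E8D4.map (Int.cast : ℤ → R) =
      fromBlocks (fromBlocks (CartanMatrix.E₈.map (Int.cast : ℤ → R)) 0 0
        (CartanMatrix.E₈.map (Int.cast : ℤ → R))) 0 0
        ((CartanMatrix.D 4).map (Int.cast : ℤ → R)) := by
    rw [gramE8E8D4, fromBlocks_map, fromBlocks_map]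
    simp
  rw [h3]
  exact gr_trans (gr_one (Fintype.equivOfCardEq (by simp))) h1

end lattices

open scoped MatrixOrder in
lemma gr_real_factor {n : ℕ} (A : Matrix (Fin n) (Fin n) ℝ) (hA : A.PosDef) :
    gr_Cong (1 : Matrix (Fin n) (Fin n) ℝ) A := by
  have hdet : A.det ≠ 0 := hA.det_pos.ne'
  obtain ⟨B, hB⟩ := CStarAlgebra.nonneg_iff_eq_star_mul_self.mp hA.posSemidef.nonneg
  have hB' : A = Bᵀ * B := by
    rw [hB, Matrix.star_eq_conjTranspose, Matrix.conjTranspose_eq_transpose_of_trivial]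
  have hBdet : IsUnit B.det := by
    rw [isUnit_iff_ne_zero]
    intro h0
    apply hdet
    rw [hB', det_mul, h0, mul_zero]
  have := gr_of_unit (A := (1 : Matrix (Fin n) (Fin n) ℝ)) hBdet
  rwa [Matrix.mul_one, ← hB'] at this

variable {G : Matrix (Fin 20) (Fin 20) ℤ}

theorem equiv_real (hG : EvenPos G) : EquivOver ℝ G gramE8E8D4 :=
  gr_trans (gr_symm (gr_real_factor _ hG.pos)) (gr_gram (1 / 2 : ℝ) (by norm_num))

section padic

variable (p : ℕ) [hp : Fact p.Prime]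

lemma gr_norm_two (h2 : p ≠ 2) : ‖(2 : ℤ_[p])‖ = 1 := by
  have h1 : ‖((2 : ℤ) : ℤ_[p])‖ = 1 ∨ ‖((2 : ℤ) : ℤ_[p])‖ < 1 := by
    rcases lt_or_eq_of_le (PadicInt.norm_le_one ((2 : ℤ) : ℤ_[p])) with h | h
    · exact Or.inr h
    · exact Or.inl h
  rcases h1 with h | h
  · exact_mod_cast h
  · exfalso
    rw [PadicInt.norm_int_lt_one_iff_dvd] at h
    have h3 : p ∣ 2 := by exact_mod_cast h
    exact h2 ((Nat.prime_dvd_prime_iff_eq hp.out Nat.prime_two).1 h3)

lemma gr_isUnit_two (h2 : p ≠ 2) : IsUnit (2 : ℤ_[p]) :=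
  PadicInt.isUnit_iff.2 (gr_norm_two p h2)

lemma gr_padic_sq (h2 : p ≠ 2) (c : ℤ_[p]) (hc : c - 1 ∈ IsLocalRing.maximalIdeal ℤ_[p]) :
    ∃ t, c = t * t := by
  have hnorm : ‖c - 1‖ < 1 := PadicInt.mem_nonunits.1 ((IsLocalRing.mem_maximalIdeal _).1 hc)
  have h := hensels_lemma (p := p) (R := ℤ_[p])
    (F := (Polynomial.X ^ 2 - Polynomial.C c : Polynomial ℤ_[p])) (a := (1 : ℤ_[p])) (by
      have e1 : (Polynomial.X ^ 2 - Polynomial.C c : Polynomial ℤ_[p]).aeval (1 : ℤ_[p]) =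
          1 - c := by simp
      have e2 : (Polynomial.derivative
          (Polynomial.X ^ 2 - Polynomial.C c : Polynomial ℤ_[p])).aeval (1 : ℤ_[p]) = 2 := by
        simp
        norm_num
      rw [e1, e2, gr_norm_two p h2, one_pow, norm_sub_rev]
      exact hnorm)
  obtain ⟨z, hz, _⟩ := h
  refine ⟨z, ?_⟩
  have : z ^ 2 - c = 0 := by simpa using hz
  linear_combination -this

lemma gr_padic_rep (h2 : p ≠ 2) (a b : ℤ_[p]) (ha : IsUnit a) (hb : IsUnit b) :
    ∃ x y : ℤ_[p], a * (x * x) + b * (y * y) - 1 ∈ IsLocalRing.maximalIdeal ℤ_[p] := by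
  set φ : ℤ_[p] →+* ZMod p := PadicInt.toZMod with hφ
  have ha' : φ a ≠ 0 := (ha.map φ).ne_zero
  have hb' : φ b ≠ 0 := (hb.map φ).ne_zero
  have hcard : Fintype.card (ZMod p) % 2 = 1 := by
    rw [ZMod.card]
    rcases hp.out.eq_two_or_odd with h | h
    · exact absurd h h2
    · exact h
  obtain ⟨x, y, hxy⟩ := FiniteField.exists_root_sum_quadratic
    (f := Polynomial.C (φ a) * Polynomial.X ^ 2)
    (g := Polynomial.C (φ b) * Polynomial.X ^ 2 - Polynomial.C 1)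
    (Polynomial.degree_C_mul_X_pow 2 ha') (by
      rw [Polynomial.degree_sub_eq_left_of_degree_lt]
      · exact Polynomial.degree_C_mul_X_pow 2 hb'
      · rw [Polynomial.degree_C_mul_X_pow 2 hb', Polynomial.degree_C one_ne_zero]
        norm_num) hcard
  refine ⟨(x.val : ℤ_[p]), (y.val : ℤ_[p]), ?_⟩
  rw [← PadicInt.ker_toZMod, RingHom.mem_ker]
  have hx : φ (x.val : ℤ_[p]) = x := by
    rw [map_natCast, ZMod.natCast_val, ZMod.cast_id]
  have hy : φ (y.val : ℤ_[p]) = y := by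
    rw [map_natCast, ZMod.natCast_val, ZMod.cast_id]
  change φ _ = 0
  rw [map_sub, map_add, map_mul, map_mul, map_mul, map_mul, hx, hy, map_one]
  have : φ a * x ^ 2 + (φ b * y ^ 2 - 1) = 0 := by simpa using hxy
  linear_combination this

end padic

theorem equiv_odd (hG : EvenPos G) (hdet : G.det = 4) (p : ℕ) [Fact p.Prime] (hp : p ≠ 2) :
    EquivOver ℤ_[p] G gramE8E8D4 := by
  have h2 := gr_isUnit_two p hp
  obtain ⟨w, hw⟩ := h2
  have hhalf : (2 : ℤ_[p]) * ((w⁻¹ : ℤ_[p]ˣ) : ℤ_[p]) = 1 := by rw [← hw]; simp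
  have hsymm : (G.map (Int.cast : ℤ → ℤ_[p])).IsSymm := by
    unfold Matrix.IsSymm
    rw [← transpose_map, hG.symm.eq]
  have hd : (G.map (Int.cast : ℤ → ℤ_[p])).det = 2 * 2 := by
    have := RingHom.map_det (Int.castRingHom ℤ_[p]) G
    rw [hdet] at this
    have h3 : (Int.castRingHom ℤ_[p]).mapMatrix G = G.map (Int.cast : ℤ → ℤ_[p]) := rfl
    rw [h3] at this
    rw [← this]
    norm_num
  have h1 := gr_main (gr_isUnit_two p hp) (gr_padic_sq p hp) (gr_padic_rep p hp) 20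
    (G.map (Int.cast : ℤ → ℤ_[p])) hsymm 2 (gr_isUnit_two p hp) hd
  exact gr_trans h1 (gr_gram _ hhalf)

end Pool.Agent.Refl
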