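import Pool.Agent.Refl.DiscMod

/-! Module GEN2: equivalence over ℤ₂. -/

namespace Pool.Agent.Refl
open Matrix

section g2_general

variable {R : Type*} [CommRing R]
variable {ι κ μ ν : Type*} [Fintype ι] [DecidableEq ι] [Fintype κ] [DecidableEq κ]
  [Fintype μ] [DecidableEq μ] [Fintype ν] [DecidableEq ν]

/-- equivalence of symmetric matrices over a ring -/
def g2_Eqv (S : Matrix ι ι R) (T : Matrix κ κ R) : Prop :=
  ∃ (P : Matrix ι κ R) (Q : Matrix κ ι R), P * Q = 1 ∧ Q * P = 1 ∧ Pᵀ * S * P = T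

theorem g2_refl (S : Matrix ι ι R) : g2_Eqv S S := ⟨1, 1, by simp, by simp, by simp⟩

theorem g2_symm {S : Matrix ι ι R} {T : Matrix κ κ R} (h : g2_Eqv S T) : g2_Eqv T S := by
  obtain ⟨P, Q, h1, h2, h3⟩ := h
  refine ⟨Q, P, h2, h1, ?_⟩
  rw [← h3]
  calc Qᵀ * (Pᵀ * S * P) * Q = (Qᵀ * Pᵀ) * S * (P * Q) := by simp only [Matrix.mul_assoc]
    _ = (P * Q)ᵀ * S * (P * Q) := by rw [Matrix.transpose_mul]
    _ = S := by rw [h1]; simp

theorem g2_trans {S : Matrix ι ι R} {T : Matrix κ κ R} {U : Matrix μ μ R}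
    (h : g2_Eqv S T) (h' : g2_Eqv T U) : g2_Eqv S U := by
  obtain ⟨P, Q, h1, h2, h3⟩ := h
  obtain ⟨P', Q', h1', h2', h3'⟩ := h'
  refine ⟨P * P', Q' * Q, ?_, ?_, ?_⟩
  · calc P * P' * (Q' * Q) = P * (P' * Q') * Q := by simp only [Matrix.mul_assoc]
      _ = 1 := by rw [h1', Matrix.mul_one, h1]
  · calc Q' * Q * (P * P') = Q' * (Q * P) * P' := by simp only [Matrix.mul_assoc]
      _ = 1 := by rw [h2, Matrix.mul_one, h2']
  · rw [← h3', ← h3, Matrix.transpose_mul]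
    simp only [Matrix.mul_assoc]

theorem g2_sum {S : Matrix ι ι R} {T : Matrix κ κ R} {S' : Matrix μ μ R} {T' : Matrix ν ν R}
    (h : g2_Eqv S T) (h' : g2_Eqv S' T') :
    g2_Eqv (fromBlocks S 0 0 S') (fromBlocks T 0 0 T') := by
  obtain ⟨P, Q, h1, h2, h3⟩ := h
  obtain ⟨P', Q', h1', h2', h3'⟩ := h'
  refine ⟨fromBlocks P 0 0 P', fromBlocks Q 0 0 Q', ?_, ?_, ?_⟩
  · simp [fromBlocks_multiply, h1, h1']
  · simp [fromBlocks_multiply, h2, h2']
  · simp [fromBlocks_transpose, fromBlocks_multiply, h3, h3']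

theorem g2_reindex (S : Matrix ι ι R) (f : κ ≃ ι) : g2_Eqv S (S.submatrix f f) := by
  refine ⟨(1 : Matrix ι ι R).submatrix id f, (1 : Matrix ι ι R).submatrix f id, ?_, ?_, ?_⟩
  · rw [Matrix.submatrix_mul_equiv]; simp
  · have := Matrix.submatrix_mul_equiv (1 : Matrix ι ι R) (1 : Matrix ι ι R) f (Equiv.refl ι) f
    simp only [Equiv.coe_refl] at this
    rw [this]; simp
  · have h1 := Matrix.submatrix_mul_equiv (1 : Matrix ι ι R)ᵀ S f (Equiv.refl ι) id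
    have h2 := Matrix.submatrix_mul_equiv ((1 : Matrix ι ι R)ᵀ * S) (1 : Matrix ι ι R) f
      (Equiv.refl ι) f
    simp only [Equiv.coe_refl] at h1 h2
    rw [Matrix.transpose_submatrix]
    have h3 : S = S.submatrix id id := by simp
    conv_lhs => rw [h3]
    rw [h1, h2]
    simp

theorem g2_schur {A A' : Matrix ι ι R} (B : Matrix ι κ R) (D : Matrix κ κ R) (hA : Aᵀ = A)
    (h1 : A * A' = 1) :
    g2_Eqv (fromBlocks A B Bᵀ D) (fromBlocks A 0 0 (D - Bᵀ * A' * B)) := by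
  have h2 : A' * A = 1 := mul_eq_one_comm.mp h1
  have hA' : A'ᵀ = A' := by
    have h3 : A'ᵀ * A = 1 := by
      have := congrArg Matrix.transpose h1
      rwa [Matrix.transpose_mul, hA, Matrix.transpose_one] at this
    calc A'ᵀ = A'ᵀ * (A * A') := by rw [h1, Matrix.mul_one]
      _ = (A'ᵀ * A) * A' := by rw [Matrix.mul_assoc]
      _ = A' := by rw [h3, Matrix.one_mul]
  refine ⟨fromBlocks 1 (-(A' * B)) 0 1, fromBlocks 1 (A' * B) 0 1, ?_, ?_, ?_⟩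
  · simp [fromBlocks_multiply]
  · simp [fromBlocks_multiply]
  · have e1 : A * (A' * B) = B := by rw [← Matrix.mul_assoc, h1, Matrix.one_mul]
    have e2 : Bᵀ * A' * A = Bᵀ := by rw [Matrix.mul_assoc, h2, Matrix.mul_one]
    simp only [fromBlocks_transpose, fromBlocks_multiply, Matrix.transpose_one,
      Matrix.transpose_zero, Matrix.one_mul, Matrix.mul_one, Matrix.zero_mul, Matrix.mul_zero,
      add_zero, Matrix.transpose_neg, Matrix.transpose_mul, hA', Matrix.neg_mul,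
      Matrix.mul_neg, e1, e2]
    congr 1
    · simp
    · simp
    · rw [show (-Bᵀ + Bᵀ : Matrix κ ι R) = 0 by simp]
      simp only [Matrix.mul_assoc, Matrix.zero_mul]
      abel

theorem g2_shear (A : Matrix ι ι R) (D : Matrix κ κ R) (X : Matrix κ ι R) (hD : Dᵀ = D) :
    g2_Eqv (fromBlocks A 0 0 D) (fromBlocks (A + Xᵀ * D * X) (Xᵀ * D) (Xᵀ * D)ᵀ D) := by
  refine ⟨fromBlocks 1 0 X 1, fromBlocks 1 0 (-X) 1, ?_, ?_, ?_⟩
  · simp [fromBlocks_multiply]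
  · simp [fromBlocks_multiply]
  · simp [fromBlocks_transpose, fromBlocks_multiply, hD]

theorem g2_sumComm (S : Matrix ι ι R) (T : Matrix κ κ R) :
    g2_Eqv (fromBlocks S 0 0 T) (fromBlocks T 0 0 S) := by
  have := g2_reindex (fromBlocks S 0 0 T) (Equiv.sumComm κ ι)
  convert this using 1
  ext i j
  rcases i with i | i <;> rcases j with j | j <;> rfl

theorem g2_sumAssoc (S : Matrix ι ι R) (T : Matrix κ κ R) (U : Matrix μ μ R) :
    g2_Eqv (fromBlocks (fromBlocks S 0 0 T) 0 0 U) (fromBlocks S 0 0 (fromBlocks T 0 0 U)) := by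
  have := g2_reindex (fromBlocks (fromBlocks S 0 0 T) 0 0 U) (Equiv.sumAssoc ι κ μ).symm
  convert this using 1
  ext i j
  rcases i with i | i | i <;> rcases j with j | j | j <;> rfl

omit [DecidableEq ι] [DecidableEq κ] in
theorem g2_quad {S : Matrix ι ι R} (P : Matrix ι κ R) (v : κ → R) :
    v ⬝ᵥ (Pᵀ * S * P) *ᵥ v = (P *ᵥ v) ⬝ᵥ S *ᵥ (P *ᵥ v) := by
  rw [Matrix.mul_assoc, ← Matrix.mulVec_mulVec, Matrix.dotProduct_mulVec, Matrix.vecMul_transpose,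
    Matrix.mulVec_mulVec]

theorem g2_det {S : Matrix ι ι R} {T : Matrix κ κ R} (h : g2_Eqv S T) :
    ∃ u, IsUnit u ∧ T.det = S.det * u ^ 2 := by
  obtain ⟨P, Q, h1, h2, h3⟩ := h
  by_cases hne : Nontrivial R
  · have hcard : Fintype.card ι = Fintype.card κ := by
      have l1 : Function.Surjective (Matrix.toLin' P) ∧ Function.Injective (Matrix.toLin' P) := by
        constructor
        · intro v
          refine ⟨Q *ᵥ v, ?_⟩
          simp [Matrix.mulVec_mulVec, h1]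
        · intro v w hvw
          have := congrArg (fun x => Q *ᵥ x) hvw
          simpa [Matrix.mulVec_mulVec, h2] using this
      have e : (κ → R) ≃ₗ[R] (ι → R) := LinearEquiv.ofBijective (Matrix.toLin' P) ⟨l1.2, l1.1⟩
      have := LinearEquiv.finrank_eq e
      simpa using this.symm
    let f : κ ≃ ι := (Fintype.equivOfCardEq hcard).symm
    refine ⟨(P.submatrix id f.symm).det, ?_, ?_⟩
    · have : (P.submatrix id f.symm) * (Q.submatrix f.symm id) = 1 := by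
        have := Matrix.submatrix_mul_equiv P Q id f.symm id
        rw [this, h1]; simp
      exact IsUnit.of_mul_eq_one _ (by rw [← Matrix.det_mul, this, Matrix.det_one])
    · have hT : T.det = (T.submatrix f.symm f.symm).det := by
        rw [Matrix.det_submatrix_equiv_self]
      rw [hT, ← h3]
      have h4 : (Pᵀ * S * P).submatrix f.symm f.symm =
          (P.submatrix id f.symm)ᵀ * S * (P.submatrix id f.symm) := by
        ext i j
        simp [Matrix.mul_apply, Matrix.submatrix_apply, Matrix.transpose_apply]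
      rw [h4, Matrix.det_mul, Matrix.det_mul, Matrix.det_transpose]
      ring
  · have : Subsingleton R := not_nontrivial_iff_subsingleton.mp hne
    exact ⟨1, isUnit_one, Subsingleton.elim _ _⟩

/-- a plane -/
def g2_pl (a b c : R) : Matrix (Fin 2) (Fin 2) R := !![2 * a, b; b, 2 * c]

theorem g2_pl_symm (a b c : R) : (g2_pl a b c)ᵀ = g2_pl a b c := by
  ext i j; fin_cases i <;> fin_cases j <;> rfl

theorem g2_pl_det (a b c : R) : (g2_pl a b c).det = 4 * a * c - b ^ 2 := by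
  simp [g2_pl, Matrix.det_fin_two]; ring

theorem g2_pl_swap (a b c : R) : g2_Eqv (g2_pl a b c) (g2_pl c b a) := by
  refine ⟨!![0, 1; 1, 0], !![0, 1; 1, 0], ?_, ?_, ?_⟩
  · ext i j; fin_cases i <;> fin_cases j <;> simp
  · ext i j; fin_cases i <;> fin_cases j <;> simp
  · ext i j; fin_cases i <;> fin_cases j <;> simp [g2_pl, Matrix.mul_apply, Fin.sum_univ_two]

theorem g2_pl_scale (a b c : R) {u v : R} (huv : u * v = 1) :
    g2_Eqv (g2_pl a b c) (g2_pl a (b * u) (c * u ^ 2)) := by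
  refine ⟨!![1, 0; 0, u], !![1, 0; 0, v], ?_, ?_, ?_⟩
  · ext i j; fin_cases i <;> fin_cases j <;> simp [huv]
  · ext i j; fin_cases i <;> fin_cases j <;> simp [mul_comm v u, huv]
  · ext i j; fin_cases i <;> fin_cases j <;>
      simp [g2_pl, Matrix.mul_apply, Fin.sum_univ_two] <;> ring

theorem g2_pl_shear (a b c t : R) :
    g2_Eqv (g2_pl a b c) (g2_pl (a + b * t + c * t ^ 2) (b + 2 * c * t) c) := by
  refine ⟨!![1, 0; t, 1], !![1, 0; -t, 1], ?_, ?_, ?_⟩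
  · ext i j; fin_cases i <;> fin_cases j <;> simp
  · ext i j; fin_cases i <;> fin_cases j <;> simp
  · ext i j; fin_cases i <;> fin_cases j <;>
      simp [g2_pl, Matrix.mul_apply, Fin.sum_univ_two] <;> ring

end g2_general

section g2_two

theorem g2_root {α β γ : ℤ_[2]} (hα : (2 : ℤ_[2]) ∣ α) (hβ : IsUnit β) :
    ∃ t, (2 : ℤ_[2]) ∣ t ∧ α + β * t + γ * t ^ 2 = 0 := by
  let F : Polynomial ℤ_[2] := Polynomial.C α + Polynomial.C β * Polynomial.X +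
    Polynomial.C γ * Polynomial.X ^ 2
  have h0 : F.aeval (0 : ℤ_[2]) = α := by simp [F]
  have h1 : F.derivative.aeval (0 : ℤ_[2]) = β := by simp [F]
  have hα' : ‖α‖ < 1 := by
    rw [PadicInt.norm_lt_one_iff_dvd]; exact_mod_cast hα
  have hβ' : ‖β‖ = 1 := PadicInt.isUnit_iff.mp hβ
  obtain ⟨z, hz, hz2, -, -⟩ := hensels_lemma (F := F) (a := (0 : ℤ_[2])) (by
    rw [h0, h1, hβ']; simpa using hα')
  refine ⟨z, ?_, ?_⟩
  · rw [h1, hβ', sub_zero, PadicInt.norm_lt_one_iff_dvd] at hz2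
    exact_mod_cast hz2
  · simpa [F] using hz

theorem g2_unit_iff (x : ℤ_[2]) : IsUnit x ↔ ¬ (2 : ℤ_[2]) ∣ x := by
  have h := PadicInt.norm_lt_one_iff_dvd (p := 2) x
  rw [← PadicInt.not_isUnit_iff] at h
  have h' : ¬ IsUnit x ↔ (2 : ℤ_[2]) ∣ x := by exact_mod_cast h
  rw [← h', not_not]

theorem g2_odd_of_unit {x : ℤ_[2]} (hx : IsUnit x) : ∃ y, x = 1 + 2 * y := by
  have h := PadicInt.norm_lt_one_iff_dvd (p := 2) (x - 1)
  have h2 : (2 : ℤ_[2]) ∣ x ∨ (2 : ℤ_[2]) ∣ (x - 1) := by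
    by_contra hcon
    push Not at hcon
    obtain ⟨n, hn⟩ : ∃ n : ℕ, (2 : ℤ_[2]) ∣ (x - n) := by
      refine ⟨x.appr 1, ?_⟩
      have := PadicInt.appr_spec 1 x
      rw [Ideal.mem_span_singleton] at this
      simpa using this
    rcases Nat.even_or_odd' n with ⟨k, hk | hk⟩
    · apply hcon.1
      have : x = (x - n) + 2 * k := by rw [hk]; push_cast; ring
      rw [this]
      exact dvd_add hn (dvd_mul_right _ _)
    · apply hcon.2
      have : x - 1 = (x - n) + 2 * k := by rw [hk]; push_cast; ring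
      rw [this]
      exact dvd_add hn (dvd_mul_right _ _)
  rcases h2 with h2 | h2
  · exact absurd h2 ((g2_unit_iff x).mp hx)
  · obtain ⟨y, hy⟩ := h2
    exact ⟨y, by rw [← hy]; ring⟩

theorem g2_even_sub_one {x : ℤ_[2]} (hx : IsUnit x) : (2 : ℤ_[2]) ∣ x - 1 := by
  obtain ⟨y, rfl⟩ := g2_odd_of_unit hx
  exact ⟨y, by ring⟩

theorem g2_unit_one_add (y : ℤ_[2]) : IsUnit (1 + 2 * y) := by
  rw [g2_unit_iff]
  intro h
  have h1 : (2 : ℤ_[2]) ∣ 1 := by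
    have := dvd_sub h (dvd_mul_right (2 : ℤ_[2]) y)
    simpa using this
  exact ((g2_unit_iff 1).mp isUnit_one) h1

/-- an odd number is a unit -/
theorem g2_unit_add {u : ℤ_[2]} (hu : IsUnit u) (y : ℤ_[2]) : IsUnit (u + 2 * y) := by
  obtain ⟨z, rfl⟩ := g2_odd_of_unit hu
  have := g2_unit_one_add (z + y)
  convert this using 1; ring

noncomputable abbrev g2_H : Matrix (Fin 2) (Fin 2) ℤ_[2] := g2_pl 0 1 0
noncomputable abbrev g2_A : Matrix (Fin 2) (Fin 2) ℤ_[2] := g2_pl 1 1 1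

theorem g2_pl_norm (a b c : ℤ_[2]) (hb : IsUnit b) : ∃ v, IsUnit v ∧
    g2_Eqv (g2_pl a b c) (g2_pl a 1 (c * v ^ 2)) := by
  obtain ⟨v, hv⟩ := hb.exists_right_inv
  refine ⟨v, IsUnit.of_mul_eq_one _ ((mul_comm _ _).trans hv), ?_⟩
  have := g2_pl_scale a b c (u := v) (v := b) ((mul_comm _ _).trans hv)
  rwa [hv] at this

theorem g2_pl_H (a b c : ℤ_[2]) (hb : IsUnit b) (ha : (2 : ℤ_[2]) ∣ a) :
    g2_Eqv (g2_pl a b c) g2_H := by
  obtain ⟨t, -, ht⟩ := g2_root (γ := c) ha hb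
  have h1 := g2_pl_shear a b c t
  rw [ht] at h1
  have hu : IsUnit (b + 2 * c * t) := by
    have := g2_unit_add hb (c * t)
    convert this using 1; ring
  obtain ⟨v, _, h2⟩ := g2_pl_norm 0 _ c hu
  have h3 := g2_pl_swap 0 1 (c * v ^ 2)
  have h4 := g2_pl_shear (c * v ^ 2) 1 0 (-(c * v ^ 2))
  have h5 : g2_pl (c * v ^ 2 + 1 * (-(c * v ^ 2)) + 0 * (-(c * v ^ 2)) ^ 2)
      (1 + 2 * 0 * (-(c * v ^ 2))) 0 = g2_H := by
    simp [g2_H]
  rw [h5] at h4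
  exact g2_trans h1 (g2_trans h2 (g2_trans h3 h4))

theorem g2_pl_A (a b c : ℤ_[2]) (hb : IsUnit b) (ha : IsUnit a) (hc : IsUnit c) :
    g2_Eqv (g2_pl a b c) g2_A := by
  obtain ⟨t, -, ht⟩ := g2_root (γ := c) (g2_even_sub_one ha) hb
  have h1 := g2_pl_shear a b c t
  have ht' : a + b * t + c * t ^ 2 = 1 := by linear_combination ht
  rw [ht'] at h1
  have hu : IsUnit (b + 2 * c * t) := by
    have := g2_unit_add hb (c * t)
    convert this using 1; ring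
  obtain ⟨v, hv, h2⟩ := g2_pl_norm 1 _ c hu
  have hc' : IsUnit (c * v ^ 2) := hc.mul (hv.pow 2)
  set c' := c * v ^ 2 with hc'def
  have h3 := g2_pl_swap 1 1 c'
  obtain ⟨s, -, hs⟩ := g2_root (α := c' - 1) (β := -3) (γ := -3) (g2_even_sub_one hc') (by
    have := g2_unit_one_add (-2)
    convert this using 1; ring)
  have h4 := g2_pl_shear c' 1 1 s
  have h5 := g2_pl_swap (c' + 1 * s + 1 * s ^ 2) (1 + 2 * 1 * s) 1
  have hu2 : IsUnit (1 + 2 * 1 * s) := by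
    have := g2_unit_one_add s
    convert this using 1; ring
  obtain ⟨w, hw⟩ := hu2.exists_right_inv
  have h6 := g2_pl_scale 1 (1 + 2 * 1 * s) (c' + 1 * s + 1 * s ^ 2) (u := w)
    (v := 1 + 2 * 1 * s) ((mul_comm _ _).trans hw)
  rw [hw] at h6
  have h7 : (c' + 1 * s + 1 * s ^ 2) * w ^ 2 = 1 := by
    have : c' + 1 * s + 1 * s ^ 2 = (1 + 2 * 1 * s) ^ 2 := by linear_combination hs
    rw [this, ← mul_pow, hw, one_pow]
  rw [h7] at h6
  exact g2_trans h1 (g2_trans h2 (g2_trans h3 (g2_trans h4 (g2_trans h5 h6))))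

theorem g2_pl_cases (a b c : ℤ_[2]) (hb : IsUnit b) :
    g2_Eqv (g2_pl a b c) g2_H ∨ g2_Eqv (g2_pl a b c) g2_A := by
  by_cases ha : (2 : ℤ_[2]) ∣ a
  · exact Or.inl (g2_pl_H a b c hb ha)
  · by_cases hc : (2 : ℤ_[2]) ∣ c
    · exact Or.inl (g2_trans (g2_pl_swap a b c) (g2_pl_H c b a hb hc))
    · exact Or.inr (g2_pl_A a b c hb ((g2_unit_iff a).mpr ha) ((g2_unit_iff c).mpr hc))

theorem g2_AA : ∃ T : Matrix (Fin 2) (Fin 2) ℤ_[2],
    g2_Eqv (fromBlocks g2_A 0 0 g2_A) (fromBlocks g2_H 0 0 T) := by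
  let X : Matrix (Fin 2) (Fin 2) ℤ_[2] := !![1, 0; 0, 0]
  have h1 := g2_shear g2_A g2_A X (g2_pl_symm _ _ _)
  have h2 : g2_A + Xᵀ * g2_A * X = g2_pl 2 1 1 := by
    ext i j; fin_cases i <;> fin_cases j <;>
      simp [X, g2_A, g2_pl, Matrix.mul_apply, Fin.sum_univ_two]
    norm_num
  rw [h2] at h1
  have h7 : IsUnit (7 : ℤ_[2]) := by
    have := g2_unit_one_add 3
    convert this using 1; norm_num
  obtain ⟨s, hs⟩ := h7.exists_right_inv
  have h3 := g2_schur (A := g2_pl (2 : ℤ_[2]) 1 1)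
    (A' := !![2 * s, -s; -s, 4 * s]) (Xᵀ * g2_A) g2_A (g2_pl_symm _ _ _) (by
      ext i j; fin_cases i <;> fin_cases j <;>
        simp [g2_pl, Matrix.mul_apply, Fin.sum_univ_two] <;>
        first | linear_combination hs | ring)
  have h4 := g2_pl_H 2 1 1 isUnit_one (dvd_refl _)
  exact ⟨_, g2_trans h1 (g2_trans h3 (g2_sum h4 (g2_refl _)))⟩


/-- symmetric and even -/
structure g2_Ev {ι : Type} [Fintype ι] (S : Matrix ι ι ℤ_[2]) : Prop where
  symm : Sᵀ = S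
  even : ∀ v, (2 : ℤ_[2]) ∣ v ⬝ᵥ S *ᵥ v

/-- the properties of `G` over `ℤ₂` -/
structure g2_Good {ι : Type} [Fintype ι] [DecidableEq ι] (S : Matrix ι ι ℤ_[2]) (ε : ℤ_[2]) :
    Prop extends g2_Ev S where
  odd : ∀ v, (∀ i, (2 : ℤ_[2]) ∣ (S *ᵥ v) i) → (¬ ∀ i, (2 : ℤ_[2]) ∣ v i) →
    (8 : ℤ_[2]) ∣ v ⬝ᵥ S *ᵥ v - 4
  det : ∃ u, IsUnit u ∧ S.det = 4 * ε * u ^ 2

variable {ι κ : Type} [Fintype ι] [DecidableEq ι] [Fintype κ] [DecidableEq κ]

theorem g2_Ev.eqv {S : Matrix ι ι ℤ_[2]} {T : Matrix κ κ ℤ_[2]} (hS : g2_Ev S)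
    (h : g2_Eqv S T) : g2_Ev T := by
  obtain ⟨P, Q, h1, h2, h3⟩ := h
  constructor
  · rw [← h3, Matrix.transpose_mul, Matrix.transpose_mul, hS.symm, Matrix.transpose_transpose,
      Matrix.mul_assoc]
  · intro v
    rw [← h3, g2_quad]
    exact hS.even _

omit [Fintype ι] [DecidableEq ι] [DecidableEq κ] in
theorem g2_dvd_mulVec (P : Matrix ι κ ℤ_[2]) (v : κ → ℤ_[2]) (h : ∀ i, (2 : ℤ_[2]) ∣ v i) (i : ι) :
    (2 : ℤ_[2]) ∣ (P *ᵥ v) i := by
  rw [Matrix.mulVec, dotProduct]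
  exact Finset.dvd_sum (fun j _ => dvd_mul_of_dvd_right (h j) _)

theorem g2_Good.eqv {S : Matrix ι ι ℤ_[2]} {T : Matrix κ κ ℤ_[2]} {ε : ℤ_[2]}
    (hS : g2_Good S ε) (h : g2_Eqv S T) : g2_Good T ε := by
  refine ⟨hS.tog2_Ev.eqv h, ?_, ?_⟩
  · obtain ⟨P, Q, h1, h2, h3⟩ := h
    intro v hv hne
    rw [← h3, g2_quad]
    apply hS.odd
    · have : S *ᵥ (P *ᵥ v) = Qᵀ *ᵥ (T *ᵥ v) := by
        rw [← h3, Matrix.mulVec_mulVec, Matrix.mulVec_mulVec]
        congr 1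
        rw [← Matrix.mul_assoc, ← Matrix.mul_assoc, ← Matrix.transpose_mul, h1,
          Matrix.transpose_one, Matrix.one_mul]
      rw [this]
      exact g2_dvd_mulVec _ _ hv
    · intro hPv
      apply hne
      have : v = Q *ᵥ (P *ᵥ v) := by rw [Matrix.mulVec_mulVec, h2, Matrix.one_mulVec]
      rw [this]
      exact g2_dvd_mulVec _ _ hPv
  · obtain ⟨u, hu, hdet⟩ := hS.det
    obtain ⟨w, hw, hdet'⟩ := g2_det h
    exact ⟨u * w, hu.mul hw, by rw [hdet', hdet]; ring⟩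

omit [DecidableEq ι] [DecidableEq κ] in
theorem g2_block_mulVec (A : Matrix ι ι ℤ_[2]) (D : Matrix κ κ ℤ_[2]) (v : κ → ℤ_[2]) :
    fromBlocks A 0 0 D *ᵥ (Sum.elim (0 : ι → ℤ_[2]) v) = Sum.elim (0 : ι → ℤ_[2]) (D *ᵥ v) := by
  rw [Matrix.fromBlocks_mulVec]
  simp

omit [DecidableEq ι] [DecidableEq κ] in
theorem g2_block_quad (A : Matrix ι ι ℤ_[2]) (D : Matrix κ κ ℤ_[2]) (v : κ → ℤ_[2]) :
    Sum.elim (0 : ι → ℤ_[2]) v ⬝ᵥ (fromBlocks A 0 0 D *ᵥ (Sum.elim (0 : ι → ℤ_[2]) v)) =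
      v ⬝ᵥ D *ᵥ v := by
  rw [g2_block_mulVec, sumElim_dotProduct_sumElim]
  simp

theorem g2_Ev.right {A : Matrix ι ι ℤ_[2]} {D : Matrix κ κ ℤ_[2]}
    (h : g2_Ev (fromBlocks A 0 0 D)) : g2_Ev D := by
  constructor
  · have := h.symm
    rw [fromBlocks_transpose, fromBlocks_inj] at this
    exact this.2.2.2
  · intro v
    rw [← g2_block_quad A D v]
    exact h.even _

theorem g2_Good.right {A : Matrix ι ι ℤ_[2]} {D : Matrix κ κ ℤ_[2]} {ε : ℤ_[2]}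
    (h : g2_Good (fromBlocks A 0 0 D) ε) (hA : A.det = -1) : g2_Good D (-ε) := by
  refine ⟨h.tog2_Ev.right, ?_, ?_⟩
  · intro v hv hne
    rw [← g2_block_quad A D v]
    apply h.odd
    · rw [g2_block_mulVec]
      rintro (i | i)
      · simp
      · simpa using hv i
    · intro h'
      exact hne (fun i => h' (Sum.inr i))
  · obtain ⟨u, hu, hdet⟩ := h.det
    rw [Matrix.det_fromBlocks_zero₂₁, hA] at hdet
    exact ⟨u, hu, by linear_combination -hdet⟩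

theorem g2_odd_right {A : Matrix ι ι ℤ_[2]} {D : Matrix κ κ ℤ_[2]} {ε : ℤ_[2]}
    (h : g2_Good (fromBlocks A 0 0 D) ε) :
    ∀ v, (∀ i, (2 : ℤ_[2]) ∣ (D *ᵥ v) i) → (¬ ∀ i, (2 : ℤ_[2]) ∣ v i) →
    (8 : ℤ_[2]) ∣ v ⬝ᵥ D *ᵥ v - 4 := by
  intro v hv hne
  rw [← g2_block_quad A D v]
  apply h.odd
  · rw [g2_block_mulVec]
    rintro (i | i)
    · simp
    · simpa using hv i
  · intro h'
    exact hne (fun i => h' (Sum.inr i))

theorem g2_exists_unit_entry (S : Matrix ι ι ℤ_[2]) (h : ∃ u, IsUnit u ∧ S.det = 4 * u)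
    (hcard : 3 ≤ Fintype.card ι) : ∃ i j, IsUnit (S i j) := by
  by_contra hcon
  push Not at hcon
  have h2 : ∀ i j, (2 : ℤ_[2]) ∣ S i j := by
    intro i j
    by_contra h2
    exact hcon i j ((g2_unit_iff _).mpr h2)
  choose B hB using h2
  have hSB : S = (2 : ℤ_[2]) • (Matrix.of B) := by
    ext i j
    simp [hB i j]
  obtain ⟨u, hu, hdet⟩ := h
  rw [hSB, Matrix.det_smul] at hdet
  obtain ⟨n, hn⟩ := Nat.exists_eq_add_of_le hcard
  rw [hn, pow_add] at hdet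
  have h4 : (4 : ℤ_[2]) ≠ 0 := by norm_num
  have : u = 2 * (2 ^ n * (Matrix.of B).det) := by
    apply mul_left_cancel₀ h4
    rw [← hdet]; ring
  exact (g2_unit_iff u).mp hu ⟨_, this⟩

theorem g2_split_plane (S : Matrix ι ι ℤ_[2]) (hS : g2_Ev S) (h : ∃ i j, IsUnit (S i j)) :
    ∃ (ι' : Type) (_ : Fintype ι') (_ : DecidableEq ι') (a b c : ℤ_[2])
      (S' : Matrix ι' ι' ℤ_[2]), Fintype.card ι' + 2 = Fintype.card ι ∧ IsUnit b ∧
      g2_Eqv S (fromBlocks (g2_pl a b c) 0 0 S') := by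
  obtain ⟨i, j, hij⟩ := h
  have hdiag : ∀ i, (2 : ℤ_[2]) ∣ S i i := by
    intro i
    have := hS.even (Pi.single i 1)
    simpa using this
  have hne : i ≠ j := by
    rintro rfl
    exact (g2_unit_iff _).mp hij (hdiag i)
  let p : ι → Prop := fun k => k = i ∨ k = j
  let g : Fin 2 → {k // p k} := ![⟨i, Or.inl rfl⟩, ⟨j, Or.inr rfl⟩]
  have hg : Function.Bijective g := by
    constructor
    · intro x y hxy
      fin_cases x <;> fin_cases y <;> simp_all [g, Subtype.ext_iff]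
    · rintro ⟨k, rfl | rfl⟩
      · exact ⟨0, rfl⟩
      · exact ⟨1, rfl⟩
  let f : Fin 2 ⊕ {k // ¬ p k} ≃ ι :=
    (Equiv.sumCongr (Equiv.ofBijective g hg) (Equiv.refl _)).trans (Equiv.sumCompl p)
  have hf0 : f (Sum.inl 0) = i := rfl
  have hf1 : f (Sum.inl 1) = j := rfl
  obtain ⟨a, ha⟩ := hdiag i
  obtain ⟨c, hc⟩ := hdiag j
  have hsymm : ∀ x y, S x y = S y x := fun x y => by
    conv_lhs => rw [← hS.symm]
    rfl
  have h1 := g2_reindex S f
  set S1 := S.submatrix f f with hS1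
  have hS1' : S1 = fromBlocks (g2_pl a (S i j) c) S1.toBlocks₁₂ (S1.toBlocks₁₂)ᵀ S1.toBlocks₂₂ := by
    conv_lhs => rw [← Matrix.fromBlocks_toBlocks S1]
    congr 1
    · ext x y
      fin_cases x <;> fin_cases y
      · simp [S1, Matrix.toBlocks₁₁, g2_pl, hf0, ha]
      · simp [S1, Matrix.toBlocks₁₁, g2_pl, hf0, hf1]
      · simp [S1, Matrix.toBlocks₁₁, g2_pl, hf0, hf1, hsymm j i]
      · simp [S1, Matrix.toBlocks₁₁, g2_pl, hf1, hc]
    · ext x y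
      simp [S1, Matrix.toBlocks₂₁, Matrix.toBlocks₁₂, hsymm]
  have hdu : IsUnit (4 * a * c - (S i j) ^ 2) := by
    have h1 : IsUnit (-(S i j) ^ 2) := (hij.pow 2).neg
    have := g2_unit_add h1 (2 * a * c)
    convert this using 1; ring
  obtain ⟨d, hd⟩ := hdu.exists_right_inv
  have h2 := g2_schur (A := g2_pl a (S i j) c)
    (A' := !![2 * c * d, -(S i j) * d; -(S i j) * d, 2 * a * d]) S1.toBlocks₁₂ S1.toBlocks₂₂
    (g2_pl_symm _ _ _) (by
      ext x y; fin_cases x <;> fin_cases y <;>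
        simp [g2_pl, Matrix.mul_apply, Fin.sum_univ_two] <;>
        first | linear_combination hd | ring)
  rw [← hS1'] at h2
  refine ⟨{k // ¬ p k}, inferInstance, inferInstance, a, S i j, c, _, ?_, hij, g2_trans h1 h2⟩
  have := Fintype.card_congr f
  rw [Fintype.card_sum, Fintype.card_fin] at this
  omega

theorem g2_step (S : Matrix ι ι ℤ_[2]) {ε : ℤ_[2]} (hε : IsUnit ε) (hS : g2_Good S ε)
    (hcard : 6 ≤ Fintype.card ι) :
    ∃ (ι' : Type) (_ : Fintype ι') (_ : DecidableEq ι') (S' : Matrix ι' ι' ℤ_[2]),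
      Fintype.card ι' + 2 = Fintype.card ι ∧ g2_Good S' (-ε) ∧
      g2_Eqv S (fromBlocks g2_H 0 0 S') := by
  have key : ∃ (ι' : Type) (_ : Fintype ι') (_ : DecidableEq ι') (S' : Matrix ι' ι' ℤ_[2]),
      Fintype.card ι' + 2 = Fintype.card ι ∧ g2_Eqv S (fromBlocks g2_H 0 0 S') := by
    obtain ⟨u, hu, hdet⟩ := hS.det
    obtain ⟨ι₁, _, _, a, b, c, S₁, hc1, hb, h1⟩ := g2_split_plane S hS.tog2_Ev
      (g2_exists_unit_entry S ⟨ε * u ^ 2, hε.mul (hu.pow 2), by rw [hdet]; ring⟩ (by omega))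
    rcases g2_pl_cases a b c hb with hH | hA
    · exact ⟨ι₁, inferInstance, inferInstance, S₁, hc1, g2_trans h1 (g2_sum hH (g2_refl _))⟩
    · have h2 := g2_trans h1 (g2_sum hA (g2_refl S₁))
      have hE1 : g2_Ev S₁ := (hS.tog2_Ev.eqv h2).right
      have hdet1 : ∃ u, IsUnit u ∧ S₁.det = 4 * u := by
        obtain ⟨w, hw, hwdet⟩ := (hS.eqv h2).det
        rw [Matrix.det_fromBlocks_zero₂₁, g2_pl_det] at hwdet
        have h3 : IsUnit (3 : ℤ_[2]) := by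
          have := g2_unit_one_add 1
          convert this using 1; norm_num
        obtain ⟨s, hs⟩ := h3.exists_right_inv
        refine ⟨s * (ε * w ^ 2), (IsUnit.of_mul_eq_one _ ((mul_comm _ _).trans hs)).mul
          (hε.mul (hw.pow 2)), ?_⟩
        linear_combination s * hwdet - S₁.det * hs
      obtain ⟨ι₂, _, _, a', b', c', S₂, hc2, hb', h3⟩ := g2_split_plane S₁ hE1
        (g2_exists_unit_entry S₁ hdet1 (by omega))
      have h4 := g2_trans h2 (g2_sum (g2_refl g2_A) h3)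
      rcases g2_pl_cases a' b' c' hb' with hH | hA'
      · have h5 := g2_trans h4 (g2_sum (g2_refl g2_A) (g2_sum hH (g2_refl S₂)))
        have h6 := g2_trans h5 (g2_symm (g2_sumAssoc g2_A g2_H S₂))
        have h7 := g2_trans h6 (g2_sum (g2_sumComm g2_A g2_H) (g2_refl S₂))
        have h8 := g2_trans h7 (g2_sumAssoc g2_H g2_A S₂)
        exact ⟨Fin 2 ⊕ ι₂, inferInstance, inferInstance, _, by
          rw [Fintype.card_sum, Fintype.card_fin]; omega, h8⟩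
      · obtain ⟨T, hT⟩ := g2_AA
        have h5 := g2_trans h4 (g2_sum (g2_refl g2_A) (g2_sum hA' (g2_refl S₂)))
        have h6 := g2_trans h5 (g2_symm (g2_sumAssoc g2_A g2_A S₂))
        have h7 := g2_trans h6 (g2_sum hT (g2_refl S₂))
        have h8 := g2_trans h7 (g2_sumAssoc g2_H T S₂)
        exact ⟨Fin 2 ⊕ ι₂, inferInstance, inferInstance, _, by
          rw [Fintype.card_sum, Fintype.card_fin]; omega, h8⟩
  obtain ⟨ι', i1, i2, S', hc, h⟩ := key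
  refine ⟨ι', i1, i2, S', hc, ?_, h⟩
  exact (hS.eqv h).right (by rw [g2_pl_det]; ring)


theorem g2_square_ne (u v : ℤ_[2]) (hu : IsUnit u) (hv : IsUnit v) :
    4 * u ^ 2 ≠ -12 * v ^ 2 := by
  intro h
  obtain ⟨x, rfl⟩ := g2_odd_of_unit hu
  obtain ⟨y, rfl⟩ := g2_odd_of_unit hv
  have hx : (2 : ℤ_[2]) ∣ x ^ 2 + x := by
    by_cases hx : (2 : ℤ_[2]) ∣ x
    · have := dvd_mul_of_dvd_left hx (x + 1)
      convert this using 1; ring
    · obtain ⟨z, hz⟩ := g2_odd_of_unit ((g2_unit_iff x).mpr hx)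
      exact ⟨x * (1 + z), by rw [hz]; ring⟩
  have hy : (2 : ℤ_[2]) ∣ y ^ 2 + y := by
    by_cases hy : (2 : ℤ_[2]) ∣ y
    · have := dvd_mul_of_dvd_left hy (y + 1)
      convert this using 1; ring
    · obtain ⟨z, hz⟩ := g2_odd_of_unit ((g2_unit_iff y).mpr hy)
      exact ⟨y * (1 + z), by rw [hz]; ring⟩
  obtain ⟨a, ha⟩ := hx
  obtain ⟨b, hb⟩ := hy
  have h16 : (16 : ℤ_[2]) ≠ 0 := by norm_num
  have : 1 + 2 * (a + 3 * b) = (0 : ℤ_[2]) := by
    apply mul_left_cancel₀ h16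
    linear_combination h - 16 * ha - 48 * hb
  have h1 := g2_unit_one_add (a + 3 * b)
  rw [this] at h1
  exact (g2_unit_iff 0).mp h1 (dvd_zero _)

theorem g2_base (S : Matrix ι ι ℤ_[2]) (hS : g2_Good S 1) (hcard : Fintype.card ι = 4) :
    g2_Eqv S (fromBlocks g2_A 0 0 ((2 : ℤ_[2]) • g2_A)) := by
  obtain ⟨u, hu, hdet⟩ := hS.det
  obtain ⟨ι₁, _, _, a, b, c, S₁, hc1, hb, h1⟩ := g2_split_plane S hS.tog2_Ev
    (g2_exists_unit_entry S ⟨u ^ 2, hu.pow 2, by rw [hdet]; ring⟩ (by omega))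
  have hc2 : Fintype.card (Fin 2) = Fintype.card ι₁ := by
    rw [Fintype.card_fin]; omega
  have h2 := g2_trans h1 (g2_sum (g2_refl _) (g2_reindex S₁ (Fintype.equivOfCardEq hc2)))
  set S₂ := S₁.submatrix (Fintype.equivOfCardEq hc2) (Fintype.equivOfCardEq hc2) with hS₂
  have hG := hS.eqv h2
  have hE := hG.tog2_Ev.right
  have hodd := g2_odd_right hG
  obtain ⟨p, hp⟩ : (2 : ℤ_[2]) ∣ S₂ 0 0 := by
    have := hE.even (Pi.single 0 1)
    simpa using this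
  obtain ⟨r, hr⟩ : (2 : ℤ_[2]) ∣ S₂ 1 1 := by
    have := hE.even (Pi.single 1 1)
    simpa using this
  have hs10 : S₂ 1 0 = S₂ 0 1 := by
    conv_lhs => rw [← hE.symm]
    rfl
  obtain ⟨w, hw, hwdet⟩ := hG.det
  have hdu : IsUnit (4 * a * c - b ^ 2) := by
    have h1 : IsUnit (-b ^ 2) := (hb.pow 2).neg
    have := g2_unit_add h1 (2 * a * c)
    convert this using 1; ring
  rw [Matrix.det_fromBlocks_zero₂₁, g2_pl_det, Matrix.det_fin_two, hp, hr, hs10] at hwdet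
  obtain ⟨q, hq⟩ : (2 : ℤ_[2]) ∣ S₂ 0 1 := by
    by_contra hq
    have hq' := (g2_unit_iff _).mpr hq
    have h3 : IsUnit (2 * p * (2 * r) - S₂ 0 1 * S₂ 0 1) := by
      have h1 : IsUnit (-(S₂ 0 1) ^ 2) := (hq'.pow 2).neg
      have := g2_unit_add h1 (2 * p * r)
      convert this using 1; ring
    have h4 := hdu.mul h3
    rw [hwdet] at h4
    exact (g2_unit_iff _).mp h4 ⟨2 * w ^ 2, by ring⟩
  have hmv : ∀ (x y : ℤ_[2]), S₂ *ᵥ ![x, y] = ![2 * p * x + 2 * q * y, 2 * q * x + 2 * r * y] := by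
    intro x y
    ext i
    fin_cases i
    · simp [Matrix.mulVec, dotProduct, Fin.sum_univ_two, hp, hq]
    · simp [Matrix.mulVec, dotProduct, Fin.sum_univ_two, hs10, hq, hr]
  have hdv : ∀ (x y : ℤ_[2]), ¬ ((2 : ℤ_[2]) ∣ x ∧ (2 : ℤ_[2]) ∣ y) →
      (8 : ℤ_[2]) ∣ 2 * p * x ^ 2 + 4 * q * x * y + 2 * r * y ^ 2 - 4 := by
    intro x y hxy
    have := hodd ![x, y] (by
      rw [hmv]
      intro i
      fin_cases i
      · exact ⟨p * x + q * y, by simp; ring⟩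
      · exact ⟨q * x + r * y, by simp; ring⟩) (by
      intro h
      exact hxy ⟨h 0, h 1⟩)
    rw [hmv] at this
    simp only [dotProduct, Fin.sum_univ_two, Matrix.cons_val_zero, Matrix.cons_val_one] at this
    convert this using 1; ring
  have n1 : ¬ (2 : ℤ_[2]) ∣ 1 := (g2_unit_iff 1).mp isUnit_one
  obtain ⟨k1, hk1⟩ := hdv 1 0 (fun h => n1 h.1)
  obtain ⟨k2, hk2⟩ := hdv 0 1 (fun h => n1 h.2)
  obtain ⟨k3, hk3⟩ := hdv 1 1 (fun h => n1 h.2)
  have h2ne : (2 : ℤ_[2]) ≠ 0 := by norm_num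
  have h4ne : (4 : ℤ_[2]) ≠ 0 := by norm_num
  have hp' : p = 2 * (1 + 2 * k1) := by
    apply mul_left_cancel₀ h2ne; linear_combination hk1
  have hr' : r = 2 * (1 + 2 * k2) := by
    apply mul_left_cancel₀ h2ne; linear_combination hk2
  have hq' : q = 1 + 2 * (k3 - k1 - k2 - 1) := by
    apply mul_left_cancel₀ h4ne
    linear_combination hk3 - 2 * hp' - 2 * hr'
  have hS₂' : S₂ = (2 : ℤ_[2]) • g2_pl (1 + 2 * k1) q (1 + 2 * k2) := by
    ext i j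
    fin_cases i <;> fin_cases j
    · simp [g2_pl, hp, hp']
    · simp [g2_pl, hq]
    · simp [g2_pl, hs10, hq]
    · simp [g2_pl, hr, hr']
  have h3 : g2_Eqv S₂ ((2 : ℤ_[2]) • g2_A) := by
    rw [hS₂']
    obtain ⟨P, Q, e1, e2, e3⟩ := g2_pl_A (1 + 2 * k1) q (1 + 2 * k2)
      (by rw [hq']; exact g2_unit_one_add _) (g2_unit_one_add _) (g2_unit_one_add _)
    exact ⟨P, Q, e1, e2, by rw [← e3, Matrix.mul_smul, Matrix.smul_mul]⟩
  have h4 := g2_trans h2 (g2_sum (g2_refl _) h3)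
  rcases g2_pl_cases a b c hb with hH | hA
  · exfalso
    have h5 := g2_trans h4 (g2_sum hH (g2_refl _))
    obtain ⟨v, hv, hvdet⟩ := (hS.eqv h5).det
    rw [Matrix.det_fromBlocks_zero₂₁, Matrix.det_smul, g2_pl_det, g2_pl_det,
      Fintype.card_fin] at hvdet
    refine g2_square_ne v 1 hv isUnit_one ?_
    linear_combination -hvdet
  · exact g2_trans h4 (g2_sum hA (g2_refl _))

theorem g2_main (m : ℕ) : ∀ (ι κ : Type) [Fintype ι] [DecidableEq ι] [Fintype κ] [DecidableEq κ]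
    (S : Matrix ι ι ℤ_[2]) (T : Matrix κ κ ℤ_[2]), Fintype.card ι = 2 * m + 4 →
    Fintype.card κ = 2 * m + 4 → g2_Good S ((-1) ^ m) → g2_Good T ((-1) ^ m) → g2_Eqv S T := by
  induction m with
  | zero =>
    intro ι κ _ _ _ _ S T hι hκ hS hT
    rw [pow_zero] at hS hT
    exact g2_trans (g2_base S hS (by omega)) (g2_symm (g2_base T hT (by omega)))
  | succ m ih =>
    intro ι κ _ _ _ _ S T hι hκ hS hT
    have hε : IsUnit ((-1 : ℤ_[2]) ^ (m + 1)) := (isUnit_one.neg).pow _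
    obtain ⟨ι', _, _, S', hc, hS', hSS'⟩ := g2_step S hε hS (by omega)
    obtain ⟨κ', _, _, T', hc', hT', hTT'⟩ := g2_step T hε hT (by omega)
    have he : -(-1 : ℤ_[2]) ^ (m + 1) = (-1) ^ m := by rw [pow_succ]; ring
    rw [he] at hS' hT'
    exact g2_trans hSS' (g2_trans (g2_sum (g2_refl _) (ih ι' κ' S' T' (by omega) (by omega) hS' hT'))
      (g2_symm hTT'))

end g2_two

section g2_int

variable {ι κ : Type} [Fintype ι] [DecidableEq ι] [Fintype κ] [DecidableEq κ]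

/-- the integral version of the hypotheses -/
structure g2_IGood (A : Matrix ι ι ℤ) : Prop where
  symm : Aᵀ = A
  even : ∀ v : ι → ℤ, 2 ∣ v ⬝ᵥ A *ᵥ v
  odd : ∀ v : ι → ℤ, (∀ i, 2 ∣ (A *ᵥ v) i) → (¬ ∀ i, 2 ∣ v i) → 8 ∣ v ⬝ᵥ A *ᵥ v - 4
  det : A.det = 4

theorem g2_two_dvd_int (n : ℤ) : (2 : ℤ_[2]) ∣ (n : ℤ_[2]) ↔ (2 : ℤ) ∣ n := by
  have h1 := PadicInt.norm_int_lt_one_iff_dvd (p := 2) n
  rw [PadicInt.norm_lt_one_iff_dvd] at h1
  exact_mod_cast h1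

omit [Fintype ι] [DecidableEq ι] in
theorem g2_approx (v : ι → ℤ_[2]) :
    ∃ (v₀ : ι → ℤ) (w : ι → ℤ_[2]), v = (fun i => (v₀ i : ℤ_[2])) + (8 : ℤ_[2]) • w := by
  have h : ∀ i, ∃ (n : ℤ) (w : ℤ_[2]), v i = n + 8 * w := by
    intro i
    have := PadicInt.appr_spec 3 (v i)
    rw [Ideal.mem_span_singleton] at this
    obtain ⟨w, hw⟩ := this
    refine ⟨((v i).appr 3 : ℕ), w, ?_⟩
    push_cast
    have h8 : ((2 : ℕ) : ℤ_[2]) ^ 3 = 8 := by norm_num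
    rw [h8] at hw
    linear_combination hw
  choose v₀ w hw using h
  exact ⟨v₀, w, by funext i; simp [hw i]⟩

theorem g2_good_of_int {A : Matrix ι ι ℤ} (hA : g2_IGood A) :
    g2_Good (A.map (Int.cast : ℤ → ℤ_[2])) 1 := by
  have hsym : (A.map (Int.cast : ℤ → ℤ_[2]))ᵀ = A.map (Int.cast : ℤ → ℤ_[2]) := by
    rw [← Matrix.transpose_map, hA.symm]
  have hmv : ∀ v₀ : ι → ℤ, (A.map (Int.cast : ℤ → ℤ_[2])) *ᵥ (fun i => (v₀ i : ℤ_[2])) =
      fun i => (((A *ᵥ v₀) i : ℤ) : ℤ_[2]) := by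
    intro v₀
    funext i
    exact (RingHom.map_mulVec (Int.castRingHom ℤ_[2]) A v₀ i).symm
  have hq : ∀ v₀ : ι → ℤ, (fun i => (v₀ i : ℤ_[2])) ⬝ᵥ
      (A.map (Int.cast : ℤ → ℤ_[2])) *ᵥ (fun i => (v₀ i : ℤ_[2])) =
      ((v₀ ⬝ᵥ A *ᵥ v₀ : ℤ) : ℤ_[2]) := by
    intro v₀
    rw [hmv]
    exact (RingHom.map_dotProduct (Int.castRingHom ℤ_[2]) v₀ (A *ᵥ v₀)).symm
  have hquad : ∀ (v₀ : ι → ℤ) (w : ι → ℤ_[2]), ∃ z : ℤ_[2],
      ((fun i => (v₀ i : ℤ_[2])) + (8 : ℤ_[2]) • w) ⬝ᵥ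
      (A.map (Int.cast : ℤ → ℤ_[2])) *ᵥ ((fun i => (v₀ i : ℤ_[2])) + (8 : ℤ_[2]) • w) =
      ((v₀ ⬝ᵥ A *ᵥ v₀ : ℤ) : ℤ_[2]) + 8 * z := by
    intro v₀ w
    refine ⟨(fun i => (v₀ i : ℤ_[2])) ⬝ᵥ (A.map (Int.cast : ℤ → ℤ_[2])) *ᵥ w +
      w ⬝ᵥ (A.map (Int.cast : ℤ → ℤ_[2])) *ᵥ (fun i => (v₀ i : ℤ_[2])) +
      8 * (w ⬝ᵥ (A.map (Int.cast : ℤ → ℤ_[2])) *ᵥ w), ?_⟩
    rw [Matrix.mulVec_add, Matrix.mulVec_smul, add_dotProduct, dotProduct_add, dotProduct_add,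
      dotProduct_smul, dotProduct_smul, smul_dotProduct, smul_dotProduct, hq]
    simp only [smul_eq_mul]
    ring
  refine ⟨⟨hsym, ?_⟩, ?_, ?_⟩
  · intro v
    obtain ⟨v₀, w, rfl⟩ := g2_approx v
    obtain ⟨z, hz⟩ := hquad v₀ w
    rw [hz]
    refine dvd_add ((g2_two_dvd_int _).mpr (hA.even v₀)) ⟨4 * z, by ring⟩
  · intro v hv hne
    obtain ⟨v₀, w, rfl⟩ := g2_approx v
    obtain ⟨z, hz⟩ := hquad v₀ w
    rw [hz]
    have h1 : ∀ i, 2 ∣ (A *ᵥ v₀) i := by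
      intro i
      rw [← g2_two_dvd_int]
      have h2 := hv i
      rw [Matrix.mulVec_add, Matrix.mulVec_smul, hmv] at h2
      simp only [Pi.add_apply, Pi.smul_apply, smul_eq_mul] at h2
      have h3 : (2 : ℤ_[2]) ∣ 8 * ((A.map (Int.cast : ℤ → ℤ_[2])) *ᵥ w) i :=
        ⟨4 * ((A.map (Int.cast : ℤ → ℤ_[2])) *ᵥ w) i, by ring⟩
      exact (dvd_add_left h3).mp h2
    have h2 : ¬ ∀ i, 2 ∣ v₀ i := by
      intro h
      apply hne
      intro i
      simp only [Pi.add_apply, Pi.smul_apply, smul_eq_mul]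
      exact dvd_add ((g2_two_dvd_int _).mpr (h i)) ⟨4 * w i, by ring⟩
    obtain ⟨m, hm⟩ := hA.odd v₀ h1 h2
    refine ⟨m + z, ?_⟩
    have : (v₀ ⬝ᵥ A *ᵥ v₀ : ℤ) = 8 * m + 4 := by linarith
    rw [this]
    push_cast
    ring
  · refine ⟨1, isUnit_one, ?_⟩
    have h1 := RingHom.map_det (Int.castRingHom ℤ_[2]) A
    rw [hA.det] at h1
    have h2 : (Int.castRingHom ℤ_[2]).mapMatrix A = A.map (Int.cast : ℤ → ℤ_[2]) := rfl
    rw [h2] at h1
    rw [← h1]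
    simp

theorem g2_equiv_of_int (A : Matrix ι ι ℤ) (B : Matrix κ κ ℤ) (hA : g2_IGood A)
    (hB : g2_IGood B) (h1 : Fintype.card ι = 20) (h2 : Fintype.card κ = 20) :
    EquivOver ℤ_[2] A B := by
  have hA' := g2_good_of_int hA
  have hB' := g2_good_of_int hB
  have he : (-1 : ℤ_[2]) ^ 8 = 1 := by norm_num
  have := g2_main 8 ι κ (A.map (Int.cast : ℤ → ℤ_[2])) (B.map (Int.cast : ℤ → ℤ_[2]))
    (by omega) (by omega) (by rw [he]; exact hA') (by rw [he]; exact hB')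
  exact this

theorem g2_even_form {n : ℕ} (S : Matrix (Fin n) (Fin n) ℤ) (hS : Sᵀ = S)
    (hd : ∀ i, 2 ∣ S i i) (v : Fin n → ℤ) : 2 ∣ v ⬝ᵥ S *ᵥ v := by
  let U : Matrix (Fin n) (Fin n) ℤ :=
    Matrix.of fun i j => if i < j then S i j else if i = j then S i i / 2 else 0
  have hU : S = U + Uᵀ := by
    ext i j
    simp only [U, Matrix.add_apply, Matrix.of_apply, Matrix.transpose_apply]
    rcases lt_trichotomy i j with h | h | h
    · simp [h, h.ne', not_lt.mpr h.le]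
    · subst h
      simp only [lt_irrefl, if_false, if_true]
      have := Int.ediv_mul_cancel (hd i)
      linarith
    · have := congrFun (congrFun hS i) j
      rw [Matrix.transpose_apply] at this
      simp [h, h.ne', not_lt.mpr h.le, this]
  refine ⟨v ⬝ᵥ U *ᵥ v, ?_⟩
  conv_lhs => rw [hU]
  rw [Matrix.add_mulVec, dotProduct_add, Matrix.mulVec_transpose, dotProduct_comm v (v ᵥ* U),
    ← Matrix.dotProduct_mulVec]
  ring

theorem g2_E8_even (v : Fin 8 → ℤ) : 2 ∣ v ⬝ᵥ CartanMatrix.E₈ *ᵥ v :=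
  g2_even_form _ CartanMatrix.E₈_transpose (fun i => by rw [CartanMatrix.E₈_diag]) v

theorem g2_E8_odd (v : Fin 8 → ℤ) (h : ∀ i, 2 ∣ (CartanMatrix.E₈ *ᵥ v) i) :
    (∀ i, 2 ∣ v i) ∧ 8 ∣ v ⬝ᵥ CartanMatrix.E₈ *ᵥ v := by
  have h1 : ∀ i, 2 ∣ v i := by
    intro i
    have h2 : v = CartanMatrix.E₈.adjugate *ᵥ (CartanMatrix.E₈ *ᵥ v) := by
      rw [Matrix.mulVec_mulVec, Matrix.adjugate_mul, CartanMatrix.E₈_det, one_smul,
        Matrix.one_mulVec]
    rw [h2, Matrix.mulVec, dotProduct]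
    exact Finset.dvd_sum (fun j _ => dvd_mul_of_dvd_right (h j) _)
  refine ⟨h1, ?_⟩
  choose w hw using h1
  have hv : v = (2 : ℤ) • w := by funext i; simp [hw i]
  obtain ⟨k, hk⟩ := g2_E8_even w
  rw [hv, Matrix.mulVec_smul, dotProduct_smul, smul_dotProduct, hk]
  exact ⟨k, by simp only [smul_eq_mul]; ring⟩

theorem g2_D4_eq : CartanMatrix.D 4 =
    !![2, -1, 0, 0; -1, 2, -1, -1; 0, -1, 2, 0; 0, -1, 0, 2] := by decide

theorem g2_D4_mulVec (v : Fin 4 → ℤ) : CartanMatrix.D 4 *ᵥ v =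
    ![2 * v 0 - v 1, -v 0 + 2 * v 1 - v 2 - v 3, -v 1 + 2 * v 2, -v 1 + 2 * v 3] := by
  rw [g2_D4_eq]
  ext i
  fin_cases i <;> simp [Matrix.mulVec, dotProduct, Fin.sum_univ_four] <;> ring

theorem g2_D4_quad (v : Fin 4 → ℤ) : v ⬝ᵥ CartanMatrix.D 4 *ᵥ v =
    2 * (v 0 ^ 2 + v 1 ^ 2 + v 2 ^ 2 + v 3 ^ 2 - v 1 * (v 0 + v 2 + v 3)) := by
  rw [g2_D4_mulVec]
  simp [dotProduct, Fin.sum_univ_four]
  ring

theorem g2_D4_odd (v : Fin 4 → ℤ) (h : ∀ i, 2 ∣ (CartanMatrix.D 4 *ᵥ v) i)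
    (hne : ¬ ∀ i, 2 ∣ v i) : 8 ∣ v ⬝ᵥ CartanMatrix.D 4 *ᵥ v - 4 := by
  rw [g2_D4_mulVec] at h
  have h0 : 2 ∣ 2 * v 0 - v 1 := h 0
  have h1 : 2 ∣ -v 0 + 2 * v 1 - v 2 - v 3 := h 1
  obtain ⟨x, hx⟩ : 2 ∣ v 1 := by omega
  obtain ⟨y, hy⟩ : 2 ∣ v 0 + v 2 + v 3 := by omega
  have hv3 : v 3 = 2 * y - v 0 - v 2 := by linarith
  have hpar : ¬ (2 ∣ v 0 ∧ 2 ∣ v 2) := by
    rintro ⟨ha, hb⟩
    apply hne
    intro i
    fin_cases i
    · exact ha
    · exact ⟨x, hx⟩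
    · exact hb
    · show 2 ∣ v 3
      omega
  obtain ⟨k, hk⟩ : 2 ∣ v 0 ^ 2 + v 0 * v 2 + v 2 ^ 2 - 1 := by
    have key : ∀ a b : ZMod 2, ¬ (a = 0 ∧ b = 0) → a ^ 2 + a * b + b ^ 2 - 1 = 0 := by decide
    have := key (v 0 : ZMod 2) (v 2 : ZMod 2) (by
      rintro ⟨ha, hb⟩
      exact hpar ⟨by exact_mod_cast (ZMod.intCast_zmod_eq_zero_iff_dvd _ 2).mp ha,
        by exact_mod_cast (ZMod.intCast_zmod_eq_zero_iff_dvd _ 2).mp hb⟩)
    have h2 := (ZMod.intCast_zmod_eq_zero_iff_dvd (v 0 ^ 2 + v 0 * v 2 + v 2 ^ 2 - 1) 2).mp (by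
      push_cast; exact this)
    exact_mod_cast h2
  rw [g2_D4_quad, hy, hx, hv3]
  refine ⟨k + x ^ 2 - x * y + y ^ 2 - y * (v 0 + v 2), ?_⟩
  linear_combination 4 * hk

theorem g2_D4_even (v : Fin 4 → ℤ) : 2 ∣ v ⬝ᵥ CartanMatrix.D 4 *ᵥ v := by
  rw [g2_D4_quad]; exact dvd_mul_right _ _

theorem g2_D4_det : (CartanMatrix.D 4).det = 4 := by
  rw [g2_D4_eq]
  simp [Matrix.det_succ_row_zero, Fin.sum_univ_succ, Fin.succAbove]

omit [DecidableEq ι] [DecidableEq κ] in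
theorem g2_sum_quad (A : Matrix ι ι ℤ) (D : Matrix κ κ ℤ) (a : ι → ℤ) (b : κ → ℤ) :
    Sum.elim a b ⬝ᵥ (fromBlocks A 0 0 D *ᵥ (Sum.elim a b)) = a ⬝ᵥ A *ᵥ a + b ⬝ᵥ D *ᵥ b := by
  rw [Matrix.fromBlocks_mulVec, sumElim_dotProduct_sumElim]
  simp

theorem g2_igood_gram : g2_IGood gramE8E8D4 := by
  have hmv : ∀ a b c, gramE8E8D4 *ᵥ (Sum.elim (Sum.elim a b) c) =
      Sum.elim (Sum.elim (CartanMatrix.E₈ *ᵥ a) (CartanMatrix.E₈ *ᵥ b))
        (CartanMatrix.D 4 *ᵥ c) := by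
    intro a b c
    unfold gramE8E8D4
    rw [Matrix.fromBlocks_mulVec]
    simp [Matrix.fromBlocks_mulVec]
  have hq : ∀ a b c, Sum.elim (Sum.elim a b) c ⬝ᵥ gramE8E8D4 *ᵥ (Sum.elim (Sum.elim a b) c) =
      a ⬝ᵥ CartanMatrix.E₈ *ᵥ a + b ⬝ᵥ CartanMatrix.E₈ *ᵥ b + c ⬝ᵥ CartanMatrix.D 4 *ᵥ c := by
    intro a b c
    unfold gramE8E8D4
    rw [g2_sum_quad, g2_sum_quad]
  have hdec : ∀ v : (Fin 8 ⊕ Fin 8) ⊕ Fin 4 → ℤ, ∃ a b c, v = Sum.elim (Sum.elim a b) c := by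
    intro v
    refine ⟨fun i => v (Sum.inl (Sum.inl i)), fun i => v (Sum.inl (Sum.inr i)),
      fun i => v (Sum.inr i), ?_⟩
    funext i
    rcases i with (i | i) | i <;> rfl
  refine ⟨?_, ?_, ?_, ?_⟩
  · unfold gramE8E8D4
    simp only [fromBlocks_transpose, CartanMatrix.E₈_transpose, Matrix.transpose_zero]
    congr 1
    rw [g2_D4_eq]
    decide
  · intro v
    obtain ⟨a, b, c, rfl⟩ := hdec v
    rw [hq]
    exact dvd_add (dvd_add (g2_E8_even a) (g2_E8_even b)) (g2_D4_even c)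
  · intro v hv hne
    obtain ⟨a, b, c, rfl⟩ := hdec v
    rw [hmv] at hv
    have ha := g2_E8_odd a (fun i => hv (Sum.inl (Sum.inl i)))
    have hb := g2_E8_odd b (fun i => hv (Sum.inl (Sum.inr i)))
    have hc := g2_D4_odd c (fun i => hv (Sum.inr i)) (by
      intro h
      apply hne
      rintro ((i | i) | i)
      · exact ha.1 i
      · exact hb.1 i
      · exact h i)
    rw [hq]
    rw [add_sub_assoc]
    exact dvd_add (dvd_add ha.2 hb.2) hc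
  · unfold gramE8E8D4
    rw [Matrix.det_fromBlocks_zero₂₁, Matrix.det_fromBlocks_zero₂₁, CartanMatrix.E₈_det,
      g2_D4_det]
    norm_num

end g2_int

variable {G : Matrix (Fin 20) (Fin 20) ℤ}

theorem equiv_two (hG : EvenPos G) (hcard : Nat.card (Disc G) = 4)
    (hodd : ∀ p : VZ, (¬ ∃ v : VZ, G *ᵥ v = p) → ∃ k : ℤ, qd G p = 2 * k + 1) :
    EquivOver ℤ_[2] G gramE8E8D4 := by
  have hdet : G.det = 4 := by rw [← card_disc hG, hcard]; rfl
  refine g2_equiv_of_int G gramE8E8D4 ⟨hG.symm, ?_, ?_, hdet⟩ g2_igood_gram (by simp) (by simp)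
  · exact g2_even_form G hG.symm (fun i => (hG.even i).two_dvd)
  · intro v hv hne
    choose p hp using hv
    have hnot : ¬ ∃ w : VZ, G *ᵥ w = p := by
      rintro ⟨w, hw⟩
      apply hne
      have h1 : G *ᵥ (v - (2 : ℤ) • w) = 0 := by
        rw [Matrix.mulVec_sub, Matrix.mulVec_smul, hw]
        funext i
        simp [hp i]
      have h2 := Matrix.eq_zero_of_mulVec_eq_zero (by rw [hdet]; norm_num) h1
      intro i
      have := congrFun h2 i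
      simp only [Pi.sub_apply, Pi.smul_apply, smul_eq_mul, Pi.zero_apply] at this
      exact ⟨w i, by linarith⟩
    obtain ⟨k, hk⟩ := hodd p hnot
    have h3 : qd G (G *ᵥ v) = 4 * qd G p := by
      have h4 : G *ᵥ v = fun i => 2 * p i := funext hp
      rw [h4]
      unfold qd
      rw [Finset.mul_sum]
      refine Finset.sum_congr rfl (fun i _ => ?_)
      rw [Finset.mul_sum]
      refine Finset.sum_congr rfl (fun j _ => ?_)
      push_cast
      ring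
    rw [qd_mulVec hG, hk] at h3
    have h5 : bil G v v = 8 * k + 4 := by
      have : ((bil G v v : ℤ) : ℝ) = ((8 * k + 4 : ℤ) : ℝ) := by
        rw [h3]; push_cast; ring
      exact_mod_cast this
    have h6 : bil G v v = v ⬝ᵥ G *ᵥ v := by
      unfold bil
      simp only [dotProduct, Matrix.mulVec, Int.cast_id, Finset.mul_sum]
      refine Finset.sum_congr rfl (fun i _ => Finset.sum_congr rfl (fun j _ => ?_))
      ring
    rw [← h6, h5]
    exact ⟨k, by ring⟩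

end Pool.Agent.Refl
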