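import Pool.Agent.Refl.Fourier

/-! Module KOECHER: support of the Fourier expansion. -/

namespace Pool.Agent.Refl
open Matrix

variable {G : Matrix (Fin 20) (Fin 20) ℤ}

lemma koecher_bil_add {R : Type*} [CommRing R] (x y w : Fin 20 → R) :
    bil G (x + y) w = bil G x w + bil G y w := by
  unfold bil
  rw [← Finset.sum_add_distrib]
  refine Finset.sum_congr rfl fun i _ => ?_
  rw [← Finset.sum_add_distrib]
  refine Finset.sum_congr rfl fun j _ => ?_
  rw [Pi.add_apply]
  ring

lemma koecher_bil_smul {R : Type*} [CommRing R] (c : R) (x w : Fin 20 → R) :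
    bil G (c • x) w = c * bil G x w := by
  unfold bil
  rw [Finset.mul_sum]
  refine Finset.sum_congr rfl fun i _ => ?_
  rw [Finset.mul_sum]
  refine Finset.sum_congr rfl fun j _ => ?_
  rw [Pi.smul_apply, smul_eq_mul]
  ring

lemma koecher_bil_smul_right {R : Type*} [CommRing R] (c : R) (x w : Fin 20 → R) :
    bil G x (c • w) = c * bil G x w := by
  unfold bil
  rw [Finset.mul_sum]
  refine Finset.sum_congr rfl fun i _ => ?_
  rw [Finset.mul_sum]
  refine Finset.sum_congr rfl fun j _ => ?_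
  rw [Pi.smul_apply, smul_eq_mul]
  ring

lemma koecher_bil_zero {R : Type*} [CommRing R] (w : Fin 20 → R) :
    bil G (0 : Fin 20 → R) w = 0 := by
  unfold bil
  simp

lemma koecher_im_bil (z : VC) (v : VZ) :
    (bil G z (toC v)).im = bil G (imC z) (toR v) := by
  unfold bil toC imC toR
  rw [Complex.im_sum]
  refine Finset.sum_congr rfl fun i _ => ?_
  rw [Complex.im_sum]
  refine Finset.sum_congr rfl fun j _ => ?_
  simp [Complex.mul_im, Complex.mul_re]

lemma koecher_bil_toR (v w : VZ) : bil G (toR v) (toR w) = ((bil G v w : ℤ) : ℝ) := by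
  unfold bil toR
  push_cast
  rfl

lemma koecher_im_dot (p : VZ) (z : VC) : (dot p z).im = dot p (imC z) := by
  unfold dot imC
  rw [Complex.im_sum]
  refine Finset.sum_congr rfl fun i _ => ?_
  simp [Complex.mul_im]

lemma koecher_dot_add (p : VZ) (x y : VR) : dot p (x + y) = dot p x + dot p y := by
  unfold dot
  rw [← Finset.sum_add_distrib]
  refine Finset.sum_congr rfl fun i _ => ?_
  rw [Pi.add_apply]
  ring

lemma koecher_dot_smul (p : VZ) (c : ℝ) (x : VR) : dot p (c • x) = c * dot p x := by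
  unfold dot
  rw [Finset.mul_sum]
  refine Finset.sum_congr rfl fun i _ => ?_
  rw [Pi.smul_apply, smul_eq_mul]
  ring

lemma koecher_dot_toR (p v : VZ) : dot p (toR v) = ((p ⬝ᵥ v : ℤ) : ℝ) := by
  unfold dot toR dotProduct
  push_cast
  rfl

lemma koecher_bil_single (i : Fin 20) : bil G (Pi.single i 1 : VZ) (Pi.single i 1) = G i i := by
  unfold bil
  rw [Finset.sum_eq_single i, Finset.sum_eq_single i]
  · simp
  · intro j _ hj
    simp [hj]
  · simp
  · intro j _ hj
    simp [hj]
  · simp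

lemma koecher_dot_single (p : VZ) (i : Fin 20) : p ⬝ᵥ (Pi.single i 1 : VZ) = p i := by
  simp

lemma koecher_pos_int (hG : EvenPos G) {v : VZ} (hv : v ≠ 0) : 0 < bil G v v := by
  have h : toR v ≠ 0 := by
    intro h
    apply hv
    funext i
    have := congrFun h i
    simpa [toR] using this
  have := bil_pos hG h
  rw [koecher_bil_toR] at this
  exact_mod_cast this

lemma koecher_nonneg_int (hG : EvenPos G) (v : VZ) : 0 ≤ bil G v v := by
  have := bil_nonneg hG (toR v)
  rw [koecher_bil_toR] at this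
  exact_mod_cast this

/-- If the support condition fails there is a rational isotropic vector in the forward cone on
which the exponent is negative. -/
lemma koecher_exists_vec (hG : EvenPos G) (n m : ℤ) (p : VZ)
    (h : ¬ (0 ≤ n ∧ 0 ≤ m ∧ qd G p ≤ 2 * n * m)) :
    ∃ (v : VZ) (N : ℤ), 0 < N ∧ 2 * (n * N ^ 2) + 2 * (N * (p ⬝ᵥ v)) + m * bil G v v < 0 := by
  rcases lt_trichotomy m 0 with hm | hm | hm
  · -- `m < 0`
    set g := G 0 0 with hg
    have hg2 : 1 ≤ g := by
      have h1 := koecher_pos_int hG (v := Pi.single 0 1) (by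
        intro h0
        have := congrFun h0 0
        simp at this)
      rw [koecher_bil_single] at h1
      omega
    obtain ⟨g', hg'⟩ := hG.even 0
    set t : ℤ := |n| + |p 0| + 1 with ht
    have hn := neg_abs_le n
    have hn' := le_abs_self n
    have hn0 := abs_nonneg n
    have hp0 := abs_nonneg (p 0)
    have hg'1 : 1 ≤ g' := by omega
    have ht1 : 1 ≤ t := by omega
    obtain ⟨s, hs, hsp⟩ : ∃ s : ℤ, s ^ 2 = t ^ 2 ∧ s * p 0 ≤ t * |p 0| := by
      exact ⟨t, rfl, mul_le_mul_of_nonneg_left (le_abs_self _) (by omega)⟩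
    refine ⟨s • (Pi.single 0 1 : VZ), 1, one_pos, ?_⟩
    have e1 : p ⬝ᵥ (s • (Pi.single 0 1 : VZ)) = s * p 0 := by
      rw [dotProduct_smul, koecher_dot_single, smul_eq_mul]
    have e2 : bil G (s • (Pi.single 0 1 : VZ)) (s • (Pi.single 0 1 : VZ)) = t ^ 2 * (2 * g') := by
      have hgg : G 0 0 = g' + g' := hg'
      rw [koecher_bil_smul, koecher_bil_smul_right, koecher_bil_single, hgg, ← hs]
      ring
    rw [e1, e2]
    have h3 : m * (t ^ 2 * (2 * g')) ≤ -1 * (t ^ 2 * (2 * 1)) := by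
      have h4 : 0 ≤ t ^ 2 * (2 * g') := by positivity
      have h5 : t ^ 2 * (2 * 1) ≤ t ^ 2 * (2 * g') :=
        mul_le_mul_of_nonneg_left (by omega) (by positivity)
      have h6 : m * (t ^ 2 * (2 * g')) ≤ (-1) * (t ^ 2 * (2 * g')) :=
        mul_le_mul_of_nonneg_right (by omega) h4
      linarith
    have h7 : t ^ 2 = t * |n| + t * |p 0| + t := by
      rw [ht]
      ring
    have h8 : |n| ≤ t * |n| := by nlinarith
    nlinarith
  · -- `m = 0`
    subst hm
    by_cases hp : p = 0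
    · subst hp
      have h0 : qd G 0 = 0 := by
        unfold qd
        simp
      refine ⟨0, 1, one_pos, ?_⟩
      have hn : n < 0 := by
        by_contra hn
        apply h
        refine ⟨by omega, le_refl _, ?_⟩
        rw [h0]
        simp
      simp only [zero_dotProduct, mul_zero, zero_mul, add_zero]
      nlinarith
    · refine ⟨-(|n| + 1) • p, 1, one_pos, ?_⟩
      have h1 : 1 ≤ p ⬝ᵥ p := by
        have h2 : 0 < p ⬝ᵥ p := by
          obtain ⟨i, hi⟩ : ∃ i, p i ≠ 0 := by
            by_contra hcon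
            push Not at hcon
            exact hp (funext hcon)
          unfold dotProduct
          apply Finset.sum_pos' (fun j _ => mul_self_nonneg _)
          exact ⟨i, Finset.mem_univ _, mul_self_pos.2 hi⟩
        omega
      rw [dotProduct_smul, smul_eq_mul]
      have hn' := le_abs_self n
      have hn0 := abs_nonneg n
      nlinarith
  · -- `m > 0`
    have hq : 2 * (n : ℝ) * m < qd G p := by
      by_contra hcon
      apply h
      have hcon' := not_lt.1 hcon
      refine ⟨?_, hm.le, hcon'⟩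
      by_contra hn
      have h1 := qd_nonneg hG p
      have hn' : (n : ℝ) < 0 := by exact_mod_cast not_le.1 hn
      have hm' : (0 : ℝ) < m := by exact_mod_cast hm
      nlinarith
    have hD := det_pos hG
    set v : VZ := -(adjugate G *ᵥ p) with hv
    have hGv : G *ᵥ v = -(G.det • p) := by
      rw [hv, mulVec_neg, mulVec_mulVec, mul_adjugate, smul_mulVec, one_mulVec]
    have hbil : bil G v v = v ⬝ᵥ (G *ᵥ v) := by
      unfold bil dotProduct mulVec dotProduct
      refine Finset.sum_congr rfl fun i _ => ?_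
      rw [Finset.mul_sum]
      refine Finset.sum_congr rfl fun j _ => ?_
      simp
      ring
    have hbil2 : bil G v v = -(G.det * (p ⬝ᵥ v)) := by
      rw [hbil, hGv, dotProduct_neg, dotProduct_smul, smul_eq_mul, dotProduct_comm]
    -- `p . v = - det G * qd p`
    have hpv : ((p ⬝ᵥ v : ℤ) : ℝ) = -(G.det * qd G p) := by
      have h1 : qd G (G *ᵥ v) = (bil G v v : ℤ) := qd_mulVec hG v
      have h2 : bd G p (G *ᵥ v) = (p ⬝ᵥ v : ℤ) := bd_mulVec hG p v
      rw [← h2, hGv]
      unfold bd qd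
      rw [Finset.mul_sum, ← Finset.sum_neg_distrib]
      refine Finset.sum_congr rfl fun i _ => ?_
      rw [Finset.mul_sum, ← Finset.sum_neg_distrib]
      refine Finset.sum_congr rfl fun j _ => ?_
      simp only [Pi.neg_apply, Pi.smul_apply, smul_eq_mul]
      push_cast
      ring
    refine ⟨v, m * G.det, mul_pos hm hD, ?_⟩
    generalize G.det = D at *
    have hR : ((2 * (n * (m * D) ^ 2) + 2 * (m * D * (p ⬝ᵥ v)) + m * bil G v v : ℤ) : ℝ)
        < 0 := by
      rw [hbil2]
      push_cast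
      rw [hpv]
      have hm' : (0 : ℝ) < m := by exact_mod_cast hm
      have hD' : (0 : ℝ) < D := by exact_mod_cast hD
      have h3 : 0 < (m : ℝ) * D ^ 2 := by positivity
      have h4 : 0 < (m : ℝ) * D ^ 2 * (qd G p - 2 * n * m) := mul_pos h3 (by linarith)
      nlinarith
    exact_mod_cast hR

/-- A quadratic exponent tending to `-∞` contradicts the coefficient bound. -/
lemma koecher_grow {α K A B κ : ℝ} (hα : 0 < α) (hκ : 0 < κ)
    (h : ∀ t : ℕ, α * Real.exp (-(2 * Real.pi * (A + B * t - κ * t ^ 2))) ≤ K) : False := by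
  have hπ := Real.pi_gt_three
  have hK : 0 ≤ K := le_trans (by positivity) (h 0)
  have h0 : 0 ≤ K / α := by positivity
  have hA := abs_nonneg A
  have hA' := le_abs_self A
  have hB := abs_nonneg B
  have hB' := le_abs_self B
  obtain ⟨t, ht⟩ := exists_nat_ge ((|B| + |A| + K / α + 1) / κ)
  have ht0 : (0 : ℝ) < t := by
    refine lt_of_lt_of_le ?_ ht
    positivity
  have ht1 : (1 : ℝ) ≤ t := by
    have : 0 < t := by exact_mod_cast ht0
    exact_mod_cast this
  have ht' : |B| + |A| + K / α + 1 ≤ κ * t := by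
    rw [div_le_iff₀ hκ] at ht
    linarith
  have h1 := h t
  have h2 : K / α + 1 ≤ -(A + B * t - κ * t ^ 2) := by
    nlinarith
  have h3 : K / α + 1 ≤ -(2 * Real.pi * (A + B * t - κ * t ^ 2)) := by
    nlinarith
  generalize -(2 * Real.pi * (A + B * t - κ * t ^ 2)) = x at *
  have h4 := Real.add_one_le_exp x
  have h5 : α * (K / α + 1) ≤ K := le_trans (mul_le_mul_of_nonneg_left (by linarith) hα.le) h1
  rw [mul_add, mul_div_cancel₀ _ hα.ne'] at h5
  linarith

lemma koecher_imC_ofR (x y : VR) : imC (ofR x + Complex.I • ofR y) = y := by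
  funext i
  simp [imC, ofR]

/-- The translates of the point `(i, 0, i)` by an Eichler transvection. -/
lemma koecher_transport {k : ℤ} {f : ℂ → VC → ℂ → ℂ} (hf : TF G k f)
    {ne me nu : ℤ} {ve vu : VZ} (hme : 0 < me) (he : 2 * ne * me = bil G ve ve)
    (hu : nu * me = bil G vu ve) (hu' : bil G ve vu = bil G vu ve) {c₀ D y₁ y₃ : ℝ} {y₂ : VR}
    (hc₀ : c₀ = ne + me) (hD : D = nu + (bil G vu vu : ℤ) / 2 * c₀)
    (hy₁ : y₁ = 1 + D * me) (hy₂ : y₂ = -c₀ • toR vu + D • toR ve)
    (hy₃ : y₃ = 1 - c₀ * nu + D * ne) :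
    0 < y₁ ∧ bil G y₂ y₂ < 2 * y₁ * y₃ ∧ ∀ (x₁ x₃ : ℝ) (x₂ : VR), ∃ τ z ω,
      (τ, z, ω) ∈ Tube G ∧ τ.im = 1 ∧ imC z = 0 ∧ ω.im = 1 ∧
      f (x₁ + y₁ * Complex.I) (ofR x₂ + Complex.I • ofR y₂) (x₃ + y₃ * Complex.I) = f τ z ω := by
  have hmem : ((Complex.I, (0 : VC), Complex.I) : ℂ × VC × ℂ) ∈ Tube G := by
    constructor
    · simp
    · have : imC (0 : VC) = 0 := by
        funext i
        simp [imC]
      simp only [this, koecher_bil_zero]
      simp
  have h1 := (hf.E ne me nu ve vu hme he hu Complex.I 0 Complex.I hmem (c₀ * Complex.I)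
    (D * Complex.I) (by rw [koecher_bil_zero, hc₀]; push_cast; ring)
    (by rw [koecher_bil_zero, hD]; push_cast; ring)).1
  obtain ⟨h2, h3⟩ := h1
  have e1 : (Complex.I + D * Complex.I * me).im = y₁ := by
    rw [hy₁]
    simp
  have e3 : (Complex.I - c₀ * Complex.I * nu + D * Complex.I * ne).im = y₃ := by
    rw [hy₃]
    simp
  have e2 : imC ((0 : VC) - (c₀ * Complex.I : ℂ) • toC vu + (D * Complex.I : ℂ) • toC ve) =
      y₂ := by
    rw [hy₂]
    funext i
    simp [imC, toC, toR]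
  simp only [e1] at h2
  simp only [e1, e2, e3] at h3
  refine ⟨h2, h3, fun x₁ x₃ x₂ => ?_⟩
  set τ : ℂ := x₁ + y₁ * Complex.I with hτ
  set z : VC := ofR x₂ + Complex.I • ofR y₂ with hz
  set ω : ℂ := x₃ + y₃ * Complex.I with hω
  have iτ : τ.im = y₁ := by
    rw [hτ]
    simp
  have iω : ω.im = y₃ := by
    rw [hω]
    simp
  have iz : imC z = y₂ := koecher_imC_ofR x₂ y₂
  have hZ : (τ, z, ω) ∈ Tube G := by
    constructor
    · simp only [iτ]
      exact h2
    · simp only [iτ, iω, iz]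
      exact h3
  set c : ℂ := ne * τ + me * ω - bil G z (toC ve) with hc
  set d : ℂ := (-nu : ℤ) * τ - bil G z (toC (-vu)) + (bil G (-vu) (-vu) : ℤ) / 2 * c with hd
  have hneg : bil G (-vu) ve = -bil G vu ve := by
    have := koecher_bil_smul (G := G) (-1 : ℤ) vu ve
    rw [neg_one_smul] at this
    rw [this]
    ring
  have hneg2 : bil G (-vu) (-vu) = bil G vu vu := by
    have h5 := koecher_bil_smul (G := G) (-1 : ℤ) vu (-vu)
    have h6 := koecher_bil_smul_right (G := G) (-1 : ℤ) vu vu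
    rw [neg_one_smul] at h5 h6
    rw [h5, h6]
    ring
  have h4 := hf.E ne me (-nu) ve (-vu) hme he (by rw [hneg, ← hu]; ring) τ z ω hZ c d rfl rfl
  have heR : 2 * (ne : ℝ) * me = ((bil G ve ve : ℤ) : ℝ) := by exact_mod_cast he
  have huR : (nu : ℝ) * me = ((bil G vu ve : ℤ) : ℝ) := by exact_mod_cast hu
  have huR' : ((bil G ve vu : ℤ) : ℝ) = ((bil G vu ve : ℤ) : ℝ) := by exact_mod_cast hu'
  have b1 : bil G y₂ (toR ve) = -c₀ * (nu * me) + D * (2 * ne * me) := by
    rw [hy₂, koecher_bil_add, koecher_bil_smul, koecher_bil_smul, koecher_bil_toR,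
      koecher_bil_toR, heR, huR]
  have b2 : bil G y₂ (toR vu) = -c₀ * ((bil G vu vu : ℤ) : ℝ) + D * (nu * me) := by
    rw [hy₂, koecher_bil_add, koecher_bil_smul, koecher_bil_smul, koecher_bil_toR,
      koecher_bil_toR, huR', huR]
  have ic : c.im = c₀ := by
    rw [hc, Complex.sub_im, Complex.add_im, koecher_im_bil, iz, b1]
    simp only [Complex.mul_im, Complex.intCast_re, Complex.intCast_im, iτ, iω, zero_mul, add_zero]
    rw [hy₁, hy₃, hc₀]
    ring
  have b3 : (bil G z (toC (-vu))).im = -bil G y₂ (toR vu) := by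
    rw [koecher_im_bil, iz]
    have h5 : toR (-vu) = (-1 : ℝ) • toR vu := by
      funext i
      simp [toR]
    rw [h5, koecher_bil_smul_right]
    ring
  have id' : d.im = -D := by
    rw [hd, Complex.add_im, Complex.sub_im, b3, b2, hneg2]
    have h5 : ((((bil G vu vu : ℤ) : ℂ) / 2 * c).im) = ((bil G vu vu : ℤ) : ℝ) / 2 * c₀ := by
      have h6 : (((bil G vu vu : ℤ) : ℂ) / 2) = ((((bil G vu vu : ℤ) : ℝ) / 2 : ℝ) : ℂ) := by
        push_cast
        rfl
      rw [h6, Complex.im_ofReal_mul, ic]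
    rw [h5]
    simp only [Complex.mul_im, Complex.intCast_re, Complex.intCast_im, iτ, zero_mul, add_zero]
    rw [hy₁]
    push_cast
    linear_combination hD
  refine ⟨_, _, _, h4.1, ?_, ?_, ?_, h4.2.symm⟩
  · simp [Complex.mul_im, iτ, id', hy₁]
  · funext i
    have := congrFun iz i
    simp only [imC] at this
    simp [imC, Complex.mul_im, this, toC, ic, id', hy₂, toR]
  · simp [Complex.mul_im, iω, ic, id', hy₃]
    ring

theorem exists_fourierData (hG : EvenPos G) {k : ℤ} {f : ℂ → VC → ℂ → ℂ} (hf : TF G k f) :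
    ∃ a, FourierData G f a := by
  obtain ⟨a, hsum, hbd⟩ := fourier_expansion hG f hf.gh hf.Tτ hf.Tω hf.Tz
  refine ⟨a, ⟨fun n m p hne => ?_, hsum⟩⟩
  by_contra hcon
  obtain ⟨v, N, hN, hneg⟩ := koecher_exists_vec hG n m p hcon
  -- the constant
  set K : ℝ := ∑' t : ℤ × ℤ × VZ, ‖a t‖ * Real.exp (-(2 * Real.pi * (t.1 + t.2.1))) with hK
  have hle : ∀ τ z ω, (τ, z, ω) ∈ Tube G → τ.im = 1 → imC z = 0 → ω.im = 1 →
      ‖f τ z ω‖ ≤ K := by
    intro τ z ω hZ h1 h2 h3
    have hs := hsum τ z ω hZ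
    have hn : ∀ t : ℤ × ℤ × VZ, ‖a t * e (t.1 * τ + t.2.1 * ω + dot t.2.2 z)‖ =
        ‖a t‖ * Real.exp (-(2 * Real.pi * (t.1 + t.2.1))) := by
      intro t
      rw [norm_mul, norm_e]
      congr 4
      rw [Complex.add_im, Complex.add_im, koecher_im_dot, h2]
      have h0 : dot t.2.2 (0 : VR) = 0 := by
        unfold dot
        simp
      rw [h0]
      simp [Complex.mul_im, h1, h3]
    have hs' := hs.summable.norm
    rw [← hs.tsum_eq, hK]
    refine (norm_tsum_le_tsum_norm hs').trans (le_of_eq ?_)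
    exact tsum_congr hn
  -- the vectors
  obtain ⟨b, hb⟩ := bil_even hG v
  set w : VZ := Pi.single 0 1 with hw
  have hw0 : w ≠ 0 := by
    intro h0
    have := congrFun h0 0
    simp [hw] at this
  have hww := koecher_pos_int hG hw0
  have hb0 : 0 ≤ b := by
    have := koecher_nonneg_int hG v
    omega
  have hN2 : 0 < N ^ 2 := by positivity
  -- parameters
  set nu : ℤ := bil G w v with hnu
  set g : ℤ := bil G w w with hg
  have hsymm : bil G v w = bil G w v := bil_symm hG v w
  set c₀ : ℝ := ((b : ℤ) : ℝ) + ((N ^ 2 : ℤ) : ℝ) with hc₀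
  have hc₀pos : 0 < c₀ := by
    have h1 : (0 : ℝ) ≤ (b : ℝ) := by exact_mod_cast hb0
    have h2 : (0 : ℝ) < ((N ^ 2 : ℤ) : ℝ) := by exact_mod_cast hN2
    linarith
  set L : ℤ := n * N ^ 2 + N * (p ⬝ᵥ v) + m * b with hL
  have hLneg : L < 0 := by
    rw [hL]
    rw [hb] at hneg
    nlinarith
  have hα : 0 < ‖a (n, m, p)‖ := norm_pos_iff.2 hne
  have hκ : 0 < (N ^ 2 * g : ℤ) / 2 * c₀ * (-(L : ℝ)) := by
    have h1 : (0 : ℝ) < ((N ^ 2 * g : ℤ) : ℝ) := by exact_mod_cast mul_pos hN2 hww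
    have h2 : (0 : ℝ) < -(L : ℝ) := by
      have : (L : ℝ) < 0 := by exact_mod_cast hLneg
      linarith
    positivity
  apply koecher_grow (α := ‖a (n, m, p)‖) (K := K) (A := n + m)
    (B := nu * L - c₀ * (m * nu + N * (p ⬝ᵥ w : ℤ))) hα hκ
  intro t
  set D : ℝ := ((t * nu : ℤ) : ℝ) + (bil G ((t : ℤ) • N • w) ((t : ℤ) • N • w) : ℤ) / 2 * c₀
    with hD
  have e1 : bil G ((t : ℤ) • N • w) ((t : ℤ) • N • w) = t ^ 2 * (N ^ 2 * g) := by
    rw [koecher_bil_smul, koecher_bil_smul, koecher_bil_smul_right, koecher_bil_smul_right]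
    ring
  have e2 : bil G (N • v) (N • v) = N ^ 2 * (b + b) := by
    rw [koecher_bil_smul, koecher_bil_smul_right, hb]
    ring
  have e3 : bil G ((t : ℤ) • N • w) (N • v) = t * (N ^ 2 * nu) := by
    rw [koecher_bil_smul, koecher_bil_smul, koecher_bil_smul_right]
    ring
  obtain ⟨h1, h2, h3⟩ := koecher_transport hf (ne := b) (me := N ^ 2) (nu := t * nu)
    (ve := N • v) (vu := (t : ℤ) • N • w) hN2 (by rw [e2]; ring) (by rw [e3]; ring)
    (bil_symm hG _ _) hc₀ hD rfl rfl rfl
  have h4 := hbd _ _ _ K h1 h2 (by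
    intro x₁ x₃ x₂
    obtain ⟨τ, z, ω, hZ, i1, i2, i3, hfe⟩ := h3 x₁ x₃ x₂
    rw [hfe]
    exact hle τ z ω hZ i1 i2 i3) (n, m, p)
  refine le_trans (le_of_eq ?_) h4
  congr 4
  simp only
  rw [koecher_dot_add, koecher_dot_smul, koecher_dot_smul, koecher_dot_toR, koecher_dot_toR,
    dotProduct_smul, dotProduct_smul, dotProduct_smul, smul_eq_mul, smul_eq_mul, smul_eq_mul, hD,
    e1, hL]
  push_cast
  ring

end Pool.Agent.Refl
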