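import Pool.Agent.Refl.PhiWall

/-! Module PHI: the function `φ = -ψ_{C+j}/ψ_C`. -/

namespace Pool.Agent.Refl
open Matrix Filter Topology Metric MeasureTheory

variable {G : Matrix (Fin 20) (Fin 20) ℤ}

lemma phi_line_eventually {U : Set (ℂ × VC)} (hU : IsOpen U) (p v : ℂ × VC) (hp : p ∈ U) :
    ∃ δ > 0, ∀ w ∈ ball (0:ℂ) δ, p + w • v ∈ U := by
  have h2 : ∀ᶠ w : ℂ in 𝓝 0, p + w • v ∈ U := by
    apply (phi_line_cont p v).continuousAt.eventually_mem
    apply hU.mem_nhds; simpa using hp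
  obtain ⟨δ, hδ, h⟩ := Metric.eventually_nhds_iff_ball.1 h2
  exact ⟨δ, hδ, h⟩

/-- (Z3) -/
lemma phi_Z3 (hG : EvenPos G) {k : ℤ} {f : ℂ → VC → ℂ → ℂ} (hf : TF G k f)
    {ψ : ℕ → ℂ → VC → ℂ} (hψ : FJ G k f ψ) (C : ℕ)
    (hC : ∀ m < C, ∀ τ z, 0 < τ.im → ψ m τ z = 0) (hne : ∃ τ z, 0 < τ.im ∧ ψ C τ z ≠ 0)
    (τ0 : ℂ) (z0 : VC) (h0 : 0 < τ0.im) (hw : ¬ phiWall G τ0 z0) : ψ C τ0 z0 ≠ 0 := by
  obtain ⟨τ1, z1, hτ1, hne1⟩ := hne
  obtain ⟨ε, hε, R, hR, K, hloc⟩ := phi_local hf hψ C hC τ0 z0 h0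
  set a : ℂ := τ1 - τ0 with ha
  set v : VC := z1 - z0 with hv
  -- radius
  obtain ⟨r1, hr1, hr1'⟩ := phi_line_eventually (isOpen_ball (x := ((τ0, z0) : ℂ × VC)) (ε := ε))
    (τ0, z0) (a, v) (mem_ball_self hε)
  obtain ⟨r2, hr2, hr2'⟩ : ∃ δ > 0, ∀ w ∈ ball (0:ℂ) δ, ¬ phiWall G (τ0 + w * a) (z0 + w • v) := by
    have h1 := phi_off_open hG (q := (τ0, z0)) h0 hw
    obtain ⟨V, hV, hVo, hV0⟩ := _root_.eventually_nhds_iff.1 h1
    obtain ⟨δ, hδ, h⟩ := phi_line_eventually hVo (τ0, z0) (a, v) hV0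
    refine ⟨δ, hδ, fun w hw => ?_⟩
    exact (hV _ (h w hw)).2
  set r : ℝ := min r1 r2 with hr
  have hr0 : 0 < r := lt_min hr1 hr2
  have hb1 : ∀ w ∈ ball (0:ℂ) r, dist ((τ0 + w * a, z0 + w • v) : ℂ × VC) (τ0, z0) < ε := by
    intro w hw
    exact hr1' w (ball_subset_ball (min_le_left _ _) hw)
  have hGH := phiA_GH hψ.gh C (τ0 := τ0) (z0 := z0) (r := r) (R := R) (K := K) a v (by
    intro w hw
    have := hloc _ _ (hb1 w hw)
    exact ⟨this.1, this.2.1⟩)
  have hA := two_var_one (A := fun w s => phiA ψ C (τ0 + w * a) (z0 + w • v) s) hr0 hR hGH ?_ ?_ 0 (mem_ball_self hr0)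
  · simpa [phiA_zero] using hA
  · intro w hw s hs hs0
    obtain ⟨h1, _, h3⟩ := hloc _ _ (hb1 w hw)
    obtain ⟨ω, hω, hsum⟩ := h3 s hs0 (by simpa using hs)
    unfold phiA
    rw [hsum.tsum_eq]
    apply mul_ne_zero
    · exact phi_f_ne hG hf h1 hω (hr2' w (ball_subset_ball (min_le_right _ _) hw))
    · exact inv_ne_zero (pow_ne_zero _ hs0)
  · -- identity theorem along the line
    by_contra hcon
    push Not at hcon
    set Ω : Set ℂ := {w : ℂ | 0 < (τ0 + w * a).im} with hΩ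
    have hΩo : IsOpen Ω := by
      apply isOpen_lt continuous_const; fun_prop
    have hΩc : Convex ℝ Ω := by
      intro x hx y hy s t hs ht hst
      simp only [hΩ, Set.mem_ofPred_eq] at hx hy ⊢
      have h1 : (τ0 + (s • x + t • y) * a).im = s * (τ0 + x * a).im + t * (τ0 + y * a).im := by
        have : (τ0 + (s • x + t • y) * a) = (s : ℂ) * (τ0 + x * a) + (t : ℂ) * (τ0 + y * a) := by
          have h2 : (s : ℂ) + t = 1 := by exact_mod_cast hst
          simp only [Complex.real_smul]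
          linear_combination τ0 * (h2.symm)
        rw [this]; simp
      rw [h1]
      rcases eq_or_lt_of_le hs with h | h
      · have : t = 1 := by linarith
        rw [← h, this]; simpa using hy
      · have := mul_pos h hx
        have h3 := mul_nonneg ht hy.le
        linarith
    have hd : DifferentiableOn ℂ (fun w : ℂ => ψ C (τ0 + w * a) (z0 + w • v)) Ω := by
      intro w hw
      have := phi_GH_line (hψ.gh C) ((τ0, z0) : ℂ × VC) ((a, v) : ℂ × VC) w hw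
      exact this.differentiableWithinAt
    have hz : ∀ᶠ w : ℂ in 𝓝 0, ψ C (τ0 + w * a) (z0 + w • v) = 0 := by
      filter_upwards [ball_mem_nhds (0:ℂ) hr0] with w hw
      have := hcon w hw
      rwa [phiA_zero] at this
    have h0Ω : (0:ℂ) ∈ Ω := by simp only [hΩ, Set.mem_ofPred_eq, zero_mul, add_zero]; exact h0
    have h1Ω : (1:ℂ) ∈ Ω := by
      simp only [hΩ, Set.mem_ofPred_eq, one_mul, ha]
      simpa using hτ1
    have key := (hd.analyticOnNhd hΩo).eqOn_zero_of_preconnected_of_eventuallyEq_zero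
      hΩc.isPreconnected h0Ω hz h1Ω
    apply hne1
    have h5 : τ0 + 1 * a = τ1 := by rw [ha]; ring
    have h6 : z0 + (1:ℂ) • v = z1 := by rw [hv, one_smul]; abel
    simp only [h5, h6] at key
    simpa using key

/-- the quotient `-ψ_{C+j}/ψ_C` -/
noncomputable def phiRatio (ψ : ℕ → ℂ → VC → ℂ) (C j : ℕ) (q : ℂ × VC) : ℂ :=
  -ψ (C + j) q.1 q.2 / ψ C q.1 q.2

/-- the quotient, extended by limits in the direction `η` -/
noncomputable def phiFun (ψ : ℕ → ℂ → VC → ℂ) (C j : ℕ) (η : VC) (τ : ℂ) (z : VC) : ℂ :=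
  limUnder (𝓝[≠] (0:ℂ)) (fun w => phiRatio ψ C j (τ, z + w • η))

/-- hypotheses shared by the following lemmas -/
structure PhiHyp (G : Matrix (Fin 20) (Fin 20) ℤ) (k : ℤ) (f : ℂ → VC → ℂ → ℂ)
    (ψ : ℕ → ℂ → VC → ℂ) (C : ℕ) (η : VC) : Prop where
  hG : EvenPos G
  hf : TF G k f
  hψ : FJ G k f ψ
  hC : ∀ m < C, ∀ τ z, 0 < τ.im → ψ m τ z = 0
  hne : ∃ τ z, 0 < τ.im ∧ ψ C τ z ≠ 0
  hη : ∀ p : VZ, 0 < qd G p → qd G p ≤ 2 → dot p η ≠ 0

variable {k : ℤ} {f : ℂ → VC → ℂ → ℂ} {ψ : ℕ → ℂ → VC → ℂ} {C : ℕ} {η : VC}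

lemma PhiHyp.ne0 (H : PhiHyp G k f ψ C η) {τ : ℂ} {z : VC} (hτ : 0 < τ.im) (hw : ¬ phiWall G τ z) :
    ψ C τ z ≠ 0 :=
  phi_Z3 H.hG H.hf H.hψ C H.hC H.hne τ z hτ hw

/-- set off the walls -/
def phiOff (G : Matrix (Fin 20) (Fin 20) ℤ) : Set (ℂ × VC) := {q | 0 < q.1.im ∧ ¬ phiWall G q.1 q.2}

lemma phiOff_open (hG : EvenPos G) : IsOpen (phiOff G) := by
  rw [isOpen_iff_mem_nhds]
  intro q hq
  exact phi_off_open hG hq.1 hq.2

lemma PhiHyp.ratio_GH (H : PhiHyp G k f ψ C η) (j : ℕ) : GH (phiOff G) (phiRatio ψ C j) := by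
  have h1 : GH (phiOff G) (fun q : ℂ × VC => ψ (C + j) q.1 q.2) := phi_GH_mono (H.hψ.gh (C + j)) (fun q hq => hq.1)
  have h2 : GH (phiOff G) (fun q : ℂ × VC => ψ C q.1 q.2) := phi_GH_mono (H.hψ.gh C) (fun q hq => hq.1)
  exact phi_GH_div (phi_GH_neg h1) h2 (fun q hq => H.ne0 hq.1 hq.2)

lemma phi_pair (τ : ℂ) (z η : VC) (w : ℂ) : ((τ, z) : ℂ × VC) + w • ((0, η) : ℂ × VC) = (τ, z + w • η) := by
  simp

lemma PhiHyp.isol (H : PhiHyp G k f ψ C η) {τ : ℂ} (hτ : 0 < τ.im) (z : VC) :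
    ∀ᶠ w : ℂ in 𝓝[≠] 0, (τ, z + w • η) ∈ phiOff G := by
  filter_upwards [phi_isolated H.hG hτ z η H.hη] with w hw
  exact ⟨hτ, hw⟩

lemma PhiHyp.ratio_diff (H : PhiHyp G k f ψ C η) (j : ℕ) {τ : ℂ} {z : VC} {w : ℂ}
    (h : (τ, z + w • η) ∈ phiOff G) :
    DifferentiableAt ℂ (fun w => phiRatio ψ C j (τ, z + w • η)) w := by
  have := phi_GH_line (H.ratio_GH j) (τ, z) (0, η) w (by rw [phi_pair]; exact h)
  simpa only [phi_pair] using this

/-- existence of the limit -/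
lemma PhiHyp.tendsto (H : PhiHyp G k f ψ C η) (j : ℕ) {τ0 : ℂ} (h0 : 0 < τ0.im) (z0 : VC) :
    Tendsto (fun w => phiRatio ψ C j (τ0, z0 + w • η)) (𝓝[≠] (0:ℂ)) (𝓝 (phiFun ψ C j η τ0 z0)) := by
  apply Complex.tendsto_limUnder_of_differentiable_on_punctured_nhds_of_bounded_under
  · filter_upwards [H.isol h0 z0] with w hw
    exact H.ratio_diff j hw
  · obtain ⟨ε, hε, R, hR, K, hloc⟩ := phi_local H.hf H.hψ C H.hC τ0 z0 h0
    obtain ⟨r1, hr1, hr1'⟩ := phi_line_eventually (isOpen_ball (x := ((τ0, z0) : ℂ × VC)) (ε := ε))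
      (τ0, z0) (0, η) (mem_ball_self hε)
    obtain ⟨r2, hr2, hr2'⟩ : ∃ δ > 0, ∀ w ∈ ball (0:ℂ) δ, w ≠ 0 → (τ0, z0 + w • η) ∈ phiOff G := by
      have h1 := H.isol h0 z0
      rw [eventually_nhdsWithin_iff] at h1
      obtain ⟨δ, hδ, h⟩ := Metric.eventually_nhds_iff_ball.1 h1
      exact ⟨δ, hδ, fun w hw hw0 => h w hw hw0⟩
    set r : ℝ := min r1 r2 with hr
    have hr0 : 0 < r := lt_min hr1 hr2
    have hb1 : ∀ w ∈ ball (0:ℂ) r, dist ((τ0 + w * 0, z0 + w • η) : ℂ × VC) (τ0, z0) < ε := by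
      intro w hw
      exact hr1' w (ball_subset_ball (min_le_left _ _) hw)
    have hGH := phiA_GH H.hψ.gh C (τ0 := τ0) (z0 := z0) (r := r) (R := R) (K := K) 0 η (by
      intro w hw
      have := hloc _ _ (hb1 w hw)
      exact ⟨this.1, this.2.1⟩)
    simp only [mul_zero, add_zero] at hGH hb1
    obtain ⟨c, B, hB, hAB, hB0⟩ := two_var_two (A := fun w s => phiA ψ C τ0 (z0 + w • η) s) hr0 hR hGH (by
      intro w hw s hs hw0
      have hoff := hr2' w (ball_subset_ball (min_le_right _ _) hw) hw0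
      by_cases hs0 : s = 0
      · subst hs0
        rw [phiA_zero]
        exact H.ne0 hoff.1 hoff.2
      · obtain ⟨h1, _, h3⟩ := hloc _ _ (hb1 w hw)
        obtain ⟨ω, hω, hsum⟩ := h3 s hs0 (by simpa using hs)
        unfold phiA
        rw [hsum.tsum_eq]
        apply mul_ne_zero
        · exact phi_f_ne H.hG H.hf h1 hω hoff.2
        · exact inv_ne_zero (pow_ne_zero _ hs0))
    -- bound of B on a compact set
    have hKc : IsCompact (closedBall (0:ℂ) (r / 2) ×ˢ closedBall (0:ℂ) (R / 2)) :=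
      (isCompact_closedBall _ _).prod (isCompact_closedBall _ _)
    have hKs : closedBall (0:ℂ) (r / 2) ×ˢ closedBall (0:ℂ) (R / 2) ⊆ ball (0:ℂ) r ×ˢ ball (0:ℂ) R :=
      Set.prod_mono (closedBall_subset_ball (by linarith)) (closedBall_subset_ball (by linarith))
    obtain ⟨M, hM⟩ := hKc.exists_bound_of_continuousOn (hB.cont.mono hKs)
    have hB00 : B 0 0 ≠ 0 := hB0 0 (mem_ball_self hr0) 0 (mem_ball_self hR)
    have hlow : ∀ᶠ w : ℂ in 𝓝 0, ‖B 0 0‖ / 2 < ‖B w 0‖ := by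
      have h1 : ContinuousAt (fun q : ℂ × ℂ => B q.1 q.2) ((0:ℂ), (0:ℂ)) :=
        (hB.cont _ ⟨mem_ball_self hr0, mem_ball_self hR⟩).continuousAt
          ((isOpen_ball.prod isOpen_ball).mem_nhds ⟨mem_ball_self hr0, mem_ball_self hR⟩)
      have h2 : ContinuousAt (fun w : ℂ => ‖B w 0‖) 0 := by
        have h3 : ContinuousAt (fun w : ℂ => ((w, (0:ℂ)) : ℂ × ℂ)) 0 := by fun_prop
        exact (ContinuousAt.comp (f := fun w : ℂ => ((w, (0:ℂ)) : ℂ × ℂ)) (x := 0) h1 h3).norm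
      apply h2.eventually_mem
      apply isOpen_Ioi.mem_nhds
      show ‖B 0 0‖ / 2 < ‖B 0 0‖
      have := norm_pos_iff.2 hB00
      linarith
    have hbd : ∀ᶠ w : ℂ in 𝓝[≠] 0, ‖phiRatio ψ C j (τ0, z0 + w • η)‖ ≤ |M| / (‖B 0 0‖ / 2 * (R / 2) ^ j) := by
      rw [eventually_nhdsWithin_iff]
      filter_upwards [hlow, ball_mem_nhds (0:ℂ) (half_pos hr0)] with w hw1 hw2 hw0
      have hwr : w ∈ ball (0:ℂ) r := ball_subset_ball (by linarith) hw2
      have hwc : 0 < ‖w‖ ^ c := pow_pos (norm_pos_iff.2 hw0) c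
      have hmB : 0 < ‖B 0 0‖ := norm_pos_iff.2 hB00
      -- numerator
      have h1 : ‖ψ (C + j) τ0 (z0 + w • η)‖ * (R / 2) ^ j ≤ ‖w‖ ^ c * |M| := by
        apply phi_coeff_bound (fun m => ψ (C + m) τ0 (z0 + w • η)) (R / 2) _ (by positivity)
        · have h2 := (hloc _ _ (hb1 w hwr)).2.1
          have hu : Summable (fun m : ℕ => K * (1 / 2 : ℝ) ^ m) :=
            (summable_geometric_of_lt_one (by norm_num) (by norm_num)).mul_left K
          refine Summable.of_nonneg_of_le (fun m => by positivity) (fun m => ?_) hu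
          have h3 := h2 m ((R / 2 : ℝ) : ℂ) (by
            rw [Complex.norm_real, Real.norm_of_nonneg (by positivity)]; linarith)
          rwa [norm_mul, norm_pow, Complex.norm_real, Real.norm_of_nonneg (by positivity)] at h3
        · intro t
          have hs : ‖((R / 2 : ℝ) : ℂ) * e t‖ = R / 2 := by
            rw [norm_mul, phi_norm_e_real, mul_one, Complex.norm_real, Real.norm_of_nonneg (by positivity)]
          have h4 := hAB w hwr (((R / 2 : ℝ) : ℂ) * e t) (by rw [mem_ball_zero_iff, hs]; linarith)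
          unfold phiA at h4
          rw [h4, norm_mul, norm_pow]
          apply mul_le_mul_of_nonneg_left _ hwc.le
          refine (hM (w, ((R / 2 : ℝ) : ℂ) * e t) ⟨?_, ?_⟩).trans (le_abs_self M)
          · exact ball_subset_closedBall hw2
          · rw [mem_closedBall_zero_iff, hs]
      -- denominator
      have h5 : ‖ψ C τ0 (z0 + w • η)‖ = ‖w‖ ^ c * ‖B w 0‖ := by
        have h6 := hAB w hwr 0 (mem_ball_self hR)
        rw [phiA_zero] at h6
        rw [h6, norm_mul, norm_pow]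
      unfold phiRatio
      simp only
      have hBw : 0 < ‖B w 0‖ := by linarith
      rw [norm_div, norm_neg, h5, div_le_div_iff₀ (mul_pos hwc hBw) (by positivity)]
      have h7 : ‖B 0 0‖ / 2 * (‖ψ (C + j) τ0 (z0 + w • η)‖ * (R / 2) ^ j) ≤ ‖B w 0‖ * (‖w‖ ^ c * |M|) :=
        mul_le_mul hw1.le h1 (by positivity) (norm_nonneg _)
      nlinarith
    refine ⟨|M| / (‖B 0 0‖ / 2 * (R / 2) ^ j) + ‖phiRatio ψ C j (τ0, z0 + (0:ℂ) • η)‖, ?_⟩
    rw [eventually_map]
    filter_upwards [hbd] with w hw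
    exact (norm_sub_le _ _).trans (by linarith)

lemma PhiHyp.eq_ratio (H : PhiHyp G k f ψ C η) (j : ℕ) {τ : ℂ} {z : VC} (h : (τ, z) ∈ phiOff G) :
    phiFun ψ C j η τ z = phiRatio ψ C j (τ, z) := by
  have h1 := H.tendsto j h.1 z
  have h0 : z + (0:ℂ) • η = z := by rw [zero_smul, add_zero]
  have h2 : ContinuousAt (fun w : ℂ => phiRatio ψ C j (τ, z + w • η)) 0 :=
    (H.ratio_diff (w := (0:ℂ)) j (by rw [h0]; exact h)).continuousAt
  have h3 : Tendsto (fun w => phiRatio ψ C j (τ, z + w • η)) (𝓝[≠] (0:ℂ)) (𝓝 (phiRatio ψ C j (τ, z))) := by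
    have h4 : Tendsto (fun w => phiRatio ψ C j (τ, z + w • η)) (𝓝[≠] (0:ℂ))
        (𝓝 (phiRatio ψ C j (τ, z + (0:ℂ) • η))) := h2.tendsto.mono_left nhdsWithin_le_nhds
    rw [h0] at h4
    exact h4
  exact tendsto_nhds_unique h1 h3

/-- `φ` is entire in the direction `η` -/
lemma PhiHyp.entire (H : PhiHyp G k f ψ C η) (j : ℕ) {τ : ℂ} (hτ : 0 < τ.im) (z : VC) :
    Differentiable ℂ (fun w : ℂ => phiFun ψ C j η τ (z + w • η)) := by
  intro w0
  have hshift : ∀ w : ℂ, z + w • η = (z + w0 • η) + (w - w0) • η := by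
    intro w; rw [sub_smul]; abel
  have hsub : Tendsto (fun w : ℂ => w - w0) (𝓝[≠] w0) (𝓝[≠] 0) := by
    rw [tendsto_nhdsWithin_iff]
    constructor
    · have : Tendsto (fun w : ℂ => w - w0) (𝓝 w0) (𝓝 (w0 - w0)) := by
        exact (continuous_id.sub continuous_const).tendsto w0
      rw [sub_self] at this
      exact this.mono_left nhdsWithin_le_nhds
    · filter_upwards [self_mem_nhdsWithin] with w hw
      exact sub_ne_zero.2 hw
  have hoff : ∀ᶠ w : ℂ in 𝓝[≠] w0, (τ, z + w • η) ∈ phiOff G := by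
    filter_upwards [hsub.eventually (H.isol hτ (z + w0 • η))] with w hw
    rw [hshift w]; exact hw
  apply (Complex.analyticAt_of_differentiable_on_punctured_nhds_of_continuousAt ?_ ?_).differentiableAt
  · filter_upwards [hoff] with w hw
    have h1 : ∀ᶠ w' : ℂ in 𝓝 w, (τ, z + w' • η) ∈ phiOff G := by
      have : Continuous (fun w' : ℂ => ((τ, z + w' • η) : ℂ × VC)) := by fun_prop
      exact this.continuousAt.eventually_mem ((phiOff_open H.hG).mem_nhds hw)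
    apply (H.ratio_diff j hw).congr_of_eventuallyEq
    filter_upwards [h1] with w' hw'
    exact H.eq_ratio j hw'
  · rw [continuousAt_iff_punctured_nhds]
    have h2 := (H.tendsto j hτ (z + w0 • η)).comp hsub
    refine h2.congr' ?_
    filter_upwards [hoff] with w hw
    simp only [Function.comp]
    rw [← hshift w]
    exact (H.eq_ratio j hw).symm

lemma PhiHyp.avg (H : PhiHyp G k f ψ C η) (j : ℕ) {q : ℂ × VC} (hτ : 0 < q.1.im) {r : ℝ}
    (hr : 0 < r) (hoff : ∀ θ : ℝ, q + circleMap 0 r θ • ((0, η) : ℂ × VC) ∈ phiOff G) :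
    phiFun ψ C j η q.1 q.2 =
      Real.circleAverage (fun w => phiRatio ψ C j (q + w • ((0, η) : ℂ × VC))) 0 r := by
  have h1 : Real.circleAverage (fun w : ℂ => phiFun ψ C j η q.1 (q.2 + w • η)) 0 r = phiFun ψ C j η q.1 q.2 := by
    have h2 := (H.entire j hτ q.2).diffContOnCl (s := ball (0:ℂ) |r|)
    have h3 := h2.circleAverage
    simpa using h3
  rw [← h1]
  unfold Real.circleAverage
  congr 1
  apply intervalIntegral.integral_congr
  intro θ _
  have h3 := hoff θ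
  obtain ⟨τ, z⟩ := q
  rw [phi_pair] at h3
  simp only
  rw [phi_pair]
  exact H.eq_ratio j h3

lemma PhiHyp.phi_GH (H : PhiHyp G k f ψ C η) (j : ℕ) :
    GH HV (fun q : ℂ × VC => phiFun ψ C j η q.1 q.2) := by
  have key : ∀ q0 ∈ HV, ∃ V : Set (ℂ × VC), IsOpen V ∧ q0 ∈ V ∧
      GH V (fun q : ℂ × VC => phiFun ψ C j η q.1 q.2) := by
    rintro ⟨τ0, z0⟩ h0
    have hτ0 : 0 < τ0.im := h0
    obtain ⟨δ, hδ, hδ'⟩ : ∃ δ > 0, ∀ w ∈ ball (0:ℂ) δ, w ≠ 0 → (τ0, z0 + w • η) ∈ phiOff G := by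
      have h1 := H.isol hτ0 z0
      rw [eventually_nhdsWithin_iff] at h1
      obtain ⟨δ, hδ, h⟩ := Metric.eventually_nhds_iff_ball.1 h1
      exact ⟨δ, hδ, fun w hw hw0 => h w hw hw0⟩
    set r : ℝ := δ / 2 with hr
    have hr0 : 0 < r := by positivity
    have hcomp : IsCompact (sphere (0:ℂ) r) := isCompact_sphere _ _
    have h2 : ∀ᶠ q : ℂ × VC in 𝓝 (τ0, z0), ∀ w ∈ sphere (0:ℂ) r,
        q + w • ((0, η) : ℂ × VC) ∈ phiOff G := by
      apply hcomp.eventually_forall_of_forall_eventually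
      intro w hw
      have h3 : Continuous (fun p : (ℂ × VC) × ℂ => p.1 + p.2 • ((0, η) : ℂ × VC)) := by fun_prop
      apply h3.continuousAt.eventually_mem
      apply (phiOff_open H.hG).mem_nhds
      show (τ0, z0) + w • ((0, η) : ℂ × VC) ∈ phiOff G
      rw [phi_pair]
      rw [mem_sphere_zero_iff_norm] at hw
      apply hδ'
      · rw [mem_ball_zero_iff, hw]; linarith
      · intro h; rw [h, norm_zero] at hw; linarith
    have h3 : ∀ᶠ q : ℂ × VC in 𝓝 (τ0, z0), q ∈ HV := phi_HV_open.mem_nhds h0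
    obtain ⟨V, hV, hVo, hV0⟩ := _root_.eventually_nhds_iff.1 (h2.and h3)
    refine ⟨V, hVo, hV0, ?_⟩
    have hcirc : ∀ q ∈ V, ∀ θ : ℝ, q + circleMap 0 r θ • ((0, η) : ℂ × VC) ∈ phiOff G := by
      intro q hq θ
      apply (hV q hq).1
      simp [abs_of_pos hr0]
    have h4 := phi_GH_avg hVo (H.ratio_GH j) ((0, η) : ℂ × VC) r hcirc
    apply phi_GH_congr hVo h4
    intro q hq
    exact H.avg j (hV q hq).2 hr0 (hcirc q hq)
  refine ⟨?_, ?_⟩
  · intro q hq
    obtain ⟨V, hVo, hV0, hV⟩ := key q hq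
    exact ((hV.cont q hV0).continuousAt (hVo.mem_nhds hV0)).continuousWithinAt
  · intro q hq v
    obtain ⟨V, hVo, hV0, hV⟩ := key q hq
    exact hV.line q hV0 v

/-- `ψ_{C+j} = -φ ψ_C` -/
lemma PhiHyp.eq_mul (H : PhiHyp G k f ψ C η) (j : ℕ) {τ : ℂ} (hτ : 0 < τ.im) (z : VC) :
    ψ (C + j) τ z = -phiFun ψ C j η τ z * ψ C τ z := by
  have hc : ∀ m, Tendsto (fun w : ℂ => ψ m τ (z + w • η)) (𝓝[≠] (0:ℂ)) (𝓝 (ψ m τ z)) := by
    intro m
    have h1 := phi_GH_line (H.hψ.gh m) ((τ, z) : ℂ × VC) ((0, η) : ℂ × VC) 0 (by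
      rw [phi_pair]; exact hτ)
    have h2 := h1.continuousAt.tendsto.mono_left (nhdsWithin_le_nhds (s := {0}ᶜ))
    simp only [phi_pair] at h2
    simpa using h2
  have h3 := ((H.tendsto j hτ z).neg.mul (hc C))
  refine tendsto_nhds_unique (hc (C + j)) (h3.congr' ?_)
  filter_upwards [H.isol hτ z] with w hw
  have h4 := H.ne0 hw.1 hw.2
  unfold phiRatio
  simp only at h4 ⊢
  field_simp

lemma bil_nsmul {R : Type*} [CommRing R] (j : ℕ) (x y : Fin 20 → R) : bil (j • G) x y = j * bil G x y := by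
  unfold bil
  rw [Finset.mul_sum]
  apply Finset.sum_congr rfl; intro i _
  rw [Finset.mul_sum]
  apply Finset.sum_congr rfl; intro l _
  simp
  ring

lemma PhiHyp.jac (H : PhiHyp G k f ψ C η) (j : ℕ) : Jac0 (j • G) (phiFun ψ C j η) := by
  refine ⟨H.phi_GH j, ?_, ?_, ?_, ?_⟩
  · intro τ z hτ
    unfold phiFun
    congr 1
    funext w
    unfold phiRatio
    simp only
    rw [H.hψ.T _ _ _ hτ, H.hψ.T _ _ _ hτ]
  · intro τ z x hτ
    unfold phiFun
    congr 1
    funext w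
    unfold phiRatio
    simp only
    rw [show z + toC x + w • η = (z + w • η) + toC x by abel, H.hψ.P _ _ _ _ hτ, H.hψ.P _ _ _ _ hτ]
  · intro τ z x hτ
    have h1 := H.tendsto j hτ (z + τ • toC x)
    have h2 := H.tendsto j hτ z
    have h3 : Tendsto (fun w : ℂ => e (-(bil (j • G) (toC x) (z + w • η) + bil (j • G) (toC x) (toC x) * τ / 2)))
        (𝓝[≠] (0:ℂ)) (𝓝 (e (-(bil (j • G) (toC x) z + bil (j • G) (toC x) (toC x) * τ / 2)))) := by
      have h4 : Continuous (fun w : ℂ => e (-(bil (j • G) (toC x) (z + w • η) + bil (j • G) (toC x) (toC x) * τ / 2))) := by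
        apply phi_e_cont.comp
        unfold bil
        fun_prop
      have := (h4.tendsto 0).mono_left (nhdsWithin_le_nhds (s := {0}ᶜ))
      simpa using this
    refine tendsto_nhds_unique h1 ((h3.mul h2).congr fun w => ?_)
    unfold phiRatio
    simp only
    rw [show z + τ • toC x + w • η = (z + w • η) + τ • toC x by abel, H.hψ.H _ _ _ _ hτ, H.hψ.H _ _ _ _ hτ,
      bil_nsmul, bil_nsmul]
    set t : ℂ := bil G (toC x) (z + w • η) + bil G (toC x) (toC x) * τ / 2 with ht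
    have h5 : e (-((j : ℂ) * bil G (toC x) (z + w • η) + (j : ℂ) * bil G (toC x) (toC x) * τ / 2)) = e (-(j * t)) := by
      congr 1; rw [ht]; ring
    have h6 : e (-(((C + j : ℕ) : ℂ) * t)) = e (-(C * t)) * e (-(j * t)) := by
      rw [← e_add]; congr 1; push_cast; ring
    rw [h5, h6]
    have h7 := e_ne_zero (-(C * t))
    generalize e (-(C * t)) = E1 at h7 ⊢
    generalize e (-(j * t)) = E2
    by_cases h8 : ψ C τ (z + w • η) = 0
    · simp [h8]
    · field_simp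
  · intro τ z hτ
    have hτ0 : τ ≠ 0 := by intro h; rw [h] at hτ; simp at hτ
    have hτ' : 0 < (-1 / τ).im := by
      rw [neg_div, Complex.neg_im, one_div, Complex.inv_im, neg_div, neg_neg]
      apply div_pos hτ
      exact Complex.normSq_pos.2 hτ0
    have h1 := H.tendsto j hτ' (τ⁻¹ • z)
    have hmul : Tendsto (fun w : ℂ => w * τ) (𝓝[≠] (0:ℂ)) (𝓝[≠] (0:ℂ)) := by
      rw [tendsto_nhdsWithin_iff]
      constructor
      · have : Tendsto (fun w : ℂ => w * τ) (𝓝 0) (𝓝 (0 * τ)) := (continuous_id.mul continuous_const).tendsto 0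
        rw [zero_mul] at this
        exact this.mono_left nhdsWithin_le_nhds
      · filter_upwards [self_mem_nhdsWithin] with w hw
        exact mul_ne_zero hw hτ0
    have h2 := (H.tendsto j hτ z).comp hmul
    have h3 : Tendsto (fun w : ℂ => e (bil (j • G) (z + (w * τ) • η) (z + (w * τ) • η) / (2 * τ)))
        (𝓝[≠] (0:ℂ)) (𝓝 (e (bil (j • G) z z / (2 * τ)))) := by
      have h4 : Continuous (fun w : ℂ => e (bil (j • G) (z + (w * τ) • η) (z + (w * τ) • η) / (2 * τ))) := by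
        apply phi_e_cont.comp
        unfold bil
        fun_prop
      have := (h4.tendsto 0).mono_left (nhdsWithin_le_nhds (s := {0}ᶜ))
      simpa using this
    refine tendsto_nhds_unique h1 ((h3.mul h2).congr fun w => ?_)
    simp only [Function.comp]
    unfold phiRatio
    simp only
    have h9 : τ⁻¹ • z + w • η = τ⁻¹ • (z + (w * τ) • η) := by
      rw [smul_add, smul_smul]
      congr 2
      field_simp
    rw [h9, H.hψ.S _ _ _ hτ, H.hψ.S _ _ _ hτ, bil_nsmul]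
    set t : ℂ := bil G (z + (w * τ) • η) (z + (w * τ) • η) with ht
    have h5 : e ((j : ℂ) * t / (2 * τ)) = e (j * (t / (2 * τ))) := by congr 1; ring
    have h6 : e (((C + j : ℕ) : ℂ) * t / (2 * τ)) = e (C * t / (2 * τ)) * e (j * (t / (2 * τ))) := by
      rw [← e_add]; congr 1; push_cast; ring
    rw [h5, h6]
    have h7 := e_ne_zero (C * t / (2 * τ))
    have h10 : τ ^ k ≠ 0 := zpow_ne_zero _ hτ0
    generalize e (C * t / (2 * τ)) = E1 at h7 ⊢
    generalize e (j * (t / (2 * τ))) = E2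
    generalize τ ^ k = E3 at h10 ⊢
    generalize ψ (C + j) τ (z + (w * τ) • η) = E4
    generalize ψ C τ (z + (w * τ) • η) = E5
    by_cases h8 : E5 = 0
    · simp [h8]
    · field_simp

theorem exists_phi (hG : EvenPos G) {k : ℤ} {f : ℂ → VC → ℂ → ℂ} (hf : TF G k f)
    {ψ : ℕ → ℂ → VC → ℂ} (hψ : FJ G k f ψ) :
    ∃ (C j : ℕ) (φ : ℂ → VC → ℂ), PhiData G ψ C j φ := by
  classical
  have hex : ∃ m, ∃ τ z, 0 < τ.im ∧ ψ m τ z ≠ 0 := by
    by_contra hcon
    push Not at hcon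
    exact caseA hG hf hψ 0 (fun m _ τ z hτ => hcon m τ z hτ)
  set C := Nat.find hex with hCdef
  have hC1 := Nat.find_spec hex
  have hC2 : ∀ m < C, ∀ τ z, 0 < τ.im → ψ m τ z = 0 := by
    intro m hm τ z hτ
    by_contra h
    exact Nat.find_min hex hm ⟨τ, z, hτ, h⟩
  have hex2 : ∃ j, 0 < j ∧ ∃ τ z, 0 < τ.im ∧ ψ (C + j) τ z ≠ 0 := by
    by_contra hcon
    push Not at hcon
    apply caseA hG hf hψ C
    intro m hm τ z hτ
    rcases lt_or_gt_of_ne hm with h | h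
    · exact hC2 m h τ z hτ
    · have := hcon (m - C) (by omega) τ z hτ
      rwa [show C + (m - C) = m by omega] at this
  set j := Nat.find hex2 with hjdef
  have hj1 := Nat.find_spec hex2
  obtain ⟨η, hη⟩ := phi_exists_eta hG
  have H : PhiHyp G k f ψ C η := ⟨hG, hf, hψ, hC2, hC1, hη⟩
  refine ⟨C, j, phiFun ψ C j η, ⟨hj1.1, hC2, ?_, H.jac j, ?_, ?_, ?_⟩⟩
  · intro m hm1 hm2 τ z hτ
    by_contra h
    have := Nat.find_min hex2 (m := m - C) (by omega)
    apply this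
    refine ⟨by omega, τ, z, hτ, ?_⟩
    rwa [show C + (m - C) = m by omega]
  · intro τ z hτ
    exact H.eq_mul j hτ z
  · obtain ⟨τ, z, hτ, hne⟩ := hj1.2
    refine ⟨τ, z, hτ, fun h => hne ?_⟩
    rw [H.eq_mul j hτ z, h]; simp
  · intro τ z hτ hw
    apply H.ne0 hτ
    rintro ⟨n, b, p, a1, a2, a3⟩
    exact hw n b p a1 a2 a3

end Pool.Agent.Refl
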