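import Pool.Agent.Refl.PolarSum

/-! Module POLAR: the singular Fourier coefficients of `φ`. -/

namespace Pool.Agent.Refl
open Matrix

variable {G : Matrix (Fin 20) (Fin 20) ℤ}

/-- moment lemma -/
lemma polar_moment {ι : Type*} [Fintype ι] [Nonempty ι] (w : ι → ℂ) (hw : ∀ i, w i ≠ 0)
    (c : ι → ℕ) (hc : ∀ i, 0 < c i) (j : ℕ)
    (h : ∀ k : ℕ, 0 < k → k < j → ∑ i, (c i : ℂ) * w i ^ k = 0) : j ≤ Fintype.card ι := by
  classical
  by_contra hlt
  push Not at hlt
  set P : Polynomial ℂ := ∏ i, (Polynomial.X - Polynomial.C (w i)) with hP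
  have hdeg : P.natDegree = Fintype.card ι := by
    rw [hP, Polynomial.natDegree_prod_of_monic _ _ (fun i _ => Polynomial.monic_X_sub_C _)]
    simp
  have hroot : ∀ i, P.eval (w i) = 0 := by
    intro i
    rw [hP, Polynomial.eval_prod]
    exact Finset.prod_eq_zero (Finset.mem_univ i) (by simp)
  have h0 : P.coeff 0 ≠ 0 := by
    rw [Polynomial.coeff_zero_eq_eval_zero, hP, Polynomial.eval_prod]
    exact Finset.prod_ne_zero_iff.mpr (fun i _ => by simpa using hw i)
  have hsum : ∑ i, (c i : ℂ) * P.eval (w i) = P.coeff 0 * ∑ i, (c i : ℂ) := by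
    simp_rw [Polynomial.eval_eq_sum_range, hdeg, Finset.mul_sum]
    rw [Finset.sum_comm, Finset.sum_range_succ']
    have : ∑ k ∈ Finset.range (Fintype.card ι),
        ∑ i, (c i : ℂ) * (P.coeff (k + 1) * w i ^ (k + 1)) = 0 := by
      refine Finset.sum_eq_zero (fun k hk => ?_)
      have := h (k + 1) (Nat.succ_pos k) (by have := Finset.mem_range.mp hk; omega)
      calc ∑ i, (c i : ℂ) * (P.coeff (k + 1) * w i ^ (k + 1))
          = P.coeff (k + 1) * ∑ i, (c i : ℂ) * w i ^ (k + 1) := by
            rw [Finset.mul_sum]; exact Finset.sum_congr rfl (fun i _ => by ring)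
        _ = 0 := by rw [this, mul_zero]
    rw [this, zero_add]
    exact Finset.sum_congr rfl (fun i _ => by ring)
  have hz : ∑ i, (c i : ℂ) * P.eval (w i) = 0 := by simp [hroot]
  rw [hz] at hsum
  have hcs : (∑ i, (c i : ℂ)) ≠ 0 := by
    rw [← Nat.cast_sum]
    have : 0 < ∑ i, c i := Finset.sum_pos (fun i _ => hc i) Finset.univ_nonempty
    exact_mod_cast this.ne'
  exact (mul_ne_zero h0 hcs) hsum.symm

lemma polar_qd_smul (m : ℤ) (p : VZ) : qd G (m • p) = (m : ℝ) ^ 2 * qd G p := by
  unfold qd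
  simp only [Pi.smul_apply, smul_eq_mul, Int.cast_mul, Finset.mul_sum]
  refine Finset.sum_congr rfl (fun i _ => Finset.sum_congr rfl (fun l _ => by ring))

/-- a family of positive integers with `m i ∣ 2 m k` for all `i`, `k`: all divide the maximum -/
lemma polar_max {ι : Type*} [Fintype ι] [Nonempty ι] (m : ι → ℤ) (hm : ∀ i, 0 < m i)
    (hdvd : ∀ i l, m i ∣ 2 * m l) : ∃ i₀, ∀ i, m i ∣ m i₀ := by
  obtain ⟨i₀, hi₀⟩ := Finite.exists_max m
  refine ⟨i₀, fun i => ?_⟩
  obtain ⟨k, hk⟩ := hdvd i₀ i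
  have h1 := hm i
  have h2 := hm i₀
  have h3 := hi₀ i
  have hk0 : 0 < k := by
    by_contra hcon
    push Not at hcon
    nlinarith
  have hk2 : k ≤ 2 := by
    by_contra hcon
    push Not at hcon
    nlinarith
  interval_cases k
  · exact ⟨2, by linarith⟩
  · have : m i = m i₀ := by linarith
    rw [this]

/-- (4.5) and (4.6) of the proof. -/
theorem polar (hG : EvenPos G) {k : ℤ} {f : ℂ → VC → ℂ → ℂ} (hf : TF G k f)
    {ψ : ℕ → ℂ → VC → ℂ} (hψ : FJ G k f ψ) {C j : ℕ} {φ : ℂ → VC → ℂ}
    (hφ : PhiData G ψ C j φ) (n₀ : ℤ) (p₀ : VZ) (hc : fc φ n₀ p₀ ≠ 0)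
    (hD : 2 * (j : ℝ) * n₀ - qd G p₀ < 0) :
    (j = 1 → (2 * (n₀ : ℝ) - qd G p₀ = -2 ∧ ∃ v : VZ, G *ᵥ v = p₀) ∨
      2 * (n₀ : ℝ) - qd G p₀ = -1 ∨ -(2 / 3) ≤ 2 * (n₀ : ℝ) - qd G p₀) ∧
    (2 ≤ j → -2 ≤ 2 * (j : ℝ) * n₀ - qd G p₀) := by
  classical
  obtain ⟨ι, hι, θ, c, hne, hcpos, hθ, hinj, hrep, hmom⟩ :=
    polar_sum hG hf hψ hφ n₀ p₀ hc hD
  have hj : 0 < j := hφ.hj
  choose b n m p hm hall hn hp hθb using hrep
  -- the norm of `λ` is `m² D₀ / j²`
  have hnorm : ∀ i, (j : ℝ) ^ 2 * (2 * (0 : ℝ) * b i + 2 * n i * m i - qd G (p i)) =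
      (m i : ℝ) ^ 2 * (2 * (j : ℝ) * n₀ - qd G p₀) := by
    intro i
    have h1 : qd G ((j : ℤ) • p i) = qd G (m i • p₀) := by rw [hp i]
    rw [polar_qd_smul, polar_qd_smul] at h1
    have h2 : ((j : ℝ)) * n i = m i * n₀ := by exact_mod_cast hn i
    push_cast at h1
    calc (j : ℝ) ^ 2 * (2 * (0 : ℝ) * b i + 2 * n i * m i - qd G (p i))
        = 2 * (j : ℝ) * m i * (j * n i) - (j : ℝ) ^ 2 * qd G (p i) := by ring
      _ = _ := by rw [h1, h2]; ring
  refine ⟨?_, ?_⟩
  · intro hj1
    subst hj1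
    obtain ⟨i⟩ := hne
    have hnorm1 := hnorm i
    have hmi : (1 : ℝ) ≤ m i := by exact_mod_cast (hm i)
    have hcases := allowed_cases hG (hall i)
    push_cast at hcases hnorm1
    simp only [one_pow, one_mul, mul_one, mul_zero, zero_mul, zero_add] at hcases hnorm1
    have hD' : 2 * (n₀ : ℝ) - qd G p₀ < 0 := by simpa using hD
    by_cases hm1 : m i = 1
    · rw [hm1] at hcases hnorm1
      simp only [Int.cast_one, one_pow, one_mul, mul_one] at hcases hnorm1
      have hpi : p i = p₀ := by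
        have := hp i
        rw [hm1] at this
        simpa using this
      rw [hnorm1] at hcases
      rw [hpi] at hcases
      exact hcases
    · have hm2 : (2 : ℝ) ≤ m i := by
        have : 2 ≤ m i := by have := hm i; omega
        exact_mod_cast this
      right; right
      have hge : -2 ≤ (m i : ℝ) ^ 2 * (2 * (n₀ : ℝ) - qd G p₀) := by
        rw [← hnorm1]
        have := (allowed_norm hG (hall i)).1
        push_cast at this
        simp only [mul_zero, zero_mul, zero_add] at this
        exact this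
      nlinarith
  · intro hj2
    obtain ⟨i₀, hi₀⟩ := polar_max m hm (by
      intro i l
      refine allowed_dvd hG (hall i) (hall l) (hm i) (hm l) ?_ ?_
      · have h1 := hn i
        have h2 := hn l
        have hj0 : (j : ℤ) ≠ 0 := by exact_mod_cast hj.ne'
        apply mul_left_cancel₀ hj0
        calc (j : ℤ) * (m l * n i) = m l * (j * n i) := by ring
          _ = m i * (j * n l) := by rw [h1, h2]; ring
          _ = j * (m i * n l) := by ring
      · have hj0 : (j : ℤ) ≠ 0 := by exact_mod_cast hj.ne'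
        have : (j : ℤ) • (m l • p i) = (j : ℤ) • (m i • p l) := by
          rw [smul_comm, hp i, smul_comm (j : ℤ) (m i), hp l, smul_comm]
        funext t
        have ht := congrFun this t
        simp only [Pi.smul_apply, smul_eq_mul] at ht ⊢
        exact mul_left_cancel₀ hj0 ht)
    -- the number of indices is at most `m i₀`
    have hcard1 : j ≤ Fintype.card ι := by
      refine polar_moment (fun i => e (θ i)) (fun i => e_ne_zero _) c hcpos j ?_
      intro k hk0 hkj
      have := hmom k hk0 hkj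
      rw [← this]
      refine Finset.sum_congr rfl (fun i _ => ?_)
      congr 1
      simp only [e, ← Complex.exp_nat_mul]
      congr 1
      ring
    have hcard2 : (Fintype.card ι : ℤ) ≤ m i₀ := by
      have hM : 0 < m i₀ := hm i₀
      choose q hq using hi₀
      -- `θ i = (b i * q i) / m i₀`
      have hθ' : ∀ i, θ i = ((b i * q i : ℤ) : ℝ) / m i₀ := by
        intro i
        have hmi : (m i : ℝ) ≠ 0 := by exact_mod_cast (hm i).ne'
        have hMr : (m i₀ : ℝ) ≠ 0 := by exact_mod_cast hM.ne'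
        rw [hθb i, div_eq_div_iff hmi hMr]
        have : (m i₀ : ℝ) = m i * q i := by exact_mod_cast hq i
        rw [this]; push_cast; ring
      have hmaps : ∀ i ∈ (Finset.univ : Finset ι), b i * q i ∈ Finset.Ico (0 : ℤ) (m i₀) := by
        intro i _
        have hMr : (0 : ℝ) < m i₀ := by exact_mod_cast hM
        have h1 := hθ i
        rw [hθ' i] at h1
        rw [Finset.mem_Ico]
        constructor
        · have := h1.1
          rw [le_div_iff₀ hMr, zero_mul] at this
          exact_mod_cast this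
        · have := h1.2
          rw [div_lt_one hMr] at this
          exact_mod_cast this
      have hinj' : Set.InjOn (fun i => b i * q i) ((Finset.univ : Finset ι) : Set ι) := by
        intro i _ l _ hil
        apply hinj
        rw [hθ' i, hθ' l]
        simp only at hil
        rw [hil]
      have := Finset.card_le_card_of_injOn _ hmaps hinj'
      rw [Finset.card_univ, Int.card_Ico] at this
      omega
    have hjM : (j : ℝ) ≤ m i₀ := by
      have : (j : ℤ) ≤ m i₀ := le_trans (by exact_mod_cast hcard1) hcard2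
      exact_mod_cast this
    have hnorm0 := hnorm i₀
    have hlow := (allowed_norm hG (hall i₀)).1
    push_cast at hlow
    have hjr : (1 : ℝ) ≤ j := by exact_mod_cast hj
    set D : ℝ := 2 * (j : ℝ) * n₀ - qd G p₀ with hDdef
    have h1 : (m i₀ : ℝ) ^ 2 * D ≥ -2 * (j : ℝ) ^ 2 := by
      rw [← hnorm0]
      nlinarith [sq_nonneg (j : ℝ)]
    have h2 : (j : ℝ) ^ 2 ≤ (m i₀ : ℝ) ^ 2 := by nlinarith
    by_contra hcon
    push Not at hcon
    nlinarith [sq_nonneg (m i₀ : ℝ), mul_pos (show (0 : ℝ) < j by linarith) (show (0 : ℝ) < j by linarith)]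

end Pool.Agent.Refl
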