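import Pool.Agent.Refl.Basic

/-! Module GAUSS: Gaussian integral of the quadratic form of `G`. -/

namespace Pool.Agent.Refl
open Matrix MeasureTheory

variable {G : Matrix (Fin 20) (Fin 20) ℤ}

open scoped MatrixOrder in
lemma ga_factor (hG : EvenPos G) : ∃ B : Matrix (Fin 20) (Fin 20) ℝ,
    G.map (Int.cast : ℤ → ℝ) = Bᵀ * B ∧ B.det ≠ 0 := by
  obtain ⟨B, hB⟩ := CStarAlgebra.nonneg_iff_eq_star_mul_self.mp hG.pos.posSemidef.nonneg
  rw [star_eq_conjTranspose, conjTranspose_eq_transpose_of_trivial] at hB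
  refine ⟨B, hB, fun h => ?_⟩
  have h1 := hG.pos.det_pos
  rw [hB, det_mul, h, mul_zero] at h1
  exact lt_irrefl _ h1

/-- the standard Gaussian factor -/
noncomputable def gaF (τ : ℂ) (c : VR) (w : VR) : ℂ :=
  Complex.exp (-(-(Real.pi * Complex.I * τ)) * ∑ i, (w i : ℂ) ^ 2 +
    ∑ i, (-(2 * Real.pi * Complex.I * c i)) * (w i : ℂ))

lemma ga_eq (τ : ℂ) (p : VZ) (B : Matrix (Fin 20) (Fin 20) ℝ)
    (hB : G.map (Int.cast : ℤ → ℝ) = Bᵀ * B) (hd : B.det ≠ 0) (u : VR) :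
    e (τ * (bil G u u : ℝ) / 2 - (dot p u : ℝ)) =
      gaF τ ((B⁻¹)ᵀ *ᵥ toR p) (toLin' B u) := by
  have hu : IsUnit B.det := isUnit_iff_ne_zero.2 hd
  have h1 : bil G u u = ∑ i, (B *ᵥ u) i ^ 2 := by
    rw [b_bil_eq, hB, ← mulVec_mulVec, dotProduct_mulVec, vecMul_transpose]
    unfold dotProduct
    apply Finset.sum_congr rfl; intro i _; ring
  have h2 : dot p u = ∑ i, ((B⁻¹)ᵀ *ᵥ toR p) i * (B *ᵥ u) i := by
    have h3 : ((B⁻¹)ᵀ *ᵥ toR p) ⬝ᵥ (B *ᵥ u) = toR p ⬝ᵥ u := by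
      rw [mulVec_transpose, ← dotProduct_mulVec, mulVec_mulVec, nonsing_inv_mul _ hu, one_mulVec]
    rw [b_dot_eq, ← h3]; rfl
  unfold e gaF
  rw [h1, h2, toLin'_apply]
  congr 1
  push_cast
  have h4 : ∑ i, (-(2 * Real.pi * Complex.I * ((((B⁻¹)ᵀ *ᵥ toR p) i : ℝ) : ℂ))) *
      (((B *ᵥ u) i : ℝ) : ℂ) = -(2 * Real.pi * Complex.I) *
        ∑ i, ((((B⁻¹)ᵀ *ᵥ toR p) i : ℝ) : ℂ) * (((B *ᵥ u) i : ℝ) : ℂ) := by
    rw [Finset.mul_sum]
    apply Finset.sum_congr rfl; intro i _; ring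
  rw [h4]
  ring

lemma ga_re {τ : ℂ} (hτ : 0 < τ.im) : 0 < (-(Real.pi * Complex.I * τ)).re := by
  simp [Complex.mul_re, Complex.mul_im, Real.pi_pos, hτ]

lemma ga_norm (hG : EvenPos G) (p : VZ) (B : Matrix (Fin 20) (Fin 20) ℝ)
    (hB : G.map (Int.cast : ℤ → ℝ) = Bᵀ * B) (hd : B.det ≠ 0) :
    ∑ i, ((B⁻¹)ᵀ *ᵥ toR p) i ^ 2 = qd G p := by
  have hu : IsUnit B.det := isUnit_iff_ne_zero.2 hd
  have hinv : (G.map (Int.cast : ℤ → ℝ))⁻¹ = B⁻¹ * (B⁻¹)ᵀ := by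
    apply inv_eq_right_inv
    rw [hB]
    calc Bᵀ * B * (B⁻¹ * (B⁻¹)ᵀ) = Bᵀ * (B * B⁻¹) * (B⁻¹)ᵀ := by simp only [Matrix.mul_assoc]
      _ = (B⁻¹ * B)ᵀ := by rw [mul_nonsing_inv _ hu, Matrix.mul_one, transpose_mul]
      _ = 1 := by rw [nonsing_inv_mul _ hu, transpose_one]
  rw [← bd_self, ← dot_ginv hG, b_dot_eq, ginv, hinv, ← mulVec_mulVec, dotProduct_mulVec,
    ← mulVec_transpose]
  unfold dotProduct
  apply Finset.sum_congr rfl; intro i _; ring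

lemma ga_me {B : Matrix (Fin 20) (Fin 20) ℝ} (hd : B.det ≠ 0) :
    MeasurableEmbedding (toLin' B : VR → VR) := by
  have hu : IsUnit B.det := isUnit_iff_ne_zero.2 hd
  have hinj : Function.Injective (toLin' B : VR → VR) := by
    intro x y h
    have h1 : B⁻¹ *ᵥ (B *ᵥ x) = B⁻¹ *ᵥ (B *ᵥ y) := by
      rw [← toLin'_apply B x, ← toLin'_apply B y, h]
    rwa [mulVec_mulVec, mulVec_mulVec, nonsing_inv_mul _ hu, one_mulVec, one_mulVec] at h1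
  have hcont : Continuous (toLin' B : VR → VR) := LinearMap.continuous_of_finiteDimensional _
  exact hcont.measurableEmbedding hinj

theorem gauss_integrable (hG : EvenPos G) {τ : ℂ} (hτ : 0 < τ.im) (p : VZ) :
    Integrable (fun u : VR => e (τ * (bil G u u : ℝ) / 2 - (dot p u : ℝ))) := by
  obtain ⟨B, hB, hd⟩ := ga_factor hG
  have h1 : (fun u : VR => e (τ * (bil G u u : ℝ) / 2 - (dot p u : ℝ))) =
      gaF τ ((B⁻¹)ᵀ *ᵥ toR p) ∘ (toLin' B : VR → VR) := by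
    funext u
    exact ga_eq τ p B hB hd u
  rw [h1, ← (ga_me hd).integrable_map_iff, Real.map_matrix_volume_pi_eq_smul_volume_pi hd]
  apply Integrable.smul_measure _ ENNReal.ofReal_ne_top
  exact GaussianFourier.integrable_cexp_neg_mul_sum_add (ga_re hτ) _

theorem gauss_integral (hG : EvenPos G) {τ : ℂ} (hτ : 0 < τ.im) (p : VZ) :
    ∫ u : VR, e (τ * (bil G u u : ℝ) / 2 - (dot p u : ℝ)) =
      -(τ ^ 10)⁻¹ * ((Real.sqrt (G.det : ℝ) : ℝ) : ℂ)⁻¹ * e (-(qd G p : ℂ) / (2 * τ)) := by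
  obtain ⟨B, hB, hd⟩ := ga_factor hG
  have hτ0 : τ ≠ 0 := by rintro rfl; simp at hτ
  have h1 : ∫ u : VR, e (τ * (bil G u u : ℝ) / 2 - (dot p u : ℝ)) =
      ∫ u : VR, gaF τ ((B⁻¹)ᵀ *ᵥ toR p) (toLin' B u) := by
    congr 1; funext u; exact ga_eq τ p B hB hd u
  have h2 : ∫ w : VR, gaF τ ((B⁻¹)ᵀ *ᵥ toR p) w =
      (Real.pi / (-(Real.pi * Complex.I * τ))) ^ ((Fintype.card (Fin 20) : ℂ) / 2) *
        Complex.exp ((∑ i, (-(2 * Real.pi * Complex.I * (((B⁻¹)ᵀ *ᵥ toR p) i : ℝ))) ^ 2) /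
          (4 * (-(Real.pi * Complex.I * τ)))) :=
    GaussianFourier.integral_cexp_neg_mul_sum_add (ga_re hτ) _
  have hπ : (Real.pi : ℂ) ≠ 0 := by exact_mod_cast Real.pi_ne_zero
  have h3 : (Real.pi / (-(Real.pi * Complex.I * τ))) ^ ((Fintype.card (Fin 20) : ℂ) / 2) =
      -(τ ^ 10)⁻¹ := by
    have h4 : ((Fintype.card (Fin 20) : ℂ) / 2) = ((10 : ℕ) : ℂ) := by
      rw [Fintype.card_fin]; norm_num
    rw [h4, Complex.cpow_natCast]
    have h5 : (Real.pi : ℂ) / (-(Real.pi * Complex.I * τ)) = Complex.I / τ := by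
      field_simp
      rw [Complex.I_sq]
    rw [h5, div_pow]
    have h6 : Complex.I ^ 10 = -1 := by
      rw [show (10 : ℕ) = 2 * 5 from rfl, pow_mul, Complex.I_sq]; norm_num
    rw [h6]
    field_simp
  have h7 : Complex.exp ((∑ i, (-(2 * Real.pi * Complex.I * (((B⁻¹)ᵀ *ᵥ toR p) i : ℝ))) ^ 2) /
          (4 * (-(Real.pi * Complex.I * τ)))) = e (-(qd G p : ℂ) / (2 * τ)) := by
    have h8 : ∑ i, (-(2 * Real.pi * Complex.I * ((((B⁻¹)ᵀ *ᵥ toR p) i : ℝ) : ℂ))) ^ 2 =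
        -(4 * Real.pi ^ 2) * (qd G p : ℂ) := by
      rw [← ga_norm hG p B hB hd]
      push_cast
      rw [Finset.mul_sum]
      apply Finset.sum_congr rfl; intro i _
      ring_nf
      rw [Complex.I_sq]; ring
    rw [h8]
    unfold e
    congr 1
    field_simp
    ring_nf
    rw [Complex.I_sq]; ring
  have h9 : Real.sqrt (G.det : ℝ) = |B.det| := by
    have : ((G.det : ℤ) : ℝ) = (G.map (Int.cast : ℤ → ℝ)).det := Int.cast_det G
    rw [this, hB, det_mul, det_transpose, ← sq, Real.sqrt_sq_eq_abs]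
  rw [h1, ← (ga_me hd).integral_map, Real.map_matrix_volume_pi_eq_smul_volume_pi hd,
    integral_smul_measure, h2, h3, h7, h9, ENNReal.toReal_ofReal (abs_nonneg _), abs_inv,
    Complex.real_smul, Complex.ofReal_inv]
  ring

end Pool.Agent.Refl
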