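import Mathlib

/-!
# Contour shifts over tori: auxiliary results
-/

namespace Pool.Agent.Refl

open MeasureTheory Set Filter Topology
open scoped Pointwise

/-- the integral of a periodic function over the unit cube is translation invariant -/
theorem sh_trans {ι : Type} [Fintype ι] [DecidableEq ι] (g : (ι → ℝ) → ℂ)
    (hg : ∀ (y : ι → ℝ) (x : ι → ℤ), g (y + fun i => (x i : ℝ)) = g y) (r : ι → ℝ) :
    ∫ y in Set.Icc (0 : ι → ℝ) 1, g (y + r) = ∫ y in Set.Icc (0 : ι → ℝ) 1, g y := by
  let b := Pi.basisFun ℝ ι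
  have hs : IsAddFundamentalDomain (Submodule.span ℤ (Set.range b)).toAddSubgroup
    (ZSpan.fundamentalDomain b) (volume : Measure (ι → ℝ)) := ZSpan.isAddFundamentalDomain' b volume
  have ht := hs.vadd_of_comm r
  have hinv : ∀ (γ : (Submodule.span ℤ (Set.range b)).toAddSubgroup) (x : ι → ℝ),
      g (γ +ᵥ x) = g x := by
    rintro ⟨γ, hγ⟩ x
    have h1 : ∀ i, ∃ k : ℤ, (k : ℝ) = γ i := by
      intro i
      have h2 := (b.mem_span_iff_repr_mem ℤ γ).1 hγ i
      obtain ⟨k, hk⟩ := h2
      refine ⟨k, ?_⟩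
      rw [Pi.basisFun_repr] at hk
      rw [← hk]
      simp
    choose k hk using h1
    have h3 : γ = fun i => (k i : ℝ) := funext fun i => (hk i).symm
    show g (γ + x) = g x
    rw [h3, add_comm, hg]
  have hcount : Countable (Submodule.span ℤ (Set.range b)).toAddSubgroup :=
    inferInstanceAs (Countable (Submodule.span ℤ (Set.range b)))
  have h1 := hs.setIntegral_eq ht (f := g) hinv
  have h2 : (ZSpan.fundamentalDomain b : Set (ι → ℝ)) =ᵐ[volume] Set.Icc (0 : ι → ℝ) 1 := by
    rw [ZSpan.fundamentalDomain_pi_basisFun]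
    exact Measure.univ_pi_Ico_ae_eq_Icc
  have h3 : ∫ y in r +ᵥ ZSpan.fundamentalDomain b, g y =
      ∫ y in ZSpan.fundamentalDomain b, g (y + r) := by
    have h4 := (measurePreserving_add_right (volume : Measure (ι → ℝ)) r).setIntegral_preimage_emb
      (measurableEmbedding_addRight r) g (r +ᵥ ZSpan.fundamentalDomain b)
    rw [← h4]
    congr 2
    ext y
    simp only [Set.mem_preimage, Set.mem_vadd_set, vadd_eq_add]
    constructor
    · rintro ⟨z, hz, hzy⟩
      have : z = y := by
        rw [add_comm] at hzy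
        exact add_right_cancel hzy
      rwa [← this]
    · intro hy
      exact ⟨y, hy, add_comm _ _⟩
  rw [setIntegral_congr_set h2, h3, setIntegral_congr_set h2] at h1
  exact h1.symm

/-- holomorphy of integrals depending on a parameter -/
theorem sh_hol {X : Type*} [TopologicalSpace X] [MeasurableSpace X] [OpensMeasurableSpace X]
    (μ : Measure X) [IsFiniteMeasureOnCompacts μ] {K : Set X} (hK : IsCompact K)
    (hKm : MeasurableSet K) {U : Set ℂ} (hU : IsOpen U) {F : ℂ → X → ℂ}
    (hc : ContinuousOn (fun q : ℂ × X => F q.1 q.2) (U ×ˢ K))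
    (hd : ∀ y ∈ K, DifferentiableOn ℂ (fun w => F w y) U) :
    DifferentiableOn ℂ (fun w => ∫ y in K, F w y ∂μ) U := by
  intro w₀ hw₀
  obtain ⟨r, hr, hrU⟩ := Metric.isOpen_iff.1 hU w₀ hw₀
  have hsub : Metric.closedBall w₀ (r / 2) ⊆ U :=
    (Metric.closedBall_subset_ball (by linarith)).trans hrU
  have hcw : ∀ w ∈ U, ContinuousOn (F w) K := fun w hw =>
    hc.comp (f := fun y => (w, y)) (by fun_prop) fun y hy => ⟨hw, hy⟩
  obtain ⟨C, hC⟩ := ((isCompact_closedBall w₀ (r / 2)).prod hK).exists_bound_of_continuousOn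
    (hc.mono (Set.prod_mono hsub le_rfl))
  have hC' : ∀ w ∈ Metric.closedBall w₀ (r / 2), ∀ y ∈ K, ‖F w y‖ ≤ C :=
    fun w hw y hy => hC (w, y) ⟨hw, hy⟩
  have hfin : μ K < ⊤ := hK.measure_lt_top
  have hmeas : ∀ w ∈ U, AEStronglyMeasurable (F w) (μ.restrict K) := fun w hw =>
    (hcw w hw).aestronglyMeasurable_of_isCompact hK hKm
  have hder : ∀ w ∈ Metric.ball w₀ (r / 4), ∀ y ∈ K,
      ‖deriv (fun w => F w y) w‖ ≤ C / (r / 4) := by
    intro w hw y hy
    have hb : Metric.closedBall w (r / 4) ⊆ Metric.closedBall w₀ (r / 2) := by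
      intro u hu
      rw [Metric.mem_closedBall] at hu ⊢
      rw [Metric.mem_ball] at hw
      linarith [dist_triangle u w w₀]
    refine Complex.norm_deriv_le_of_forall_mem_sphere_norm_le (by linarith) ?_ ?_
    · have h1 : DifferentiableOn ℂ (fun w => F w y) (Metric.closedBall w (r / 4)) :=
        (hd y hy).mono (hb.trans hsub)
      exact ⟨h1.mono Metric.ball_subset_closedBall,
        h1.continuousOn.mono (Metric.closure_ball_subset_closedBall)⟩
    · intro u hu
      exact hC' u (hb (Metric.sphere_subset_closedBall hu)) y hy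
  have hae : ∀ᵐ y ∂(μ.restrict K), y ∈ K := ae_restrict_mem hKm
  have hball : Metric.ball w₀ (r / 4) ⊆ U := fun w hw => hrU (by
    rw [Metric.mem_ball] at hw ⊢; linarith)
  have key := hasDerivAt_integral_of_dominated_loc_of_deriv_le (μ := μ.restrict K) (𝕜 := ℂ)
    (F := F) (x₀ := w₀) (s := Metric.ball w₀ (r / 4)) (bound := fun _ => C / (r / 4))
    (Metric.ball_mem_nhds _ (by linarith))
    (by
      filter_upwards [hU.mem_nhds hw₀] with w hw
      exact hmeas w hw)
    (by
      have : IsFiniteMeasure (μ.restrict K) := isFiniteMeasure_restrict.2 hfin.ne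
      refine Integrable.of_bound (hmeas w₀ hw₀) C ?_
      filter_upwards [hae] with y hy
      exact hC' w₀ (Metric.mem_closedBall_self (by linarith)) y hy)
    (F' := fun w y => deriv (fun w => F w y) w)
    (by
      -- the derivative is a limit of difference quotients
      have hlim : ∀ᶠ n : ℕ in atTop, w₀ + (1 / ((n : ℂ) + 1)) ∈ U := by
        have : Tendsto (fun n : ℕ => w₀ + (1 / ((n : ℂ) + 1))) atTop (𝓝 (w₀ + 0)) :=
          tendsto_const_nhds.add tendsto_one_div_add_atTop_nhds_zero_nat
        rw [add_zero] at this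
        exact this.eventually (hU.mem_nhds hw₀)
      obtain ⟨n₀, hn₀⟩ := eventually_atTop.1 hlim
      refine aestronglyMeasurable_of_tendsto_ae atTop
        (f := fun n y => ((1 / (((n + n₀ : ℕ) : ℂ) + 1))⁻¹) •
          (F (w₀ + (1 / (((n + n₀ : ℕ) : ℂ) + 1))) y - F w₀ y)) ?_ ?_
      · intro n
        have h := ((hmeas _ (hn₀ (n + n₀) (Nat.le_add_left _ _))).sub
          (hmeas _ hw₀)).const_smul ((1 / (((n + n₀ : ℕ) : ℂ) + 1))⁻¹)
        exact h
      · filter_upwards [hae] with y hy
        have h1 : HasDerivAt (fun w => F w y) (deriv (fun w => F w y) w₀) w₀ :=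
          ((hd y hy).differentiableAt (hU.mem_nhds hw₀)).hasDerivAt
        have h2 := hasDerivAt_iff_tendsto_slope_zero.1 h1
        have h3 : Tendsto (fun n : ℕ => (1 / (((n + n₀ : ℕ) : ℂ) + 1))) atTop (𝓝[≠] 0) := by
          rw [tendsto_nhdsWithin_iff]
          constructor
          · exact (tendsto_one_div_add_atTop_nhds_zero_nat (𝕜 := ℂ)).comp
              (tendsto_add_atTop_nat n₀)
          · refine Eventually.of_forall fun n => ?_
            show (1 / (((n + n₀ : ℕ) : ℂ) + 1)) ≠ 0
            refine one_div_ne_zero ?_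
            exact_mod_cast Nat.succ_ne_zero (n + n₀)
        exact h2.comp h3)
    (by
      filter_upwards [hae] with y hy
      intro w hw
      exact hder w hw y hy)
    (by
      exact integrableOn_const hfin.ne)
    (by
      filter_upwards [hae] with y hy
      intro w hw
      exact ((hd y hy).differentiableAt (hU.mem_nhds (hball hw))).hasDerivAt)
  exact key.2.differentiableAt.differentiableWithinAt

/-- a holomorphic function invariant under real translations is constant -/
theorem sh_const {U : Set ℂ} (hU : IsOpen U) (hU' : IsPreconnected U) {J : ℂ → ℂ}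
    (hJ : DifferentiableOn ℂ J U) (hinv : ∀ w ∈ U, ∀ t : ℝ, J (w + t) = J w) {w w' : ℂ}
    (hw : w ∈ U) (hw' : w' ∈ U) : J w = J w' := by
  refine hU.is_const_of_deriv_eq_zero hU' hJ ?_ hw hw'
  intro u hu
  have h1 : HasDerivAt J (deriv J u) u := (hJ.differentiableAt (hU.mem_nhds hu)).hasDerivAt
  have h2 : HasDerivAt (fun t : ℝ => J (u + t)) (deriv J u) 0 := by
    have h3 : HasDerivAt (fun t : ℝ => u + (t : ℂ)) 1 0 :=
      (Complex.ofRealCLM.hasDerivAt (x := (0 : ℝ))).const_add u
    have h4 : HasDerivAt J (deriv J u) (u + ((0 : ℝ) : ℂ)) := by simpa using h1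
    simpa [Function.comp_def] using HasDerivAt.scomp (0 : ℝ) h4 h3
  have h5 : (fun t : ℝ => J (u + t)) = fun _ => J u := funext fun t => hinv u hu t
  rw [h5] at h2
  exact h2.unique (hasDerivAt_const _ _)

end Pool.Agent.Refl
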