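import Pool.Agent.Refl.Basic
import Pool.Agent.Refl.ShiftAux

/-! Module SHIFT: the Fourier coefficient `c(n,p)` can be computed on any slice. -/

namespace Pool.Agent.Refl
open Matrix MeasureTheory Set

lemma sh_e_cont : Continuous e := by
  unfold e
  fun_prop

lemma sh_e_diff : Differentiable ℂ e := by
  unfold e
  fun_prop

lemma sh_dot_cont (p : VZ) : Continuous (fun z : VC => dot p z) := by
  unfold dot
  fun_prop

lemma sh_ofR_cont : Continuous ofR := by
  unfold ofR
  fun_prop

lemma sh_dot_add (p : VZ) (z z' : VC) : dot p (z + z') = dot p z + dot p z' := by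
  simp only [dot, Pi.add_apply, mul_add, Finset.sum_add_distrib]

lemma sh_dot_toC (p x : VZ) : dot p (toC x) = ((∑ i, p i * x i : ℤ) : ℂ) := by
  simp only [dot, toC]
  push_cast
  rfl

lemma sh_e_dot_periodic (p x : VZ) (z : VC) : e (-(dot p (z + toC x))) = e (-(dot p z)) := by
  rw [sh_dot_add, neg_add, e_add, sh_dot_toC, ← Int.cast_neg, e_int, mul_one]

lemma sh_ofR_add (x y : VR) : ofR (x + y) = ofR x + ofR y := by
  funext i; simp [ofR]

lemma sh_ofR_smul (t : ℝ) (x : VR) : ofR (t • x) = (t : ℂ) • ofR x := by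
  funext i; simp [ofR]

lemma sh_ofR_toR (x : VZ) : ofR (toR x) = toC x := by
  funext i; simp [ofR, toR, toC]

lemma sh_cube_compact : IsCompact cube := isCompact_Icc

lemma sh_cube_meas : MeasurableSet cube := measurableSet_Icc

lemma sh_H_open : IsOpen {w : ℂ | 0 < w.im} := isOpen_lt continuous_const Complex.continuous_im

lemma sh_H_conn : IsPreconnected {w : ℂ | 0 < w.im} := (convex_halfSpace_im_gt 0).isPreconnected

section

variable {φ : ℂ → VC → ℂ}

lemma sh_line (gh : GH HV (fun Z : ℂ × VC => φ Z.1 Z.2)) (a b : ℂ) (z v : VC) (w₀ : ℂ)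
    (h : 0 < (a + w₀ * b).im) :
    DifferentiableAt ℂ (fun w : ℂ => φ (a + w * b) (z + w • v)) w₀ := by
  have h1 := gh.line (a + w₀ * b, z + w₀ • v) h (b, v)
  have h2 : (fun w : ℂ => φ (a + w * b) (z + w • v)) =
      (fun w : ℂ => φ ((a + w₀ * b, z + w₀ • v) + w • ((b, v) : ℂ × VC)).1
        ((a + w₀ * b, z + w₀ • v) + w • ((b, v) : ℂ × VC)).2) ∘ fun w => w - w₀ := by
    funext w
    simp only [Function.comp, Prod.smul_mk, Prod.mk_add_mk, smul_eq_mul]
    congr 1
    · ring
    · rw [add_assoc, ← add_smul, add_sub_cancel]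
  rw [h2]
  refine DifferentiableAt.comp w₀ ?_ (by fun_prop)
  rw [sub_self]
  exact h1

lemma sh_hP_ofR (hP : ∀ τ z (x : VZ), 0 < τ.im → φ τ (z + toC x) = φ τ z)
    (τ : ℂ) (hτ : 0 < τ.im) (p : VZ) (z : VC) (r : VR) :
    ∫ y in cube, φ τ (z + ofR r + ofR y) * e (-(dot p (z + ofR r + ofR y))) =
      ∫ y in cube, φ τ (z + ofR y) * e (-(dot p (z + ofR y))) := by
  have h := sh_trans (fun y : Fin 20 → ℝ => φ τ (z + ofR y) * e (-(dot p (z + ofR y))))
    (fun y x => by
      have h1 : z + ofR (y + fun i => (x i : ℝ)) = z + ofR y + toC x := by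
        have : (fun i => (x i : ℝ)) = toR x := rfl
        rw [this, sh_ofR_add, sh_ofR_toR, add_assoc]
      show φ τ (z + ofR (y + fun i => (x i : ℝ))) * e (-(dot p (z + ofR (y + fun i => (x i : ℝ))))) =
        φ τ (z + ofR y) * e (-(dot p (z + ofR y)))
      rw [h1, hP τ _ x hτ, sh_e_dot_periodic]) r
  show ∫ y in Set.Icc (0 : Fin 20 → ℝ) 1, φ τ (z + ofR r + ofR y) *
    e (-(dot p (z + ofR r + ofR y))) = _
  rw [show (∫ y in cube, φ τ (z + ofR y) * e (-(dot p (z + ofR y)))) =
    ∫ y in Set.Icc (0 : Fin 20 → ℝ) 1, φ τ (z + ofR y) * e (-(dot p (z + ofR y))) from rfl, ← h]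
  refine integral_congr_ae (Filter.Eventually.of_forall fun y => ?_)
  have h1 : z + ofR r + ofR y = z + ofR (y + r) := by
    rw [sh_ofR_add]; abel
  show φ τ (z + ofR r + ofR y) * e (-(dot p (z + ofR r + ofR y))) =
    φ τ (z + ofR (y + r)) * e (-(dot p (z + ofR (y + r))))
  rw [h1]

/-- the partial Fourier coefficient in `z` does not depend on the base point -/
theorem partial_shift (gh : GH HV (fun Z : ℂ × VC => φ Z.1 Z.2))
    (hP : ∀ τ z (x : VZ), 0 < τ.im → φ τ (z + toC x) = φ τ z)
    (τ : ℂ) (hτ : 0 < τ.im) (p : VZ) (z : VC) :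
    ∫ y in cube, φ τ (z + ofR y) * e (-(dot p (z + ofR y))) =
      ∫ y in cube, φ τ (ofR y) * e (-(dot p (ofR y))) := by
  -- imaginary translations
  have key : ∀ (z₀ : VC) (η : VR),
      ∫ y in cube, φ τ (z₀ + Complex.I • ofR η + ofR y) *
        e (-(dot p (z₀ + Complex.I • ofR η + ofR y))) =
      ∫ y in cube, φ τ (z₀ + ofR y) * e (-(dot p (z₀ + ofR y))) := by
    intro z₀ η
    let J : ℂ → ℂ := fun w => ∫ y in cube, φ τ (z₀ + w • ofR η + ofR y) *
        e (-(dot p (z₀ + w • ofR η + ofR y)))
    have hJ : DifferentiableOn ℂ J Set.univ := by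
      refine sh_hol (volume : Measure VR) sh_cube_compact sh_cube_meas isOpen_univ
        (F := fun w y => φ τ (z₀ + w • ofR η + ofR y) *
          e (-(dot p (z₀ + w • ofR η + ofR y)))) ?_ ?_
      · have hc1 : Continuous fun q : ℂ × VR => z₀ + q.1 • ofR η + ofR q.2 :=
          (continuous_const.add (continuous_fst.smul continuous_const)).add
            (sh_ofR_cont.comp continuous_snd)
        have hc2 : Continuous fun q : ℂ × VR => φ τ (z₀ + q.1 • ofR η + ofR q.2) := by
          rw [← continuousOn_univ]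
          exact gh.cont.comp (f := fun q : ℂ × VR => (τ, z₀ + q.1 • ofR η + ofR q.2))
            (continuous_const.prodMk hc1).continuousOn fun q _ => hτ
        exact (hc2.mul (sh_e_cont.comp ((sh_dot_cont p).comp hc1).neg)).continuousOn
      · intro y _ w _
        refine DifferentiableAt.differentiableWithinAt ?_
        have h1 := sh_line gh τ 0 (z₀ + ofR y) (ofR η) w (by simpa using hτ)
        have h2 : (fun w : ℂ => φ (τ + w * 0) (z₀ + ofR y + w • ofR η)) =
            fun w : ℂ => φ τ (z₀ + w • ofR η + ofR y) := by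
          funext w
          rw [mul_zero, add_zero]
          congr 1
          abel
        rw [h2] at h1
        refine h1.mul (sh_e_diff.differentiableAt.comp w (DifferentiableAt.neg ?_))
        unfold dot
        simp only [Pi.add_apply, Pi.smul_apply, smul_eq_mul]
        fun_prop
    have hinv : ∀ w ∈ Set.univ, ∀ t : ℝ, J (w + t) = J w := by
      intro w _ t
      have h1 := sh_hP_ofR hP τ hτ p (z₀ + w • ofR η) (t • η)
      show (∫ y in cube, φ τ (z₀ + (w + t) • ofR η + ofR y) *
        e (-(dot p (z₀ + (w + t) • ofR η + ofR y)))) = _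
      have h2 : z₀ + (w + t) • ofR η = z₀ + w • ofR η + ofR (t • η) := by
        rw [sh_ofR_smul, add_smul, add_assoc]
      rw [h2]
      exact h1
    have h1 := sh_const isOpen_univ isPreconnected_univ hJ hinv (Set.mem_univ Complex.I)
      (Set.mem_univ 0)
    have h2 : J 0 = ∫ y in cube, φ τ (z₀ + ofR y) * e (-(dot p (z₀ + ofR y))) := by
      show (∫ y in cube, φ τ (z₀ + (0 : ℂ) • ofR η + ofR y) *
        e (-(dot p (z₀ + (0 : ℂ) • ofR η + ofR y)))) = _
      rw [zero_smul, add_zero]
    rw [← h2, ← h1]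
  have hz : z = 0 + ofR (fun i => (z i).re) + Complex.I • ofR (fun i => (z i).im) := by
    funext i
    simp only [Pi.add_apply, Pi.smul_apply, ofR, smul_eq_mul, Pi.zero_apply, zero_add]
    rw [mul_comm]
    exact (Complex.re_add_im (z i)).symm
  rw [hz, key, sh_hP_ofR hP τ hτ]
  simp only [zero_add]

theorem fc_shift (gh : GH HV (fun Z : ℂ × VC => φ Z.1 Z.2))
    (hT : ∀ τ z, 0 < τ.im → φ (τ + 1) z = φ τ z)
    (hP : ∀ τ z (x : VZ), 0 < τ.im → φ τ (z + toC x) = φ τ z)
    (n : ℤ) (p : VZ) (x : VR) (N : ℕ) (hN : 0 < N) (T : ℝ) (hT0 : 0 < T) :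
    fc φ n p = (1 / (N : ℂ)) * ∫ t in (0:ℝ)..N, ∫ y in cube,
      φ (t + T * Complex.I) ((t + T * Complex.I : ℂ) • ofR x + ofR y) *
        e (-(n * (t + T * Complex.I) + dot p ((t + T * Complex.I : ℂ) • ofR x + ofR y))) := by
  let c : ℂ → ℂ := fun τ => ∫ y in cube, φ τ (ofR y) * e (-(dot p (ofR y)))
  let h : ℂ → ℂ := fun τ => c τ * e (-(n * τ))
  have hc : DifferentiableOn ℂ c {w : ℂ | 0 < w.im} := by
    refine sh_hol (volume : Measure VR) sh_cube_compact sh_cube_meas sh_H_open
      (F := fun w y => φ w (ofR y) * e (-(dot p (ofR y)))) ?_ ?_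
    · refine ContinuousOn.mul ?_ ?_
      · refine gh.cont.comp (f := fun q : ℂ × VR => (q.1, ofR q.2)) ?_ ?_
        · exact (continuous_fst.prodMk (sh_ofR_cont.comp continuous_snd)).continuousOn
        · rintro ⟨w, y⟩ ⟨hw, -⟩
          exact hw
      · exact (sh_e_cont.comp ((sh_dot_cont p).comp (sh_ofR_cont.comp continuous_snd)).neg).continuousOn
    · intro y _ w hw
      refine DifferentiableAt.differentiableWithinAt ?_
      have h1 := sh_line gh 0 1 (ofR y) 0 w (by simpa using hw)
      have h2 : (fun w : ℂ => φ (0 + w * 1) (ofR y + w • (0 : VC))) =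
          fun w : ℂ => φ w (ofR y) := by
        funext w
        rw [smul_zero, add_zero, mul_one, zero_add]
      rw [h2] at h1
      exact h1.mul_const _
  have hh : DifferentiableOn ℂ h {w : ℂ | 0 < w.im} := by
    refine hc.mul ?_
    have : Differentiable ℂ fun τ : ℂ => e (-(n * τ)) := sh_e_diff.comp (by fun_prop)
    exact this.differentiableOn
  have hper : ∀ τ, 0 < τ.im → h (τ + 1) = h τ := by
    intro τ hτ
    have h1 : c (τ + 1) = c τ := by
      refine integral_congr_ae (Filter.Eventually.of_forall fun y => ?_)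
      show φ (τ + 1) (ofR y) * _ = φ τ (ofR y) * _
      rw [hT τ _ hτ]
    show c (τ + 1) * e (-(n * (τ + 1))) = c τ * e (-(n * τ))
    rw [h1, mul_add, neg_add, e_add, mul_one, ← Int.cast_neg, e_int, mul_one]
  -- the inner integrals
  have inner : ∀ (τ : ℂ), 0 < τ.im → ∀ z : VC,
      ∫ y in cube, φ τ (z + ofR y) * e (-(n * τ + dot p (z + ofR y))) = h τ := by
    intro τ hτ z
    have h1 := partial_shift gh hP τ hτ p z
    have h2 : ∀ y : VR, φ τ (z + ofR y) * e (-(n * τ + dot p (z + ofR y))) =
        (φ τ (z + ofR y) * e (-(dot p (z + ofR y)))) * e (-(n * τ)) := by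
      intro y
      rw [neg_add, e_add]; ring
    simp only [h2]
    rw [integral_mul_const, h1]
  have hcont : ∀ s : ℝ, 0 < s → Continuous fun t : ℝ => h (t + s * Complex.I) := by
    intro s hs
    rw [← continuousOn_univ]
    refine hh.continuousOn.comp (f := fun t : ℝ => (t : ℂ) + s * Complex.I) (by fun_prop) ?_
    intro t _
    show 0 < ((t : ℂ) + s * Complex.I).im
    simpa using hs
  have hper' : ∀ s : ℝ, 0 < s → Function.Periodic (fun t : ℝ => h (t + s * Complex.I)) 1 := by
    intro s hs t
    have h1 := hper (t + s * Complex.I) (by simpa using hs)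
    show h (((t + 1 : ℝ) : ℂ) + s * Complex.I) = h (t + s * Complex.I)
    rw [← h1]
    congr 1
    push_cast
    ring
  -- change of height
  have height : ∀ s : ℝ, 0 < s → ∫ t in (0:ℝ)..1, h (t + s * Complex.I) =
      ∫ t in (0:ℝ)..1, h (t + Complex.I) := by
    intro s hs
    let J : ℂ → ℂ := fun w => ∫ t in Set.Icc (0:ℝ) 1, h (w + t)
    have hJ' : ∀ w, J w = ∫ t in (0:ℝ)..1, h (w + t) := by
      intro w
      rw [intervalIntegral.integral_of_le zero_le_one, ← integral_Icc_eq_integral_Ioc]
    have hJ : DifferentiableOn ℂ J {w : ℂ | 0 < w.im} := by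
      refine sh_hol (volume : Measure ℝ) isCompact_Icc measurableSet_Icc sh_H_open
        (F := fun w t => h (w + (t : ℝ))) ?_ ?_
      · refine hh.continuousOn.comp (f := fun q : ℂ × ℝ => q.1 + (q.2 : ℂ)) (by fun_prop) ?_
        rintro ⟨w, t⟩ ⟨hw, -⟩
        show 0 < (w + (t : ℂ)).im
        simpa using hw
      · intro t _
        refine hh.comp (f := fun w : ℂ => w + (t : ℂ)) (by fun_prop) ?_
        intro w hw
        show 0 < (w + (t : ℂ)).im
        simpa using hw
    have hinv : ∀ w ∈ {w : ℂ | 0 < w.im}, ∀ t : ℝ, J (w + t) = J w := by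
      intro w hw t
      rw [hJ', hJ']
      have hp : Function.Periodic (fun u : ℝ => h (w + u)) 1 := by
        intro u
        have h1 := hper (w + u) (by
          have : (w + (u : ℂ)).im = w.im := by simp
          rw [this]; exact hw)
        show h (w + ((u + 1 : ℝ) : ℂ)) = h (w + u)
        rw [← h1]
        congr 1
        push_cast
        ring
      have h1 := hp.intervalIntegral_add_eq t 0
      rw [zero_add] at h1
      rw [← h1]
      have h2 : ∫ u in (0:ℝ)..1, h (w + t + u) = ∫ u in (0:ℝ)..1, (fun u : ℝ => h (w + u)) (u + t) := by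
        refine intervalIntegral.integral_congr fun u _ => ?_
        show h (w + t + u) = h (w + ((u + t : ℝ) : ℂ))
        congr 1
        push_cast
        ring
      have h3 := intervalIntegral.integral_comp_add_right (a := (0:ℝ)) (b := 1)
        (fun u : ℝ => h (w + u)) t
      rw [zero_add, add_comm 1 t] at h3
      rw [h2]
      exact h3
    have h1 := sh_const sh_H_open sh_H_conn hJ hinv
      (show (s * Complex.I : ℂ) ∈ {w : ℂ | 0 < w.im} by simpa using hs)
      (show Complex.I ∈ {w : ℂ | 0 < w.im} by simp)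
    rw [hJ', hJ'] at h1
    rw [show (∫ t in (0:ℝ)..1, h (t + s * Complex.I)) = ∫ t in (0:ℝ)..1, h (s * Complex.I + t) from
      intervalIntegral.integral_congr fun t _ => by
        show h (t + s * Complex.I) = h (s * Complex.I + t)
        rw [add_comm], h1]
    refine intervalIntegral.integral_congr fun t _ => ?_
    show h (Complex.I + t) = h (t + Complex.I)
    rw [add_comm]
  -- left side
  have hl : fc φ n p = ∫ t in (0:ℝ)..1, h (t + Complex.I) := by
    unfold fc
    refine intervalIntegral.integral_congr fun t _ => ?_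
    have h1 := inner (t + Complex.I) (by simp) 0
    simp only [zero_add] at h1
    exact h1
  -- right side
  have hr : (∫ t in (0:ℝ)..N, ∫ y in cube,
      φ (t + T * Complex.I) ((t + T * Complex.I : ℂ) • ofR x + ofR y) *
        e (-(n * (t + T * Complex.I) + dot p ((t + T * Complex.I : ℂ) • ofR x + ofR y)))) =
      N * ∫ t in (0:ℝ)..1, h (t + T * Complex.I) := by
    have h1 : (∫ t in (0:ℝ)..N, ∫ y in cube,
      φ (t + T * Complex.I) ((t + T * Complex.I : ℂ) • ofR x + ofR y) *
        e (-(n * (t + T * Complex.I) + dot p ((t + T * Complex.I : ℂ) • ofR x + ofR y)))) =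
        ∫ t in (0:ℝ)..N, h (t + T * Complex.I) := by
      refine intervalIntegral.integral_congr fun t _ => ?_
      exact inner (t + T * Complex.I) (by simpa using hT0) _
    rw [h1]
    have h2 := (hper' T hT0).intervalIntegral_add_zsmul_eq (N : ℤ) 0
      (fun t₁ t₂ => (hcont T hT0).intervalIntegrable _ _)
    simpa using h2
  rw [hr, height T hT0, ← hl]
  have hN' : (N : ℂ) ≠ 0 := by exact_mod_cast hN.ne'
  field_simp

end

end Pool.Agent.Refl
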