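import Pool.Agent.Refl.ThetaAux
import Pool.Agent.Refl.Shift
import Pool.Agent.Refl.DiscMod
import Pool.Agent.Refl.Gauss

/-! Module THETA: theta decomposition. -/

namespace Pool.Agent.Refl
open MeasureTheory Topology Matrix

variable {G : Matrix (Fin 20) (Fin 20) ℤ}

/-- the `p`-th Fourier coefficient in `z` -/
noncomputable def cp (φ : ℂ → VC → ℂ) (p : VZ) (τ : ℂ) : ℂ :=
  ∫ y in cube, φ τ (ofR y) * e (-(dot p (ofR y)))

/-- the components of the theta decomposition -/
noncomputable def th_h (G : Matrix (Fin 20) (Fin 20) ℤ) (φ : ℂ → VC → ℂ) (p : VZ) (τ : ℂ) : ℂ :=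
  e (-(qd G p : ℂ) * τ / 2) * cp φ p τ

theorem th_dot_add {R : Type*} [CommRing R] (p : VZ) (y z : Fin 20 → R) :
    dot p (y + z) = dot p y + dot p z := by
  simp [dot, mul_add, Finset.sum_add_distrib]

theorem th_add_dot {R : Type*} [CommRing R] (p q : VZ) (y : Fin 20 → R) :
    dot (p + q) y = dot p y + dot q y := by
  simp [dot, add_mul, Finset.sum_add_distrib]

theorem th_dot_smul {R : Type*} [CommRing R] (p : VZ) (c : R) (y : Fin 20 → R) :
    dot p (c • y) = c * dot p y := by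
  simp only [dot, Pi.smul_apply, smul_eq_mul, Finset.mul_sum]
  exact Finset.sum_congr rfl fun i _ => by ring

theorem th_mulVec_dot {R : Type*} [CommRing R] (hG : EvenPos G) (x : VZ) (z : Fin 20 → R) :
    dot (G *ᵥ x) z = bil G (fun i => (x i : R)) z := by
  simp only [dot, bil, Matrix.mulVec, dotProduct, Int.cast_sum, Int.cast_mul, Finset.sum_mul]
  rw [Finset.sum_comm]
  refine Finset.sum_congr rfl fun i _ => Finset.sum_congr rfl fun j _ => ?_
  have : G j i = G i j := by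
    have := congrFun (congrFun hG.symm i) j
    simpa [Matrix.transpose_apply] using this
  rw [this]

theorem th_bd_symm (hG : EvenPos G) (p q : VZ) : bd G p q = bd G q p := by
  rw [← dot_ginv hG, ← dot_ginv hG, ← bil_ginv hG, ← bil_ginv hG, bil_symm hG]

theorem th_qd_add (hG : EvenPos G) (p x : VZ) :
    qd G (p + G *ᵥ x) = qd G p + 2 * (p ⬝ᵥ x : ℤ) + (bil G x x : ℤ) := by
  have h1 : qd G (p + G *ᵥ x) = qd G p + bd G p (G *ᵥ x) + bd G (G *ᵥ x) p + qd G (G *ᵥ x) := by
    simp only [qd, bd, Pi.add_apply, Int.cast_add, ← Finset.sum_add_distrib]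
    refine Finset.sum_congr rfl fun i _ => Finset.sum_congr rfl fun j _ => by ring
  rw [h1, th_bd_symm hG (G *ᵥ x) p, bd_mulVec hG, qd_mulVec hG]
  ring

theorem th_cp_add (hG : EvenPos G) {φ : ℂ → VC → ℂ} (hφ : Jac0 G φ) (p x : VZ) {τ : ℂ}
    (hτ : 0 < τ.im) :
    cp φ (p + G *ᵥ x) τ = e ((bil G x x : ℤ) * τ / 2 + (p ⬝ᵥ x : ℤ) * τ) * cp φ p τ := by
  have h1 := partial_shift hφ.gh hφ.P τ hτ p (τ • toC x)
  have h2 : ∀ y : VR, φ τ (τ • toC x + ofR y) * e (-(dot p (τ • toC x + ofR y))) =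
      e (-((bil G x x : ℤ) * τ / 2 + (p ⬝ᵥ x : ℤ) * τ)) *
        (φ τ (ofR y) * e (-(dot (p + G *ᵥ x) (ofR y)))) := by
    intro y
    rw [add_comm (τ • toC x), hφ.H τ (ofR y) x hτ, th_dot_add, th_dot_smul, th_add_dot,
      th_mulVec_dot hG]
    have h3 : (bil G (toC x) (toC x) : ℂ) = ((bil G x x : ℤ) : ℂ) := by
      simp [bil, toC]
    have h4 : (dot p (toC x) : ℂ) = ((p ⬝ᵥ x : ℤ) : ℂ) := by
      simp [dot, toC, dotProduct]
    rw [h3, h4]
    have h5 : e (-(bil G (toC x) (ofR y) + ((bil G x x : ℤ) : ℂ) * τ / 2)) *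
        e (-(dot p (ofR y) + τ * ((p ⬝ᵥ x : ℤ) : ℂ))) =
        e (-((bil G x x : ℤ) * τ / 2 + (p ⬝ᵥ x : ℤ) * τ)) *
        e (-(dot p (ofR y) + bil G (fun i => (x i : ℂ)) (ofR y))) := by
      rw [← e_add, ← e_add]
      congr 1
      unfold toC
      ring
    calc _ = φ τ (ofR y) * (e (-(bil G (toC x) (ofR y) + ((bil G x x : ℤ) : ℂ) * τ / 2)) *
        e (-(dot p (ofR y) + τ * ((p ⬝ᵥ x : ℤ) : ℂ)))) := by ring
      _ = _ := by rw [h5]; ring
  simp_rw [h2] at h1
  rw [integral_const_mul] at h1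
  unfold cp
  rw [← h1, ← mul_assoc, ← e_add, add_neg_cancel, e_zero, one_mul]

theorem th_h_add (hG : EvenPos G) {φ : ℂ → VC → ℂ} (hφ : Jac0 G φ) (p x : VZ) {τ : ℂ}
    (hτ : 0 < τ.im) : th_h G φ (p + G *ᵥ x) τ = th_h G φ p τ := by
  unfold th_h
  rw [th_cp_add hG hφ p x hτ, th_qd_add hG, ← mul_assoc, ← e_add]
  congr 2
  push_cast
  ring

theorem th_h_out (hG : EvenPos G) {φ : ℂ → VC → ℂ} (hφ : Jac0 G φ) (p : VZ) {τ : ℂ}
    (hτ : 0 < τ.im) : th_h G φ (Quotient.out (Disc.mk p : Disc G)) τ = th_h G φ p τ := by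
  obtain ⟨v, hv⟩ := (mk_eq_iff (G := G) (Quotient.out (Disc.mk p : Disc G)) p).1 (mk_out _)
  have h1 : Quotient.out (Disc.mk p : Disc G) = p + G *ᵥ v := by rw [hv]; abel
  rw [h1, th_h_add hG hφ p v hτ]


/-- Fourier series of `φ` in `z` -/
theorem th_expand (hG : EvenPos G) {φ : ℂ → VC → ℂ} (hφ : Jac0 G φ) {τ : ℂ}
    (hτ : 0 < τ.im) (z : VC) :
    HasSum (fun p : VZ => cp φ p τ * e (dot p z)) (φ τ z) := by
  have hcont : Continuous (fun t : VR => φ τ (z + ofR t)) := by
    have h1 : Continuous (fun t : VR => ((τ, z + ofR t) : ℂ × VC)) := by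
      unfold ofR
      fun_prop
    have h2 := hφ.gh.cont
    exact h2.comp_continuous h1 (fun t => hτ)
  have hcoef : ∀ p : VZ, ∫ t in Set.Icc (0 : VR) 1, φ τ (z + ofR t) *
      e (-∑ i, (p i : ℂ) * (t i : ℂ)) = cp φ p τ * e (dot p z) := by
    intro p
    have h1 := partial_shift hφ.gh hφ.P τ hτ p z
    have h2 : ∀ t : VR, φ τ (z + ofR t) * e (-∑ i, (p i : ℂ) * (t i : ℂ)) =
        e (dot p z) * (φ τ (z + ofR t) * e (-(dot p (z + ofR t)))) := by
      intro t
      have h3 : e (-∑ i, (p i : ℂ) * (t i : ℂ)) =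
          e (dot p z) * e (-(dot p (z + ofR t))) := by
        rw [← e_add, th_dot_add]
        congr 1
        simp [dot, ofR]
      rw [h3]; ring
    simp_rw [h2]
    rw [integral_const_mul]
    have h4 : ∫ y in Set.Icc (0 : VR) 1, φ τ (z + ofR y) * e (-(dot p (z + ofR y))) =
        cp φ p τ := h1
    rw [h4, mul_comm]
  have hsum : Summable (fun p : VZ => cp φ p τ * e (dot p z)) := by
    have : Finite (Disc G) := finite_disc hG
    have : Fintype (Disc G) := Fintype.ofFinite _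
    have h1 := (th_summable_gauss hG τ.im hτ (imC z)).mul_left
      (∑ γ : Disc G, ‖th_h G φ (Quotient.out γ) τ‖)
    refine Summable.of_norm_bounded h1 fun p => ?_
    have h2 : ‖th_h G φ p τ‖ ≤ ∑ γ : Disc G, ‖th_h G φ (Quotient.out γ) τ‖ := by
      rw [← th_h_out hG hφ p hτ]
      exact Finset.single_le_sum (f := fun γ : Disc G => ‖th_h G φ (Quotient.out γ) τ‖)
        (fun _ _ => norm_nonneg _) (Finset.mem_univ _)
    have h3 : cp φ p τ * e (dot p z) =
        th_h G φ p τ * (e ((qd G p : ℂ) * τ / 2) * e (dot p z)) := by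
      unfold th_h
      rw [show e (-(qd G p : ℂ) * τ / 2) * cp φ p τ * (e ((qd G p : ℂ) * τ / 2) * e (dot p z)) =
        (e (-(qd G p : ℂ) * τ / 2) * e ((qd G p : ℂ) * τ / 2)) * cp φ p τ * e (dot p z) by ring,
        ← e_add, show -(qd G p : ℂ) * τ / 2 + (qd G p : ℂ) * τ / 2 = 0 by ring, e_zero, one_mul]
    rw [h3, norm_mul]
    refine mul_le_mul h2 (le_of_eq ?_) (norm_nonneg _) (Finset.sum_nonneg fun _ _ => norm_nonneg _)
    rw [norm_mul, norm_e, norm_e, ← Real.exp_add]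
    congr 1
    have h4 : ((qd G p : ℂ) * τ / 2).im = qd G p * τ.im / 2 := by
      rw [show (qd G p : ℂ) * τ / 2 = ((qd G p / 2 : ℝ) : ℂ) * τ by push_cast; ring,
        Complex.im_ofReal_mul]
      ring
    have h5 : (dot p z).im = dot p (imC z) := by
      simp only [dot, imC, Complex.im_sum]
      refine Finset.sum_congr rfl fun i _ => ?_
      simp
    rw [h4, h5]
    ring
  have key := th_fourier (fun t : VR => φ τ (z + ofR t)) hcont ?_ ?_ 0
  · have h6 : ∀ p : VZ, (∫ t in Set.Icc (0 : VR) 1, φ τ (z + ofR t) *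
      e (-∑ i, (p i : ℂ) * (t i : ℂ))) * e (∑ i, (p i : ℂ) * (((0 : VR) i : ℝ) : ℂ)) =
        cp φ p τ * e (dot p z) := by
      intro p
      rw [hcoef]
      simp [e_zero]
    simp_rw [h6] at key
    convert key using 2
    funext i
    simp [ofR]
  · intro y x
    have h7 : z + ofR (y + fun i => (x i : ℝ)) = (z + ofR y) + toC x := by
      funext i
      simp [ofR, toC, add_assoc]
    rw [h7, hφ.P τ _ x hτ]
  · simp_rw [hcoef]
    exact hsum

theorem th_diff {g : ℂ → VR → ℂ}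
    (hc : ContinuousOn (fun Z : ℂ × VR => g Z.1 Z.2) {Z | 0 < Z.1.im})
    (hd : ∀ τ y, 0 < τ.im → DifferentiableAt ℂ (fun τ => g τ y) τ) :
    DifferentiableOn ℂ (fun τ => ∫ y in cube, g τ y) {τ : ℂ | 0 < τ.im} := by
  intro τ₀ hτ₀
  refine DifferentiableAt.differentiableWithinAt ?_
  have hτ₀' : 0 < τ₀.im := hτ₀
  set r : ℝ := τ₀.im / 4 with hr
  have hr0 : 0 < r := by positivity
  have hH : ∀ τ ∈ Metric.closedBall τ₀ (2 * r), 0 < τ.im := by
    intro τ hτ
    have h1 : |(τ - τ₀).im| ≤ ‖τ - τ₀‖ := Complex.abs_im_le_norm _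
    rw [Metric.mem_closedBall, dist_eq_norm] at hτ
    have h2 := (abs_le.1 (h1.trans hτ)).1
    rw [Complex.sub_im] at h2
    have : 2 * r = τ₀.im / 2 := by rw [hr]; ring
    linarith
  have hcube : IsCompact cube := isCompact_Icc
  obtain ⟨M, hM⟩ : ∃ M, ∀ Z ∈ Metric.closedBall τ₀ (2 * r) ×ˢ cube,
      ‖(fun Z : ℂ × VR => g Z.1 Z.2) Z‖ ≤ M :=
    ((isCompact_closedBall τ₀ (2 * r)).prod hcube).exists_bound_of_continuousOn
      (hc.mono fun Z hZ => hH _ hZ.1)
  have hcy : ∀ τ, 0 < τ.im → Continuous (fun y => g τ y) := by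
    intro τ hτ
    exact hc.comp_continuous (f := fun y : VR => ((τ, y) : ℂ × VR)) (by fun_prop) (fun _ => hτ)
  have hmeas : ∀ τ, 0 < τ.im → AEStronglyMeasurable (fun y => g τ y) (volume.restrict cube) :=
    fun τ hτ => (hcy τ hτ).aestronglyMeasurable
  have hball : ∀ x ∈ Metric.ball τ₀ r, Metric.closedBall x r ⊆ Metric.closedBall τ₀ (2 * r) := by
    intro x hx z hz
    rw [Metric.mem_closedBall] at hz ⊢
    rw [Metric.mem_ball] at hx
    have := dist_triangle z x τ₀
    linarith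
  have hballH : ∀ x ∈ Metric.ball τ₀ r, 0 < x.im := fun x hx =>
    hH x (hball x hx (Metric.mem_closedBall_self hr0.le))
  refine (hasDerivAt_integral_of_dominated_loc_of_deriv_le (μ := volume.restrict cube)
    (F := fun τ y => g τ y) (F' := fun τ y => deriv (fun τ => g τ y) τ) (x₀ := τ₀)
    (s := Metric.ball τ₀ r) (bound := fun _ => M / r) (Metric.ball_mem_nhds _ hr0) ?_ ?_ ?_ ?_
    ?_ ?_).2.differentiableAt
  · filter_upwards [Metric.ball_mem_nhds τ₀ hr0] with τ hτ
    exact hmeas τ (hballH τ hτ)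
  · exact ((hcy τ₀ hτ₀').continuousOn).integrableOn_compact hcube
  · have hlim : ∀ y, Filter.Tendsto (fun n : ℕ => (((r / (n + 1) : ℝ) : ℂ))⁻¹ •
        (g (τ₀ + ((r / (n + 1) : ℝ) : ℂ)) y - g τ₀ y)) Filter.atTop
        (𝓝 (deriv (fun τ => g τ y) τ₀)) := by
      intro y
      have h1 := (hd τ₀ y hτ₀').hasDerivAt.tendsto_slope_zero
      refine h1.comp ?_
      rw [tendsto_nhdsWithin_iff]
      constructor
      · have h2 : Filter.Tendsto (fun n : ℕ => r / ((n : ℝ) + 1)) Filter.atTop (𝓝 0) := by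
          have := tendsto_one_div_add_atTop_nhds_zero_nat (𝕜 := ℝ)
          have h3 := this.const_mul r
          simpa [mul_one_div, div_eq_mul_inv] using h3
        have h4 : Filter.Tendsto (fun n : ℕ => (((r / ((n : ℝ) + 1) : ℝ)) : ℂ)) Filter.atTop
            (𝓝 ((0 : ℝ) : ℂ)) := (Complex.continuous_ofReal.tendsto 0).comp h2
        simpa using h4
      · refine Filter.Eventually.of_forall fun n => ?_
        have : (0 : ℝ) < r / ((n : ℝ) + 1) := by positivity
        exact Complex.ofReal_ne_zero.2 this.ne'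
    refine aestronglyMeasurable_of_tendsto_ae (u := Filter.atTop)
      (f := fun (n : ℕ) (y : VR) => (((r / (n + 1) : ℝ) : ℂ))⁻¹ •
        (g (τ₀ + ((r / (n + 1) : ℝ) : ℂ)) y - g τ₀ y)) (fun n => ?_)
      (Filter.Eventually.of_forall hlim)
    have h5 : 0 < (τ₀ + ((r / (n + 1) : ℝ) : ℂ)).im := by
      rw [Complex.add_im, Complex.ofReal_im, add_zero]; exact hτ₀'
    exact ((hmeas _ h5).sub (hmeas _ hτ₀')).const_smul (((r / (n + 1) : ℝ) : ℂ))⁻¹
  · filter_upwards [ae_restrict_mem (isCompact_Icc.measurableSet : MeasurableSet cube)] with y hy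
    intro x hx
    refine Complex.norm_deriv_le_of_forall_mem_sphere_norm_le hr0 ?_ ?_
    · refine DifferentiableOn.diffContOnCl ?_
      rw [closure_ball _ hr0.ne']
      intro z hz
      exact (hd z y (hH z (hball x hx hz))).differentiableWithinAt
    · intro z hz
      exact hM (z, y) ⟨hball x hx (Metric.sphere_subset_closedBall hz), hy⟩
  · exact (continuousOn_const.integrableOn_compact hcube)
  · filter_upwards with y
    intro x hx
    exact (hd x y (hballH x hx)).hasDerivAt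

theorem th_continuous_e : Continuous e := by
  unfold e
  fun_prop

theorem th_cp_diff {φ : ℂ → VC → ℂ} (gh : GH HV (fun Z : ℂ × VC => φ Z.1 Z.2)) (p : VZ) :
    DifferentiableOn ℂ (cp φ p) {τ : ℂ | 0 < τ.im} := by
  refine th_diff (g := fun τ y => φ τ (ofR y) * e (-(dot p (ofR y)))) ?_ ?_
  · refine ContinuousOn.mul ?_ ?_
    · have h1 : Continuous (fun Z : ℂ × VR => ((Z.1, ofR Z.2) : ℂ × VC)) := by
        unfold ofR
        fun_prop
      exact gh.cont.comp h1.continuousOn (fun Z hZ => hZ)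
    · refine Continuous.continuousOn (th_continuous_e.comp ?_)
      unfold dot ofR
      fun_prop
  · intro τ y hτ
    refine DifferentiableAt.mul_const ?_ _
    have h2 := gh.line (τ, ofR y) hτ (1, 0)
    have h3 : (fun w : ℂ => (fun Z : ℂ × VC => φ Z.1 Z.2) ((τ, ofR y) + w • ((1 : ℂ), (0 : VC)))) =
        fun w : ℂ => φ (τ + w) (ofR y) := by
      funext w
      simp
    rw [h3] at h2
    have h4 : (fun τ' : ℂ => φ τ' (ofR y)) =
        (fun w : ℂ => φ (τ + w) (ofR y)) ∘ (fun τ' => τ' - τ) := by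
      funext τ'
      simp
    rw [h4]
    refine DifferentiableAt.comp τ ?_ (by fun_prop)
    rw [sub_self]
    exact h2

/-- one variable version of `th_fourier` -/
theorem th_fourier1 (g : ℝ → ℂ) (hg : Continuous g) (hper : ∀ y, g (y + 1) = g y)
    (hs : Summable (fun n : ℤ => ∫ y in (0:ℝ)..1, g y * e (-((n : ℂ) * (y : ℂ))))) (y : ℝ) :
    HasSum (fun n : ℤ => (∫ y in (0:ℝ)..1, g y * e (-((n : ℂ) * (y : ℂ)))) *
      e ((n : ℂ) * (y : ℂ))) (g y) := by
  have hper' : ∀ (n : ℤ) (y : ℝ), g (y + n) = g y := by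
    have hp : Function.Periodic g 1 := hper
    intro n y
    have := hp.int_mul n y
    simpa using this
  have hint : ∀ n : ℤ, ∫ x in Set.Icc (0 : Fin 1 → ℝ) 1, g (x 0) *
      e (-∑ i, (((fun _ => n) : Fin 1 → ℤ) i : ℂ) * (x i : ℂ)) =
      ∫ y in (0:ℝ)..1, g y * e (-((n : ℂ) * (y : ℂ))) := by
    intro n
    have h1 := (volume_preserving_funUnique (Fin 1) ℝ).symm.setIntegral_preimage_emb
      (MeasurableEquiv.measurableEmbedding _)
      (fun x : Fin 1 → ℝ => g (x 0) * e (-∑ i, (((fun _ => n) : Fin 1 → ℤ) i : ℂ) * (x i : ℂ)))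
      (Set.Icc (0 : Fin 1 → ℝ) 1)
    refine h1.symm.trans ?_
    have h2 : (MeasurableEquiv.funUnique (Fin 1) ℝ).symm ⁻¹' Set.Icc (0 : Fin 1 → ℝ) 1 =
        Set.Icc (0:ℝ) 1 := by
      ext t
      simp [Pi.le_def, MeasurableEquiv.funUnique]
    rw [h2, intervalIntegral.integral_of_le zero_le_one, ← integral_Icc_eq_integral_Ioc]
    refine setIntegral_congr_fun measurableSet_Icc fun t _ => ?_
    simp [MeasurableEquiv.funUnique]
  have heq : ∀ p : Fin 1 → ℤ, (fun _ => p 0) = p := fun p => by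
    funext i; rw [Subsingleton.elim i 0]
  have key := th_fourier (fun x : Fin 1 → ℝ => g (x 0)) (hg.comp (continuous_apply 0)) ?_ ?_
    (fun _ => y)
  · have h3 := (Equiv.funUnique (Fin 1) ℤ).symm.hasSum_iff.2 key
    convert h3 using 1
    funext n
    simp only [Function.comp_apply]
    rw [← hint n]
    simp [Equiv.funUnique]
  · intro x m
    exact hper' (m 0) (x 0)
  · rw [← (Equiv.funUnique (Fin 1) ℤ).symm.summable_iff]
    refine hs.congr fun n => ?_
    rw [← hint n]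
    simp [Equiv.funUnique]

theorem th_fc_eq {φ : ℂ → VC → ℂ} (hφ : Jac0 G φ) (n : ℤ) (p : VZ) {T : ℝ} (hT : 0 < T) :
    fc φ n p = ∫ t in (0:ℝ)..1, cp φ p (t + T * Complex.I) *
      e (-((n : ℂ) * (t + T * Complex.I))) := by
  have h1 := fc_shift hφ.gh hφ.T hφ.P n p 0 1 one_pos T hT
  rw [h1]
  simp only [Nat.cast_one, div_one, one_mul]
  refine intervalIntegral.integral_congr fun t _ => ?_
  unfold cp
  rw [mul_comm (∫ y in cube, _), ← integral_const_mul]
  refine integral_congr_ae (Filter.Eventually.of_forall fun y => ?_)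
  simp only
  have h2 : ((t + T * Complex.I : ℂ) • ofR 0 + ofR y : VC) = ofR y := by
    funext i
    simp [ofR]
  rw [h2, neg_add, e_add]
  ring

theorem th_fc_bound {φ : ℂ → VC → ℂ} (hφ : Jac0 G φ) (p : VZ) {T : ℝ} (hT : 0 < T) :
    ∃ M : ℝ, 0 ≤ M ∧ ∀ n : ℤ, ‖fc φ n p‖ ≤ M * Real.exp (2 * Real.pi * n * T) := by
  have hc : Continuous (fun t : ℝ => cp φ p (t + T * Complex.I)) := by
    refine (th_cp_diff hφ.gh p).continuousOn.comp_continuous
      (f := fun t : ℝ => (t + T * Complex.I : ℂ)) (by fun_prop) (fun t => ?_)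
    simp [hT]
  obtain ⟨M, hM⟩ := isCompact_Icc.exists_bound_of_continuousOn (s := Set.Icc (0:ℝ) 1)
    hc.continuousOn
  refine ⟨M, (norm_nonneg _).trans (hM 0 (by simp)), fun n => ?_⟩
  rw [th_fc_eq hφ n p hT]
  have h1 := intervalIntegral.norm_integral_le_of_norm_le_const (a := (0:ℝ)) (b := 1)
    (f := fun t : ℝ => cp φ p (t + T * Complex.I) * e (-((n : ℂ) * (t + T * Complex.I))))
    (C := M * Real.exp (2 * Real.pi * n * T)) ?_
  · simpa using h1
  · intro t ht
    rw [Set.uIoc_of_le zero_le_one] at ht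
    rw [norm_mul, norm_e]
    have h2 : -(2 * Real.pi * (-((n : ℂ) * (t + T * Complex.I))).im) = 2 * Real.pi * n * T := by
      simp
      ring
    rw [h2]
    exact mul_le_mul_of_nonneg_right (hM t ⟨ht.1.le, ht.2⟩) (Real.exp_pos _).le

theorem th_summable_exp_abs {c : ℝ} (hc : 0 < c) :
    Summable (fun n : ℤ => Real.exp (-(c * |(n : ℝ)|))) := by
  have h1 : Summable (fun n : ℕ => Real.exp (-(c * (n : ℝ)))) := by
    have h2 := Real.summable_exp_nat_mul_iff.2 (neg_lt_zero.2 hc)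
    refine h2.congr fun n => ?_
    congr 1; ring
  refine Summable.of_nat_of_neg ?_ ?_
  · simpa using h1
  · simpa using h1

theorem th_cp_expand {φ : ℂ → VC → ℂ} (hφ : Jac0 G φ) (p : VZ) {τ : ℂ} (hτ : 0 < τ.im) :
    HasSum (fun n : ℤ => fc φ n p * e ((n : ℂ) * τ)) (cp φ p τ) := by
  set T := τ.im with hT
  obtain ⟨M₁, hM₁0, hM₁⟩ := th_fc_bound hφ p (T := T / 2) (by positivity)
  obtain ⟨M₂, hM₂0, hM₂⟩ := th_fc_bound hφ p (T := 2 * T) (by positivity)
  have hcoef : ∀ n : ℤ, ∫ t in (0:ℝ)..1, cp φ p (t + T * Complex.I) * e (-((n : ℂ) * (t : ℂ))) =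
      fc φ n p * e ((n : ℂ) * (T * Complex.I)) := by
    intro n
    rw [th_fc_eq hφ n p hτ, ← intervalIntegral.integral_mul_const]
    refine intervalIntegral.integral_congr fun t _ => ?_
    rw [mul_assoc, ← e_add]
    congr 2
    ring
  have hs : Summable (fun n : ℤ => fc φ n p * e ((n : ℂ) * (T * Complex.I))) := by
    have h1 := (th_summable_exp_abs (c := Real.pi * T) (by positivity)).mul_left (max M₁ M₂)
    refine Summable.of_norm_bounded h1 fun n => ?_
    rw [norm_mul, norm_e]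
    have h2 : -(2 * Real.pi * ((n : ℂ) * (T * Complex.I)).im) = -(2 * Real.pi * n * T) := by
      simp
      ring
    rw [h2]
    rcases le_or_gt 0 n with hn | hn
    · have hn' : (0 : ℝ) ≤ n := by exact_mod_cast hn
      calc ‖fc φ n p‖ * Real.exp (-(2 * Real.pi * n * T))
          ≤ M₁ * Real.exp (2 * Real.pi * n * (T / 2)) * Real.exp (-(2 * Real.pi * n * T)) :=
            mul_le_mul_of_nonneg_right (hM₁ n) (Real.exp_pos _).le
        _ = M₁ * Real.exp (-(Real.pi * T * |(n : ℝ)|)) := by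
            rw [mul_assoc, ← Real.exp_add, abs_of_nonneg hn']
            congr 2; ring
        _ ≤ max M₁ M₂ * Real.exp (-(Real.pi * T * |(n : ℝ)|)) :=
            mul_le_mul_of_nonneg_right (le_max_left _ _) (Real.exp_pos _).le
    · have hn' : (n : ℝ) < 0 := by exact_mod_cast hn
      calc ‖fc φ n p‖ * Real.exp (-(2 * Real.pi * n * T))
          ≤ M₂ * Real.exp (2 * Real.pi * n * (2 * T)) * Real.exp (-(2 * Real.pi * n * T)) :=
            mul_le_mul_of_nonneg_right (hM₂ n) (Real.exp_pos _).le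
        _ = M₂ * Real.exp (2 * Real.pi * n * T) := by
            rw [mul_assoc, ← Real.exp_add]
            congr 2; ring
        _ ≤ M₂ * Real.exp (-(Real.pi * T * |(n : ℝ)|)) := by
            refine mul_le_mul_of_nonneg_left ?_ hM₂0
            rw [Real.exp_le_exp, abs_of_neg hn']
            have h3 : Real.pi * T * (n : ℝ) ≤ 0 := by
              have : 0 < Real.pi * T := by positivity
              exact mul_nonpos_of_nonneg_of_nonpos this.le hn'.le
            nlinarith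
        _ ≤ max M₁ M₂ * Real.exp (-(Real.pi * T * |(n : ℝ)|)) :=
            mul_le_mul_of_nonneg_right (le_max_right _ _) (Real.exp_pos _).le
  have hc : Continuous (fun t : ℝ => cp φ p (t + T * Complex.I)) := by
    refine (th_cp_diff hφ.gh p).continuousOn.comp_continuous
      (f := fun t : ℝ => (t + T * Complex.I : ℂ)) (by fun_prop) (fun t => ?_)
    simpa using hτ
  have hper : ∀ t : ℝ, cp φ p ((t + 1 : ℝ) + T * Complex.I) = cp φ p (t + T * Complex.I) := by
    intro t
    unfold cp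
    refine integral_congr_ae (Filter.Eventually.of_forall fun y => ?_)
    simp only
    have h4 : (((t + 1 : ℝ) : ℂ) + T * Complex.I) = (t + T * Complex.I) + 1 := by
      push_cast; ring
    rw [h4, hφ.T _ _ (by simpa using hτ)]
  have key := th_fourier1 (fun t : ℝ => cp φ p (t + T * Complex.I)) hc hper
    (by simp_rw [hcoef]; exact hs) τ.re
  simp_rw [hcoef] at key
  have h5 : ((τ.re : ℂ) + T * Complex.I) = τ := Complex.re_add_im τ
  rw [h5] at key
  convert key using 1
  funext n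
  rw [mul_assoc, ← e_add]
  congr 2
  rw [← mul_add, add_comm, h5]

theorem th_h_bound {φ : ℂ → VC → ℂ} (hφ : Jac0 G φ) (p : VZ) (S : Finset ℤ) (a : ℝ)
    (ha : ∀ n : ℤ, n ∉ S → fc φ n p ≠ 0 → a ≤ n - qd G p / 2) :
    ∃ K : ℝ, ∀ τ : ℂ, 1 ≤ τ.im →
      ‖th_h G φ p τ - ∑ n ∈ S, fc φ n p * e ((n - qd G p / 2 : ℝ) * τ)‖ ≤
        K * Real.exp (-(2 * Real.pi * a * τ.im)) := by
  classical
  have hsum : ∀ τ : ℂ, 0 < τ.im → HasSum (fun n : ℤ => fc φ n p *
      e ((n - qd G p / 2 : ℝ) * τ)) (th_h G φ p τ) := by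
    intro τ hτ
    have h1 := (th_cp_expand hφ p hτ).mul_left (e (-(qd G p : ℂ) * τ / 2))
    refine h1.congr_fun fun n => ?_
    rw [mul_left_comm, ← e_add]
    congr 2
    push_cast
    ring
  have hI : 0 < (Complex.I).im := by simp
  have hnorm := (hsum Complex.I hI).summable.norm
  refine ⟨(∑' n : ℤ, ‖fc φ n p * e ((n - qd G p / 2 : ℝ) * Complex.I)‖) *
    Real.exp (2 * Real.pi * a), fun τ hτ => ?_⟩
  have hτ0 : 0 < τ.im := by linarith
  have h2 : HasSum (fun n : ℤ => if n ∈ S then fc φ n p * e ((n - qd G p / 2 : ℝ) * τ) else 0)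
      (∑ n ∈ S, fc φ n p * e ((n - qd G p / 2 : ℝ) * τ)) := by
    have h2' : HasSum (fun n : ℤ => if n ∈ S then fc φ n p * e ((n - qd G p / 2 : ℝ) * τ) else 0)
        (∑ n ∈ S, if n ∈ S then fc φ n p * e ((n - qd G p / 2 : ℝ) * τ) else 0) :=
      hasSum_sum_of_ne_finset_zero (fun n hn => if_neg hn)
    convert h2' using 1
    exact Finset.sum_congr rfl fun n hn => (if_pos hn).symm
  have h3 := (hsum τ hτ0).sub h2
  have h4 : HasSum (fun n : ℤ => ‖fc φ n p * e ((n - qd G p / 2 : ℝ) * Complex.I)‖ *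
      Real.exp (-(2 * Real.pi * a * (τ.im - 1))))
      ((∑' n : ℤ, ‖fc φ n p * e ((n - qd G p / 2 : ℝ) * Complex.I)‖) *
        Real.exp (-(2 * Real.pi * a * (τ.im - 1)))) := hnorm.hasSum.mul_right _
  have h5 := tsum_of_norm_bounded h4 (f := fun n : ℤ => fc φ n p *
      e ((n - qd G p / 2 : ℝ) * τ) - if n ∈ S then fc φ n p * e ((n - qd G p / 2 : ℝ) * τ) else 0)
      ?_
  · rw [h3.tsum_eq] at h5
    refine h5.trans (le_of_eq ?_)
    rw [mul_assoc (∑' n : ℤ, _), ← Real.exp_add]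
    congr 2
    ring
  · intro n
    by_cases hn : n ∈ S
    · simp only [hn, if_true, sub_self, norm_zero]
      positivity
    · simp only [hn, if_false, sub_zero]
      by_cases hf : fc φ n p = 0
      · simp [hf]
      · have h6 := ha n hn hf
        rw [norm_mul, norm_mul, mul_assoc, norm_e, norm_e, ← Real.exp_add]
        refine mul_le_mul_of_nonneg_left ?_ (norm_nonneg _)
        rw [Real.exp_le_exp, Complex.im_ofReal_mul, Complex.im_ofReal_mul, Complex.I_im]
        have h7 : a * (τ.im - 1) ≤ (n - qd G p / 2) * (τ.im - 1) :=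
          mul_le_mul_of_nonneg_right h6 (by linarith)
        nlinarith [Real.pi_pos]

theorem th_unfold {E : Type*} [NormedAddCommGroup E] [NormedSpace ℝ E]
    (f : VR → E) (hf : Integrable f) :
    HasSum (fun x : VZ => ∫ y in cube, f (y + toR x)) (∫ y, f y) := by
  let s : VZ → Set VR := fun x => {y | ∀ i, ⌊y i⌋ = x i}
  have hs : ∀ x, s x = Set.pi Set.univ (fun i => Set.Ico (x i : ℝ) (x i + 1)) := by
    intro x
    ext y
    simp [s, Set.mem_pi, Int.floor_eq_iff]
  have hm : ∀ x, MeasurableSet (s x) := by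
    intro x
    rw [hs]
    exact MeasurableSet.univ_pi fun i => measurableSet_Ico
  have hd : Pairwise (Function.onFun Disjoint s) := by
    intro x x' hxx'
    rw [Function.onFun, Set.disjoint_left]
    intro y hy hy'
    exact hxx' (funext fun i => (hy i).symm.trans (hy' i))
  have hU : (⋃ x, s x) = Set.univ := by
    ext y
    simp only [Set.mem_iUnion, Set.mem_univ, iff_true]
    exact ⟨fun i => ⌊y i⌋, fun i => rfl⟩
  have h1 := hasSum_integral_iUnion (μ := volume) (f := f) hm hd (by rw [hU]; exact hf.integrableOn)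
  rw [hU, Measure.restrict_univ] at h1
  convert h1 using 1
  funext x
  have h2 := (measurePreserving_add_right (volume : Measure VR) (toR x)).setIntegral_preimage_emb
    (measurableEmbedding_addRight (toR x)) f (s x)
  rw [← h2]
  have h3 : (fun y : VR => y + toR x) ⁻¹' s x =
      Set.pi Set.univ (fun i => Set.Ico ((0 : VR) i) ((1 : VR) i)) := by
    ext y
    simp only [s, Set.mem_preimage, Set.mem_ofPred_eq, Pi.add_apply, toR, Int.floor_add_intCast,
      Set.mem_pi, Set.mem_univ, true_implies, Pi.zero_apply, Pi.one_apply, Set.mem_Ico]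
    refine forall_congr' fun i => ?_
    rw [add_eq_right, Int.floor_eq_iff]
    simp
  have h4 : (Set.pi Set.univ (fun i => Set.Ico ((0 : VR) i) ((1 : VR) i)))
      =ᵐ[volume] Set.Icc (0 : VR) 1 := Measure.univ_pi_Ico_ae_eq_Icc
  rw [h3, setIntegral_congr_set h4]
  rfl

theorem th_det_ne (hG : EvenPos G) : (G.map (Int.cast : ℤ → ℝ)).det ≠ 0 := by
  have h1 : (G.map (Int.cast : ℤ → ℝ)).det = (G.det : ℝ) := by
    have := RingHom.map_det (Int.castRingHom ℝ) G
    simpa [RingHom.mapMatrix_apply] using this.symm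
  rw [h1]
  exact_mod_cast (det_pos hG).ne'

theorem th_ginv_add (hG : EvenPos G) (q x : VZ) : ginv G (q + G *ᵥ x) = ginv G q + toR x := by
  have h1 : toR (q + G *ᵥ x) = toR q + (G.map (Int.cast : ℤ → ℝ)) *ᵥ toR x := by
    funext i
    simp [toR, Matrix.mulVec, dotProduct]
  unfold ginv
  rw [h1, Matrix.mulVec_add, Matrix.mulVec_mulVec,
    Matrix.nonsing_inv_mul _ (isUnit_iff_ne_zero.2 (th_det_ne hG)), Matrix.one_mulVec]

theorem th_mulVec_inj (hG : EvenPos G) {x x' : VZ} (h : G *ᵥ x = G *ᵥ x') : x = x' := by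
  have h1 : G *ᵥ (x - x') = 0 := by rw [Matrix.mulVec_sub, h, sub_self]
  exact sub_eq_zero.1 (Matrix.eq_zero_of_mulVec_eq_zero (det_pos hG).ne' h1)

/-- the decomposition of `ℤ²⁰` into classes -/
noncomputable def th_equiv (hG : EvenPos G) : Disc G × VZ ≃ VZ :=
  Equiv.ofBijective (fun i => Quotient.out i.1 + G *ᵥ i.2) (by
    constructor
    · rintro ⟨γ, x⟩ ⟨γ', x'⟩ h
      simp only at h
      have h1 : (Disc.mk (Quotient.out γ) : Disc G) = Disc.mk (Quotient.out γ') := by
        rw [mk_eq_iff]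
        refine ⟨x' - x, ?_⟩
        rw [Matrix.mulVec_sub]
        rw [sub_eq_sub_iff_add_eq_add, add_comm]
        exact h.symm
      rw [mk_out, mk_out] at h1
      subst h1
      have h2 := th_mulVec_inj hG (add_left_cancel h)
      rw [h2]
    · intro p
      obtain ⟨v, hv⟩ := (mk_eq_iff (G := G) p (Quotient.out (Disc.mk p : Disc G))).1 (mk_out _).symm
      exact ⟨(Disc.mk p, v), by simp only; rw [hv]; abel⟩)

theorem th_equiv_apply (hG : EvenPos G) (i : Disc G × VZ) :
    th_equiv hG i = Quotient.out i.1 + G *ᵥ i.2 := rfl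

/-- the Gaussian -/
noncomputable def th_F (G : Matrix (Fin 20) (Fin 20) ℤ) (τ : ℂ) (p : VZ) (u : VR) : ℂ :=
  e (τ * (bil G u u : ℝ) / 2 - (dot p u : ℝ))

theorem th_continuous_F (τ : ℂ) (p : VZ) : Continuous (th_F G τ p) := by
  unfold th_F
  refine th_continuous_e.comp ?_
  unfold bil dot
  fun_prop

theorem th_dot_ofR (p : VZ) (y : VR) : dot p (ofR y) = ((dot p y : ℝ) : ℂ) := by
  simp [dot, ofR]

theorem th_bil_ofR (y : VR) : bil G (ofR y) (ofR y) = ((bil G y y : ℝ) : ℂ) := by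
  simp [bil, ofR]

theorem th_bil_smul (c : ℂ) (z : VC) : bil G (c • z) (c • z) = c ^ 2 * bil G z z := by
  simp only [bil, Pi.smul_apply, smul_eq_mul, Finset.mul_sum]
  refine Finset.sum_congr rfl fun i _ => Finset.sum_congr rfl fun j _ => by ring

theorem th_term (hG : EvenPos G) {φ : ℂ → VC → ℂ} (hφ : Jac0 G φ) (p : VZ) {τ : ℂ}
    (hτ : 0 < τ.im) (y : VR) (i : Disc G × VZ) :
    cp φ (th_equiv hG i) τ * e (dot (th_equiv hG i) (τ • ofR y)) *
      e (τ * (bil G y y : ℝ) / 2 - (dot p y : ℝ)) =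
    th_h G φ (Quotient.out i.1) τ * e (bd G p (Quotient.out i.1)) *
      th_F G τ p (y + toR i.2 + ginv G (Quotient.out i.1)) := by
  obtain ⟨γ, x⟩ := i
  simp only [th_equiv_apply]
  set q : VZ := Quotient.out γ with hq
  rw [← th_h_add hG hφ q x hτ]
  have h1 : y + toR x + ginv G q = y + ginv G (q + G *ᵥ x) := by
    rw [th_ginv_add hG]; abel
  rw [h1]
  have h2 : e (bd G p q : ℂ) = e (bd G p (q + G *ᵥ x) : ℂ) := by
    have h3 : bd G p (q + G *ᵥ x) = bd G p q + (p ⬝ᵥ x : ℤ) := by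
      rw [← bd_mulVec hG]
      simp only [bd, Pi.add_apply, Int.cast_add, ← Finset.sum_add_distrib]
      refine Finset.sum_congr rfl fun i _ => Finset.sum_congr rfl fun j _ => by ring
    rw [h3]
    push_cast
    rw [e_add]
    have := e_int (p ⬝ᵥ x)
    rw [this, mul_one]
  rw [h2]
  set p' := q + G *ᵥ x with hp'
  unfold th_h th_F
  have h4 : (bil G (y + ginv G p') (y + ginv G p') : ℝ) = bil G y y + 2 * dot p' y + qd G p' := by
    have := complete_square hG p' y (m := 1) one_ne_zero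
    simp only [inv_one, one_smul, mul_one] at this
    linarith
  have h5 : (dot p (y + ginv G p') : ℝ) = dot p y + bd G p p' := by
    rw [th_dot_add, dot_ginv hG]
  rw [h4, h5, th_dot_smul, th_dot_ofR]
  have h6 : ∀ A B C D E' c : ℂ, B * D = A * C * E' → c * B * D = A * c * C * E' := by
    intro A B C D E' c h
    linear_combination c * h
  refine h6 _ _ _ _ _ _ ?_
  rw [← e_add, ← e_add, ← e_add]
  congr 1
  push_cast
  ring

theorem th_S (hG : EvenPos G) [Fintype (Disc G)] {φ : ℂ → VC → ℂ} (hφ : Jac0 G φ) (p : VZ)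
    {τ : ℂ} (hτ : 0 < τ.im) :
    th_h G φ p (-1 / τ) = -(τ ^ 10)⁻¹ * ((Real.sqrt (G.det : ℝ) : ℝ) : ℂ)⁻¹ *
      ∑ δ : Disc G, e (bd G p (Quotient.out δ)) * th_h G φ (Quotient.out δ) τ := by
  have hτ0 : τ ≠ 0 := by
    rintro rfl
    simp at hτ
  -- the integrand
  have hS : ∀ y : VR, φ (-1 / τ) (ofR y) * e (-(dot p (ofR y))) =
      φ τ (τ • ofR y) * e (τ * (bil G y y : ℝ) / 2 - (dot p y : ℝ)) := by
    intro y
    have h1 := hφ.S τ (τ • ofR y) hτ
    rw [smul_smul, inv_mul_cancel₀ hτ0, one_smul, th_bil_smul, th_bil_ofR] at h1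
    rw [h1, th_dot_ofR]
    have h2 : τ ^ 2 * ((bil G y y : ℝ) : ℂ) / (2 * τ) = τ * ((bil G y y : ℝ) : ℂ) / 2 := by
      field_simp
    rw [h2, sub_eq_add_neg, e_add]
    ring
  -- the terms
  let W : Disc G → ℂ := fun γ => th_h G φ (Quotient.out γ) τ * e (bd G p (Quotient.out γ))
  let T : Disc G × VZ → VR → ℂ := fun i y =>
    W i.1 * th_F G τ p (y + toR i.2 + ginv G (Quotient.out i.1))
  have hsum : ∀ y : VR, HasSum (fun i => T i y)
      (φ (-1 / τ) (ofR y) * e (-(dot p (ofR y)))) := by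
    intro y
    rw [hS y]
    have h1 := (th_expand hG hφ hτ (τ • ofR y)).mul_right
      (e (τ * (bil G y y : ℝ) / 2 - (dot p y : ℝ)))
    have h2 := (th_equiv hG).hasSum_iff.2 h1
    refine h2.congr_fun fun i => ?_
    exact (th_term hG hφ p hτ y i).symm
  have hFint : Integrable (th_F G τ p) := gauss_integrable hG hτ p
  have hFint' : ∀ a : VR, Integrable (fun u => th_F G τ p (u + a)) := fun a =>
    hFint.comp_add_right a
  have hT : ∀ i : Disc G × VZ, Continuous (T i) := by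
    intro i
    exact continuous_const.mul ((th_continuous_F τ p).comp (by fun_prop))
  have hTint : ∀ i : Disc G × VZ, Integrable (T i) (volume.restrict cube) := fun i =>
    ((hT i).continuousOn).integrableOn_compact isCompact_Icc
  have hfib : ∀ γ : Disc G, HasSum (fun x : VZ => ∫ y in cube, T (γ, x) y)
      (W γ * ∫ u, th_F G τ p u) := by
    intro γ
    have h1 := (th_unfold _ (hFint' (ginv G (Quotient.out γ)))).mul_left (W γ)
    rw [integral_add_right_eq_self (th_F G τ p)] at h1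
    refine h1.congr_fun fun x => ?_
    exact integral_const_mul _ _
  have hfibn : ∀ γ : Disc G, Summable (fun x : VZ => ∫ y in cube, ‖T (γ, x) y‖) := by
    intro γ
    have h1 := ((th_unfold _ (hFint' (ginv G (Quotient.out γ))).norm).mul_left ‖W γ‖).summable
    refine h1.congr fun x => ?_
    simp only [T, norm_mul]
    exact (integral_const_mul _ _).symm
  have hsn : Summable (fun i : Disc G × VZ => ∫ y in cube, ‖T i y‖) := by
    rw [summable_prod_of_nonneg (fun i => integral_nonneg fun y => norm_nonneg _)]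
    exact ⟨hfibn, Summable.of_finite⟩
  have hmain := hasSum_integral_of_summable_integral_norm hTint hsn
  have hcp : ∫ y in cube, ∑' i, T i y = cp φ p (-1 / τ) := by
    unfold cp
    refine integral_congr_ae (Filter.Eventually.of_forall fun y => ?_)
    exact (hsum y).tsum_eq
  rw [hcp] at hmain
  have hcp2 : cp φ p (-1 / τ) = ∑ γ, W γ * ∫ u, th_F G τ p u := by
    rw [← hmain.tsum_eq, hmain.summable.tsum_prod, tsum_fintype]
    exact Finset.sum_congr rfl fun γ _ => (hfib γ).tsum_eq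
  have hg : ∫ u, th_F G τ p u = -(τ ^ 10)⁻¹ * ((Real.sqrt (G.det : ℝ) : ℝ) : ℂ)⁻¹ *
      e (-(qd G p : ℂ) / (2 * τ)) := gauss_integral hG hτ p
  unfold th_h at *
  rw [hcp2, hg, ← Finset.sum_mul]
  have h7 : -(qd G p : ℂ) * (-1 / τ) / 2 = -(-(qd G p : ℂ) / (2 * τ)) := by
    field_simp
  rw [h7, e_neg]
  have h8 := e_ne_zero (-(qd G p : ℂ) / (2 * τ))
  have h9 : ∑ γ, W γ = ∑ δ : Disc G, e (bd G p (Quotient.out δ)) *
      (e (-(qd G (Quotient.out δ) : ℂ) * τ / 2) * cp φ (Quotient.out δ) τ) := by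
    refine Finset.sum_congr rfl fun γ _ => ?_
    simp only [W, th_h]
    ring
  rw [h9]
  generalize e (-(qd G p : ℂ) / (2 * τ)) = E at *
  generalize (∑ δ : Disc G, e (bd G p (Quotient.out δ)) *
      (e (-(qd G (Quotient.out δ) : ℂ) * τ / 2) * cp φ (Quotient.out δ) τ)) = Sg
  field_simp


theorem exists_theta (hG : EvenPos G) [Fintype (Disc G)] {φ : ℂ → VC → ℂ} (hφ : Jac0 G φ) :
    ∃ h : Disc G → ℂ → ℂ,
      (∀ γ, DifferentiableOn ℂ (h γ) {τ : ℂ | 0 < τ.im}) ∧
      (∀ γ τ, 0 < τ.im → h γ (τ + 1) = ug G γ * h γ τ) ∧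
      (∀ γ τ, 0 < τ.im → h γ (-1 / τ) =
        -(τ ^ 10)⁻¹ * ((Real.sqrt (G.det : ℝ) : ℝ) : ℂ)⁻¹ * ∑ δ, chi G γ δ * h δ τ) ∧
      (∀ (p : VZ) (S : Finset ℤ) (a : ℝ),
        (∀ n : ℤ, n ∉ S → fc φ n p ≠ 0 → a ≤ n - qd G p / 2) →
        ∃ K : ℝ, ∀ τ : ℂ, 1 ≤ τ.im →
          ‖h (Disc.mk p) τ - ∑ n ∈ S, fc φ n p * e ((n - qd G p / 2 : ℝ) * τ)‖ ≤
            K * Real.exp (-(2 * Real.pi * a * τ.im))) ∧
      ((∀ γ τ, 0 < τ.im → h γ τ = 0) → ∀ τ z, 0 < τ.im → φ τ z = 0) := by
  refine ⟨fun γ τ => th_h G φ (Quotient.out γ) τ, ?_, ?_, ?_, ?_, ?_⟩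
  · intro γ
    unfold th_h
    refine DifferentiableOn.mul ?_ (th_cp_diff hφ.gh _)
    refine Differentiable.differentiableOn ?_
    unfold e
    fun_prop
  · intro γ τ hτ
    simp only [th_h, ug]
    have h1 : cp φ (Quotient.out γ) (τ + 1) = cp φ (Quotient.out γ) τ := by
      unfold cp
      refine integral_congr_ae (Filter.Eventually.of_forall fun y => ?_)
      simp only
      rw [hφ.T _ _ hτ]
    rw [h1, ← mul_assoc, ← e_add]
    congr 2
    ring
  · intro γ τ hτ
    exact th_S hG hφ (Quotient.out γ) hτ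
  · intro p S a ha
    obtain ⟨K, hK⟩ := th_h_bound hφ p S a ha
    refine ⟨K, fun τ hτ => ?_⟩
    have h1 := hK τ hτ
    rw [← th_h_out hG hφ p (by linarith)] at h1
    exact h1
  · intro h0 τ z hτ
    have h1 := th_expand hG hφ hτ z
    have h2 : ∀ p : VZ, cp φ p τ = 0 := by
      intro p
      have h3 := h0 (Disc.mk p) τ hτ
      simp only at h3
      rw [th_h_out hG hφ p hτ, th_h] at h3
      exact (mul_eq_zero.1 h3).resolve_left (e_ne_zero _)
    simp_rw [h2, zero_mul] at h1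
    exact h1.unique (hasSum_zero (α := ℂ) (β := VZ))

end Pool.Agent.Refl
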