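import Pool.Agent.Refl.VV0

/-! Part C of VV1: the end of the proof. -/

namespace Pool.Agent.Refl
open Matrix

open Filter Topology in
/-- Part C (VV1C.lean): the end of the proof. -/
theorem vv1_end {D : Type*} [AddCommGroup D] [Fintype D] (g : D → ℂ → ℂ)
    (u : D → ℂ) (hu0 : u 0 = 1)
    (hT : ∀ γ τ, 0 < τ.im → g γ (τ + 1) = u γ * g γ τ)
    (χ : D → D → ℂ) (hχ0 : ∀ δ, χ 0 δ = 1) (hχ0' : ∀ γ, χ γ 0 = 1)
    (hS : ∀ γ τ, 0 < τ.im → g γ (-1 / τ) =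
      -(τ ^ 2) * ((Real.sqrt (Fintype.card D : ℝ) : ℝ) : ℂ)⁻¹ * ∑ δ, χ γ δ * g δ τ)
    (β : ℂ) (hβ : β ≠ 0)
    (hz : ∀ γ, γ ≠ 0 → u γ ≠ -1 → ∀ τ : ℂ, 0 < τ.im → g γ τ = 0)
    (l₀ : Tendsto (fun y : ℝ => g 0 (y * Complex.I)) atTop (𝓝 β))
    (l₁ : ∀ γ, γ ≠ 0 → Tendsto (fun y : ℝ => g γ (y * Complex.I)) atTop (𝓝 0)) :
    Fintype.card D = 4 ∧ ∀ γ, γ ≠ 0 → u γ = -1 := by
  classical
  have hcard : (0 : ℝ) < Fintype.card D := by
    have : 0 < Fintype.card D := Fintype.card_pos_iff.2 ⟨0⟩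
    exact_mod_cast this
  set s : ℝ := Real.sqrt (Fintype.card D : ℝ) with hs
  have hs0 : 0 < s := Real.sqrt_pos.2 hcard
  have hsC : (s : ℂ) ≠ 0 := by exact_mod_cast hs0.ne'
  set a : ℂ := -((s : ℂ)⁻¹) with ha
  have ha0 : a ≠ 0 := neg_ne_zero.2 (inv_ne_zero hsC)
  have hS' : ∀ γ (τ : ℂ), 0 < τ.im → g γ (-1 / τ) = a * τ ^ 2 * ∑ δ, χ γ δ * g δ τ := by
    intro γ τ hτ
    rw [hS γ τ hτ, ha]
    ring
  set D1 : Finset D := Finset.univ.filter (fun γ => γ ≠ 0 ∧ u γ = -1) with hD1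
  set h1 : ℂ → ℂ := fun τ => ∑ γ ∈ D1, g γ τ with hh1
  -- imaginary parts
  have im1 : ∀ τ : ℂ, 0 < τ.im → 0 < (-1 / τ).im := by
    intro τ hτ
    have hn : 0 < Complex.normSq τ := Complex.normSq_pos.2 (by rintro rfl; simp at hτ)
    rw [neg_div, Complex.neg_im, one_div, Complex.inv_im]
    have : 0 < τ.im / Complex.normSq τ := div_pos hτ hn
    rw [neg_div, neg_neg]
    exact this
  have ne0 : ∀ τ : ℂ, 0 < τ.im → τ ≠ 0 := by
    rintro τ hτ rfl
    simp at hτ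
  have F1 : ∀ τ : ℂ, 0 < τ.im → ∑ δ, g δ τ = g 0 τ + h1 τ := by
    intro τ hτ
    rw [← Finset.add_sum_erase Finset.univ (fun δ => g δ τ) (Finset.mem_univ 0)]
    congr 1
    rw [hh1]
    symm
    apply Finset.sum_subset
    · intro γ hγ
      rw [hD1, Finset.mem_filter] at hγ
      exact Finset.mem_erase.2 ⟨hγ.2.1, Finset.mem_univ _⟩
    · intro γ hγ hγ'
      rw [Finset.mem_erase] at hγ
      apply hz γ hγ.1 _ τ hτ
      intro hu
      exact hγ' (Finset.mem_filter.2 ⟨Finset.mem_univ _, hγ.1, hu⟩)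
  have F2 : ∀ τ : ℂ, 0 < τ.im → g 0 (-1 / τ) = a * τ ^ 2 * (g 0 τ + h1 τ) := by
    intro τ hτ
    rw [hS' 0 τ hτ, ← F1 τ hτ]
    congr 1
    apply Finset.sum_congr rfl
    intro δ _
    rw [hχ0, one_mul]
  have F3 : ∀ τ : ℂ, 0 < τ.im → g 0 (τ + 1) = g 0 τ := by
    intro τ hτ
    rw [hT 0 τ hτ, hu0, one_mul]
  have F3' : ∀ τ : ℂ, 0 < τ.im → h1 (τ + 1) = - h1 τ := by
    intro τ hτ
    simp only [hh1]
    rw [← Finset.sum_neg_distrib]
    apply Finset.sum_congr rfl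
    intro γ hγ
    rw [hD1, Finset.mem_filter] at hγ
    rw [hT γ τ hτ, hγ.2.2]
    ring
  have F4 : ∀ τ : ℂ, 0 < τ.im → a * (g 0 (-1 / τ) + h1 (-1 / τ)) = τ ^ 2 * g 0 τ := by
    intro τ hτ
    have h0 := ne0 τ hτ
    have h2 := F2 (-1 / τ) (im1 τ hτ)
    have h3 : -1 / (-1 / τ) = τ := by field_simp
    rw [h3] at h2
    rw [h2]
    field_simp
  have F5 : ∀ τ : ℂ, 0 < τ.im → g 0 (-1 / τ) - h1 (-1 / τ) = τ ^ 2 * (g 0 τ - h1 τ) := by
    intro τ hτ
    have h0 := ne0 τ hτ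
    have hm : 0 < (τ - 1).im := by simpa using hτ
    have hm0 := ne0 _ hm
    have i1 := im1 τ hτ
    have i2 : 0 < (-1 / τ + 1).im := by simpa using i1
    have i2' := ne0 _ i2
    set t' : ℂ := -1 / (-1 / τ + 1) with ht'
    have i3 : 0 < t'.im := im1 _ i2
    have e1 : -1 / t' = -1 / τ + 1 := by
      rw [ht']
      field_simp
    have h4 := F4 t' i3
    rw [e1, F3 _ i1, F3' _ i1] at h4
    have e2 : t' + 1 = -1 / (τ - 1) := by
      rw [ht']
      have : -1 / τ + 1 = (τ - 1) / τ := by field_simp; ring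
      rw [this]
      field_simp
      ring
    have h5 : g 0 t' = a * (τ - 1) ^ 2 * (g 0 (τ - 1) + h1 (τ - 1)) := by
      rw [← F3 t' i3, e2, F2 _ hm]
    have h6 := F3 _ hm
    have h7 := F3' _ hm
    rw [sub_add_cancel] at h6 h7
    have e3 : t' * (τ - 1) = -τ := by
      rw [ht']
      have : -1 / τ + 1 = (τ - 1) / τ := by field_simp; ring
      rw [this]
      field_simp
    have h8 : h1 (τ - 1) = - h1 τ := by rw [h7, neg_neg]
    rw [h5, ← h6, h8] at h4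
    have h9 : a * (g 0 (-1 / τ) - h1 (-1 / τ)) = a * (τ ^ 2 * (g 0 τ - h1 τ)) := by
      calc a * (g 0 (-1 / τ) - h1 (-1 / τ)) = a * (g 0 (-1 / τ) + -h1 (-1 / τ)) := by ring
        _ = (t' * (τ - 1)) ^ 2 * a * (g 0 τ + - h1 τ) := by rw [h4]; ring
        _ = a * (τ ^ 2 * (g 0 τ - h1 τ)) := by rw [e3]; ring
    exact mul_left_cancel₀ ha0 h9
  have F6 : ∀ τ : ℂ, 0 < τ.im → (1 + a - 2 * a ^ 2) * g 0 τ = (2 * a ^ 2 + a) * h1 τ := by
    intro τ hτ
    have h0 := ne0 τ hτ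
    have h2 := F2 τ hτ
    have h4 := F4 τ hτ
    have h5 := F5 τ hτ
    have h6 : τ ^ 2 * ((1 + a - 2 * a ^ 2) * g 0 τ) = τ ^ 2 * ((2 * a ^ 2 + a) * h1 τ) := by
      linear_combination (-1 : ℂ) * h4 - a * h5 + 2 * a * h2
    exact mul_left_cancel₀ (pow_ne_zero 2 h0) h6
  have F7 : ∀ τ : ℂ, 0 < τ.im → a ^ 2 * ∑ γ ∈ D1, ∑ δ, χ γ δ * g δ τ =
      g 0 τ - a ^ 2 * (g 0 τ + h1 τ) := by
    intro τ hτ
    have h0 := ne0 τ hτ
    have h2 := F2 τ hτ
    have h4 := F4 τ hτ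
    have h3 : h1 (-1 / τ) = a * τ ^ 2 * ∑ γ ∈ D1, ∑ δ, χ γ δ * g δ τ := by
      simp only [hh1]
      rw [Finset.mul_sum]
      apply Finset.sum_congr rfl
      intro γ _
      exact hS' γ τ hτ
    have h6 : τ ^ 2 * (a ^ 2 * ∑ γ ∈ D1, ∑ δ, χ γ δ * g δ τ) =
        τ ^ 2 * (g 0 τ - a ^ 2 * (g 0 τ + h1 τ)) := by
      linear_combination h4 - a * h2 - a * h3
    exact mul_left_cancel₀ (pow_ne_zero 2 h0) h6
  -- limits
  have hev : ∀ᶠ y : ℝ in atTop, 0 < ((y : ℂ) * Complex.I).im := by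
    filter_upwards [eventually_gt_atTop 0] with y hy
    simpa using hy
  have lh1 : Tendsto (fun y : ℝ => h1 (y * Complex.I)) atTop (𝓝 0) := by
    have := tendsto_finsetSum D1 (f := fun γ (y : ℝ) => g γ (y * Complex.I)) (a := fun _ => (0:ℂ))
      (x := atTop) (fun γ hγ => l₁ γ (Finset.mem_filter.1 hγ).2.1)
    simpa using this
  have G6 : (1 + a - 2 * a ^ 2) * β = 0 := by
    have t1 : Tendsto (fun y : ℝ => (1 + a - 2 * a ^ 2) * g 0 (y * Complex.I)) atTop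
        (𝓝 ((1 + a - 2 * a ^ 2) * β)) := l₀.const_mul _
    have t2 : Tendsto (fun y : ℝ => (2 * a ^ 2 + a) * h1 (y * Complex.I)) atTop
        (𝓝 ((2 * a ^ 2 + a) * 0)) := lh1.const_mul _
    rw [mul_zero] at t2
    refine tendsto_nhds_unique t1 (t2.congr' ?_)
    filter_upwards [hev] with y hy
    exact (F6 _ hy).symm
  have hquad : (1 - a) * (1 + 2 * a) = 0 := by
    rcases mul_eq_zero.1 G6 with h | h
    · linear_combination h
    · exact absurd h hβ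
  have haval : a = -(1 / 2) := by
    rcases mul_eq_zero.1 hquad with h | h
    · exfalso
      have h2 : (s : ℂ)⁻¹ = -1 := by
        rw [ha] at h
        linear_combination h
      have h3 : ((s⁻¹ : ℝ) : ℂ) = ((-1 : ℝ) : ℂ) := by push_cast; exact h2
      have h4 : s⁻¹ = -1 := by exact_mod_cast h3
      have h5 : 0 < s⁻¹ := inv_pos.2 hs0
      linarith
    · linear_combination (1 / 2 : ℂ) * h
  have hs2 : s = 2 := by
    have h2 : (s : ℂ)⁻¹ = 1 / 2 := by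
      rw [ha] at haval
      linear_combination (-1 : ℂ) * haval
    have h3 : ((s⁻¹ : ℝ) : ℂ) = ((1 / 2 : ℝ) : ℂ) := by push_cast; exact h2
    have h4 : s⁻¹ = 1 / 2 := by exact_mod_cast h3
    have h5 : s = (s⁻¹)⁻¹ := (inv_inv s).symm
    rw [h5, h4]
    norm_num
  have hcard4 : Fintype.card D = 4 := by
    have h2 : s ^ 2 = (Fintype.card D : ℝ) := Real.sq_sqrt hcard.le
    rw [hs2] at h2
    have h3 : ((Fintype.card D : ℕ) : ℝ) = ((4 : ℕ) : ℝ) := by rw [← h2]; norm_num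
    exact_mod_cast h3
  refine ⟨hcard4, ?_⟩
  have G7 : a ^ 2 * ((D1.card : ℂ) * β) = β - a ^ 2 * (β + 0) := by
    have t1 : Tendsto (fun y : ℝ => a ^ 2 * ∑ γ ∈ D1, ∑ δ, χ γ δ * g δ (y * Complex.I)) atTop
        (𝓝 (a ^ 2 * ∑ γ ∈ D1, ∑ δ, χ γ δ * (if δ = 0 then β else 0))) := by
      apply Tendsto.const_mul
      apply tendsto_finsetSum
      intro γ _
      apply tendsto_finsetSum
      intro δ _
      apply Tendsto.const_mul
      by_cases hδ : δ = 0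
      · rw [hδ, if_pos rfl]
        exact l₀
      · rw [if_neg hδ]
        exact l₁ δ hδ
    have e1 : ∑ γ ∈ D1, ∑ δ, χ γ δ * (if δ = 0 then β else 0) = (D1.card : ℂ) * β := by
      have : ∀ γ ∈ D1, ∑ δ, χ γ δ * (if δ = 0 then β else 0) = β := by
        intro γ _
        simp [hχ0']
      rw [Finset.sum_congr rfl this, Finset.sum_const, nsmul_eq_mul]
    rw [e1] at t1
    have t2 : Tendsto (fun y : ℝ => g 0 (y * Complex.I) -
        a ^ 2 * (g 0 (y * Complex.I) + h1 (y * Complex.I))) atTop (𝓝 (β - a ^ 2 * (β + 0))) :=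
      l₀.sub ((l₀.add lh1).const_mul _)
    refine tendsto_nhds_unique t1 (t2.congr' ?_)
    filter_upwards [hev] with y hy
    exact (F7 _ hy).symm
  have hD1card : D1.card = 3 := by
    rw [haval] at G7
    have h2 : ((D1.card : ℕ) : ℂ) * β = ((3 : ℕ) : ℂ) * β := by
      push_cast
      linear_combination 4 * G7
    have h3 := mul_right_cancel₀ hβ h2
    exact_mod_cast h3
  have hsub : D1 ⊆ Finset.univ.erase 0 := by
    intro γ hγ
    exact Finset.mem_erase.2 ⟨(Finset.mem_filter.1 hγ).2.1, Finset.mem_univ _⟩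
  have heq : D1 = Finset.univ.erase 0 := by
    apply Finset.eq_of_subset_of_card_le hsub
    rw [Finset.card_erase_of_mem (Finset.mem_univ _), Finset.card_univ, hcard4, hD1card]
  intro γ hγ
  have : γ ∈ D1 := by
    rw [heq]
    exact Finset.mem_erase.2 ⟨hγ, Finset.mem_univ _⟩
  exact (Finset.mem_filter.1 this).2.2

end Pool.Agent.Refl
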