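import Pool.Agent.Refl.VV1K
import Pool.Agent.Refl.VV1C

/-! Module VV1: the classification of the vector valued modular form. -/

namespace Pool.Agent.Refl
open Matrix

lemma vm_eta_T24 (τ : ℂ) : ModularForm.eta (τ + 1) ^ 24 = ModularForm.eta τ ^ 24 := by
  unfold ModularForm.eta
  have h1 : ∀ n, ModularForm.eta_q n (τ + 1) = ModularForm.eta_q n τ := by
    intro n
    unfold ModularForm.eta_q
    congr 1
    simp only [Function.Periodic.qParam, Complex.ofReal_one, div_one]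
    rw [mul_add, Complex.exp_add, mul_one, Complex.exp_two_pi_mul_I, mul_one]
  simp only [h1, mul_pow]
  have h2 : Function.Periodic.qParam 24 (τ + 1) ^ 24 = Function.Periodic.qParam 24 τ ^ 24 := by
    simp only [Function.Periodic.qParam, ← Complex.exp_nat_mul]
    have : ((24 : ℕ) : ℂ) * (2 * Real.pi * Complex.I * (τ + 1) / ((24 : ℝ) : ℂ)) =
        ((24 : ℕ) : ℂ) * (2 * Real.pi * Complex.I * τ / ((24 : ℝ) : ℂ)) +
          2 * Real.pi * Complex.I := by
      push_cast; ring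
    rw [this, Complex.exp_add, Complex.exp_two_pi_mul_I, mul_one]
  rw [h2]

lemma vm_sqrt_sq (z : ℂ) (hz : z ≠ 0) : Complex.sqrt z ^ 2 = z := by
  rw [Complex.sqrt, ← Complex.cpow_nat_mul]
  norm_num

lemma vm_eta_S24 {τ : ℂ} (hτ : 0 < τ.im) :
    ModularForm.eta (-1 / τ) ^ 24 = τ ^ 12 * ModularForm.eta τ ^ 24 := by
  have h := ModularForm.eta_comp_eq_csqrt_I_inv (show τ ∈ UpperHalfPlane.upperHalfPlaneSet from hτ)
  have h0 : τ ≠ 0 := by
    rintro rfl
    simp at hτ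
  simp only [Function.comp_apply, Pi.smul_apply, Pi.mul_apply, smul_eq_mul] at h
  rw [h, mul_pow, mul_pow, inv_pow]
  have e1 : Complex.sqrt Complex.I ^ 24 = 1 := by
    rw [show 24 = 2 * 12 from rfl, pow_mul, vm_sqrt_sq _ Complex.I_ne_zero,
      show 12 = 4 * 3 from rfl, pow_mul, Complex.I_pow_four, one_pow]
  have e2 : Complex.sqrt τ ^ 24 = τ ^ 12 := by
    rw [show 24 = 2 * 12 from rfl, pow_mul, vm_sqrt_sq _ h0]
  rw [e1, e2]
  ring

open Filter Topology in
lemma vm_eta_lim : Tendsto (fun y : ℝ => ModularForm.eta (y * Complex.I) ^ 24 *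
    e (-(y * Complex.I))) atTop (𝓝 1) := by
  set F : ℂ → ℂ := fun q => ∏' n : ℕ, (1 - q ^ (n + 1)) with hF
  have hc : ContinuousAt F 0 := by
    have h1 := ModularForm.differentiableOn_tprod_one_sub_pow.continuousOn
    exact h1.continuousAt (Metric.ball_mem_nhds 0 one_pos)
  have hF0 : F 0 = 1 := by simp [hF]
  have hq : Tendsto (fun y : ℝ => Function.Periodic.qParam 1 (y * Complex.I)) atTop (𝓝 0) := by
    rw [tendsto_zero_iff_norm_tendsto_zero]
    simp only [Function.Periodic.norm_qParam]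
    have h1 : Tendsto (fun y : ℝ => Real.exp (-(2 * Real.pi * y))) atTop (𝓝 0) :=
      Real.tendsto_exp_neg_atTop_nhds_zero.comp
        (tendsto_id.const_mul_atTop (by have := Real.pi_pos; positivity))
    refine h1.congr fun y => ?_
    congr 1
    simp
  have h2 : Tendsto (fun y : ℝ => F (Function.Periodic.qParam 1 (y * Complex.I)) ^ 24) atTop
      (𝓝 1) := by
    have := (hc.tendsto.comp hq).pow 24
    simpa [hF0] using this
  refine h2.congr fun y => ?_
  have e1 : Function.Periodic.qParam 24 (y * Complex.I) ^ 24 * e (-(y * Complex.I)) = 1 := by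
    unfold e
    simp only [Function.Periodic.qParam, ← Complex.exp_nat_mul]
    rw [← Complex.exp_add]
    have : ((24 : ℕ) : ℂ) * (2 * Real.pi * Complex.I * (y * Complex.I) / ((24 : ℝ) : ℂ)) +
        2 * Real.pi * Complex.I * -(y * Complex.I) = 0 := by
      push_cast; ring
    rw [this, Complex.exp_zero]
  have e2 : ModularForm.eta (y * Complex.I) = Function.Periodic.qParam 24 (y * Complex.I) *
      F (Function.Periodic.qParam 1 (y * Complex.I)) := rfl
  rw [e2, mul_pow]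
  linear_combination (-(F (Function.Periodic.qParam 1 (y * Complex.I)) ^ 24)) * e1

open Classical in
open Filter Topology in
theorem vv_main {D : Type*} [AddCommGroup D] [Fintype D] (h : D → ℂ → ℂ)
    (hol : ∀ γ, DifferentiableOn ℂ (h γ) {τ : ℂ | 0 < τ.im})
    (u : D → ℂ) (hu : ∀ γ, ‖u γ‖ = 1) (hu0 : u 0 = 1)
    (hT : ∀ γ τ, 0 < τ.im → h γ (τ + 1) = u γ * h γ τ)
    (χ : D → D → ℂ) (hχ : ∀ γ δ, ‖χ γ δ‖ = 1) (hχ0 : ∀ δ, χ 0 δ = 1) (hχ0' : ∀ γ, χ γ 0 = 1)
    (horth : ∀ γ γ', ∑ δ, χ γ δ * (starRingEnd ℂ) (χ γ' δ) =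
      if γ = γ' then (Fintype.card D : ℂ) else 0)
    (hS : ∀ γ τ, 0 < τ.im → h γ (-1 / τ) =
      -(τ ^ 10)⁻¹ * ((Real.sqrt (Fintype.card D : ℝ) : ℝ) : ℂ)⁻¹ * ∑ δ, χ γ δ * h δ τ)
    (β : ℂ) (b : D → ℂ) (K : ℝ)
    (hg : ∀ γ (τ : ℂ), 1 ≤ τ.im →
      ‖h γ τ - (if γ = 0 then β * e (-τ) else 0) - b γ * e (-τ / 2)‖ ≤
        K * Real.exp (2 * Real.pi / 3 * τ.im))
    (hne : ∃ γ τ, 0 < τ.im ∧ h γ τ ≠ 0) :
    Fintype.card D = 4 ∧ ∀ γ, γ ≠ 0 → u γ = -1 := by
  obtain ⟨hβ, hkill⟩ := vv1_kill h hol u hu hu0 hT χ hχ hχ0 hχ0' horth hS β b K hg hne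
  have hpi := Real.pi_pos
  obtain ⟨c₁, C₁, hc₁, hC₁, hη⟩ := vv_eta_bd
  have hK0 : 0 ≤ K := by
    have h1 := (norm_nonneg _).trans (hg 0 Complex.I (by simp))
    exact nonneg_of_mul_nonneg_left h1 (Real.exp_pos _)
  -- the remainder
  have hrem : ∀ γ, Tendsto (fun y : ℝ => ModularForm.eta (y * Complex.I) ^ 24 *
      (h γ (y * Complex.I) - (if γ = 0 then β * e (-(y * Complex.I)) else 0))) atTop (𝓝 0) := by
    intro γ
    rw [tendsto_zero_iff_norm_tendsto_zero]
    have hlim : Tendsto (fun y : ℝ => C₁ ^ 24 * (K + ‖b γ‖) * Real.exp (-(Real.pi * y))) atTop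
        (𝓝 0) := by
      have h1 : Tendsto (fun y : ℝ => Real.exp (-(Real.pi * y))) atTop (𝓝 0) :=
        Real.tendsto_exp_neg_atTop_nhds_zero.comp (tendsto_id.const_mul_atTop hpi)
      simpa using h1.const_mul (C₁ ^ 24 * (K + ‖b γ‖))
    refine squeeze_zero' (Eventually.of_forall fun _ => norm_nonneg _) ?_ hlim
    filter_upwards [eventually_ge_atTop (1 : ℝ)] with y hy
    set τ : ℂ := (y : ℂ) * Complex.I with hτ
    have hτi : τ.im = y := by simp [hτ]
    have g1 := hg γ τ (by rw [hτi]; exact hy)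
    have g2 := (hη τ (by rw [hτi]; exact hy)).2
    rw [hτi] at g1 g2
    have g3 : ‖h γ τ - (if γ = 0 then β * e (-τ) else 0)‖ ≤
        (K + ‖b γ‖) * Real.exp (Real.pi * y) := by
      have h1 : h γ τ - (if γ = 0 then β * e (-τ) else 0) =
          (h γ τ - (if γ = 0 then β * e (-τ) else 0) - b γ * e (-τ / 2)) + b γ * e (-τ / 2) := by
        ring
      rw [h1]
      refine (norm_add_le _ _).trans ?_
      rw [norm_mul, vk_norm_e2, hτi, add_mul]
      refine add_le_add (g1.trans (mul_le_mul_of_nonneg_left (Real.exp_le_exp.2 ?_) hK0)) le_rfl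
      nlinarith
    rw [norm_mul, norm_pow]
    calc ‖ModularForm.eta τ‖ ^ 24 * ‖h γ τ - (if γ = 0 then β * e (-τ) else 0)‖
        ≤ (C₁ * Real.exp (-(Real.pi / 12 * y))) ^ 24 *
          ((K + ‖b γ‖) * Real.exp (Real.pi * y)) :=
          mul_le_mul (pow_le_pow_left₀ (norm_nonneg _) g2 24) g3 (norm_nonneg _) (by positivity)
      _ = C₁ ^ 24 * (K + ‖b γ‖) * Real.exp (-(Real.pi * y)) := by
        rw [mul_pow, ← Real.exp_nat_mul, mul_mul_mul_comm, ← Real.exp_add]
        congr 2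
        push_cast
        ring
  refine vv1_end (fun γ τ => ModularForm.eta τ ^ 24 * h γ τ) u hu0 ?_ χ hχ0 hχ0' ?_ β hβ ?_ ?_ ?_
  · intro γ τ hτ
    rw [vm_eta_T24, hT γ τ hτ]
    ring
  · intro γ τ hτ
    have h0 : τ ≠ 0 := by
      rintro rfl
      simp at hτ
    rw [vm_eta_S24 hτ, hS γ τ hτ]
    have : ∑ δ, χ γ δ * (ModularForm.eta τ ^ 24 * h δ τ) =
        ModularForm.eta τ ^ 24 * ∑ δ, χ γ δ * h δ τ := by
      rw [Finset.mul_sum]
      refine Finset.sum_congr rfl fun δ _ => ?_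
      ring
    rw [this]
    field_simp
  · intro γ h1 h2 τ hτ
    rw [hkill γ h1 h2 τ hτ, mul_zero]
  · have h1 := (vm_eta_lim.const_mul β).add (hrem 0)
    rw [mul_one, add_zero] at h1
    refine h1.congr fun y => ?_
    simp only [if_true]
    ring
  · intro γ hγ
    refine (hrem γ).congr fun y => ?_
    simp only [if_neg hγ, sub_zero]

end Pool.Agent.Refl
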