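import Pool.Agent.Refl.ConeMod
import Pool.Agent.Refl.Koecher
import Pool.Agent.Refl.FJMod
import Pool.Agent.Refl.Phi
import Pool.Agent.Refl.Polar
import Pool.Agent.Refl.Theta
import Pool.Agent.Refl.VV1
import Pool.Agent.Refl.GenusR
import Pool.Agent.Refl.GenusTwo

namespace Pool.Agent.Refl
open Matrix

variable {G : Matrix (Fin 20) (Fin 20) ℤ}

lemma fin_map_smul (j : ℕ) : (j • G).map (Int.cast : ℤ → ℝ) = (j : ℝ) • G.map (Int.cast : ℤ → ℝ) := by
  ext i l
  rw [Matrix.map_apply, Matrix.smul_apply, Matrix.smul_apply, Matrix.map_apply, nsmul_eq_mul,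
    smul_eq_mul, Int.cast_mul, Int.cast_natCast]

theorem evenPos_smul (hG : EvenPos G) {j : ℕ} (hj : 0 < j) : EvenPos (j • G) := by
  refine ⟨?_, ?_, ?_⟩
  · have := hG.symm
    unfold Matrix.IsSymm at *
    rw [Matrix.transpose_smul, this]
  · intro i
    rw [Matrix.smul_apply, nsmul_eq_mul]
    exact (hG.even i).mul_left _
  · rw [fin_map_smul]
    exact hG.pos.smul (by exact_mod_cast hj)

theorem qd_smul (hG : EvenPos G) {j : ℕ} (hj : 0 < j) (p : VZ) :
    qd (j • G) p = qd G p / j := by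
  have hj' : (j : ℝ) ≠ 0 := by exact_mod_cast hj.ne'
  have hdet : IsUnit (G.map (Int.cast : ℤ → ℝ)).det := by
    exact isUnit_iff_ne_zero.mpr hG.pos.det_pos.ne'
  have hinv : ((j • G).map (Int.cast : ℤ → ℝ))⁻¹ = (j : ℝ)⁻¹ • (G.map (Int.cast : ℤ → ℝ))⁻¹ := by
    rw [fin_map_smul]
    apply Matrix.inv_eq_right_inv
    rw [Matrix.smul_mul, Matrix.mul_smul, smul_smul, mul_inv_cancel₀ hj', one_smul,
      Matrix.mul_nonsing_inv _ hdet]
  unfold qd
  rw [hinv, Finset.sum_div]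
  refine Finset.sum_congr rfl fun i _ => ?_
  rw [Finset.sum_div]
  refine Finset.sum_congr rfl fun l _ => ?_
  rw [Matrix.smul_apply, smul_eq_mul]
  field_simp

/-- the unitary matrix of the Weil representation -/
lemma fin_unitary (hG : EvenPos G) [Fintype (Disc G)] [DecidableEq (Disc G)] :
    (Matrix.of fun γ δ : Disc G => -((Real.sqrt (G.det : ℝ) : ℝ) : ℂ)⁻¹ * chi G γ δ) *
      (Matrix.of fun γ δ : Disc G => -((Real.sqrt (G.det : ℝ) : ℝ) : ℂ)⁻¹ * chi G γ δ)ᴴ = 1 := by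
  have hd : (0 : ℝ) < (G.det : ℝ) := by exact_mod_cast det_pos hG
  have hcard : (Fintype.card (Disc G) : ℂ) = ((G.det : ℝ) : ℂ) := by
    have := card_disc hG
    rw [Nat.card_eq_fintype_card] at this
    rw [← this]
    push_cast
    rfl
  have hsq : ((Real.sqrt (G.det : ℝ) : ℝ) : ℂ) * ((Real.sqrt (G.det : ℝ) : ℝ) : ℂ) =
      ((G.det : ℝ) : ℂ) := by
    rw [← Complex.ofReal_mul, Real.mul_self_sqrt hd.le]
  have hne : ((Real.sqrt (G.det : ℝ) : ℝ) : ℂ) ≠ 0 := by
    exact_mod_cast (Real.sqrt_pos.mpr hd).ne'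
  ext γ γ'
  have horth := chi_orth hG γ γ'
  rw [Matrix.mul_apply]
  simp only [Matrix.of_apply, Matrix.conjTranspose_apply]
  have : ∀ δ : Disc G, -((Real.sqrt (G.det : ℝ) : ℝ) : ℂ)⁻¹ * chi G γ δ *
      star (-((Real.sqrt (G.det : ℝ) : ℝ) : ℂ)⁻¹ * chi G γ' δ) =
      (((Real.sqrt (G.det : ℝ) : ℝ) : ℂ) * ((Real.sqrt (G.det : ℝ) : ℝ) : ℂ))⁻¹ *
        (chi G γ δ * (starRingEnd ℂ) (chi G γ' δ)) := by
    intro δ
    have h1 : star (-((Real.sqrt (G.det : ℝ) : ℝ) : ℂ)⁻¹ * chi G γ' δ) =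
        -((Real.sqrt (G.det : ℝ) : ℝ) : ℂ)⁻¹ * (starRingEnd ℂ) (chi G γ' δ) := by
      rw [star_mul', star_neg, star_inv₀]
      congr 2
      · congr 1
        exact Complex.conj_ofReal _
    rw [h1, mul_inv]
    ring
  rw [Finset.sum_congr rfl fun δ _ => this δ, ← Finset.mul_sum, horth, hsq, hcard]
  by_cases h : γ = γ'
  · subst h
    rw [if_pos rfl, Matrix.one_apply_eq]
    exact inv_mul_cancel₀ (by exact_mod_cast hd.ne')
  · rw [if_neg h, mul_zero, Matrix.one_apply_ne h]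

theorem j_eq_one (hG : EvenPos G) {k : ℤ} {f : ℂ → VC → ℂ → ℂ} (hf : TF G k f)
    {ψ : ℕ → ℂ → VC → ℂ} (hψ : FJ G k f ψ) {C j : ℕ} {φ : ℂ → VC → ℂ}
    (hφ : PhiData G ψ C j φ) : j = 1 := by
  classical
  by_contra hj1
  have hj : 0 < j := hφ.hj
  have hj2 : 2 ≤ j := by omega
  have hG' := evenPos_smul hG hj
  have : Finite (Disc (j • G)) := finite_disc hG'
  have : Fintype (Disc (j • G)) := Fintype.ofFinite _
  obtain ⟨h, hol, hT, hS, hE, hN⟩ := exists_theta hG' hφ.jac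
  have hjR : (0 : ℝ) < j := by exact_mod_cast hj
  have hj2R : (2 : ℝ) ≤ j := by exact_mod_cast hj2
  have hb : ∀ γ : Disc (j • G), ∃ K : ℝ, ∀ τ : ℂ, 1 ≤ τ.im →
      ‖h γ τ‖ ≤ K * Real.exp (2 * Real.pi * (1 / 2) * τ.im) := by
    intro γ
    obtain ⟨K, hK⟩ := hE (Quotient.out γ) ∅ (-(1 / 2)) (by
      intro n _ hn
      rw [qd_smul hG hj]
      by_cases hD : 2 * (j : ℝ) * n - qd G (Quotient.out γ) < 0
      · have := (polar hG hf hψ hφ n _ hn hD).2 hj2
        have h1 : (-2 : ℝ) / (2 * j) ≤ (2 * (j : ℝ) * n - qd G (Quotient.out γ)) / (2 * j) :=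
          div_le_div_of_nonneg_right this (by positivity)
        have h2 : (2 * (j : ℝ) * n - qd G (Quotient.out γ)) / (2 * j) =
            n - qd G (Quotient.out γ) / j / 2 := by field_simp
        have h3 : (-(1 / 2) : ℝ) ≤ -2 / (2 * j) := by
          rw [le_div_iff₀ (by positivity)]
          linarith
        linarith
      · push Not at hD
        have h2 : (2 * (j : ℝ) * n - qd G (Quotient.out γ)) / (2 * j) =
            n - qd G (Quotient.out γ) / j / 2 := by field_simp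
        have h1 : 0 ≤ (2 * (j : ℝ) * n - qd G (Quotient.out γ)) / (2 * j) := by positivity
        linarith)
    refine ⟨K, fun τ hτ => ?_⟩
    have := hK τ hτ
    rw [mk_out] at this
    simp only [Finset.sum_empty, sub_zero] at this
    refine this.trans (le_of_eq ?_)
    congr 2
    ring
  choose K hK using hb
  have hz := vv_zero h hol (ug (j • G)) norm_ug hT _ (fin_unitary hG')
    (by
      intro γ τ hτ
      rw [hS γ τ hτ, Finset.mul_sum, Finset.mul_sum]
      refine Finset.sum_congr rfl fun δ _ => ?_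
      simp only [Matrix.of_apply]
      ring)
    (∑ γ, |K γ|) (1 / 2) (by norm_num)
    (by
      intro γ τ hτ
      refine (hK γ τ hτ).trans ?_
      refine mul_le_mul_of_nonneg_right ?_ (Real.exp_pos _).le
      exact (le_abs_self _).trans (Finset.single_le_sum (f := fun γ => |K γ|)
        (fun i _ => abs_nonneg _) (Finset.mem_univ γ)))
  obtain ⟨τ, z, hτ, hne⟩ := hφ.ne
  exact hne (hN hz τ z hτ)

theorem disc_of_one (hG : EvenPos G) {k : ℤ} {f : ℂ → VC → ℂ → ℂ} (hf : TF G k f)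
    {ψ : ℕ → ℂ → VC → ℂ} (hψ : FJ G k f ψ) {C : ℕ} {φ : ℂ → VC → ℂ}
    (hφ : PhiData G ψ C 1 φ) :
    Nat.card (Disc G) = 4 ∧
      ∀ p : VZ, (¬ ∃ v : VZ, G *ᵥ v = p) → ∃ k : ℤ, qd G p = 2 * k + 1 := by
  classical
  have : Finite (Disc G) := finite_disc hG
  have : Fintype (Disc G) := Fintype.ofFinite _
  have hjac : Jac0 G φ := by simpa using hφ.jac
  obtain ⟨h, hol, hT, hS, hE, hN⟩ := exists_theta hG hjac
  have hpol : ∀ (n : ℤ) (p : VZ), fc φ n p ≠ 0 → 2 * (n : ℝ) - qd G p < 0 →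
      (2 * (n : ℝ) - qd G p = -2 ∧ ∃ v : VZ, G *ᵥ v = p) ∨
      2 * (n : ℝ) - qd G p = -1 ∨ -(2 / 3) ≤ 2 * (n : ℝ) - qd G p := by
    intro n p hn hD
    exact (polar hG hf hψ hφ n p hn (by simpa using hD)).1 rfl
  -- the finite set of singular exponents
  let S₂ : VZ → Finset ℤ := fun p => ({⌊(qd G p - 2) / 2⌋} : Finset ℤ).filter
    (fun n => 2 * (n : ℝ) - qd G p = -2)
  let S₁ : VZ → Finset ℤ := fun p => ({⌊(qd G p - 1) / 2⌋} : Finset ℤ).filter
    (fun n => 2 * (n : ℝ) - qd G p = -1)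
  have hS₂ : ∀ (n : ℤ) (p : VZ), n ∈ S₂ p ↔ 2 * (n : ℝ) - qd G p = -2 := by
    intro n p
    simp only [S₂, Finset.mem_filter, Finset.mem_singleton]
    refine ⟨fun h => h.2, fun h => ⟨?_, h⟩⟩
    have : (qd G p - 2) / 2 = (n : ℝ) := by linarith
    rw [this, Int.floor_intCast]
  have hS₁ : ∀ (n : ℤ) (p : VZ), n ∈ S₁ p ↔ 2 * (n : ℝ) - qd G p = -1 := by
    intro n p
    simp only [S₁, Finset.mem_filter, Finset.mem_singleton]
    refine ⟨fun h => h.2, fun h => ⟨?_, h⟩⟩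
    have : (qd G p - 1) / 2 = (n : ℝ) := by linarith
    rw [this, Int.floor_intCast]
  have hdisj : ∀ p, Disjoint (S₂ p) (S₁ p) := by
    intro p
    rw [Finset.disjoint_left]
    intro n h1 h2
    rw [hS₂] at h1
    rw [hS₁] at h2
    linarith
  let β : ℂ := ∑ n ∈ S₂ (Quotient.out (0 : Disc G)), fc φ n (Quotient.out (0 : Disc G))
  let b : Disc G → ℂ := fun γ => ∑ n ∈ S₁ (Quotient.out γ), fc φ n (Quotient.out γ)
  have hb : ∀ γ : Disc G, ∃ K : ℝ, ∀ τ : ℂ, 1 ≤ τ.im →
      ‖h γ τ - (if γ = 0 then β * e (-τ) else 0) - b γ * e (-τ / 2)‖ ≤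
        K * Real.exp (2 * Real.pi / 3 * τ.im) := by
    intro γ
    set p : VZ := Quotient.out γ with hp
    obtain ⟨K, hK⟩ := hE p (S₂ p ∪ S₁ p) (-(1 / 3)) (by
      intro n hn hfc
      rw [Finset.mem_union, not_or, hS₂, hS₁] at hn
      by_cases hD : 2 * (n : ℝ) - qd G p < 0
      · rcases hpol n p hfc hD with h1 | h1 | h1
        · exact absurd h1.1 hn.1
        · exact absurd h1 hn.2
        · linarith
      · push Not at hD
        linarith)
    refine ⟨K, fun τ hτ => ?_⟩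
    have h1 := hK τ hτ
    rw [mk_out, Finset.sum_union (hdisj p)] at h1
    have hs1 : ∑ n ∈ S₁ p, fc φ n p * e ((n - qd G p / 2 : ℝ) * τ) = b γ * e (-τ / 2) := by
      rw [Finset.sum_mul]
      refine Finset.sum_congr rfl fun n hn => ?_
      rw [hS₁] at hn
      have : (n : ℝ) - qd G p / 2 = -(1 / 2) := by linarith
      rw [this]
      congr 2
      push_cast
      ring
    have hs2 : ∑ n ∈ S₂ p, fc φ n p * e ((n - qd G p / 2 : ℝ) * τ) =
        if γ = 0 then β * e (-τ) else 0 := by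
      by_cases hγ : γ = 0
      · rw [if_pos hγ, Finset.sum_mul]
        subst hγ
        refine Finset.sum_congr rfl fun n hn => ?_
        rw [hS₂] at hn
        have : (n : ℝ) - qd G p / 2 = -1 := by linarith
        rw [this]
        congr 2
        push_cast
        ring
      · rw [if_neg hγ]
        refine Finset.sum_eq_zero fun n hn => ?_
        rw [hS₂] at hn
        by_cases hfc : fc φ n p = 0
        · rw [hfc, zero_mul]
        · exfalso
          rcases hpol n p hfc (by linarith) with h1 | h1 | h1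
          · apply hγ
            rw [← mk_out γ, ← hp]
            exact (mk_eq_zero_iff p).mpr h1.2
          · linarith
          · linarith
    rw [hs1, hs2] at h1
    rw [sub_sub]
    refine h1.trans (le_of_eq ?_)
    congr 2
    ring
  choose K hK using hb
  have hcard : (Fintype.card (Disc G) : ℝ) = (G.det : ℝ) := by
    have := card_disc hG
    rw [Nat.card_eq_fintype_card] at this
    rw [← this]
    push_cast
    rfl
  have hne : ∃ γ τ, 0 < τ.im ∧ h γ τ ≠ 0 := by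
    by_contra hcon
    push Not at hcon
    obtain ⟨τ, z, hτ, hz⟩ := hφ.ne
    exact hz (hN hcon τ z hτ)
  have hmain := vv_main h hol (ug G) norm_ug (ug_zero hG) hT (chi G) norm_chi
    (chi_zero_left hG) (chi_zero_right hG) (fun γ γ' => chi_orth hG γ γ')
    (by intro γ τ hτ; rw [hS γ τ hτ, hcard]) β b (∑ γ, |K γ|)
    (by
      intro γ τ hτ
      refine (hK γ τ hτ).trans ?_
      refine mul_le_mul_of_nonneg_right ?_ (Real.exp_pos _).le
      exact (le_abs_self _).trans (Finset.single_le_sum (f := fun γ => |K γ|)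
        (fun i _ => abs_nonneg _) (Finset.mem_univ γ))) hne
  refine ⟨by rw [Nat.card_eq_fintype_card]; exact hmain.1, fun p hp => ?_⟩
  have hne0 : (Disc.mk p : Disc G) ≠ 0 := fun h0 => hp ((mk_eq_zero_iff p).mp h0)
  have h1 := hmain.2 _ hne0
  rw [ug_mk hG] at h1
  have h2 : e (-(qd G p : ℂ) / 2) = e (1 / 2) := by
    rw [h1]
    unfold e
    rw [show 2 * (Real.pi : ℂ) * Complex.I * (1 / 2) = Real.pi * Complex.I by ring]
    exact Complex.exp_pi_mul_I.symm
  unfold e at h2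
  rw [Complex.exp_eq_exp_iff_exists_int] at h2
  obtain ⟨n, hn⟩ := h2
  refine ⟨-1 - n, ?_⟩
  have h3 : -(qd G p : ℂ) / 2 = 1 / 2 + n := by
    have hpi : (2 * (Real.pi : ℂ) * Complex.I) ≠ 0 := by
      simp [Real.pi_ne_zero]
    have : 2 * (Real.pi : ℂ) * Complex.I * (-(qd G p : ℂ) / 2) =
        2 * (Real.pi : ℂ) * Complex.I * (1 / 2 + n) := by
      rw [hn]; ring
    exact mul_left_cancel₀ hpi this
  have h4 : (qd G p : ℂ) = ((2 * (-1 - n : ℤ) + 1 : ℝ) : ℂ) := by
    push_cast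
    linear_combination (-2) * h3
  exact_mod_cast h4

theorem main (hG : EvenPos G) (h : IsReflective G) : SameGenus G gramE8E8D4 := by
  obtain ⟨k, f, hf⟩ := exists_TF hG h
  obtain ⟨a, ha⟩ := exists_fourierData hG hf
  obtain ⟨ψ, hψ⟩ := exists_FJ hG hf ha
  obtain ⟨C, j, φ, hφ⟩ := exists_phi hG hf hψ
  obtain rfl := j_eq_one hG hf hψ hφ
  obtain ⟨hcard, hodd⟩ := disc_of_one hG hf hψ hφ
  have hdet : G.det = 4 := by rw [← card_disc hG, hcard]; rfl
  refine ⟨equiv_real hG, fun p _ => ?_⟩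
  by_cases hp : p = 2
  · subst hp; exact equiv_two hG hcard hodd
  · exact equiv_odd hG hdet p hp

end Pool.Agent.Refl
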