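import Pool.Agent.Refl.TwoVar

/-! Auxiliary results for module Q: Osgood's lemma in two variables, logarithms on discs, removal
of zeros, comparison of Taylor coefficients. -/

namespace Pool.Agent.Refl
open Metric Filter Topology Asymptotics

section Osgood

variable {E : Type*} [NormedAddCommGroup E] [NormedSpace ℂ E]

theorem q_line {U : Set E} {f : E → ℂ} (h : GH U f) {p v : E} {w : ℂ} (hw : p + w • v ∈ U) :
    DifferentiableAt ℂ (fun x : ℂ => f (p + x • v)) w := by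
  have h1 := h.line (p + w • v) hw v
  have h2 : DifferentiableAt ℂ (fun x : ℂ => x - w) w := by fun_prop
  have h3 : DifferentiableAt ℂ (fun x : ℂ => f (p + w • v + x • v)) ((fun x : ℂ => x - w) w) := by
    simpa using h1
  have h4 : DifferentiableAt ℂ ((fun x : ℂ => f (p + w • v + x • v)) ∘ (fun x : ℂ => x - w)) w :=
    DifferentiableAt.comp w h3 h2
  refine h4.congr_of_eventuallyEq (Filter.Eventually.of_forall fun x => ?_)
  show f (p + x • v) = f (p + w • v + (x - w) • v)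
  congr 1
  rw [sub_smul]
  abel

theorem q_cont_dir {U : Set E} (hU : IsOpen U) {f : E → ℂ} (h : GH U f) {p₀ : E} (hp : p₀ ∈ U)
    (v : E) : ContinuousAt (fun p => deriv (fun x : ℂ => f (p + x • v)) 0) p₀ := by
  obtain ⟨ε₀, hε₀, hball⟩ := Metric.isOpen_iff.1 hU p₀ hp
  set ρ : ℝ := ε₀ / (2 * (‖v‖ + 1)) with hρ
  have hv : 0 < ‖v‖ + 1 := by positivity
  have hρ0 : 0 < ρ := by positivity
  have hmem : ∀ p ∈ ball p₀ (ε₀ / 2), ∀ x ∈ closedBall (0 : ℂ) ρ, p + x • v ∈ U := by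
    intro p hp x hx
    apply hball
    rw [mem_ball, dist_eq_norm]
    rw [mem_ball, dist_eq_norm] at hp
    rw [mem_closedBall_zero_iff] at hx
    calc ‖p + x • v - p₀‖ = ‖(p - p₀) + x • v‖ := by congr 1; abel
      _ ≤ ‖p - p₀‖ + ‖x • v‖ := norm_add_le _ _
      _ = ‖p - p₀‖ + ‖x‖ * ‖v‖ := by rw [norm_smul]
      _ < ε₀ / 2 + ε₀ / 2 := by
          have h1 : ‖x‖ * ‖v‖ ≤ ρ * (‖v‖ + 1) := by
            have := norm_nonneg v
            have := norm_nonneg x
            nlinarith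
          have h2 : ρ * (‖v‖ + 1) = ε₀ / 2 := by
            rw [hρ]; field_simp
          linarith
      _ = ε₀ := by ring
  rw [Metric.continuousAt_iff]
  intro ε hε
  have hcont : ContinuousOn (Function.uncurry fun (p : E) (x : ℂ) => f (p + x • v))
      (ball p₀ (ε₀ / 2) ×ˢ sphere (0 : ℂ) ρ) := by
    have h1 : ContinuousOn (fun q : E × ℂ => q.1 + q.2 • v)
        (ball p₀ (ε₀ / 2) ×ˢ sphere (0 : ℂ) ρ) := by fun_prop
    refine h.cont.comp h1 ?_
    rintro ⟨p, x⟩ ⟨hp, hx⟩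
    exact hmem p hp x (sphere_subset_closedBall hx)
  have hu : {q : ℂ × ℂ | dist q.1 q.2 < ε * ρ / 2} ∈ uniformity ℂ :=
    Metric.dist_mem_uniformity (by positivity)
  obtain ⟨V, hV, hVs⟩ := (isCompact_sphere (0 : ℂ) ρ).mem_uniformity_of_prod hcont
    (mem_ball_self (by positivity : (0:ℝ) < ε₀ / 2)) hu
  rw [(isOpen_ball).nhdsWithin_eq (mem_ball_self (by positivity))] at hV
  have hV2 : V ∩ ball p₀ (ε₀ / 2) ∈ 𝓝 p₀ :=
    Filter.inter_mem hV (ball_mem_nhds _ (by positivity))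
  obtain ⟨δ, hδ, hδV⟩ := Metric.mem_nhds_iff.1 hV2
  refine ⟨δ, hδ, fun {p} hpd => ?_⟩
  have hpV := hδV hpd
  have hd : ∀ q ∈ ball p₀ (ε₀ / 2), DifferentiableOn ℂ (fun x : ℂ => f (q + x • v))
      (closedBall 0 ρ) := by
    intro q hq x hx
    exact (q_line h (hmem q hq x hx)).differentiableWithinAt
  have hd0 : ∀ q ∈ ball p₀ (ε₀ / 2), DifferentiableAt ℂ (fun x : ℂ => f (q + x • v)) 0 := by
    intro q hq
    exact q_line h (hmem q hq 0 (mem_closedBall_self hρ0.le))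
  have hp0 : p₀ ∈ ball p₀ (ε₀ / 2) := mem_ball_self (by positivity)
  rw [dist_eq_norm, ← deriv_sub (hd0 p hpV.2) (hd0 p₀ hp0)]
  have hdc : DiffContOnCl ℂ (fun x : ℂ => f (p + x • v) - f (p₀ + x • v)) (ball 0 ρ) := by
    have := (hd p hpV.2).sub (hd p₀ hp0)
    exact this.diffContOnCl_ball (le_refl _)
  have hb : ∀ z ∈ sphere (0 : ℂ) ρ, ‖f (p + z • v) - f (p₀ + z • v)‖ ≤ ε * ρ / 2 := by
    intro z hz
    have := hVs p hpV.1 z hz
    rw [← dist_eq_norm]
    exact le_of_lt this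
  have h5 := Complex.norm_deriv_le_of_forall_mem_sphere_norm_le hρ0 hdc hb
  calc _ ≤ ε * ρ / 2 / ρ := h5
    _ = ε / 2 := by field_simp
    _ < ε := by linarith

end Osgood

/-- Osgood's lemma in two variables -/
theorem q_osgood {U : Set (ℂ × ℂ)} (hU : IsOpen U) {f : ℂ × ℂ → ℂ} (h : GH U f) {p : ℂ × ℂ}
    (hp : p ∈ U) : DifferentiableAt ℂ f p := by
  let f₁ : ℂ → ℂ → ℂ →L[ℂ] ℂ := fun a b =>
    ContinuousLinearMap.toSpanSingleton ℂ (deriv (fun x : ℂ => f ((a, b) + x • ((1, 0) : ℂ × ℂ))) 0)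
  let f₂ : ℂ → ℂ → ℂ →L[ℂ] ℂ := fun a b =>
    ContinuousLinearMap.toSpanSingleton ℂ (deriv (fun x : ℂ => f ((a, b) + x • ((0, 1) : ℂ × ℂ))) 0)
  have hev : ∀ᶠ v in 𝓝 p, v ∈ U := hU.mem_nhds hp
  have hd : ∀ q ∈ U, ∀ v : ℂ × ℂ, HasDerivAt (fun x : ℂ => f (q + x • v))
      (deriv (fun x : ℂ => f (q + x • v)) 0) 0 := by
    intro q hq v
    exact (h.line q hq v).hasDerivAt
  have hcomp1 : ∀ q ∈ U, HasDerivAt (fun y : ℂ => f (y, q.2))
      (deriv (fun x : ℂ => f (q + x • ((1, 0) : ℂ × ℂ))) 0) q.1 := by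
    intro q hq
    have h1 := hd q hq (1, 0)
    have h2 : HasDerivAt (fun y : ℂ => y - q.1) 1 q.1 := (hasDerivAt_id _).sub_const _
    have h1' : HasDerivAt (fun x : ℂ => f (q + x • ((1, 0) : ℂ × ℂ)))
      (deriv (fun x : ℂ => f (q + x • ((1, 0) : ℂ × ℂ))) 0) ((fun y : ℂ => y - q.1) q.1) := by
      simpa using h1
    have h3 : HasDerivAt ((fun x : ℂ => f (q + x • ((1, 0) : ℂ × ℂ))) ∘ (fun y : ℂ => y - q.1))
      (deriv (fun x : ℂ => f (q + x • ((1, 0) : ℂ × ℂ))) 0 * 1) q.1 :=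
      HasDerivAt.comp q.1 h1' h2
    rw [mul_one] at h3
    refine h3.congr_of_eventuallyEq (Filter.Eventually.of_forall fun y => ?_)
    show f (y, q.2) = f (q + (y - q.1) • ((1, 0) : ℂ × ℂ))
    congr 1
    ext <;> simp
  have hcomp2 : ∀ q ∈ U, HasDerivAt (fun y : ℂ => f (q.1, y))
      (deriv (fun x : ℂ => f (q + x • ((0, 1) : ℂ × ℂ))) 0) q.2 := by
    intro q hq
    have h1 := hd q hq (0, 1)
    have h2 : HasDerivAt (fun y : ℂ => y - q.2) 1 q.2 := (hasDerivAt_id _).sub_const _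
    have h1' : HasDerivAt (fun x : ℂ => f (q + x • ((0, 1) : ℂ × ℂ)))
      (deriv (fun x : ℂ => f (q + x • ((0, 1) : ℂ × ℂ))) 0) ((fun y : ℂ => y - q.2) q.2) := by
      simpa using h1
    have h3 : HasDerivAt ((fun x : ℂ => f (q + x • ((0, 1) : ℂ × ℂ))) ∘ (fun y : ℂ => y - q.2))
      (deriv (fun x : ℂ => f (q + x • ((0, 1) : ℂ × ℂ))) 0 * 1) q.2 :=
      HasDerivAt.comp q.2 h1' h2
    rw [mul_one] at h3
    refine h3.congr_of_eventuallyEq (Filter.Eventually.of_forall fun y => ?_)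
    show f (q.1, y) = f (q + (y - q.2) • ((0, 1) : ℂ × ℂ))
    congr 1
    ext <;> simp
  have key := hasStrictFDerivAt_uncurry_coprod (𝕜 := ℂ) (u := p) (f := fun a b => f (a, b))
    (f₁ := f₁) (f₂ := f₂)
    (by
      filter_upwards [hev] with q hq
      exact (hcomp1 q hq).hasFDerivAt)
    (by
      filter_upwards [hev] with q hq
      exact (hcomp2 q hq).hasFDerivAt)
    (by
      have := q_cont_dir hU h hp (1, 0)
      exact (ContinuousLinearMap.toSpanSingletonLIE ℂ ℂ).continuous.continuousAt.comp this)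
    (by
      have := q_cont_dir hU h hp (0, 1)
      exact (ContinuousLinearMap.toSpanSingletonLIE ℂ ℂ).continuous.continuousAt.comp this)
  exact key.hasFDerivAt.differentiableAt

/-- logarithm of a function without zeros on a disc -/
theorem q_log {R : ℝ} (hR : 0 < R) {H : ℂ → ℂ} (hH : DifferentiableOn ℂ H (ball 0 R))
    (hne : ∀ z ∈ ball (0 : ℂ) R, H z ≠ 0) (h1 : H 0 = 1) :
    ∃ h : ℂ → ℂ, DifferentiableOn ℂ h (ball 0 R) ∧ h 0 = 0 ∧
      ∀ z ∈ ball (0 : ℂ) R, Complex.exp (h z) = H z := by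
  have hL : DifferentiableOn ℂ (fun z => deriv H z / H z) (ball 0 R) :=
    (hH.deriv isOpen_ball).div hH hne
  obtain ⟨h, h0, hh⟩ := hL.isExactOn_ball.with_val_at 0 0
  have hd : DifferentiableOn ℂ h (ball 0 R) := fun z hz =>
    (hh z hz).differentiableAt.differentiableWithinAt
  refine ⟨h, hd, h0, fun z hz => ?_⟩
  have hg : ∀ z ∈ ball (0 : ℂ) R, HasDerivAt (fun z => H z * Complex.exp (-h z)) 0 z := by
    intro z hz
    have e1 : HasDerivAt H (deriv H z) z := (hH.differentiableAt (isOpen_ball.mem_nhds hz)).hasDerivAt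
    have e2 := ((hh z hz).neg).cexp
    have e3 := e1.mul e2
    have e4 := hne z hz
    refine e3.congr_deriv ?_
    simp only [Pi.neg_apply]
    field_simp
    ring
  have hc := isOpen_ball.is_const_of_deriv_eq_zero
    (convex_ball (0 : ℂ) R).isPreconnected
    (fun z hz => (hg z hz).differentiableAt.differentiableWithinAt)
    (fun z hz => (hg z hz).deriv) hz (mem_ball_self hR)
  simp only [h0, h1, neg_zero, Complex.exp_zero, mul_one] at hc
  rw [Complex.exp_neg] at hc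
  have := Complex.exp_ne_zero (h z)
  field_simp at hc
  exact hc.symm

/-- Taylor coefficients with Cauchy's bound -/
theorem q_taylor {ρ M : ℝ} (hρ : 0 < ρ) {h : ℂ → ℂ} {R : ℝ} (hR : ρ < R)
    (hd : DifferentiableOn ℂ h (ball 0 R)) (hM : ∀ z : ℂ, ‖z‖ = ρ → ‖h z‖ ≤ M) :
    ∃ a : ℕ → ℂ, (∀ k, ‖a k‖ ≤ M / ρ ^ k) ∧
      ∀ n, (fun z => h z - ∑ k ∈ Finset.range n, a k * z ^ k) =O[𝓝 0] (fun z : ℂ => z ^ n) := by
  refine ⟨fun n => iteratedDeriv n h 0 / n.factorial, fun k => ?_, fun n => ?_⟩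
  · have hcl : DiffContOnCl ℂ h (ball 0 ρ) :=
      (hd.mono (closedBall_subset_ball hR)).diffContOnCl_ball (le_refl _)
    have := Complex.norm_iteratedDeriv_le_of_forall_mem_sphere_norm_le k hρ hcl
      (fun z hz => hM z (mem_sphere_zero_iff_norm.1 hz))
    rw [norm_div, Complex.norm_natCast]
    have hf : (0 : ℝ) < k.factorial := by positivity
    rw [div_le_iff₀ hf]
    calc _ ≤ (k.factorial : ℝ) * M / ρ ^ k := this
      _ = _ := by ring
  · have ha : AnalyticAt ℂ h 0 := hd.analyticAt (ball_mem_nhds 0 (hρ.trans hR))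
    have h1 := ha.hasFPowerSeriesAt.isBigO_sub_partialSum_pow n
    have h2 : (fun y : ℂ => ‖y‖ ^ n) =O[𝓝 0] fun y : ℂ => y ^ n := by
      refine IsBigO.of_bound 1 (Eventually.of_forall fun y => ?_)
      simp
    refine (h1.trans h2).congr_left fun z => ?_
    rw [zero_add, FormalMultilinearSeries.partialSum]
    congr 1
    refine Finset.sum_congr rfl fun k _ => ?_
    rw [FormalMultilinearSeries.apply_eq_pow_smul_coeff, FormalMultilinearSeries.coeff_ofScalars,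
      smul_eq_mul, mul_comm]

/-- a polynomial of degree `< n` which is `O(z ^ n)` vanishes -/
theorem q_poly : ∀ (n : ℕ) (d : ℕ → ℂ),
    (fun z : ℂ => ∑ k ∈ Finset.range n, d k * z ^ k) =O[𝓝 0] (fun z : ℂ => z ^ n) →
    ∀ k < n, d k = 0 := by
  intro n
  induction n with
  | zero => intro d _ k hk; omega
  | succ n ih =>
    intro d h k hk
    have h1 : (fun z : ℂ => z ^ (n + 1)) =O[𝓝 0] fun z : ℂ => z ^ n := by
      refine IsBigO.of_bound 1 ?_
      filter_upwards [ball_mem_nhds (0 : ℂ) one_pos] with z hz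
      rw [mem_ball_zero_iff] at hz
      rw [pow_succ, norm_mul, one_mul]
      exact mul_le_of_le_one_right (norm_nonneg _) hz.le
    have h2 : (fun z : ℂ => d n * z ^ n) =O[𝓝 0] fun z : ℂ => z ^ n :=
      isBigO_const_mul_self _ _ _
    have h3 : (fun z : ℂ => ∑ k ∈ Finset.range n, d k * z ^ k) =O[𝓝 0] fun z : ℂ => z ^ n := by
      refine ((h.trans h1).sub h2).congr_left fun z => ?_
      rw [Finset.sum_range_succ]
      ring
    have h4 := ih d h3
    rcases Nat.lt_succ_iff_lt_or_eq.1 hk with hk' | rfl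
    · exact h4 k hk'
    · have h5 : (fun z : ℂ => d k * z ^ k) =O[𝓝 0] fun z : ℂ => z ^ (k + 1) := by
        refine h.congr_left fun z => ?_
        rw [Finset.sum_range_succ, Finset.sum_eq_zero, zero_add]
        intro l hl
        rw [h4 l (Finset.mem_range.1 hl), zero_mul]
      by_contra hne
      obtain ⟨C, hC0, hC⟩ := h5.exists_pos
      rw [IsBigOWith] at hC
      obtain ⟨δ, hδ, hb⟩ := Metric.eventually_nhds_iff.1 hC
      set t : ℝ := min (δ / 2) (‖d k‖ / (2 * C)) with ht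
      have hdk : 0 < ‖d k‖ := norm_pos_iff.2 hne
      have ht0 : 0 < t := lt_min (by positivity) (by positivity)
      have h6 := @hb (t : ℂ) (by
        rw [dist_zero_right, Complex.norm_real, Real.norm_eq_abs, abs_of_pos ht0]
        have := min_le_left (δ / 2) (‖d k‖ / (2 * C))
        linarith)
      rw [norm_mul, norm_pow, norm_pow, Complex.norm_real, Real.norm_eq_abs, abs_of_pos ht0,
        pow_succ] at h6
      have h7 : ‖d k‖ ≤ C * t := by
        have h8 : 0 < t ^ k := by positivity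
        have : ‖d k‖ * t ^ k ≤ (C * t) * t ^ k := by linarith
        exact le_of_mul_le_mul_right this h8
      have h9 : C * t ≤ ‖d k‖ / 2 := by
        have := min_le_right (δ / 2) (‖d k‖ / (2 * C))
        calc C * t ≤ C * (‖d k‖ / (2 * C)) := by gcongr
          _ = ‖d k‖ / 2 := by field_simp
      linarith

/-- removal of finitely many zeros -/
theorem q_factor {ι : Type*} [Fintype ι] {R : ℝ} {F : ℂ → ℂ}
    (hF : DifferentiableOn ℂ F (ball 0 R)) (s : ι → ℂ) (hinj : Function.Injective s)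
    (c : ι → ℕ) (hc : ∀ i, analyticOrderAt F (s i) = c i)
    (hA : ∀ i, AnalyticAt ℂ F (s i)) :
    ∃ g : ℂ → ℂ, DifferentiableOn ℂ g (ball 0 R) ∧ (∀ i, g (s i) ≠ 0) ∧
      ∀ z ∈ ball (0 : ℂ) R, F z = g z * ∏ i, (z - s i) ^ c i := by
  classical
  have h1 : ∀ i, ∃ h : ℂ → ℂ, AnalyticAt ℂ h (s i) ∧ h (s i) ≠ 0 ∧
      ∀ᶠ z in 𝓝 (s i), F z = (z - s i) ^ c i • h z := fun i =>
    (hA i).analyticOrderAt_eq_natCast.1 (hc i)
  choose h hh1 hh2 hh3 using h1
  set P : ι → ℂ → ℂ := fun i z => ∏ k ∈ Finset.univ.erase i, (z - s k) ^ c k with hP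
  have hPP : ∀ i z, ∏ k, (z - s k) ^ c k = (z - s i) ^ c i * P i z := fun i z =>
    (Finset.mul_prod_erase _ _ (Finset.mem_univ i)).symm
  have hPne : ∀ i, P i (s i) ≠ 0 := by
    intro i
    refine Finset.prod_ne_zero_iff.2 fun k hk => pow_ne_zero _ ?_
    rw [sub_ne_zero]
    exact fun e => (Finset.mem_erase.1 hk).1 (hinj e.symm)
  have hPd : ∀ i, Differentiable ℂ (P i) := by
    intro i
    simp only [hP]
    fun_prop
  let g : ℂ → ℂ := fun z => if hz : ∃ i, z = s i then h hz.choose z / P hz.choose z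
    else F z / ∏ k, (z - s k) ^ c k
  have hgs : ∀ i, g (s i) = h i (s i) / P i (s i) := by
    intro i
    have hz : ∃ k, s i = s k := ⟨i, rfl⟩
    have hk : hz.choose = i := (hinj hz.choose_spec).symm
    show (if hz : ∃ k, s i = s k then h hz.choose (s i) / P hz.choose (s i) else _) = _
    rw [dif_pos hz, hk]
  have hgn : ∀ z, (¬ ∃ i, z = s i) → g z = F z / ∏ k, (z - s k) ^ c k := fun z hz => dif_neg hz
  have hprod : ∀ z, (¬ ∃ i, z = s i) → ∏ k, (z - s k) ^ c k ≠ 0 := by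
    intro z hz
    refine Finset.prod_ne_zero_iff.2 fun k _ => pow_ne_zero _ ?_
    rw [sub_ne_zero]
    exact fun e => hz ⟨k, e⟩
  have hfin : (Set.range s).Finite := Set.finite_range s
  refine ⟨g, fun z hz => ?_, fun i => ?_, fun z hz => ?_⟩
  · by_cases hzs : ∃ i, z = s i
    · obtain ⟨i, rfl⟩ := hzs
      have hloc : g =ᶠ[𝓝 (s i)] fun z => h i z / P i z := by
        have hne : ∀ᶠ z in 𝓝 (s i), z ∉ s '' (Set.univ \ {i}) := by
          have : IsClosed (s '' (Set.univ \ {i})) :=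
            ((Set.toFinite _).image s).isClosed
          refine this.isOpen_compl.mem_nhds ?_
          rintro ⟨k, hk, e⟩
          exact hk.2 (hinj e)
        filter_upwards [hne, hh3 i] with z hz1 hz2
        by_cases hzi : z = s i
        · rw [hzi, hgs]
        · have hzn : ¬ ∃ k, z = s k := by
            rintro ⟨k, rfl⟩
            exact hz1 ⟨k, ⟨trivial, fun e => hzi (by rw [Set.mem_singleton_iff] at e; rw [e])⟩, rfl⟩
          rw [hgn z hzn, hz2, hPP i z, smul_eq_mul]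
          rw [mul_div_mul_left _ _ (pow_ne_zero _ (sub_ne_zero.2 hzi))]
      refine DifferentiableAt.differentiableWithinAt ?_
      refine DifferentiableAt.congr_of_eventuallyEq ?_ hloc
      exact (hh1 i).differentiableAt.div (hPd i _) (hPne i)
    · have hloc : g =ᶠ[𝓝 z] fun z => F z / ∏ k, (z - s k) ^ c k := by
        have hne : ∀ᶠ w in 𝓝 z, w ∉ Set.range s := by
          refine hfin.isClosed.isOpen_compl.mem_nhds ?_
          rintro ⟨k, e⟩
          exact hzs ⟨k, e.symm⟩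
        filter_upwards [hne] with w hw
        exact hgn w fun ⟨k, e⟩ => hw ⟨k, e.symm⟩
      refine DifferentiableAt.differentiableWithinAt ?_
      refine DifferentiableAt.congr_of_eventuallyEq ?_ hloc
      refine (hF.differentiableAt (isOpen_ball.mem_nhds hz)).div ?_ (hprod z hzs)
      fun_prop
  · rw [hgs]
    exact div_ne_zero (hh2 i) (hPne i)
  · by_cases hzs : ∃ i, z = s i
    · obtain ⟨i, rfl⟩ := hzs
      rw [hgs, hPP i, (hh3 i).self_of_nhds, smul_eq_mul]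
      have := hPne i
      field_simp
    · rw [hgn z hzs]
      have := hprod z hzs
      field_simp

theorem q_gh_of_diff {E : Type*} [NormedAddCommGroup E] [NormedSpace ℂ E] {U : Set E} {f : E → ℂ}
    (h : ∀ p ∈ U, DifferentiableAt ℂ f p) : GH U f where
  cont := fun p hp => (h p hp).continuousAt.continuousWithinAt
  line := by
    intro p hp v
    have h1 : DifferentiableAt ℂ f ((fun w : ℂ => p + w • v) 0) := by
      simpa using h p hp
    have h2 : DifferentiableAt ℂ (fun w : ℂ => p + w • v) 0 := by fun_prop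
    exact DifferentiableAt.comp (0 : ℂ) h1 h2

/-- `GH` in the second variable -/
theorem q_second {U : Set (ℂ × ℂ)} {A : ℂ → ℂ → ℂ} (h : GH U fun q : ℂ × ℂ => A q.1 q.2)
    {a b : ℂ} (hab : (a, b) ∈ U) : DifferentiableAt ℂ (A a) b := by
  have h1 := h.line (a, b) hab (0, 1)
  have h2 : DifferentiableAt ℂ (fun x : ℂ => x - b) b := by fun_prop
  have h3 : DifferentiableAt ℂ (fun w : ℂ => A ((a, b) + w • ((0, 1) : ℂ × ℂ)).1
      ((a, b) + w • ((0, 1) : ℂ × ℂ)).2) ((fun x : ℂ => x - b) b) := by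
    simpa using h1
  have h4 : DifferentiableAt ℂ ((fun w : ℂ => A ((a, b) + w • ((0, 1) : ℂ × ℂ)).1
      ((a, b) + w • ((0, 1) : ℂ × ℂ)).2) ∘ (fun x : ℂ => x - b)) b :=
    DifferentiableAt.comp b h3 h2
  refine h4.congr_of_eventuallyEq (Filter.Eventually.of_forall fun x => ?_)
  simp

/-- `GH` in the first variable -/
theorem q_first {U : Set (ℂ × ℂ)} {A : ℂ → ℂ → ℂ} (h : GH U fun q : ℂ × ℂ => A q.1 q.2)
    {a b : ℂ} (hab : (a, b) ∈ U) : DifferentiableAt ℂ (fun x => A x b) a := by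
  have h1 := h.line (a, b) hab (1, 0)
  have h2 : DifferentiableAt ℂ (fun x : ℂ => x - a) a := by fun_prop
  have h3 : DifferentiableAt ℂ (fun w : ℂ => A ((a, b) + w • ((1, 0) : ℂ × ℂ)).1
      ((a, b) + w • ((1, 0) : ℂ × ℂ)).2) ((fun x : ℂ => x - a) a) := by
    simpa using h1
  have h4 : DifferentiableAt ℂ ((fun w : ℂ => A ((a, b) + w • ((1, 0) : ℂ × ℂ)).1
      ((a, b) + w • ((1, 0) : ℂ × ℂ)).2) ∘ (fun x : ℂ => x - a)) a :=
    DifferentiableAt.comp a h3 h2
  refine h4.congr_of_eventuallyEq (Filter.Eventually.of_forall fun x => ?_)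
  simp

theorem q_e_diff (m : ℝ) (z : ℂ) : Differentiable ℂ (fun τ : ℂ => e (m * τ) * z) := by
  unfold e
  fun_prop

theorem q_norm_s {m : ℝ} {z τ : ℂ} (hz : ‖z‖ = 1) :
    ‖e (m * τ) * z‖ = Real.exp (-(2 * Real.pi * (m * τ.im))) := by
  rw [norm_mul, hz, mul_one, norm_e]
  simp

/-- The order of a zero which is isolated uniformly in the parameter is locally constant. -/
theorem q_order_loc {r R t₀ : ℝ} {A : ℂ → ℂ → ℂ} (hrR : r < R)
    (hA : GH ({τ : ℂ | t₀ < τ.im} ×ˢ ball (0:ℂ) R) (fun q : ℂ × ℂ => A q.1 q.2))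
    {ι : Type*} [Fintype ι] (S : ι → ℂ → ℂ) (hS : ∀ i, Differentiable ℂ (S i))
    (hz : ∀ τ s : ℂ, t₀ < τ.im → ‖s‖ ≤ r → A τ s = 0 → ∃ i, s = S i τ)
    {τ₁ : ℂ} (hτ : t₀ < τ₁.im) (i : ι) (hne : ∀ k, k ≠ i → S k τ₁ ≠ S i τ₁) (h0 : S i τ₁ ≠ 0)
    (hsm : ‖S i τ₁‖ < r) :
    ∃ c : ℕ, ∀ᶠ τ in 𝓝 τ₁, analyticOrderAt (A τ) (S i τ) = c := by
  have hopen : IsOpen ({τ : ℂ | t₀ < τ.im} ×ˢ ball (0:ℂ) R) :=
    (isOpen_lt continuous_const Complex.continuous_im).prod isOpen_ball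
  let Φ : ℂ × ℂ → ℂ × ℂ := fun q => (τ₁ + q.2, S i (τ₁ + q.2) * (1 + q.1))
  have hΦ : Differentiable ℂ Φ := by
    have := hS i
    refine Differentiable.prodMk (by fun_prop) ?_
    refine Differentiable.mul ?_ (by fun_prop)
    exact this.comp (by fun_prop)
  have hΦc := hΦ.continuous
  have hΦ0 : Φ 0 = (τ₁, S i τ₁) := by simp [Φ]
  have e1 : ∀ᶠ q in 𝓝 (0 : ℂ × ℂ), t₀ < (Φ q).1.im := by
    have : ContinuousAt (fun q => (Φ q).1.im) 0 :=
      (Complex.continuous_im.comp (continuous_fst.comp hΦc)).continuousAt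
    refine this.eventually_const_lt ?_
    show t₀ < (Φ 0).1.im
    rw [hΦ0]; exact hτ
  have e2 : ∀ᶠ q in 𝓝 (0 : ℂ × ℂ), ‖(Φ q).2‖ < r := by
    have : ContinuousAt (fun q => ‖(Φ q).2‖) 0 :=
      (continuous_norm.comp (continuous_snd.comp hΦc)).continuousAt
    refine this.eventually_lt_const ?_
    show ‖(Φ 0).2‖ < r
    rw [hΦ0]; exact hsm
  have e3 : ∀ᶠ q in 𝓝 (0 : ℂ × ℂ), S i (Φ q).1 ≠ 0 := by
    have : ContinuousAt (fun q => S i (Φ q).1) 0 :=
      ((hS i).continuous.comp (continuous_fst.comp hΦc)).continuousAt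
    refine this.eventually_ne ?_
    show S i (Φ 0).1 ≠ 0
    rw [hΦ0]; exact h0
  have e4 : ∀ᶠ q in 𝓝 (0 : ℂ × ℂ), ∀ k, k ≠ i → S k (Φ q).1 ≠ (Φ q).2 := by
    rw [eventually_all]
    intro k
    by_cases hk : k = i
    · exact Eventually.of_forall fun q h => absurd hk h
    · have : ContinuousAt (fun q => S k (Φ q).1 - (Φ q).2) 0 :=
        (((hS k).continuous.comp (continuous_fst.comp hΦc)).sub
          (continuous_snd.comp hΦc)).continuousAt
      have h5 := this.eventually_ne (y := 0) (by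
        show S k (Φ 0).1 - (Φ 0).2 ≠ 0
        rw [hΦ0, sub_ne_zero]; exact hne k hk)
      filter_upwards [h5] with q hq _
      exact sub_ne_zero.1 hq
  obtain ⟨ε, hε, hε2⟩ := Metric.eventually_nhds_iff.1 ((e1.and e2).and (e3.and e4))
  have hball : ∀ w ∈ ball (0 : ℂ) ε, ∀ u ∈ ball (0 : ℂ) ε, dist (w, u) (0 : ℂ × ℂ) < ε := by
    intro w hw u hu
    rw [Prod.dist_eq]
    exact max_lt (by simpa using hw) (by simpa using hu)
  let A' : ℂ → ℂ → ℂ := fun w u => A (τ₁ + u) (S i (τ₁ + u) * (1 + w))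
  have hGH : GH (ball (0:ℂ) ε ×ˢ ball (0:ℂ) ε) (fun q : ℂ × ℂ => A' q.1 q.2) := by
    refine q_gh_of_diff ?_
    rintro ⟨w, u⟩ ⟨hw, hu⟩
    have h5 := hε2 (hball w hw u hu)
    have h6 : DifferentiableAt ℂ (fun q : ℂ × ℂ => A q.1 q.2) (Φ (w, u)) :=
      q_osgood hopen hA ⟨h5.1.1, by
        rw [mem_ball_zero_iff]; exact h5.1.2.trans hrR⟩
    exact DifferentiableAt.comp (w, u) h6 (hΦ _)
  obtain ⟨c, B, hB1, hB2, hB3⟩ := two_var_two hε hε hGH (by
    intro w hw u hu hw0 hzero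
    have h5 := hε2 (hball w hw u hu)
    obtain ⟨k, hk⟩ := hz (τ₁ + u) (S i (τ₁ + u) * (1 + w)) h5.1.1 h5.1.2.le hzero
    by_cases hki : k = i
    · subst hki
      apply hw0
      have h6 : S k (τ₁ + u) ≠ 0 := h5.2.1
      have h7 : S k (τ₁ + u) * (1 + w) = S k (τ₁ + u) * 1 := by rw [hk, mul_one]
      have h8 := mul_left_cancel₀ h6 h7
      simpa using h8
    · exact h5.2.2 k hki hk.symm)
  refine ⟨c, ?_⟩
  have e5 : ∀ᶠ τ in 𝓝 τ₁, τ - τ₁ ∈ ball (0 : ℂ) ε := by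
    have : ContinuousAt (fun τ : ℂ => τ - τ₁) τ₁ := by fun_prop
    refine this.eventually_mem ?_
    rw [sub_self]
    exact ball_mem_nhds _ hε
  filter_upwards [e5] with τ hτ'
  set u := τ - τ₁ with hu
  have hτu : τ = τ₁ + u := by rw [hu]; ring
  have h5 := hε2 (hball 0 (mem_ball_self hε) u hτ')
  have hS0 : S i τ ≠ 0 := by
    have := h5.2.1
    simpa [Φ, ← hτu] using this
  have hBd : AnalyticAt ℂ (fun w => B w u) 0 := by
    have : DifferentiableOn ℂ (fun w => B w u) (ball 0 ε) := fun w hw =>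
      (q_first hB1 (show (w, u) ∈ ball (0:ℂ) ε ×ˢ ball (0:ℂ) ε from
        ⟨hw, hτ'⟩)).differentiableWithinAt
    exact this.analyticAt (ball_mem_nhds _ hε)
  have hlin : AnalyticAt ℂ (fun s : ℂ => (s - S i τ) / S i τ) (S i τ) := by fun_prop (disch := exact hS0)
  have hcomp : AnalyticAt ℂ (fun s : ℂ => ((S i τ) ^ c)⁻¹ * B ((s - S i τ) / S i τ) u) (S i τ) := by
    refine analyticAt_const.mul ?_
    have h6 : AnalyticAt ℂ (fun w => B w u) ((fun s : ℂ => (s - S i τ) / S i τ) (S i τ)) := by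
      simpa using hBd
    exact AnalyticAt.comp (g := fun w => B w u) (f := fun s : ℂ => (s - S i τ) / S i τ) h6 hlin
  have hev : ∀ᶠ s in 𝓝 (S i τ), A τ s =
      (s - S i τ) ^ c • (((S i τ) ^ c)⁻¹ * B ((s - S i τ) / S i τ) u) := by
    have h6 : ∀ᶠ s in 𝓝 (S i τ), (s - S i τ) / S i τ ∈ ball (0 : ℂ) ε := by
      refine hlin.continuousAt.eventually_mem ?_
      simp only [sub_self, zero_div]
      exact ball_mem_nhds _ hε
    filter_upwards [h6] with s hs
    have h7 := hB2 _ hs u hτ'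
    have h8 : S i τ * (1 + (s - S i τ) / S i τ) = s := by field_simp; ring
    have h9 : A' ((s - S i τ) / S i τ) u = A τ s := by
      show A (τ₁ + u) (S i (τ₁ + u) * (1 + (s - S i τ) / S i τ)) = A τ s
      rw [← hτu, h8]
    rw [← h9, h7, div_pow, smul_eq_mul]
    ring
  have hAan : AnalyticAt ℂ (A τ) (S i τ) := by
    refine AnalyticAt.congr (f := fun s => (s - S i τ) ^ c • (((S i τ) ^ c)⁻¹ * B ((s - S i τ) / S i τ) u)) ?_ ?_
    · exact (by fun_prop : AnalyticAt ℂ (fun s => (s - S i τ) ^ c) (S i τ)).smul hcomp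
    · filter_upwards [hev] with s hs
      exact hs.symm
  rw [hAan.analyticOrderAt_eq_natCast]
  refine ⟨_, hcomp, ?_, hev⟩
  simp only [sub_self, zero_div]
  exact mul_ne_zero (inv_ne_zero (pow_ne_zero _ hS0)) (hB3 0 (mem_ball_self hε) u hτ')


theorem q_pow_bigO {m n : ℕ} (h : n ≤ m) : (fun z : ℂ => z ^ m) =O[𝓝 0] fun z : ℂ => z ^ n := by
  refine IsBigO.of_bound 1 ?_
  filter_upwards [ball_mem_nhds (0 : ℂ) one_pos] with z hz
  rw [mem_ball_zero_iff] at hz
  rw [norm_pow, norm_pow, one_mul]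
  exact pow_le_pow_of_le_one (norm_nonneg _) hz.le h

theorem q_logexp {j : ℕ} (hj : 0 < j) {F P : ℂ → ℂ} {b : ℂ} (hF0 : F 0 ≠ 0)
    (hB : (fun z => F z - F 0 * (1 + b * z ^ j)) =O[𝓝 0] (fun z : ℂ => z ^ (j + 1)))
    (hPc : ContinuousAt P 0) (hP0 : P 0 = 0)
    (hP : ∀ᶠ z in 𝓝 0, Complex.exp (P z) = F z / F 0) :
    (fun z => P z - b * z ^ j) =O[𝓝 0] (fun z : ℂ => z ^ (j + 1)) := by
  set u : ℂ → ℂ := fun z => F z / F 0 - 1 with hu
  have h1 : (fun z => u z - b * z ^ j) =O[𝓝 0] (fun z : ℂ => z ^ (j + 1)) := by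
    refine (hB.const_mul_left (F 0)⁻¹).congr_left fun z => ?_
    rw [hu]
    field_simp
    ring
  have h2 : u =O[𝓝 0] (fun z : ℂ => z ^ j) := by
    have h3 : (fun z : ℂ => b * z ^ j) =O[𝓝 0] fun z : ℂ => z ^ j := isBigO_const_mul_self _ _ _
    refine ((h1.trans (q_pow_bigO (Nat.le_succ j))).add h3).congr_left fun z => ?_
    ring
  have h4 : Tendsto u (𝓝 0) (𝓝 0) := by
    refine h2.trans_tendsto ?_
    have : ContinuousAt (fun z : ℂ => z ^ j) 0 := by fun_prop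
    have h5 := this.tendsto
    rwa [zero_pow hj.ne'] at h5
  have h5 : (fun z => Complex.log (1 + u z) - u z) =O[𝓝 0] (fun z : ℂ => z ^ (j + 1)) := by
    have h6 := (Complex.log_sub_logTaylor_isBigO 1).comp_tendsto h4
    have h7 : (fun z => u z ^ 2) =O[𝓝 0] (fun z : ℂ => z ^ (j + 1)) := by
      refine (h2.pow 2).trans ?_
      refine (q_pow_bigO (m := j * 2) (n := j + 1) (by omega)).congr_left fun z => ?_
      rw [pow_mul]
    refine (h6.trans h7).congr_left fun z => ?_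
    simp [Complex.logTaylor, Finset.sum_range_succ]
  have h6 : ∀ᶠ z in 𝓝 (0 : ℂ), P z = Complex.log (1 + u z) := by
    have h7 : ∀ᶠ z in 𝓝 (0 : ℂ), ‖P z‖ < 1 := by
      refine hPc.norm.eventually_lt_const ?_
      show ‖P 0‖ < 1
      rw [hP0, norm_zero]; exact one_pos
    filter_upwards [hP, h7] with z hz1 hz2
    have h8 : |(P z).im| < 1 := lt_of_le_of_lt (Complex.abs_im_le_norm _) hz2
    rw [abs_lt] at h8
    have h9 : 1 + u z = Complex.exp (P z) := by rw [hz1, hu]; ring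
    rw [h9, Complex.log_exp]
    · have := Real.pi_gt_three; linarith
    · have := Real.pi_gt_three; linarith
  refine (h5.add h1).congr' ?_ (EventuallyEq.refl _ _)
  filter_upwards [h6] with z hz
  rw [hz]
  ring

theorem q_point {ι : Type*} [Fintype ι] {r R : ℝ} (hr : 0 < r) (hrR : r < R) {j : ℕ} (hj : 0 < j)
    {F : ℂ → ℂ} (hF : DifferentiableOn ℂ F (ball 0 R)) {M : ℝ} (hM0 : 0 < M) (hF0 : F 0 ≠ 0)
    (hK : ∀ z : ℂ, ‖z‖ ≤ r → ‖F z‖ ≤ Real.exp M * ‖F 0‖) (s : ι → ℂ)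
    (hinj : Function.Injective s) (hs0 : ∀ i, s i ≠ 0) (hsr : ∀ i, ‖s i‖ ≤ r / 2) (c : ι → ℕ)
    (hc : ∀ i, analyticOrderAt F (s i) = c i)
    (hz : ∀ z : ℂ, ‖z‖ ≤ r → F z = 0 → ∃ i, z = s i) {b : ℂ}
    (hB : (fun z => F z - F 0 * (1 + b * z ^ j)) =O[𝓝 0] (fun z : ℂ => z ^ (j + 1))) :
    (∀ k : ℕ, 0 < k → k < j →
      ‖∑ i, (c i : ℂ) * ((s i)⁻¹) ^ k‖ ≤ k * (2 * M / (r / 2) ^ k)) ∧
      ‖b + (1 / (j : ℂ)) * ∑ i, (c i : ℂ) * ((s i)⁻¹) ^ j‖ ≤ 2 * M / (r / 2) ^ j := by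
  have hR : 0 < R := hr.trans hrR
  have hsR : ∀ i, s i ∈ ball (0 : ℂ) R := fun i => by
    rw [mem_ball_zero_iff]; linarith [hsr i]
  obtain ⟨g, hg1, hg2, hg3⟩ := q_factor hF s hinj c hc
    (fun i => hF.analyticAt (isOpen_ball.mem_nhds (hsR i)))
  have hgne : ∀ z : ℂ, ‖z‖ ≤ r → g z ≠ 0 := by
    intro z hzr hgz
    obtain ⟨i, rfl⟩ := hz z hzr (by
      rw [hg3 z (by rw [mem_ball_zero_iff]; linarith), hgz, zero_mul])
    exact hg2 i hgz
  have h0R : (0 : ℂ) ∈ ball (0 : ℂ) R := mem_ball_self hR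
  have hg0 : g 0 ≠ 0 := hgne 0 (by rw [norm_zero]; exact hr.le)
  -- the normalised function
  have hHd : DifferentiableOn ℂ (fun z => g z / g 0) (ball 0 R) := hg1.div_const _
  have hbd : ∀ z : ℂ, ‖z‖ = r → ‖g z / g 0‖ ≤ Real.exp M := by
    intro z hzr
    have h1 := hK z hzr.le
    rw [hg3 z (by rw [mem_ball_zero_iff]; linarith), hg3 0 h0R, norm_mul, norm_mul,
      norm_prod, norm_prod] at h1
    have h2 : ∏ i, ‖(0 - s i) ^ c i‖ ≤ ∏ i, ‖(z - s i) ^ c i‖ := by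
      refine Finset.prod_le_prod (fun i _ => norm_nonneg _) fun i _ => ?_
      rw [norm_pow, norm_pow, zero_sub, norm_neg]
      refine pow_le_pow_left₀ (norm_nonneg _) ?_ _
      have h3 := norm_sub_norm_le z (s i)
      have h4 := hsr i
      linarith
    have h3 : 0 < ∏ i, ‖(z - s i) ^ c i‖ := by
      refine Finset.prod_pos fun i _ => ?_
      rw [norm_pow]
      refine pow_pos ?_ _
      rw [norm_pos_iff, sub_ne_zero]
      rintro rfl
      have := hsr i
      linarith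
    have h4 : ‖g z‖ * ∏ i, ‖(z - s i) ^ c i‖ ≤
        (Real.exp M * ‖g 0‖) * ∏ i, ‖(z - s i) ^ c i‖ := by
      calc _ ≤ Real.exp M * (‖g 0‖ * ∏ i, ‖(0 - s i) ^ c i‖) := h1
        _ = (Real.exp M * ‖g 0‖) * ∏ i, ‖(0 - s i) ^ c i‖ := by ring
        _ ≤ _ := by gcongr
    have h5 := le_of_mul_le_mul_right h4 h3
    rw [norm_div, div_le_iff₀ (norm_pos_iff.2 hg0)]
    exact h5
  have hbd2 : ∀ z : ℂ, ‖z‖ ≤ r → ‖g z / g 0‖ ≤ Real.exp M := by
    intro z hzr
    refine Complex.norm_le_of_forall_mem_frontier_norm_le (U := ball (0 : ℂ) r) isBounded_ball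
      ((hHd.mono (closedBall_subset_ball hrR)).diffContOnCl_ball (le_refl _)) ?_ ?_
    · intro w hw
      rw [frontier_ball _ hr.ne', mem_sphere_zero_iff_norm] at hw
      exact hbd w hw
    · rw [closure_ball _ hr.ne', mem_closedBall_zero_iff]
      exact hzr
  obtain ⟨h, hh1, hh2, hh3⟩ := q_log hr (hHd.mono (ball_subset_ball hrR.le))
    (fun z hz => div_ne_zero (hgne z (mem_ball_zero_iff.1 hz).le) hg0) (div_self hg0)
  have hre : Set.MapsTo h (ball 0 r) {z | z.re ≤ M} := by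
    intro z hz
    have h1 := hbd2 z (mem_ball_zero_iff.1 hz).le
    rw [← hh3 z hz, Complex.norm_exp] at h1
    exact Real.exp_le_exp.1 h1
  have hh4 : ∀ z : ℂ, ‖z‖ = r / 2 → ‖h z‖ ≤ 2 * M := by
    intro z hz
    have h1 := Complex.borelCaratheodory_zero hM0 hh1 hre hr (z := z)
      (by rw [mem_ball_zero_iff, hz]; linarith) hh2
    rw [hz] at h1
    calc _ ≤ _ := h1
      _ = 2 * M := by field_simp; ring
  obtain ⟨a, ha1, ha2⟩ := q_taylor (half_pos hr) (by linarith : r / 2 < r) hh1 hh4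
  -- the logarithm of `F / F 0`
  set P : ℂ → ℂ := fun z => h z + ∑ i, (c i : ℂ) * Complex.log (1 + -(z / s i)) with hP
  have hhc : ContinuousAt h 0 := (hh1.differentiableAt (ball_mem_nhds _ hr)).continuousAt
  have hlogc : ∀ i, ContinuousAt (fun z => Complex.log (1 + -(z / s i))) 0 := by
    intro i
    refine ContinuousAt.clog (by fun_prop) ?_
    simp
  have hPc : ContinuousAt P 0 := by
    refine hhc.add ?_
    refine tendsto_finsetSum _ fun i _ => ?_
    exact (hlogc i).const_mul _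
  have hP0 : P 0 = 0 := by simp [hP, hh2]
  have hPe : ∀ᶠ z in 𝓝 (0 : ℂ), Complex.exp (P z) = F z / F 0 := by
    have h1 : ∀ᶠ z in 𝓝 (0 : ℂ), ∀ i, 1 + -(z / s i) ≠ 0 := by
      rw [eventually_all]
      intro i
      have : ContinuousAt (fun z : ℂ => 1 + -(z / s i)) 0 := by fun_prop
      refine this.eventually_ne ?_
      simp
    filter_upwards [h1, ball_mem_nhds (0 : ℂ) hr] with z hz1 hz2
    rw [hP, Complex.exp_add, hh3 z hz2, Complex.exp_sum,
      hg3 z (ball_subset_ball hrR.le hz2), hg3 0 h0R]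
    have h2 : ∀ i, Complex.exp ((c i : ℂ) * Complex.log (1 + -(z / s i))) =
        (z - s i) ^ c i / (0 - s i) ^ c i := by
      intro i
      rw [Complex.exp_nat_mul, Complex.exp_log (hz1 i), ← div_pow]
      congr 1
      have := hs0 i
      field_simp
      ring
    simp only [h2]
    rw [Finset.prod_div_distrib, mul_div_mul_comm]
  have hlog := q_logexp hj hF0 hB hPc hP0 hPe
  -- Taylor expansion of `P`
  have hsum : ∀ i, (fun z : ℂ => Complex.log (1 + -(z / s i)) -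
      ∑ k ∈ Finset.range (j + 1), (-(1 / (k : ℂ)) * ((s i)⁻¹) ^ k) * z ^ k) =O[𝓝 0]
        (fun z : ℂ => z ^ (j + 1)) := by
    intro i
    have h1 : Tendsto (fun z : ℂ => -(z / s i)) (𝓝 0) (𝓝 0) := by
      have : ContinuousAt (fun z : ℂ => -(z / s i)) 0 := by fun_prop
      simpa using this.tendsto
    have h2 := (Complex.log_sub_logTaylor_isBigO j).comp_tendsto h1
    have h3 : (fun z : ℂ => (-(z / s i)) ^ (j + 1)) =O[𝓝 0] (fun z : ℂ => z ^ (j + 1)) := by
      refine ((isBigO_const_mul_self ((-(s i)⁻¹) ^ (j + 1)) (fun z : ℂ => z ^ (j + 1)) (𝓝 0))).congr_left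
        fun z => ?_
      rw [← mul_pow]
      congr 1
      ring
    refine (h2.trans h3).congr_left fun z => ?_
    simp only [Function.comp_apply, Complex.logTaylor]
    congr 1
    refine Finset.sum_congr rfl fun k _ => ?_
    have h4 : -(z / s i) = (-1) * ((s i)⁻¹ * z) := by ring
    rw [h4, mul_pow, mul_pow]
    have h5 : ((-1 : ℂ)) ^ (k + 1) * ((-1) ^ k * ((s i)⁻¹ ^ k * z ^ k)) / (k : ℂ) =
        ((-1 : ℂ) ^ (k + 1) * (-1) ^ k) * (1 / (k : ℂ) * (s i)⁻¹ ^ k * z ^ k) := by ring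
    rw [h5, ← pow_add]
    have h6 : ((-1 : ℂ)) ^ (k + 1 + k) = -1 := by
      rw [show k + 1 + k = 2 * k + 1 by ring, pow_succ, pow_mul]
      simp
    rw [h6]
    ring
  have hTay : (fun z => P z - ∑ k ∈ Finset.range (j + 1),
      (a k + ∑ i, (c i : ℂ) * (-(1 / (k : ℂ)) * ((s i)⁻¹) ^ k)) * z ^ k) =O[𝓝 0]
        (fun z : ℂ => z ^ (j + 1)) := by
    have h0 : (fun z : ℂ => ∑ i, (c i : ℂ) * (Complex.log (1 + -(z / s i)) -
        ∑ k ∈ Finset.range (j + 1), (-(1 / (k : ℂ)) * ((s i)⁻¹) ^ k) * z ^ k)) =O[𝓝 0]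
        (fun z : ℂ => z ^ (j + 1)) := by
      have h1 := IsBigO.sum (s := Finset.univ)
        (A := fun (i : ι) (z : ℂ) => (c i : ℂ) * (Complex.log (1 + -(z / s i)) -
          ∑ k ∈ Finset.range (j + 1), (-(1 / (k : ℂ)) * ((s i)⁻¹) ^ k) * z ^ k))
        (fun i _ => (hsum i).const_mul_left (c i : ℂ))
      refine h1.congr_left fun z => ?_
      rw [Finset.sum_apply]
    refine ((ha2 (j + 1)).add h0).congr_left fun z => ?_
    rw [hP]
    simp only [add_mul, Finset.sum_add_distrib, Finset.sum_mul, mul_sub, Finset.sum_sub_distrib]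
    have h2 : ∑ k ∈ Finset.range (j + 1), ∑ i, (c i : ℂ) * (-(1 / (k : ℂ)) * ((s i)⁻¹) ^ k) * z ^ k =
        ∑ i, (c i : ℂ) * ∑ k ∈ Finset.range (j + 1), -(1 / (k : ℂ)) * ((s i)⁻¹) ^ k * z ^ k := by
      rw [Finset.sum_comm]
      refine Finset.sum_congr rfl fun i _ => ?_
      rw [Finset.mul_sum]
      refine Finset.sum_congr rfl fun k _ => ?_
      ring
    rw [h2]
    ring
  have hd := q_poly (j + 1) (fun k => a k + ∑ i, (c i : ℂ) * (-(1 / (k : ℂ)) * ((s i)⁻¹) ^ k) -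
      if k = j then b else 0) (by
    refine (hlog.sub hTay).congr_left fun z => ?_
    simp only [sub_mul, Finset.sum_sub_distrib]
    have h1 : ∑ k ∈ Finset.range (j + 1), (if k = j then b else 0) * z ^ k = b * z ^ j := by
      rw [Finset.sum_eq_single j]
      · rw [if_pos rfl]
      · intro k _ hk
        rw [if_neg hk, zero_mul]
      · intro hj'
        exact absurd (Finset.mem_range.2 (Nat.lt_succ_self j)) hj'
    rw [h1]
    ring)
  have hfin : ∀ k : ℕ, 0 < k → k < j + 1 → a k - (1 / (k : ℂ)) * ∑ i, (c i : ℂ) * ((s i)⁻¹) ^ k =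
      if k = j then b else 0 := by
    intro k hk hkj
    have h1 := sub_eq_zero.1 (hd k hkj)
    rw [← h1, Finset.mul_sum, sub_eq_add_neg, ← Finset.sum_neg_distrib]
    congr 1
    refine Finset.sum_congr rfl fun i _ => ?_
    ring
  refine ⟨fun k hk hkj => ?_, ?_⟩
  · have h1 := hfin k hk (by omega)
    rw [if_neg hkj.ne] at h1
    have hk0 : (k : ℂ) ≠ 0 := Nat.cast_ne_zero.2 hk.ne'
    have h2 : ∑ i, (c i : ℂ) * ((s i)⁻¹) ^ k = k * a k := by
      have h3 : a k = (1 / (k : ℂ)) * ∑ i, (c i : ℂ) * ((s i)⁻¹) ^ k := sub_eq_zero.1 h1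
      rw [h3]
      field_simp
    rw [h2, norm_mul, Complex.norm_natCast]
    exact mul_le_mul_of_nonneg_left (ha1 k) (Nat.cast_nonneg k)
  · have h1 := hfin j hj (by omega)
    rw [if_pos rfl] at h1
    rw [← h1]
    have h2 : a j - (1 / (j : ℂ)) * ∑ i, (c i : ℂ) * ((s i)⁻¹) ^ j +
        (1 / (j : ℂ)) * ∑ i, (c i : ℂ) * ((s i)⁻¹) ^ j = a j := by ring
    rw [h2]
    exact ha1 j

end Pool.Agent.Refl
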