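import Pool.Agent.Refl.TwoVar
import Pool.Agent.Refl.LemmaQAux

/-! Module Q: zeros of a holomorphic function of `(τ,s)` and its first Taylor coefficient. -/

namespace Pool.Agent.Refl
open Metric Filter Topology

theorem lemmaQ {ι : Type*} [Fintype ι] (t₀ r R K c C' : ℝ) (hr : 0 < r) (hrR : r < R)
    (hc : 0 < c) (j : ℕ) (hj : 0 < j) (A : ℂ → ℂ → ℂ) (B : ℂ → ℂ) (μ : ι → ℝ) (ζ : ι → ℂ)
    (hA : GH ({τ : ℂ | t₀ < τ.im} ×ˢ ball (0:ℂ) R) (fun q : ℂ × ℂ => A q.1 q.2))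
    (hK : ∀ τ s : ℂ, t₀ < τ.im → ‖s‖ ≤ r → ‖A τ s‖ ≤ K)
    (h0 : ∀ τ : ℂ, t₀ < τ.im → c * Real.exp (-(C' * τ.im)) ≤ ‖A τ 0‖)
    (hμ : ∀ i, 0 < μ i) (hζ : ∀ i, ‖ζ i‖ = 1)
    (hinj : Function.Injective (fun i => (μ i, ζ i)))
    (hz : ∀ τ s : ℂ, t₀ < τ.im → ‖s‖ ≤ r → A τ s = 0 → ∃ i, s = e (μ i * τ) * ζ i)
    (hB : ∀ τ : ℂ, t₀ < τ.im →
      (fun s : ℂ => A τ s - A τ 0 * (1 + B τ * s ^ j)) =O[𝓝 0] (fun s : ℂ => s ^ (j + 1))) :
    ∃ (c' : ι → ℕ) (K' t₁ : ℝ), 0 ≤ t₁ ∧ t₀ ≤ t₁ ∧ ∀ τ : ℂ, t₁ < τ.im →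
      (∀ k : ℕ, 0 < k → k < j →
        ‖∑ i, (c' i : ℂ) * ((e (μ i * τ) * ζ i)⁻¹) ^ k‖ ≤ K' * (1 + τ.im)) ∧
      ‖B τ + (1 / (j : ℂ)) * ∑ i, (c' i : ℂ) * ((e (μ i * τ) * ζ i)⁻¹) ^ j‖ ≤
        K' * (1 + τ.im) := by
  classical
  -- the zeros
  set S : ι → ℂ → ℂ := fun i τ => e (μ i * τ) * ζ i with hS
  have hSd : ∀ i, Differentiable ℂ (S i) := fun i => q_e_diff (μ i) (ζ i)
  have hSn : ∀ i τ, ‖S i τ‖ = Real.exp (-(2 * Real.pi * (μ i * τ.im))) := fun i τ =>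
    q_norm_s (hζ i)
  have hS0 : ∀ i τ, S i τ ≠ 0 := fun i τ => by
    rw [← norm_pos_iff, hSn]; exact Real.exp_pos _
  -- the height
  set T : ℝ := ∑ i, |Real.log (r / 2)| / (2 * Real.pi * μ i) with hT
  have hπ := Real.pi_pos
  have hTi : ∀ i, |Real.log (r / 2)| / (2 * Real.pi * μ i) ≤ T := fun i =>
    Finset.single_le_sum (f := fun i => |Real.log (r / 2)| / (2 * Real.pi * μ i))
      (fun k _ => by have := hμ k; positivity) (Finset.mem_univ i)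
  have hT0 : 0 ≤ T := Finset.sum_nonneg fun k _ => by have := hμ k; positivity
  set t₁ : ℝ := max (max 0 t₀) T with ht₁
  have ht10 : 0 ≤ t₁ := le_trans (le_max_left _ _) (le_max_left _ _)
  have ht1t : t₀ ≤ t₁ := le_trans (le_max_right _ _) (le_max_left _ _)
  have ht1T : T ≤ t₁ := le_max_right _ _
  have hSr : ∀ i (τ : ℂ), t₁ < τ.im → ‖S i τ‖ ≤ r / 2 := by
    intro i τ hτ
    rw [hSn]
    refine le_trans ?_ (Real.exp_log (half_pos hr)).le
    rw [Real.exp_le_exp]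
    have h1 := (hTi i).trans (ht1T.trans hτ.le)
    have h2 := hμ i
    rw [div_le_iff₀ (by positivity)] at h1
    have h3 := neg_abs_le (Real.log (r / 2))
    nlinarith
  have hSinj : ∀ (τ : ℂ), 0 < τ.im → Function.Injective (fun i => S i τ) := by
    intro τ hτ i k hik
    apply hinj
    have h1 : ‖S i τ‖ = ‖S k τ‖ := congrArg norm hik
    rw [hSn, hSn, Real.exp_eq_exp] at h1
    have h2 : μ i = μ k := by
      have h3 : (2 * Real.pi * τ.im) * μ i = (2 * Real.pi * τ.im) * μ k := by linarith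
      exact mul_left_cancel₀ (by positivity) h3
    have h3 : ζ i = ζ k := by
      have h4 : e (μ i * τ) * ζ i = e (μ k * τ) * ζ k := hik
      rw [h2] at h4
      exact mul_left_cancel₀ (e_ne_zero _) h4
    show (μ i, ζ i) = (μ k, ζ k)
    rw [h2, h3]
  -- the orders
  have hloc : ∀ i (τ : ℂ), t₁ < τ.im →
      ∃ n : ℕ, ∀ᶠ τ' in 𝓝 τ, analyticOrderAt (A τ') (S i τ') = n := by
    intro i τ hτ
    refine q_order_loc hrR hA S hSd hz (lt_of_le_of_lt ht1t hτ) i ?_ (hS0 i τ) ?_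
    · intro k hk h
      exact hk (hSinj τ (lt_of_le_of_lt ht10 hτ) h)
    · have := hSr i τ hτ
      linarith
  have hconst : ∀ i, ∃ n : ℕ, ∀ τ : ℂ, t₁ < τ.im → analyticOrderAt (A τ) (S i τ) = n := by
    intro i
    have hcont : ContinuousOn (fun τ : ℂ => analyticOrderNatAt (A τ) (S i τ)) {τ | t₁ < τ.im} := by
      intro τ hτ
      obtain ⟨n, hn⟩ := hloc i τ hτ
      refine ContinuousAt.continuousWithinAt ?_
      have h1 : (fun τ : ℂ => analyticOrderNatAt (A τ) (S i τ)) =ᶠ[𝓝 τ] fun _ => n := by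
        filter_upwards [hn] with τ' h
        rw [analyticOrderNatAt, h]
        rfl
      exact (continuousAt_const (y := n)).congr h1.symm
    have hpre : IsPreconnected {τ : ℂ | t₁ < τ.im} := (convex_halfSpace_im_gt t₁).isPreconnected
    refine ⟨analyticOrderNatAt (A ((t₁ + 1 : ℝ) * Complex.I)) (S i ((t₁ + 1 : ℝ) * Complex.I)),
      fun τ hτ => ?_⟩
    have h1 : (((t₁ + 1 : ℝ) : ℂ) * Complex.I) ∈ {τ : ℂ | t₁ < τ.im} := by
      show t₁ < ((((t₁ + 1 : ℝ) : ℂ)) * Complex.I).im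
      simp
    have h2 := hpre.constant hcont (show τ ∈ {τ : ℂ | t₁ < τ.im} from hτ) h1
    have h2' : analyticOrderNatAt (A τ) (S i τ) =
        analyticOrderNatAt (A ((t₁ + 1 : ℝ) * Complex.I)) (S i ((t₁ + 1 : ℝ) * Complex.I)) := h2
    rw [← h2']
    obtain ⟨n, hn⟩ := hloc i τ hτ
    have h3 := hn.self_of_nhds
    rw [analyticOrderNatAt, h3]
    rfl
  choose c' hc' using hconst
  -- the constants
  set L : ℝ := |Real.log (K / c)| + |C'| + 1 with hL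
  have hL0 : 0 < L := by positivity
  set K' : ℝ := ∑ k ∈ Finset.range (j + 1), ((k : ℝ) + 1) * (2 * L / (r / 2) ^ k) with hK'
  have hterm : ∀ k, k < j + 1 → ((k : ℝ) + 1) * (2 * L / (r / 2) ^ k) ≤ K' := fun k hk =>
    Finset.single_le_sum (f := fun k : ℕ => ((k : ℝ) + 1) * (2 * L / (r / 2) ^ k))
      (fun k _ => by positivity) (Finset.mem_range.2 hk)
  refine ⟨c', K', t₁, ht10, ht1t, fun τ hτ => ?_⟩
  have hτ0 : t₀ < τ.im := lt_of_le_of_lt ht1t hτ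
  have hτp : 0 < τ.im := lt_of_le_of_lt ht10 hτ
  have hA0 : 0 < ‖A τ 0‖ := lt_of_lt_of_le (by positivity) (h0 τ hτ0)
  have hKp : 0 < K := lt_of_lt_of_le hA0 (hK τ 0 hτ0 (by rw [norm_zero]; exact hr.le))
  set M : ℝ := |Real.log (K / c)| + |C'| * τ.im + 1 with hM
  have hM0 : 0 < M := by positivity
  have hML : M ≤ L * (1 + τ.im) := by
    rw [hM, hL]
    have h1 := abs_nonneg (Real.log (K / c))
    have h2 := abs_nonneg C'
    nlinarith
  have hbound : ∀ z : ℂ, ‖z‖ ≤ r → ‖A τ z‖ ≤ Real.exp M * ‖A τ 0‖ := by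
    intro z hz
    refine (hK τ z hτ0 hz).trans ?_
    have h1 : K = Real.exp (Real.log (K / c) + C' * τ.im) * (c * Real.exp (-(C' * τ.im))) := by
      rw [Real.exp_add, Real.exp_log (by positivity), Real.exp_neg]
      have := Real.exp_pos (C' * τ.im)
      field_simp
    rw [h1]
    have h2 : Real.log (K / c) + C' * τ.im ≤ M := by
      rw [hM]
      have h3 := le_abs_self (Real.log (K / c))
      have h4 := mul_le_mul_of_nonneg_right (le_abs_self C') hτp.le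
      linarith
    exact mul_le_mul (Real.exp_le_exp.2 h2) (h0 τ hτ0) (by positivity) (by positivity)
  have hd : DifferentiableOn ℂ (A τ) (ball 0 R) := fun s hs =>
    (q_second hA (show (τ, s) ∈ {τ : ℂ | t₀ < τ.im} ×ˢ ball (0:ℂ) R from
      ⟨hτ0, hs⟩)).differentiableWithinAt
  obtain ⟨h1, h2⟩ := q_point hr hrR hj hd hM0 (norm_pos_iff.1 hA0) hbound (fun i => S i τ)
    (hSinj τ hτp) (fun i => hS0 i τ) (fun i => hSr i τ hτ) c' (fun i => hc' i τ hτ)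
    (fun z hz1 hz2 => hz τ z hτ0 hz1 hz2) (hB τ hτ0)
  have hfin : ∀ k, k < j + 1 → ((k : ℝ) + 1) * (2 * M / (r / 2) ^ k) ≤ K' * (1 + τ.im) := by
    intro k hk
    calc ((k : ℝ) + 1) * (2 * M / (r / 2) ^ k)
        ≤ ((k : ℝ) + 1) * (2 * (L * (1 + τ.im)) / (r / 2) ^ k) := by gcongr
      _ = ((k : ℝ) + 1) * (2 * L / (r / 2) ^ k) * (1 + τ.im) := by ring
      _ ≤ K' * (1 + τ.im) := mul_le_mul_of_nonneg_right (hterm k hk) (by linarith)
  refine ⟨fun k hk hkj => ?_, ?_⟩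
  · refine (h1 k hk hkj).trans (le_trans ?_ (hfin k (by omega)))
    have : 0 ≤ 2 * M / (r / 2) ^ k := by positivity
    nlinarith
  · refine h2.trans (le_trans ?_ (hfin j (by omega)))
    have : 0 ≤ 2 * M / (r / 2) ^ j := by positivity
    have h3 : (0 : ℝ) ≤ j := Nat.cast_nonneg j
    nlinarith


end Pool.Agent.Refl
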