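import Pool.Agent.Refl.Basic

/-! Auxiliary lemmas for module PHI: general facts on `GH` functions and power series. -/

namespace Pool.Agent.Refl
open Matrix Filter Topology Metric MeasureTheory

section gen
variable {E : Type*} [NormedAddCommGroup E] [NormedSpace ℂ E]

lemma phi_GH_line {U : Set E} {f : E → ℂ} (hf : GH U f) (p v : E) (w0 : ℂ) (h : p + w0 • v ∈ U) :
    DifferentiableAt ℂ (fun w : ℂ => f (p + w • v)) w0 := by
  have h1 := hf.line (p + w0 • v) h v
  have h2 : (fun w : ℂ => f (p + w • v)) =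
      (fun t : ℂ => f (p + w0 • v + t • v)) ∘ (fun w : ℂ => w - w0) := by
    funext w
    simp only [Function.comp]
    congr 1
    rw [sub_smul]; abel
  rw [h2]
  apply DifferentiableAt.comp
  · simpa using h1
  · fun_prop

lemma phi_GH_mono {U V : Set E} {f : E → ℂ} (hf : GH U f) (hV : V ⊆ U) : GH V f :=
  ⟨hf.cont.mono hV, fun p hp v => hf.line p (hV hp) v⟩

lemma phi_line_cont (p v : E) : Continuous (fun w : ℂ => p + w • v) := by fun_prop

lemma phi_GH_congr {U : Set E} (hU : IsOpen U) {f g : E → ℂ} (hf : GH U f)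
    (hfg : ∀ p ∈ U, g p = f p) : GH U g := by
  refine ⟨hf.cont.congr hfg, fun p hp v => ?_⟩
  have h1 := hf.line p hp v
  apply h1.congr_of_eventuallyEq
  have h2 : ∀ᶠ w : ℂ in 𝓝 0, p + w • v ∈ U := by
    apply (phi_line_cont p v).continuousAt.eventually_mem
    apply hU.mem_nhds; simpa using hp
  filter_upwards [h2] with w hw
  exact hfg _ hw

lemma phi_GH_div {U : Set E} {f g : E → ℂ} (hf : GH U f) (hg : GH U g) (h0 : ∀ p ∈ U, g p ≠ 0) :
    GH U (fun p => f p / g p) := by
  refine ⟨hf.cont.div hg.cont h0, fun p hp v => ?_⟩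
  apply DifferentiableAt.div (hf.line p hp v) (hg.line p hp v)
  simpa using h0 p hp

lemma phi_GH_neg {U : Set E} {f : E → ℂ} (hf : GH U f) : GH U (fun p => -f p) :=
  ⟨hf.cont.neg, fun p hp v => (hf.line p hp v).neg⟩

/-- integral of a holomorphic function depending on a real parameter -/
lemma phi_param {F : ℂ → ℝ → ℂ} {δ : ℝ} (hδ : 0 < δ) (a b : ℝ)
    (hc : ContinuousOn (fun q : ℂ × ℝ => F q.1 q.2) (ball 0 δ ×ˢ Set.univ))
    (hd : ∀ θ, ∀ t ∈ ball (0:ℂ) δ, DifferentiableAt ℂ (fun t => F t θ) t) :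
    DifferentiableAt ℂ (fun t => ∫ θ in a..b, F t θ) 0 := by
  -- compact set
  set K : Set (ℂ × ℝ) := closedBall 0 (δ / 2) ×ˢ Set.uIcc a b with hK
  have hKc : IsCompact K := (isCompact_closedBall _ _).prod isCompact_uIcc
  have hKs : K ⊆ ball 0 δ ×ˢ Set.univ := by
    rintro ⟨t, θ⟩ ⟨h1, _⟩
    refine ⟨?_, trivial⟩
    simp only [mem_closedBall, mem_ball] at h1 ⊢
    linarith
  obtain ⟨M, hM⟩ := hKc.exists_bound_of_continuousOn (hc.mono hKs)
  have hsec : ∀ t ∈ ball (0:ℂ) δ, Continuous (F t) := by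
    intro t ht
    have : Continuous (fun θ : ℝ => ((t, θ) : ℂ × ℝ)) := by fun_prop
    exact continuous_iff_continuousAt.2 fun θ =>
      ((hc (t, θ) ⟨ht, trivial⟩).continuousAt ((isOpen_ball.prod isOpen_univ).mem_nhds ⟨ht, trivial⟩)).comp_of_eq
        this.continuousAt rfl
  -- derivative
  have hderiv : ∀ θ, HasDerivAt (fun t => F t θ) (deriv (fun t => F t θ) 0) 0 := fun θ =>
    (hd θ 0 (mem_ball_self hδ)).hasDerivAt
  have hmeas : AEStronglyMeasurable (fun θ => deriv (fun t => F t θ) 0) (volume.restrict (Set.uIoc a b)) := by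
    -- limit of difference quotients
    set s : ℕ → ℂ := fun n => ((δ / 2 / (n + 1) : ℝ) : ℂ) with hs
    have hs0 : Tendsto s atTop (𝓝 0) := by
      have : Tendsto (fun n : ℕ => (δ / 2 / (n + 1) : ℝ)) atTop (𝓝 0) := by
        apply Tendsto.const_div_atTop
        exact tendsto_atTop_add_const_right _ _ tendsto_natCast_atTop_atTop
      rw [hs]
      exact_mod_cast (Complex.continuous_ofReal.tendsto 0).comp this
    have hspos : ∀ n, s n ≠ 0 := by
      intro n
      rw [hs]
      simp only [ne_eq, Complex.ofReal_eq_zero]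
      positivity
    have hsb : ∀ n, s n ∈ ball (0:ℂ) δ := by
      intro n
      rw [mem_ball_zero_iff, hs]
      simp only [Complex.norm_real, Real.norm_eq_abs]
      rw [abs_of_nonneg (by positivity)]
      have : δ / 2 / (n + 1) ≤ δ / 2 := div_le_self (by positivity) (by
        have : (0:ℝ) ≤ n := Nat.cast_nonneg n
        linarith)
      linarith
    refine aestronglyMeasurable_of_tendsto_ae atTop (f := fun n θ => (s n)⁻¹ * (F (s n) θ - F 0 θ)) ?_ ?_
    · intro n
      have h1 := hsec _ (hsb n)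
      have h2 := hsec 0 (mem_ball_self hδ)
      exact (continuous_const.mul (h1.sub h2)).aestronglyMeasurable
    · refine Eventually.of_forall fun θ => ?_
      have h1 := (hasDerivAt_iff_tendsto_slope.1 (hderiv θ))
      have h2 : Tendsto s atTop (𝓝[≠] 0) :=
        tendsto_nhdsWithin_iff.2 ⟨hs0, Eventually.of_forall hspos⟩
      have h3 := h1.comp h2
      refine h3.congr fun n => ?_
      simp [slope_def_field, div_eq_inv_mul]
  have key := intervalIntegral.hasDerivAt_integral_of_dominated_loc_of_lip (𝕜 := ℂ) (μ := volume)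
    (F := F) (F' := fun θ => deriv (fun t => F t θ) 0) (x₀ := 0) (s := ball 0 (δ / 4))
    (a := a) (b := b) (bound := fun _ => |M| / (δ / 4)) (ball_mem_nhds _ (by positivity))
    ?_ ?_ hmeas ?_ ?_ ?_
  · exact key.2.differentiableAt
  · have : ball (0:ℂ) δ ∈ 𝓝 (0:ℂ) := ball_mem_nhds _ hδ
    filter_upwards [this] with t ht
    exact (hsec t ht).aestronglyMeasurable
  · exact (hsec 0 (mem_ball_self hδ)).intervalIntegrable _ _
  · refine Eventually.of_forall fun θ hθ => ?_
    have hconv : Convex ℝ (ball (0:ℂ) (δ / 4)) := convex_ball _ _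
    apply hconv.lipschitzOnWith_of_nnnorm_deriv_le
    · intro t ht
      apply hd
      exact ball_subset_ball (by linarith) ht
    · intro t ht
      rw [← NNReal.coe_le_coe]
      simp only [coe_nnnorm]
      have h1 : ‖deriv (fun t => F t θ) t‖ ≤ |M| / (δ / 4) := by
        apply Complex.norm_deriv_le_of_forall_mem_sphere_norm_le (by positivity)
        · apply DifferentiableOn.diffContOnCl
          intro u hu
          have hu' : u ∈ ball (0:ℂ) δ := by
            have h2 := closure_ball_subset_closedBall hu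
            rw [mem_ball_zero_iff]
            rw [mem_closedBall, dist_eq_norm] at h2
            rw [mem_ball_zero_iff] at ht
            calc ‖u‖ = ‖(u - t) + t‖ := by congr 1; ring
              _ ≤ ‖u - t‖ + ‖t‖ := norm_add_le _ _
              _ < δ := by linarith
          exact (hd θ u hu').differentiableWithinAt
        · intro u hu
          refine (hM (u, θ) ⟨?_, Set.uIoc_subset_uIcc hθ⟩).trans (le_abs_self M)
          rw [mem_closedBall_zero_iff]
          rw [mem_sphere, dist_eq_norm] at hu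
          rw [mem_ball_zero_iff] at ht
          calc ‖u‖ = ‖(u - t) + t‖ := by congr 1; ring
            _ ≤ ‖u - t‖ + ‖t‖ := norm_add_le _ _
            _ ≤ δ / 2 := by linarith
      refine h1.trans ?_
      rw [Real.coe_nnabs]
      exact le_abs_self _
  · exact intervalIntegrable_const
  · exact Eventually.of_forall fun θ _ => hderiv θ

/-- averages over circles in a fixed direction of a `GH` function -/
lemma phi_GH_avg [LocallyCompactSpace E] {U V : Set E} (hV : IsOpen V) {g : E → ℂ} (hg : GH U g) (η : E) (r : ℝ)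
    (hVU : ∀ p ∈ V, ∀ θ : ℝ, p + circleMap 0 r θ • η ∈ U) :
    GH V (fun p => Real.circleAverage (fun w => g (p + w • η)) 0 r) := by
  have hcirc : Continuous (fun θ : ℝ => circleMap 0 r θ) := continuous_circleMap 0 r
  have hcont2 : ContinuousOn (fun q : E × ℝ => g (q.1 + circleMap 0 r q.2 • η)) (V ×ˢ Set.univ) := by
    apply hg.cont.comp
    · apply Continuous.continuousOn
      exact continuous_fst.add ((hcirc.comp continuous_snd).smul continuous_const)
    · rintro ⟨p, θ⟩ ⟨hp, _⟩
      exact hVU p hp θ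
  refine ⟨?_, ?_⟩
  · unfold Real.circleAverage
    apply ContinuousOn.const_smul
    rw [continuousOn_iff_continuous_domRestrict]
    have : LocallyCompactSpace V := hV.locallyCompactSpace
    apply intervalIntegral.continuous_parametric_intervalIntegral_of_continuous'
    have h2 : Continuous (fun x : V × ℝ => ((x.1 : E), x.2)) := by fun_prop
    exact hcont2.comp_continuous h2 (fun x => ⟨x.1.2, trivial⟩)
  · intro p hp v
    unfold Real.circleAverage
    apply DifferentiableAt.const_smul
    obtain ⟨δ, hδ, hball⟩ : ∃ δ > 0, ∀ t ∈ ball (0:ℂ) δ, p + t • v ∈ V := by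
      have h2 : ∀ᶠ w : ℂ in 𝓝 0, p + w • v ∈ V := by
        apply (phi_line_cont p v).continuousAt.eventually_mem
        apply hV.mem_nhds; simpa using hp
      obtain ⟨δ, hδ, h⟩ := Metric.eventually_nhds_iff_ball.1 h2
      exact ⟨δ, hδ, h⟩
    apply phi_param (F := fun t θ => g (p + t • v + circleMap 0 r θ • η)) hδ
    · have h3 : Continuous (fun q : ℂ × ℝ => ((p + q.1 • v), q.2)) := by fun_prop
      exact hcont2.comp h3.continuousOn (fun q hq => ⟨hball _ hq.1, trivial⟩)
    · intro θ t ht
      have h4 := phi_GH_line hg (p + circleMap 0 r θ • η) v t (by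
        have := hVU _ (hball t ht) θ
        rwa [show p + circleMap 0 r θ • η + t • v = p + t • v + circleMap 0 r θ • η by abel])
      refine h4.congr_of_eventuallyEq (Eventually.of_forall fun u => ?_)
      simp only
      congr 1; abel

end gen

lemma phi_norm_e_real (t : ℝ) : ‖e (t : ℂ)‖ = 1 := by
  rw [norm_e]; simp

lemma phi_e_nat_mul (m : ℕ) (t : ℂ) : e (m * t) = e t ^ m := by
  unfold e
  rw [← Complex.exp_nat_mul]; ring_nf

lemma phi_e_cont : Continuous e := by unfold e; fun_prop

lemma phi_integral_e (k : ℤ) : ∫ t in (0:ℝ)..1, e ((k : ℂ) * t) = if k = 0 then 1 else 0 := by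
  split_ifs with h
  · subst h; simp [e_zero]
  · unfold e
    have hc : (2 * Real.pi * Complex.I * k : ℂ) ≠ 0 := by
      have := Complex.two_pi_I_ne_zero
      exact mul_ne_zero this (by exact_mod_cast h)
    have h1 : ∀ t : ℝ, Complex.exp (2 * Real.pi * Complex.I * ((k : ℂ) * t)) =
        Complex.exp ((2 * Real.pi * Complex.I * k) * t) := by
      intro t; congr 1; ring
    simp_rw [h1]
    rw [integral_exp_mul_complex hc]
    have h2 : Complex.exp ((2 * Real.pi * Complex.I * k) * ((1 : ℝ) : ℂ)) = 1 := by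
      rw [Complex.exp_eq_one_iff]; exact ⟨k, by push_cast; ring⟩
    rw [h2]; simp

/-- Cauchy estimate for the coefficients of a power series -/
lemma phi_coeff_bound (a : ℕ → ℂ) (ρ M : ℝ) (hρ : 0 ≤ ρ) (hs : Summable fun m => ‖a m‖ * ρ ^ m)
    (hM : ∀ t : ℝ, ‖∑' m, a m * (ρ * e t) ^ m‖ ≤ M) (l : ℕ) : ‖a l‖ * ρ ^ l ≤ M := by
  set F : ℕ → ℝ → ℂ := fun m t => (a m * ρ ^ m) * e ((((m : ℤ) - (l : ℤ) : ℤ) : ℂ) * t) with hF
  have hFc : ∀ m, Continuous (F m) := by
    intro m
    apply continuous_const.mul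
    exact phi_e_cont.comp (by fun_prop)
  have hFn : ∀ m t, ‖F m t‖ = ‖a m‖ * ρ ^ m := by
    intro m t
    simp only [hF]
    have : ((((m : ℤ) - (l : ℤ) : ℤ) : ℂ) * (t : ℂ)) = (((((m : ℤ) - (l : ℤ) : ℤ) : ℝ) * t : ℝ) : ℂ) := by
      push_cast; ring
    rw [norm_mul, this, phi_norm_e_real, mul_one, norm_mul, norm_pow, Complex.norm_real,
      Real.norm_of_nonneg hρ]
  have hFeq : ∀ m (t : ℝ), F m t = (a m * (ρ * e t) ^ m) * e (-((l : ℂ) * t)) := by
    intro m t
    simp only [hF]
    have : ((((m : ℤ) - (l : ℤ) : ℤ) : ℂ) * (t : ℂ)) = (m : ℂ) * t + -((l : ℂ) * t) := by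
      push_cast; ring
    rw [this, e_add, phi_e_nat_mul, mul_pow]; ring
  have hint := hasSum_integral_of_summable_integral_norm (μ := volume.restrict (Set.Ioc (0:ℝ) 1)) (F := F)
    (fun m => ((hFc m).integrableOn_Ioc)) (by
      simp_rw [hFn]
      simpa using hs)
  simp_rw [← intervalIntegral.integral_of_le (zero_le_one' ℝ)] at hint
  have h1 : ∀ m, ∫ t in (0:ℝ)..1, F m t = if m = l then a m * ρ ^ m else 0 := by
    intro m
    simp only [hF]
    rw [intervalIntegral.integral_const_mul, phi_integral_e]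
    by_cases h : m = l
    · subst h; simp
    · rw [if_neg h, if_neg (by omega)]; simp
  simp_rw [h1] at hint
  have h2 : (∫ t in (0:ℝ)..1, ∑' m, F m t) = a l * (ρ : ℂ) ^ l := by
    have h5 : HasSum (fun m => if m = l then a m * (ρ : ℂ) ^ m else 0)
        (if l = l then a l * (ρ : ℂ) ^ l else 0) :=
      hasSum_single l (fun m hm => if_neg hm)
    rw [if_pos rfl] at h5
    exact hint.unique h5
  have h3 : ‖∫ t in (0:ℝ)..1, ∑' m, F m t‖ ≤ M := by
    have := intervalIntegral.norm_integral_le_of_norm_le_const (a := (0:ℝ)) (b := 1) (C := M)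
      (f := fun t => ∑' m, F m t) ?_
    · simpa using this
    · intro t _
      simp_rw [hFeq]
      rw [tsum_mul_right, norm_mul]
      have h4 : ‖e (-((l : ℂ) * (t : ℂ)))‖ = 1 := by
        have : (-((l : ℂ) * (t : ℂ))) = ((-(l * t) : ℝ) : ℂ) := by push_cast; ring
        rw [this, phi_norm_e_real]
      rw [h4, mul_one]
      exact hM t
  rw [h2] at h3
  rwa [norm_mul, norm_pow, Complex.norm_real, Real.norm_of_nonneg hρ] at h3

end Pool.Agent.Refl
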