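import Pool.Agent.Refl.Basic

/-! Module TWOVAR: two lemmas on zeros of holomorphic functions of two variables. -/

namespace Pool.Agent.Refl
open Metric Filter Topology

/-- exchanging the two variables -/
lemma tv_swap {A : ℂ → ℂ → ℂ} {r R : ℝ}
    (hA : GH (ball (0:ℂ) r ×ˢ ball (0:ℂ) R) (fun q : ℂ × ℂ => A q.1 q.2)) :
    GH (ball (0:ℂ) R ×ˢ ball (0:ℂ) r) (fun q : ℂ × ℂ => A q.2 q.1) := by
  constructor
  · have h := hA.cont.comp (f := fun q : ℂ × ℂ => (q.2, q.1)) (s := ball (0:ℂ) R ×ˢ ball (0:ℂ) r)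
      (by fun_prop) (by
        rintro ⟨s, w⟩ ⟨h1, h2⟩
        exact ⟨h2, h1⟩)
    exact h
  · rintro ⟨s, w⟩ ⟨h1, h2⟩ ⟨a, b⟩
    have h := hA.line (w, s) ⟨h2, h1⟩ (b, a)
    exact h

/-- on a complex line through a point the function is differentiable near that point -/
lemma tv_line {A : ℂ → ℂ → ℂ} {r R : ℝ}
    (hA : GH (ball (0:ℂ) r ×ˢ ball (0:ℂ) R) (fun q : ℂ × ℂ => A q.1 q.2)) {w s : ℂ} (a b : ℂ)
    (t : ℂ) (hw : w + t * a ∈ ball (0:ℂ) r) (hs : s + t * b ∈ ball (0:ℂ) R) :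
    DifferentiableAt ℂ (fun t : ℂ => A (w + t * a) (s + t * b)) t := by
  have h := hA.line (w + t * a, s + t * b) ⟨hw, hs⟩ (a, b)
  have h2 : DifferentiableAt ℂ ((fun u : ℂ => A (w + t * a + u * a) (s + t * b + u * b)) ∘
      fun u : ℂ => u - t) t := by
    apply DifferentiableAt.comp
    · simpa using h
    · fun_prop
  convert h2 using 2 with u
  simp only [Function.comp]
  congr 1 <;> ring

lemma tv_diff1 {A : ℂ → ℂ → ℂ} {r R : ℝ}
    (hA : GH (ball (0:ℂ) r ×ˢ ball (0:ℂ) R) (fun q : ℂ × ℂ => A q.1 q.2)) {s : ℂ}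
    (hs : s ∈ ball (0:ℂ) R) : DifferentiableOn ℂ (fun w => A w s) (ball (0:ℂ) r) := by
  intro w hw
  apply DifferentiableAt.differentiableWithinAt
  have h := tv_line hA (w := 0) (s := s) 1 0 w (by simpa using hw) (by simpa using hs)
  simpa using h

lemma tv_cont1 {A : ℂ → ℂ → ℂ} {r R : ℝ}
    (hA : GH (ball (0:ℂ) r ×ˢ ball (0:ℂ) R) (fun q : ℂ × ℂ => A q.1 q.2)) {w : ℂ}
    (hw : w ∈ ball (0:ℂ) r) : ContinuousOn (fun s => A w s) (ball (0:ℂ) R) := by
  have h := hA.cont.comp (f := fun s : ℂ => (w, s)) (s := ball (0:ℂ) R)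
      (by fun_prop) (by
        intro s hs
        exact ⟨hw, hs⟩)
  exact h

/-- uniform closeness on compact sets: for `K ⊆ ball 0 r` compact and `s₀ ∈ ball 0 R`,
`A w s` is near `A w s₀` uniformly in `w ∈ K` for `s` near `s₀`. -/
lemma tv_unif {A : ℂ → ℂ → ℂ} {r R : ℝ}
    (hA : GH (ball (0:ℂ) r ×ˢ ball (0:ℂ) R) (fun q : ℂ × ℂ => A q.1 q.2)) {K : Set ℂ}
    (hK : IsCompact K) (hKr : K ⊆ ball (0:ℂ) r) {s₀ : ℂ} (hs₀ : s₀ ∈ ball (0:ℂ) R) {η : ℝ}
    (hη : 0 < η) : ∃ δ > 0, ∀ s, dist s s₀ < δ → s ∈ ball (0:ℂ) R ∧ ∀ w ∈ K,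
      ‖A w s - A w s₀‖ < η := by
  obtain ⟨ρ, hρ, hρR⟩ : ∃ ρ > 0, closedBall s₀ ρ ⊆ ball (0:ℂ) R := by
    obtain ⟨ρ, hρ, h⟩ := Metric.isOpen_iff.1 isOpen_ball s₀ hs₀
    exact ⟨ρ / 2, by positivity, (closedBall_subset_ball (by linarith)).trans h⟩
  have hc : IsCompact (K ×ˢ closedBall s₀ ρ) := hK.prod (isCompact_closedBall _ _)
  have hu := hc.uniformContinuousOn_of_continuous (hA.cont.mono (Set.prod_mono hKr hρR))
  rw [Metric.uniformContinuousOn_iff] at hu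
  obtain ⟨δ, hδ, h⟩ := hu η hη
  refine ⟨min δ ρ, lt_min hδ hρ, fun s hs => ?_⟩
  have hsρ : s ∈ closedBall s₀ ρ := (lt_of_lt_of_le hs (min_le_right _ _)).le
  refine ⟨hρR hsρ, fun w hw => ?_⟩
  have h3 := h (w, s) ⟨hw, hsρ⟩ (w, s₀) ⟨hw, mem_closedBall_self hρ.le⟩ (by
    rw [Prod.dist_eq]
    simp only [dist_self]
    exact max_lt hδ (lt_of_lt_of_le hs (min_le_left _ _)))
  rwa [dist_eq_norm] at h3

/-- Lemma 2V (i) -/
theorem two_var_one {A : ℂ → ℂ → ℂ} {r R : ℝ} (hr : 0 < r) (hR : 0 < R)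
    (hA : GH (ball (0:ℂ) r ×ˢ ball (0:ℂ) R) (fun q : ℂ × ℂ => A q.1 q.2))
    (hne : ∀ w ∈ ball (0:ℂ) r, ∀ s ∈ ball (0:ℂ) R, s ≠ 0 → A w s ≠ 0)
    (h0 : ∃ w ∈ ball (0:ℂ) r, A w 0 ≠ 0) : ∀ w ∈ ball (0:ℂ) r, A w 0 ≠ 0 := by
  intro w₀ hw₀ hz
  have hR0 : (0:ℂ) ∈ ball (0:ℂ) R := mem_ball_self hR
  have han : AnalyticOnNhd ℂ (fun w => A w 0) (ball (0:ℂ) r) :=
    (tv_diff1 hA hR0).analyticOnNhd isOpen_ball
  -- isolated zero
  have hiso : ∀ᶠ w in 𝓝[≠] w₀, A w 0 ≠ 0 := by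
    by_contra hcon
    rw [Filter.not_eventually] at hcon
    have h1 : ∃ᶠ w in 𝓝[≠] w₀, A w 0 = 0 := hcon.mono (fun w hw => not_not.1 hw)
    have h2 := han.eqOn_zero_of_preconnected_of_frequently_eq_zero
      (convex_ball _ _).isPreconnected hw₀ h1
    obtain ⟨w, hw, hw2⟩ := h0
    exact hw2 (h2 hw)
  rw [eventually_nhdsWithin_iff, Metric.eventually_nhds_iff_ball] at hiso
  obtain ⟨ε₁, hε₁, h1⟩ := hiso
  obtain ⟨ε₂, hε₂, h2⟩ := Metric.isOpen_iff.1 isOpen_ball w₀ hw₀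
  set ε := min ε₁ ε₂ / 2 with hε
  have hmin : 0 < min ε₁ ε₂ := lt_min hε₁ hε₂
  have hεpos : 0 < ε := by positivity
  have hle1 : ε < ε₁ := by
    have := min_le_left ε₁ ε₂
    linarith
  have hle2 : ε < ε₂ := by
    have := min_le_right ε₁ ε₂
    linarith
  have hcb : closedBall w₀ ε ⊆ ball (0:ℂ) r := (closedBall_subset_ball hle2).trans h2
  have hsub : sphere w₀ ε ⊆ ball (0:ℂ) r := sphere_subset_closedBall.trans hcb
  -- minimum on the sphere
  obtain ⟨m, hm, hmin⟩ : ∃ m > 0, ∀ w ∈ sphere w₀ ε, m ≤ ‖A w 0‖ := by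
    have hcomp : IsCompact (sphere w₀ ε) := isCompact_sphere _ _
    have hne' : (sphere w₀ ε).Nonempty := NormedSpace.sphere_nonempty.2 hεpos.le
    have hcont : ContinuousOn (fun w => ‖A w 0‖) (sphere w₀ ε) :=
      ((tv_diff1 hA hR0).continuousOn.mono hsub).norm
    obtain ⟨x, hx, hxm⟩ := hcomp.exists_isMinOn hne' hcont
    refine ⟨‖A x 0‖, ?_, fun w hw => hxm hw⟩
    rw [gt_iff_lt, norm_pos_iff]
    refine h1 x ?_ ?_
    · rw [mem_sphere] at hx
      rw [mem_ball, hx]; exact hle1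
    · intro hxx
      rw [mem_sphere, hxx, dist_self] at hx
      exact hεpos.ne hx
  obtain ⟨δ, hδ, hun⟩ := tv_unif hA (isCompact_sphere w₀ ε) hsub hR0 (half_pos hm)
  -- the bound at the centre
  have hkey : ∀ s, dist s 0 < δ → s ≠ 0 → m / 2 ≤ ‖A w₀ s‖ := by
    intro s hs hs0
    obtain ⟨hsR, hs3⟩ := hun s hs
    have hd : DiffContOnCl ℂ (fun w => (A w s)⁻¹) (ball w₀ ε) := by
      apply DifferentiableOn.diffContOnCl
      rw [closure_ball _ hεpos.ne']
      exact ((tv_diff1 hA hsR).mono hcb).inv (fun w hw => hne w (hcb hw) s hsR hs0)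
    have hb := Complex.norm_le_of_forall_mem_frontier_norm_le isBounded_ball hd
      (C := (m / 2)⁻¹) (by
        intro z hz
        rw [frontier_ball _ hεpos.ne'] at hz
        rw [norm_inv]
        have h4 := hs3 z hz
        have h5 := hmin z hz
        have h6 : m / 2 ≤ ‖A z s‖ := by
          have := norm_sub_norm_le (A z 0) (A z s)
          rw [norm_sub_rev] at this
          linarith
        exact inv_anti₀ (by positivity) h6) (subset_closure (mem_ball_self hεpos))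
    rw [norm_inv] at hb
    have hpos : 0 < ‖A w₀ s‖ := norm_pos_iff.2 (hne w₀ hw₀ s hsR hs0)
    exact (inv_le_inv₀ hpos (by positivity)).1 hb
  -- the limit
  have hlim : Tendsto (fun s => ‖A w₀ s‖) (𝓝[≠] (0:ℂ)) (𝓝 ‖A w₀ 0‖) := by
    have hc : ContinuousAt (fun s => A w₀ s) 0 :=
      (tv_cont1 hA hw₀).continuousAt (isOpen_ball.mem_nhds hR0)
    exact (hc.norm.tendsto).mono_left nhdsWithin_le_nhds
  have hle : m / 2 ≤ ‖A w₀ 0‖ := by
    refine ge_of_tendsto hlim ?_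
    rw [eventually_nhdsWithin_iff, Metric.eventually_nhds_iff_ball]
    exact ⟨δ, hδ, fun s hs hs0 => hkey s hs hs0⟩
  rw [hz, norm_zero] at hle
  linarith

/-- division by the first variable -/
lemma tv_div {A : ℂ → ℂ → ℂ} {r R : ℝ} (hr : 0 < r) (hR : 0 < R)
    (hA : GH (ball (0:ℂ) r ×ˢ ball (0:ℂ) R) (fun q : ℂ × ℂ => A q.1 q.2))
    (h0 : ∀ s ∈ ball (0:ℂ) R, A 0 s = 0) :
    GH (ball (0:ℂ) r ×ˢ ball (0:ℂ) R) (fun q : ℂ × ℂ => dslope (fun w => A w q.2) 0 q.1) := by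
  have hr0 : (0:ℂ) ∈ ball (0:ℂ) r := mem_ball_self hr
  set B : ℂ → ℂ → ℂ := fun w s => dslope (fun w => A w s) 0 w with hB
  have hBne : ∀ w s, s ∈ ball (0:ℂ) R → w ≠ 0 → B w s = A w s / w := by
    intro w s hs hw
    simp only [hB]
    rw [dslope_of_ne _ hw, slope_def_field, h0 s hs]
    simp
  have hBd : ∀ s ∈ ball (0:ℂ) R, DifferentiableOn ℂ (fun w => B w s) (ball (0:ℂ) r) := by
    intro s hs
    exact (Complex.differentiableOn_dslope (isOpen_ball.mem_nhds hr0)).2 (tv_diff1 hA hs)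
  -- joint continuity at the points `(0, s₀)`, uniform version
  have hunif : ∀ s₀ ∈ ball (0:ℂ) R, ∀ η > 0, ∃ δ > 0, ∀ s, dist s s₀ < δ → s ∈ ball (0:ℂ) R ∧
      ∀ w ∈ closedBall (0:ℂ) (r / 2), ‖B w s - B w s₀‖ ≤ η := by
    intro s₀ hs₀ η hη
    have hcb : closedBall (0:ℂ) (r / 2) ⊆ ball (0:ℂ) r := closedBall_subset_ball (by linarith)
    obtain ⟨δ, hδ, h⟩ := tv_unif hA (isCompact_sphere (0:ℂ) (r / 2))
      (sphere_subset_closedBall.trans hcb) hs₀ (η := η * (r / 2)) (by positivity)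
    refine ⟨δ, hδ, fun s hs => ?_⟩
    obtain ⟨hsR, h2⟩ := h s hs
    refine ⟨hsR, fun w hw => ?_⟩
    have hr2 : r / 2 ≠ 0 := by positivity
    have hd : DiffContOnCl ℂ (fun w => B w s - B w s₀) (ball (0:ℂ) (r / 2)) := by
      apply DifferentiableOn.diffContOnCl
      rw [closure_ball _ hr2]
      exact ((hBd s hsR).mono hcb).sub ((hBd s₀ hs₀).mono hcb)
    refine Complex.norm_le_of_forall_mem_frontier_norm_le isBounded_ball hd
      (C := η) ?_ (by rw [closure_ball _ hr2]; exact hw)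
    intro z hz
    rw [frontier_ball _ hr2] at hz
    have hz0 : z ≠ 0 := by
      rintro rfl
      simp at hz
      linarith
    have hzn : ‖z‖ = r / 2 := by simpa using hz
    rw [hBne z s hsR hz0, hBne z s₀ hs₀ hz0, ← sub_div, norm_div, hzn, div_le_iff₀ (by positivity)]
    exact (h2 z hz).le
  have hcontAt0 : ∀ s₀ ∈ ball (0:ℂ) R, ContinuousAt (fun q : ℂ × ℂ => B q.1 q.2) (0, s₀) := by
    intro s₀ hs₀
    rw [Metric.continuousAt_iff]
    intro η hη
    obtain ⟨δ, hδ, h⟩ := hunif s₀ hs₀ (η / 2) (half_pos hη)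
    have hc : ContinuousAt (fun w => B w s₀) 0 :=
      ((hBd s₀ hs₀).continuousOn).continuousAt (isOpen_ball.mem_nhds hr0)
    rw [Metric.continuousAt_iff] at hc
    obtain ⟨δ', hδ', h'⟩ := hc (η / 2) (half_pos hη)
    refine ⟨min (min δ δ') (r / 2), by positivity, ?_⟩
    rintro ⟨w, s⟩ hws
    rw [Prod.dist_eq, max_lt_iff] at hws
    obtain ⟨hw, hs⟩ := hws
    simp only at hw hs ⊢
    have hw1 : dist w 0 < δ' :=
      lt_of_lt_of_le hw ((min_le_left _ _).trans (min_le_right _ _))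
    have hw2 : dist w 0 < r / 2 := lt_of_lt_of_le hw (min_le_right _ _)
    have hs1 : dist s s₀ < δ := lt_of_lt_of_le hs ((min_le_left _ _).trans (min_le_left _ _))
    have h3 := (h s hs1).2 w hw2.le
    have h4 := h' hw1
    rw [dist_eq_norm] at h4 ⊢
    calc ‖B w s - B 0 s₀‖ = ‖(B w s - B w s₀) + (B w s₀ - B 0 s₀)‖ := by ring_nf
      _ ≤ ‖B w s - B w s₀‖ + ‖B w s₀ - B 0 s₀‖ := norm_add_le _ _
      _ < η := by linarith
  have hopen : IsOpen (ball (0:ℂ) r ×ˢ ball (0:ℂ) R) := isOpen_ball.prod isOpen_ball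
  have hcont : ContinuousOn (fun q : ℂ × ℂ => B q.1 q.2) (ball (0:ℂ) r ×ˢ ball (0:ℂ) R) := by
    rintro ⟨w, s⟩ ⟨hw, hs⟩
    apply ContinuousAt.continuousWithinAt
    by_cases hw0 : w = 0
    · subst hw0
      exact hcontAt0 s hs
    · have hA' : ContinuousAt (fun q : ℂ × ℂ => A q.1 q.2 / q.1) (w, s) := by
        apply ContinuousAt.div
        · exact hA.cont.continuousAt (hopen.mem_nhds ⟨hw, hs⟩)
        · exact continuousAt_fst
        · exact hw0
      refine hA'.congr ?_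
      have h1 : ∀ᶠ q : ℂ × ℂ in 𝓝 (w, s), q ∈ ball (0:ℂ) r ×ˢ ball (0:ℂ) R :=
        hopen.mem_nhds ⟨hw, hs⟩
      have h2 : ∀ᶠ q : ℂ × ℂ in 𝓝 (w, s), q.1 ≠ 0 :=
        continuousAt_fst.eventually_ne hw0
      filter_upwards [h1, h2] with q hq1 hq2
      exact (hBne q.1 q.2 hq1.2 hq2).symm
  refine ⟨hcont, ?_⟩
  rintro ⟨w, s⟩ ⟨hw, hs⟩ ⟨a, b⟩
  simp only at hw hs
  show DifferentiableAt ℂ (fun t : ℂ => B (w + t • a) (s + t • b)) 0
  simp only [smul_eq_mul]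
  -- the line stays inside for small `t`
  have hin : ∀ᶠ t : ℂ in 𝓝 0, w + t * a ∈ ball (0:ℂ) r ∧ s + t * b ∈ ball (0:ℂ) R := by
    have c1 : ContinuousAt (fun t : ℂ => w + t * a) 0 := by fun_prop
    have c2 : ContinuousAt (fun t : ℂ => s + t * b) 0 := by fun_prop
    refine (c1.eventually_mem (isOpen_ball.mem_nhds ?_)).and
      (c2.eventually_mem (isOpen_ball.mem_nhds ?_))
    · simpa using hw
    · simpa using hs
  by_cases hcase : w = 0 ∧ a = 0
  · obtain ⟨rfl, rfl⟩ := hcase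
    simp only [mul_zero, add_zero]
    -- `B(0, ·)` is a locally uniform limit
    have hlim : DifferentiableOn ℂ (fun s => B 0 s) (ball (0:ℂ) R) := by
      have hT : TendstoLocallyUniformlyOn (fun (w : ℂ) (s : ℂ) => A w s / w) (fun s => B 0 s)
          (𝓝[≠] (0:ℂ)) (ball (0:ℂ) R) := by
        rw [Metric.tendstoLocallyUniformlyOn_iff]
        intro η hη s₁ hs₁
        have hc := hcontAt0 s₁ hs₁
        rw [Metric.continuousAt_iff] at hc
        obtain ⟨δ, hδ, h⟩ := hc (η / 2) (half_pos hη)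
        refine ⟨ball s₁ δ ∩ ball 0 R, ?_, ?_⟩
        · exact inter_mem (mem_nhdsWithin_of_mem_nhds (ball_mem_nhds s₁ hδ)) self_mem_nhdsWithin
        · rw [eventually_nhdsWithin_iff, Metric.eventually_nhds_iff_ball]
          refine ⟨δ, hδ, fun w hw hw0 y hy => ?_⟩
          have h1 : dist (B w y) (B 0 s₁) < η / 2 := by
            apply h (x := (w, y))
            rw [Prod.dist_eq]
            exact max_lt hw hy.1
          have h2 : dist (B 0 y) (B 0 s₁) < η / 2 := by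
            apply h (x := (0, y))
            rw [Prod.dist_eq]
            simp only [dist_self]
            exact max_lt hδ hy.1
          rw [← hBne w y hy.2 hw0]
          have h3 := dist_triangle_right (B 0 y) (B w y) (B 0 s₁)
          linarith
      refine hT.differentiableOn ?_ isOpen_ball
      rw [eventually_nhdsWithin_iff]
      filter_upwards [isOpen_ball.mem_nhds hr0] with w hw hw0
      exact (tv_diff1 (A := fun s w => A w s) (tv_swap hA) hw).div_const w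
    have h1 : DifferentiableAt ℂ (fun s => B 0 s) (s + 0 * b) := by
      simp only [zero_mul, add_zero]
      exact hlim.differentiableAt (isOpen_ball.mem_nhds hs)
    have h2 : DifferentiableAt ℂ (fun t : ℂ => s + t * b) 0 := by fun_prop
    exact DifferentiableAt.comp (0:ℂ) h1 h2
  · have hpunct : ∀ᶠ t : ℂ in 𝓝[≠] 0, w + t * a ≠ 0 := by
      by_cases hw0 : w = 0
      · have ha : a ≠ 0 := fun h => hcase ⟨hw0, h⟩
        rw [eventually_nhdsWithin_iff]
        filter_upwards with t ht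
        rw [hw0, zero_add]
        exact mul_ne_zero ht ha
      · have c1 : ContinuousAt (fun t : ℂ => w + t * a) 0 := by fun_prop
        exact (c1.eventually_ne (by simpa using hw0)).filter_mono nhdsWithin_le_nhds
    refine (Complex.analyticAt_of_differentiable_on_punctured_nhds_of_continuousAt ?_
      ?_).differentiableAt
    · filter_upwards [hpunct, hin.filter_mono nhdsWithin_le_nhds] with t ht1 ht2
      have hd : DifferentiableAt ℂ (fun t : ℂ => A (w + t * a) (s + t * b) / (w + t * a)) t :=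
        (tv_line hA a b t ht2.1 ht2.2).div (by fun_prop) ht1
      refine hd.congr_of_eventuallyEq ?_
      have c1 : ContinuousAt (fun t : ℂ => w + t * a) t := by fun_prop
      have c2 : ContinuousAt (fun t : ℂ => s + t * b) t := by fun_prop
      filter_upwards [c1.eventually_ne ht1,
        c2.eventually_mem (isOpen_ball.mem_nhds ht2.2)] with u hu1 hu2
      exact hBne _ _ hu2 hu1
    · have hc : ContinuousAt (fun q : ℂ × ℂ => B q.1 q.2) (w + 0 * a, s + 0 * b) := by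
        simp only [zero_mul, add_zero]
        exact hcont.continuousAt (hopen.mem_nhds ⟨hw, hs⟩)
      have c3 : ContinuousAt (fun t : ℂ => (w + t * a, s + t * b)) 0 := by fun_prop
      exact ContinuousAt.comp (x := (0:ℂ)) hc c3

/-- strong form: the induction on the order of `A(·, 0)` at `0` -/
lemma tv_ind {r R : ℝ} (hr : 0 < r) (hR : 0 < R) (n : ℕ) : ∀ (A : ℂ → ℂ → ℂ),
    GH (ball (0:ℂ) r ×ˢ ball (0:ℂ) R) (fun q : ℂ × ℂ => A q.1 q.2) →
    (∀ w ∈ ball (0:ℂ) r, ∀ s ∈ ball (0:ℂ) R, w ≠ 0 → A w s ≠ 0) →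
    analyticOrderAt (fun w => A w 0) 0 = n →
    ∃ (c : ℕ) (B : ℂ → ℂ → ℂ),
      GH (ball (0:ℂ) r ×ˢ ball (0:ℂ) R) (fun q : ℂ × ℂ => B q.1 q.2) ∧
      (∀ w ∈ ball (0:ℂ) r, ∀ s ∈ ball (0:ℂ) R, A w s = w ^ c * B w s) ∧
      ∀ w ∈ ball (0:ℂ) r, ∀ s ∈ ball (0:ℂ) R, B w s ≠ 0 := by
  have hr0 : (0:ℂ) ∈ ball (0:ℂ) r := mem_ball_self hr
  have hR0 : (0:ℂ) ∈ ball (0:ℂ) R := mem_ball_self hR
  have hzero : ∀ (A : ℂ → ℂ → ℂ),
      GH (ball (0:ℂ) r ×ˢ ball (0:ℂ) R) (fun q : ℂ × ℂ => A q.1 q.2) →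
      (∀ w ∈ ball (0:ℂ) r, ∀ s ∈ ball (0:ℂ) R, w ≠ 0 → A w s ≠ 0) →
      (∃ s ∈ ball (0:ℂ) R, A 0 s ≠ 0) →
      ∃ (c : ℕ) (B : ℂ → ℂ → ℂ),
        GH (ball (0:ℂ) r ×ˢ ball (0:ℂ) R) (fun q : ℂ × ℂ => B q.1 q.2) ∧
        (∀ w ∈ ball (0:ℂ) r, ∀ s ∈ ball (0:ℂ) R, A w s = w ^ c * B w s) ∧
        ∀ w ∈ ball (0:ℂ) r, ∀ s ∈ ball (0:ℂ) R, B w s ≠ 0 := by
    intro A hA hne h0
    refine ⟨0, A, hA, fun w _ s _ => by simp, ?_⟩
    have h1 := two_var_one (A := fun s w => A w s) hR hr (tv_swap hA)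
      (fun s hs w hw hw0 => hne w hw s hs hw0) h0
    intro w hw s hs
    by_cases hw0 : w = 0
    · subst hw0
      exact h1 s hs
    · exact hne w hw s hs hw0
  induction n with
  | zero =>
    intro A hA hne hord
    refine hzero A hA hne ⟨0, hR0, ?_⟩
    have han : AnalyticAt ℂ (fun w => A w 0) 0 :=
      (tv_diff1 hA hR0).analyticAt (isOpen_ball.mem_nhds hr0)
    exact han.analyticOrderAt_eq_zero.1 (by simpa using hord)
  | succ n ih =>
    intro A hA hne hord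
    by_cases h0 : ∃ s ∈ ball (0:ℂ) R, A 0 s ≠ 0
    · exact hzero A hA hne h0
    · push Not at h0
      have hB := tv_div hr hR hA h0
      have hBne : ∀ w s, s ∈ ball (0:ℂ) R → w * dslope (fun w => A w s) 0 w = A w s := by
        intro w s hs
        have h2 := sub_smul_dslope_of_zero (f := fun w => A w s) (a := 0) (h0 s hs) w
        simpa using h2
      have h6 : ∀ w ∈ ball (0:ℂ) r, ∀ s ∈ ball (0:ℂ) R, w ≠ 0 →
          dslope (fun w => A w s) 0 w ≠ 0 := by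
        intro w hw s hs hw0 hz
        refine hne w hw s hs hw0 ?_
        rw [← hBne w s hs, hz, mul_zero]
      have h7 : analyticOrderAt (fun w => dslope (fun w => A w 0) 0 w) 0 = n := by
        have han : AnalyticAt ℂ (fun w => dslope (fun w => A w 0) 0 w) 0 :=
          (tv_diff1 (A := fun w s => dslope (fun w => A w s) 0 w) hB hR0).analyticAt
            (isOpen_ball.mem_nhds hr0)
        have h3 := analyticOrderAt_mul (analyticAt_id (𝕜 := ℂ) (z := (0:ℂ))) han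
        have h4 : ((id : ℂ → ℂ) * fun w => dslope (fun w => A w 0) 0 w) =
            fun w => A w 0 := by
          funext w
          exact hBne w 0 hR0
        rw [h4, hord, analyticOrderAt_id] at h3
        have h8 : ((n + 1 : ℕ) : ℕ∞) = 1 + (n : ℕ∞) := by
          push_cast
          ring
        rw [h8] at h3
        exact (ENat.add_right_injective_of_ne_top ENat.one_ne_top h3).symm
      obtain ⟨c, C, hC, hC1, hC2⟩ := ih (fun w s => dslope (fun w => A w s) 0 w) hB h6 h7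
      refine ⟨c + 1, C, hC, ?_, hC2⟩
      intro w hw s hs
      rw [← hBne w s hs, hC1 w hw s hs]
      ring

/-- Lemma 2V (ii) -/
theorem two_var_two {A : ℂ → ℂ → ℂ} {r R : ℝ} (hr : 0 < r) (hR : 0 < R)
    (hA : GH (ball (0:ℂ) r ×ˢ ball (0:ℂ) R) (fun q : ℂ × ℂ => A q.1 q.2))
    (hne : ∀ w ∈ ball (0:ℂ) r, ∀ s ∈ ball (0:ℂ) R, w ≠ 0 → A w s ≠ 0) :
    ∃ (c : ℕ) (B : ℂ → ℂ → ℂ),
      GH (ball (0:ℂ) r ×ˢ ball (0:ℂ) R) (fun q : ℂ × ℂ => B q.1 q.2) ∧
      (∀ w ∈ ball (0:ℂ) r, ∀ s ∈ ball (0:ℂ) R, A w s = w ^ c * B w s) ∧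
      ∀ w ∈ ball (0:ℂ) r, ∀ s ∈ ball (0:ℂ) R, B w s ≠ 0 := by
  have hr0 : (0:ℂ) ∈ ball (0:ℂ) r := mem_ball_self hr
  have hR0 : (0:ℂ) ∈ ball (0:ℂ) R := mem_ball_self hR
  have han : AnalyticAt ℂ (fun w => A w 0) 0 :=
    (tv_diff1 hA hR0).analyticAt (isOpen_ball.mem_nhds hr0)
  have hfin : analyticOrderAt (fun w => A w 0) 0 ≠ ⊤ := by
    intro htop
    rw [analyticOrderAt_eq_top] at htop
    rw [Metric.eventually_nhds_iff_ball] at htop
    obtain ⟨ε, hε, h⟩ := htop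
    have hmin : 0 < min ε r := lt_min hε hr
    set x : ℝ := min ε r / 2 with hx
    have hx0 : 0 < x := by positivity
    have hnx : ‖(x : ℂ)‖ = x := by
      rw [Complex.norm_real, Real.norm_eq_abs, abs_of_pos hx0]
    have h1 : (x : ℂ) ∈ ball (0:ℂ) ε := by
      rw [mem_ball_zero_iff, hnx]
      have := min_le_left ε r
      linarith
    have h2 : (x : ℂ) ∈ ball (0:ℂ) r := by
      rw [mem_ball_zero_iff, hnx]
      have := min_le_right ε r
      linarith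
    exact hne x h2 0 hR0 (by exact_mod_cast hx0.ne') (h x h1)
  obtain ⟨n, hn⟩ := ENat.ne_top_iff_exists.1 hfin
  exact tv_ind hr hR n A hA hne hn.symm

end Pool.Agent.Refl
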