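import Pool.Agent.Refl.ZeroFree
import Pool.Agent.Refl.TwoVar
import Pool.Agent.Refl.CaseA
import Pool.Agent.Refl.PhiAux

/-! Module PHI, part 2: local power series, walls. -/

namespace Pool.Agent.Refl
open Matrix Filter Topology Metric MeasureTheory

variable {G : Matrix (Fin 20) (Fin 20) ℤ}

/-- walls -/
def phiWall (G : Matrix (Fin 20) (Fin 20) ℤ) (τ : ℂ) (z : VC) : Prop :=
  ∃ (n b : ℤ) (p : VZ), 0 < qd G p ∧ qd G p ≤ 2 ∧ (b : ℂ) + n * τ + dot p z = 0

/-- height above which everything is good -/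
noncomputable def phiH (G : Matrix (Fin 20) (Fin 20) ℤ) (τ : ℂ) (z : VC) : ℝ :=
  bil G (imC z) (imC z) / (2 * τ.im) + τ.im + 1 / τ.im

lemma phi_good {τ ω : ℂ} {z : VC} (hτ : 0 < τ.im) (h : phiH G τ z < ω.im) :
    (τ, z, ω) ∈ Tube G ∧ 2 < 2 * τ.im * ω.im - bil G (imC z) (imC z) ∧
      bil G (imC z) (imC z) / (2 * τ.im) + τ.im < ω.im := by
  unfold phiH at h
  have h1 : 0 < 1 / τ.im := by positivity
  have h2 : 2 < 2 * τ.im * ω.im - bil G (imC z) (imC z) := by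
    have h3 : 2 * τ.im * (bil G (imC z) (imC z) / (2 * τ.im) + τ.im + 1 / τ.im) < 2 * τ.im * ω.im :=
      mul_lt_mul_of_pos_left h (by positivity)
    have h4 : 2 * τ.im * (bil G (imC z) (imC z) / (2 * τ.im) + τ.im + 1 / τ.im) =
        bil G (imC z) (imC z) + 2 * τ.im ^ 2 + 2 := by
      field_simp
    rw [h4] at h3
    nlinarith [sq_nonneg τ.im]
  refine ⟨⟨hτ, ?_⟩, h2, by linarith⟩
  show bil G (imC z) (imC z) < 2 * τ.im * ω.im
  linarith

lemma phi_f_ne (hG : EvenPos G) {k : ℤ} {f : ℂ → VC → ℂ → ℂ} (hf : TF G k f) {τ ω : ℂ} {z : VC}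
    (hτ : 0 < τ.im) (h : phiH G τ z < ω.im) (hw : ¬ phiWall G τ z) : f τ z ω ≠ 0 := by
  intro h0
  obtain ⟨h1, h2, h3⟩ := phi_good hτ h
  obtain ⟨b, n, p, a1, a2, a3⟩ := zero_m hG hf h1 h2 h3 h0
  exact hw ⟨n, b, p, a1, a2, a3⟩

lemma phi_HV_open : IsOpen HV := by
  unfold HV
  exact isOpen_lt continuous_const (Complex.continuous_im.comp continuous_fst)

lemma phi_bil_cont : Continuous (fun z : VC => bil G (imC z) (imC z)) := by
  unfold bil imC
  fun_prop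

lemma phi_H_cont : ContinuousOn (fun q : ℂ × VC => phiH G q.1 q.2) HV := by
  unfold phiH
  have h1 : Continuous (fun q : ℂ × VC => bil G (imC q.2) (imC q.2)) := phi_bil_cont.comp continuous_snd
  have h2 : Continuous (fun q : ℂ × VC => q.1.im) := Complex.continuous_im.comp continuous_fst
  apply ContinuousOn.add
  apply ContinuousOn.add
  · apply ContinuousOn.div h1.continuousOn (continuous_const.mul h2).continuousOn
    intro q hq
    have : 0 < q.1.im := hq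
    exact (mul_pos two_pos this).ne'
  · exact h2.continuousOn
  · apply ContinuousOn.div continuousOn_const h2.continuousOn
    intro q hq
    have : 0 < q.1.im := hq
    exact this.ne'

/-- locally uniform bounds for the Fourier–Jacobi coefficients, and the local power series. -/
lemma phi_local {k : ℤ} {f : ℂ → VC → ℂ → ℂ} (hf : TF G k f)
    {ψ : ℕ → ℂ → VC → ℂ} (hψ : FJ G k f ψ) (C : ℕ)
    (hC : ∀ m < C, ∀ τ z, 0 < τ.im → ψ m τ z = 0) (τ0 : ℂ) (z0 : VC) (h0 : 0 < τ0.im) :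
    ∃ ε > 0, ∃ R > 0, ∃ K : ℝ, ∀ τ z, dist ((τ, z) : ℂ × VC) (τ0, z0) < ε → 0 < τ.im ∧
      (∀ (m : ℕ) (s : ℂ), ‖s‖ < R → ‖ψ (C + m) τ z * s ^ m‖ ≤ K * (1 / 2) ^ m) ∧
      ∀ s : ℂ, s ≠ 0 → ‖s‖ < R → ∃ ω : ℂ, phiH G τ z < ω.im ∧
        HasSum (fun m : ℕ => ψ (C + m) τ z * s ^ m) (f τ z ω * (s ^ C)⁻¹) := by
  obtain ⟨ε, hε, hball⟩ : ∃ ε > 0, closedBall ((τ0, z0) : ℂ × VC) ε ⊆ HV :=
    Metric.nhds_basis_closedBall.mem_iff.1 (phi_HV_open.mem_nhds h0)
  have hcomp : IsCompact (closedBall ((τ0, z0) : ℂ × VC) ε) := isCompact_closedBall _ _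
  obtain ⟨Y0, hY0⟩ := hcomp.exists_bound_of_continuousOn (phi_H_cont (G := G) |>.mono hball)
  set Y1 : ℝ := Y0 + 1 with hY1
  have hHlt : ∀ τ z, ((τ, z) : ℂ × VC) ∈ closedBall ((τ0, z0) : ℂ × VC) ε → phiH G τ z < Y1 := by
    intro τ z h
    have := hY0 _ h
    simp only [Real.norm_eq_abs] at this
    linarith [le_abs_self (phiH G τ z)]
  -- bound for f
  have hK2 : IsCompact (closedBall ((τ0, z0) : ℂ × VC) ε ×ˢ Set.Icc (0:ℝ) 1) := hcomp.prod isCompact_Icc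
  have hfc : ContinuousOn (fun q : (ℂ × VC) × ℝ => f q.1.1 q.1.2 ((q.2 : ℂ) + Y1 * Complex.I))
      (closedBall ((τ0, z0) : ℂ × VC) ε ×ˢ Set.Icc (0:ℝ) 1) := by
    have h1 : Continuous (fun q : (ℂ × VC) × ℝ => ((q.1.1, q.1.2, (q.2 : ℂ) + Y1 * Complex.I) : ℂ × VC × ℂ)) := by
      fun_prop
    refine hf.gh.cont.comp h1.continuousOn ?_
    rintro ⟨⟨τ, z⟩, t⟩ ⟨hq, _⟩
    have hτ : 0 < τ.im := hball hq
    apply (phi_good hτ _).1
    simpa using hHlt τ z hq
  obtain ⟨M, hM⟩ := hK2.exists_bound_of_continuousOn hfc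
  set ρ : ℝ := Real.exp (-(2 * Real.pi * Y1)) with hρ
  have hρ0 : 0 < ρ := Real.exp_pos _
  -- key bound
  have hbound : ∀ τ z, ((τ, z) : ℂ × VC) ∈ closedBall ((τ0, z0) : ℂ × VC) ε → ∀ m : ℕ,
      ‖ψ m τ z‖ * ρ ^ m ≤ M := by
    intro τ z hq m
    have hτ : 0 < τ.im := hball hq
    have heq : ∀ t : ℝ, (ρ : ℂ) * e t = e ((t : ℂ) + Y1 * Complex.I) := by
      intro t
      rw [e_add, mul_comm]
      congr 1
      unfold e
      rw [hρ, Complex.ofReal_exp]
      congr 1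
      push_cast
      linear_combination (2 * (Real.pi : ℂ) * Y1) * Complex.I_mul_I.symm
    have htube : ∀ t : ℝ, (τ, z, (t : ℂ) + Y1 * Complex.I) ∈ Tube G := by
      intro t
      apply (phi_good hτ _).1
      simpa using hHlt τ z hq
    have hsum : ∀ t : ℝ, HasSum (fun m => ψ m τ z * ((ρ : ℂ) * e t) ^ m) (f τ z ((t : ℂ) + Y1 * Complex.I)) := by
      intro t
      have := hψ.sum _ _ _ (htube t)
      simp_rw [phi_e_nat_mul] at this
      rw [heq]; exact this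
    apply phi_coeff_bound (fun m => ψ m τ z) ρ M hρ0.le
    · have h1 := (hsum 0).summable.norm
      refine h1.congr fun m => ?_
      rw [norm_mul, norm_pow, norm_mul, phi_norm_e_real, mul_one, Complex.norm_real, Real.norm_of_nonneg hρ0.le]
    · intro t
      have h2 : e (t : ℂ) = e ((Int.fract t : ℝ) : ℂ) := by
        have h3 : (t : ℂ) = ((Int.fract t : ℝ) : ℂ) + ((⌊t⌋ : ℤ) : ℂ) := by
          have := Int.fract_add_floor t
          exact_mod_cast this.symm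
        rw [h3, e_add, e_int, mul_one]
      rw [h2, (hsum (Int.fract t)).tsum_eq]
      exact hM ((τ, z), Int.fract t) ⟨hq, ⟨Int.fract_nonneg _, (Int.fract_lt_one _).le⟩⟩
  refine ⟨ε, hε, ρ / 2, by positivity, M * (ρ ^ C)⁻¹, ?_⟩
  intro τ z hd
  have hq : ((τ, z) : ℂ × VC) ∈ closedBall ((τ0, z0) : ℂ × VC) ε := mem_closedBall.2 hd.le
  have hτ : 0 < τ.im := hball hq
  refine ⟨hτ, ?_, ?_⟩
  · intro m s hs
    rw [norm_mul, norm_pow]
    have h1 := hbound τ z hq (C + m)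
    have h2 : ‖s‖ ^ m ≤ (ρ / 2) ^ m := pow_le_pow_left₀ (norm_nonneg _) hs.le m
    calc ‖ψ (C + m) τ z‖ * ‖s‖ ^ m ≤ ‖ψ (C + m) τ z‖ * (ρ / 2) ^ m := by gcongr
      _ = (‖ψ (C + m) τ z‖ * ρ ^ (C + m)) * ((ρ ^ C)⁻¹ * (1 / 2) ^ m) := by
          rw [div_pow, pow_add, one_div, inv_pow]; field_simp
      _ ≤ M * ((ρ ^ C)⁻¹ * (1 / 2) ^ m) := by gcongr
      _ = M * (ρ ^ C)⁻¹ * (1 / 2) ^ m := by ring
  · intro s hs0 hs
    set ω : ℂ := Complex.log s / (2 * Real.pi * Complex.I) with hω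
    have heω : e ω = s := by
      unfold e
      rw [hω, mul_div_cancel₀ _ Complex.two_pi_I_ne_zero, Complex.exp_log hs0]
    have hωim : Y1 < ω.im := by
      have h1 := norm_e ω
      rw [heω] at h1
      have h2 : Real.exp (-(2 * Real.pi * ω.im)) < Real.exp (-(2 * Real.pi * Y1)) := by
        rw [← h1, ← hρ]; linarith
      rw [Real.exp_lt_exp] at h2
      have := Real.pi_pos
      nlinarith
    have hHω : phiH G τ z < ω.im := (hHlt τ z hq).trans hωim
    refine ⟨ω, hHω, ?_⟩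
    have h3 := hψ.sum _ _ _ (phi_good hτ hHω).1
    simp_rw [phi_e_nat_mul, heω] at h3
    have h4 := (hasSum_nat_add_iff' C).2 h3
    have h5 : ∑ i ∈ Finset.range C, ψ i τ z * s ^ i = 0 := by
      apply Finset.sum_eq_zero
      intro i hi
      rw [hC i (Finset.mem_range.1 hi) τ z hτ, zero_mul]
    rw [h5, sub_zero] at h4
    have h6 := h4.mul_right (s ^ C)⁻¹
    have h7 : (fun m : ℕ => ψ (C + m) τ z * s ^ m) =
        fun m => ψ (m + C) τ z * s ^ (m + C) * (s ^ C)⁻¹ := by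
      funext m
      rw [add_comm m C, pow_add]
      field_simp
    rw [h7]; exact h6

/-- local power series -/
noncomputable def phiA (ψ : ℕ → ℂ → VC → ℂ) (C : ℕ) (τ : ℂ) (z : VC) (s : ℂ) : ℂ :=
  ∑' m : ℕ, ψ (C + m) τ z * s ^ m

lemma phiA_zero (ψ : ℕ → ℂ → VC → ℂ) (C : ℕ) (τ : ℂ) (z : VC) : phiA ψ C τ z 0 = ψ C τ z := by
  unfold phiA
  rw [tsum_eq_single 0]
  · simp
  · intro m hm; simp [hm]

lemma phiA_GH {ψ : ℕ → ℂ → VC → ℂ} (hψ : ∀ m, GH HV (fun Z : ℂ × VC => ψ m Z.1 Z.2)) (C : ℕ)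
    {τ0 : ℂ} {z0 : VC} {r R K : ℝ} (a : ℂ) (v : VC)
    (h : ∀ w ∈ ball (0:ℂ) r, 0 < (τ0 + w * a).im ∧ ∀ (m : ℕ) (s : ℂ), ‖s‖ < R →
      ‖ψ (C + m) (τ0 + w * a) (z0 + w • v) * s ^ m‖ ≤ K * (1 / 2) ^ m) :
    GH (ball (0:ℂ) r ×ˢ ball (0:ℂ) R) (fun q : ℂ × ℂ => phiA ψ C (τ0 + q.1 * a) (z0 + q.1 • v) q.2) := by
  have hu : Summable (fun m : ℕ => K * (1 / 2 : ℝ) ^ m) :=
    (summable_geometric_of_lt_one (by norm_num) (by norm_num)).mul_left K
  refine ⟨?_, ?_⟩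
  · unfold phiA
    apply continuousOn_tsum (u := fun m : ℕ => K * (1 / 2 : ℝ) ^ m) _ hu
    · rintro m ⟨w, s⟩ ⟨hw, hs⟩
      exact (h w hw).2 m s (by simpa using hs)
    · intro m
      apply ContinuousOn.mul
      · have h1 : Continuous (fun q : ℂ × ℂ => ((τ0 + q.1 * a, z0 + q.1 • v) : ℂ × VC)) := by fun_prop
        exact (hψ (C + m)).cont.comp h1.continuousOn (fun q hq => (h q.1 hq.1).1)
      · fun_prop
  · rintro ⟨w, s⟩ ⟨hw, hs⟩ ⟨α, β⟩
    -- the line through (w, s)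
    set U : Set ℂ := {t : ℂ | ((w, s) : ℂ × ℂ) + t • ((α, β) : ℂ × ℂ) ∈ ball (0:ℂ) r ×ˢ ball (0:ℂ) R} with hU
    have hUo : IsOpen U := by
      apply (isOpen_ball.prod isOpen_ball).preimage
      fun_prop
    have h0 : (0 : ℂ) ∈ U := by
      simp only [hU, Set.mem_ofPred_eq, zero_smul, add_zero]
      exact ⟨hw, hs⟩
    have key : DifferentiableOn ℂ (fun t : ℂ => ∑' m : ℕ,
        ψ (C + m) (τ0 + (w + t * α) * a) (z0 + (w + t * α) • v) * (s + t * β) ^ m) U := by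
      apply Complex.differentiableOn_tsum_of_summable_norm (u := fun m : ℕ => K * (1 / 2 : ℝ) ^ m) hu _ hUo
      · intro m t ht
        exact (h (w + t * α) ht.1).2 m (s + t * β) (by simpa using ht.2)
      · intro m
        apply DifferentiableOn.mul
        · intro t ht
          have h2 := phi_GH_line (hψ (C + m)) ((τ0 + w * a, z0 + w • v) : ℂ × VC) ((α * a, α • v) : ℂ × VC) t (by
            have := (h (w + t * α) ht.1).1
            show 0 < (τ0 + w * a + t • (α * a)).im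
            convert this using 2
            simp only [smul_eq_mul]; ring)
          apply DifferentiableAt.differentiableWithinAt
          refine h2.congr_of_eventuallyEq (Eventually.of_forall fun t => ?_)
          simp only [Prod.mk_add_mk, Prod.smul_mk, smul_eq_mul]
          congr 1
          · ring
          · rw [add_smul, smul_smul, add_assoc]
        · fun_prop
    exact (key.differentiableAt (hUo.mem_nhds h0))

end Pool.Agent.Refl
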