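import Pool.Agent.Refl.PhiLoc

/-! Module PHI, part 3: walls are closed and isolated. -/

namespace Pool.Agent.Refl
open Matrix Filter Topology Metric MeasureTheory

variable {G : Matrix (Fin 20) (Fin 20) ℤ}

lemma phi_dot_cont (p : VZ) : Continuous (fun z : VC => dot p z) := by
  unfold dot; fun_prop

lemma phi_dot_add (p : VZ) (z w : VC) : dot p (z + w) = dot p z + dot p w := by
  unfold dot; simp [mul_add, Finset.sum_add_distrib]

lemma phi_dot_smul (p : VZ) (c : ℂ) (w : VC) : dot p (c • w) = c * dot p w := by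
  unfold dot
  rw [Finset.mul_sum]
  apply Finset.sum_congr rfl
  intro i _
  simp; ring

/-- the wall family of one `p` is closed -/
lemma phi_wall_one {τ0 : ℂ} {z0 : VC} (h0 : 0 < τ0.im) (p : VZ)
    (hn : ¬ ∃ (n b : ℤ), (b : ℂ) + n * τ0 + dot p z0 = 0) :
    ∀ᶠ q : ℂ × VC in 𝓝 (τ0, z0), ¬ ∃ (n b : ℤ), (b : ℂ) + n * q.1 + dot p q.2 = 0 := by
  -- real coordinates
  set u : ℂ × VC → ℝ := fun q => -(dot p q.2).im / q.1.im with hu
  set v : ℂ × VC → ℝ := fun q => -(dot p q.2).re - u q * q.1.re with hv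
  have hd : Continuous (fun q : ℂ × VC => dot p q.2) := (phi_dot_cont p).comp continuous_snd
  have huc : ContinuousAt u (τ0, z0) := by
    rw [hu]
    apply ContinuousAt.div
    · exact (Complex.continuous_im.comp hd).neg.continuousAt
    · exact (Complex.continuous_im.comp continuous_fst).continuousAt
    · exact h0.ne'
  have hvc : ContinuousAt v (τ0, z0) := by
    rw [hv]
    apply ContinuousAt.sub
    · exact (Complex.continuous_re.comp hd).neg.continuousAt
    · exact huc.mul (Complex.continuous_re.comp continuous_fst).continuousAt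
  have hequiv : ∀ q : ℂ × VC, 0 < q.1.im → ∀ n b : ℤ,
      ((b : ℂ) + n * q.1 + dot p q.2 = 0 ↔ u q = n ∧ v q = b) := by
    intro q hq n b
    have hq' : q.1.im ≠ 0 := hq.ne'
    constructor
    · intro h
      have h1 := congrArg Complex.im h
      have h2 := congrArg Complex.re h
      simp at h1 h2
      have h3 : u q = n := by
        rw [hu]; simp only; rw [div_eq_iff hq']; linarith
      refine ⟨h3, ?_⟩
      rw [hv]; simp only; rw [h3]; linarith
    · rintro ⟨h1, h2⟩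
      have h3 : -(dot p q.2).im = n * q.1.im := by
        rw [hu] at h1; simp only at h1; rwa [div_eq_iff hq'] at h1
      rw [hv] at h2; simp only at h2; rw [h1] at h2
      apply Complex.ext
      · simp; linarith
      · simp; linarith
  have hclosed : IsClosed (Set.range (Int.cast : ℤ → ℝ)) := Int.isClosedEmbedding_coe_real.isClosed_range
  have hpos : ∀ᶠ q : ℂ × VC in 𝓝 (τ0, z0), 0 < q.1.im :=
    (Complex.continuous_im.comp continuous_fst).continuousAt.eventually_mem (isOpen_Ioi.mem_nhds h0)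
  by_cases hu0 : u (τ0, z0) ∈ Set.range (Int.cast : ℤ → ℝ)
  · have hv0 : v (τ0, z0) ∉ Set.range (Int.cast : ℤ → ℝ) := by
      rintro ⟨b, hb⟩
      obtain ⟨n, hn'⟩ := hu0
      exact hn ⟨n, b, (hequiv (τ0, z0) h0 n b).2 ⟨hn'.symm, hb.symm⟩⟩
    have h1 : ∀ᶠ q : ℂ × VC in 𝓝 (τ0, z0), v q ∈ (Set.range (Int.cast : ℤ → ℝ))ᶜ :=
      hvc.eventually_mem (hclosed.isOpen_compl.mem_nhds hv0)
    filter_upwards [h1, hpos] with q hq hq2
    rintro ⟨n, b, h⟩
    exact hq ⟨b, ((hequiv q hq2 n b).1 h).2.symm⟩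
  · have h1 : ∀ᶠ q : ℂ × VC in 𝓝 (τ0, z0), u q ∈ (Set.range (Int.cast : ℤ → ℝ))ᶜ :=
      huc.eventually_mem (hclosed.isOpen_compl.mem_nhds hu0)
    filter_upwards [h1, hpos] with q hq hq2
    rintro ⟨n, b, h⟩
    exact hq ⟨n, ((hequiv q hq2 n b).1 h).1.symm⟩

lemma phi_P2_finite (hG : EvenPos G) : {p : VZ | 0 < qd G p ∧ qd G p ≤ 2}.Finite :=
  (finite_qd_le hG 2).subset (fun _ h => h.2)

/-- the set off the walls is open -/
lemma phi_off_open (hG : EvenPos G) {q : ℂ × VC} (h0 : 0 < q.1.im) (hn : ¬ phiWall G q.1 q.2) :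
    ∀ᶠ q' : ℂ × VC in 𝓝 q, 0 < q'.1.im ∧ ¬ phiWall G q'.1 q'.2 := by
  have hpos : ∀ᶠ q' : ℂ × VC in 𝓝 q, 0 < q'.1.im :=
    (Complex.continuous_im.comp continuous_fst).continuousAt.eventually_mem (isOpen_Ioi.mem_nhds h0)
  have h1 : ∀ p ∈ {p : VZ | 0 < qd G p ∧ qd G p ≤ 2},
      ∀ᶠ q' : ℂ × VC in 𝓝 q, ¬ ∃ (n b : ℤ), (b : ℂ) + n * q'.1 + dot p q'.2 = 0 := by
    intro p hp
    apply phi_wall_one h0
    rintro ⟨n, b, h⟩
    exact hn ⟨n, b, p, hp.1, hp.2, h⟩
  have h2 := ((phi_P2_finite hG).eventually_all (l := 𝓝 q)).2 h1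
  filter_upwards [hpos, h2] with q' h3 h4
  refine ⟨h3, ?_⟩
  rintro ⟨n, b, p, a1, a2, a3⟩
  exact h4 p ⟨a1, a2⟩ ⟨n, b, a3⟩

/-- walls are isolated in a transversal direction -/
lemma phi_isolated (hG : EvenPos G) {τ : ℂ} (hτ : 0 < τ.im) (z η : VC)
    (hη : ∀ p : VZ, 0 < qd G p → qd G p ≤ 2 → dot p η ≠ 0) :
    ∀ᶠ w : ℂ in 𝓝[≠] 0, ¬ phiWall G τ (z + w • η) := by
  have h1 : ∀ p ∈ {p : VZ | 0 < qd G p ∧ qd G p ≤ 2},
      ∀ᶠ w : ℂ in 𝓝[≠] 0, ¬ ∃ (n b : ℤ), (b : ℂ) + n * τ + dot p (z + w • η) = 0 := by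
    intro p hp
    have hpη := hη p hp.1 hp.2
    have hnorm : 0 < ‖dot p η‖ := norm_pos_iff.2 hpη
    set δ : ℝ := min τ.im 1 / (2 * ‖dot p η‖) with hδ
    have hδ0 : 0 < δ := by positivity
    -- at most one point in the ball
    have huniq : ∀ w1 ∈ ball (0:ℂ) δ, ∀ w2 ∈ ball (0:ℂ) δ,
        (∃ (n b : ℤ), (b : ℂ) + n * τ + dot p (z + w1 • η) = 0) →
        (∃ (n b : ℤ), (b : ℂ) + n * τ + dot p (z + w2 • η) = 0) → w1 = w2 := by
      rintro w1 hw1 w2 hw2 ⟨n1, b1, e1⟩ ⟨n2, b2, e2⟩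
      rw [phi_dot_add, phi_dot_smul] at e1 e2
      have e3 : (((b2 - b1 : ℤ) : ℂ)) + ((n2 - n1 : ℤ) : ℂ) * τ = (w1 - w2) * dot p η := by
        push_cast; linear_combination e2 - e1
      rw [mem_ball_zero_iff] at hw1 hw2
      have e4 : ‖(((b2 - b1 : ℤ) : ℂ)) + ((n2 - n1 : ℤ) : ℂ) * τ‖ < min τ.im 1 := by
        rw [e3, norm_mul]
        calc ‖w1 - w2‖ * ‖dot p η‖ < (2 * δ) * ‖dot p η‖ := by
              apply mul_lt_mul_of_pos_right _ hnorm
              calc ‖w1 - w2‖ ≤ ‖w1‖ + ‖w2‖ := norm_sub_le _ _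
                _ < 2 * δ := by linarith
          _ = min τ.im 1 := by rw [hδ]; field_simp
      have e5 : (n2 - n1 : ℤ) = 0 := by
        have h3 := (Complex.abs_im_le_norm _).trans_lt e4
        simp only [Complex.add_im, Complex.intCast_im, Complex.mul_im, Complex.intCast_re, zero_mul,
          add_zero, zero_add] at h3
        have h4 : |((n2 - n1 : ℤ) : ℝ) * τ.im| < τ.im := h3.trans_le (min_le_left _ _)
        rw [abs_mul, abs_of_pos hτ] at h4
        have h5 : |((n2 - n1 : ℤ) : ℝ)| < 1 := by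
          by_contra hcon
          have := not_lt.1 hcon
          nlinarith
        have h6 : |(n2 - n1 : ℤ)| < 1 := by exact_mod_cast h5
        exact Int.abs_lt_one_iff.1 h6
      have e6 : (b2 - b1 : ℤ) = 0 := by
        rw [e5] at e4
        simp only [Int.cast_zero, zero_mul, add_zero] at e4
        have h4 : ‖((b2 - b1 : ℤ) : ℂ)‖ < 1 := e4.trans_le (min_le_right _ _)
        rw [Complex.norm_intCast] at h4
        have h6 : |(b2 - b1 : ℤ)| < 1 := by exact_mod_cast h4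
        exact Int.abs_lt_one_iff.1 h6
      rw [e5, e6] at e3
      simp only [Int.cast_zero, zero_mul, add_zero] at e3
      have h7 := (mul_eq_zero.1 e3.symm).resolve_right hpη
      exact sub_eq_zero.1 h7
    rw [eventually_nhdsWithin_iff]
    by_cases hex : ∃ w1 ∈ ball (0:ℂ) δ, w1 ≠ 0 ∧ ∃ (n b : ℤ), (b : ℂ) + n * τ + dot p (z + w1 • η) = 0
    · obtain ⟨w1, hw1, hne, hW⟩ := hex
      have h8 : ball (0:ℂ) (min δ ‖w1‖) ∈ 𝓝 (0:ℂ) := ball_mem_nhds _ (lt_min hδ0 (norm_pos_iff.2 hne))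
      filter_upwards [h8] with w hw _ hcon
      rw [mem_ball_zero_iff, lt_min_iff] at hw
      have := huniq w (by rw [mem_ball_zero_iff]; exact hw.1) w1 hw1 hcon hW
      rw [this] at hw
      exact lt_irrefl _ hw.2
    · push Not at hex
      filter_upwards [ball_mem_nhds (0:ℂ) hδ0] with w hw hw0 hcon
      obtain ⟨n, b, h⟩ := hcon
      exact hex w hw hw0 n b h
  have h2 := ((phi_P2_finite hG).eventually_all (l := 𝓝[≠] (0:ℂ))).2 h1
  filter_upwards [h2] with w h4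
  rintro ⟨n, b, p, a1, a2, a3⟩
  exact h4 p ⟨a1, a2⟩ ⟨n, b, a3⟩

/-- a direction transversal to all walls -/
lemma phi_exists_eta (hG : EvenPos G) :
    ∃ η : VC, ∀ p : VZ, 0 < qd G p → qd G p ≤ 2 → dot p η ≠ 0 := by
  classical
  set P : Finset VZ := (phi_P2_finite hG).toFinset with hP
  set Q : VZ → Polynomial ℂ := fun p => ∑ i : Fin 20, Polynomial.C (p i : ℂ) * Polynomial.X ^ (i : ℕ) with hQ
  have hcoef : ∀ p i, (Q p).coeff ((i : Fin 20) : ℕ) = (p i : ℂ) := by
    intro p i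
    rw [hQ]
    simp only [Polynomial.finsetSum_coeff, Polynomial.coeff_C_mul, Polynomial.coeff_X_pow]
    rw [Finset.sum_eq_single i]
    · simp
    · intro j _ hj
      rw [if_neg, mul_zero]
      intro h; exact hj (Fin.ext h.symm)
    · intro h; exact absurd (Finset.mem_univ i) h
  have hQ0 : ∀ p ∈ P, Q p ≠ 0 := by
    intro p hp h0
    rw [hP, Set.Finite.mem_toFinset] at hp
    have : p = 0 := by
      funext i
      have := hcoef p i
      rw [h0] at this
      simpa using this.symm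
    rw [this] at hp
    have h1 : qd G (0 : VZ) = 0 := by unfold qd; simp
    have := hp.1
    rw [h1] at this
    exact lt_irrefl _ this
  have hprod : ∏ p ∈ P, Q p ≠ 0 := Finset.prod_ne_zero_iff.2 hQ0
  obtain ⟨x, hx⟩ : ∃ x : ℂ, (∏ p ∈ P, Q p).eval x ≠ 0 := by
    by_contra hcon
    push Not at hcon
    apply hprod
    apply Polynomial.funext
    intro x
    rw [hcon x]; simp
  rw [Polynomial.eval_prod, Finset.prod_ne_zero_iff] at hx
  refine ⟨fun i => x ^ (i : ℕ), fun p h1 h2 => ?_⟩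
  have h3 := hx p (by rw [hP, Set.Finite.mem_toFinset]; exact ⟨h1, h2⟩)
  have h4 : (Q p).eval x = dot p (fun i : Fin 20 => x ^ (i : ℕ)) := by
    rw [hQ]
    simp only [Polynomial.eval_finsetSum, Polynomial.eval_mul, Polynomial.eval_C, Polynomial.eval_pow,
      Polynomial.eval_X]
    rfl
  rwa [h4] at h3

end Pool.Agent.Refl
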