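import Pool.Agent.Refl.Slice
import Pool.Agent.Refl.Shift

/-! Module POLSUM: (4.1)-(4.4) of the proof. -/

namespace Pool.Agent.Refl
open Matrix Filter Topology MeasureTheory

variable {G : Matrix (Fin 20) (Fin 20) ℤ}

/-! ### integrals depending on a complex parameter -/

/-- an integral over a compact interval of a jointly continuous function, entire in the
parameter, is entire -/
lemma ps_param_entire (F : ℂ → ℝ → ℂ) (hF : Continuous (Function.uncurry F))
    (hd : ∀ t, Differentiable ℂ (fun w => F w t)) (a b : ℝ) :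
    Differentiable ℂ (fun w => ∫ t in a..b, F w t) := by
  intro w₀
  -- bound on a compact set
  obtain ⟨C, hC⟩ := (isCompact_closedBall w₀ (2:ℝ)).prod (isCompact_uIcc (a := a) (b := b)) |>.exists_bound_of_continuousOn hF.continuousOn
  have hbd : ∀ t ∈ Set.uIoc a b, ∀ w ∈ Metric.ball w₀ (1:ℝ),
      ‖deriv (fun w => F w t) w‖ ≤ C / 1 := by
    intro t ht w hw
    refine Complex.norm_deriv_le_of_forall_mem_sphere_norm_le one_pos
      (hd t).diffContOnCl ?_
    intro z hz
    have : ‖Function.uncurry F (z, t)‖ ≤ C := hC (z, t) ⟨?_, Set.uIoc_subset_uIcc ht⟩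
    · exact this
    · simp only [Metric.mem_closedBall, Metric.mem_sphere, Metric.mem_ball] at *
      calc dist z w₀ ≤ dist z w + dist w w₀ := dist_triangle _ _ _
        _ ≤ 2 := by linarith
  have key := intervalIntegral.hasDerivAt_integral_of_dominated_loc_of_deriv_le
    (μ := volume) (a := a) (b := b) (F := F) (F' := fun w t => deriv (fun w => F w t) w)
    (x₀ := w₀) (s := Metric.ball w₀ 1) (bound := fun _ => C / 1)
    (Metric.ball_mem_nhds w₀ one_pos)
    (Eventually.of_forall fun w => by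
      apply Continuous.aestronglyMeasurable
      exact hF.comp (by fun_prop : Continuous fun t : ℝ => (w, t)))
    (by
      apply Continuous.intervalIntegrable
      exact hF.comp (by fun_prop : Continuous fun t : ℝ => (w₀, t)))
    (by
      have h1 : Continuous (Function.uncurry (fun (t : ℝ) (w : ℂ) => F w t)) :=
        hF.comp (by fun_prop : Continuous fun p : ℝ × ℂ => (p.2, p.1))
      have h2 := measurable_deriv_with_param h1
      apply Measurable.aestronglyMeasurable
      exact h2.comp (by fun_prop : Measurable fun t : ℝ => (t, w₀)))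
    (Eventually.of_forall fun t ht w hw => hbd t ht w hw)
    intervalIntegrable_const
    (Eventually.of_forall fun t ht w hw => (hd t w).hasDerivAt)
  exact key.2.differentiableAt

/-- analytic continuation from an open subset of `ℝ²⁰` -/
lemma ps_extend {h : VC → ℂ}
    (hh : ∀ y v : VR, Differentiable ℂ (fun w : ℂ => h (ofR y + w • ofR v)))
    {O : Set VR} (hO : IsOpen O) (hne : O.Nonempty) (h0 : ∀ y ∈ O, h (ofR y) = 0) :
    ∀ y : VR, h (ofR y) = 0 := by
  intro y
  obtain ⟨y₀, hy₀⟩ := hne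
  have h1 : ∀ t : ℝ, ofR y₀ + (t:ℂ) • ofR (y - y₀) = ofR (y₀ + t • (y - y₀)) := by
    intro t
    funext i
    simp [ofR]
  have han : AnalyticOnNhd ℂ (fun w : ℂ => h (ofR y₀ + w • ofR (y - y₀))) Set.univ :=
    (hh y₀ (y - y₀)).differentiableOn.analyticOnNhd isOpen_univ
  have hev : ∀ᶠ t : ℝ in 𝓝 0, h (ofR y₀ + (t:ℂ) • ofR (y - y₀)) = 0 := by
    have hc : ContinuousAt (fun t : ℝ => y₀ + t • (y - y₀)) 0 := by fun_prop
    have : ∀ᶠ t : ℝ in 𝓝 0, y₀ + t • (y - y₀) ∈ O := by
      apply hc.eventually_mem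
      simp only [zero_smul, add_zero]
      exact hO.mem_nhds hy₀
    filter_upwards [this] with t ht
    rw [h1]
    exact h0 _ ht
  have hfr : ∃ᶠ w : ℂ in 𝓝[≠] 0, h (ofR y₀ + w • ofR (y - y₀)) = 0 := by
    have h2 : ∃ᶠ t : ℝ in 𝓝[≠] 0, h (ofR y₀ + (t:ℂ) • ofR (y - y₀)) = 0 :=
      (hev.filter_mono nhdsWithin_le_nhds).frequently
    have h3 : Tendsto (fun t : ℝ => (t:ℂ)) (𝓝[≠] 0) (𝓝[≠] 0) := by
      apply tendsto_nhdsWithin_of_tendsto_nhds_of_eventually_within
      · exact (Complex.continuous_ofReal.tendsto' 0 0 (by simp)).mono_left nhdsWithin_le_nhds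
      · filter_upwards [self_mem_nhdsWithin] with t ht
        simpa using ht
    exact h3.frequently h2
  have h4 := han.eqOn_zero_of_preconnected_of_frequently_eq_zero isPreconnected_univ
    (Set.mem_univ 0) hfr
  have h5 := h4 (Set.mem_univ (1:ℂ))
  simp only [one_smul, Pi.zero_apply] at h5
  have h6 : ofR y₀ + ofR (y - y₀) = ofR y := by
    funext i
    simp [ofR]
  rwa [h6] at h5

/-! ### characters of `ℝ²⁰` -/

/-- the character `y ↦ e(η.y)` -/
noncomputable def psChar (η : VR) : Multiplicative VR →* ℂ where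
  toFun y := e (∑ l, η l * (Multiplicative.toAdd y) l)
  map_one' := by simp [e_zero]
  map_mul' x y := by
    rw [← e_add]
    congr 1
    simp [mul_add, Finset.sum_add_distrib]

lemma psChar_apply (η y : VR) : psChar η (Multiplicative.ofAdd y) = e (∑ l, η l * y l) := rfl

lemma psChar_injective : Function.Injective psChar := by
  intro η η' h
  by_contra hne
  obtain ⟨l, hl⟩ := Function.ne_iff.mp hne
  have hd : η l - η' l ≠ 0 := sub_ne_zero.mpr hl
  have h1 := congrArg (fun f => f (Multiplicative.ofAdd (Pi.single l (1 / (2 * (η l - η' l))) : VR))) h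
  simp only [psChar_apply] at h1
  have h2 : ∀ ζ : VR, (∑ i, (ζ i : ℂ) * ((Pi.single l (1 / (2 * (η l - η' l))) : VR) i : ℂ))
      = ((ζ l / (2 * (η l - η' l)) : ℝ) : ℂ) := by
    intro ζ
    rw [Finset.sum_eq_single l]
    · push_cast
      simp only [Pi.single_eq_same]
      push_cast
      ring
    · intro b _ hb
      simp [Pi.single_eq_of_ne hb]
    · simp
  rw [h2, h2] at h1
  have h3 : e (((η l / (2 * (η l - η' l)) : ℝ) : ℂ) - ((η' l / (2 * (η l - η' l)) : ℝ) : ℂ)) = 1 := by
    rw [sub_eq_add_neg, e_add, e_neg, h1]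
    exact mul_inv_cancel₀ (e_ne_zero _)
  have h4 : (((η l / (2 * (η l - η' l)) : ℝ) : ℂ) - ((η' l / (2 * (η l - η' l)) : ℝ) : ℂ)) = ((1/2 : ℝ) : ℂ) := by
    rw [← Complex.ofReal_sub]
    congr 1
    field_simp
  rw [h4] at h3
  have h5 : e ((1/2 : ℝ) : ℂ) = -1 := by
    unfold e
    have : (2 * (Real.pi:ℂ) * Complex.I * ((1/2 : ℝ) : ℂ)) = Real.pi * Complex.I := by
      push_cast; ring
    rw [this, Complex.exp_pi_mul_I]
  rw [h5] at h3
  norm_num at h3

/-- linear independence of characters -/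
lemma ps_indep {ι : Type} [Fintype ι] (C : ι → ℂ) (η : ι → VR)
    (h : ∀ y : VR, ∑ i, C i * e (∑ l, η i l * y l) = 0) (η₀ : VR) :
    ∑ i, (if η i = η₀ then C i else 0) = 0 := by
  classical
  have hli := (linearIndependent_monoidHom (Multiplicative VR) ℂ).comp psChar psChar_injective
  rw [linearIndependent_iff'] at hli
  by_cases hmem : η₀ ∈ Finset.univ.image η
  · have := hli (Finset.univ.image η) (fun ζ => ∑ i, if η i = ζ then C i else 0) ?_ η₀ hmem
    · exact this
    · funext y
      have hy := h (Multiplicative.toAdd y)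
      simp only [Finset.sum_apply, Pi.smul_apply, Function.comp, smul_eq_mul, Pi.zero_apply]
      refine Eq.trans ?_ hy
      have : ∀ ζ : VR, psChar ζ y = e (∑ l, ζ l * (Multiplicative.toAdd y) l) := fun ζ => rfl
      simp only [this, Finset.sum_mul]
      rw [Finset.sum_comm]
      apply Finset.sum_congr rfl
      intro i _
      rw [Finset.sum_eq_single (η i)]
      · simp
      · intro ζ _ hζ
        rw [if_neg (Ne.symm hζ), zero_mul]
      · intro hn
        exact absurd (Finset.mem_image_of_mem η (Finset.mem_univ i)) hn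
  · apply Finset.sum_eq_zero
    intro i _
    rw [if_neg]
    intro hi
    exact hmem (hi ▸ Finset.mem_image_of_mem η (Finset.mem_univ i))

/-- a sum of growing exponentials which grows at most linearly vanishes -/
lemma ps_expsum {ι : Type} [Fintype ι] (C : ι → ℂ) (μ : ι → ℝ) (hμ : ∀ i, 0 < μ i)
    (a K t₁ : ℝ) (ha : 0 < a)
    (h : ∀ T : ℝ, t₁ < T → ‖∑ i, C i * (Real.exp (a * μ i * T) : ℂ)‖ ≤ K * (1 + T)) (μ₀ : ℝ) :
    ∑ i, (if μ i = μ₀ then C i else 0) = 0 := by
  classical
  by_contra hne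
  set D : ℝ → ℂ := fun m => ∑ i, (if μ i = m then C i else 0) with hD
  set S := (Finset.univ.image μ).filter (fun m => D m ≠ 0) with hS
  have hSne : S.Nonempty := by
    refine ⟨μ₀, ?_⟩
    rw [hS, Finset.mem_filter]
    refine ⟨?_, hne⟩
    by_contra hn
    apply hne
    apply Finset.sum_eq_zero
    intro i _
    rw [if_neg]
    intro hi
    exact hn (hi ▸ Finset.mem_image_of_mem μ (Finset.mem_univ i))
  set M := S.max' hSne with hM
  have hMS : M ∈ S := S.max'_mem hSne
  have hDM : D M ≠ 0 := (Finset.mem_filter.mp hMS).2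
  have hM0 : 0 < M := by
    obtain ⟨i, _, hi⟩ := Finset.mem_image.mp (Finset.mem_filter.mp hMS).1
    rw [← hi]; exact hμ i
  have hgroup : ∀ T : ℝ, (∑ i, C i * (Real.exp (a * μ i * T) : ℂ)) * (Real.exp (-(a * M * T)) : ℂ)
      = ∑ m ∈ S, D m * (Real.exp (a * (m - M) * T) : ℂ) := by
    intro T
    have h1 : (∑ m ∈ S, D m * (Real.exp (a * (m - M) * T) : ℂ)) =
        ∑ m ∈ Finset.univ.image μ, D m * (Real.exp (a * (m - M) * T) : ℂ) := by
      rw [hS, Finset.sum_filter]
      apply Finset.sum_congr rfl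
      intro m _
      by_cases hm : D m = 0
      · simp [hm]
      · simp [hm]
    rw [h1]
    simp only [hD, Finset.sum_mul]
    rw [Finset.sum_comm]
    apply Finset.sum_congr rfl
    intro i _
    rw [Finset.sum_eq_single (μ i)]
    · rw [if_pos rfl, mul_assoc, ← Complex.ofReal_mul, ← Real.exp_add]
      congr 3
      ring
    · intro ζ _ hζ
      rw [if_neg (Ne.symm hζ), zero_mul]
    · intro hn
      exact absurd (Finset.mem_image_of_mem μ (Finset.mem_univ i)) hn
  have hlim1 : Tendsto (fun T : ℝ => ∑ m ∈ S, D m * (Real.exp (a * (m - M) * T) : ℂ)) atTop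
      (𝓝 (D M)) := by
    have : D M = ∑ m ∈ S, (if m = M then D m else 0) := by
      rw [Finset.sum_ite_eq' S M, if_pos hMS]
    rw [this]
    apply tendsto_finsetSum
    intro m hm
    by_cases hmM : m = M
    · subst hmM
      simp
    · rw [if_neg hmM]
      have hlt : m - M < 0 := by
        have := S.le_max' m hm
        have := lt_of_le_of_ne this hmM
        linarith
      have h2 : Tendsto (fun T : ℝ => Real.exp (a * (m - M) * T)) atTop (𝓝 0) := by
        apply Real.tendsto_exp_atBot.comp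
        exact tendsto_id.const_mul_atTop_of_neg (mul_neg_of_pos_of_neg ha hlt)
      have h3 : Tendsto (fun T : ℝ => (Real.exp (a * (m - M) * T) : ℂ)) atTop (𝓝 0) := by
        have := (Complex.continuous_ofReal.tendsto 0).comp h2
        rw [Complex.ofReal_zero] at this
        exact this
      simpa using h3.const_mul (D m)
  have hlim2 : Tendsto (fun T : ℝ => ∑ m ∈ S, D m * (Real.exp (a * (m - M) * T) : ℂ)) atTop
      (𝓝 0) := by
    have hb : Tendsto (fun T : ℝ => K * (1 + T) * Real.exp (-(a * M * T))) atTop (𝓝 0) := by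
      have h1 : Tendsto (fun T : ℝ => T * Real.exp (-(a * M) * T)) atTop (𝓝 0) := by
        have := Real.tendsto_pow_mul_exp_neg_atTop_nhds_zero 1
        have h2 : Tendsto (fun T : ℝ => (a * M) * T) atTop atTop :=
          tendsto_id.const_mul_atTop (mul_pos ha hM0)
        have h3 := (this.comp h2).const_mul ((a * M)⁻¹)
        simp only [mul_zero] at h3
        refine h3.congr ?_
        intro T
        simp only [Function.comp, pow_one]
        have : a * M ≠ 0 := (mul_pos ha hM0).ne'
        rw [neg_mul]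
        field_simp
      have h4 : Tendsto (fun T : ℝ => Real.exp (-(a * M) * T)) atTop (𝓝 0) := by
        apply Real.tendsto_exp_atBot.comp
        exact tendsto_id.const_mul_atTop_of_neg (by linarith [mul_pos ha hM0])
      have h5 := (h4.add h1).const_mul K
      simp only [add_zero, mul_zero] at h5
      refine h5.congr ?_
      intro T
      rw [← neg_mul (a * M) T]
      ring
    refine squeeze_zero_norm' ?_ hb
    filter_upwards [eventually_gt_atTop t₁] with T hT
    rw [← hgroup, norm_mul, Complex.norm_real, Real.norm_eq_abs, Real.abs_exp]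
    exact mul_le_mul_of_nonneg_right (h T hT) (Real.exp_pos _).le
  exact hDM (tendsto_nhds_unique hlim1 hlim2)


/-! ### Fourier coefficients on the cube -/

lemma ps_cube_meas : MeasurableSet cube := measurableSet_Icc

lemma ps_e_continuous : Continuous e := by
  unfold e
  fun_prop

lemma ps_e_differentiable : Differentiable ℂ e := by
  unfold e
  fun_prop

lemma ps_int_e (β T : ℝ) (P : ℕ) (hβ : ∃ k : ℤ, (P : ℝ) * β = k) :
    ∫ t in (0:ℝ)..P, e (β * (t + T * Complex.I)) = if β = 0 then (P : ℂ) else 0 := by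
  by_cases h0 : β = 0
  · rw [if_pos h0, h0]
    simp [e_zero]
  · rw [if_neg h0]
    obtain ⟨k, hk⟩ := hβ
    have hc : 2 * (Real.pi:ℂ) * Complex.I * β ≠ 0 := by
      simp [Real.pi_ne_zero, h0]
    have h1 : ∀ t : ℝ, e (β * (t + T * Complex.I)) =
        Complex.exp ((2 * (Real.pi:ℂ) * Complex.I * β) * t) * e (β * (T * Complex.I)) := by
      intro t
      rw [mul_add, e_add]
      congr 1
      unfold e
      congr 1
      ring
    simp_rw [h1]
    rw [intervalIntegral.integral_mul_const, integral_exp_mul_complex hc]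
    have h2 : Complex.exp ((2 * (Real.pi:ℂ) * Complex.I * β) * ((P:ℝ):ℂ)) = 1 := by
      rw [Complex.exp_eq_one_iff]
      refine ⟨k, ?_⟩
      have : ((P:ℝ):ℂ) * β = k := by exact_mod_cast hk
      calc (2 * (Real.pi:ℂ) * Complex.I * β) * ((P:ℝ):ℂ)
          = 2 * (Real.pi:ℂ) * Complex.I * (((P:ℝ):ℂ) * β) := by ring
        _ = _ := by rw [this]; ring
    rw [h2]
    simp

lemma ps_cube_restrict : (volume : Measure VR).restrict cube =
    Measure.pi (fun _ : Fin 20 => (volume : Measure ℝ).restrict (Set.Icc 0 1)) := by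
  have : cube = Set.univ.pi (fun _ : Fin 20 => Set.Icc (0:ℝ) 1) := by
    rw [cube, ← Set.pi_univ_Icc]
    rfl
  rw [this, volume_pi, Measure.restrict_pi_pi]

/-- orthogonality -/
lemma ps_cube_zero (q : VZ) (hq : q ≠ 0) : ∫ y in cube, e (∑ l, (q l : ℂ) * (y l : ℂ)) = 0 := by
  obtain ⟨l, hl⟩ := Function.ne_iff.mp hq
  have h1 : ∀ y : VR, e (∑ l, (q l : ℂ) * (y l : ℂ)) = ∏ l, e ((q l : ℂ) * (y l : ℂ)) := by
    intro y
    unfold e
    rw [← Complex.exp_sum, Finset.mul_sum]
  simp_rw [h1]
  rw [ps_cube_restrict, integral_fintype_prod_eq_prod (f := fun l (t : ℝ) => e ((q l : ℂ) * (t : ℂ)))]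
  apply Finset.prod_eq_zero (Finset.mem_univ l)
  rw [integral_Icc_eq_integral_Ioc, ← intervalIntegral.integral_of_le zero_le_one]
  have h2 := ps_int_e (q l : ℝ) 0 1 ⟨q l, by simp⟩
  have h3 : ((q l : ℤ) : ℝ) ≠ 0 := by exact_mod_cast hl
  rw [if_neg h3] at h2
  simpa using h2

lemma ps_cube_one : ∫ _y in cube, (1:ℂ) = 1 := by
  have h1 : (volume : Measure VR).real cube = 1 := by
    rw [Measure.real, cube, Real.volume_Icc_pi]
    simp
  rw [setIntegral_const, h1, one_smul]

lemma ps_integrable_cube {F : VR → ℂ} (hF : Continuous F) : IntegrableOn F cube volume :=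
  hF.continuousOn.integrableOn_compact isCompact_Icc

/-- the Fourier coefficients of a periodic trigonometric polynomial -/
lemma ps_coeff {ι : Type} [Fintype ι] (C : ι → ℂ) (η : ι → VR) (A : VR → ℂ)
    (hA : ∀ y : VR, A y = ∑ i, C i * e (∑ l, (η i l : ℂ) * (y l : ℂ)))
    (hper : ∀ (y : VR) (X : VZ), A (y + toR X) = A y) (p : VZ) :
    ∫ y in cube, A y * e (-(dot p (ofR y))) = ∑ i, (if η i = toR p then C i else 0) := by
  classical
  set D : VR → ℂ := fun ζ => ∑ i, (if η i = ζ then C i else 0) with hD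
  -- periodicity
  have h1 : ∀ ζ : VR, D ζ ≠ 0 → ∀ X : VZ, e (∑ l, (ζ l : ℂ) * (X l : ℂ)) = 1 := by
    intro ζ hζ X
    have h2 := ps_indep (fun i => C i * (e (∑ l, (η i l : ℂ) * (X l : ℂ)) - 1)) η (by
      intro y
      have h3 := hper y X
      rw [hA, hA] at h3
      rw [← sub_eq_zero, ← Finset.sum_sub_distrib] at h3
      refine Eq.trans (Finset.sum_congr rfl ?_) h3
      intro i _
      have h4 : (∑ l, (η i l : ℂ) * ((y + toR X) l : ℂ)) =
          (∑ l, (η i l : ℂ) * (y l : ℂ)) + ∑ l, (η i l : ℂ) * (X l : ℂ) := by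
        rw [← Finset.sum_add_distrib]
        apply Finset.sum_congr rfl
        intro l _
        simp [toR]
        ring
      rw [h4, e_add]
      ring) ζ
    have h5 : D ζ * (e (∑ l, (ζ l : ℂ) * (X l : ℂ)) - 1) = 0 := by
      rw [← h2, hD, Finset.sum_mul]
      apply Finset.sum_congr rfl
      intro i _
      split_ifs with hi
      · rw [hi]
      · rw [zero_mul]
    rcases mul_eq_zero.mp h5 with h | h
    · exact absurd h hζ
    · exact sub_eq_zero.mp h
  have h2 : ∀ ζ : VR, D ζ ≠ 0 → ∃ q : VZ, toR q = ζ := by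
    intro ζ hζ
    have h3 : ∀ l, ∃ k : ℤ, (k:ℝ) = ζ l := by
      intro l
      have h4 := h1 ζ hζ (Pi.single l 1)
      have h5 : (∑ i, (ζ i : ℂ) * (((Pi.single l 1 : VZ) i : ℤ) : ℂ)) = ζ l := by
        rw [Finset.sum_eq_single l]
        · simp
        · intro b _ hb
          simp [Pi.single_eq_of_ne hb]
        · simp
      rw [h5] at h4
      unfold e at h4
      rw [Complex.exp_eq_one_iff] at h4
      obtain ⟨k, hk⟩ := h4
      refine ⟨k, ?_⟩
      have h6 : (2 * (Real.pi:ℂ) * Complex.I) ≠ 0 := Complex.two_pi_I_ne_zero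
      have h7 : ((ζ l : ℝ) : ℂ) = k := by
        apply mul_left_cancel₀ h6
        rw [hk]; ring
      exact_mod_cast h7.symm
    choose q hq using h3
    exact ⟨q, funext hq⟩
  have h3 : ∀ y : VR, A y * e (-(dot p (ofR y))) =
      ∑ ζ ∈ Finset.univ.image η, D ζ * e (∑ l, ((ζ l : ℂ) - p l) * (y l : ℂ)) := by
    intro y
    rw [hA, Finset.sum_mul]
    simp only [hD, Finset.sum_mul]
    rw [Finset.sum_comm]
    apply Finset.sum_congr rfl
    intro i _
    rw [Finset.sum_eq_single (η i)]
    · rw [if_pos rfl, mul_assoc, ← e_add]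
      congr 2
      simp only [dot, ofR, sub_mul, Finset.sum_sub_distrib]
      ring
    · intro ζ _ hζ
      rw [if_neg (Ne.symm hζ), zero_mul]
    · intro hn
      exact absurd (Finset.mem_image_of_mem η (Finset.mem_univ i)) hn
  simp_rw [h3]
  rw [integral_finsetSum]
  · have h4 : ∀ ζ ∈ Finset.univ.image η, ∫ y in cube, D ζ * e (∑ l, ((ζ l : ℂ) - p l) * (y l : ℂ)) =
        if ζ = toR p then D ζ else 0 := by
      intro ζ _
      rw [integral_const_mul]
      split_ifs with hζ
      · have : ∀ y : VR, e (∑ l, ((ζ l : ℂ) - p l) * (y l : ℂ)) = 1 := by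
          intro y
          rw [hζ]
          simp [toR, e_zero]
        simp_rw [this]
        rw [ps_cube_one, mul_one]
      · by_cases hDζ : D ζ = 0
        · rw [hDζ, zero_mul]
        · obtain ⟨q, hq⟩ := h2 ζ hDζ
          have h5 := ps_cube_zero (q - p) (by
            intro h
            apply hζ
            rw [← hq, sub_eq_zero.mp h])
          have h6 : ∀ y : VR, e (∑ l, ((ζ l : ℂ) - p l) * (y l : ℂ)) =
              e (∑ l, (((q - p) l : ℤ) : ℂ) * (y l : ℂ)) := by
            intro y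
            rw [← hq]
            simp [toR]
          simp_rw [h6]
          rw [h5, mul_zero]
    rw [Finset.sum_congr rfl h4, Finset.sum_ite_eq']
    split_ifs with hm
    · rfl
    · symm
      apply Finset.sum_eq_zero
      intro i _
      rw [if_neg]
      intro hi
      exact hm (hi ▸ Finset.mem_image_of_mem η (Finset.mem_univ i))
  · intro ζ _
    apply ps_integrable_cube
    have := ps_e_continuous
    fun_prop


/-! ### the averaged function -/

noncomputable def psg (φ : ℂ → VC → ℂ) (x : VR) (α : ℝ) (z : VC) (τ : ℂ) : ℂ :=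
  φ τ (τ • ofR x + z) * e (α * τ)

noncomputable def psA (φ : ℂ → VC → ℂ) (x : VR) (α : ℝ) (P : ℕ) (z : VC) (T : ℝ) : ℂ :=
  ∫ t in (0:ℝ)..P, psg φ x α z (t + T * Complex.I)

section
variable {φ : ℂ → VC → ℂ}

lemma ps_line (gh : GH HV (fun Z : ℂ × VC => φ Z.1 Z.2)) (x : VR) (α : ℝ) (z : VC) (τ : ℂ)
    (hτ : 0 < τ.im) : DifferentiableAt ℂ (psg φ x α z) τ := by
  have h1 := gh.line (τ, τ • ofR x + z) hτ (1, ofR x)
  have h2 : DifferentiableAt ℂ (fun σ : ℂ => σ - τ) τ := by fun_prop
  have h3 : DifferentiableAt ℂ (fun σ : ℂ => φ σ (σ • ofR x + z)) τ := by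
    have h4 : DifferentiableAt ℂ (fun w : ℂ => φ ((τ, τ • ofR x + z) + w • ((1:ℂ), ofR x)).1
      ((τ, τ • ofR x + z) + w • ((1:ℂ), ofR x)).2) (τ - τ) := by
      rw [sub_self]; exact h1
    have h5 := DifferentiableAt.comp (f := fun σ : ℂ => σ - τ) τ h4 h2
    refine h5.congr_of_eventuallyEq (Eventually.of_forall fun σ => ?_)
    simp only [Function.comp, Prod.fst_add, Prod.snd_add, Prod.smul_fst, Prod.smul_snd, smul_eq_mul,
      mul_one]
    congr 1
    · ring
    · rw [sub_smul]; abel
  unfold psg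
  exact h3.mul ((ps_e_differentiable.comp (by fun_prop : Differentiable ℂ fun σ : ℂ => (α:ℂ) * σ)) τ)

/-- independence of the height -/
lemma psA_height (gh : GH HV (fun Z : ℂ × VC => φ Z.1 Z.2)) (x : VR) (α : ℝ) (P : ℕ) (z : VC)
    (hper : ∀ τ : ℂ, 0 < τ.im → psg φ x α z (τ + P) = psg φ x α z τ) {T T' : ℝ} (hT : 0 < T)
    (hT' : 0 < T') : psA φ x α P z T = psA φ x α P z T' := by
  have h := Complex.integral_boundary_rect_eq_zero_of_differentiableOn (psg φ x α z)
    (T * Complex.I) (P + T' * Complex.I) (by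
      intro τ hτ
      apply DifferentiableAt.differentiableWithinAt
      apply ps_line gh
      rw [Complex.mem_reProdIm] at hτ
      have h1 := hτ.2
      simp at h1
      rw [Set.mem_uIcc] at h1
      rcases h1 with h1 | h1
      · linarith [h1.1]
      · linarith [h1.1])
  simp only [Complex.mul_re, Complex.ofReal_re, Complex.I_re, mul_zero, Complex.ofReal_im,
    Complex.I_im, mul_one, sub_self, Complex.add_re, Complex.natCast_re, add_zero, Complex.mul_im,
    zero_add, Complex.add_im, Complex.natCast_im, Complex.ofReal_zero] at h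
  have h2 : ∫ y in T..T', psg φ x α z (((P:ℝ):ℂ) + y * Complex.I) =
      ∫ y in T..T', psg φ x α z (y * Complex.I) := by
    apply intervalIntegral.integral_congr
    intro y hy
    have hy0 : 0 < y := by
      rw [Set.mem_uIcc] at hy
      rcases hy with h1 | h1
      · linarith [h1.1]
      · linarith [h1.1]
    have := hper (y * Complex.I) (by simpa using hy0)
    simp only
    rw [← this]
    congr 1
    push_cast
    ring
  simp only [Complex.ofReal_natCast] at h h2
  rw [h2] at h
  unfold psA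
  linear_combination h

lemma psg_cont (gh : GH HV (fun Z : ℂ × VC => φ Z.1 Z.2)) (x : VR) (α : ℝ) {E : Type*}
    [TopologicalSpace E] (u : E → VC) (v : E → ℂ) (hu : Continuous u) (hv : Continuous v)
    (hpos : ∀ a, 0 < (v a).im) : Continuous (fun a => psg φ x α (u a) (v a)) := by
  unfold psg
  have h1 : Continuous (fun a => φ (v a) (v a • ofR x + u a)) := by
    have := gh.cont.comp_continuous (f := fun a => (v a, v a • ofR x + u a)) (by fun_prop)
      (fun a => hpos a)
    exact this
  exact h1.mul (ps_e_continuous.comp (by fun_prop))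

lemma ofR_continuous : Continuous ofR := by
  unfold ofR
  fun_prop

lemma psA_entire (gh : GH HV (fun Z : ℂ × VC => φ Z.1 Z.2)) (x : VR) (α : ℝ) (P : ℕ) (y v : VC) :
    Differentiable ℂ (fun w : ℂ => psA φ x α P (y + w • v) 1) := by
  unfold psA
  apply ps_param_entire
  · apply psg_cont gh x α (fun p : ℂ × ℝ => y + p.1 • v)
      (fun p : ℂ × ℝ => (p.2 : ℂ) + (1:ℝ) * Complex.I)
    · fun_prop
    · fun_prop
    · intro a
      simp
  · intro t w₀
    set τ : ℂ := t + (1:ℝ) * Complex.I with hτ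
    have hτ0 : 0 < τ.im := by rw [hτ]; simp
    have h1 := gh.line (τ, τ • ofR x + (y + w₀ • v)) hτ0 (0, v)
    have h2 : DifferentiableAt ℂ (fun w : ℂ => w - w₀) w₀ := by fun_prop
    have h4 : DifferentiableAt ℂ (fun w : ℂ => φ ((τ, τ • ofR x + (y + w₀ • v)) + w • ((0:ℂ), v)).1
      ((τ, τ • ofR x + (y + w₀ • v)) + w • ((0:ℂ), v)).2) (w₀ - w₀) := by
      rw [sub_self]; exact h1
    have h5 := DifferentiableAt.comp (f := fun w : ℂ => w - w₀) w₀ h4 h2
    have h3 : DifferentiableAt ℂ (fun w : ℂ => φ τ (τ • ofR x + (y + w • v))) w₀ := by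
      refine h5.congr_of_eventuallyEq (Eventually.of_forall fun w => ?_)
      simp only [Function.comp, Prod.fst_add, Prod.snd_add, Prod.smul_fst, Prod.smul_snd,
        smul_eq_mul, mul_zero, add_zero]
      congr 1
      rw [sub_smul]; abel
    unfold psg
    exact h3.mul_const _

lemma psA_continuous (gh : GH HV (fun Z : ℂ × VC => φ Z.1 Z.2)) (x : VR) (α : ℝ) (P : ℕ) :
    Continuous (fun y : VR => psA φ x α P (ofR y) 1) := by
  unfold psA
  apply intervalIntegral.continuous_parametric_intervalIntegral_of_continuous'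
  apply psg_cont gh x α (fun p : VR × ℝ => ofR p.1)
      (fun p : VR × ℝ => (p.2 : ℂ) + (1:ℝ) * Complex.I)
  · exact ofR_continuous.comp continuous_fst
  · fun_prop
  · intro a
    simp

lemma ps_dot_line (p : VZ) (x y : VR) (τ : ℂ) :
    dot p (τ • ofR x + ofR y) = τ * (dot p x : ℝ) + dot p (ofR y) := by
  simp only [dot, ofR, Pi.add_apply, Pi.smul_apply, smul_eq_mul, Complex.ofReal_sum,
    Complex.ofReal_mul, Complex.ofReal_intCast, Finset.mul_sum, mul_add, Finset.sum_add_distrib]
  congr 1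
  apply Finset.sum_congr rfl
  intro i _
  ring

/-- `fc` as the Fourier coefficient of the averaged function -/
lemma ps_fc (gh : GH HV (fun Z : ℂ × VC => φ Z.1 Z.2))
    (hT : ∀ τ z, 0 < τ.im → φ (τ + 1) z = φ τ z)
    (hP : ∀ τ z (x : VZ), 0 < τ.im → φ τ (z + toC x) = φ τ z)
    (n : ℤ) (p : VZ) (x : VR) (P : ℕ) (hP0 : 0 < P) (α : ℝ) (hα : α = -(n + dot p x)) :
    fc φ n p = (1 / (P : ℂ)) * ∫ y in cube, psA φ x α P (ofR y) 1 * e (-(dot p (ofR y))) := by
  rw [fc_shift gh hT hP n p x P hP0 1 one_pos]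
  congr 1
  have h1 : ∀ (t : ℝ) (y : VR), φ (t + (1:ℝ) * Complex.I) ((t + (1:ℝ) * Complex.I : ℂ) • ofR x + ofR y) *
        e (-(n * (t + (1:ℝ) * Complex.I) + dot p ((t + (1:ℝ) * Complex.I : ℂ) • ofR x + ofR y))) =
        psg φ x α (ofR y) (t + (1:ℝ) * Complex.I) * e (-(dot p (ofR y))) := by
    intro t y
    unfold psg
    rw [mul_assoc, ← e_add, ps_dot_line]
    congr 2
    rw [hα]
    push_cast
    ring
  simp_rw [h1]
  have hcont : Continuous (Function.uncurry fun (t : ℝ) (y : VR) =>
      psg φ x α (ofR y) (t + (1:ℝ) * Complex.I) * e (-(dot p (ofR y)))) := by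
    apply Continuous.mul
    · apply psg_cont gh x α (fun q : ℝ × VR => ofR q.2)
        (fun q : ℝ × VR => (q.1 : ℂ) + (1:ℝ) * Complex.I)
      · exact ofR_continuous.comp continuous_snd
      · fun_prop
      · intro a
        simp
    · apply ps_e_continuous.comp
      unfold dot ofR
      fun_prop
  rw [intervalIntegral.integral_of_le (by positivity), integral_integral_swap]
  · apply setIntegral_congr_fun ps_cube_meas
    intro y _
    simp only
    rw [integral_mul_const, ← intervalIntegral.integral_of_le (by positivity)]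
    rfl
  · rw [Measure.prod_restrict]
    apply (hcont.continuousOn.integrableOn_compact
      ((isCompact_Icc (a := (0:ℝ)) (b := (P:ℝ))).prod (isCompact_Icc (a := (0:VR)) (b := 1)))).mono_set
    exact Set.prod_mono Set.Ioc_subset_Icc_self subset_rfl

/-- the limit argument for (4.1) -/
lemma ps_limit (g : ℂ → ℂ) (hg : ∀ τ : ℂ, 0 < τ.im → ContinuousAt g τ) {ι : Type} [Fintype ι]
    (C : ι → ℂ) (β : ι → ℝ) (P : ℕ) (hβ : ∀ i, ∃ k : ℤ, (P : ℝ) * β i = k) (A : ℂ) (t₁ K ν : ℝ)
    (ht₁ : 0 ≤ t₁) (hν : 0 < ν)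
    (hA : ∀ T : ℝ, 0 < T → A = ∫ t in (0:ℝ)..P, g (t + T * Complex.I))
    (hb : ∀ τ : ℂ, t₁ < τ.im → ‖g τ - ∑ i, C i * e (β i * τ)‖ ≤
      K * (1 + τ.im) * Real.exp (-(2 * Real.pi * ν * τ.im))) :
    A = (P : ℂ) * ∑ i, (if β i = 0 then C i else 0) := by
  rw [← sub_eq_zero, ← norm_le_zero_iff]
  have hlim : Tendsto (fun T : ℝ => (K * (1 + T) * Real.exp (-(2 * Real.pi * ν * T))) * P) atTop
      (𝓝 0) := by
    have ha : 0 < 2 * Real.pi * ν := by positivity
    have h1 : Tendsto (fun T : ℝ => T * Real.exp (-(2 * Real.pi * ν) * T)) atTop (𝓝 0) := by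
      have := Real.tendsto_pow_mul_exp_neg_atTop_nhds_zero 1
      have h2 : Tendsto (fun T : ℝ => (2 * Real.pi * ν) * T) atTop atTop :=
        tendsto_id.const_mul_atTop ha
      have h3 := (this.comp h2).const_mul ((2 * Real.pi * ν)⁻¹)
      simp only [mul_zero] at h3
      refine h3.congr ?_
      intro T
      simp only [Function.comp, pow_one]
      rw [neg_mul]
      field_simp
    have h4 : Tendsto (fun T : ℝ => Real.exp (-(2 * Real.pi * ν) * T)) atTop (𝓝 0) := by
      apply Real.tendsto_exp_atBot.comp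
      exact tendsto_id.const_mul_atTop_of_neg (by linarith)
    have h5 := ((h4.add h1).const_mul K).mul_const (P:ℝ)
    simp only [add_zero, mul_zero, zero_mul] at h5
    refine h5.congr ?_
    intro T
    rw [← neg_mul (2 * Real.pi * ν) T]
    ring
  refine ge_of_tendsto hlim ?_
  filter_upwards [eventually_gt_atTop t₁] with T hT
  have hT0 : 0 < T := lt_of_le_of_lt ht₁ hT
  have hcg : Continuous (fun t : ℝ => g (t + T * Complex.I)) := by
    rw [continuous_iff_continuousAt]
    intro t
    have h1 := hg (t + T * Complex.I) (by simpa using hT0)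
    exact ContinuousAt.comp (f := fun t : ℝ => (t:ℂ) + T * Complex.I) h1 (by fun_prop)
  have hce : ∀ i, Continuous (fun t : ℝ => C i * e (β i * (t + T * Complex.I))) := by
    intro i
    have := ps_e_continuous
    fun_prop
  have h1 : A - (P : ℂ) * ∑ i, (if β i = 0 then C i else 0) =
      ∫ t in (0:ℝ)..P, (g (t + T * Complex.I) - ∑ i, C i * e (β i * (t + T * Complex.I))) := by
    rw [intervalIntegral.integral_sub (hcg.intervalIntegrable _ _)
      ((continuous_finsetSum _ fun i _ => hce i).intervalIntegrable _ _),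
      ← hA T hT0, intervalIntegral.integral_finsetSum (fun i _ => (hce i).intervalIntegrable _ _)]
    congr 1
    rw [Finset.mul_sum]
    apply Finset.sum_congr rfl
    intro i _
    rw [intervalIntegral.integral_const_mul, ps_int_e _ _ _ (hβ i)]
    split_ifs
    · ring
    · ring
  rw [h1]
  have h2 := intervalIntegral.norm_integral_le_of_norm_le_const (a := 0) (b := (P:ℝ))
    (f := fun t : ℝ => g (t + T * Complex.I) - ∑ i, C i * e (β i * (t + T * Complex.I)))
    (C := K * (1 + T) * Real.exp (-(2 * Real.pi * ν * T))) (by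
      intro t _
      have := hb (t + T * Complex.I) (by simpa using hT)
      simpa using this)
  rw [sub_zero, abs_of_nonneg (by positivity)] at h2
  exact h2

end


/-! ### assembly -/

lemma ps_T_nat {φ : ℂ → VC → ℂ} (hT : ∀ τ z, 0 < τ.im → φ (τ + 1) z = φ τ z) (P : ℕ) (τ : ℂ)
    (z : VC) (hτ : 0 < τ.im) : φ (τ + P) z = φ τ z := by
  induction P with
  | zero => simp
  | succ P ih =>
    have : τ + ((P + 1 : ℕ) : ℂ) = (τ + P) + 1 := by push_cast; ring
    rw [this, hT _ _ (by simpa using hτ), ih]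

lemma ps_e_mul_int (α : ℝ) (P : ℕ) (h : ∃ k : ℤ, (P : ℝ) * α = k) : e ((α : ℂ) * P) = 1 := by
  obtain ⟨k, hk⟩ := h
  have : (α : ℂ) * P = k := by
    rw [mul_comm]
    exact_mod_cast hk
  rw [this, e_int]

lemma psg_periodic {φ : ℂ → VC → ℂ} (hT : ∀ τ z, 0 < τ.im → φ (τ + 1) z = φ τ z)
    (hP : ∀ τ z (x : VZ), 0 < τ.im → φ τ (z + toC x) = φ τ z) (x : VR) (α : ℝ) (P : ℕ)
    (hx : ∀ l, ∃ k : ℤ, (P : ℝ) * x l = k) (hα : ∃ k : ℤ, (P : ℝ) * α = k) (z : VC) (τ : ℂ)
    (hτ : 0 < τ.im) : psg φ x α z (τ + P) = psg φ x α z τ := by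
  choose X hX using hx
  unfold psg
  have h1 : (τ + P) • ofR x + z = (τ • ofR x + z) + toC X := by
    funext l
    have : (P : ℂ) * (x l : ℂ) = X l := by exact_mod_cast hX l
    simp only [Pi.add_apply, Pi.smul_apply, smul_eq_mul, ofR, toC]
    rw [← this]
    ring
  rw [h1, hP _ _ _ (by simpa using hτ), ps_T_nat hT P τ _ hτ, mul_add, e_add,
    ps_e_mul_int α P hα, mul_one]

/-- (4.3) and (4.4) of the proof. -/
theorem polar_sum (hG : EvenPos G) {k : ℤ} {f : ℂ → VC → ℂ → ℂ} (hf : TF G k f)
    {ψ : ℕ → ℂ → VC → ℂ} (hψ : FJ G k f ψ) {C j : ℕ} {φ : ℂ → VC → ℂ}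
    (hφ : PhiData G ψ C j φ) (n₀ : ℤ) (p₀ : VZ) (hc : fc φ n₀ p₀ ≠ 0)
    (hD : 2 * (j : ℝ) * n₀ - qd G p₀ < 0) :
    ∃ (ι : Type) (_ : Fintype ι) (θ : ι → ℝ) (c : ι → ℕ), Nonempty ι ∧ (∀ i, 0 < c i) ∧
      (∀ i, 0 ≤ θ i ∧ θ i < 1) ∧ Function.Injective θ ∧
      (∀ i, ∃ (b n m : ℤ) (p : VZ), 0 < m ∧ Allowed G 0 b n m p ∧
        (j : ℤ) * n = m * n₀ ∧ (j : ℤ) • p = m • p₀ ∧ θ i = (b : ℝ) / m) ∧
      ∀ k : ℕ, 0 < k → k < j → ∑ i, (c i : ℂ) * e (k * θ i) = 0 := by
  classical
  have hj : 0 < j := hφ.hj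
  have hjR : (0:ℝ) < j := by exact_mod_cast hj
  have hjR' : (j:ℝ) ≠ 0 := hjR.ne'
  have hdet : 0 < G.det := det_pos hG
  obtain ⟨Dn, hDn⟩ : ∃ Dn : ℕ, (Dn : ℤ) = G.det := ⟨G.det.toNat, Int.toNat_of_nonneg hdet.le⟩
  have hDnR : ((Dn : ℕ) : ℝ) = (G.det : ℝ) := by exact_mod_cast hDn
  have hDn0 : 0 < Dn := by
    have : (0:ℤ) < Dn := by rw [hDn]; exact hdet
    exact_mod_cast this
  set x : VR := -((j:ℝ)⁻¹ • ginv G p₀) with hxdef
  have hgl : ∀ l, ∃ z : ℤ, (Dn : ℝ) * ginv G p₀ l = z := by
    intro l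
    obtain ⟨z, hz⟩ := bd_rat hG (Pi.single l 1) p₀
    refine ⟨z, ?_⟩
    rw [← hz, ← dot_ginv hG, hDnR]
    congr 1
    unfold dot
    rw [Finset.sum_eq_single l]
    · simp
    · intro b _ hb
      simp [Pi.single_eq_of_ne hb]
    · simp
  have hdotx : ∀ p : VZ, dot p x = -(bd G p p₀ / j) := by
    intro p
    rw [← dot_ginv hG, hxdef]
    simp only [dot, Pi.neg_apply, Pi.smul_apply, smul_eq_mul, Finset.sum_div,
      ← Finset.sum_neg_distrib]
    apply Finset.sum_congr rfl
    intro l _
    field_simp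
  have hxx : bil G x x = qd G p₀ / (j:ℝ)^2 := by
    rw [← bil_ginv_ginv hG, hxdef]
    simp only [bil, Pi.neg_apply, Pi.smul_apply, smul_eq_mul, Finset.sum_div]
    apply Finset.sum_congr rfl
    intro i _
    apply Finset.sum_congr rfl
    intro l _
    field_simp
  have hqd : bd G p₀ p₀ = qd G p₀ := bd_self p₀
  set ν : ℝ := -(2 * (j : ℝ) * n₀ - qd G p₀) / (2 * j) with hν
  have hν0 : 0 < ν := by
    rw [hν]
    apply div_pos <;> linarith
  set α : ℝ := -(n₀ + dot p₀ x) with hα
  have hαν : α = j * bil G x x / 2 + ν := by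
    rw [hα, hν, hdotx, hxx, hqd]
    field_simp
    ring
  have hxrat : ∃ N : ℕ, 0 < N ∧ ∀ l, ∃ k : ℤ, (N : ℝ) * x l = k := by
    refine ⟨j * Dn, by positivity, fun l => ?_⟩
    obtain ⟨z, hz⟩ := hgl l
    refine ⟨-z, ?_⟩
    push_cast
    rw [← hz, hxdef]
    simp only [Pi.neg_apply, Pi.smul_apply, smul_eq_mul]
    field_simp
  obtain ⟨ι, inst, μ, ξ, θ, hS, Y, hYres, hY⟩ := slice hG hf hψ hφ x hxrat
  choose b n m p hm hal hμ hξ hθ using hS.rep
  -- the period
  obtain ⟨Mi, hMi⟩ : ∃ Mi : ι → ℕ, ∀ i, (Mi i : ℤ) = m i :=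
    ⟨fun i => (m i).toNat, fun i => Int.toNat_of_nonneg (hm i).le⟩
  have hMi0 : ∀ i, 0 < Mi i := by
    intro i
    have : (0:ℤ) < Mi i := by rw [hMi]; exact hm i
    exact_mod_cast this
  have hMiR : ∀ i, ((Mi i : ℕ) : ℝ) = (m i : ℝ) := fun i => by exact_mod_cast hMi i
  set P₀ : ℕ := 2 * j ^ 2 * Dn with hP₀
  set P : ℕ := P₀ * ∏ i, Mi i with hPdef
  have hP0 : 0 < P := by
    have : 0 < ∏ i, Mi i := Finset.prod_pos fun i _ => hMi0 i
    positivity
  have hint : ∀ r : ℝ, (∃ z : ℤ, (P₀ : ℝ) * r = z) → ∃ z : ℤ, (P : ℝ) * r = z := by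
    rintro r ⟨z, hz⟩
    refine ⟨z * ∏ i, (Mi i : ℤ), ?_⟩
    rw [hPdef]
    push_cast
    rw [← hz]
    ring
  obtain ⟨zq, hzq⟩ := bd_rat hG p₀ p₀
  rw [hqd, ← hDnR] at hzq
  have hPx : ∀ l, ∃ z : ℤ, (P : ℝ) * x l = z := by
    intro l
    apply hint
    obtain ⟨z, hz⟩ := hgl l
    refine ⟨-(2 * j * z), ?_⟩
    push_cast
    rw [← hz, hxdef, hP₀]
    simp only [Pi.neg_apply, Pi.smul_apply, smul_eq_mul]
    push_cast
    field_simp
  have hPν : ∃ z : ℤ, (P : ℝ) * ν = z := by
    apply hint
    refine ⟨j * (zq - 2 * j * Dn * n₀), ?_⟩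
    push_cast
    rw [← hzq, hν, hP₀]
    push_cast
    field_simp
    ring
  have hPα : ∃ z : ℤ, (P : ℝ) * α = z := by
    apply hint
    refine ⟨2 * j * zq - 2 * j ^ 2 * Dn * n₀, ?_⟩
    push_cast
    rw [← hzq, hα, hP₀, hdotx, hqd]
    push_cast
    field_simp
    ring
  have hPμ : ∀ i, ∃ z : ℤ, (P : ℝ) * μ i = z := by
    intro i
    obtain ⟨z, hz⟩ := bd_rat hG (p i) p₀
    rw [← hDnR] at hz
    refine ⟨(∏ k ∈ Finset.univ.erase i, (Mi k : ℤ)) *
      (-(2 * j ^ 2 * Dn * n i - 2 * j * z + m i * zq)), ?_⟩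
    have h1 : (P : ℝ) = P₀ * ((Mi i : ℝ) * ∏ k ∈ Finset.univ.erase i, (Mi k : ℝ)) := by
      rw [hPdef]
      push_cast
      rw [← Finset.mul_prod_erase _ (fun k => (Mi k : ℝ)) (Finset.mem_univ i)]
    have hmi : (m i : ℝ) ≠ 0 := by
      have := (hm i).ne'
      exact_mod_cast this
    rw [h1, hμ i, hP₀, hMiR, hdotx, hxx]
    push_cast
    rw [← hz, ← hzq]
    field_simp
    ring
  set β : ι → ℝ := fun i => ν - j * μ i with hβ
  have hPβ : ∀ i, ∃ z : ℤ, (P : ℝ) * β i = z := by
    intro i
    obtain ⟨z₁, h₁⟩ := hPν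
    obtain ⟨z₂, h₂⟩ := hPμ i
    refine ⟨z₁ - j * z₂, ?_⟩
    rw [hβ]
    push_cast
    rw [← h₁, ← h₂]
    ring
  have gh := hφ.jac.gh
  have hT := hφ.jac.T
  have hPer := hφ.jac.P
  have hper := psg_periodic hT hPer x α P hPx hPα
  -- the closed sets
  set F₁ : (ι → ℕ) → VC → ℂ := fun c z =>
    (P : ℂ) * ∑ i, (if β i = 0 then (1 / (j : ℂ)) * (c i : ℂ) * e (j * (∑ l, ξ i l * z l + θ i)) else 0)
    with hF₁
  set F₂ : (ι → ℕ) → ℕ → ℝ → VC → ℂ := fun c k μ₀ z =>
    ∑ i, (if μ i = μ₀ then (c i : ℂ) * e (k * (∑ l, ξ i l * z l + θ i)) else 0)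
    with hF₂
  have hF₁c : ∀ c, Continuous fun y : VR => F₁ c (ofR y) := by
    intro c
    rw [hF₁]
    simp only
    apply Continuous.mul continuous_const
    apply continuous_finsetSum
    intro i _
    split_ifs
    · apply Continuous.mul continuous_const
      apply ps_e_continuous.comp
      unfold ofR
      fun_prop
    · exact continuous_const
  have hF₂c : ∀ c k μ₀, Continuous fun y : VR => F₂ c k μ₀ (ofR y) := by
    intro c k μ₀
    rw [hF₂]
    simp only
    apply continuous_finsetSum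
    intro i _
    split_ifs
    · apply Continuous.mul continuous_const
      apply ps_e_continuous.comp
      unfold ofR
      fun_prop
    · exact continuous_const
  set Z : (ι → ℕ) → Set VR := fun c =>
    {y : VR | psA φ x α P (ofR y) 1 = F₁ c (ofR y)} ∩
      ⋂ k : ℕ, ⋂ μ₀ : ℝ, ⋂ (_ : 0 < k ∧ k < j), {y : VR | F₂ c k μ₀ (ofR y) = 0} with hZ
  have hZc : ∀ c, IsClosed (Z c) := by
    intro c
    apply IsClosed.inter
    · exact isClosed_eq (psA_continuous gh x α P) (hF₁c c)
    · apply isClosed_iInter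
      intro k
      apply isClosed_iInter
      intro μ₀
      apply isClosed_iInter
      intro _
      exact isClosed_eq (hF₂c c k μ₀) continuous_const
  have hcast : ∀ (i : ι) (y : VR), ((∑ l, ξ i l * y l : ℝ) : ℂ) =
      ∑ l, (ξ i l : ℂ) * (ofR y) l := by
    intro i y
    simp [ofR]
  have hYZ : Y ⊆ ⋃ c, Z c := by
    intro y hy
    obtain ⟨c, K, t₁, ht₁, hb⟩ := hY y hy
    rw [Set.mem_iUnion]
    refine ⟨c, ?_, ?_⟩
    · -- (4.1)
      show psA φ x α P (ofR y) 1 = F₁ c (ofR y)
      have hlim := ps_limit (psg φ x α (ofR y))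
        (fun τ hτ => (ps_line gh x α (ofR y) τ hτ).continuousAt)
        (fun i => (1 / (j : ℂ)) * (c i : ℂ) * e (j * (∑ l, ξ i l * y l + θ i))) β P hPβ
        (psA φ x α P (ofR y) 1) t₁ K ν ht₁ hν0
        (fun T hT0 => psA_height gh x α P (ofR y) (fun τ hτ => hper (ofR y) τ hτ) one_pos hT0)
        (by
          intro τ hτ
          have h1 := (hb τ hτ).2
          have h2 : psg φ x α (ofR y) τ - ∑ i, (1 / (j : ℂ)) * (c i : ℂ) *
              e (j * (∑ l, ξ i l * y l + θ i)) * e (β i * τ) =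
              (φ τ (τ • ofR x + ofR y) * e (j * (bil G x x : ℝ) * τ / 2) -
            (1 / (j : ℂ)) * ∑ i, (c i : ℂ) * e (j * (-(μ i * τ) + ∑ l, ξ i l * y l + θ i))) *
              e (ν * τ) := by
            rw [sub_mul]
            congr 1
            · unfold psg
              rw [mul_assoc, ← e_add, hαν]
              congr 2
              push_cast
              ring
            · rw [mul_assoc, Finset.sum_mul, Finset.mul_sum]
              apply Finset.sum_congr rfl
              intro i _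
              rw [mul_assoc, mul_assoc, ← e_add, mul_assoc, ← e_add]
              congr 3
              rw [hβ]
              push_cast
              ring
          rw [h2, norm_mul, norm_e]
          have h3 : (((ν : ℝ) : ℂ) * τ).im = ν * τ.im := by simp
          rw [h3, ← mul_assoc (2 * Real.pi)]
          exact mul_le_mul_of_nonneg_right h1 (Real.exp_pos _).le)
      rw [hlim, hF₁]
      simp only [hcast]
    · simp only [Set.mem_iInter]
      intro k μ₀ hk
      show F₂ c k μ₀ (ofR y) = 0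
      have h2 := ps_expsum (fun i => (c i : ℂ) * e (k * (∑ l, ξ i l * y l + θ i))) μ hS.pos
        (2 * Real.pi * k) K t₁ (by have := hk.1; positivity) (by
          intro T hT
          have h1 := (hb (T * Complex.I) (by simpa using hT)).1 k hk.1 hk.2
          have h3 : ((T:ℂ) * Complex.I).im = T := by simp
          rw [h3] at h1
          refine le_trans (le_of_eq ?_) h1
          congr 1
          apply Finset.sum_congr rfl
          intro i _
          have h4 : e (k * (-(μ i * (T * Complex.I)) + ∑ l, ξ i l * y l + θ i)) =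
              e (k * (∑ l, ξ i l * y l + θ i)) * e (-(k * (μ i * (T * Complex.I)))) := by
            rw [← e_add]
            congr 1
            ring
          rw [h4, ← mul_assoc]
          congr 1
          unfold e
          rw [Complex.ofReal_exp]
          congr 1
          push_cast
          have hI : Complex.I * Complex.I = -1 := Complex.I_mul_I
          linear_combination (2 * (Real.pi:ℂ) * k * μ i * T) * hI) μ₀
      rw [hF₂]
      simp only [hcast] at h2 ⊢
      exact h2
  obtain ⟨Y', hY'sub, hY'G, hY'd⟩ := mem_residual.mp hYres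
  have hdense := hY'G.dense_iUnion_interior_of_closed hY'd hZc (hY'sub.trans hYZ)
  obtain ⟨y₁, hy₁⟩ := hdense.nonempty
  obtain ⟨c, hy₁c⟩ := Set.mem_iUnion.mp hy₁
  -- analytic continuation
  have hFlin : ∀ (k : ℕ) (i : ι) (y v : VR), Differentiable ℂ (fun w : ℂ =>
      e (k * (∑ l, ξ i l * (ofR y + w • ofR v) l + θ i))) := by
    intro k i y v
    apply ps_e_differentiable.comp
    simp only [Pi.add_apply, Pi.smul_apply, smul_eq_mul]
    fun_prop
  have hE₁ : ∀ y : VR, psA φ x α P (ofR y) 1 = F₁ c (ofR y) := by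
    intro y
    have := ps_extend (h := fun z => psA φ x α P z 1 - F₁ c z) (by
      intro y v
      apply Differentiable.sub
      · exact psA_entire gh x α P (ofR y) (ofR v)
      · rw [hF₁]
        apply Differentiable.const_mul
        apply Differentiable.fun_sum
        intro i _
        split_ifs
        · apply Differentiable.const_mul
          exact hFlin j i y v
        · exact differentiable_const _) isOpen_interior ⟨y₁, hy₁c⟩ (by
      intro y hy
      have := (interior_subset hy).1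
      exact sub_eq_zero.mpr this) y
    exact sub_eq_zero.mp this
  have hE₂ : ∀ (k : ℕ) (μ₀ : ℝ), 0 < k → k < j → ∀ y : VR, F₂ c k μ₀ (ofR y) = 0 := by
    intro k μ₀ hk hkj
    apply ps_extend (h := F₂ c k μ₀) (by
      intro y v
      rw [hF₂]
      apply Differentiable.fun_sum
      intro i _
      split_ifs
      · apply Differentiable.const_mul
        exact hFlin k i y v
      · exact differentiable_const _) isOpen_interior ⟨y₁, hy₁c⟩
    intro y hy
    have := (interior_subset hy).2
    simp only [Set.mem_iInter] at this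
    exact this k μ₀ ⟨hk, hkj⟩
  -- Fourier coefficient
  have hsum : ∀ (k : ℕ) (i : ι) (y : VR), e (k * (∑ l, (ξ i l : ℂ) * (ofR y) l + θ i)) =
      e (k * θ i) * e (∑ l, (((k:ℝ) * ξ i l : ℝ) : ℂ) * (y l : ℂ)) := by
    intro k i y
    rw [← e_add]
    congr 1
    rw [mul_add, Finset.mul_sum, add_comm]
    congr 1
    apply Finset.sum_congr rfl
    intro l _
    simp only [ofR]
    push_cast
    ring
  have hcoef := ps_coeff
    (fun i => (P : ℂ) * (if β i = 0 then (1 / (j : ℂ)) * (c i : ℂ) * e (j * θ i) else 0))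
    (fun i l => (j:ℝ) * ξ i l) (fun y => psA φ x α P (ofR y) 1)
    (by
      intro y
      rw [hE₁ y, hF₁]
      simp only
      rw [Finset.mul_sum]
      apply Finset.sum_congr rfl
      intro i _
      split_ifs
      · rw [hsum]
        ring
      · ring)
    (by
      intro y X
      unfold psA
      apply intervalIntegral.integral_congr
      intro t _
      simp only [psg]
      have : ofR (y + toR X) = ofR y + toC X := by
        funext l
        simp [ofR, toR, toC]
      rw [this, ← add_assoc, hPer _ _ _ (by simp)]) p₀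
  have hfc := ps_fc gh hT hPer n₀ p₀ x P hP0 α hα
  rw [hcoef] at hfc
  have hne : (∑ i, if (fun l => (j:ℝ) * ξ i l) = toR p₀ then
      (P : ℂ) * (if β i = 0 then (1 / (j : ℂ)) * (c i : ℂ) * e (j * θ i) else 0) else 0) ≠ 0 := by
    intro h0
    rw [h0, mul_zero] at hfc
    exact hc hfc
  obtain ⟨i₀, _, hi₀⟩ := Finset.exists_ne_zero_of_sum_ne_zero hne
  have hi₁ : (fun l => (j:ℝ) * ξ i₀ l) = toR p₀ := by
    by_contra h
    rw [if_neg h] at hi₀
    exact hi₀ rfl
  rw [if_pos hi₁] at hi₀
  have hi₂ : β i₀ = 0 := by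
    by_contra h
    rw [if_neg h, mul_zero] at hi₀
    exact hi₀ rfl
  rw [if_pos hi₂] at hi₀
  have hi₃ : 0 < c i₀ := by
    rcases Nat.eq_zero_or_pos (c i₀) with h | h
    · rw [h] at hi₀
      simp at hi₀
    · exact h
  refine ⟨{i : ι // β i = 0 ∧ (fun l => (j:ℝ) * ξ i l) = toR p₀ ∧ 0 < c i}, inferInstance,
    fun i => θ i.1, fun i => c i.1, ⟨⟨i₀, hi₂, hi₁, hi₃⟩⟩, fun i => i.2.2.2,
    fun i => hS.range i.1, ?_, ?_, ?_⟩
  · rintro ⟨i, hi⟩ ⟨i', hi'⟩ h
    simp only at h
    apply Subtype.ext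
    apply hS.inj
    simp only
    have h1 : μ i = μ i' := by
      have a1 := hi.1
      have a2 := hi'.1
      rw [hβ] at a1 a2
      simp only at a1 a2
      have : (j:ℝ) * μ i = j * μ i' := by linarith
      exact mul_left_cancel₀ hjR' this
    have h2 : ξ i = ξ i' := by
      funext l
      have a1 := congrFun hi.2.1 l
      have a2 := congrFun hi'.2.1 l
      exact mul_left_cancel₀ hjR' (a1.trans a2.symm)
    rw [h1, h2, h]
  · rintro ⟨i, hi⟩
    refine ⟨b i, n i, m i, p i, hm i, hal i, ?_, ?_, hθ i⟩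
    · -- j n = m n₀
      have hmi : (m i : ℝ) ≠ 0 := by
        have := (hm i).ne'
        exact_mod_cast this
      have a1 := hi.1
      rw [hβ] at a1
      simp only at a1
      have hp : (j:ℝ) • toR (p i) = (m i : ℝ) • toR p₀ := by
        funext l
        have a2 := congrFun hi.2.1 l
        simp only [Pi.smul_apply, smul_eq_mul]
        rw [← a2, hξ i l]
        simp only [toR]
        field_simp
      have hbd : (j:ℝ) * bd G (p i) p₀ = m i * qd G p₀ := by
        have h1 := congrArg (fun v : VR => ∑ l, v l * ginv G p₀ l) hp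
        simp only [Pi.smul_apply, smul_eq_mul, toR, mul_assoc, ← Finset.mul_sum] at h1
        rw [← hqd, ← dot_ginv hG, ← dot_ginv hG]
        exact h1
      have hbd' : bd G (p i) p₀ = m i * qd G p₀ / j := by
        field_simp
        linarith
      rw [hμ i, hdotx, hxx, hν, hbd'] at a1
      have h2 : ((j:ℤ) * n i : ℝ) = m i * n₀ := by
        field_simp at a1
        have h3 : (j:ℝ) ≠ 0 := hjR'
        push_cast
        nlinarith [a1]
      exact_mod_cast h2
    · funext l
      have a2 := congrFun hi.2.1 l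
      rw [hξ i l] at a2
      have hmi : (m i : ℝ) ≠ 0 := by
        have := (hm i).ne'
        exact_mod_cast this
      simp only [toR] at a2
      field_simp at a2
      simp only [Pi.smul_apply, smul_eq_mul]
      exact_mod_cast a2
  · intro k hk hkj
    have h1 := ps_indep (fun i => if μ i = ν / j then (c i : ℂ) * e (k * θ i) else 0)
      (fun i l => (k:ℝ) * ξ i l) (by
        intro y
        have h2 := hE₂ k (ν / j) hk hkj y
        rw [hF₂] at h2
        simp only at h2
        refine Eq.trans (Finset.sum_congr rfl ?_) h2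
        intro i _
        split_ifs
        · rw [hsum]
          ring
        · ring) (fun l => (k:ℝ) * ((p₀ l : ℝ) / j))
    have hkR : (k:ℝ) ≠ 0 := by
      have := hk.ne'
      exact_mod_cast this
    rw [← Finset.sum_subtype (Finset.univ.filter
      (fun i => β i = 0 ∧ (fun l => (j:ℝ) * ξ i l) = toR p₀ ∧ 0 < c i)) (by simp)
      (fun i => (c i : ℂ) * e (k * θ i)), Finset.sum_filter]
    refine Eq.trans (Finset.sum_congr rfl ?_) h1
    intro i _
    have e1 : β i = 0 ↔ μ i = ν / j := by
      rw [hβ]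
      simp only
      constructor
      · intro h
        field_simp
        linarith
      · intro h
        rw [h]
        field_simp
        ring
    have e2 : (fun l => (j:ℝ) * ξ i l) = toR p₀ ↔
        (fun l => (k:ℝ) * ξ i l) = fun l => (k:ℝ) * ((p₀ l : ℝ) / j) := by
      constructor
      · intro h
        funext l
        have := congrFun h l
        simp only [toR] at this
        rw [← this]
        field_simp
      · intro h
        funext l
        have := congrFun h l
        have h3 := mul_left_cancel₀ hkR this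
        rw [h3]
        simp only [toR]
        field_simp
    by_cases h1 : β i = 0
    · by_cases h2 : (fun l => (j:ℝ) * ξ i l) = toR p₀
      · rw [if_pos (e2.mp h2), if_pos (e1.mp h1)]
        by_cases h3 : 0 < c i
        · rw [if_pos ⟨h1, h2, h3⟩]
        · have : c i = 0 := by omega
          rw [if_neg (fun h => h3 h.2.2), this]
          simp
      · rw [if_neg (fun h => h2 h.2.1), if_neg (fun h => h2 (e2.mpr h))]
    · rw [if_neg (fun h => h1 h.1)]
      by_cases h2 : (fun l => (k:ℝ) * ξ i l) = fun l => (k:ℝ) * ((p₀ l : ℝ) / j)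
      · rw [if_pos h2, if_neg (fun h => h1 (e1.mpr h))]
      · rw [if_neg h2]

end Pool.Agent.Refl
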