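import Pool.Agent.Refl.SliceAux

/-! Module SLICE: zeros of `f` on the slices `z = x τ + y`, `x` rational, `y` real generic. -/

namespace Pool.Agent.Refl
open Matrix Filter Topology

variable {G : Matrix (Fin 20) (Fin 20) ℤ}

/-- The finite list of asymptotic zeros `s = e(μ τ - ξ.y - θ)` on the slices with given `x`. -/
structure SliceData (G : Matrix (Fin 20) (Fin 20) ℤ) (x : VR) (ι : Type) (μ : ι → ℝ)
    (ξ : ι → VR) (θ : ι → ℝ) : Prop where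
  pos : ∀ i, 0 < μ i
  rep : ∀ i, ∃ (b n m : ℤ) (p : VZ), 0 < m ∧ Allowed G 0 b n m p ∧
    μ i = -(n + dot p x + m * bil G x x / 2) / m ∧ (∀ l, ξ i l = (p l : ℝ) / m) ∧ θ i = (b : ℝ) / m
  range : ∀ i, 0 ≤ θ i ∧ θ i < 1
  inj : Function.Injective (fun i => (μ i, ξ i, θ i))

lemma sl_data (x : VR) : SliceData G x (sl_set G x) (fun i => i.1.1) (fun i => i.1.2.1)
    (fun i => i.1.2.2) := by
  refine ⟨?_, ?_, ?_, ?_⟩
  · rintro ⟨t, b, n, m, p, hm, ha, hk, hb0, hbm, rfl⟩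
    have hmR : (0:ℝ) < (m : ℝ) := by exact_mod_cast hm
    exact div_pos (by linarith) hmR
  · rintro ⟨t, b, n, m, p, hm, ha, hk, hb0, hbm, rfl⟩
    exact ⟨b, n, m, p, hm, ha, rfl, fun l => rfl, rfl⟩
  · rintro ⟨t, b, n, m, p, hm, ha, hk, hb0, hbm, rfl⟩
    have hmR : (0:ℝ) < (m : ℝ) := by exact_mod_cast hm
    refine ⟨div_nonneg (by exact_mod_cast hb0) hmR.le, ?_⟩
    rw [div_lt_one hmR]; exact_mod_cast hbm
  · intro i i' h
    exact Subtype.ext h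

/-- the Taylor coefficients in `s` on a slice -/
noncomputable def sl_a (G : Matrix (Fin 20) (Fin 20) ℤ) (ψ : ℕ → ℂ → VC → ℂ) (C : ℕ) (x y : VR)
    (m : ℕ) (τ : ℂ) : ℂ :=
  ψ (C + m) τ (τ • ofR x + ofR y) * e (((C + m : ℕ) : ℂ) * ((bil G x x : ℝ) * τ / 2))

lemma sl_a_diff {k : ℤ} {f : ℂ → VC → ℂ → ℂ} {ψ : ℕ → ℂ → VC → ℂ} (hψ : FJ G k f ψ)
    (C : ℕ) (x y : VR) (m : ℕ) : DifferentiableOn ℂ (sl_a G ψ C x y m) {τ : ℂ | 0 < τ.im} := by
  intro τ hτ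
  have h1 := (hψ.gh (C + m)).line (τ, τ • ofR x + ofR y) hτ (1, ofR x)
  have h2 : DifferentiableAt ℂ (fun τ' : ℂ => ψ (C + m) τ' (τ' • ofR x + ofR y)) τ := by
    have h3 : (fun τ' : ℂ => ψ (C + m) τ' (τ' • ofR x + ofR y)) =
        (fun w : ℂ => ψ (C + m) ((τ, τ • ofR x + ofR y) + w • ((1 : ℂ), ofR x)).1
          ((τ, τ • ofR x + ofR y) + w • ((1 : ℂ), ofR x)).2) ∘ (fun τ' => τ' - τ) := by
      funext τ'
      simp only [Function.comp, Prod.fst_add, Prod.snd_add, Prod.smul_fst, Prod.smul_snd,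
        smul_eq_mul, mul_one]
      congr 1
      · ring
      · rw [sub_smul]; abel
    rw [h3]
    apply DifferentiableAt.comp
    · rw [sub_self]; exact h1
    · fun_prop
  have h4 : DifferentiableAt ℂ (fun τ' : ℂ =>
      e (((C + m : ℕ) : ℂ) * ((bil G x x : ℝ) * τ' / 2))) τ := by
    unfold e; fun_prop
  exact (h2.mul h4).differentiableWithinAt

lemma sl_a_bound {k : ℤ} {f : ℂ → VC → ℂ → ℂ} {ψ : ℕ → ℂ → VC → ℂ} (hψ : FJ G k f ψ)
    (C : ℕ) (x : VR) : ∃ K : ℝ, ∀ (y : VR) (m : ℕ) (τ : ℂ), 1 < τ.im →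
      ‖sl_a G ψ C x y m τ‖ * Real.exp (-(2 * Real.pi)) ^ m ≤ K := by
  obtain ⟨K, hK⟩ := hψ.bound x
  refine ⟨K / Real.exp (-(2 * Real.pi)) ^ C, fun y m τ hτ => ?_⟩
  have hs : ∀ t : ℝ, HasSum (fun m : ℕ => (ψ m τ (τ • ofR x + ofR y) *
      e (m * (Complex.I + (bil G x x : ℝ) * τ / 2))) * e (m * t))
      (f τ (τ • ofR x + ofR y) ((t + Complex.I) + (bil G x x : ℝ) * τ / 2)) := by
    intro t
    have h1 := hψ.sum τ (τ • ofR x + ofR y) ((t + Complex.I) + (bil G x x : ℝ) * τ / 2)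
      (sl_tube x y (by linarith) (by simp))
    convert h1 using 2 with m
    rw [mul_assoc, ← e_add]
    congr 2; ring
  have h2 := sl_cauchy hs (fun t => hK y τ (t + Complex.I) hτ.le (by simp)) (C + m)
  rw [le_div_iff₀ (by positivity)]
  have h3 : ψ (C + m) τ (τ • ofR x + ofR y) *
      e (((C + m : ℕ) : ℂ) * (Complex.I + (bil G x x : ℝ) * τ / 2)) =
      sl_a G ψ C x y m τ * e (((C + m : ℕ) : ℂ) * Complex.I) := by
    rw [sl_a, mul_assoc, ← e_add]; congr 2; ring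
  rw [h3, norm_mul] at h2
  have h4 : ‖e (((C + m : ℕ) : ℂ) * Complex.I)‖ = Real.exp (-(2 * Real.pi)) ^ (C + m) := by
    rw [norm_e, ← Real.exp_nat_mul]; congr 1
    simp; ring
  rw [h4, pow_add] at h2
  calc ‖sl_a G ψ C x y m τ‖ * Real.exp (-(2 * Real.pi)) ^ m * Real.exp (-(2 * Real.pi)) ^ C
      = ‖sl_a G ψ C x y m τ‖ * (Real.exp (-(2 * Real.pi)) ^ C * Real.exp (-(2 * Real.pi)) ^ m) := by
        ring
    _ ≤ K := h2

lemma sl_f_eq {k : ℤ} {f : ℂ → VC → ℂ → ℂ} {ψ : ℕ → ℂ → VC → ℂ} (hψ : FJ G k f ψ) {C : ℕ}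
    (hC : ∀ m < C, ∀ τ z, 0 < τ.im → ψ m τ z = 0) (x y : VR) {τ ω : ℂ} (hτ : 0 < τ.im)
    (hω : 0 < ω.im) :
    f τ (τ • ofR x + ofR y) (ω + (bil G x x : ℝ) * τ / 2) =
      (e ω) ^ C * ∑' m, sl_a G ψ C x y m τ * (e ω) ^ m := by
  have h1 := hψ.sum τ (τ • ofR x + ofR y) (ω + (bil G x x : ℝ) * τ / 2) (sl_tube x y hτ hω)
  have h2 := (hasSum_nat_add_iff' C).2 h1
  have h3 : ∑ i ∈ Finset.range C, ψ i τ (τ • ofR x + ofR y) *
      e (i * (ω + (bil G x x : ℝ) * τ / 2)) = 0 := by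
    apply Finset.sum_eq_zero
    intro i hi
    rw [hC i (Finset.mem_range.1 hi) τ _ hτ, zero_mul]
  rw [h3, sub_zero] at h2
  rw [← tsum_mul_left, ← h2.tsum_eq]
  congr 1
  funext m
  have h4 : ∀ n : ℕ, (e ω) ^ n = e (n * ω) := by
    intro n
    unfold e
    rw [← Complex.exp_nat_mul]; congr 1; ring
  rw [sl_a, h4, h4]
  have h5 : e ((C : ℂ) * ω) * (ψ (C + m) τ (τ • ofR x + ofR y) *
      e (((C + m : ℕ) : ℂ) * ((bil G x x : ℝ) * τ / 2)) * e ((m : ℂ) * ω)) =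
      ψ (C + m) τ (τ • ofR x + ofR y) * (e ((C : ℂ) * ω) *
      e (((C + m : ℕ) : ℂ) * ((bil G x x : ℝ) * τ / 2)) * e ((m : ℂ) * ω)) := by ring
  rw [h5, ← e_add, ← e_add, add_comm m C]
  congr 2
  push_cast; ring

lemma sl_per {k : ℤ} {f : ℂ → VC → ℂ → ℂ} (hG : EvenPos G) {ψ : ℕ → ℂ → VC → ℂ}
    (hψ : FJ G k f ψ) (C : ℕ) {x : VR} (y : VR) {N : ℕ} {u : VZ}
    (hu : ∀ l, (N : ℝ) * x l = u l) {τ : ℂ} (hτ : 0 < τ.im) :
    sl_a G ψ C x y 0 (τ + (N ^ 2 : ℕ)) = sl_a G ψ C x y 0 τ := by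
  obtain ⟨w, hw⟩ := bil_even hG u
  have hux : (N : ℝ) • x = toR u := by
    funext l; simp only [Pi.smul_apply, smul_eq_mul, toR]; exact hu l
  have h2 : (N : ℝ) ^ 2 * bil G x x = ((w + w : ℤ) : ℝ) := by
    rw [← hw, ← sl_bil_cast, ← hux, sl_bil_smul]
  have hT : ∀ (n : ℕ) (z : VC), ψ (C + 0) (τ + n) z = ψ (C + 0) τ z := by
    intro n z
    induction n with
    | zero => simp
    | succ n ih =>
      have h1 := hψ.T (C + 0) (τ + n) z (by simpa using hτ)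
      rw [← ih, ← h1]; congr 1; push_cast; ring
  have hz : (τ + ((N ^ 2 : ℕ) : ℂ)) • ofR x + ofR y = (τ • ofR x + ofR y) + toC (N • u) := by
    funext l
    simp only [Pi.add_apply, Pi.smul_apply, smul_eq_mul, ofR, toC]
    have h3 : ((N : ℂ)) * (x l : ℂ) = (u l : ℂ) := by exact_mod_cast hu l
    push_cast
    have : (τ + (N : ℂ) ^ 2) * (x l : ℂ) = τ * x l + N * (N * x l) := by ring
    rw [this, h3]
    simp only [nsmul_eq_mul]
    push_cast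
    ring
  rw [sl_a, sl_a, hT, hz, hψ.P _ _ _ _ hτ]
  congr 1
  have h4 : ((C + 0 : ℕ) : ℂ) * ((bil G x x : ℝ) * (τ + ((N ^ 2 : ℕ) : ℂ)) / 2) =
      ((C + 0 : ℕ) : ℂ) * ((bil G x x : ℝ) * τ / 2) + ((C * w : ℤ) : ℂ) := by
    have h5 : ((N : ℂ)) ^ 2 * ((bil G x x : ℝ) : ℂ) = ((w + w : ℤ) : ℂ) := by exact_mod_cast h2
    push_cast at h5 ⊢
    linear_combination (C : ℂ) / 2 * h5
  rw [h4, e_add, e_int, mul_one]

theorem slice (hG : EvenPos G) {k : ℤ} {f : ℂ → VC → ℂ → ℂ} (hf : TF G k f)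
    {ψ : ℕ → ℂ → VC → ℂ} (hψ : FJ G k f ψ) {C j : ℕ} {φ : ℂ → VC → ℂ}
    (hφ : PhiData G ψ C j φ) (x : VR) (hx : ∃ N : ℕ, 0 < N ∧ ∀ l, ∃ k : ℤ, (N : ℝ) * x l = k) :
    ∃ (ι : Type) (_ : Fintype ι) (μ : ι → ℝ) (ξ : ι → VR) (θ : ι → ℝ),
      SliceData G x ι μ ξ θ ∧
      ∃ Y : Set VR, Y ∈ residual VR ∧ ∀ y ∈ Y, ∃ (c : ι → ℕ) (K t₁ : ℝ), 0 ≤ t₁ ∧
        ∀ τ : ℂ, t₁ < τ.im →
          (∀ k : ℕ, 0 < k → k < j →
            ‖∑ i, (c i : ℂ) * e (k * (-(μ i * τ) + ∑ l, ξ i l * y l + θ i))‖ ≤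
              K * (1 + τ.im)) ∧
          ‖φ τ (τ • ofR x + ofR y) * e (j * (bil G x x : ℝ) * τ / 2) -
            (1 / (j : ℂ)) * ∑ i, (c i : ℂ) * e (j * (-(μ i * τ) + ∑ l, ξ i l * y l + θ i))‖ ≤
              K * (1 + τ.im) := by
  obtain ⟨N, hN, hu⟩ := hx
  choose u hu using hu
  have hfin := sl_set_finite hG hN hu
  let _ : Fintype (sl_set G x) := hfin.fintype
  refine ⟨sl_set G x, hfin.fintype, fun i => i.1.1, fun i => i.1.2.1, fun i => i.1.2.2,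
    sl_data x, sl_Y G x, sl_Y_residual hG hN hu, ?_⟩
  intro y hy
  set R : ℝ := Real.exp (-(2 * Real.pi)) with hR
  have hR0 : 0 < R := Real.exp_pos _
  obtain ⟨K₀, hK₀⟩ := sl_a_bound hψ C x
  have hK₀' : ∀ m (τ : ℂ), 1 < τ.im → ‖sl_a G ψ C x y m τ‖ * R ^ m ≤ K₀ := fun m τ h => hK₀ y m τ h
  have hdiff := sl_a_diff hψ C x y
  have hdiff1 : ∀ m, DifferentiableOn ℂ (sl_a G ψ C x y m) {τ : ℂ | 1 < τ.im} := fun m =>
    (hdiff m).mono fun τ (h : 1 < τ.im) => by show 0 < τ.im; linarith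
  have ha0 : ∀ τ : ℂ, 0 < τ.im → sl_a G ψ C x y 0 τ ≠ 0 := by
    intro τ hτ
    rw [sl_a]
    apply mul_ne_zero _ (e_ne_zero _)
    exact hφ.wall τ _ hτ (fun n b p hp _ => sl_wall hy hτ n b p hp)
  obtain ⟨c, C', hc, hlow⟩ := sl_lower (g := sl_a G ψ C x y 0) (N := N ^ 2) (by positivity)
    (hdiff 0) (fun τ hτ => sl_per hG hψ C y hu hτ) (K := K₀)
    (fun τ hτ => by simpa using hK₀' 0 τ hτ) ha0
  have hA0 : ∀ τ : ℂ, ∑' m, sl_a G ψ C x y m τ * (0:ℂ) ^ m = sl_a G ψ C x y 0 τ := by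
    intro τ
    rw [tsum_eq_single 0]
    · simp
    · intro m hm; simp [hm]
  have hj := hφ.hj
  set B : ℂ → ℂ := fun τ => -(φ τ (τ • ofR x + ofR y) * e (j * (bil G x x : ℝ) * τ / 2)) with hBdef
  have haj : ∀ τ : ℂ, 0 < τ.im → sl_a G ψ C x y j τ = sl_a G ψ C x y 0 τ * B τ := by
    intro τ hτ
    rw [sl_a, sl_a, hφ.eq τ _ hτ, hBdef]
    have : e (((C + j : ℕ) : ℂ) * ((bil G x x : ℝ) * τ / 2)) =
        e (((C + 0 : ℕ) : ℂ) * ((bil G x x : ℝ) * τ / 2)) * e (j * (bil G x x : ℝ) * τ / 2) := by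
      rw [← e_add]; congr 1; push_cast; ring
    rw [this, add_zero]; ring
  obtain ⟨c', K', t₁, ht₁, ht₁', hmain⟩ := lemmaQ (ι := sl_set G x) 1 (R / 2) R
    (K₀ * (1 - R / 2 / R)⁻¹) c C' (by positivity) (by linarith) hc j hj
    (fun τ s => ∑' m, sl_a G ψ C x y m τ * s ^ m) B (fun i => i.1.1) (sl_zeta G x y)
    (sl_GH hR0 hdiff1 hK₀')
    (fun τ s hτ hs => sl_tsum_norm_le hR0 (by positivity) (by linarith)
      (fun m => hK₀' m τ hτ) hs)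
    (fun τ hτ => by rw [hA0]; exact hlow τ hτ)
    (sl_data (G := G) x).pos
    (fun i => by rw [sl_zeta, norm_e]; simp)
    (sl_inj hy)
    (fun τ s hτ hs h0 => by
      have hs0 : s ≠ 0 := by
        rintro rfl
        rw [hA0] at h0
        exact ha0 τ (by linarith) h0
      set ω : ℂ := Complex.log s / (2 * Real.pi * Complex.I) with hω
      have heω : e ω = s := by
        rw [e, hω, mul_div_cancel₀ _ Complex.two_pi_I_ne_zero, Complex.exp_log hs0]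
      have hns : ‖s‖ = Real.exp (-(2 * Real.pi * ω.im)) := by rw [← heω, norm_e]
      have hωim : 1 ≤ ω.im := by
        by_contra hlt
        push Not at hlt
        have h1 : R < ‖s‖ := by
          rw [hns, hR, Real.exp_lt_exp]
          nlinarith [Real.pi_pos]
        linarith
      have h1 := sl_f_eq hψ hφ.below x y (τ := τ) (ω := ω) (by linarith) (by linarith)
      rw [heω, h0, mul_zero] at h1
      obtain ⟨i, hi⟩ := sl_zero hG hf hy hτ hωim h1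
      exact ⟨i, by rw [← heω, hi]⟩)
    (fun τ hτ => by
      have h1 := sl_bigO (a := fun m => sl_a G ψ C x y m τ) hj hR0 (fun m => hK₀' m τ hτ)
        (fun m hm hmj => by
          show sl_a G ψ C x y m τ = 0
          rw [sl_a, hφ.between (C + m) (by omega) (by omega) τ _ (by linarith), zero_mul])
      have h2 : (fun s : ℂ => (∑' m, sl_a G ψ C x y m τ * s ^ m) -
          (sl_a G ψ C x y 0 τ + sl_a G ψ C x y j τ * s ^ j)) =
          (fun s : ℂ => (∑' m, sl_a G ψ C x y m τ * s ^ m) -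
          (∑' m, sl_a G ψ C x y m τ * (0:ℂ) ^ m) * (1 + B τ * s ^ j)) := by
        funext s
        rw [hA0, haj τ (by linarith)]; ring
      rw [← h2]; exact h1)
  have hterm : ∀ (k : ℕ) (τ : ℂ) (i : sl_set G x),
      ((e (i.1.1 * τ) * sl_zeta G x y i)⁻¹) ^ k =
        e (k * (-(i.1.1 * τ) + ((∑ l, i.1.2.1 l * y l : ℝ) : ℂ) + i.1.2.2)) := by
    intro k τ i
    rw [sl_zeta, ← e_add, ← e_neg, e, e, ← Complex.exp_nat_mul]
    congr 1
    push_cast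
    ring
  refine ⟨c', K', t₁, ht₁, fun τ hτ => ?_⟩
  obtain ⟨h1, h2⟩ := hmain τ hτ
  simp only [hterm] at h1 h2
  refine ⟨h1, ?_⟩
  rw [← norm_neg]
  refine le_trans (le_of_eq ?_) h2
  congr 1
  rw [hBdef]
  ring

end Pool.Agent.Refl
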