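import Pool.Agent.Refl.ZeroFree
import Pool.Agent.Refl.LemmaQ

/-! Module SLICE (auxiliary lemmas): zeros of `f` on the slices `z = x τ + y`, `x` rational, `y` real generic. -/

namespace Pool.Agent.Refl
open Matrix Filter Topology Metric

variable {G : Matrix (Fin 20) (Fin 20) ℤ}

/-- Cauchy estimate for a power series on the circle. -/
lemma sl_cauchy {b : ℕ → ℂ} {g : ℝ → ℂ} {K : ℝ}
    (h : ∀ t : ℝ, HasSum (fun m : ℕ => b m * e (m * t)) (g t))
    (hg : ∀ t : ℝ, ‖g t‖ ≤ K) (m : ℕ) : ‖b m‖ ≤ K := by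
  have hsum : Summable (fun m : ℕ => ‖b m‖) := by
    have h0 := (h 0).summable
    simp only [Complex.ofReal_zero, mul_zero, e_zero, mul_one] at h0
    exact h0.norm
  have hnorm : ∀ (n : ℤ) (t : ℝ), ‖e (n * t)‖ = 1 := by
    intro n t
    rw [norm_e]; simp
  have hnorm' : ∀ (n : ℕ) (t : ℝ), ‖e (n * t)‖ = 1 := by
    intro n t
    have := hnorm n t
    simpa using this
  have hcont : ∀ n : ℤ, Continuous (fun t : ℝ => e (n * t)) := by
    intro n; unfold e; fun_prop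
  -- the integral of a character
  have hint : ∀ n : ℤ, ∫ t in (0:ℝ)..1, e (n * t) = if n = 0 then 1 else 0 := by
    intro n
    split_ifs with hn
    · subst hn; simp [e_zero]
    · have hc : (2 * Real.pi * Complex.I * n : ℂ) ≠ 0 := by
        simp [Real.pi_ne_zero, Complex.I_ne_zero, hn]
      have h1 : (fun t : ℝ => e (n * t)) = fun t : ℝ => Complex.exp ((2 * Real.pi * Complex.I * n) * t) := by
        funext t; unfold e; congr 1; ring
      rw [h1, integral_exp_mul_complex hc]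
      have h2 : Complex.exp (2 * Real.pi * Complex.I * n * (1:ℝ)) = 1 := by
        rw [Complex.exp_eq_one_iff]; exact ⟨n, by push_cast; ring⟩
      rw [h2]; simp
  let F : ℕ → C(ℝ, ℂ) := fun n => ⟨fun t : ℝ => b n * e (((n : ℤ) - (m : ℤ) : ℤ) * t), by
    have := hcont ((n : ℤ) - (m : ℤ) : ℤ)
    exact continuous_const.mul this⟩
  have hF : Summable (fun n => ‖(F n).restrict (⟨Set.uIcc 0 1, isCompact_uIcc⟩ : TopologicalSpace.Compacts ℝ)‖) := by
    refine Summable.of_nonneg_of_le (fun _ => norm_nonneg _) (fun n => ?_) hsum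
    rw [ContinuousMap.norm_le _ (norm_nonneg _)]
    intro t
    show ‖b n * e (((n : ℤ) - (m : ℤ) : ℤ) * ((t : ℝ) : ℂ))‖ ≤ ‖b n‖
    rw [norm_mul, hnorm, mul_one]
  have h3 := intervalIntegral.hasSum_intervalIntegral_of_summable_norm hF
  have h4 : ∀ t : ℝ, ∑' n, F n t = g t * e (-((m : ℤ) * t)) := by
    intro t
    have h5 := (h t).mul_right (e (-((m : ℤ) * t)))
    have h6 : (fun n : ℕ => b n * e (n * t) * e (-((m : ℤ) * t))) = fun n => F n t := by
      funext n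
      show _ = b n * e (((n : ℤ) - (m : ℤ) : ℤ) * (t : ℂ))
      rw [mul_assoc, ← e_add]; congr 2; push_cast; ring
    rw [h6] at h5
    exact h5.tsum_eq
  have h7 : ∀ n, ∫ t in (0:ℝ)..1, F n t = if n = m then b m else 0 := by
    intro n
    show ∫ t in (0:ℝ)..1, b n * e (((n : ℤ) - (m : ℤ) : ℤ) * (t : ℂ)) = _
    rw [intervalIntegral.integral_const_mul, hint]
    by_cases hnm : n = m
    · subst hnm; simp
    · have : ((n : ℤ) - (m : ℤ)) ≠ 0 := by
        intro h; apply hnm; omega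
      simp [hnm, this]
  have h8 : HasSum (fun n => ∫ t in (0:ℝ)..1, F n t) (b m) := by
    simp_rw [h7]
    exact hasSum_ite_eq m (b m)
  have h9 := h3.unique h8
  rw [← h9]
  have h10 : ‖∫ t in (0:ℝ)..1, ∑' n, F n t‖ ≤ K * |(1:ℝ) - 0| := by
    apply intervalIntegral.norm_integral_le_of_norm_le_const
    intro t _
    rw [h4, norm_mul]
    have h11 : ‖e (-((m : ℤ) * (t : ℂ)))‖ = 1 := by
      have := hnorm (-(m : ℤ)) t
      convert this using 3
      push_cast; ring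
    rw [h11, mul_one]
    exact hg t
  simpa using h10


lemma sl_term_le {a : ℂ} {s : ℂ} {m : ℕ} {R r K : ℝ} (hR : 0 < R) (ha : ‖a‖ * R ^ m ≤ K)
    (hs : ‖s‖ ≤ r) : ‖a * s ^ m‖ ≤ K * (r / R) ^ m := by
  have hRm : 0 < R ^ m := pow_pos hR m
  have h1 : ‖a‖ ≤ K / R ^ m := by rwa [le_div_iff₀ hRm]
  have hr : 0 ≤ r := le_trans (norm_nonneg _) hs
  calc ‖a * s ^ m‖ = ‖a‖ * ‖s‖ ^ m := by rw [norm_mul, norm_pow]
    _ ≤ (K / R ^ m) * r ^ m := by
      apply mul_le_mul h1 (pow_le_pow_left₀ (norm_nonneg _) hs m) (by positivity)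
      exact le_trans (norm_nonneg _) h1
    _ = K * (r / R) ^ m := by rw [div_pow]; ring

lemma sl_summable_geo {r R : ℝ} (K : ℝ) (hr : 0 ≤ r) (hrR : r < R) :
    Summable (fun m : ℕ => K * (r / R) ^ m) := by
  apply Summable.mul_left
  apply summable_geometric_of_lt_one
  · exact div_nonneg hr (hr.trans hrR.le)
  · rw [div_lt_one (lt_of_le_of_lt hr hrR)]; exact hrR

lemma sl_GH {a : ℕ → ℂ → ℂ} {t₀ R K : ℝ} (hR : 0 < R)
    (ha : ∀ m, DifferentiableOn ℂ (a m) {τ : ℂ | t₀ < τ.im})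
    (hK : ∀ m (τ : ℂ), t₀ < τ.im → ‖a m τ‖ * R ^ m ≤ K) :
    GH ({τ : ℂ | t₀ < τ.im} ×ˢ ball (0:ℂ) R) (fun q : ℂ × ℂ => ∑' m, a m q.1 * q.2 ^ m) := by
  have hopen : IsOpen {τ : ℂ | t₀ < τ.im} := isOpen_lt continuous_const Complex.continuous_im
  constructor
  · intro q hq
    obtain ⟨hq1, hq2⟩ := hq
    rw [mem_ball_zero_iff] at hq2
    obtain ⟨r, hr1, hr2⟩ := exists_between hq2
    have hr0 : 0 ≤ r := (norm_nonneg _).trans hr1.le
    have hU : IsOpen ({τ : ℂ | t₀ < τ.im} ×ˢ ball (0:ℂ) r) := hopen.prod isOpen_ball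
    have hqU : q ∈ ({τ : ℂ | t₀ < τ.im} ×ˢ ball (0:ℂ) r) := ⟨hq1, by rwa [mem_ball_zero_iff]⟩
    have hc : ContinuousOn (fun q : ℂ × ℂ => ∑' m, a m q.1 * q.2 ^ m)
        ({τ : ℂ | t₀ < τ.im} ×ˢ ball (0:ℂ) r) := by
      refine continuousOn_tsum (u := fun m => K * (r / R) ^ m) (fun m => ?_)
        (sl_summable_geo K hr0 hr2) (fun m p hp => ?_)
      · refine ContinuousOn.mul ?_ (continuous_snd.pow m).continuousOn
        exact (ha m).continuousOn.comp continuous_fst.continuousOn (fun p hp => hp.1)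
      · exact sl_term_le hR (hK m p.1 hp.1) (mem_ball_zero_iff.1 hp.2).le
    exact (hc.continuousAt (hU.mem_nhds hqU)).continuousWithinAt
  · intro q hq v
    obtain ⟨hq1, hq2⟩ := hq
    rw [mem_ball_zero_iff] at hq2
    obtain ⟨r, hr1, hr2⟩ := exists_between hq2
    have hr0 : 0 ≤ r := (norm_nonneg _).trans hr1.le
    have hU : IsOpen ({τ : ℂ | t₀ < τ.im} ×ˢ ball (0:ℂ) r) := hopen.prod isOpen_ball
    let W : Set ℂ := (fun w : ℂ => q + w • v) ⁻¹' ({τ : ℂ | t₀ < τ.im} ×ˢ ball (0:ℂ) r)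
    have hW : IsOpen W := hU.preimage (by fun_prop)
    have h0W : (0:ℂ) ∈ W := by
      show q + (0:ℂ) • v ∈ ({τ : ℂ | t₀ < τ.im} ×ˢ ball (0:ℂ) r)
      rw [zero_smul, add_zero]
      exact ⟨hq1, by rwa [mem_ball_zero_iff]⟩
    have hd : DifferentiableOn ℂ (fun w : ℂ => ∑' m, a m (q + w • v).1 * (q + w • v).2 ^ m) W := by
      refine Complex.differentiableOn_tsum_of_summable_norm (u := fun m => K * (r / R) ^ m)
        (sl_summable_geo K hr0 hr2) (fun m => ?_) hW (fun m w hw => ?_)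
      · refine DifferentiableOn.mul ?_ ?_
        · refine (ha m).comp (f := fun w : ℂ => (q + w • v).1) ?_ (fun w hw => hw.1)
          simp only [Prod.fst_add, Prod.smul_fst, smul_eq_mul]
          fun_prop
        · simp only [Prod.snd_add, Prod.smul_snd, smul_eq_mul]
          fun_prop
      · exact sl_term_le hR (hK m _ hw.1) (mem_ball_zero_iff.1 hw.2).le
    exact hd.differentiableAt (hW.mem_nhds h0W)

lemma sl_tsum_norm_le {a : ℕ → ℂ} {s : ℂ} {R r K : ℝ} (hR : 0 < R) (hr : 0 ≤ r) (hrR : r < R)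
    (ha : ∀ m, ‖a m‖ * R ^ m ≤ K) (hs : ‖s‖ ≤ r) :
    ‖∑' m, a m * s ^ m‖ ≤ K * (1 - r / R)⁻¹ := by
  have h1 : ∀ m, ‖a m * s ^ m‖ ≤ K * (r / R) ^ m := fun m => sl_term_le hR (ha m) hs
  have h2 := sl_summable_geo K hr hrR
  have h3 := tsum_of_norm_bounded (h2.hasSum) h1
  rwa [tsum_mul_left, tsum_geometric_of_lt_one (div_nonneg hr hR.le)
    ((div_lt_one hR).2 hrR)] at h3

/-- first terms of the expansion -/
lemma sl_bigO {a : ℕ → ℂ} {R K : ℝ} {j : ℕ} (hj : 0 < j) (hR : 0 < R)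
    (ha : ∀ m, ‖a m‖ * R ^ m ≤ K) (hz : ∀ m, 0 < m → m < j → a m = 0) :
    (fun s : ℂ => (∑' m, a m * s ^ m) - (a 0 + a j * s ^ j)) =O[𝓝 0] (fun s : ℂ => s ^ (j + 1)) := by
  have hr : 0 < R / 2 := by positivity
  have hrR : R / 2 < R := by linarith
  rw [Asymptotics.isBigO_iff]
  refine ⟨K / R ^ (j + 1) * 2, ?_⟩
  filter_upwards [Metric.ball_mem_nhds (0:ℂ) hr] with s hs
  rw [mem_ball_zero_iff] at hs
  have hsum : Summable (fun m => a m * s ^ m) :=
    Summable.of_norm_bounded (sl_summable_geo K hr.le hrR)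
      (fun m => sl_term_le hR (ha m) hs.le)
  have h1 : ∑' m, a m * s ^ m = (a 0 + a j * s ^ j) + ∑' m, a (m + (j + 1)) * s ^ (m + (j + 1)) := by
    rw [← hsum.sum_add_tsum_nat_add (j + 1)]
    congr 1
    rw [Finset.sum_range_succ]
    congr 1
    obtain ⟨j', rfl⟩ : ∃ j', j = j' + 1 := ⟨j - 1, by omega⟩
    rw [Finset.sum_range_succ']
    rw [Finset.sum_eq_zero]
    · simp
    · intro i hi
      rw [Finset.mem_range] at hi
      rw [hz (i + 1) (by omega) (by omega), zero_mul]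
  rw [h1, add_sub_cancel_left]
  have h2 : ∑' m, a (m + (j + 1)) * s ^ (m + (j + 1)) =
      s ^ (j + 1) * ∑' m, a (m + (j + 1)) * s ^ m := by
    rw [← tsum_mul_left]; congr 1; funext m; ring
  rw [h2, norm_mul, mul_comm]
  have h3 : ∀ m, ‖a (m + (j + 1))‖ * R ^ m ≤ K / R ^ (j + 1) := by
    intro m
    rw [le_div_iff₀ (pow_pos hR _)]
    have := ha (m + (j + 1))
    rw [pow_add] at this
    linarith [this]
  have h4 := sl_tsum_norm_le hR hr.le hrR h3 hs.le
  have h5 : (1 - R / 2 / R)⁻¹ = 2 := by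
    have : R / 2 / R = 1 / 2 := by field_simp
    rw [this]; norm_num
  rw [h5] at h4
  exact mul_le_mul_of_nonneg_right h4 (norm_nonneg _)


lemma sl_lower {g : ℂ → ℂ} {N : ℕ} (hN : 0 < N) (hd : DifferentiableOn ℂ g {τ : ℂ | 0 < τ.im})
    (hper : ∀ τ : ℂ, 0 < τ.im → g (τ + N) = g τ) {K : ℝ}
    (hb : ∀ τ : ℂ, 1 < τ.im → ‖g τ‖ ≤ K) (hne : ∀ τ : ℂ, 0 < τ.im → g τ ≠ 0) :
    ∃ c C' : ℝ, 0 < c ∧ ∀ τ : ℂ, 1 < τ.im → c * Real.exp (-(C' * τ.im)) ≤ ‖g τ‖ := by
  have hNr : (0:ℝ) < (N:ℝ) := by exact_mod_cast hN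
  have hopen : IsOpen {τ : ℂ | 0 < τ.im} := isOpen_lt continuous_const Complex.continuous_im
  set g' : ℂ → ℂ := fun τ => if 0 < τ.im then g τ else 0 with hg'
  have hgg : ∀ τ : ℂ, 0 < τ.im → g' τ = g τ := fun τ h => by simp only [hg', if_pos h]
  have hper' : Function.Periodic g' (N:ℝ) := by
    intro τ
    have him : (τ + ((N:ℝ):ℂ)).im = τ.im := by simp
    by_cases h : 0 < τ.im
    · rw [hgg τ h, hgg _ (by rw [him]; exact h), ← hper τ h]; simp
    · have h' : ¬ 0 < (τ + ((N:ℝ):ℂ)).im := by rw [him]; exact h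
      simp only [hg', if_neg h, if_neg h']
  have hev : ∀ A : ℝ, ∀ᶠ z : ℂ in comap Complex.im atTop, A < z.im := fun A =>
    tendsto_comap.eventually (eventually_gt_atTop A)
  have hdiffg : ∀ τ : ℂ, 0 < τ.im → DifferentiableAt ℂ g' τ := by
    intro τ h
    have h1 : DifferentiableAt ℂ g τ := hd.differentiableAt (hopen.mem_nhds h)
    refine h1.congr_of_eventuallyEq ?_
    filter_upwards [hopen.mem_nhds h] with w hw
    exact hgg w hw
  have hhol : ∀ᶠ z : ℂ in comap Complex.im atTop, DifferentiableAt ℂ g' z :=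
    (hev 0).mono hdiffg
  have hbd : BoundedAtFilter (comap Complex.im atTop) g' := by
    refine Asymptotics.IsBigO.of_bound K ?_
    filter_upwards [hev 1] with z hz
    rw [hgg z (by linarith)]
    simpa using hb z hz
  set F : ℂ → ℂ := Function.Periodic.cuspFunction (N:ℝ) g' with hF
  have hFq : ∀ τ : ℂ, F (Function.Periodic.qParam (N:ℝ) τ) = g' τ := fun τ =>
    Function.Periodic.eq_cuspFunction hNr.ne' hper' τ
  have hsurj : ∀ q : ℂ, q ≠ 0 → ‖q‖ < 1 → ∃ τ : ℂ, 0 < τ.im ∧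
      Function.Periodic.qParam (N:ℝ) τ = q := by
    intro q hq hq1
    refine ⟨Function.Periodic.invQParam (N:ℝ) q, ?_, Function.Periodic.qParam_right_inv hNr.ne' hq⟩
    rw [Function.Periodic.im_invQParam]
    have hl : Real.log ‖q‖ < 0 := Real.log_neg (norm_pos_iff.2 hq) hq1
    have : -(N:ℝ) / (2 * Real.pi) < 0 := by
      apply div_neg_of_neg_of_pos (by linarith) (by positivity)
    exact mul_pos_of_neg_of_neg this hl
  have hFne : ∀ q : ℂ, q ≠ 0 → ‖q‖ < 1 → F q ≠ 0 := by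
    intro q hq hq1
    obtain ⟨τ, hτ, rfl⟩ := hsurj q hq hq1
    rw [hFq, hgg τ hτ]; exact hne τ hτ
  have hFd : ∀ q : ℂ, q ≠ 0 → ‖q‖ < 1 → DifferentiableAt ℂ F q := by
    intro q hq hq1
    obtain ⟨τ, hτ, rfl⟩ := hsurj q hq hq1
    exact Function.Periodic.differentiableAt_cuspFunction hNr.ne' hper' (hdiffg τ hτ)
  have hF0 : DifferentiableAt ℂ F 0 :=
    Function.Periodic.differentiableAt_cuspFunction_zero hNr hper' hhol hbd
  have hFan : AnalyticAt ℂ F 0 := by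
    rw [Complex.analyticAt_iff_eventually_differentiableAt]
    filter_upwards [Metric.ball_mem_nhds (0:ℂ) one_pos] with q hq
    rw [mem_ball_zero_iff] at hq
    by_cases h : q = 0
    · rw [h]; exact hF0
    · exact hFd q h hq
  have hnz : ¬ (∀ᶠ z in 𝓝 (0:ℂ), F z = 0) := by
    intro h
    rw [Metric.eventually_nhds_iff] at h
    obtain ⟨ε, hε, h⟩ := h
    have hm : 0 < min ε 1 := lt_min hε one_pos
    have hm1 : min ε 1 / 2 < min ε 1 := by linarith
    have hq : ‖((min ε 1 / 2 : ℝ) : ℂ)‖ = min ε 1 / 2 := by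
      rw [Complex.norm_real, Real.norm_of_nonneg (by positivity)]
    refine hFne ((min ε 1 / 2 : ℝ) : ℂ) ?_ ?_ (h ?_)
    · rw [← norm_pos_iff, hq]; positivity
    · rw [hq]; linarith [min_le_right ε 1]
    · rw [dist_zero_right, hq]; linarith [min_le_left ε 1]
  obtain ⟨n, G₁, hG₁, hG₁0, hG₁e⟩ := (hFan.exists_eventuallyEq_pow_smul_nonzero_iff).2 hnz
  have hlow : ∀ᶠ z in 𝓝 (0:ℂ), ‖G₁ 0‖ / 2 < ‖G₁ z‖ := by
    have h1 : ContinuousAt (fun z => ‖G₁ z‖) 0 := hG₁.continuousAt.norm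
    exact h1.eventually (lt_mem_nhds (by
      have := norm_pos_iff.2 hG₁0
      show ‖G₁ 0‖ / 2 < ‖G₁ 0‖
      linarith))
  obtain ⟨δ, hδ, hball⟩ := Metric.eventually_nhds_iff.1 (hG₁e.and hlow)
  set ρ : ℝ := Real.exp (-2 * Real.pi * 1 / N) with hρ
  have hρ1 : ρ < 1 := by
    rw [hρ, Real.exp_lt_one_iff]
    apply div_neg_of_neg_of_pos _ hNr
    nlinarith [Real.pi_pos]
  have hcomp : IsCompact (closedBall (0:ℂ) ρ \ ball (0:ℂ) δ) :=
    (isCompact_closedBall _ _).diff isOpen_ball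
  have hcontF : ContinuousOn (fun z => ‖F z‖) (closedBall (0:ℂ) ρ \ ball (0:ℂ) δ) := by
    intro q hq
    have hq1 := hq.1
    have hq2 := hq.2
    rw [mem_closedBall_zero_iff] at hq1
    rw [mem_ball_zero_iff, not_lt] at hq2
    have hq0 : q ≠ 0 := by rw [← norm_pos_iff]; linarith
    exact (hFd q hq0 (by linarith)).continuousAt.norm.continuousWithinAt
  obtain ⟨c₁, hc₁, hc₁'⟩ := hcomp.exists_forall_le' hcontF (a := 0) (fun q hq => by
    have hq1 := hq.1
    have hq2 := hq.2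
    rw [mem_closedBall_zero_iff] at hq1
    rw [mem_ball_zero_iff, not_lt] at hq2
    have hq0 : q ≠ 0 := by rw [← norm_pos_iff]; linarith
    exact norm_pos_iff.2 (hFne q hq0 (by linarith)))
  have hg0 : 0 < ‖G₁ 0‖ := norm_pos_iff.2 hG₁0
  refine ⟨min (‖G₁ 0‖ / 2) c₁, 2 * Real.pi * n / N, lt_min (by positivity) hc₁, ?_⟩
  intro τ hτ
  have hqn := Function.Periodic.norm_qParam (N:ℝ) τ
  have hqlt : ‖Function.Periodic.qParam (N:ℝ) τ‖ < ρ :=
    (Function.Periodic.norm_qParam_lt_iff hNr 1 τ).2 hτ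
  rw [← hgg τ (by linarith), ← hFq τ]
  have hexp : Real.exp (-(2 * Real.pi * n / N * τ.im)) = ‖Function.Periodic.qParam (N:ℝ) τ‖ ^ n := by
    rw [hqn, ← Real.exp_nat_mul]; congr 1; ring
  rw [hexp]
  set q := Function.Periodic.qParam (N:ℝ) τ with hq
  by_cases hqδ : ‖q‖ < δ
  · obtain ⟨h1, h2⟩ := hball (y := q) (by rwa [dist_zero_right])
    rw [h1, norm_smul, norm_pow, mul_comm]
    rw [sub_zero]
    apply mul_le_mul_of_nonneg_left _ (by positivity)
    exact (min_le_left _ _).trans h2.le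
  · have h1 := hc₁' q ⟨mem_closedBall_zero_iff.2 hqlt.le, by rwa [mem_ball_zero_iff]⟩
    have h2 : ‖q‖ ^ n ≤ 1 := pow_le_one₀ (norm_nonneg _) (by linarith)
    calc min (‖G₁ 0‖ / 2) c₁ * ‖q‖ ^ n ≤ c₁ * 1 := by
          apply mul_le_mul (min_le_right _ _) h2 (by positivity) hc₁.le
      _ ≤ ‖F q‖ := by rw [mul_one]; exact h1



lemma sl_bil_par (a b : VR) : bil G (a - b) (a - b) + bil G (a + b) (a + b) =
    2 * bil G a a + 2 * bil G b b := by
  simp only [bil, Finset.mul_sum, ← Finset.sum_add_distrib]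
  refine Finset.sum_congr rfl fun i _ => Finset.sum_congr rfl fun j _ => ?_
  simp only [Pi.sub_apply, Pi.add_apply]; ring

lemma sl_bil_smul (c : ℝ) (a : VR) : bil G (c • a) (c • a) = c ^ 2 * bil G a a := by
  simp only [bil, Finset.mul_sum]
  refine Finset.sum_congr rfl fun i _ => Finset.sum_congr rfl fun j _ => ?_
  simp only [Pi.smul_apply, smul_eq_mul]; ring

lemma sl_bil_cast (u : VZ) : bil G (toR u) (toR u) = ((bil G u u : ℤ) : ℝ) := by
  simp only [bil, toR]; push_cast; rfl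

lemma sl_dot_cast (p u : VZ) : dot p (toR u) = ((p ⬝ᵥ u : ℤ) : ℝ) := by
  simp only [dot, toR, dotProduct]; push_cast; rfl

lemma sl_dot_smul (c : ℝ) (p : VZ) (u : VR) : dot p (c • u) = c * dot p u := by
  simp only [dot, Finset.mul_sum]
  refine Finset.sum_congr rfl fun i _ => ?_
  simp only [Pi.smul_apply, smul_eq_mul]; ring

/-- the number `κ = n + p.x + m x²/2` -/
noncomputable def sl_kappa (G : Matrix (Fin 20) (Fin 20) ℤ) (x : VR) (n m : ℤ) (p : VZ) : ℝ :=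
  n + dot p x + m * bil G x x / 2

lemma sl_kappa_eq (hG : EvenPos G) (x : VR) {n m : ℤ} {p : VZ} (hm : 0 < m) :
    sl_kappa G x n m p = (m : ℝ) / 2 * bil G (x + (m : ℝ)⁻¹ • ginv G p) (x + (m : ℝ)⁻¹ • ginv G p)
      + (2 * n * m - qd G p) / (2 * m) := by
  have hm' : (m : ℝ) ≠ 0 := by exact_mod_cast hm.ne'
  rw [complete_square hG p x hm', sl_kappa]
  field_simp
  ring

lemma sl_kappa_rat (hG : EvenPos G) {x : VR} {N : ℕ} {u : VZ}
    (hu : ∀ l, (N : ℝ) * x l = u l) (n m : ℤ) (p : VZ) :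
    ∃ k : ℤ, (N : ℝ) ^ 2 * sl_kappa G x n m p = k := by
  obtain ⟨w, hw⟩ := bil_even hG u
  have hux : (N : ℝ) • x = toR u := by
    funext l; simp only [Pi.smul_apply, smul_eq_mul, toR]; exact hu l
  have h1 : (N : ℝ) * dot p x = ((p ⬝ᵥ u : ℤ) : ℝ) := by
    rw [← sl_dot_cast, ← hux, sl_dot_smul]
  have h2 : (N : ℝ) ^ 2 * bil G x x = ((w + w : ℤ) : ℝ) := by
    rw [← hw, ← sl_bil_cast, ← hux, sl_bil_smul]
  refine ⟨(N:ℤ) ^ 2 * n + N * (p ⬝ᵥ u) + m * w, ?_⟩
  have h3 : (N : ℝ) ^ 2 * sl_kappa G x n m p =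
      (N : ℝ) ^ 2 * n + N * ((N : ℝ) * dot p x) + m * ((N : ℝ) ^ 2 * bil G x x) / 2 := by
    rw [sl_kappa]; ring
  rw [h3, h1, h2]; push_cast; ring

lemma sl_allowed_b {b b' n m : ℤ} {p : VZ} (h : Allowed G 0 b n m p) : Allowed G 0 b' n m p := by
  obtain ⟨k, v, d, hk, hd, hv, he⟩ := h
  refine ⟨k, v, d, hk, hd, hv, ?_⟩
  rw [← he]; ring

/-- The finite set of asymptotic zeros. -/
def sl_set (G : Matrix (Fin 20) (Fin 20) ℤ) (x : VR) : Set (ℝ × VR × ℝ) :=
  {t | ∃ (b n m : ℤ) (p : VZ), 0 < m ∧ Allowed G 0 b n m p ∧ sl_kappa G x n m p < 0 ∧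
    0 ≤ b ∧ b < m ∧ t = (-sl_kappa G x n m p / m, (fun l => (p l : ℝ) / m), (b : ℝ) / m)}

lemma sl_bounds (hG : EvenPos G) {x : VR} {N : ℕ} {u : VZ} (hN : 0 < N)
    (hu : ∀ l, (N : ℝ) * x l = u l) {b n m : ℤ} {p : VZ} (hm : 0 < m)
    (h : Allowed G 0 b n m p) (hk : sl_kappa G x n m p < 0) :
    m ≤ (N : ℤ) ^ 2 ∧ qd G p ≤ 4 + 2 * ((N : ℝ) ^ 2) ^ 2 * bil G x x ∧ -1 ≤ n ∧
      (n : ℝ) ≤ 4 + 2 * ((N : ℝ) ^ 2) ^ 2 * bil G x x := by
  have hmr : (0:ℝ) < m := by exact_mod_cast hm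
  have hm1 : (1:ℝ) ≤ m := by exact_mod_cast hm
  have hNr : (0:ℝ) < N := by exact_mod_cast hN
  obtain ⟨hn1, hn2⟩ := allowed_norm hG h
  have hkeq := sl_kappa_eq hG x (n := n) (p := p) hm
  set B := bil G (x + (m : ℝ)⁻¹ • ginv G p) (x + (m : ℝ)⁻¹ • ginv G p) with hB
  have hB0 : 0 ≤ B := bil_nonneg hG _
  have hxx : 0 ≤ bil G x x := bil_nonneg hG _
  simp only [Int.cast_zero, mul_zero, zero_mul, zero_add] at hn1 hn2
  have hn1' : -2 ≤ 2 * (n : ℝ) * m - qd G p := hn1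
  have hn2' : 2 * (n : ℝ) * m - qd G p < 0 := hn2
  have hdiv : -(1 / (m : ℝ)) ≤ (2 * n * m - qd G p) / (2 * m) := by
    rw [le_div_iff₀ (by positivity)]
    have : -(1 / (m : ℝ)) * (2 * m) = -2 := by field_simp
    rw [this]; exact hn1'
  have hkge : -(1 / (m : ℝ)) ≤ sl_kappa G x n m p := by
    rw [hkeq]; have : 0 ≤ (m : ℝ) / 2 * B := by positivity
    linarith
  -- m ≤ N²
  obtain ⟨k, hkk⟩ := sl_kappa_rat hG hu n m p
  have hk1 : k ≤ -1 := by
    have : (k : ℝ) < 0 := by rw [← hkk]; exact mul_neg_of_pos_of_neg (by positivity) hk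
    have : k < 0 := by exact_mod_cast this
    omega
  have hmN : (m : ℝ) ≤ (N : ℝ) ^ 2 := by
    have h1 : (N : ℝ) ^ 2 * sl_kappa G x n m p ≤ -1 := by rw [hkk]; exact_mod_cast hk1
    have h2 : (N : ℝ) ^ 2 * (1 / (m : ℝ)) ≥ 1 := by nlinarith [hkge, sq_nonneg (N : ℝ)]
    rw [mul_one_div, ge_iff_le, le_div_iff₀ hmr] at h2
    linarith
  have hBlt : (m : ℝ) ^ 2 * B ≤ 2 := by
    have h1 : (m : ℝ) / 2 * B < 1 / m := by linarith
    have h2 : (m : ℝ) * ((m : ℝ) / 2 * B) < m * (1 / m) := mul_lt_mul_of_pos_left h1 hmr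
    rw [mul_one_div_cancel hmr.ne'] at h2
    nlinarith
  have hqd : qd G p ≤ 4 + 2 * ((N : ℝ) ^ 2) ^ 2 * bil G x x := by
    have h1 := sl_bil_par (G := G) (x + (m : ℝ)⁻¹ • ginv G p) x
    have h2 : x + (m : ℝ)⁻¹ • ginv G p - x = (m : ℝ)⁻¹ • ginv G p := by abel
    rw [h2, sl_bil_smul, bil_ginv_ginv hG] at h1
    have h3 := bil_nonneg hG (x + (m : ℝ)⁻¹ • ginv G p + x)
    have h4 : (m : ℝ)⁻¹ ^ 2 * qd G p ≤ 2 * B + 2 * bil G x x := by rw [hB]; linarith
    have h5 : qd G p = (m : ℝ) ^ 2 * ((m : ℝ)⁻¹ ^ 2 * qd G p) := by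
      field_simp
    have h6 : (m : ℝ) ^ 2 ≤ ((N : ℝ) ^ 2) ^ 2 := pow_le_pow_left₀ hmr.le hmN 2
    calc qd G p = (m : ℝ) ^ 2 * ((m : ℝ)⁻¹ ^ 2 * qd G p) := h5
      _ ≤ (m : ℝ) ^ 2 * (2 * B + 2 * bil G x x) := mul_le_mul_of_nonneg_left h4 (by positivity)
      _ = 2 * ((m : ℝ) ^ 2 * B) + 2 * ((m : ℝ) ^ 2 * bil G x x) := by ring
      _ ≤ 2 * 2 + 2 * (((N : ℝ) ^ 2) ^ 2 * bil G x x) := by
        have := mul_le_mul_of_nonneg_right h6 hxx
        linarith
      _ = _ := by ring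
  have hq0 := qd_nonneg hG p
  refine ⟨by exact_mod_cast hmN, hqd, ?_, ?_⟩
  · by_contra hlt
    have : n ≤ -2 := by omega
    have hn' : (n : ℝ) ≤ -2 := by exact_mod_cast this
    nlinarith
  · rcases le_or_gt (n : ℝ) 0 with h0 | h0
    · have : 0 ≤ 2 * ((N : ℝ) ^ 2) ^ 2 * bil G x x := by positivity
      linarith
    · nlinarith

lemma sl_set_finite (hG : EvenPos G) {x : VR} {N : ℕ} {u : VZ} (hN : 0 < N)
    (hu : ∀ l, (N : ℝ) * x l = u l) : (sl_set G x).Finite := by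
  set R : ℝ := 4 + 2 * ((N : ℝ) ^ 2) ^ 2 * bil G x x with hR
  have hfin : (Set.Icc (0:ℤ) ((N:ℤ) ^ 2) ×ˢ Set.Icc (-1:ℤ) ⌈R⌉ ×ˢ Set.Icc (0:ℤ) ((N:ℤ) ^ 2) ×ˢ
      {p : VZ | qd G p ≤ R}).Finite :=
    (Set.finite_Icc _ _).prod ((Set.finite_Icc _ _).prod ((Set.finite_Icc _ _).prod
      (finite_qd_le hG R)))
  refine (hfin.image (fun t : ℤ × ℤ × ℤ × VZ => (-sl_kappa G x t.2.1 t.2.2.1 t.2.2.2 / t.2.2.1,
    (fun l => (t.2.2.2 l : ℝ) / t.2.2.1), (t.1 : ℝ) / t.2.2.1))).subset ?_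
  rintro t ⟨b, n, m, p, hm, ha, hk, hb0, hbm, rfl⟩
  obtain ⟨h1, h2, h3, h4⟩ := sl_bounds hG hN hu hm ha hk
  refine ⟨(b, n, m, p), ⟨⟨hb0, by linarith⟩, ⟨h3, ?_⟩, ⟨hm.le, h1⟩, h2⟩, rfl⟩
  have : (n : ℝ) ≤ ⌈R⌉ := h4.trans (Int.le_ceil R)
  exact_mod_cast this

lemma sl_residual {v : VR} (hv : v ≠ 0) (b : ℝ) : {y : VR | ∑ l, v l * y l ≠ b} ∈ residual VR := by
  apply residual_of_dense_open
  · exact isOpen_ne_fun (by fun_prop) continuous_const
  · obtain ⟨l₀, hl₀⟩ : ∃ l, v l ≠ 0 := by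
      by_contra h
      push Not at h
      exact hv (funext h)
    intro y
    rw [Metric.mem_closure_iff]
    intro ε hε
    by_cases h : ∑ l, v l * y l = b
    · refine ⟨y + (ε / 2) • (Pi.single l₀ (1:ℝ) : VR), ?_, ?_⟩
      · show ∑ l, v l * (y + (ε / 2) • (Pi.single l₀ (1:ℝ) : VR)) l ≠ b
        have : ∑ l, v l * (y + (ε / 2) • (Pi.single l₀ (1:ℝ) : VR)) l = b + v l₀ * (ε / 2) := by
          simp only [Pi.add_apply, Pi.smul_apply, smul_eq_mul, mul_add, Finset.sum_add_distrib, h]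
          congr 1
          rw [Finset.sum_eq_single l₀]
          · simp
          · intro l _ hl
            simp [hl]
          · simp
        rw [this]
        intro h'
        have : v l₀ * (ε / 2) = 0 := by linarith
        rcases mul_eq_zero.1 this with h1 | h1
        · exact hl₀ h1
        · linarith
      · rw [dist_eq_norm]
        have : y - (y + (ε / 2) • (Pi.single l₀ (1:ℝ) : VR)) = -((ε / 2) • (Pi.single l₀ (1:ℝ) : VR)) := by abel
        rw [this, norm_neg, norm_smul, Real.norm_of_nonneg (by positivity), Pi.norm_single]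
        simp; linarith
    · exact ⟨y, h, by simpa using hε⟩

/-- the generic set -/
def sl_Y (G : Matrix (Fin 20) (Fin 20) ℤ) (x : VR) : Set VR :=
  {y | (∀ (p : VZ) (b : ℤ), p ≠ 0 → ∑ l, (p l : ℝ) * y l ≠ b) ∧
    ∀ (i i' : sl_set G x) (b : ℤ), i.1.2.1 ≠ i'.1.2.1 →
      ∑ l, (i.1.2.1 l - i'.1.2.1 l) * y l ≠ b - (i.1.2.2 - i'.1.2.2)}

lemma sl_Y_residual (hG : EvenPos G) {x : VR} {N : ℕ} {u : VZ} (hN : 0 < N)
    (hu : ∀ l, (N : ℝ) * x l = u l) : sl_Y G x ∈ residual VR := by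
  have hfin := sl_set_finite hG hN hu
  have : Finite (sl_set G x) := hfin
  have h1 : ∀ᶠ y in residual VR, ∀ (p : VZ) (b : ℤ), p ≠ 0 → ∑ l, (p l : ℝ) * y l ≠ b := by
    rw [eventually_countable_forall]
    intro p
    rw [eventually_countable_forall]
    intro b
    by_cases hp : p = 0
    · exact Eventually.of_forall fun y h => absurd hp h
    · have hp' : (fun l => (p l : ℝ)) ≠ 0 := by
        intro h
        apply hp
        funext l
        have := congrFun h l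
        simpa using this
      filter_upwards [sl_residual hp' b] with y hy _
      exact hy
  have h2 : ∀ᶠ y in residual VR, ∀ (i i' : sl_set G x) (b : ℤ), i.1.2.1 ≠ i'.1.2.1 →
      ∑ l, (i.1.2.1 l - i'.1.2.1 l) * y l ≠ b - (i.1.2.2 - i'.1.2.2) := by
    rw [eventually_countable_forall]
    intro i
    rw [eventually_countable_forall]
    intro i'
    rw [eventually_countable_forall]
    intro b
    by_cases hp : i.1.2.1 = i'.1.2.1
    · exact Eventually.of_forall fun y h => absurd hp h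
    · have hp' : (fun l => i.1.2.1 l - i'.1.2.1 l) ≠ 0 := by
        intro h
        apply hp
        funext l
        have := congrFun h l
        simpa [sub_eq_zero] using this
      filter_upwards [sl_residual hp' (b - (i.1.2.2 - i'.1.2.2))] with y hy _
      exact hy
  exact h1.and h2

lemma sl_im (x y : VR) (τ : ℂ) : imC (τ • ofR x + ofR y) = τ.im • x := by
  funext l
  simp [imC, ofR]

lemma sl_bil_im (x y : VR) (τ : ℂ) :
    bil G (imC (τ • ofR x + ofR y)) (imC (τ • ofR x + ofR y)) = τ.im ^ 2 * bil G x x := by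
  rw [sl_im, sl_bil_smul]

lemma sl_dot (p : VZ) (x y : VR) (τ : ℂ) :
    dot p (τ • ofR x + ofR y) = τ * (dot p x : ℝ) + (dot p y : ℝ) := by
  simp only [dot, ofR, Complex.ofReal_sum, Finset.mul_sum, ← Finset.sum_add_distrib,
    Pi.add_apply, Pi.smul_apply, smul_eq_mul]
  refine Finset.sum_congr rfl fun i _ => ?_
  push_cast; ring

lemma sl_tube (x y : VR) {τ ω : ℂ} (hτ : 0 < τ.im) (hω : 0 < ω.im) :
    (τ, τ • ofR x + ofR y, ω + (bil G x x : ℝ) * τ / 2) ∈ Tube G := by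
  refine ⟨hτ, ?_⟩
  show bil G (imC (τ • ofR x + ofR y)) (imC (τ • ofR x + ofR y)) <
    2 * τ.im * (ω + (bil G x x : ℝ) * τ / 2).im
  rw [sl_bil_im]
  have : (ω + (bil G x x : ℝ) * τ / 2).im = ω.im + bil G x x * τ.im / 2 := by simp
  rw [this]
  have : 0 < τ.im * ω.im := mul_pos hτ hω
  nlinarith

/-- asymptotic zeros: `ζ_i` -/
noncomputable def sl_zeta (G : Matrix (Fin 20) (Fin 20) ℤ) (x y : VR) (i : sl_set G x) : ℂ :=
  e (-((∑ l, i.1.2.1 l * y l + i.1.2.2 : ℝ) : ℂ))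

lemma sl_zero (hG : EvenPos G) {k : ℤ} {f : ℂ → VC → ℂ → ℂ} (hf : TF G k f) {x y : VR}
    (hy : y ∈ sl_Y G x) {τ ω : ℂ} (hτ : 1 < τ.im) (hω : 1 ≤ ω.im)
    (h0 : f τ (τ • ofR x + ofR y) (ω + (bil G x x : ℝ) * τ / 2) = 0) :
    ∃ i : sl_set G x, e ω = e (i.1.1 * τ) * sl_zeta G x y i := by
  have hT := sl_tube (G := G) x y (τ := τ) (ω := ω) (by linarith) (by linarith)
  have hY : 2 < 2 * τ.im * (ω + (bil G x x : ℝ) * τ / 2).im -
      bil G (imC (τ • ofR x + ofR y)) (imC (τ • ofR x + ofR y)) := by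
    rw [sl_bil_im]
    have : (ω + (bil G x x : ℝ) * τ / 2).im = ω.im + bil G x x * τ.im / 2 := by simp
    rw [this]
    nlinarith
  obtain ⟨b, n, m, p, ha, he⟩ := zero_a hG hf hT hY h0
  -- general statement for m > 0
  have key : ∀ (b n m : ℤ) (p : VZ), 0 < m → Allowed G 0 b n m p →
      (b : ℂ) + n * τ + m * (ω + (bil G x x : ℝ) * τ / 2) + dot p (τ • ofR x + ofR y) = 0 →
      ∃ i : sl_set G x, e ω = e (i.1.1 * τ) * sl_zeta G x y i := by
    intro b n m p hm ha he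
    have hmC : (m : ℂ) ≠ 0 := by exact_mod_cast hm.ne'
    have hmR : (0:ℝ) < (m : ℝ) := by exact_mod_cast hm
    rw [sl_dot] at he
    have he' : (sl_kappa G x n m p : ℂ) * τ + m * ω + ((dot p y : ℝ) : ℂ) + b = 0 := by
      rw [← he, sl_kappa]; push_cast; ring
    have him : sl_kappa G x n m p * τ.im + m * ω.im = 0 := by
      have := congrArg Complex.im he'
      simpa using this
    have hk : sl_kappa G x n m p < 0 := by
      have h1 : 0 < (m : ℝ) * ω.im := by positivity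
      have h2 : sl_kappa G x n m p * τ.im < 0 := by linarith
      by_contra h3
      push Not at h3
      have : 0 ≤ sl_kappa G x n m p * τ.im := mul_nonneg h3 (by linarith)
      linarith
    have hb0 : 0 ≤ b % m := Int.emod_nonneg b hm.ne'
    have hbm : b % m < m := Int.emod_lt_of_pos b hm
    refine ⟨⟨(-sl_kappa G x n m p / m, (fun l => (p l : ℝ) / m), ((b % m : ℤ) : ℝ) / m),
      ⟨b % m, n, m, p, hm, sl_allowed_b ha, hk, hb0, hbm, rfl⟩⟩, ?_⟩
    rw [sl_zeta]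
    show e ω = e (((-sl_kappa G x n m p / m : ℝ) : ℂ) * τ) *
      e (-((∑ l, (p l : ℝ) / m * y l + ((b % m : ℤ) : ℝ) / m : ℝ) : ℂ))
    have hω' : ω = ((-sl_kappa G x n m p / m : ℝ) : ℂ) * τ +
        (-((∑ l, (p l : ℝ) / m * y l + ((b % m : ℤ) : ℝ) / m : ℝ) : ℂ)) + ((-(b / m) : ℤ) : ℂ) := by
      have h1 : ∑ l, (p l : ℝ) / m * y l = dot p y / m := by
        rw [dot, Finset.sum_div]
        refine Finset.sum_congr rfl fun i _ => ?_
        ring
      rw [h1]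
      have h2 : (m : ℂ) * ((b / m : ℤ) : ℂ) + ((b % m : ℤ) : ℂ) = (b : ℂ) := by
        exact_mod_cast Int.mul_ediv_add_emod b m
      have h3 : ((b % m : ℤ) : ℂ) = (b : ℂ) - m * ((b / m : ℤ) : ℂ) := by rw [← h2]; ring
      push_cast
      rw [h3]
      field_simp
      linear_combination he'
    calc e ω = e (((-sl_kappa G x n m p / m : ℝ) : ℂ) * τ +
        (-((∑ l, (p l : ℝ) / m * y l + ((b % m : ℤ) : ℝ) / m : ℝ) : ℂ)) + ((-(b / m) : ℤ) : ℂ)) := by
          rw [← hω']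
      _ = _ := by rw [e_add, e_add, e_int, mul_one]
  rcases lt_trichotomy m 0 with hm | hm | hm
  · refine key (-b) (-n) (-m) (-p) (by omega) ?_ ?_
    · have := allowed_neg ha
      simpa using this
    · have h1 : dot (-p) (τ • ofR x + ofR y) = -dot p (τ • ofR x + ofR y) := by
        simp [dot]
      rw [h1]
      push_cast
      linear_combination -he
  · exfalso
    subst hm
    have hqd := (allowed_norm hG ha).2
    simp only [Int.cast_zero, mul_zero, zero_mul, zero_add] at hqd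
    have hp : p ≠ 0 := by
      rintro rfl
      simp [qd] at hqd
    rw [sl_dot] at he
    have him : ((n : ℝ) + dot p x) * τ.im = 0 := by
      have := congrArg Complex.im he
      simp at this
      linarith
    have h1 : (n : ℝ) + dot p x = 0 := by
      rcases mul_eq_zero.1 him with h | h
      · exact h
      · linarith
    have hre : (b : ℝ) + dot p y = 0 := by
      have h2 := congrArg Complex.re he
      simp at h2
      have h3 : (b : ℝ) + dot p y + (n + dot p x) * τ.re = 0 := by linarith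
      rw [h1] at h3
      simpa using h3
    apply hy.1 p (-b) hp
    rw [dot] at hre
    push_cast
    linarith
  · exact key b n m p hm ha he

lemma sl_wall {x y : VR} (hy : y ∈ sl_Y G x) {τ : ℂ} (hτ : 0 < τ.im) (n b : ℤ) (p : VZ)
    (hp : 0 < qd G p) : (b : ℂ) + n * τ + dot p (τ • ofR x + ofR y) ≠ 0 := by
  intro he
  have hp : p ≠ 0 := by
    rintro rfl
    simp [qd] at hp
  rw [sl_dot] at he
  have him : ((n : ℝ) + dot p x) * τ.im = 0 := by
    have := congrArg Complex.im he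
    simp at this
    linarith
  have h1 : (n : ℝ) + dot p x = 0 := by
    rcases mul_eq_zero.1 him with h | h
    · exact h
    · linarith
  have hre : (b : ℝ) + dot p y = 0 := by
    have h2 := congrArg Complex.re he
    simp at h2
    have h3 : (b : ℝ) + dot p y + (n + dot p x) * τ.re = 0 := by linarith
    rw [h1] at h3
    simpa using h3
  apply hy.1 p (-b) hp
  rw [dot] at hre
  push_cast
  linarith

lemma sl_e_eq_iff {s t : ℂ} : e s = e t ↔ ∃ n : ℤ, s = t + n := by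
  unfold e
  rw [Complex.exp_eq_exp_iff_exists_int]
  have hpi : (2 * Real.pi * Complex.I : ℂ) ≠ 0 := Complex.two_pi_I_ne_zero
  constructor
  · rintro ⟨n, hn⟩
    refine ⟨n, ?_⟩
    have : (2 * Real.pi * Complex.I : ℂ) * s = (2 * Real.pi * Complex.I) * (t + n) := by
      rw [hn]; ring
    exact mul_left_cancel₀ hpi this
  · rintro ⟨n, rfl⟩
    exact ⟨n, by ring⟩

lemma sl_inj {x y : VR} (hy : y ∈ sl_Y G x) :
    Function.Injective (fun i : sl_set G x => (i.1.1, sl_zeta G x y i)) := by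
  intro i i' h
  simp only [Prod.mk.injEq] at h
  obtain ⟨h1, h2⟩ := h
  rw [sl_zeta, sl_zeta, sl_e_eq_iff] at h2
  obtain ⟨n, hn⟩ := h2
  have hn' : -(∑ l, i.1.2.1 l * y l + i.1.2.2) = -(∑ l, i'.1.2.1 l * y l + i'.1.2.2) + n := by
    have := congrArg Complex.re hn
    simpa using this
  by_cases hξ : i.1.2.1 = i'.1.2.1
  · rw [hξ] at hn'
    have hθ : i'.1.2.2 - i.1.2.2 = n := by linarith
    obtain ⟨b, n₁, m, p, hm, -, -, hb0, hbm, hi⟩ := i.2
    obtain ⟨b', n₁', m', p', hm', -, -, hb0', hbm', hi'⟩ := i'.2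
    have hmR : (0:ℝ) < (m : ℝ) := by exact_mod_cast hm
    have hmR' : (0:ℝ) < (m' : ℝ) := by exact_mod_cast hm'
    have e1 : i.1.2.2 = (b : ℝ) / m := by rw [hi]
    have e2 : i'.1.2.2 = (b' : ℝ) / m' := by rw [hi']
    have f1 : 0 ≤ i.1.2.2 := by rw [e1]; apply div_nonneg _ hmR.le; exact_mod_cast hb0
    have f2 : i.1.2.2 < 1 := by rw [e1, div_lt_one hmR]; exact_mod_cast hbm
    have f3 : 0 ≤ i'.1.2.2 := by rw [e2]; apply div_nonneg _ hmR'.le; exact_mod_cast hb0'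
    have f4 : i'.1.2.2 < 1 := by rw [e2, div_lt_one hmR']; exact_mod_cast hbm'
    have hn0 : n = 0 := by
      have g1 : (n : ℝ) < 1 := by rw [← hθ]; linarith
      have g2 : (-1 : ℝ) < n := by rw [← hθ]; linarith
      have g1' : n < 1 := by exact_mod_cast g1
      have g2' : -1 < n := by exact_mod_cast g2
      omega
    rw [hn0] at hθ
    apply Subtype.ext
    refine Prod.ext h1 (Prod.ext hξ ?_)
    simp at hθ; linarith
  · exfalso
    apply hy.2 i i' (-n) hξ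
    simp only [sub_mul, Finset.sum_sub_distrib]
    push_cast
    linarith

end Pool.Agent.Refl
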