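import Pool.Agent.Refl.Basic

/-!
# Module THETA, auxiliary file: Fourier series of continuous periodic functions on `ℝ^d`,
summability of Gaussians over `ℤ²⁰`
-/

namespace Pool.Agent.Refl
open MeasureTheory Topology

/-- the projection to the torus -/
theorem th_quot (d : Type*) [Fintype d] :
    IsOpenQuotientMap (fun (y : d → ℝ) (i : d) => ((y i : ℝ) : UnitAddCircle)) :=
  IsOpenQuotientMap.piMap (f := fun (_ : d) (x : ℝ) => (x : UnitAddCircle))
    fun _ => QuotientAddGroup.isOpenQuotientMap_mk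

theorem th_mFourier {d : Type*} [Fintype d] (p : d → ℤ) (y : d → ℝ) :
    UnitAddTorus.mFourier p (fun i => ((y i : ℝ) : UnitAddCircle)) =
      e (∑ i, (p i : ℂ) * (y i : ℂ)) := by
  simp only [UnitAddTorus.mFourier, ContinuousMap.coe_mk, fourier_coe_apply, e]
  rw [← Complex.exp_sum]
  congr 1
  rw [Finset.mul_sum]
  refine Finset.sum_congr rfl fun i _ => ?_
  simp; ring

/-- Fourier series of a continuous periodic function with summable coefficients -/
theorem th_fourier {d : Type*} [Fintype d] (g : (d → ℝ) → ℂ) (hg : Continuous g)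
    (hper : ∀ (y : d → ℝ) (x : d → ℤ), g (y + fun i => (x i : ℝ)) = g y)
    (hs : Summable (fun p : d → ℤ =>
      ∫ y in Set.Icc (0 : d → ℝ) 1, g y * e (-∑ i, (p i : ℂ) * (y i : ℂ)))) (y : d → ℝ) :
    HasSum (fun p : d → ℤ => (∫ y in Set.Icc (0 : d → ℝ) 1,
      g y * e (-∑ i, (p i : ℂ) * (y i : ℂ))) * e (∑ i, (p i : ℂ) * (y i : ℂ))) (g y) := by
  let π : C(d → ℝ, UnitAddTorus d) :=
    ⟨fun y i => ((y i : ℝ) : UnitAddCircle), (th_quot d).continuous⟩
  have hq : IsQuotientMap π := (th_quot d).isQuotientMap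
  have hlift : ∀ a b : d → ℝ, (fun i => ((a i : ℝ) : UnitAddCircle)) =
      (fun i => ((b i : ℝ) : UnitAddCircle)) → g a = g b := by
    intro a b hab
    have h1 : ∀ i, ∃ n : ℤ, a i = b i + n := by
      intro i
      have h2 := congrFun hab i
      rw [QuotientAddGroup.eq_iff_sub_mem, AddSubgroup.mem_zmultiples_iff] at h2
      obtain ⟨n, hn⟩ := h2
      exact ⟨n, by rw [zsmul_eq_mul, mul_one] at hn; linarith⟩
    choose n hn using h1
    rw [← hper b n]
    congr 1
    funext i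
    simp [hn i]
  let f : C(UnitAddTorus d, ℂ) := hq.lift ⟨g, hg⟩ (fun a b h => hlift a b h)
  have hf : ∀ y : d → ℝ, f (fun i => ((y i : ℝ) : UnitAddCircle)) = g y := by
    intro y
    exact congrFun (congrArg DFunLike.coe (hq.lift_comp (⟨g, hg⟩ : C(d → ℝ, ℂ))
      (fun a b h => hlift a b h))) y
  have hc : ∀ p : d → ℤ, UnitAddTorus.mFourierCoeff f p =
      ∫ y in Set.Icc (0 : d → ℝ) 1, g y * e (-∑ i, (p i : ℂ) * (y i : ℂ)) := by
    intro p
    rw [UnitAddTorus.mFourierCoeff_eq_integral f p 0]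
    have h1 : {x : d → ℝ | ∀ i, x i ∈ Set.Ioc ((0 : d → ℝ) i) ((0 : d → ℝ) i + 1)} =
        Set.pi Set.univ (fun i => Set.Ioc ((0 : d → ℝ) i) ((1 : d → ℝ) i)) := by
      ext x; simp [Set.mem_pi]
    have h2 : (Set.pi Set.univ (fun i => Set.Ioc ((0 : d → ℝ) i) ((1 : d → ℝ) i)))
        =ᵐ[volume] Set.Icc (0 : d → ℝ) 1 := Measure.univ_pi_Ioc_ae_eq_Icc
    rw [h1, setIntegral_congr_set h2]
    refine integral_congr_ae (Filter.Eventually.of_forall fun y => ?_)
    simp only [hf, th_mFourier, smul_eq_mul]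
    rw [mul_comm]
    congr 2
    simp
  have hs' : Summable (UnitAddTorus.mFourierCoeff f) := by
    convert hs using 1
    funext p
    exact hc p
  have key := UnitAddTorus.hasSum_mFourier_series_apply_of_summable hs'
    (fun i => ((y i : ℝ) : UnitAddCircle))
  rw [hf] at key
  convert key using 1
  funext p
  rw [hc, th_mFourier, smul_eq_mul]


theorem th_summable_pi : ∀ (n : ℕ) (f : Fin n → ℤ → ℝ) (_ : ∀ i k, 0 ≤ f i k)
    (_ : ∀ i, Summable (f i)), Summable (fun p : Fin n → ℤ => ∏ i, f i (p i)) := by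
  intro n
  induction n with
  | zero =>
    intro f _ _
    exact Summable.of_finite
  | succ n ih =>
    intro f h0 hs
    rw [← (Fin.consEquiv (fun _ : Fin (n + 1) => ℤ)).summable_iff]
    have h1 := ih (fun i => f i.succ) (fun i k => h0 _ _) (fun i => hs _)
    have h2 := (hs 0).mul_of_nonneg h1 (fun k => h0 0 k)
      (fun p => Finset.prod_nonneg fun i _ => h0 _ _)
    refine h2.congr fun x => ?_
    simp [Fin.prod_univ_succ, Fin.consEquiv]

theorem th_summable_gauss1 (t v : ℝ) (ht : 0 < t) :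
    Summable (fun n : ℤ => Real.exp (-Real.pi * n ^ 2 * t - 2 * Real.pi * n * v)) := by
  have h := ((summable_jacobiTheta₂_term_iff ((v : ℂ) * Complex.I) ((t : ℂ) * Complex.I)).2
    (by simpa using ht)).norm
  simpa [norm_jacobiTheta₂_term] using h

variable {G : Matrix (Fin 20) (Fin 20) ℤ}

theorem th_qd_lower (hG : EvenPos G) : ∃ c : ℝ, 0 < c ∧ ∀ p : VZ,
    c * ∑ i, (p i : ℝ) ^ 2 ≤ qd G p := by
  obtain ⟨M, hM⟩ : ∃ M : ℝ, 0 < M ∧ ∀ i, (G i i : ℝ) ≤ M := by
    refine ⟨1 + ∑ i, |(G i i : ℝ)|, by positivity, fun i => ?_⟩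
    have h1 : |(G i i : ℝ)| ≤ ∑ i, |(G i i : ℝ)| :=
      Finset.single_le_sum (f := fun i => |(G i i : ℝ)|) (fun i _ => abs_nonneg _)
        (Finset.mem_univ i)
    have h2 := le_abs_self (G i i : ℝ)
    linarith
  obtain ⟨hM0, hM⟩ := hM
  refine ⟨1 / (20 * M), by positivity, fun p => ?_⟩
  have h1 : ∀ i, (p i : ℝ) ^ 2 ≤ qd G p * M := by
    intro i
    have h2 := dot_sq_le hG p (Pi.single i 1)
    have h3 : dot p (Pi.single i (1 : ℝ)) = (p i : ℝ) := by
      simp [dot, Pi.single_apply]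
    have h4 : bil G (Pi.single i (1 : ℝ)) (Pi.single i 1) = (G i i : ℝ) := by
      simp [bil, Pi.single_apply]
    rw [h3, h4] at h2
    exact h2.trans (mul_le_mul_of_nonneg_left (hM i) (qd_nonneg hG p))
  have h2 : ∑ i, (p i : ℝ) ^ 2 ≤ ∑ _i : Fin 20, qd G p * M := Finset.sum_le_sum fun i _ => h1 i
  rw [Finset.sum_const, Finset.card_univ, Fintype.card_fin, nsmul_eq_mul] at h2
  rw [div_mul_eq_mul_div, div_le_iff₀ (by positivity)]
  push_cast at h2
  linarith

theorem th_summable_gauss (hG : EvenPos G) (t : ℝ) (ht : 0 < t) (v : VR) :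
    Summable (fun p : VZ => Real.exp (-(Real.pi * t * qd G p) - 2 * Real.pi * dot p v)) := by
  obtain ⟨c, hc, hq⟩ := th_qd_lower hG
  have h1 := th_summable_pi 20
    (fun i n => Real.exp (-Real.pi * n ^ 2 * (t * c) - 2 * Real.pi * n * v i))
    (fun i k => (Real.exp_pos _).le) (fun i => th_summable_gauss1 (t * c) (v i) (by positivity))
  refine h1.of_nonneg_of_le (fun p => (Real.exp_pos _).le) fun p => ?_
  rw [← Real.exp_sum, Real.exp_le_exp, Finset.sum_sub_distrib]
  have h2 : ∑ i, -Real.pi * (p i : ℝ) ^ 2 * (t * c) = -(Real.pi * t * (c * ∑ i, (p i : ℝ) ^ 2)) := by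
    rw [Finset.mul_sum, Finset.mul_sum, ← Finset.sum_neg_distrib]
    refine Finset.sum_congr rfl fun i _ => by ring
  have h3 : ∑ i, 2 * Real.pi * (p i : ℝ) * v i = 2 * Real.pi * dot p v := by
    rw [dot, Finset.mul_sum]
    refine Finset.sum_congr rfl fun i _ => by ring
  rw [h2, h3]
  have h4 : Real.pi * t * (c * ∑ i, (p i : ℝ) ^ 2) ≤ Real.pi * t * qd G p :=
    mul_le_mul_of_nonneg_left (hq p) (by positivity)
  linarith

end Pool.Agent.Refl
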