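import Pool.Agent.Refl.Basic

/-! Module VV0: vanishing by the maximum principle. -/

namespace Pool.Agent.Refl
open Matrix

open UpperHalfPlane ModularGroup MatrixGroups Filter Topology in
/-- core version of `unitary_zero`, with a bound only for large imaginary part -/
theorem vv_core {D : Type*} [Fintype D] (x : D → ℂ → ℂ)
    (hol : ∀ γ, DifferentiableOn ℂ (x γ) {τ : ℂ | 0 < τ.im})
    (hT : ∀ τ : ℂ, 0 < τ.im → ∑ γ, ‖x γ (τ + 1)‖ ^ 2 = ∑ γ, ‖x γ τ‖ ^ 2)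
    (hS : ∀ τ : ℂ, 0 < τ.im → ∑ γ, ‖x γ (-1 / τ)‖ ^ 2 = ∑ γ, ‖x γ τ‖ ^ 2)
    (A₀ K ε : ℝ) (hε : 0 < ε)
    (hg : ∀ γ (τ : ℂ), A₀ ≤ τ.im → ‖x γ τ‖ ≤ K * Real.exp (-(ε * τ.im))) :
    ∀ γ (τ : ℂ), 0 < τ.im → x γ τ = 0 := by
  by_contra hcon
  push Not at hcon
  obtain ⟨γ₁, τ₁, hτ₁, hx⟩ := hcon
  set u : ℍ → ℝ := fun τ => ∑ γ, ‖x γ (τ : ℂ)‖ ^ 2 with hu
  have huc : Continuous u := by
    refine continuous_finsetSum _ fun γ _ => ?_
    have h1 : Continuous fun τ : ℍ => x γ (τ : ℂ) := by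
      have := (hol γ).continuousOn
      rw [continuousOn_iff_continuous_domRestrict] at this
      exact this.comp (Continuous.subtype_mk UpperHalfPlane.continuous_coe fun τ => τ.2)
    exact (h1.norm).pow 2
  have huT : ∀ τ : ℍ, u (T • τ) = u τ := by
    intro τ
    have e : ((T • τ : ℍ) : ℂ) = τ + 1 := by
      rw [modular_T_smul]; simp [add_comm]
    simp only [hu, e]
    exact hT τ τ.2
  have huS : ∀ τ : ℍ, u (S • τ) = u τ := by
    intro τ
    have e : ((S • τ : ℍ) : ℂ) = -1 / τ := by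
      rw [modular_S_smul]
      simp [neg_div, inv_neg]
    simp only [hu, e]
    exact hS τ τ.2
  have hinv : ∀ (g : SL(2, ℤ)) (τ : ℍ), u (g • τ) = u τ := by
    intro g
    have hgm : g ∈ Subgroup.closure {S, T} := by simp [SpecialLinearGroup.SL2Z_generators]
    induction hgm using Subgroup.closure_induction with
    | mem y hy =>
      rcases hy with rfl | hy
      · exact huS
      · rw [Set.mem_singleton_iff] at hy; subst hy; exact huT
    | one => intro τ; rw [one_smul]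
    | mul a b _ _ ha hb => intro τ; rw [mul_smul, ha, hb]
    | inv a _ ha => intro τ; rw [← ha (a⁻¹ • τ), smul_inv_smul]
  set c : ℝ := u ⟨τ₁, hτ₁⟩ with hc
  have hc0 : 0 < c := by
    refine Finset.sum_pos' (fun _ _ => by positivity) ⟨γ₁, Finset.mem_univ _, ?_⟩
    have : 0 < ‖x γ₁ τ₁‖ := norm_pos_iff.2 hx
    positivity
  -- decay
  obtain ⟨A, hA1, hA⟩ : ∃ A : ℝ, 1 ≤ A ∧ ∀ τ : ℍ, A ≤ τ.im → u τ < c := by
    have hlim : Tendsto (fun y : ℝ => (Fintype.card D : ℝ) * (K * Real.exp (-(ε * y))) ^ 2)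
        atTop (𝓝 0) := by
      have h1 : Tendsto (fun y : ℝ => Real.exp (-(ε * y))) atTop (𝓝 0) :=
        Real.tendsto_exp_neg_atTop_nhds_zero.comp (tendsto_id.const_mul_atTop hε)
      have h2 := ((h1.const_mul K).pow 2).const_mul (Fintype.card D : ℝ)
      simpa using h2
    obtain ⟨A, hA⟩ := eventually_atTop.1 (hlim.eventually (gt_mem_nhds hc0))
    refine ⟨max A (max A₀ 1), le_trans (le_max_right _ _) (le_max_right _ _), fun τ hτ => ?_⟩
    refine lt_of_le_of_lt ?_ (hA τ.im (le_trans (le_max_left _ _) hτ))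
    calc u τ ≤ ∑ _γ : D, (K * Real.exp (-(ε * τ.im))) ^ 2 := by
          refine Finset.sum_le_sum fun γ _ => ?_
          exact pow_le_pow_left₀ (norm_nonneg _)
            (hg γ τ (le_trans (le_trans (le_max_left _ _) (le_max_right _ _)) hτ)) 2
      _ = _ := by rw [Finset.sum_const, Finset.card_univ, nsmul_eq_mul]
  -- maximum
  obtain ⟨g₁, hg₁⟩ := exists_smul_mem_fd ⟨τ₁, hτ₁⟩
  have hmem : g₁ • (⟨τ₁, hτ₁⟩ : ℍ) ∈ truncatedFundamentalDomain A := by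
    refine ⟨hg₁, ?_⟩
    by_contra h
    have := hA _ (le_of_lt (not_le.1 h))
    rw [hinv] at this
    exact lt_irrefl _ this
  obtain ⟨τ₀, hτ₀, hmax⟩ := (isCompact_truncatedFundamentalDomain A).exists_isMaxOn ⟨_, hmem⟩
    huc.continuousOn
  have hcu : c ≤ u τ₀ := by
    have := hmax hmem
    simp only [Set.mem_ofPred_eq] at this
    rwa [hinv] at this
  have hmax' : ∀ τ : ℍ, u τ ≤ u τ₀ := by
    intro τ
    obtain ⟨g, hgτ⟩ := exists_smul_mem_fd τ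
    rw [← hinv g τ]
    by_cases h : (g • τ).im ≤ A
    · exact hmax ⟨hgτ, h⟩
    · exact (le_of_lt (hA _ (le_of_lt (not_le.1 h)))).trans hcu
  -- maximum principle
  set φ : ℂ → ℂ := fun τ => ∑ γ, (starRingEnd ℂ) (x γ τ₀) * x γ τ with hφ
  have hφd : DifferentiableOn ℂ φ {τ : ℂ | 0 < τ.im} :=
    DifferentiableOn.fun_sum fun γ _ => (hol γ).const_mul _
  have hCS : ∀ τ : ℍ, ‖φ τ‖ ^ 2 ≤ u τ₀ * u τ := by
    intro τ
    have h1 : ‖φ τ‖ ≤ ∑ γ, ‖x γ τ₀‖ * ‖x γ τ‖ := by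
      refine (norm_sum_le _ _).trans (le_of_eq ?_)
      refine Finset.sum_congr rfl fun γ _ => ?_
      rw [norm_mul, RCLike.norm_conj]
    have h2 := Finset.sum_mul_sq_le_sq_mul_sq Finset.univ (fun γ => ‖x γ τ₀‖)
      (fun γ => ‖x γ (τ : ℂ)‖)
    exact (pow_le_pow_left₀ (norm_nonneg _) h1 2).trans h2
  have hφ0 : ‖φ τ₀‖ = u τ₀ := by
    have : φ τ₀ = ((u τ₀ : ℝ) : ℂ) := by
      simp only [hφ, hu, Complex.ofReal_sum]
      refine Finset.sum_congr rfl fun γ _ => ?_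
      rw [← Complex.normSq_eq_conj_mul_self, Complex.normSq_eq_norm_sq]
    rw [this, Complex.norm_real, Real.norm_of_nonneg (hc0.le.trans hcu)]
  have hu0 : 0 < u τ₀ := lt_of_lt_of_le hc0 hcu
  have hmaxφ : IsMaxOn (norm ∘ φ) {τ : ℂ | 0 < τ.im} (τ₀ : ℂ) := by
    intro τ hτ
    simp only [Set.mem_ofPred_eq, Function.comp_apply]
    rw [hφ0]
    have h1 := hCS ⟨τ, hτ⟩
    have h2 := hmax' ⟨τ, hτ⟩
    have h3 : ‖φ τ‖ ^ 2 ≤ u τ₀ ^ 2 := by
      refine h1.trans ?_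
      rw [pow_two]
      exact mul_le_mul_of_nonneg_left h2 hu0.le
    exact (pow_le_pow_iff_left₀ (norm_nonneg _) hu0.le two_ne_zero).1 h3
  have hpre : IsPreconnected {τ : ℂ | 0 < τ.im} :=
    Convex.isPreconnected (convex_halfSpace_im_gt 0)
  have hopen : IsOpen {τ : ℂ | 0 < τ.im} := isOpen_lt continuous_const Complex.continuous_im
  have hconst := Complex.eqOn_of_isPreconnected_of_isMaxOn_norm hpre hopen hφd τ₀.2 hmaxφ
  have hA0 : 0 < A := by linarith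
  let σ : ℍ := ⟨A * Complex.I, by simpa using hA0⟩
  have hσ : A ≤ σ.im := by
    show A ≤ (A * Complex.I).im
    simp
  have h1 := hconst σ.2
  simp only [Function.const_apply] at h1
  have h2 := hCS σ
  have h3 := hA σ hσ
  have h4 : ‖φ (σ : ℂ)‖ = u τ₀ := by
    rw [← hφ0]
    exact congrArg norm h1
  rw [h4, pow_two] at h2
  have h5 := le_of_mul_le_mul_left h2 hu0
  linarith

/-- A vector valued function of weight 0 with unitary transformation behaviour which tends to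
zero at the cusp vanishes. -/
theorem unitary_zero {D : Type*} [Fintype D] (x : D → ℂ → ℂ)
    (hol : ∀ γ, DifferentiableOn ℂ (x γ) {τ : ℂ | 0 < τ.im})
    (hT : ∀ τ : ℂ, 0 < τ.im → ∑ γ, ‖x γ (τ + 1)‖ ^ 2 = ∑ γ, ‖x γ τ‖ ^ 2)
    (hS : ∀ τ : ℂ, 0 < τ.im → ∑ γ, ‖x γ (-1 / τ)‖ ^ 2 = ∑ γ, ‖x γ τ‖ ^ 2)
    (K ε : ℝ) (hε : 0 < ε)
    (hg : ∀ γ (τ : ℂ), 1 ≤ τ.im → ‖x γ τ‖ ≤ K * Real.exp (-(ε * τ.im))) :
    ∀ γ (τ : ℂ), 0 < τ.im → x γ τ = 0 :=
  vv_core x hol hT hS 1 K ε hε hg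

/-! ### The eta function -/

lemma vv_eta_diff : DifferentiableOn ℂ ModularForm.eta {τ : ℂ | 0 < τ.im} := fun _ hτ =>
  (ModularForm.differentiableAt_eta_of_mem_upperHalfPlaneSet hτ).differentiableWithinAt

lemma vv_eta_ne {τ : ℂ} (hτ : 0 < τ.im) : ModularForm.eta τ ≠ 0 := ModularForm.eta_ne_zero hτ

lemma vv_eta_T (τ : ℂ) : ‖ModularForm.eta (τ + 1)‖ = ‖ModularForm.eta τ‖ := by
  unfold ModularForm.eta
  have h1 : ∀ n, ModularForm.eta_q n (τ + 1) = ModularForm.eta_q n τ := by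
    intro n
    unfold ModularForm.eta_q
    congr 1
    simp only [Function.Periodic.qParam, Complex.ofReal_one, div_one]
    rw [mul_add, Complex.exp_add, mul_one, Complex.exp_two_pi_mul_I, mul_one]
  simp only [h1, norm_mul]
  congr 1
  rw [Function.Periodic.norm_qParam, Function.Periodic.norm_qParam]
  simp

lemma vv_eta_S {τ : ℂ} (hτ : 0 < τ.im) :
    ‖ModularForm.eta (-1 / τ)‖ ^ 2 = ‖τ‖ * ‖ModularForm.eta τ‖ ^ 2 := by
  have h := ModularForm.eta_comp_eq_csqrt_I_inv (show τ ∈ UpperHalfPlane.upperHalfPlaneSet from hτ)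
  have hs : ∀ z : ℂ, z ≠ 0 → ‖Complex.sqrt z‖ ^ 2 = ‖z‖ := by
    intro z hz
    rw [← norm_pow]
    congr 1
    rw [Complex.sqrt, ← Complex.cpow_nat_mul]
    norm_num
  have h0 : τ ≠ 0 := by
    rintro rfl
    simp at hτ
  simp only [Function.comp_apply, Pi.smul_apply, Pi.mul_apply, smul_eq_mul] at h
  rw [h, norm_mul, norm_mul, mul_pow, mul_pow, norm_inv, inv_pow, hs τ h0,
    hs Complex.I Complex.I_ne_zero]
  simp

open Filter Topology in
lemma vv_eta_bd : ∃ c C : ℝ, 0 < c ∧ 0 < C ∧ ∀ τ : ℂ, 1 ≤ τ.im →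
    c * Real.exp (-(Real.pi / 12 * τ.im)) ≤ ‖ModularForm.eta τ‖ ∧
    ‖ModularForm.eta τ‖ ≤ C * Real.exp (-(Real.pi / 12 * τ.im)) := by
  have hr : Real.exp (-(2 * Real.pi)) < 1 := by
    rw [Real.exp_lt_one_iff]
    have := Real.pi_pos
    linarith
  have hc : ContinuousOn (fun q : ℂ => ∏' n : ℕ, (1 - q ^ (n + 1)))
      (Metric.closedBall (0 : ℂ) (Real.exp (-(2 * Real.pi)))) :=
    ModularForm.differentiableOn_tprod_one_sub_pow.continuousOn.mono
      (Metric.closedBall_subset_ball hr)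
  have hne : ∀ q ∈ Metric.closedBall (0 : ℂ) (Real.exp (-(2 * Real.pi))),
      ∏' n : ℕ, (1 - q ^ (n + 1)) ≠ 0 := by
    intro q hq
    have hq1 : ‖q‖ < 1 := lt_of_le_of_lt (by simpa using hq) hr
    have := tprod_one_add_ne_zero_of_summable (f := fun n : ℕ => -q ^ (n + 1)) ?_ ?_
    · simpa [sub_eq_add_neg] using this
    · intro n hn
      have h1 : q ^ (n + 1) = 1 := by
        rw [← sub_eq_add_neg, sub_eq_zero] at hn
        exact hn.symm
      have h2 : ‖q‖ ^ (n + 1) = 1 := by rw [← norm_pow, h1, norm_one]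
      exact absurd h2 (pow_lt_one₀ (norm_nonneg q) hq1 (Nat.succ_ne_zero n)).ne
    · simp only [norm_neg, norm_pow]
      exact (summable_nat_add_iff 1).mpr (summable_geometric_of_lt_one (norm_nonneg _) hq1)
  have hcomp := isCompact_closedBall (0 : ℂ) (Real.exp (-(2 * Real.pi)))
  obtain ⟨q₁, hq₁, hmax⟩ := hcomp.exists_isMaxOn ⟨0, by simp [Real.exp_nonneg]⟩ hc.norm
  obtain ⟨q₂, hq₂, hmin⟩ := hcomp.exists_isMinOn ⟨0, by simp [Real.exp_nonneg]⟩ hc.norm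
  refine ⟨_, _, norm_pos_iff.2 (hne q₂ hq₂), norm_pos_iff.2 (hne q₁ hq₁), fun τ hτ => ?_⟩
  have e1 : ‖ModularForm.eta τ‖ = ‖∏' n : ℕ, (1 - (Function.Periodic.qParam 1 τ) ^ (n + 1))‖ *
      Real.exp (-(Real.pi / 12 * τ.im)) := by
    unfold ModularForm.eta ModularForm.eta_q
    rw [norm_mul, mul_comm, Function.Periodic.norm_qParam]
    congr 2
    ring
  have hq : Function.Periodic.qParam 1 τ ∈
      Metric.closedBall (0 : ℂ) (Real.exp (-(2 * Real.pi))) := by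
    rw [mem_closedBall_zero_iff, Function.Periodic.norm_qParam]
    refine Real.exp_le_exp.2 ?_
    have := Real.pi_pos
    rw [div_one]
    nlinarith
  have hE := Real.exp_pos (-(Real.pi / 12 * τ.im))
  rw [e1]
  exact ⟨mul_le_mul_of_nonneg_right (hmin hq) hE.le, mul_le_mul_of_nonneg_right (hmax hq) hE.le⟩

/-! ### Unitary matrices -/

lemma vv_unitary {D : Type*} [Fintype D] [DecidableEq D] (U : Matrix D D ℂ) (hU : U * Uᴴ = 1)
    (v : D → ℂ) : ∑ γ, ‖∑ δ, U γ δ * v δ‖ ^ 2 = ∑ γ, ‖v γ‖ ^ 2 := by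
  have hU' : Uᴴ * U = 1 := mul_eq_one_comm.1 hU
  have key : ∀ w : D → ℂ, ((∑ γ, ‖w γ‖ ^ 2 : ℝ) : ℂ) = star w ⬝ᵥ w := by
    intro w
    rw [dotProduct, Complex.ofReal_sum]
    refine Finset.sum_congr rfl fun γ _ => ?_
    rw [Pi.star_apply, Complex.star_def, ← Complex.normSq_eq_conj_mul_self,
      Complex.normSq_eq_norm_sq]
  have h1 := key (U *ᵥ v)
  rw [star_mulVec, ← dotProduct_mulVec, mulVec_mulVec, hU', one_mulVec, ← key v] at h1
  exact_mod_cast h1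

theorem vv_zero {D : Type*} [Fintype D] [DecidableEq D] (h : D → ℂ → ℂ)
    (hol : ∀ γ, DifferentiableOn ℂ (h γ) {τ : ℂ | 0 < τ.im})
    (u : D → ℂ) (hu : ∀ γ, ‖u γ‖ = 1)
    (hT : ∀ γ τ, 0 < τ.im → h γ (τ + 1) = u γ * h γ τ)
    (U : Matrix D D ℂ) (hU : U * Uᴴ = 1)
    (hS : ∀ γ τ, 0 < τ.im → h γ (-1 / τ) = (τ ^ 10)⁻¹ * ∑ δ, U γ δ * h δ τ)
    (K a : ℝ) (ha : a < 5 / 6)
    (hg : ∀ γ (τ : ℂ), 1 ≤ τ.im → ‖h γ τ‖ ≤ K * Real.exp (2 * Real.pi * a * τ.im)) :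
    ∀ γ τ, 0 < τ.im → h γ τ = 0 := by
  obtain ⟨c, C, hc, hC, hb⟩ := vv_eta_bd
  have key := unitary_zero (fun γ τ => ModularForm.eta τ ^ 20 * h γ τ)
    (fun γ => (vv_eta_diff.pow 20).mul (hol γ)) ?_ ?_ (C ^ 20 * K)
    (2 * Real.pi * (5 / 6 - a)) (by have := Real.pi_pos; have : 0 < 5 / 6 - a := by linarith
                                    positivity) ?_
  · intro γ τ hτ
    exact (mul_eq_zero.1 (key γ τ hτ)).resolve_left (pow_ne_zero _ (vv_eta_ne hτ))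
  · intro τ hτ
    refine Finset.sum_congr rfl fun γ _ => ?_
    rw [norm_mul, norm_mul, norm_pow, norm_pow, vv_eta_T, hT γ τ hτ, norm_mul, hu, one_mul]
  · intro τ hτ
    have h0 : τ ≠ 0 := by
      rintro rfl
      simp at hτ
    have h0' : ‖τ‖ ≠ 0 := norm_ne_zero_iff.2 h0
    have e : ∀ γ, ‖ModularForm.eta (-1 / τ) ^ 20 * h γ (-1 / τ)‖ ^ 2 =
        ‖ModularForm.eta τ‖ ^ 40 * ‖∑ δ, U γ δ * h δ τ‖ ^ 2 := by
      intro γ
      rw [hS γ τ hτ, norm_mul, norm_mul, norm_inv, norm_pow, norm_pow, mul_pow, mul_pow,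
        ← pow_mul, show 20 * 2 = 2 * 20 from rfl, pow_mul, vv_eta_S hτ, inv_pow, ← pow_mul]
      field_simp
      ring
    simp only [e]
    rw [← Finset.mul_sum, vv_unitary U hU, Finset.mul_sum]
    refine Finset.sum_congr rfl fun γ _ => ?_
    rw [norm_mul, norm_pow, mul_pow, ← pow_mul]
  · intro γ τ hτ
    have h1 := (hb τ hτ).2
    have h2 := hg γ τ hτ
    rw [norm_mul, norm_pow]
    calc ‖ModularForm.eta τ‖ ^ 20 * ‖h γ τ‖
        ≤ (C * Real.exp (-(Real.pi / 12 * τ.im))) ^ 20 *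
          (K * Real.exp (2 * Real.pi * a * τ.im)) := by gcongr
      _ = C ^ 20 * K * Real.exp (-(2 * Real.pi * (5 / 6 - a) * τ.im)) := by
        rw [mul_pow, ← Real.exp_nat_mul, mul_mul_mul_comm, ← Real.exp_add]
        congr 2
        push_cast
        ring

end Pool.Agent.Refl
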