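import Pool.Agent.Refl.VV0

/-! Module VV1, Wronskians: all components with a decaying leading term vanish. -/

namespace Pool.Agent.Refl
open Matrix

open UpperHalfPlane ModularGroup MatrixGroups Filter Topology in
/-- maximum principle in the interior -/
theorem vk_max {D : Type*} [Fintype D] (x : D → ℂ → ℂ)
    (hol : ∀ γ, DifferentiableOn ℂ (x γ) {τ : ℂ | 0 < τ.im})
    (hT : ∀ τ : ℂ, 0 < τ.im → ∑ γ, ‖x γ (τ + 1)‖ ^ 2 = ∑ γ, ‖x γ τ‖ ^ 2)
    (hS : ∀ τ : ℂ, 0 < τ.im → ∑ γ, ‖x γ (-1 / τ)‖ ^ 2 = ∑ γ, ‖x γ τ‖ ^ 2)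
    (τ₁ : ℂ) (hτ₁ : 0 < τ₁.im) (hc0 : 0 < ∑ γ, ‖x γ τ₁‖ ^ 2)
    (A : ℝ) (hA1 : 1 ≤ A) (hA : ∀ τ : ℂ, A ≤ τ.im → ∑ γ, ‖x γ τ‖ ^ 2 < ∑ γ, ‖x γ τ₁‖ ^ 2) :
    False := by
  set u : ℍ → ℝ := fun τ => ∑ γ, ‖x γ (τ : ℂ)‖ ^ 2 with hu
  have huc : Continuous u := by
    refine continuous_finsetSum _ fun γ _ => ?_
    have h1 : Continuous fun τ : ℍ => x γ (τ : ℂ) := by
      have := (hol γ).continuousOn
      rw [continuousOn_iff_continuous_domRestrict] at this
      exact this.comp (Continuous.subtype_mk UpperHalfPlane.continuous_coe fun τ => τ.2)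
    exact (h1.norm).pow 2
  have huT : ∀ τ : ℍ, u (T • τ) = u τ := by
    intro τ
    have e : ((T • τ : ℍ) : ℂ) = τ + 1 := by
      rw [modular_T_smul]; simp [add_comm]
    simp only [hu, e]
    exact hT τ τ.2
  have huS : ∀ τ : ℍ, u (S • τ) = u τ := by
    intro τ
    have e : ((S • τ : ℍ) : ℂ) = -1 / τ := by
      rw [modular_S_smul]
      simp [neg_div, inv_neg]
    simp only [hu, e]
    exact hS τ τ.2
  have hinv : ∀ (g : SL(2, ℤ)) (τ : ℍ), u (g • τ) = u τ := by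
    intro g
    have hgm : g ∈ Subgroup.closure {S, T} := by simp [SpecialLinearGroup.SL2Z_generators]
    induction hgm using Subgroup.closure_induction with
    | mem y hy =>
      rcases hy with rfl | hy
      · exact huS
      · rw [Set.mem_singleton_iff] at hy; subst hy; exact huT
    | one => intro τ; rw [one_smul]
    | mul a b _ _ ha hb => intro τ; rw [mul_smul, ha, hb]
    | inv a _ ha => intro τ; rw [← ha (a⁻¹ • τ), smul_inv_smul]
  set c : ℝ := u ⟨τ₁, hτ₁⟩ with hc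
  have hc0 : 0 < c := hc0
  have hA : ∀ τ : ℍ, A ≤ τ.im → u τ < c := fun τ hτ => hA τ hτ
  -- maximum
  obtain ⟨g₁, hg₁⟩ := exists_smul_mem_fd ⟨τ₁, hτ₁⟩
  have hmem : g₁ • (⟨τ₁, hτ₁⟩ : ℍ) ∈ truncatedFundamentalDomain A := by
    refine ⟨hg₁, ?_⟩
    by_contra h
    have := hA _ (le_of_lt (not_le.1 h))
    rw [hinv] at this
    exact lt_irrefl _ this
  obtain ⟨τ₀, hτ₀, hmax⟩ := (isCompact_truncatedFundamentalDomain A).exists_isMaxOn ⟨_, hmem⟩
    huc.continuousOn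
  have hcu : c ≤ u τ₀ := by
    have := hmax hmem
    simp only [Set.mem_ofPred_eq] at this
    rwa [hinv] at this
  have hmax' : ∀ τ : ℍ, u τ ≤ u τ₀ := by
    intro τ
    obtain ⟨g, hgτ⟩ := exists_smul_mem_fd τ
    rw [← hinv g τ]
    by_cases h : (g • τ).im ≤ A
    · exact hmax ⟨hgτ, h⟩
    · exact (le_of_lt (hA _ (le_of_lt (not_le.1 h)))).trans hcu
  -- maximum principle
  set φ : ℂ → ℂ := fun τ => ∑ γ, (starRingEnd ℂ) (x γ τ₀) * x γ τ with hφ
  have hφd : DifferentiableOn ℂ φ {τ : ℂ | 0 < τ.im} :=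
    DifferentiableOn.fun_sum fun γ _ => (hol γ).const_mul _
  have hCS : ∀ τ : ℍ, ‖φ τ‖ ^ 2 ≤ u τ₀ * u τ := by
    intro τ
    have h1 : ‖φ τ‖ ≤ ∑ γ, ‖x γ τ₀‖ * ‖x γ τ‖ := by
      refine (norm_sum_le _ _).trans (le_of_eq ?_)
      refine Finset.sum_congr rfl fun γ _ => ?_
      rw [norm_mul, RCLike.norm_conj]
    have h2 := Finset.sum_mul_sq_le_sq_mul_sq Finset.univ (fun γ => ‖x γ τ₀‖)
      (fun γ => ‖x γ (τ : ℂ)‖)
    exact (pow_le_pow_left₀ (norm_nonneg _) h1 2).trans h2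
  have hφ0 : ‖φ τ₀‖ = u τ₀ := by
    have : φ τ₀ = ((u τ₀ : ℝ) : ℂ) := by
      simp only [hφ, hu, Complex.ofReal_sum]
      refine Finset.sum_congr rfl fun γ _ => ?_
      rw [← Complex.normSq_eq_conj_mul_self, Complex.normSq_eq_norm_sq]
    rw [this, Complex.norm_real, Real.norm_of_nonneg (hc0.le.trans hcu)]
  have hu0 : 0 < u τ₀ := lt_of_lt_of_le hc0 hcu
  have hmaxφ : IsMaxOn (norm ∘ φ) {τ : ℂ | 0 < τ.im} (τ₀ : ℂ) := by
    intro τ hτ
    simp only [Set.mem_ofPred_eq, Function.comp_apply]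
    rw [hφ0]
    have h1 := hCS ⟨τ, hτ⟩
    have h2 := hmax' ⟨τ, hτ⟩
    have h3 : ‖φ τ‖ ^ 2 ≤ u τ₀ ^ 2 := by
      refine h1.trans ?_
      rw [pow_two]
      exact mul_le_mul_of_nonneg_left h2 hu0.le
    exact (pow_le_pow_iff_left₀ (norm_nonneg _) hu0.le two_ne_zero).1 h3
  have hpre : IsPreconnected {τ : ℂ | 0 < τ.im} :=
    Convex.isPreconnected (convex_halfSpace_im_gt 0)
  have hopen : IsOpen {τ : ℂ | 0 < τ.im} := isOpen_lt continuous_const Complex.continuous_im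
  have hconst := Complex.eqOn_of_isPreconnected_of_isMaxOn_norm hpre hopen hφd τ₀.2 hmaxφ
  have hA0 : 0 < A := by linarith
  let σ : ℍ := ⟨A * Complex.I, by simpa using hA0⟩
  have hσ : A ≤ σ.im := by
    show A ≤ (A * Complex.I).im
    simp
  have h1 := hconst σ.2
  simp only [Function.const_apply] at h1
  have h2 := hCS σ
  have h3 := hA σ hσ
  have h4 : ‖φ (σ : ℂ)‖ = u τ₀ := by
    rw [← hφ0]
    exact congrArg norm h1
  rw [h4, pow_two] at h2
  have h5 := le_of_mul_le_mul_left h2 hu0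
  linarith

open Filter Topology Function.Periodic in
/-- a 1-periodic bounded holomorphic function near the cusp has a limit; if its norm is maximal
there, it is constant -/
theorem vk_cusp (φ : ℂ → ℂ) (hol : DifferentiableOn ℂ φ {τ : ℂ | 0 < τ.im})
    (hper : ∀ τ : ℂ, 0 < τ.im → φ (τ + 1) = φ τ) (A : ℝ) (K : ℝ)
    (hbd : ∀ τ : ℂ, A ≤ τ.im → ‖φ τ‖ ≤ K) :
    ∃ c : ℂ, Tendsto φ (comap Complex.im atTop) (𝓝 c) ∧
      ((∀ τ : ℂ, 0 < τ.im → ‖φ τ‖ ≤ ‖c‖) → ∀ τ : ℂ, 0 < τ.im → φ τ = c) := by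
  classical
  set ψ : ℂ → ℂ := fun τ => if 0 < τ.im then φ τ else 0 with hψ
  have hP : Function.Periodic ψ ((1 : ℝ) : ℂ) := by
    intro τ
    simp only [hψ]
    have : (τ + ((1 : ℝ) : ℂ)).im = τ.im := by simp
    rw [this]
    split_ifs with h
    · have := hper τ h
      simpa using this
    · rfl
  have hopen : IsOpen {τ : ℂ | 0 < τ.im} := isOpen_lt continuous_const Complex.continuous_im
  have hd : ∀ τ : ℂ, 0 < τ.im → DifferentiableAt ℂ ψ τ := by
    intro τ hτ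
    have h1 : DifferentiableAt ℂ φ τ := (hol τ hτ).differentiableAt (hopen.mem_nhds hτ)
    refine h1.congr_of_eventuallyEq ?_
    filter_upwards [hopen.mem_nhds hτ] with z hz
    simp only [hψ]
    exact if_pos hz
  have hev : ∀ᶠ z in (comap Complex.im atTop), DifferentiableAt ℂ ψ z := by
    have : ∀ᶠ z in (comap Complex.im atTop), (0 : ℝ) < Complex.im z :=
      tendsto_comap.eventually (eventually_gt_atTop 0)
    exact this.mono fun z hz => hd z hz
  have hb : BoundedAtFilter (comap Complex.im atTop) ψ := by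
    have : ∀ᶠ z in (comap Complex.im atTop), max A 1 ≤ Complex.im z :=
      tendsto_comap.eventually (eventually_ge_atTop _)
    refine Asymptotics.IsBigO.of_bound (max K 0) ?_
    filter_upwards [this] with z hz
    have hz0 : 0 < z.im := lt_of_lt_of_le one_pos ((le_max_right _ _).trans hz)
    simp only [hψ, if_pos hz0, Pi.one_apply, norm_one, mul_one]
    exact (hbd z ((le_max_left _ _).trans hz)).trans (le_max_left _ _)
  have hlim := tendsto_at_I_inf one_pos hP hev hb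
  refine ⟨cuspFunction 1 ψ 0, ?_, ?_⟩
  · refine hlim.congr' ?_
    have : ∀ᶠ z in (comap Complex.im atTop), (0 : ℝ) < Complex.im z :=
      tendsto_comap.eventually (eventually_gt_atTop 0)
    filter_upwards [this] with z hz
    simp only [hψ]
    exact if_pos hz
  · intro hmax τ hτ
    have him : ∀ q ∈ Metric.ball (0 : ℂ) 1, q ≠ 0 → 0 < (invQParam 1 q).im := by
      intro q hq hq0
      rw [im_invQParam]
      have h1 : ‖q‖ < 1 := by simpa using hq
      have h2 : 0 < ‖q‖ := norm_pos_iff.2 hq0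
      have h3 := Real.log_neg h2 h1
      have := Real.pi_pos
      have h4 : (-1 : ℝ) / (2 * Real.pi) < 0 := div_neg_of_neg_of_pos (by norm_num) (by positivity)
      exact mul_pos_of_neg_of_neg h4 h3
    have hF : DifferentiableOn ℂ (cuspFunction 1 ψ) (Metric.ball (0 : ℂ) 1) := by
      intro q hq
      by_cases hq0 : q = 0
      · subst hq0
        exact (differentiableAt_cuspFunction_zero one_pos hP hev hb).differentiableWithinAt
      · have h1 := differentiableAt_cuspFunction one_ne_zero hP (hd _ (him q hq hq0))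
        rw [qParam_right_inv one_ne_zero hq0] at h1
        exact h1.differentiableWithinAt
    have hm : IsMaxOn (norm ∘ cuspFunction 1 ψ) (Metric.ball (0 : ℂ) 1) 0 := by
      intro q hq
      simp only [Set.mem_ofPred_eq, Function.comp_apply]
      by_cases hq0 : q = 0
      · rw [hq0]
      · rw [cuspFunction_eq_of_nonzero _ _ hq0]
        have h1 := him q hq hq0
        simp only [hψ, if_pos h1]
        exact hmax _ h1
    have hc := Complex.eqOn_of_isPreconnected_of_isMaxOn_norm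
      (convex_ball (0 : ℂ) 1).isPreconnected Metric.isOpen_ball hF (Metric.mem_ball_self one_pos) hm
    have h1 := eq_cuspFunction (h := 1) one_ne_zero hP τ
    have h2 : qParam 1 τ ∈ Metric.ball (0 : ℂ) 1 := by
      rw [mem_ball_zero_iff, norm_qParam, Real.exp_lt_one_iff, div_one]
      have := Real.pi_pos
      nlinarith
    have h3 := hc h2
    rw [h1] at h3
    simp only [hψ, if_pos hτ, Function.const_apply] at h3
    exact h3

open Filter Topology in
/-- A unitary vector valued function of weight 0, whose components are either 1-periodic and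
bounded or decaying, has no nonzero decaying components. -/
theorem vk_const {D : Type*} [Fintype D] (x : D → ℂ → ℂ)
    (hol : ∀ γ, DifferentiableOn ℂ (x γ) {τ : ℂ | 0 < τ.im})
    (hT : ∀ τ : ℂ, 0 < τ.im → ∑ γ, ‖x γ (τ + 1)‖ ^ 2 = ∑ γ, ‖x γ τ‖ ^ 2)
    (hS : ∀ τ : ℂ, 0 < τ.im → ∑ γ, ‖x γ (-1 / τ)‖ ^ 2 = ∑ γ, ‖x γ τ‖ ^ 2)
    (P : D → Prop) (A₀ K ε : ℝ) (hε : 0 < ε)
    (hper : ∀ γ, P γ → ∀ τ : ℂ, 0 < τ.im → x γ (τ + 1) = x γ τ)
    (hbd : ∀ γ, P γ → ∀ τ : ℂ, A₀ ≤ τ.im → ‖x γ τ‖ ≤ K)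
    (hdec : ∀ γ, ¬ P γ → ∀ τ : ℂ, A₀ ≤ τ.im → ‖x γ τ‖ ≤ K * Real.exp (-(ε * τ.im))) :
    ∀ γ, ¬ P γ → ∀ τ : ℂ, 0 < τ.im → x γ τ = 0 := by
  classical
  -- limits
  have hlim : ∀ γ, ∃ c : ℂ, Tendsto (x γ) (comap Complex.im atTop) (𝓝 c) ∧ (¬ P γ → c = 0) := by
    intro γ
    by_cases hP : P γ
    · obtain ⟨c, hc, -⟩ := vk_cusp (x γ) (hol γ) (hper γ hP) A₀ K (hbd γ hP)
      exact ⟨c, hc, fun h => absurd hP h⟩
    · refine ⟨0, ?_, fun _ => rfl⟩
      have h1 : Tendsto (fun y : ℝ => K * Real.exp (-(ε * y))) atTop (𝓝 0) := by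
        have h1 : Tendsto (fun y : ℝ => Real.exp (-(ε * y))) atTop (𝓝 0) :=
          Real.tendsto_exp_neg_atTop_nhds_zero.comp (tendsto_id.const_mul_atTop hε)
        simpa using h1.const_mul K
      rw [tendsto_zero_iff_norm_tendsto_zero]
      refine squeeze_zero' (Eventually.of_forall fun _ => norm_nonneg _) ?_
        (h1.comp tendsto_comap)
      filter_upwards [tendsto_comap.eventually (eventually_ge_atTop A₀)] with z hz
      exact hdec γ hP z hz
  choose c hc hc0 using hlim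
  set m : ℝ := ∑ γ, ‖c γ‖ ^ 2 with hm
  have hulim : Tendsto (fun τ => ∑ γ, ‖x γ τ‖ ^ 2) (comap Complex.im atTop) (𝓝 m) :=
    tendsto_finsetSum _ fun γ _ => ((hc γ).norm).pow 2
  have hm0 : 0 ≤ m := Finset.sum_nonneg fun _ _ => by positivity
  have hle : ∀ τ : ℂ, 0 < τ.im → ∑ γ, ‖x γ τ‖ ^ 2 ≤ m := by
    intro τ₁ hτ₁
    by_contra hcon
    push Not at hcon
    have hev := hulim.eventually (gt_mem_nhds hcon)
    rw [Filter.eventually_comap] at hev
    obtain ⟨A, hA⟩ := eventually_atTop.1 hev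
    exact vk_max x hol hT hS τ₁ hτ₁ (lt_of_le_of_lt hm0 hcon) (max A 1) (le_max_right _ _)
      fun τ hτ => hA _ ((le_max_left _ _).trans hτ) τ rfl
  set φ : ℂ → ℂ := fun τ => ∑ γ, (starRingEnd ℂ) (c γ) * x γ τ with hφ
  have hφd : DifferentiableOn ℂ φ {τ : ℂ | 0 < τ.im} :=
    DifferentiableOn.fun_sum fun γ _ => (hol γ).const_mul _
  have hφlim : Tendsto φ (comap Complex.im atTop) (𝓝 ((m : ℝ) : ℂ)) := by
    have h1 : Tendsto φ (comap Complex.im atTop) (𝓝 (∑ γ, (starRingEnd ℂ) (c γ) * c γ)) :=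
      tendsto_finsetSum _ fun γ _ => (hc γ).const_mul _
    have h2 : (∑ γ, (starRingEnd ℂ) (c γ) * c γ) = ((m : ℝ) : ℂ) := by
      rw [hm, Complex.ofReal_sum]
      refine Finset.sum_congr rfl fun γ _ => ?_
      rw [← Complex.normSq_eq_conj_mul_self, Complex.normSq_eq_norm_sq]
    rwa [h2] at h1
  have hφper : ∀ τ : ℂ, 0 < τ.im → φ (τ + 1) = φ τ := by
    intro τ hτ
    refine Finset.sum_congr rfl fun γ _ => ?_
    by_cases hP : P γ
    · rw [hper γ hP τ hτ]
    · rw [hc0 γ hP]; simp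
  have hφle : ∀ τ : ℂ, 0 < τ.im → ‖φ τ‖ ≤ m := by
    intro τ hτ
    have h1 : ‖φ τ‖ ≤ ∑ γ, ‖c γ‖ * ‖x γ τ‖ := by
      refine (norm_sum_le _ _).trans (le_of_eq ?_)
      refine Finset.sum_congr rfl fun γ _ => ?_
      rw [norm_mul, RCLike.norm_conj]
    have h2 := Finset.sum_mul_sq_le_sq_mul_sq Finset.univ (fun γ => ‖c γ‖)
      (fun γ => ‖x γ (τ : ℂ)‖)
    have h3 : ‖φ τ‖ ^ 2 ≤ m ^ 2 := by
      refine (pow_le_pow_left₀ (norm_nonneg _) h1 2).trans (h2.trans ?_)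
      rw [pow_two m]
      exact mul_le_mul_of_nonneg_left (hle τ hτ) hm0
    exact (pow_le_pow_iff_left₀ (norm_nonneg _) hm0 two_ne_zero).1 h3
  obtain ⟨c', hc', hmax⟩ := vk_cusp φ hφd hφper 1 m
    (fun τ hτ => hφle τ (lt_of_lt_of_le one_pos hτ))
  have hne : (comap Complex.im atTop : Filter ℂ).NeBot := by
    refine comap_neBot_iff.2 ?_
    intro t ht
    obtain ⟨A, hA⟩ := mem_atTop_sets.1 ht
    exact ⟨A * Complex.I, hA _ (by simp)⟩
  have hcc : c' = ((m : ℝ) : ℂ) := tendsto_nhds_unique hc' hφlim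
  have hφm : ∀ τ : ℂ, 0 < τ.im → φ τ = ((m : ℝ) : ℂ) := by
    intro τ hτ
    rw [← hcc]
    refine hmax ?_ τ hτ
    intro σ hσ
    rw [hcc, Complex.norm_real, Real.norm_of_nonneg hm0]
    exact hφle σ hσ
  intro γ hγ τ hτ
  -- distance
  have hdist : ∑ γ, ‖x γ τ - c γ‖ ^ 2 ≤ 0 := by
    have h1 : ∀ γ, ‖x γ τ - c γ‖ ^ 2 =
        ‖x γ τ‖ ^ 2 - 2 * ((starRingEnd ℂ) (c γ) * x γ τ).re + ‖c γ‖ ^ 2 := by
      intro γ
      rw [← Complex.normSq_eq_norm_sq, ← Complex.normSq_eq_norm_sq, ← Complex.normSq_eq_norm_sq,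
        Complex.normSq_sub]
      have : (x γ τ * (starRingEnd ℂ) (c γ)).re = ((starRingEnd ℂ) (c γ) * x γ τ).re := by
        rw [mul_comm]
      rw [this]; ring
    simp only [h1]
    rw [Finset.sum_add_distrib, Finset.sum_sub_distrib, ← Finset.mul_sum, ← Complex.re_sum]
    have h2 := hφm τ hτ
    simp only [hφ] at h2
    rw [h2, Complex.ofReal_re]
    have h3 := hle τ hτ
    linarith
  have h4 : ‖x γ τ - c γ‖ ^ 2 ≤ ∑ γ, ‖x γ τ - c γ‖ ^ 2 :=
    Finset.single_le_sum (f := fun γ => ‖x γ τ - c γ‖ ^ 2) (fun _ _ => by positivity)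
      (Finset.mem_univ γ)
  have h5 : ‖x γ τ - c γ‖ ^ 2 = 0 := le_antisymm (h4.trans hdist) (by positivity)
  have h6 : x γ τ - c γ = 0 := by
    have := pow_eq_zero_iff (two_ne_zero) |>.1 h5
    exact norm_eq_zero.1 this
  rw [hc0 γ hγ, sub_zero] at h6
  exact h6

lemma vk_eta_T36 (τ : ℂ) : ModularForm.eta (τ + 1) ^ 36 = -(ModularForm.eta τ ^ 36) := by
  unfold ModularForm.eta
  have h1 : ∀ n, ModularForm.eta_q n (τ + 1) = ModularForm.eta_q n τ := by
    intro n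
    unfold ModularForm.eta_q
    congr 1
    simp only [Function.Periodic.qParam, Complex.ofReal_one, div_one]
    rw [mul_add, Complex.exp_add, mul_one, Complex.exp_two_pi_mul_I, mul_one]
  simp only [h1, mul_pow]
  have h2 : Function.Periodic.qParam 24 (τ + 1) ^ 36 = -(Function.Periodic.qParam 24 τ ^ 36) := by
    simp only [Function.Periodic.qParam, ← Complex.exp_nat_mul]
    have : ((36 : ℕ) : ℂ) * (2 * Real.pi * Complex.I * (τ + 1) / ((24 : ℝ) : ℂ)) =
        ((36 : ℕ) : ℂ) * (2 * Real.pi * Complex.I * τ / ((24 : ℝ) : ℂ)) +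
          (2 * Real.pi * Complex.I + Real.pi * Complex.I) := by
      push_cast; ring
    rw [this, Complex.exp_add, Complex.exp_add, Complex.exp_two_pi_mul_I, Complex.exp_pi_mul_I]
    ring
  rw [h2]
  ring

lemma vk_open : IsOpen {τ : ℂ | 0 < τ.im} := isOpen_lt continuous_const Complex.continuous_im

lemma vk_norm_e1 (τ : ℂ) : ‖e (-τ)‖ = Real.exp (2 * Real.pi * τ.im) := by
  rw [norm_e]; congr 1; simp

lemma vk_norm_e2 (τ : ℂ) : ‖e (-τ / 2)‖ = Real.exp (Real.pi * τ.im) := by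
  rw [norm_e]; congr 1; simp; ring

lemma vk_e2_T (τ : ℂ) : e (-(τ + 1) / 2) = -e (-τ / 2) := by
  unfold e
  have : 2 * Real.pi * Complex.I * (-(τ + 1) / 2) =
      2 * Real.pi * Complex.I * (-τ / 2) + -(Real.pi * Complex.I) := by ring
  rw [this, Complex.exp_add, Complex.exp_neg, Complex.exp_pi_mul_I]
  ring

lemma vk_e1_T (τ : ℂ) : e (-(τ + 1)) = e (-τ) := by
  unfold e
  have : 2 * Real.pi * Complex.I * (-(τ + 1)) =
      2 * Real.pi * Complex.I * (-τ) + -(2 * Real.pi * Complex.I) := by ring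
  rw [this, Complex.exp_add, Complex.exp_neg, Complex.exp_two_pi_mul_I]
  ring

/-- Wronskian -/
noncomputable def vk_w {D : Type*} (h : D → ℂ → ℂ) (p : D × D) (τ : ℂ) : ℂ :=
  h p.1 τ * deriv (h p.2) τ - h p.2 τ * deriv (h p.1) τ

lemma vk_deriv_T {D : Type*} (h : D → ℂ → ℂ) (u : D → ℂ)
    (hT : ∀ γ τ, 0 < τ.im → h γ (τ + 1) = u γ * h γ τ) (γ : D) {τ : ℂ} (hτ : 0 < τ.im) :
    deriv (h γ) (τ + 1) = u γ * deriv (h γ) τ := by
  rw [← deriv_comp_add_const, ← deriv_const_mul_field]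
  refine Filter.EventuallyEq.deriv_eq ?_
  filter_upwards [vk_open.mem_nhds hτ] with z hz
  exact hT γ z hz

lemma vk_w_T {D : Type*} (h : D → ℂ → ℂ) (u : D → ℂ)
    (hT : ∀ γ τ, 0 < τ.im → h γ (τ + 1) = u γ * h γ τ) (p : D × D) {τ : ℂ} (hτ : 0 < τ.im) :
    vk_w h p (τ + 1) = u p.1 * u p.2 * vk_w h p τ := by
  unfold vk_w
  rw [vk_deriv_T h u hT _ hτ, vk_deriv_T h u hT _ hτ, hT _ _ hτ, hT _ _ hτ]
  ring

lemma vk_deriv_S {D : Type*} [Fintype D] (h : D → ℂ → ℂ)
    (hol : ∀ γ, DifferentiableOn ℂ (h γ) {τ : ℂ | 0 < τ.im}) (U : Matrix D D ℂ)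
    (hS : ∀ γ τ, 0 < τ.im → h γ (-1 / τ) = (τ ^ 10)⁻¹ * ∑ δ, U γ δ * h δ τ)
    (γ : D) {τ : ℂ} (hτ : 0 < τ.im) :
    deriv (h γ) (-1 / τ) = τ ^ 2 * (-10 * (τ ^ 11)⁻¹ * ∑ δ, U γ δ * h δ τ +
      (τ ^ 10)⁻¹ * ∑ δ, U γ δ * deriv (h δ) τ) := by
  have h0 : τ ≠ 0 := by rintro rfl; simp at hτ
  have him : 0 < (-1 / τ).im := by
    rw [neg_div, Complex.neg_im, one_div, Complex.inv_im, neg_div, neg_neg]
    exact div_pos hτ (Complex.normSq_pos.2 h0)
  have hd : ∀ γ, ∀ z : ℂ, 0 < z.im → HasDerivAt (h γ) (deriv (h γ) z) z := fun γ z hz =>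
    ((hol γ z hz).differentiableAt (vk_open.mem_nhds hz)).hasDerivAt
  have h1 : HasDerivAt (fun t : ℂ => -1 / t) (1 / τ ^ 2) τ := by
    have := ((hasDerivAt_inv h0).const_mul (-1))
    refine (this.congr_of_eventuallyEq (Filter.Eventually.of_forall fun t => ?_)).congr_deriv ?_
    · simp [div_eq_mul_inv]
    · field_simp
  have h2 : HasDerivAt (fun t : ℂ => h γ (-1 / t)) (deriv (h γ) (-1 / τ) * (1 / τ ^ 2)) τ :=
    HasDerivAt.comp τ (hd γ _ him) h1
  have h3 : HasDerivAt (fun t : ℂ => (t ^ 10)⁻¹ * ∑ δ, U γ δ * h δ t)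
      (-(10 * τ ^ 9) / (τ ^ 10) ^ 2 * ∑ δ, U γ δ * h δ τ +
        (τ ^ 10)⁻¹ * ∑ δ, U γ δ * deriv (h δ) τ) τ := by
    have e1 : HasDerivAt (fun t : ℂ => (t ^ 10)⁻¹) (-(10 * τ ^ 9) / (τ ^ 10) ^ 2) τ := by
      have := (hasDerivAt_pow 10 τ).fun_inv (pow_ne_zero 10 h0)
      simpa using this
    have e2 : HasDerivAt (fun t : ℂ => ∑ δ, U γ δ * h δ t) (∑ δ, U γ δ * deriv (h δ) τ) τ :=
      HasDerivAt.fun_sum fun δ _ => (hd δ τ hτ).const_mul _
    exact e1.mul e2
  have h4 : HasDerivAt (fun t : ℂ => h γ (-1 / t))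
      (-(10 * τ ^ 9) / (τ ^ 10) ^ 2 * ∑ δ, U γ δ * h δ τ +
        (τ ^ 10)⁻¹ * ∑ δ, U γ δ * deriv (h δ) τ) τ := by
    refine h3.congr_of_eventuallyEq ?_
    filter_upwards [vk_open.mem_nhds hτ] with z hz
    exact hS γ z hz
  have h5 := h2.unique h4
  have h6 : deriv (h γ) (-1 / τ) = τ ^ 2 * (deriv (h γ) (-1 / τ) * (1 / τ ^ 2)) := by
    field_simp
  rw [h6, h5]
  congr 2
  field_simp

lemma vk_sumU {D : Type*} [Fintype D] [DecidableEq D] (U : Matrix D D ℂ) (hU : U * Uᴴ = 1)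
    (w : D × D → ℂ) :
    ∑ p : D × D, ‖∑ α, U p.1 α * ∑ β, U p.2 β * w (α, β)‖ ^ 2 = ∑ p : D × D, ‖w p‖ ^ 2 := by
  rw [Fintype.sum_prod_type, Finset.sum_comm, Fintype.sum_prod_type]
  have h1 : ∀ δ, ∑ γ, ‖∑ α, U γ α * ∑ β, U δ β * w (α, β)‖ ^ 2 =
      ∑ α, ‖∑ β, U δ β * w (α, β)‖ ^ 2 := fun δ => vv_unitary U hU _
  simp only [h1]
  rw [Finset.sum_comm]
  refine Finset.sum_congr rfl fun α _ => ?_
  exact vv_unitary U hU _

lemma vk_w_S {D : Type*} [Fintype D] [DecidableEq D] (h : D → ℂ → ℂ)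
    (hol : ∀ γ, DifferentiableOn ℂ (h γ) {τ : ℂ | 0 < τ.im}) (U : Matrix D D ℂ)
    (hS : ∀ γ τ, 0 < τ.im → h γ (-1 / τ) = (τ ^ 10)⁻¹ * ∑ δ, U γ δ * h δ τ)
    (p : D × D) {τ : ℂ} (hτ : 0 < τ.im) :
    vk_w h p (-1 / τ) = (τ ^ 18)⁻¹ * ∑ α, U p.1 α * ∑ β, U p.2 β * vk_w h (α, β) τ := by
  have h0 : τ ≠ 0 := by rintro rfl; simp at hτ
  have key : ∑ α, U p.1 α * ∑ β, U p.2 β * vk_w h (α, β) τ =
      (∑ α, U p.1 α * h α τ) * (∑ β, U p.2 β * deriv (h β) τ) -
        (∑ β, U p.2 β * h β τ) * (∑ α, U p.1 α * deriv (h α) τ) := by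
    rw [Finset.sum_mul_sum, mul_comm (∑ β, U p.2 β * h β τ), Finset.sum_mul_sum,
      ← Finset.sum_sub_distrib]
    refine Finset.sum_congr rfl fun α _ => ?_
    rw [← Finset.sum_sub_distrib, Finset.mul_sum]
    refine Finset.sum_congr rfl fun β _ => ?_
    unfold vk_w
    ring
  rw [key]
  unfold vk_w
  rw [vk_deriv_S h hol U hS _ hτ, vk_deriv_S h hol U hS _ hτ, hS _ _ hτ, hS _ _ hτ]
  field_simp
  ring

open Classical in
theorem vv1_kill {D : Type*} [AddCommGroup D] [Fintype D] (h : D → ℂ → ℂ)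
    (hol : ∀ γ, DifferentiableOn ℂ (h γ) {τ : ℂ | 0 < τ.im})
    (u : D → ℂ) (hu : ∀ γ, ‖u γ‖ = 1) (hu0 : u 0 = 1)
    (hT : ∀ γ τ, 0 < τ.im → h γ (τ + 1) = u γ * h γ τ)
    (χ : D → D → ℂ) (hχ : ∀ γ δ, ‖χ γ δ‖ = 1) (hχ0 : ∀ δ, χ 0 δ = 1) (hχ0' : ∀ γ, χ γ 0 = 1)
    (horth : ∀ γ γ', ∑ δ, χ γ δ * (starRingEnd ℂ) (χ γ' δ) =
      if γ = γ' then (Fintype.card D : ℂ) else 0)
    (hS : ∀ γ τ, 0 < τ.im → h γ (-1 / τ) =
      -(τ ^ 10)⁻¹ * ((Real.sqrt (Fintype.card D : ℝ) : ℝ) : ℂ)⁻¹ * ∑ δ, χ γ δ * h δ τ)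
    (β : ℂ) (b : D → ℂ) (K : ℝ)
    (hg : ∀ γ (τ : ℂ), 1 ≤ τ.im →
      ‖h γ τ - (if γ = 0 then β * e (-τ) else 0) - b γ * e (-τ / 2)‖ ≤
        K * Real.exp (2 * Real.pi / 3 * τ.im))
    (hne : ∃ γ τ, 0 < τ.im ∧ h γ τ ≠ 0) :
    β ≠ 0 ∧ ∀ γ, γ ≠ 0 → u γ ≠ -1 → ∀ τ : ℂ, 0 < τ.im → h γ τ = 0 := by
  have hpi := Real.pi_pos
  set N : ℝ := (Fintype.card D : ℝ) with hN
  have hN0 : 0 < N := by rw [hN]; exact_mod_cast Fintype.card_pos
  set s : ℂ := -((Real.sqrt N : ℝ) : ℂ)⁻¹ with hs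
  have hss : s * (starRingEnd ℂ) s = (N : ℂ)⁻¹ := by
    rw [hs, map_neg, neg_mul_neg, map_inv₀, Complex.conj_ofReal, ← mul_inv, ← Complex.ofReal_mul,
      Real.mul_self_sqrt hN0.le]
  set U : Matrix D D ℂ := Matrix.of fun γ δ => s * χ γ δ with hU
  have hUU : U * Uᴴ = 1 := by
    ext γ γ'
    rw [Matrix.mul_apply]
    simp only [hU, Matrix.conjTranspose_apply, Matrix.of_apply, star_mul']
    have h1 : ∀ δ, s * χ γ δ * (star s * star (χ γ' δ)) =
        (s * (starRingEnd ℂ) s) * (χ γ δ * (starRingEnd ℂ) (χ γ' δ)) := by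
      intro δ
      simp only [starRingEnd_apply]
      ring
    simp only [h1]
    rw [← Finset.mul_sum, horth, hss, Matrix.one_apply]
    split_ifs
    · rw [hN]; push_cast
      exact inv_mul_cancel₀ (by exact_mod_cast Fintype.card_ne_zero)
    · simp
  have hS' : ∀ γ τ, 0 < τ.im → h γ (-1 / τ) = (τ ^ 10)⁻¹ * ∑ δ, U γ δ * h δ τ := by
    intro γ τ hτ
    rw [hS γ τ hτ]
    simp only [hU, Matrix.of_apply, hs, mul_assoc, ← Finset.mul_sum]
    ring
  have hK0 : 0 ≤ K := by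
    have h1 := (norm_nonneg _).trans (hg 0 Complex.I (by simp))
    exact nonneg_of_mul_nonneg_left h1 (Real.exp_pos _)
  -- growth
  have hb0 : ∀ γ, u γ ≠ -1 → b γ = 0 := by
    intro γ hγ
    by_contra hb
    have h1u : 1 + u γ ≠ 0 := by
      intro h0; exact hγ (by linear_combination h0)
    have hpos : 0 < ‖b γ * (1 + u γ)‖ := norm_pos_iff.2 (mul_ne_zero hb h1u)
    have key : ∀ y : ℝ, 1 ≤ y → ‖b γ * (1 + u γ)‖ * Real.exp (Real.pi / 3 * y) ≤ 2 * K := by
      intro y hy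
      set τ : ℂ := y * Complex.I with hτ
      have hτi : τ.im = y := by simp [hτ]
      have hτ1 : (τ + 1).im = y := by simp [hτ]
      have g1 := hg γ τ (by rw [hτi]; exact hy)
      have g2 := hg γ (τ + 1) (by rw [hτ1]; exact hy)
      rw [hT γ τ (by rw [hτi]; linarith), vk_e1_T, vk_e2_T, hτ1] at g2
      rw [hτi] at g1
      have hid : b γ * (1 + u γ) * e (-τ / 2) =
          (u γ * h γ τ - (if γ = 0 then β * e (-τ) else 0) - b γ * -e (-τ / 2)) -
          u γ * (h γ τ - (if γ = 0 then β * e (-τ) else 0) - b γ * e (-τ / 2)) := by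
        by_cases h0 : γ = 0
        · rw [if_pos h0, h0, hu0]; ring
        · rw [if_neg h0]; ring
      have h2 : ‖b γ * (1 + u γ) * e (-τ / 2)‖ ≤ 2 * (K * Real.exp (2 * Real.pi / 3 * y)) := by
        rw [hid]
        refine (norm_sub_le _ _).trans ?_
        rw [norm_mul (u γ), hu, one_mul]
        linarith
      rw [norm_mul, vk_norm_e2, hτi] at h2
      have h3 : Real.exp (Real.pi * y) = Real.exp (Real.pi / 3 * y) *
          Real.exp (2 * Real.pi / 3 * y) := by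
        rw [← Real.exp_add]; congr 1; ring
      rw [h3, ← mul_assoc, ← mul_assoc] at h2
      exact le_of_mul_le_mul_right h2 (Real.exp_pos _)
    have h5 : ∃ y : ℝ, 1 ≤ y ∧ 2 * K < ‖b γ * (1 + u γ)‖ * Real.exp (Real.pi / 3 * y) := by
      have ht : Filter.Tendsto (fun y : ℝ => ‖b γ * (1 + u γ)‖ * Real.exp (Real.pi / 3 * y))
          Filter.atTop Filter.atTop :=
        (Real.tendsto_exp_atTop.comp
          (Filter.tendsto_id.const_mul_atTop (by positivity : 0 < Real.pi / 3))).const_mul_atTop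
            hpos
      obtain ⟨y, hy⟩ := ((Filter.eventually_ge_atTop (1 : ℝ)).and
        (ht.eventually_gt_atTop (2 * K))).exists
      exact ⟨y, hy.1, hy.2⟩
    obtain ⟨y, hy1, hy2⟩ := h5
    exact absurd (key y hy1) (not_le.2 hy2)
  set B : ℝ := ∑ γ, ‖b γ‖ with hB
  have hBle : ∀ γ, ‖b γ‖ ≤ B := fun γ =>
    Finset.single_le_sum (f := fun γ => ‖b γ‖) (fun _ _ => norm_nonneg _) (Finset.mem_univ γ)
  have hB0 : 0 ≤ B := Finset.sum_nonneg fun _ _ => norm_nonneg _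
  set a : D → ℝ := fun γ => if γ = 0 then 1 else if u γ = -1 then 1 / 2 else 1 / 3 with ha
  have ha0 : ∀ γ, 1 / 3 ≤ a γ ∧ a γ ≤ 1 := by
    intro γ; simp only [ha]; split_ifs <;> norm_num
  set K₁ : ℝ := ‖β‖ + B + K with hK₁
  have hK₁0 : 0 ≤ K₁ := by positivity
  have hgr : ∀ γ (τ : ℂ), 1 ≤ τ.im → ‖h γ τ‖ ≤ K₁ * Real.exp (2 * Real.pi * a γ * τ.im) := by
    intro γ τ hτ
    have h1 : ‖h γ τ‖ ≤ K * Real.exp (2 * Real.pi / 3 * τ.im) +
        ‖(if γ = 0 then β * e (-τ) else 0)‖ + ‖b γ * e (-τ / 2)‖ := by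
      have h2 : h γ τ = (h γ τ - (if γ = 0 then β * e (-τ) else 0) - b γ * e (-τ / 2)) +
          (if γ = 0 then β * e (-τ) else 0) + b γ * e (-τ / 2) := by ring
      rw [h2]
      refine (norm_add_le _ _).trans (add_le_add ((norm_add_le _ _).trans
        (add_le_add ?_ le_rfl)) le_rfl)
      exact hg γ τ hτ
    have hE : ∀ c : ℝ, c ≤ a γ → Real.exp (2 * Real.pi * c * τ.im) ≤
        Real.exp (2 * Real.pi * a γ * τ.im) := by
      intro c hc
      refine Real.exp_le_exp.2 ?_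
      have : 0 ≤ 2 * Real.pi * τ.im := by positivity
      nlinarith
    have hEpos := Real.exp_pos (2 * Real.pi * a γ * τ.im)
    have e1 : K * Real.exp (2 * Real.pi / 3 * τ.im) ≤
        K * Real.exp (2 * Real.pi * a γ * τ.im) := by
      refine mul_le_mul_of_nonneg_left ?_ hK0
      have := hE (1 / 3) (ha0 γ).1
      refine le_trans (le_of_eq ?_) this
      congr 1; ring
    have e2 : ‖(if γ = 0 then β * e (-τ) else 0)‖ ≤
        ‖β‖ * Real.exp (2 * Real.pi * a γ * τ.im) := by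
      by_cases h0 : γ = 0
      · rw [if_pos h0, norm_mul, vk_norm_e1]
        have : a γ = 1 := by simp [ha, h0]
        rw [this, mul_one]
      · rw [if_neg h0, norm_zero]; positivity
    have e3 : ‖b γ * e (-τ / 2)‖ ≤ B * Real.exp (2 * Real.pi * a γ * τ.im) := by
      by_cases h0 : u γ = -1 ∨ γ = 0
      · rw [norm_mul, vk_norm_e2]
        have h2 : 1 / 2 ≤ a γ := by
          simp only [ha]
          rcases h0 with h0 | h0
          · by_cases h00 : γ = 0
            · rw [if_pos h00]; norm_num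
            · rw [if_neg h00, if_pos h0]
          · rw [if_pos h0]; norm_num
        have h3 := hE (1 / 2) h2
        have h4 : Real.exp (Real.pi * τ.im) = Real.exp (2 * Real.pi * (1 / 2) * τ.im) := by
          congr 1; ring
        rw [h4]
        exact mul_le_mul (hBle γ) h3 (Real.exp_pos _).le hB0
      · push Not at h0
        rw [hb0 γ h0.1, zero_mul, norm_zero]; positivity
    rw [hK₁, add_mul, add_mul]
    linarith
  have hβ : β ≠ 0 := by
    intro hβ
    obtain ⟨γ, τ, hτ, hne⟩ := hne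
    refine hne (vv_zero h hol u hu hT U hUU hS' (B + K) (1 / 2) (by norm_num) ?_ γ τ hτ)
    intro γ τ hτ
    have h1 : ‖h γ τ‖ ≤ K * Real.exp (2 * Real.pi / 3 * τ.im) + ‖b γ * e (-τ / 2)‖ := by
      have h2 : h γ τ = (h γ τ - (if γ = 0 then β * e (-τ) else 0) - b γ * e (-τ / 2)) +
          b γ * e (-τ / 2) := by
        rw [hβ]; simp
      rw [h2]
      exact (norm_add_le _ _).trans (add_le_add (hg γ τ hτ) le_rfl)
    rw [norm_mul, vk_norm_e2] at h1
    have h3 : Real.exp (2 * Real.pi / 3 * τ.im) ≤ Real.exp (2 * Real.pi * (1 / 2) * τ.im) := by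
      refine Real.exp_le_exp.2 ?_
      nlinarith
    have h4 : Real.exp (Real.pi * τ.im) = Real.exp (2 * Real.pi * (1 / 2) * τ.im) := by
      congr 1; ring
    rw [h4] at h1
    have hEpos := Real.exp_pos (2 * Real.pi * (1 / 2) * τ.im)
    have h5 := mul_le_mul_of_nonneg_left h3 hK0
    have h6 := mul_le_mul_of_nonneg_right (hBle γ) hEpos.le
    rw [add_mul]
    linarith
  refine ⟨hβ, ?_⟩
  intro δ₀ hδ₀ huδ
  obtain ⟨c₁, C₁, hc₁, hC₁, hη⟩ := vv_eta_bd
  set K₂ : ℝ := K₁ * Real.exp (2 * Real.pi) with hK₂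
  have hK₂0 : 0 ≤ K₂ := by positivity
  have hder : ∀ γ (τ : ℂ), 2 ≤ τ.im →
      ‖deriv (h γ) τ‖ ≤ K₂ * Real.exp (2 * Real.pi * a γ * τ.im) := by
    intro γ τ hτ
    have him : ∀ z : ℂ, dist z τ ≤ 1 → 1 ≤ z.im ∧ z.im ≤ τ.im + 1 := by
      intro z hz
      have h1 : |(z - τ).im| ≤ 1 := (Complex.abs_im_le_norm _).trans (by rwa [dist_eq_norm] at hz)
      rw [Complex.sub_im, abs_le] at h1
      constructor <;> linarith [h1.1, h1.2]
    have hd : DiffContOnCl ℂ (h γ) (Metric.ball τ 1) := by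
      refine DifferentiableOn.diffContOnCl ?_
      rw [closure_ball τ one_ne_zero]
      refine (hol γ).mono ?_
      intro z hz
      exact lt_of_lt_of_le one_pos (him z hz).1
    have h1 := Complex.norm_deriv_le_of_forall_mem_sphere_norm_le one_pos hd
      (C := K₁ * Real.exp (2 * Real.pi * a γ * (τ.im + 1))) ?_
    · rw [div_one] at h1
      refine h1.trans ?_
      rw [hK₂, mul_assoc K₁, ← Real.exp_add]
      refine mul_le_mul_of_nonneg_left (Real.exp_le_exp.2 ?_) hK₁0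
      have := (ha0 γ).2
      nlinarith
    · intro z hz
      have hz' : dist z τ ≤ 1 := le_of_eq hz
      refine (hgr γ z (him z hz').1).trans ?_
      refine mul_le_mul_of_nonneg_left (Real.exp_le_exp.2 ?_) hK₁0
      refine mul_le_mul_of_nonneg_left (him z hz').2 ?_
      have := (ha0 γ).1
      positivity
  set M : ℝ := C₁ ^ 36 * (2 * K₁ * K₂) with hM
  have hM0 : 0 ≤ M := by positivity
  have hxb : ∀ (p : D × D) (τ : ℂ), 2 ≤ τ.im →
      ‖ModularForm.eta τ ^ 36 * vk_w h p τ‖ ≤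
        M * Real.exp ((2 * (a p.1 + a p.2) - 3) * Real.pi * τ.im) := by
    intro p τ hτ
    have h1 := (hη τ (by linarith)).2
    have h2 : ‖vk_w h p τ‖ ≤
        (2 * K₁ * K₂) * Real.exp (2 * Real.pi * (a p.1 + a p.2) * τ.im) := by
      unfold vk_w
      refine (norm_sub_le _ _).trans ?_
      rw [norm_mul, norm_mul]
      have e1 := mul_le_mul (hgr p.1 τ (by linarith)) (hder p.2 τ hτ) (norm_nonneg _)
        (by positivity)
      have e2 := mul_le_mul (hgr p.2 τ (by linarith)) (hder p.1 τ hτ) (norm_nonneg _)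
        (by positivity)
      have e3 : Real.exp (2 * Real.pi * (a p.1 + a p.2) * τ.im) =
          Real.exp (2 * Real.pi * a p.1 * τ.im) * Real.exp (2 * Real.pi * a p.2 * τ.im) := by
        rw [← Real.exp_add]; congr 1; ring
      rw [e3]
      linarith
    rw [norm_mul, norm_pow]
    calc ‖ModularForm.eta τ‖ ^ 36 * ‖vk_w h p τ‖
        ≤ (C₁ * Real.exp (-(Real.pi / 12 * τ.im))) ^ 36 *
          ((2 * K₁ * K₂) * Real.exp (2 * Real.pi * (a p.1 + a p.2) * τ.im)) :=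
          mul_le_mul (pow_le_pow_left₀ (norm_nonneg _) h1 36) h2 (norm_nonneg _) (by positivity)
      _ = M * Real.exp ((2 * (a p.1 + a p.2) - 3) * Real.pi * τ.im) := by
        rw [mul_pow, ← Real.exp_nat_mul, mul_mul_mul_comm, ← Real.exp_add]
        congr 2
        push_cast
        ring
  have hwd : ∀ p : D × D, DifferentiableOn ℂ (vk_w h p) {τ : ℂ | 0 < τ.im} := by
    intro p
    have h1 : ∀ γ, DifferentiableOn ℂ (deriv (h γ)) {τ : ℂ | 0 < τ.im} := fun γ =>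
      (hol γ).deriv vk_open
    exact ((hol p.1).mul (h1 p.2)).sub ((hol p.2).mul (h1 p.1))
  have hu1 : (1 : ℂ) ≠ -1 := by norm_num
  have hzero := vk_const (fun (p : D × D) τ => ModularForm.eta τ ^ 36 * vk_w h p τ)
    (fun p => (vv_eta_diff.pow 36).mul (hwd p)) ?_ ?_
    (fun p => (p.1 = 0 ∧ u p.2 = -1) ∨ (p.2 = 0 ∧ u p.1 = -1)) 2 M (Real.pi / 3) (by positivity)
    ?_ ?_ ?_
  · -- conclusion
    have hw : ∀ τ : ℂ, 0 < τ.im → vk_w h (0, δ₀) τ = 0 := by
      intro τ hτ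
      have h1 := hzero (0, δ₀) (by
        simp only [not_or, not_and]
        exact ⟨fun _ => huδ, fun h => absurd h hδ₀⟩) τ hτ
      exact (mul_eq_zero.1 h1).resolve_left (pow_ne_zero _ (vv_eta_ne hτ))
    have haδ : a δ₀ = 1 / 3 := by simp [ha, hδ₀, huδ]
    -- h 0 is nonzero near the cusp
    obtain ⟨A, hA1, hA⟩ : ∃ A : ℝ, 1 ≤ A ∧ ∀ τ : ℂ, A < τ.im →
        ‖β‖ / 2 * Real.exp (2 * Real.pi * τ.im) ≤ ‖h 0 τ‖ := by
      have ht : Filter.Tendsto (fun y : ℝ => (‖β‖ / 2) * Real.exp (Real.pi * y))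
          Filter.atTop Filter.atTop :=
        (Real.tendsto_exp_atTop.comp
          (Filter.tendsto_id.const_mul_atTop Real.pi_pos)).const_mul_atTop
            (by have := norm_pos_iff.2 hβ; positivity)
      obtain ⟨A, hA⟩ := Filter.eventually_atTop.1 (ht.eventually_ge_atTop (B + K))
      refine ⟨max A 1, le_max_right _ _, fun τ hτ => ?_⟩
      have h1 := hA τ.im ((le_max_left _ _).trans hτ.le)
      have hτ1 : 1 ≤ τ.im := (le_max_right _ _).trans hτ.le
      have h2 := hg 0 τ hτ1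
      rw [if_pos rfl] at h2
      have h3 : ‖β‖ * Real.exp (2 * Real.pi * τ.im) ≤ ‖h 0 τ‖ +
          K * Real.exp (2 * Real.pi / 3 * τ.im) + B * Real.exp (Real.pi * τ.im) := by
        have h4 : β * e (-τ) = h 0 τ - (h 0 τ - β * e (-τ) - b 0 * e (-τ / 2)) -
            b 0 * e (-τ / 2) := by ring
        have h5 : ‖β * e (-τ)‖ = ‖β‖ * Real.exp (2 * Real.pi * τ.im) := by
          rw [norm_mul, vk_norm_e1]
        rw [← h5, h4]
        refine (norm_sub_le _ _).trans (add_le_add ((norm_sub_le _ _).trans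
          (add_le_add le_rfl h2)) ?_)
        rw [norm_mul, vk_norm_e2]
        exact mul_le_mul_of_nonneg_right (hBle 0) (Real.exp_pos _).le
      have h6 : Real.exp (2 * Real.pi / 3 * τ.im) ≤ Real.exp (Real.pi * τ.im) :=
        Real.exp_le_exp.2 (by nlinarith)
      have h7 : Real.exp (2 * Real.pi * τ.im) =
          Real.exp (Real.pi * τ.im) * Real.exp (Real.pi * τ.im) := by
        rw [← Real.exp_add]; congr 1; ring
      have h8 := Real.exp_pos (Real.pi * τ.im)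
      have h9 := mul_le_mul_of_nonneg_right h1 h8.le
      have h10 := mul_le_mul_of_nonneg_left h6 hK0
      rw [h7] at h3 ⊢
      nlinarith
    have hne0 : ∀ τ : ℂ, A < τ.im → h 0 τ ≠ 0 := by
      intro τ hτ h0
      have h1 := hA τ hτ
      rw [h0, norm_zero] at h1
      have h2 : 0 < ‖β‖ / 2 * Real.exp (2 * Real.pi * τ.im) := by
        have := norm_pos_iff.2 hβ
        positivity
      linarith
    have hSo : IsOpen {τ : ℂ | A < τ.im} := isOpen_lt continuous_const Complex.continuous_im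
    have hSp : IsPreconnected {τ : ℂ | A < τ.im} :=
      Convex.isPreconnected (convex_halfSpace_im_gt A)
    have hsub : ∀ τ : ℂ, A < τ.im → 0 < τ.im := fun τ hτ => by linarith
    have hdd : ∀ γ, ∀ z : ℂ, 0 < z.im → HasDerivAt (h γ) (deriv (h γ) z) z := fun γ z hz =>
      ((hol γ z hz).differentiableAt (vk_open.mem_nhds hz)).hasDerivAt
    have hrd : ∀ τ : ℂ, A < τ.im → HasDerivAt (fun t => h δ₀ t / h 0 t) 0 τ := by
      intro τ hτ
      have h1 := (hdd δ₀ τ (hsub τ hτ)).div (hdd 0 τ (hsub τ hτ)) (hne0 τ hτ)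
      have h2 := hw τ (hsub τ hτ)
      unfold vk_w at h2
      have h3 : (deriv (h δ₀) τ * h 0 τ - h δ₀ τ * deriv (h 0) τ) / h 0 τ ^ 2 = 0 := by
        have : deriv (h δ₀) τ * h 0 τ - h δ₀ τ * deriv (h 0) τ = 0 := by
          simp only at h2
          linear_combination h2
        rw [this, zero_div]
      rw [h3] at h1
      exact h1
    set τ₀ : ℂ := ((A + 1 : ℝ) : ℂ) * Complex.I with hτ₀
    have hτ₀i : A < τ₀.im := by simp [hτ₀]
    have hconst : ∀ τ : ℂ, A < τ.im → h δ₀ τ / h 0 τ = h δ₀ τ₀ / h 0 τ₀ := by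
      intro τ hτ
      refine hSo.is_const_of_deriv_eq_zero (f := fun t => h δ₀ t / h 0 t) hSp ?_ ?_ hτ hτ₀i
      · intro z hz
        exact (hrd z hz).differentiableAt.differentiableWithinAt
      · intro z hz
        exact (hrd z hz).deriv
    set r : ℂ := h δ₀ τ₀ / h 0 τ₀ with hr
    have hr0 : r = 0 := by
      by_contra hrn
      have hrpos := norm_pos_iff.2 hrn
      have hbpos := norm_pos_iff.2 hβ
      have ht : Filter.Tendsto (fun y : ℝ => (‖r‖ * (‖β‖ / 2)) * Real.exp (Real.pi * y))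
          Filter.atTop Filter.atTop :=
        (Real.tendsto_exp_atTop.comp
          (Filter.tendsto_id.const_mul_atTop Real.pi_pos)).const_mul_atTop (by positivity)
      obtain ⟨y, hy1, hy2⟩ := ((Filter.eventually_gt_atTop A).and
        (ht.eventually_gt_atTop K₁)).exists
      set τ : ℂ := (y : ℂ) * Complex.I with hτd
      have hτi : τ.im = y := by simp [hτd]
      have h1 := hconst τ (by rw [hτi]; exact hy1)
      have h2 : h δ₀ τ = r * h 0 τ := by
        rw [← h1]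
        exact (div_mul_cancel₀ _ (hne0 τ (by rw [hτi]; exact hy1))).symm
      have h3 := hgr δ₀ τ (by rw [hτi]; linarith)
      rw [h2, norm_mul, haδ] at h3
      have h4 := hA τ (by rw [hτi]; exact hy1)
      have h5 := mul_le_mul_of_nonneg_left h4 hrpos.le
      rw [hτi] at h3 h5
      have h6 : Real.exp (2 * Real.pi * (1 / 3) * y) ≤ Real.exp (Real.pi * y) :=
        Real.exp_le_exp.2 (by nlinarith)
      have h7 : Real.exp (2 * Real.pi * y) = Real.exp (Real.pi * y) * Real.exp (Real.pi * y) := by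
        rw [← Real.exp_add]; congr 1; ring
      have h8 := Real.exp_pos (Real.pi * y)
      have h9 := mul_le_mul_of_nonneg_left h6 hK₁0
      have h10 := mul_lt_mul_of_pos_right hy2 h8
      rw [h7] at h5
      nlinarith
    -- identity theorem
    have hz : ∀ τ : ℂ, A < τ.im → h δ₀ τ = 0 := by
      intro τ hτ
      have h1 := hconst τ hτ
      rw [hr0, div_eq_zero_iff] at h1
      exact h1.resolve_right (hne0 τ hτ)
    have han : AnalyticOnNhd ℂ (h δ₀) {τ : ℂ | 0 < τ.im} := (hol δ₀).analyticOnNhd vk_open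
    have hpre : IsPreconnected {τ : ℂ | 0 < τ.im} :=
      Convex.isPreconnected (convex_halfSpace_im_gt 0)
    have := han.eqOn_zero_of_preconnected_of_eventuallyEq_zero hpre (hsub τ₀ hτ₀i)
      (by filter_upwards [hSo.mem_nhds hτ₀i] with z hz'
          exact hz z hz')
    intro τ hτ
    exact this hτ
  · intro τ hτ
    refine Finset.sum_congr rfl fun p _ => ?_
    rw [norm_mul, norm_mul, norm_pow, norm_pow, vv_eta_T, vk_w_T h u hT p hτ, norm_mul, norm_mul,
      hu, hu, one_mul, one_mul]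
  · intro τ hτ
    have h0 : τ ≠ 0 := by
      rintro rfl
      simp at hτ
    have h0' : ‖τ‖ ≠ 0 := norm_ne_zero_iff.2 h0
    have hE : ∀ p : D × D, ‖ModularForm.eta (-1 / τ) ^ 36 * vk_w h p (-1 / τ)‖ ^ 2 =
        ‖ModularForm.eta τ‖ ^ 72 * ‖∑ α, U p.1 α * ∑ β, U p.2 β * vk_w h (α, β) τ‖ ^ 2 := by
      intro p
      rw [vk_w_S h hol U hS' p hτ, norm_mul, norm_mul, norm_inv, norm_pow, norm_pow, mul_pow,
        mul_pow, ← pow_mul, show 36 * 2 = 2 * 36 from rfl, pow_mul, vv_eta_S hτ, inv_pow,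
        ← pow_mul]
      field_simp
      ring
    simp only [hE]
    rw [← Finset.mul_sum, vk_sumU U hUU (fun p => vk_w h p τ), Finset.mul_sum]
    refine Finset.sum_congr rfl fun p _ => ?_
    rw [norm_mul, norm_pow, mul_pow, ← pow_mul]
  · intro p hp τ hτ
    have hup : u p.1 * u p.2 = -1 := by
      rcases hp with ⟨h1, h2⟩ | ⟨h1, h2⟩
      · rw [h1, h2, hu0]; ring
      · rw [h1, h2, hu0]; ring
    rw [vk_eta_T36, vk_w_T h u hT p hτ, hup]
    ring
  · intro p hp τ hτ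
    refine (hxb p τ hτ).trans ?_
    have h1 : a p.1 + a p.2 ≤ 3 / 2 := by
      rcases hp with ⟨h1, h2⟩ | ⟨h1, h2⟩
      · have : p.2 ≠ 0 := by rintro h; rw [h, hu0] at h2; exact hu1 h2
        simp only [ha, h1, this, h2, if_true, if_false]; norm_num
      · have : p.1 ≠ 0 := by rintro h; rw [h, hu0] at h2; exact hu1 h2
        simp only [ha, h1, this, h2, if_true, if_false]; norm_num
    have h2 : Real.exp ((2 * (a p.1 + a p.2) - 3) * Real.pi * τ.im) ≤ 1 := by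
      rw [Real.exp_le_one_iff]
      have : 0 ≤ Real.pi * τ.im := by positivity
      nlinarith
    calc M * _ ≤ M * 1 := mul_le_mul_of_nonneg_left h2 hM0
      _ = M := mul_one M
  · intro p hp τ hτ
    simp only [not_or, not_and] at hp
    by_cases h00 : p.1 = 0 ∧ p.2 = 0
    · have : vk_w h p τ = 0 := by
        unfold vk_w; rw [h00.1, h00.2]; ring
      simp only [this, mul_zero, norm_zero]
      positivity
    · refine (hxb p τ hτ).trans (mul_le_mul_of_nonneg_left (Real.exp_le_exp.2 ?_) hM0)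
      have h1 : a p.1 + a p.2 ≤ 4 / 3 := by
        by_cases h1 : p.1 = 0
        · have h2 : p.2 ≠ 0 := fun h => h00 ⟨h1, h⟩
          have h3 := hp.1 h1
          simp only [ha, h1, h2, h3, if_true, if_false]; norm_num
        · by_cases h2 : p.2 = 0
          · have h3 := hp.2 h2
            simp only [ha, h1, h2, h3, if_true, if_false]; norm_num
          · have e1 : a p.1 ≤ 1 / 2 := by
              simp only [ha, if_neg h1]; split_ifs <;> norm_num
            have e2 : a p.2 ≤ 1 / 2 := by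
              simp only [ha, if_neg h2]; split_ifs <;> norm_num
            linarith
      have : 0 ≤ Real.pi * τ.im := by positivity
      nlinarith

end Pool.Agent.Refl
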