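import Pool.Agent.Refl.Basic

/-! Module ZERO: the zeros of `f` near the cusp. -/

namespace Pool.Agent.Refl
open Matrix

variable {G : Matrix (Fin 20) (Fin 20) ℤ}

/-- coordinatewise real part -/
def zero_reC (z : VC) : VR := fun i => (z i).re

lemma zero_bil_add_left {R : Type*} [CommRing R] (x x' y : Fin 20 → R) :
    bil G (x + x') y = bil G x y + bil G x' y := by
  unfold bil
  rw [← Finset.sum_add_distrib]
  refine Finset.sum_congr rfl fun i _ => ?_
  rw [← Finset.sum_add_distrib]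
  refine Finset.sum_congr rfl fun j _ => ?_
  simp only [Pi.add_apply]; ring

lemma zero_bil_add_right {R : Type*} [CommRing R] (x y y' : Fin 20 → R) :
    bil G x (y + y') = bil G x y + bil G x y' := by
  unfold bil
  rw [← Finset.sum_add_distrib]
  refine Finset.sum_congr rfl fun i _ => ?_
  rw [← Finset.sum_add_distrib]
  refine Finset.sum_congr rfl fun j _ => ?_
  simp only [Pi.add_apply]; ring

lemma zero_bil_smul_left {R : Type*} [CommRing R] (t : R) (x y : Fin 20 → R) :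
    bil G (t • x) y = t * bil G x y := by
  unfold bil
  rw [Finset.mul_sum]
  refine Finset.sum_congr rfl fun i _ => ?_
  rw [Finset.mul_sum]
  refine Finset.sum_congr rfl fun j _ => ?_
  simp only [Pi.smul_apply, smul_eq_mul]; ring

lemma zero_bil_smul_right {R : Type*} [CommRing R] (t : R) (x y : Fin 20 → R) :
    bil G x (t • y) = t * bil G x y := by
  unfold bil
  rw [Finset.mul_sum]
  refine Finset.sum_congr rfl fun i _ => ?_
  rw [Finset.mul_sum]
  refine Finset.sum_congr rfl fun j _ => ?_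
  simp only [Pi.smul_apply, smul_eq_mul]; ring

lemma zero_bil_re (z : VC) : (bil G z z).re =
    bil G (zero_reC z) (zero_reC z) - bil G (imC z) (imC z) := by
  unfold bil zero_reC imC
  rw [← Finset.sum_sub_distrib, Complex.re_sum]
  refine Finset.sum_congr rfl fun i _ => ?_
  rw [← Finset.sum_sub_distrib, Complex.re_sum]
  refine Finset.sum_congr rfl fun j _ => ?_
  simp only [Complex.mul_re, Complex.mul_im, Complex.intCast_re, Complex.intCast_im]
  ring

lemma zero_bil_im (hG : EvenPos G) (z : VC) : (bil G z z).im =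
    2 * bil G (zero_reC z) (imC z) := by
  have h : (bil G z z).im = bil G (zero_reC z) (imC z) + bil G (imC z) (zero_reC z) := by
    unfold bil zero_reC imC
    rw [← Finset.sum_add_distrib, Complex.im_sum]
    refine Finset.sum_congr rfl fun i _ => ?_
    rw [← Finset.sum_add_distrib, Complex.im_sum]
    refine Finset.sum_congr rfl fun j _ => ?_
    simp only [Complex.mul_re, Complex.mul_im, Complex.intCast_re, Complex.intCast_im]
    ring
  rw [h, bil_symm hG (imC z) (zero_reC z)]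
  ring

lemma zero_dot_re (p : VZ) (z : VC) : (dot p z).re = dot p (zero_reC z) := by
  unfold dot zero_reC
  rw [Complex.re_sum]
  refine Finset.sum_congr rfl fun i _ => ?_
  simp only [Complex.mul_re, Complex.intCast_re, Complex.intCast_im]
  ring

lemma zero_dot_im (p : VZ) (z : VC) : (dot p z).im = dot p (imC z) := by
  unfold dot imC
  rw [Complex.im_sum]
  refine Finset.sum_congr rfl fun i _ => ?_
  simp only [Complex.mul_im, Complex.intCast_re, Complex.intCast_im]
  ring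

/-- the orthogonal complement of a vector of positive norm is negative semidefinite -/
lemma zero_lorentz (hG : EvenPos G) {t w t' w' : ℝ} {y y' : VR} (ht : 0 < t)
    (hY : bil G y y < 2 * t * w) (h : t' * w + w' * t - bil G y' y = 0) :
    2 * t' * w' - bil G y' y' ≤ 0 := by
  have h1 : 0 ≤ bil G (t • y' + (-t') • y) (t • y' + (-t') • y) := bil_nonneg hG _
  rw [zero_bil_add_left, zero_bil_add_right, zero_bil_add_right] at h1
  simp only [zero_bil_smul_left, zero_bil_smul_right] at h1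
  rw [bil_symm hG y y'] at h1
  have h2 : w' * t = bil G y' y - t' * w := by linarith
  have h3 : t ^ 2 * (2 * t' * w' - bil G y' y') ≤ 0 := by
    have : t ^ 2 * (2 * t' * w' - bil G y' y') =
        2 * t * t' * (w' * t) - t ^ 2 * bil G y' y' := by ring
    rw [this, h2]
    nlinarith [sq_nonneg t', mul_nonneg (sq_nonneg t') (sub_nonneg.mpr hY.le)]
  have h4 : 0 < t ^ 2 := by positivity
  by_contra hc
  push Not at hc
  have := mul_pos h4 hc
  linarith

/-- (Z1) -/
theorem zero_a (hG : EvenPos G) {k : ℤ} {f : ℂ → VC → ℂ → ℂ} (hf : TF G k f) {τ ω : ℂ} {z : VC}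
    (hZ : (τ, z, ω) ∈ Tube G) (hY : 2 < 2 * τ.im * ω.im - bil G (imC z) (imC z))
    (h0 : f τ z ω = 0) :
    ∃ (b n m : ℤ) (p : VZ), Allowed G 0 b n m p ∧ (b : ℂ) + n * τ + m * ω + dot p z = 0 := by
  obtain ⟨a, b, n, m, p, hA, he⟩ := hf.zero τ z ω hZ h0
  have hn := allowed_norm hG hA
  by_cases ha : a = 0
  · subst ha
    refine ⟨b, n, m, p, hA, ?_⟩
    rw [← he]; push_cast; ring
  exfalso
  have haR : (a : ℝ) ≠ 0 := by exact_mod_cast ha
  have hτ : 0 < τ.im := hZ.1
  have hre := congrArg Complex.re he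
  have him := congrArg Complex.im he
  simp only [Complex.add_re, Complex.add_im, Complex.zero_re, Complex.zero_im, Complex.mul_re,
    Complex.mul_im, Complex.neg_re, Complex.neg_im, Complex.sub_re, Complex.sub_im,
    Complex.intCast_re, Complex.intCast_im, zero_bil_re, zero_bil_im hG, zero_dot_re, zero_dot_im,
    Complex.div_ofNat_re, Complex.div_ofNat_im, Complex.re_ofNat, Complex.im_ofNat] at hre him
  have hB : bil G (zero_reC z + (a : ℝ)⁻¹ • ginv G p) (imC z) =
      bil G (zero_reC z) (imC z) + (a : ℝ)⁻¹ * dot p (imC z) := by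
    rw [zero_bil_add_left, zero_bil_smul_left, bil_ginv hG]
  have hBB : bil G (zero_reC z + (a : ℝ)⁻¹ • ginv G p) (zero_reC z + (a : ℝ)⁻¹ • ginv G p) =
      bil G (zero_reC z) (zero_reC z) + 2 * (a : ℝ)⁻¹ * dot p (zero_reC z)
        + (a : ℝ)⁻¹ ^ 2 * qd G p := by
    rw [zero_bil_add_left, zero_bil_add_right, zero_bil_add_right]
    simp only [zero_bil_smul_left, zero_bil_smul_right]
    rw [bil_symm hG (zero_reC z) (ginv G p), bil_ginv hG, bil_ginv_ginv hG]
    ring
  have hlor := zero_lorentz hG (t := τ.im) (w := ω.im) (t' := τ.re - (a : ℝ)⁻¹ * m)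
    (w' := ω.re - (a : ℝ)⁻¹ * n) (y := imC z) (y' := zero_reC z + (a : ℝ)⁻¹ • ginv G p) hτ
    (by linarith) (by
      rw [hB]
      have : (a : ℝ) * (τ.re * ω.im + ω.re * τ.im - bil G (zero_reC z) (imC z)) =
          n * τ.im + m * ω.im + dot p (imC z) := by linarith
      have h2 : τ.re * ω.im + ω.re * τ.im - bil G (zero_reC z) (imC z) =
          (a : ℝ)⁻¹ * (n * τ.im + m * ω.im + dot p (imC z)) := by
        rw [← this]; field_simp
      linarith)
  rw [hBB] at hlor
  have hX : (a : ℝ)⁻¹ * (b + n * τ.re + m * ω.re + dot p (zero_reC z)) * 2 =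
      2 * τ.re * ω.re - bil G (zero_reC z) (zero_reC z)
        - (2 * τ.im * ω.im - bil G (imC z) (imC z)) := by
    have : (b : ℝ) + n * τ.re + m * ω.re + dot p (zero_reC z) =
        a * (2 * τ.re * ω.re - bil G (zero_reC z) (zero_reC z)
        - (2 * τ.im * ω.im - bil G (imC z) (imC z))) / 2 := by linarith
    rw [this]; field_simp
  have key : 2 * (τ.re - (a : ℝ)⁻¹ * m) * (ω.re - (a : ℝ)⁻¹ * n) -
      (bil G (zero_reC z) (zero_reC z) + 2 * (a : ℝ)⁻¹ * dot p (zero_reC z)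
        + (a : ℝ)⁻¹ ^ 2 * qd G p) =
      (2 * τ.im * ω.im - bil G (imC z) (imC z)) +
        (a : ℝ)⁻¹ ^ 2 * (2 * (a : ℝ) * b + 2 * n * m - qd G p) := by
    have h5 : (a : ℝ)⁻¹ ^ 2 * (2 * (a : ℝ) * b + 2 * n * m - qd G p) =
        2 * (a : ℝ)⁻¹ * b + (a : ℝ)⁻¹ ^ 2 * (2 * n * m - qd G p) := by
      field_simp
      ring
    rw [h5]
    linarith
  rw [key] at hlor
  have ha2 : (a : ℝ)⁻¹ ^ 2 ≤ 1 := by
    have h6 : (1 : ℝ) ≤ (a : ℝ) ^ 2 := by
      have : (1 : ℤ) ≤ a ^ 2 := by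
        have := sq_pos_of_ne_zero ha
        omega
      exact_mod_cast this
    rw [inv_pow]
    exact inv_le_one_of_one_le₀ h6
  nlinarith [hn.1, hn.2, sq_nonneg ((a : ℝ)⁻¹)]

/-- (Z2) -/
theorem zero_m (hG : EvenPos G) {k : ℤ} {f : ℂ → VC → ℂ → ℂ} (hf : TF G k f) {τ ω : ℂ} {z : VC}
    (hZ : (τ, z, ω) ∈ Tube G) (hY : 2 < 2 * τ.im * ω.im - bil G (imC z) (imC z))
    (hω : bil G (imC z) (imC z) / (2 * τ.im) + τ.im < ω.im) (h0 : f τ z ω = 0) :
    ∃ (b n : ℤ) (p : VZ), 0 < qd G p ∧ qd G p ≤ 2 ∧ (b : ℂ) + n * τ + dot p z = 0 := by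
  obtain ⟨b, n, m, p, hA, he⟩ := zero_a hG hf hZ hY h0
  have hn := allowed_norm hG hA
  have hτ : 0 < τ.im := hZ.1
  by_cases hm : m = 0
  · subst hm
    refine ⟨b, n, p, ?_, ?_, ?_⟩
    · have := hn.2; push_cast at this; linarith
    · have := hn.1; push_cast at this; linarith
    · rw [← he]; push_cast; ring
  exfalso
  have hmR : (m : ℝ) ≠ 0 := by exact_mod_cast hm
  have him := congrArg Complex.im he
  simp only [Complex.add_im, Complex.zero_im, Complex.mul_im,
    Complex.intCast_re, Complex.intCast_im, zero_dot_im] at him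
  have h1 : 0 ≤ bil G ((τ.im)⁻¹ • imC z + (m : ℝ)⁻¹ • ginv G p)
      ((τ.im)⁻¹ • imC z + (m : ℝ)⁻¹ • ginv G p) := bil_nonneg hG _
  rw [zero_bil_add_left, zero_bil_add_right, zero_bil_add_right] at h1
  simp only [zero_bil_smul_left, zero_bil_smul_right] at h1
  rw [bil_symm hG (imC z) (ginv G p), bil_ginv hG, bil_ginv_ginv hG] at h1
  have hm2 : (m : ℝ)⁻¹ ^ 2 ≤ 1 := by
    have h6 : (1 : ℝ) ≤ (m : ℝ) ^ 2 := by
      have : (1 : ℤ) ≤ m ^ 2 := by
        have := sq_pos_of_ne_zero hm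
        omega
      exact_mod_cast this
    rw [inv_pow]
    exact inv_le_one_of_one_le₀ h6
  have hn1 : -2 ≤ 2 * (n : ℝ) * m - qd G p := by
    have := hn.1; push_cast at this; linarith
  have h7 : -2 ≤ (m : ℝ)⁻¹ ^ 2 * (2 * (n : ℝ) * m - qd G p) := by
    nlinarith [sq_nonneg ((m : ℝ)⁻¹)]
  have h8 : (m : ℝ)⁻¹ ^ 2 * (2 * (n : ℝ) * m) = 2 * (m : ℝ)⁻¹ * n := by
    field_simp
  have hw : ω.im = -((m : ℝ)⁻¹ * (n * τ.im + dot p (imC z))) := by
    have : (m : ℝ) * ω.im = -(n * τ.im + dot p (imC z)) := by linarith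
    have h9 : ω.im = (m : ℝ)⁻¹ * (m * ω.im) := by field_simp
    rw [h9, this]; ring
  have h10 : bil G (imC z) (imC z) / (2 * τ.im) = τ.im / 2 *
      ((τ.im)⁻¹ * ((τ.im)⁻¹ * bil G (imC z) (imC z))) := by
    field_simp
  have h11 : (m : ℝ)⁻¹ * dot p (imC z) = τ.im / 2 *
      (2 * ((τ.im)⁻¹ * ((m : ℝ)⁻¹ * dot p (imC z)))) := by
    field_simp
  have h12 : 0 ≤ τ.im / 2 * ((τ.im)⁻¹ * ((τ.im)⁻¹ * bil G (imC z) (imC z)) +
      2 * ((τ.im)⁻¹ * ((m : ℝ)⁻¹ * dot p (imC z))) + (m : ℝ)⁻¹ ^ 2 * qd G p) := by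
    refine mul_nonneg (by linarith) ?_
    linarith
  have h13 : 0 ≤ τ.im / 2 * ((m : ℝ)⁻¹ ^ 2 * (2 * (n : ℝ) * m - qd G p) + 2) :=
    mul_nonneg (by linarith) (by linarith)
  have h14 : τ.im / 2 * ((m : ℝ)⁻¹ ^ 2 * (2 * (n : ℝ) * m - qd G p) + 2) =
      (m : ℝ)⁻¹ * n * τ.im + τ.im - τ.im / 2 * ((m : ℝ)⁻¹ ^ 2 * qd G p) := by
    rw [mul_sub, h8]; ring
  rw [hw] at hω
  rw [h10] at hω
  linarith

end Pool.Agent.Refl
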